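import Pool.Agent.H985R3.TA.Defs3

/-!
Two-arm project, task MON (helper57): monotonicity of the two arm event.
-/

set_option autoImplicit false

namespace H985T

open H974 Finset

theorem MON_invol (s : Fin 4) (e : Edg) : (sy s).φ ((sy s).φ e) = e := by
  obtain ⟨x, y, β⟩ := e
  fin_cases s <;> cases β <;> simp [sy, sy0, sy1, sy2, sy3]

theorem MON_invol_f (s : Fin 4) (a : Vtx) : (sy s).ψf ((sy s).ψf a) = a := by
  obtain ⟨x, y⟩ := a
  fin_cases s <;> simp [sy, sy0, sy1, sy2, sy3]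

theorem MON_box (s : Fin 4) (m : ℕ) (e : Edg) : (sy s).φ e ∈ boxE m ↔ e ∈ boxE m := by
  obtain ⟨x, y, β⟩ := e
  unfold boxE
  fin_cases s <;> cases β <;> simp [sy, sy0, sy1, sy2, sy3] <;> omega

theorem MON_out (s : Fin 4) (k : ℕ) (w : Vtx) :
    (sy s).ψf w ∈ outF (-(k:ℤ)) k (-(k:ℤ)) k ↔ w ∈ outF (-(k:ℤ)) k (-(k:ℤ)) k := by
  obtain ⟨x, y⟩ := w
  unfold outF
  fin_cases s <;> simp [sy, sy0, sy1, sy2, sy3] <;> omega

theorem MON_dreach (g : DSym) {H : Set Edg} {a b : Vtx} (h : DReach H a b) :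
    DReach (g.φ '' H) (g.ψf a) (g.ψf b) := by
  induction h with
  | refl => exact DReach.refl _ _
  | tail _ hs ih =>
    refine ih.tail ?_
    obtain ⟨e, he, hcase⟩ := hs
    refine ⟨g.φ e, ⟨e, he, rfl⟩, ?_⟩
    rcases g.dcompat e with ⟨h1, h2⟩ | ⟨h1, h2⟩ <;> rcases hcase with ⟨h3, h4⟩ | ⟨h3, h4⟩
    · left; rw [h1, h2, h3, h4]; exact ⟨rfl, rfl⟩
    · right; rw [h1, h2, h3, h4]; exact ⟨rfl, rfl⟩
    · right; rw [h1, h2, h3, h4]; exact ⟨rfl, rfl⟩
    · left; rw [h1, h2, h3, h4]; exact ⟨rfl, rfl⟩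

/-- first exit of an open path -/
theorem MON_pexit {k : ℕ} {G F : Set Edg} (hG : G ⊆ F) {v : Vtx}
    (h : Reach G (0, 0) v) (hv : v.1 ≤ -(k:ℤ) ∨ (k:ℤ) ≤ v.1 ∨ v.2 ≤ -(k:ℤ) ∨ (k:ℤ) ≤ v.2) :
    ∃ u, onB k u ∧ Reach (F ∩ ↑(boxE k)) (0, 0) u := by
  obtain ⟨w, h1, h2, h3⟩ := first_exit (a := -(k:ℤ)) (b := k) (c := -(k:ℤ)) (d := k)
    (by unfold inR; simp) h hv
  exact ⟨w, ⟨h1, h2⟩, h3.mono (Set.inter_subset_inter_left _ hG)⟩

/-- first exit of a dual path -/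
theorem MON_dexit {k : ℕ} {G F : Set Edg} (hG : ∀ e ∈ G, e ∉ F) {f w : Vtx}
    (h : DReach G f w) (hw : w ∈ outF (-(k:ℤ)) k (-(k:ℤ)) k) :
    ∃ w' ∈ outF (-(k:ℤ)) k (-(k:ℤ)) k, DReach (↑(boxE k) \ F) f w' := by
  have key : ∀ w, DReach G f w → (∃ w' ∈ outF (-(k:ℤ)) k (-(k:ℤ)) k,
      DReach (↑(boxE k) \ F) f w') ∨ DReach (↑(boxE k) \ F) f w := by
    intro w hw
    induction hw with
    | refl => exact Or.inr (DReach.refl _ _)
    | @tail a b _ hs ih =>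
      rcases ih with ih | ih
      · exact Or.inl ih
      · by_cases ha : a ∈ outF (-(k:ℤ)) k (-(k:ℤ)) k
        · exact Or.inl ⟨a, ha, ih⟩
        · right
          obtain ⟨e, he, hcase⟩ := hs
          refine ih.tail ⟨e, ⟨?_, hG e he⟩, hcase⟩
          apply mem_coe.2
          obtain ⟨x, y, β⟩ := e
          unfold boxE
          simp only [outF, Set.mem_ofPred_eq, not_or, not_lt, not_le] at ha
          cases β
          · rw [mem_RE_false]
            rcases hcase with ⟨h1, h2⟩ | ⟨h1, h2⟩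
            · simp only [dsrc_false] at h1
              rw [← h1] at ha
              simp only at ha
              omega
            · simp only [dtgt_mk] at h2
              rw [← h2] at ha
              simp only at ha
              omega
          · rw [mem_RE_true]
            rcases hcase with ⟨h1, h2⟩ | ⟨h1, h2⟩
            · simp only [dsrc_true] at h1
              rw [← h1] at ha
              simp only at ha
              omega
            · simp only [dtgt_mk] at h2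
              rw [← h2] at ha
              simp only at ha
              omega
  rcases key w h with h1 | h1
  · exact h1
  · exact ⟨w, hw, h1⟩

theorem MON_out_mono {k m : ℕ} (hkm : k ≤ m) {w : Vtx} (h : w ∈ outF (-(m:ℤ)) m (-(m:ℤ)) m) :
    w ∈ outF (-(k:ℤ)) k (-(k:ℤ)) k := by
  unfold outF at h ⊢
  simp only [Set.mem_ofPred_eq] at h ⊢
  omega

theorem MON_LfS {m ρ : ℕ} {s : Fin 4} {c' : ℤ} {f : Vtx} {F : Set Edg}
    (h2 : LfS m ρ s c' f F) :
    ∃ w ∈ outF (-((m / 2 : ℕ):ℤ)) (m / 2 : ℕ) (-((m / 2 : ℕ):ℤ)) (m / 2 : ℕ),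
      DReach (↑(boxE (m / 2)) \ F) f w := by
  obtain ⟨w2, -, hd⟩ := h2
  obtain ⟨w', hw', hd'⟩ := MON_dexit (k := m / 2) (F := (sy s).φ '' F)
    (fun e he => he.2) hd (w := ((m:ℤ), w2)) (by
      unfold outF
      simp only [Set.mem_ofPred_eq]
      omega)
  refine ⟨(sy s).ψf w', (MON_out s _ _).2 hw', ?_⟩
  have h1 := MON_dreach (sy s) hd'
  rw [MON_invol_f] at h1
  refine h1.mono ?_
  rintro _ ⟨e, ⟨he1, he2⟩, rfl⟩
  refine ⟨mem_coe.2 ((MON_box s _ _).2 (mem_coe.1 he1)), ?_⟩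
  intro hF
  exact he2 ⟨(sy s).φ e, hF, MON_invol s e⟩

theorem A2g_half {m : ℕ} {f : Vtx} (hf : corner (0, 0) f) {F : Set Edg} (h : A2g m f F) :
    A2g (m / 2) f F := by
  obtain ⟨⟨u, hu, hr⟩, w, hw, hd⟩ := h
  refine ⟨MON_pexit Set.inter_subset_left hr ?_, ?_⟩
  · obtain ⟨_, h2⟩ := hu
    omega
  · exact MON_dexit (fun e he => he.2) hd (MON_out_mono (Nat.div_le_self m 2) hw)

theorem A2g_of_L {m ρ : ℕ} {s : Fin 4} {c c' : ℤ} {f : Vtx} (hm : 4 ≤ m)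
    (hf : corner (0, 0) f)
    {F : Set Edg} (h1 : Lv m ρ c F) (h2 : LfS m ρ s c' f F) : A2g (m / 2) f F := by
  obtain ⟨u2, -, hr⟩ := h1
  refine ⟨MON_pexit Set.inter_subset_left hr ?_, MON_LfS h2⟩
  simp only
  omega

theorem A2g_of_T {m ρ : ℕ} {s : Fin 4} {c c' : ℤ} {f : Vtx} (hm : 4 ≤ m)
    (hf : corner (0, 0) f)
    {F : Set Edg} (h1 : Tv m ρ c F) (h2 : LfS m ρ s c' f F) : A2g (m / 2) f F := by
  obtain ⟨z2, hr⟩ := h1
  refine ⟨MON_pexit Set.inter_subset_left hr ?_, MON_LfS h2⟩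
  simp only
  omega

theorem A2_iff (m : ℕ) (F : Finset Edg) (hF : F ⊆ boxE m) : A2 m F ↔ A2g m (0, 0) ↑F := by
  unfold A2 A2g
  have e1 : (↑F : Set Edg) ∩ ↑(boxE m) = ↑F := Set.inter_eq_left.2 (by exact_mod_cast hF)
  rw [e1, coe_sdiff]
  rfl

end H985T
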