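import Pool.Agent.H985R3.TA.Defs4
import Pool.Agent.H985R3.TA.MON

/-!
Two-arm project, task INDI: monotonicity and independence for the annulus.
-/

set_option autoImplicit false

namespace H985T

open H974 Finset

theorem INDI_memAn {a N : ℕ} {e : Edg} : e ∈ An a N ↔ e ∈ boxE N ∧ e ∉ boxE a := by
  unfold An
  rw [mem_sdiff]

/-- last exit of an open path from the box `b` -/
theorem INDI_pexit {b N : ℕ} (hb : b ≤ N) {G F : Set Edg} (hG : G ⊆ F)
    (hG2 : ∀ e ∈ G, e ∈ boxE N) {u' : Vtx} (hu' : onB N u') {u : Vtx}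
    (h : Reach G u' u) (hu : inR (-b) b (-b) b u) :
    ∃ v, onB b v ∧ Reach (F ∩ ↑(An b N)) v u' := by
  have key : ∀ x, Reach G u' x → (∃ v, onB b v ∧ Reach (F ∩ ↑(An b N)) v u') ∨
      (¬ inR (-b) b (-b) b x ∧ Reach (F ∩ ↑(An b N)) x u') := by
    intro x hx
    induction hx with
    | refl =>
      by_cases h1 : inR (-b) b (-b) b u'
      · left
        refine ⟨u', ⟨h1, ?_⟩, Reach.refl _ _⟩
        obtain ⟨_, h3⟩ := hu'
        unfold inR at h1
        omega
      · exact Or.inr ⟨h1, Reach.refl _ _⟩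
    | @tail x y _ hs ih =>
      rcases ih with ih | ⟨hx1, hx2⟩
      · exact Or.inl ih
      · obtain ⟨e, he, hcase⟩ := hs
        have heb : e ∉ boxE b := by
          intro heb
          apply hx1
          obtain ⟨p, q, β⟩ := e
          unfold boxE at heb
          unfold inR
          cases β
          · rw [mem_RE_false] at heb
            simp only [src_mk, tgt_false] at hcase
            rcases hcase with ⟨h1, _⟩ | ⟨_, h1⟩ <;> rw [← h1] <;> simp only <;> omega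
          · rw [mem_RE_true] at heb
            simp only [src_mk, tgt_true] at hcase
            rcases hcase with ⟨h1, _⟩ | ⟨_, h1⟩ <;> rw [← h1] <;> simp only <;> omega
        have hadj : Adj (F ∩ ↑(An b N)) y x :=
          ⟨e, ⟨hG he, mem_coe.2 (INDI_memAn.2 ⟨hG2 e he, heb⟩)⟩, hcase.symm⟩
        have hr : Reach (F ∩ ↑(An b N)) y u' := Relation.ReflTransGen.head hadj hx2
        by_cases hy : inR (-b) b (-b) b y
        · left
          refine ⟨y, ⟨hy, ?_⟩, hr⟩
          obtain ⟨p, q, β⟩ := e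
          unfold inR at hy hx1
          cases β
          · simp only [src_mk, tgt_false] at hcase
            rcases hcase with ⟨h1, h2⟩ | ⟨h2, h1⟩ <;> rw [← h1] at hx1 <;> rw [← h2] at hy ⊢ <;>
              simp only at hx1 hy ⊢ <;> omega
          · simp only [src_mk, tgt_true] at hcase
            rcases hcase with ⟨h1, h2⟩ | ⟨h2, h1⟩ <;> rw [← h1] at hx1 <;> rw [← h2] at hy ⊢ <;>
              simp only at hx1 hy ⊢ <;> omega
        · exact Or.inr ⟨hy, hr⟩
  rcases key u h with h1 | ⟨h1, _⟩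
  · exact h1
  · exact absurd hu h1

/-- last exit of a dual path from the box `b` -/
theorem INDI_dexit {b N : ℕ} (hb : b ≤ N) {G F : Set Edg} (hG : ∀ e ∈ G, e ∉ F)
    (hG2 : ∀ e ∈ G, e ∈ boxE N) {w' : Vtx} (hw' : nb N w') {w : Vtx}
    (h : DReach G w' w)
    (hw : nb b w ∨ ((-(b:ℤ) ≤ w.1 ∧ w.1 < b) ∧ (-(b:ℤ) ≤ w.2 ∧ w.2 < b))) :
    ∃ v, nb b v ∧ DReach (↑(An b N) \ F) v w' := by
  have key : ∀ x, DReach G w' x → (∃ v, nb b v ∧ DReach (↑(An b N) \ F) v w') ∨
      (¬ ((-(b:ℤ) ≤ x.1 ∧ x.1 < b) ∧ (-(b:ℤ) ≤ x.2 ∧ x.2 < b)) ∧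
        DReach (↑(An b N) \ F) x w') := by
    intro x hx
    induction hx with
    | refl =>
      refine Or.inr ⟨?_, DReach.refl _ _⟩
      unfold nb at hw'
      omega
    | @tail x y _ hs ih =>
      rcases ih with ih | ⟨hx1, hx2⟩
      · exact Or.inl ih
      · obtain ⟨e, he, hcase⟩ := hs
        by_cases heb : e ∈ boxE b
        · left
          refine ⟨x, ?_, hx2⟩
          obtain ⟨p, q, β⟩ := e
          unfold boxE at heb
          unfold nb
          cases β
          · rw [mem_RE_false] at heb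
            simp only [dtgt_mk, dsrc_false] at hcase
            rcases hcase with ⟨h1, _⟩ | ⟨_, h1⟩ <;> rw [← h1] at hx1 ⊢ <;>
              simp only at hx1 ⊢ <;> omega
          · rw [mem_RE_true] at heb
            simp only [dtgt_mk, dsrc_true] at hcase
            rcases hcase with ⟨h1, _⟩ | ⟨_, h1⟩ <;> rw [← h1] at hx1 ⊢ <;>
              simp only at hx1 ⊢ <;> omega
        · have hadj : DAdj (↑(An b N) \ F) y x :=
            ⟨e, ⟨mem_coe.2 (INDI_memAn.2 ⟨hG2 e he, heb⟩), hG e he⟩, hcase.symm⟩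
          have hr : DReach (↑(An b N) \ F) y w' := Relation.ReflTransGen.head hadj hx2
          refine Or.inr ⟨?_, hr⟩
          intro hy
          apply heb
          obtain ⟨p, q, β⟩ := e
          unfold boxE
          cases β
          · rw [mem_RE_false]
            simp only [dtgt_mk, dsrc_false] at hcase
            rcases hcase with ⟨_, h2⟩ | ⟨h2, _⟩ <;> rw [← h2] at hy <;>
              simp only at hy <;> omega
          · rw [mem_RE_true]
            simp only [dtgt_mk, dsrc_true] at hcase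
            rcases hcase with ⟨_, h2⟩ | ⟨h2, _⟩ <;> rw [← h2] at hy <;>
              simp only at hy <;> omega
  rcases key w h with h1 | ⟨h1, h2⟩
  · exact h1
  · rcases hw with hw | hw
    · exact ⟨w, hw, h2⟩
    · exact absurd hw h1

theorem AA_mono {a b N : ℕ} (hab : a ≤ b) (hN : b ≤ N) {F : Set Edg} (h : AA a N F) :
    AA b N F := by
  obtain ⟨⟨u, u', hu, hu', hr⟩, w, w', hw, hw', hd⟩ := h
  constructor
  · obtain ⟨v, hv, hv2⟩ := INDI_pexit hN (G := F ∩ ↑(An a N)) (F := F) Set.inter_subset_left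
      (fun e he => (INDI_memAn.1 (mem_coe.1 he.2)).1) hu' hr.symm (by
        obtain ⟨h1, _⟩ := hu
        unfold inR at h1 ⊢
        omega)
    exact ⟨v, u', hv, hu', hv2⟩
  · obtain ⟨v, hv, hv2⟩ := INDI_dexit hN (G := ↑(An a N) \ F) (F := F) (fun e he => he.2)
      (fun e he => (INDI_memAn.1 (mem_coe.1 he.1)).1) hw' hd.symm (by
        unfold nb at hw ⊢
        omega)
    exact ⟨v, w', hv, hw', hv2⟩

theorem INDI_nb (s : Fin 4) (k : ℕ) (w : Vtx) : nb k ((sy s).ψf w) ↔ nb k w := by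
  obtain ⟨x, y⟩ := w
  unfold nb
  fin_cases s <;> simp [sy, sy0, sy1, sy2, sy3] <;> omega

theorem INDI_LfiS {a N ρ : ℕ} {s : Fin 4} {c' : ℤ} (ha : 1 ≤ a) (hc' : |c'| + ρ < a)
    (hN : 2 * a ≤ N) {F : Set Edg} (h2 : LfiS a N ρ s c' F) :
    ∃ w w', nb (2 * a) w ∧ nb N w' ∧ DReach (↑(An (2 * a) N) \ F) w w' := by
  obtain ⟨w2, hw2, w', hw', hd⟩ := h2
  have hcl := abs_lt.1 (lt_of_le_of_lt (le_add_of_nonneg_right (Int.natCast_nonneg ρ)) hc')
  have hwl := abs_le.1 (show |w2 - c'| ≤ ρ by omega)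
  have hcc : |c'| < a - ρ := by omega
  have hcc2 := abs_lt.1 hcc
  obtain ⟨v, hv, hv2⟩ := INDI_dexit (b := 2 * a) hN (G := ↑(An a N) \ (sy s).φ '' F)
    (F := (sy s).φ '' F) (fun e he => he.2)
    (fun e he => (INDI_memAn.1 (mem_coe.1 he.1)).1) hw' hd.symm (by
      right
      simp only
      push_cast
      omega)
  refine ⟨(sy s).ψf v, (sy s).ψf w', (INDI_nb s _ _).2 hv, (INDI_nb s _ _).2 hw', ?_⟩
  refine (MON_dreach (sy s) hv2).mono ?_
  rintro _ ⟨e, ⟨he1, he2⟩, rfl⟩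
  have he3 := INDI_memAn.1 (mem_coe.1 he1)
  refine ⟨mem_coe.2 (INDI_memAn.2 ⟨(MON_box s _ _).2 he3.1,
    fun h => he3.2 ((MON_box s _ _).1 h)⟩), ?_⟩
  intro hF
  exact he2 ⟨(sy s).φ e, hF, MON_invol s e⟩

theorem AA_of_L {a N ρ : ℕ} {s : Fin 4} {c c' : ℤ} (ha : 1 ≤ a) (hc : |c| + ρ < a)
    (hc' : |c'| + ρ < a) (hN : 2 * a ≤ N) {F : Set Edg} (h1 : Lvi a N ρ c F)
    (h2 : LfiS a N ρ s c' F) : AA (2 * a) N F := by
  refine ⟨?_, INDI_LfiS ha hc' hN h2⟩
  obtain ⟨u2, hu2, u', hu', hr⟩ := h1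
  have hwl := abs_le.1 (show |u2 - c| ≤ ρ by omega)
  have hcc2 := abs_lt.1 (show |c| < a - ρ by omega)
  obtain ⟨v, hv, hv2⟩ := INDI_pexit (b := 2 * a) hN (G := F ∩ ↑(An a N)) (F := F)
    Set.inter_subset_left (fun e he => (INDI_memAn.1 (mem_coe.1 he.2)).1) hu' hr.symm (by
      unfold inR
      simp only
      push_cast
      omega)
  exact ⟨v, u', hv, hu', hv2⟩

theorem AA_of_T {a N ρ : ℕ} {s : Fin 4} {c c' : ℤ} (ha : 1 ≤ a) (hc : |c| + 20 * ρ ≤ a)
    (hρ : 1 ≤ ρ) (hc' : |c'| + ρ < a) (hN : 2 * a ≤ N) {F : Set Edg} (h1 : Tvi a N ρ c F)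
    (h2 : LfiS a N ρ s c' F) : AA (2 * a) N F := by
  refine ⟨?_, INDI_LfiS ha hc' hN h2⟩
  obtain ⟨z2, hz2, u', hu', hr⟩ := h1
  have hwl := abs_le.1 hz2
  have hcc2 := abs_le.1 (show |c| ≤ a - 20 * ρ by omega)
  obtain ⟨v, hv, hv2⟩ := INDI_pexit (b := 2 * a) hN (G := F ∩ ↑(An a N ∪ tubeI a ρ c)) (F := F)
    Set.inter_subset_left (by
      rintro e ⟨_, he⟩
      rcases mem_union.1 (mem_coe.1 he) with he | he
      · exact (INDI_memAn.1 he).1
      · obtain ⟨x, y, β⟩ := e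
        unfold tubeI at he
        unfold boxE
        cases β
        · rw [mem_RE_false] at he ⊢
          omega
        · rw [mem_RE_true] at he ⊢
          omega) hu' hr.symm (by
      unfold inR
      simp only
      push_cast
      omega)
  exact ⟨v, u', hv, hu', hv2⟩

/-- the event only depends on the annulus -/
theorem INDI_loc (b N : ℕ) (F : Set Edg) : AA b N F ↔ AA b N (F ∩ ↑(An b N)) := by
  unfold AA
  rw [Set.inter_assoc, Set.inter_self]
  have : (↑(An b N) : Set Edg) \ (F ∩ ↑(An b N)) = ↑(An b N) \ F := by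
    ext e
    simp only [Set.mem_sdiff, Set.mem_inter_iff]
    tauto
  rw [this]

theorem outer_indep {b N : ℕ} (hb : b ≤ N) {U : Finset Edg} (hU : An b N ⊆ U)
    {Bd : Finset Edg → Prop} (hB : ∀ F, F ⊆ U → (Bd F ↔ Bd (F ∩ boxE b))) :
    H12S.PQ (1 / 2) U (fun F => AA b N ↑F ∧ Bd F) = pAA b N * H12S.PQ (1 / 2) U Bd := by
  have hA : ∀ F, F ⊆ U → (AA b N (↑F : Set Edg) ↔ AA b N (↑(F ∩ An b N) : Set Edg)) := by
    intro F _
    rw [coe_inter]
    exact INDI_loc b N _
  have hB' : ∀ F, F ⊆ U → (Bd F ↔ Bd (F ∩ (U ∩ boxE b))) := by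
    intro F hF
    have : F ∩ (U ∩ boxE b) = F ∩ boxE b := by
      rw [← inter_assoc, inter_eq_left.2 hF]
    rw [this]
    exact hB F hF
  have hd : Disjoint (An b N) (U ∩ boxE b) := by
    rw [Finset.disjoint_left]
    intro e he he'
    exact (INDI_memAn.1 he).2 (mem_inter.1 he').2
  have h1 := Pr_indep (p := fun _ => (1 / 2 : ℝ)) hU (inter_subset_left : U ∩ boxE b ⊆ U)
    hd hA hB'
  have h2 : Pr (fun _ => (1 / 2 : ℝ)) U (fun F => AA b N (↑F : Set Edg)) = pAA b N := by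
    rw [Pr_local hU hA]
    rfl
  rw [h2] at h1
  exact h1

end H985T
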