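import Pool.Agent.H985R3.TA.Main
import Pool.Agent.H985R3.TA.INDI
import Pool.Agent.H934R3.D74.Defs
import Pool.Agent.H974R2.Infinite

/-!
# Two-arm project: two arms in annuli for critical bond percolation on `ℤ²` (infinite volume)
-/

set_option autoImplicit false

namespace H985T

open H974 Finset MeasureTheory

theorem AA_congr {b n : ℕ} {F G : Set Edg} (h : F ∩ ↑(An b n) = G ∩ ↑(An b n)) :
    AA b n F ↔ AA b n G := by
  rw [INDI_loc b n F, INDI_loc b n G, h]

/-- two arms of the origin contain two arms through every annulus -/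
theorem A2g_AA {b n : ℕ} (hbn : b ≤ n) {F : Set Edg} (h : A2g n (0, 0) F) (hb : 1 ≤ b) :
    AA b n F := by
  obtain ⟨⟨u, hu, hr⟩, w, hw, hd⟩ := h
  constructor
  · obtain ⟨v, hv, hv2⟩ := INDI_pexit hbn (G := F ∩ ↑(boxE n)) (F := F) Set.inter_subset_left
      (fun e he => he.2) hu hr.symm (by unfold inR; simp)
    exact ⟨v, u, hv, hu, hv2⟩
  · -- first face outside the box `n`
    obtain ⟨w', hw', hd'⟩ : ∃ w', nb n w' ∧ DReach (↑(boxE n) \ F) (0, 0) w' := by
      have key : ∀ x, DReach (↑(boxE n) \ F) (0, 0) x →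
          (∃ w', nb n w' ∧ DReach (↑(boxE n) \ F) (0, 0) w') ∨
            ((-(n:ℤ) ≤ x.1 ∧ x.1 < n) ∧ (-(n:ℤ) ≤ x.2 ∧ x.2 < n)) := by
        intro x hx
        induction hx with
        | refl => right; simp only; omega
        | @tail x y hxy hs ih =>
          rcases ih with ih | ih
          · exact Or.inl ih
          by_cases hy : (-(n:ℤ) ≤ y.1 ∧ y.1 < n) ∧ (-(n:ℤ) ≤ y.2 ∧ y.2 < n)
          · exact Or.inr hy
          · left
            refine ⟨y, ?_, hxy.tail hs⟩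
            obtain ⟨⟨p, q, b'⟩, he, hc⟩ := hs
            have he1 := he.1
            unfold boxE at he1
            rw [mem_coe] at he1
            obtain ⟨x1, x2⟩ := x
            obtain ⟨y1, y2⟩ := y
            cases b'
            · rw [mem_RE_false] at he1
              simp only [dsrc_false, dtgt_mk, Prod.mk.injEq] at hc
              unfold nb
              simp only at ih hy ⊢
              omega
            · rw [mem_RE_true] at he1
              simp only [dsrc_true, dtgt_mk, Prod.mk.injEq] at hc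
              unfold nb
              simp only at ih hy ⊢
              omega
      rcases key w hd with h1 | h1
      · exact h1
      · exfalso
        unfold outF at hw
        simp only [Set.mem_ofPred_eq] at hw
        omega
    obtain ⟨v, hv, hv2⟩ := INDI_dexit hbn (G := ↑(boxE n) \ F) (F := F) (fun e he => he.2)
      (fun e he => he.1) hw' hd'.symm (Or.inr (by simp only; omega))
    exact ⟨v, w', hv, hw', hv2⟩

/-- lower bound in annuli -/
theorem pAA_lower : ∃ c : ℝ, 0 < c ∧ ∀ b n : ℕ, 1 ≤ b → b ≤ n →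
    c * ((b:ℝ) / n) ^ (1/4 : ℝ) ≤ pAA b n := by
  obtain ⟨c0, hc0, hlow⟩ := pi2_lower
  obtain ⟨C, hC, hup⟩ := pi2_upper
  refine ⟨c0 / C, by positivity, ?_⟩
  intro b n hb hbn
  have hb0 : (0:ℝ) < b := by exact_mod_cast hb
  have hn0 : (0:ℝ) < n := by exact_mod_cast (hb.trans hbn)
  have h1 : pi2 n ≤ pi2 b * pAA b n := by
    have e1 : pi2 n ≤ H12S.PQ (1 / 2) (boxE n)
        (fun F => A2g b (0, 0) ↑F ∧ AA b n (↑(F \ boxE b) : Set Edg)) := by
      unfold pi2
      refine Pr_mono rec_ok ?_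
      intro F hF h
      rw [A2_iff n F hF] at h
      refine ⟨?_, ?_⟩
      · obtain ⟨⟨u, hu, hr⟩, w, hw, hd⟩ := h
        refine ⟨MON_pexit Set.inter_subset_left hr ?_, ?_⟩
        · obtain ⟨_, h2⟩ := hu
          omega
        · exact MON_dexit (fun e he => he.2) hd (MON_out_mono hbn hw)
      · have h2 := A2g_AA hbn h hb
        refine (AA_congr ?_).mp h2
        ext e
        simp only [coe_sdiff, Set.mem_inter_iff, Set.mem_sdiff, mem_coe, INDI_memAn]
        tauto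
    have e2 := inner_indep (m := b) (f0 := 0) (Or.inl rfl) (U := boxE n)
      (by
        rintro ⟨x, y, β⟩ he
        unfold boxE at he ⊢
        cases β
        · rw [mem_RE_false] at he ⊢; omega
        · rw [mem_RE_true] at he ⊢; omega)
      (Bd := fun F => AA b n (↑(F \ boxE b) : Set Edg)) (by
        intro F _
        rw [Finset.sdiff_idem])
    rw [e2] at e1
    refine e1.trans (mul_le_mul_of_nonneg_left ?_ (rec_pi2_nonneg b))
    unfold pAA
    have hsub : An b n ⊆ boxE n := by unfold An; exact sdiff_subset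
    have e3 : H12S.PQ (1 / 2) (boxE n) (fun F => AA b n (↑F : Set Edg)) =
        H12S.PQ (1 / 2) (An b n) (fun F => AA b n (↑F : Set Edg)) := by
      refine Pr_local hsub ?_
      intro F _
      rw [coe_inter]
      exact INDI_loc b n _
    rw [← e3]
    refine Pr_mono rec_ok ?_
    intro F _ h
    refine (AA_congr ?_).mp h
    ext e
    simp only [coe_sdiff, Set.mem_inter_iff, Set.mem_sdiff, mem_coe, INDI_memAn]
    tauto
  have h2 := hlow n (hb.trans hbn)
  have h3 := hup b hb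
  have hx : 0 < (b:ℝ) ^ (-(1/4 : ℝ)) := Real.rpow_pos_of_pos hb0 _
  have hp : 0 ≤ pAA b n := Pr_nonneg rec_ok _ _
  have h4 : c0 * (n:ℝ) ^ (-(1/4 : ℝ)) ≤ C * (b:ℝ) ^ (-(1/4 : ℝ)) * pAA b n :=
    h2.trans (h1.trans (mul_le_mul_of_nonneg_right h3 hp))
  have h5 : ((b:ℝ) / n) ^ (1/4 : ℝ) * (b:ℝ) ^ (-(1/4 : ℝ)) = (n:ℝ) ^ (-(1/4 : ℝ)) := by
    rw [Real.div_rpow hb0.le hn0.le, Real.rpow_neg hb0.le, Real.rpow_neg hn0.le]
    have : (b:ℝ) ^ (1/4 : ℝ) ≠ 0 := (Real.rpow_pos_of_pos hb0 _).ne'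
    field_simp
  rw [div_mul_eq_mul_div, div_le_iff₀ hC]
  by_contra hcon
  push Not at hcon
  have h6 := mul_lt_mul_of_pos_right hcon hx
  have h7 : c0 * ((b:ℝ) / n) ^ (1/4 : ℝ) * (b:ℝ) ^ (-(1/4 : ℝ)) = c0 * (n:ℝ) ^ (-(1/4 : ℝ)) := by
    rw [mul_assoc, h5]
  nlinarith

/-- open arm and dual arm from the box `[-a,a]²` to distance `n` -/
def BArms (a n : ℕ) (G : Set Edg) : Prop :=
  (∃ v w : Vtx, |v.1| ≤ a ∧ |v.2| ≤ a ∧ ((n:ℤ) ≤ |w.1| ∨ (n:ℤ) ≤ |w.2|) ∧ Reach G v w) ∧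
    ∃ f g : Vtx, |f.1| ≤ a ∧ |f.2| ≤ a ∧ ((n:ℤ) ≤ |g.1| ∨ (n:ℤ) ≤ |g.2|) ∧ DReach Gᶜ f g

theorem opn_FF {S : Finset Edg} {ω : sqLattice.edgeSet → Bool} {H : Set Edg}
    (h : ∀ e ∈ H, e ∈ S ∧ e ∉ FF S ω) : H ⊆ (opn ω)ᶜ := by
  intro e he hω
  exact (h e he).2 (mem_FF.2 ⟨(h e he).1, hω⟩)

theorem BArms_lower : ∃ c : ℝ, 0 < c ∧ ∀ a n : ℕ, a < n →
    c * (((a:ℝ) + 1) / n) ^ (1/4 : ℝ) ≤ (bondLaw hlf).real {ω | BArms a n (opn ω)} := by
  obtain ⟨c0, hc0, hlow⟩ := pi2_lower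
  obtain ⟨c1, hc1, hann⟩ := pAA_lower
  have e0 : (fun _ : Edg => ((hlf : unitInterval) : ℝ)) = fun _ => 1/2 := rfl
  -- the case of the origin
  have hA : ∀ a n : ℕ, 1 ≤ n → c0 * (n:ℝ) ^ (-(1/4 : ℝ)) ≤
      (bondLaw hlf).real {ω | BArms a n (opn ω)} := by
    intro a n hn
    refine (hlow n hn).trans ?_
    have e := law_event hlf (boxE n) (A2 n)
    rw [e0] at e
    unfold pi2
    rw [← e]
    apply measureReal_mono
    · rintro ω ⟨⟨u, ⟨_, hu⟩, hr⟩, w, hw, hd⟩
      refine ⟨⟨(0, 0), u, by simp, by simp, ?_, hr.mono ?_⟩, (0, 0), w, by simp, by simp, ?_,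
        hd.mono ?_⟩
      · rcases hu with h | h | h | h
        · left; rw [h]; simp
        · left; rw [h]; simp
        · right; rw [h]; simp
        · right; rw [h]; simp
      · rw [FF_coe]; exact Set.inter_subset_left
      · rcases hw with h | h | h | h
        · left; rw [abs_of_neg (by omega)]; omega
        · left; rw [abs_of_nonneg (by omega)]; omega
        · right; rw [abs_of_neg (by omega)]; omega
        · right; rw [abs_of_nonneg (by omega)]; omega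
      · apply opn_FF
        intro e he
        rw [mem_coe, mem_sdiff] at he
        exact he
    · exact measure_ne_top _ _
  -- annuli
  have hB : ∀ b n : ℕ, 1 ≤ b → b ≤ n → c1 * ((b:ℝ) / n) ^ (1/4 : ℝ) ≤
      (bondLaw hlf).real {ω | BArms (b + 1) n (opn ω)} := by
    intro b n hb hbn
    refine (hann b n hb hbn).trans ?_
    have e := law_event hlf (An b n) (fun F => AA b n (↑F : Set Edg))
    rw [e0] at e
    unfold pAA
    rw [show H12S.PQ (1 / 2) (An b n) (fun F => AA b n (↑F : Set Edg)) = _ from e.symm]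
    apply measureReal_mono
    · rintro ω ⟨⟨u, u', ⟨hu, _⟩, ⟨_, hu'⟩, hr⟩, w, w', hw, hw', hd⟩
      refine ⟨⟨u, u', ?_, ?_, ?_, hr.mono ?_⟩, w, w', ?_, ?_, ?_, hd.mono ?_⟩
      · unfold inR at hu; rw [abs_le]; push_cast; omega
      · unfold inR at hu; rw [abs_le]; push_cast; omega
      · rcases hu' with h | h | h | h
        · left; rw [h]; simp
        · left; rw [h]; simp
        · right; rw [h]; simp
        · right; rw [h]; simp
      · rw [FF_coe]; exact Set.inter_subset_left.trans Set.inter_subset_left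
      · unfold nb at hw; rw [abs_le]; push_cast; omega
      · unfold nb at hw; rw [abs_le]; push_cast; omega
      · unfold nb at hw'
        rcases hw' with ⟨h | h, _⟩ | ⟨h | h, _⟩
        · left; rw [h, abs_of_nonneg (by omega)]
        · left; rw [h, abs_of_neg (by omega)]; omega
        · right; rw [h, abs_of_nonneg (by omega)]
        · right; rw [h, abs_of_neg (by omega)]; omega
      · apply opn_FF
        intro e he
        exact ⟨he.1, fun h => he.2 h⟩
    · exact measure_ne_top _ _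
  refine ⟨min (c0 / 2) (c1 / 2), by positivity, ?_⟩
  intro a n han
  have hn0 : (0:ℝ) < n := by exact_mod_cast (by omega : 0 < n)
  have h2 : (2:ℝ) ^ (1/4 : ℝ) ≤ 2 := by
    calc (2:ℝ) ^ (1/4 : ℝ) ≤ 2 ^ (1:ℝ) := Real.rpow_le_rpow_of_exponent_le (by norm_num) (by norm_num)
      _ = 2 := Real.rpow_one _
  have h3 : (3:ℝ) ^ (1/4 : ℝ) ≤ 2 := by
    calc (3:ℝ) ^ (1/4 : ℝ) ≤ 16 ^ (1/4 : ℝ) := Real.rpow_le_rpow (by norm_num) (by norm_num) (by norm_num)
      _ = 2 := by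
        rw [show (16:ℝ) = 2 ^ (4:ℝ) by norm_num, ← Real.rpow_mul (by norm_num)]
        norm_num
  rcases Nat.lt_or_ge a 2 with ha | ha
  · refine le_trans ?_ (hA a n (by omega))
    have e1 : (((a:ℝ) + 1) / n) ^ (1/4 : ℝ) = ((a:ℝ) + 1) ^ (1/4 : ℝ) * (n:ℝ) ^ (-(1/4 : ℝ)) := by
      rw [Real.div_rpow (by positivity) hn0.le, Real.rpow_neg hn0.le, div_eq_mul_inv]
    have e2 : ((a:ℝ) + 1) ^ (1/4 : ℝ) ≤ 2 := by
      refine le_trans (Real.rpow_le_rpow (by positivity) ?_ (by norm_num)) h2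
      have : (a:ℝ) ≤ 1 := by exact_mod_cast (by omega : a ≤ 1)
      linarith
    have hx : 0 ≤ (n:ℝ) ^ (-(1/4 : ℝ)) := by positivity
    rw [e1]
    calc min (c0 / 2) (c1 / 2) * (((a:ℝ) + 1) ^ (1/4 : ℝ) * (n:ℝ) ^ (-(1/4 : ℝ)))
        ≤ (c0 / 2) * (2 * (n:ℝ) ^ (-(1/4 : ℝ))) := by
          apply mul_le_mul (min_le_left _ _) _ (by positivity) (by positivity)
          exact mul_le_mul_of_nonneg_right e2 hx
      _ = _ := by ring
  · obtain ⟨b, rfl⟩ : ∃ b, a = b + 1 := ⟨a - 1, by omega⟩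
    refine le_trans ?_ (hB b n (by omega) (by omega))
    have hb0 : (0:ℝ) < b := by exact_mod_cast (by omega : 0 < b)
    have e1 : ((((b + 1 : ℕ):ℝ) + 1) / n) ^ (1/4 : ℝ) ≤ 2 * ((b:ℝ) / n) ^ (1/4 : ℝ) := by
      have e2 : (((b + 1 : ℕ):ℝ) + 1) / n ≤ 3 * ((b:ℝ) / n) := by
        rw [← mul_div_assoc]
        apply div_le_div_of_nonneg_right _ hn0.le
        push_cast
        have : (1:ℝ) ≤ b := by exact_mod_cast (by omega : 1 ≤ b)
        linarith
      calc ((((b + 1 : ℕ):ℝ) + 1) / n) ^ (1/4 : ℝ) ≤ (3 * ((b:ℝ) / n)) ^ (1/4 : ℝ) :=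
            Real.rpow_le_rpow (by positivity) e2 (by norm_num)
        _ = 3 ^ (1/4 : ℝ) * ((b:ℝ) / n) ^ (1/4 : ℝ) := Real.mul_rpow (by norm_num) (by positivity)
        _ ≤ _ := mul_le_mul_of_nonneg_right h3 (by positivity)
    calc min (c0 / 2) (c1 / 2) * ((((b + 1 : ℕ):ℝ) + 1) / n) ^ (1/4 : ℝ)
        ≤ (c1 / 2) * (2 * ((b:ℝ) / n) ^ (1/4 : ℝ)) := by
          apply mul_le_mul (min_le_right _ _) e1 (by positivity) (by positivity)
      _ = _ := by ring

theorem crit_pexit {n : ℕ} {G : Set Edg} {v w : Vtx} (hv : |v.1| < n ∧ |v.2| < n)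
    (hw : (n:ℤ) ≤ |w.1| ∨ (n:ℤ) ≤ |w.2|) (h : Reach G v w) :
    ∃ w', ((n:ℤ) ≤ |w'.1| ∨ (n:ℤ) ≤ |w'.2|) ∧ Reach (G ∩ ↑(boxE (n + 1))) v w' := by
  have key : ∀ x, Reach G v x →
      (∃ w', ((n:ℤ) ≤ |w'.1| ∨ (n:ℤ) ≤ |w'.2|) ∧ Reach (G ∩ ↑(boxE (n + 1))) v w') ∨
        ((|x.1| < n ∧ |x.2| < n) ∧ Reach (G ∩ ↑(boxE (n + 1))) v x) := by
    intro x hx
    induction hx with
    | refl => exact Or.inr ⟨hv, Reach.refl _ _⟩
    | @tail x y _ hs ih =>
      rcases ih with ih | ⟨hx1, hx2⟩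
      · exact Or.inl ih
      · obtain ⟨⟨p, q, β⟩, he, hc⟩ := hs
        have hr : Reach (G ∩ ↑(boxE (n + 1))) v y := by
          refine hx2.tail ⟨(p, q, β), ⟨he, ?_⟩, hc⟩
          rw [mem_coe]
          unfold boxE
          obtain ⟨x1, x2⟩ := x
          obtain ⟨y1, y2⟩ := y
          simp only [abs_lt] at hx1
          cases β
          · rw [mem_RE_false]
            simp only [src_mk, tgt_false, Prod.mk.injEq] at hc
            push_cast
            omega
          · rw [mem_RE_true]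
            simp only [src_mk, tgt_true, Prod.mk.injEq] at hc
            push_cast
            omega
        by_cases hy : |y.1| < n ∧ |y.2| < n
        · exact Or.inr ⟨hy, hr⟩
        · exact Or.inl ⟨y, by omega, hr⟩
  rcases key w h with h1 | ⟨h1, _⟩
  · exact h1
  · omega

theorem crit_dexit {n : ℕ} {G : Set Edg} {v w : Vtx} (hv : |v.1| < n ∧ |v.2| < n)
    (hw : (n:ℤ) ≤ |w.1| ∨ (n:ℤ) ≤ |w.2|) (h : DReach G v w) :
    ∃ w', ((n:ℤ) ≤ |w'.1| ∨ (n:ℤ) ≤ |w'.2|) ∧ DReach (G ∩ ↑(boxE (n + 1))) v w' := by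
  have key : ∀ x, DReach G v x →
      (∃ w', ((n:ℤ) ≤ |w'.1| ∨ (n:ℤ) ≤ |w'.2|) ∧ DReach (G ∩ ↑(boxE (n + 1))) v w') ∨
        ((|x.1| < n ∧ |x.2| < n) ∧ DReach (G ∩ ↑(boxE (n + 1))) v x) := by
    intro x hx
    induction hx with
    | refl => exact Or.inr ⟨hv, Relation.ReflTransGen.refl⟩
    | @tail x y _ hs ih =>
      rcases ih with ih | ⟨hx1, hx2⟩
      · exact Or.inl ih
      · obtain ⟨⟨p, q, β⟩, he, hc⟩ := hs
        have hr : DReach (G ∩ ↑(boxE (n + 1))) v y := by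
          refine hx2.tail ⟨(p, q, β), ⟨he, ?_⟩, hc⟩
          rw [mem_coe]
          unfold boxE
          obtain ⟨x1, x2⟩ := x
          obtain ⟨y1, y2⟩ := y
          simp only [abs_lt] at hx1
          cases β
          · rw [mem_RE_false]
            simp only [dsrc_false, dtgt_mk, Prod.mk.injEq] at hc
            push_cast
            omega
          · rw [mem_RE_true]
            simp only [dsrc_true, dtgt_mk, Prod.mk.injEq] at hc
            push_cast
            omega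
        by_cases hy : |y.1| < n ∧ |y.2| < n
        · exact Or.inr ⟨hy, hr⟩
        · exact Or.inl ⟨y, by omega, hr⟩
  rcases key w h with h1 | ⟨h1, _⟩
  · exact h1
  · omega

theorem BArms_upper (hA : H934F.St_A) : ∃ C : ℝ, 0 < C ∧ ∀ a n : ℕ, a < n →
    (bondLaw hlf).real {ω | BArms a n (opn ω)} ≤ C * (((a:ℝ) + 1) / n) ^ (1/4 : ℝ) := by
  obtain ⟨C, hC, hup⟩ := hA
  refine ⟨C, hC, ?_⟩
  intro a n han
  have e0 : (fun _ : Edg => ((hlf : unitInterval) : ℝ)) = fun _ => 1/2 := rfl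
  have hn0 : (0:ℝ) < n := by exact_mod_cast (by omega : 0 < n)
  have h1 := hup (max a 1) n (le_max_right _ _) (by omega) 0 0 (boxE (n + 1))
  have e := law_event hlf (boxE (n + 1)) (fun F => H12S.Crs 0 0 (max a 1) n ↑F ∧
    H12S.DCrs 0 0 (max a 1) n (↑(boxE (n + 1) \ F) : Set Edg))
  rw [e0] at e
  have e2 : H12S.PQ (1/2) (boxE (n + 1)) (fun F => H12S.Crs 0 0 (max a 1) n ↑F ∧
    H12S.DCrs 0 0 (max a 1) n (↑(boxE (n + 1) \ F) : Set Edg)) = _ := e.symm
  rw [e2] at h1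
  have h2 : ((max a 1 : ℕ) : ℝ) ≤ (a:ℝ) + 1 := by
    have : max a 1 ≤ a + 1 := by omega
    exact_mod_cast this
  have h3 : (((max a 1 : ℕ) : ℝ) / n) ^ (1/4 : ℝ) ≤ (((a:ℝ) + 1) / n) ^ (1/4 : ℝ) :=
    Real.rpow_le_rpow (by positivity) (div_le_div_of_nonneg_right h2 hn0.le) (by norm_num)
  refine le_trans ?_ (h1.trans (mul_le_mul_of_nonneg_left h3 hC.le))
  apply measureReal_mono
  · rintro ω ⟨⟨v, w, hv1, hv2, hw, hr⟩, f, g, hf1, hf2, hg, hd⟩
    obtain ⟨w', hw', hr'⟩ := crit_pexit ⟨by omega, by omega⟩ hw hr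
    obtain ⟨g', hg', hd'⟩ := crit_dexit ⟨by omega, by omega⟩ hg hd
    have hm : (a:ℤ) ≤ ((max a 1 : ℕ) : ℤ) := by exact_mod_cast le_max_left a 1
    rw [abs_le] at hv1 hv2 hf1 hf2
    refine ⟨⟨v, w', ?_, ?_, ?_⟩, f, g', ?_, ?_, ?_⟩
    · unfold inR; omega
    · rw [le_abs, le_abs] at hw'; omega
    · rw [FF_coe]; exact hr'
    · unfold inR; omega
    · rw [le_abs, le_abs] at hg'; omega
    · refine hd'.mono ?_
      rintro e ⟨he1, he2⟩
      rw [mem_coe, mem_sdiff]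
      refine ⟨he2, ?_⟩
      intro h
      exact he1 (mem_FF.1 h).2
  · exact measure_ne_top _ _

end H985T
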