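import Pool.Agent.H985R3.TA.Defs3

/-!
# Two-arm project: definitions for the annulus (inward separation)
-/

set_option autoImplicit false

namespace H985T

open H974 Finset

/-- the annulus -/
noncomputable def An (a N : ℕ) : Finset Edg := boxE N \ boxE a

/-- the ring outside of the box `[-N,N]²` -/
noncomputable def Rg (N : ℕ) : Finset Edg :=
  RE (-(N:ℤ) - 1) ((N:ℤ) + 1) (-(N:ℤ) - 1) ((N:ℤ) + 1) \ boxE N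

/-- faces outside of the box `[-N,N]²` with an edge of the box -/
def nb (N : ℕ) (w : Vtx) : Prop :=
  ((w.1 = (N:ℤ) ∨ w.1 = -(N:ℤ) - 1) ∧ -(N:ℤ) ≤ w.2 ∧ w.2 < N) ∨
    ((w.2 = (N:ℤ) ∨ w.2 = -(N:ℤ) - 1) ∧ -(N:ℤ) ≤ w.1 ∧ w.1 < N)

/-- open arm and dual arm through the annulus -/
def AA (a N : ℕ) (F : Set Edg) : Prop :=
  (∃ u u', onB a u ∧ onB N u' ∧ Reach (F ∩ ↑(An a N)) u u') ∧
    ∃ w w', nb a w ∧ nb N w' ∧ DReach (↑(An a N) \ F) w w'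

noncomputable def pAA (a N : ℕ) : ℝ := H12S.PQ (1 / 2) (An a N) (fun F => AA a N ↑F)

/-- the tube inside the box `[-a,a]²` at the right side -/
noncomputable def tubeI (a ρ : ℕ) (c : ℤ) : Finset Edg :=
  RE ((a:ℤ) - 10 * ρ) a (c - ρ) (c + ρ)

/-- its end -/
noncomputable def endI (a ρ : ℕ) (c : ℤ) : Finset Edg :=
  RE ((a:ℤ) - 14 * ρ) ((a:ℤ) - 10 * ρ) (c - ρ) (c + ρ) \ tubeI a ρ c

/-- region of the inward step -/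
noncomputable def RI (a N ρ : ℕ) (c : ℤ) : Finset Edg :=
  An a N ∪ tubeI a ρ c ∪ (endI a ρ c ∪ Rg N)

/-- the open arm starts on the right side near `c` -/
def Lvi (a N ρ : ℕ) (c : ℤ) (F : Set Edg) : Prop :=
  ∃ u2 : ℤ, 2 * |u2 - c| ≤ ρ ∧ ∃ u', onB N u' ∧ Reach (F ∩ ↑(An a N)) ((a:ℤ), u2) u'

/-- the dual arm starts on the right side near `c` -/
def Lfi (a N ρ : ℕ) (c : ℤ) (F : Set Edg) : Prop :=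
  ∃ w2 : ℤ, 2 * |w2 - c| ≤ ρ ∧ ∃ w', nb N w' ∧ DReach (↑(An a N) \ F) ((a:ℤ), w2) w'

/-- the open arm comes through the tube -/
def Tvi (a N ρ : ℕ) (c : ℤ) (F : Set Edg) : Prop :=
  ∃ z2 : ℤ, |z2 - c| ≤ ρ ∧ ∃ u', onB N u' ∧
    Reach (F ∩ ↑(An a N ∪ tubeI a ρ c)) ((a:ℤ) - 10 * ρ, z2) u'

/-- the dual arm comes through the tube -/
def Tfi (a N ρ : ℕ) (c : ℤ) (F : Set Edg) : Prop :=
  ∃ w2 : ℤ, c - ρ ≤ w2 ∧ w2 < c + ρ ∧ ∃ w', nb N w' ∧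
    DReach (↑(An a N ∪ tubeI a ρ c) \ F) ((a:ℤ) - 10 * ρ - 1, w2) w'

def LfiS (a N ρ : ℕ) (s : Fin 4) (c : ℤ) (F : Set Edg) : Prop := Lfi a N ρ c ((sy s).φ '' F)

def TfiS (a N ρ : ℕ) (s : Fin 4) (c : ℤ) (F : Set Edg) : Prop := Tfi a N ρ c ((sy s).φ '' F)

/-- the half ball outside of the right side of the box `[-a,a]²` -/
noncomputable def hbI (a : ℕ) (y0 : ℤ) (R : ℕ) : Finset Edg :=
  RE (a:ℤ) ((a:ℤ) + R) (y0 - R) (y0 + R) \ boxE a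

def H3di (a : ℕ) (y0 : ℤ) (r R : ℕ) (F : Set Edg) : Prop :=
  ∃ ya yb : ℤ, |ya - y0| ≤ r ∧ |yb - y0| ≤ r ∧
    (∃ z : Vtx, ((a:ℤ) + R ≤ z.1 ∨ z.2 < y0 - R ∨ y0 + R ≤ z.2) ∧
      DReach (↑(hbI a y0 R) \ F) ((a:ℤ), ya) z) ∧
    (∃ z : Vtx, ((a:ℤ) + R ≤ z.1 ∨ z.2 < y0 - R ∨ y0 + R ≤ z.2) ∧
      DReach (↑(hbI a y0 R) \ F) ((a:ℤ), yb) z) ∧
    ¬ DReach (↑(hbI a y0 R) \ F) ((a:ℤ), ya) ((a:ℤ), yb)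

def H3pi (a : ℕ) (y0 : ℤ) (r R : ℕ) (F : Set Edg) : Prop :=
  ∃ ya yb : ℤ, |ya - y0| ≤ r ∧ |yb - y0| ≤ r ∧
    (∃ z : Vtx, (z.1 = (a:ℤ) + R ∨ z.2 = y0 - R ∨ z.2 = y0 + R) ∧
      Reach (F ∩ ↑(hbI a y0 R)) ((a:ℤ), ya) z) ∧
    (∃ z : Vtx, (z.1 = (a:ℤ) + R ∨ z.2 = y0 - R ∨ z.2 = y0 + R) ∧
      Reach (F ∩ ↑(hbI a y0 R)) ((a:ℤ), yb) z) ∧
    ¬ Reach (F ∩ ↑(hbI a y0 R)) ((a:ℤ), ya) ((a:ℤ), yb)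

def Gdi (a N ρ r l : ℕ) (c : ℤ) (F : Set Edg) : Prop :=
  (∀ k : ℤ, |(l:ℤ) * k - c| ≤ ρ → ¬ H3di a (l * k) (2 * l) r F) ∧
    ¬ H12S.DCrs a (c + ρ) (2 * r) (ρ / 4) (↑(An a N) \ F) ∧
    ¬ H12S.DCrs a (c - ρ) (2 * r) (ρ / 4) (↑(An a N) \ F)

def Gpi (a N ρ r l : ℕ) (c : ℤ) (F : Set Edg) : Prop :=
  (∀ k : ℤ, |(l:ℤ) * k - c| ≤ ρ → ¬ H3pi a (l * k) (2 * l) r F) ∧
    ¬ H12S.Crs a (c + ρ) (2 * r) (ρ / 4) (F ∩ ↑(An a N)) ∧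
    ¬ H12S.Crs a (c - ρ) (2 * r) (ρ / 4) (F ∩ ↑(An a N))

def GpiS (a N ρ r l : ℕ) (s : Fin 4) (c : ℤ) (F : Set Edg) : Prop :=
  Gpi a N ρ r l c ((sy s).φ '' F)

/-- no arms at the corners of the box `[-a,a]²`, no three arms at its sides -/
structure SelGoodi (a N ρ r0 R : ℕ) (F : Set Edg) : Prop where
  h1 : ∀ s : Fin 4, ¬ H12S.Crs a a r0 (a / 4) ((sy s).φ '' F ∩ ↑(An a N)) ∧
    ¬ H12S.Crs a (-(a:ℤ)) r0 (a / 4) ((sy s).φ '' F ∩ ↑(An a N))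
  h2 : ∀ s : Fin 4, ¬ H12S.DCrs a a r0 (a / 4) (↑(An a N) \ (sy s).φ '' F) ∧
    ¬ H12S.DCrs a (-(a:ℤ)) r0 (a / 4) (↑(An a N) \ (sy s).φ '' F)
  h3 : ∀ s : Fin 4, ∀ k : ℤ, |(ρ:ℤ) * k| + r0 ≤ a + ρ →
    ¬ H3di a (ρ * k) (8 * ρ + 1) R ((sy s).φ '' F)

/-- region and event of the inward separated arms -/
noncomputable def EUi (a N ρ : ℕ) (c : ℤ) (s : Fin 4) (c' : ℤ) : Finset Edg :=
  An a N ∪ tubeI a ρ c ∪ (sy s).toLSym.mp (tubeI a ρ c')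

def EVi (a N ρ : ℕ) (c : ℤ) (s : Fin 4) (c' : ℤ) (F : Set Edg) : Prop :=
  Tvi a N ρ c F ∧ TfiS a N ρ s c' F

/-- admissible geometry for the inward step -/
structure Geoi (B a N ρ : ℕ) (c : ℤ) (s : Fin 4) (c' : ℤ) : Prop where
  ρpos : 1 ≤ ρ
  big : a ≤ B * ρ
  small : 100 * ρ ≤ a
  hN : 2 * a ≤ N
  hc : |c| + 20 * ρ ≤ a
  hc' : |c'| + 20 * ρ ≤ a
  sep : s = 0 → 6 * (ρ:ℤ) ≤ |c - c'|

end H985T
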