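import Pool.Agent.H985R3.TA.HPP

/-!
Two-arm project, task HPD: three arms in the half plane (dual, open, dual).
-/

set_option autoImplicit false

namespace H985T

open H974 Finset

/-- a dual path which leaves the half ball meets the rim of a smaller half ball before -/
theorem HPD_exit {m y0 : ℤ} {R : ℕ} {H : Set Edg}
    (hH : H ⊆ ↑(RE (m - R) m (y0 - R) (y0 + R))) {ya : ℤ}
    (hya : y0 - R < ya ∧ ya < y0 + R) (hR : 1 ≤ R) {v : Vtx}
    (h : Reach (dl '' H) (m - 1, ya) v) :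
    (∃ z : Vtx, (z.1 = m - R ∨ z.2 = y0 - R + 1 ∨ z.2 = y0 + R - 1) ∧
      Reach (dl '' H ∩ ↑(RE (m - R) (m - 1) (y0 - R + 1) (y0 + R - 1))) (m - 1, ya) z) ∨
    (inR (m - R) (m - 1) (y0 - R + 1) (y0 + R - 1) v ∧
      Reach (dl '' H ∩ ↑(RE (m - R) (m - 1) (y0 - R + 1) (y0 + R - 1))) (m - 1, ya) v) ∨
    (v.1 = m ∧ inR (m - R) (m - 1) (y0 - R + 1) (y0 + R - 1) (m - 1, v.2) ∧
      Reach (dl '' H ∩ ↑(RE (m - R) (m - 1) (y0 - R + 1) (y0 + R - 1))) (m - 1, ya)
        (m - 1, v.2)) := by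
  induction h with
  | refl =>
    right; left
    refine ⟨⟨⟨?_, le_rfl⟩, ?_, ?_⟩, Reach.refl _ _⟩ <;> simp only <;> omega
  | @tail v w _ hs ih =>
    rcases ih with ih | ⟨hv, hr⟩ | ⟨hv1, hv2, hr⟩
    · exact Or.inl ih
    · by_cases hrim : v.1 = m - R ∨ v.2 = y0 - R + 1 ∨ v.2 = y0 + R - 1
      · exact Or.inl ⟨v, hrim, hr⟩
      · obtain ⟨e, he, hc⟩ := hs
        have he0 := he
        obtain ⟨⟨x, y, t⟩, heH, rfl⟩ := he
        have heR := hH heH
        rw [Finset.mem_coe] at heR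
        obtain ⟨v1, v2⟩ := v
        obtain ⟨⟨a1, a2⟩, a3, a4⟩ := hv
        simp only at a1 a2 a3 a4 hrim
        cases t
        · rw [mem_RE_false] at heR
          rw [dl_f] at hc he0
          simp only [src_mk, tgt_true, Prod.mk.injEq] at hc
          by_cases hx : x = m
          · right; right
            subst hx
            rcases hc with ⟨⟨h1, h2⟩, h3⟩ | ⟨h3, h1, h2⟩
            · subst h1 h2 h3
              refine ⟨by simp only; ring, ⟨⟨by simp only; omega, le_rfl⟩, a3, a4⟩, hr⟩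
            · exfalso; omega
          · right; left
            have hmem : ((x - 1, y, true) : Edg) ∈
                dl '' H ∩ ↑(RE (m - R) (m - 1) (y0 - R + 1) (y0 + R - 1)) := by
              refine ⟨he0, ?_⟩
              rw [Finset.mem_coe, mem_RE_true]
              rcases hc with ⟨⟨h1, h2⟩, h3⟩ | ⟨h3, h1, h2⟩
              · omega
              · omega
            rcases hc with ⟨⟨h1, h2⟩, h3⟩ | ⟨h3, h1, h2⟩
            · subst h3
              refine ⟨⟨⟨by simp only; omega, by simp only; omega⟩,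
                by simp only; omega, by simp only; omega⟩, ?_⟩
              exact hr.tail ⟨_, hmem, Or.inl ⟨by simp only [src_mk, Prod.mk.injEq]; omega,
                by simp only [tgt_true]⟩⟩
            · subst h3
              refine ⟨⟨⟨by simp only; omega, by simp only; omega⟩,
                by simp only; omega, by simp only; omega⟩, ?_⟩
              exact hr.tail ⟨_, hmem, Or.inr ⟨by simp only [src_mk],
                by simp only [tgt_true, Prod.mk.injEq]; omega⟩⟩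
        · rw [mem_RE_true] at heR
          rw [dl_t] at hc he0
          simp only [src_mk, tgt_false, Prod.mk.injEq] at hc
          right; left
          have hmem : ((x, y - 1, false) : Edg) ∈
              dl '' H ∩ ↑(RE (m - R) (m - 1) (y0 - R + 1) (y0 + R - 1)) := by
            refine ⟨he0, ?_⟩
            rw [Finset.mem_coe, mem_RE_false]
            rcases hc with ⟨⟨h1, h2⟩, h3⟩ | ⟨h3, h1, h2⟩
            · omega
            · omega
          rcases hc with ⟨⟨h1, h2⟩, h3⟩ | ⟨h3, h1, h2⟩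
          · subst h3
            refine ⟨⟨⟨by simp only; omega, by simp only; omega⟩,
              by simp only; omega, by simp only; omega⟩, ?_⟩
            exact hr.tail ⟨_, hmem, Or.inl ⟨by simp only [src_mk, Prod.mk.injEq]; omega,
              by simp only [tgt_false]⟩⟩
          · subst h3
            refine ⟨⟨⟨by simp only; omega, by simp only; omega⟩,
              by simp only; omega, by simp only; omega⟩, ?_⟩
            exact hr.tail ⟨_, hmem, Or.inr ⟨by simp only [src_mk],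
              by simp only [tgt_false, Prod.mk.injEq]; omega⟩⟩
    · obtain ⟨e, he, hc⟩ := hs
      obtain ⟨⟨x, y, t⟩, heH, rfl⟩ := he
      have heR := hH heH
      rw [Finset.mem_coe] at heR
      obtain ⟨v1, v2⟩ := v
      simp only at hv1 hv2 hr
      subst hv1
      right; left
      cases t
      · rw [mem_RE_false] at heR
        rw [dl_f] at hc
        simp only [src_mk, tgt_true, Prod.mk.injEq] at hc
        rcases hc with ⟨⟨h1, h2⟩, h3⟩ | ⟨h3, h1, h2⟩
        · exfalso; omega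
        · have e1 : w = (v1 - 1, v2) := by
            rw [← h3, Prod.mk.injEq]
            omega
          rw [e1]
          exact ⟨hv2, hr⟩
      · rw [mem_RE_true] at heR
        rw [dl_t] at hc
        simp only [src_mk, tgt_false, Prod.mk.injEq] at hc
        exfalso
        rcases hc with ⟨⟨h1, h2⟩, h3⟩ | ⟨h3, h1, h2⟩
        · omega
        · omega

/-- the first step of a dual path which starts outside of the half ball -/
theorem HPD_first {m y0 : ℤ} {R : ℕ} {H : Set Edg}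
    (hH : H ⊆ ↑(RE (m - R) m (y0 - R) (y0 + R))) {ya : ℤ}
    (hya : y0 - R < ya ∧ ya < y0 + R) {z : Vtx}
    (hz : z.1 < m - R ∨ z.2 < y0 - R ∨ y0 + R ≤ z.2)
    (h : DReach H (m, ya) z) : ((m, ya, false) : Edg) ∈ H := by
  rcases Relation.ReflTransGen.cases_head h with h1 | ⟨w, ⟨e, heH, hc⟩, -⟩
  · exfalso
    rw [← h1] at hz
    simp only at hz
    omega
  · have heR := hH heH
    rw [Finset.mem_coe] at heR
    obtain ⟨x, y, t⟩ := e
    cases t
    · rw [mem_RE_false] at heR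
      simp only [dsrc_false, dtgt_mk, Prod.mk.injEq] at hc
      rcases hc with ⟨⟨h1, h2⟩, h3⟩ | ⟨h3, h1, h2⟩
      · exfalso; omega
      · rw [← h1, ← h2]; exact heH
    · rw [mem_RE_true] at heR
      simp only [dsrc_true, dtgt_mk, Prod.mk.injEq] at hc
      exfalso
      rcases hc with ⟨⟨h1, h2⟩, h3⟩ | ⟨h3, h1, h2⟩
      · omega
      · omega

theorem HPD_step {m y : ℤ} {H : Set Edg} (h : ((m, y, false) : Edg) ∈ H) :
    DReach H (m - 1, y) (m, y) :=
  DAdj.reach ⟨_, h, Or.inl ⟨by simp only [dsrc_false], by simp only [dtgt_mk]⟩⟩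

theorem HPD_E3 {m : ℕ} {y0 : ℤ} {r R : ℕ} (hrR : r + 1 ≤ R) {F : Set Edg} (h : H3d m y0 r R F) :
    HPP_E3 ((m:ℤ) - 1) y0 r (R - 1) (dl '' (↑(hbR m y0 R) \ F)) := by
  obtain ⟨ya, yb, ha, hb, ⟨za, hza, hra⟩, ⟨zb, hzb, hrb⟩, hn⟩ := h
  rw [abs_le] at ha hb
  set H : Set Edg := ↑(hbR m y0 R) \ F with hHdef
  have hH : H ⊆ ↑(RE ((m:ℤ) - R) m (y0 - R) (y0 + R)) := Set.diff_subset
  have hR1 : ((R - 1 : ℕ) : ℤ) = R - 1 := by
    rw [Nat.cast_sub (by omega)]
    simp
  have fa := HPD_first hH (ya := ya) (by omega) hza hra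
  have fb := HPD_first hH (ya := yb) (by omega) hzb hrb
  have ga := reach_dl.mpr ((HPD_step fa).trans hra)
  have gb := reach_dl.mpr ((HPD_step fb).trans hrb)
  have xa := HPD_exit hH (ya := ya) (by omega) (by omega) ga
  have xb := HPD_exit hH (ya := yb) (by omega) (by omega) gb
  have e1 : (m:ℤ) - 1 - ((R - 1 : ℕ) : ℤ) = m - R := by rw [hR1]; ring
  have e2 : y0 - ((R - 1 : ℕ) : ℤ) = y0 - R + 1 := by rw [hR1]; ring
  have e3 : y0 + ((R - 1 : ℕ) : ℤ) = y0 + R - 1 := by rw [hR1]; ring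
  unfold HPP_E3
  rw [e1, e2, e3]
  refine ⟨ya, yb, abs_le.2 ha, abs_le.2 hb, ?_, ?_, ?_⟩
  · rcases xa with x1 | ⟨x1, -⟩ | ⟨x1, x2, -⟩
    · exact x1
    · exfalso
      obtain ⟨⟨b1, b2⟩, b3, b4⟩ := x1
      omega
    · exfalso
      obtain ⟨⟨b1, b2⟩, b3, b4⟩ := x2
      simp only at b1 b2 b3 b4
      omega
  · rcases xb with x1 | ⟨x1, -⟩ | ⟨x1, x2, -⟩
    · exact x1
    · exfalso
      obtain ⟨⟨b1, b2⟩, b3, b4⟩ := x1
      omega
    · exfalso
      obtain ⟨⟨b1, b2⟩, b3, b4⟩ := x2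
      simp only at b1 b2 b3 b4
      omega
  · intro hcon
    have h1 := reach_dl.mp (hcon.mono Set.inter_subset_left)
    exact hn (((HPD_step fa).symm.trans h1).trans (HPD_step fb))

theorem HPD_sub {m : ℕ} {y0 : ℤ} {R : ℕ} (hR : 1 ≤ R) :
    RE ((m:ℤ) - 1 - ((R - 1 : ℕ) : ℤ)) ((m:ℤ) - 1) (y0 - ((R - 1 : ℕ) : ℤ))
      (y0 + ((R - 1 : ℕ) : ℤ)) ⊆ dmp (hbR m y0 R) := by
  have hR1 : ((R - 1 : ℕ) : ℤ) = R - 1 := by
    rw [Nat.cast_sub (by omega)]
    simp
  rw [hR1]
  rintro ⟨x, y, t⟩ he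
  rw [mem_dmp]
  unfold hbR
  cases t
  · rw [mem_RE_false] at he
    rw [dls_f, mem_RE_true]
    omega
  · rw [mem_RE_true] at he
    rw [dls_t, mem_RE_false]
    omega

theorem H3d_prob : ∃ C c : ℝ, 0 < C ∧ 0 < c ∧ ∀ (m r R : ℕ) (y0 : ℤ) (U : Finset Edg),
    1 ≤ r → r ≤ R → hbR m y0 R ⊆ U →
    H12S.PQ (1 / 2) U (fun F => H3d m y0 r R ↑F) ≤ C * ((r:ℝ) / R) ^ (1 + c) := by
  obtain ⟨C, c, hC, hc, h⟩ := HPP_prob
  refine ⟨(C + 1) * 2 ^ (1 + c), c, by positivity, hc, ?_⟩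
  intro m r R y0 U hr hrR hU
  have hok : Ok (fun _ : Edg => (1 / 2 : ℝ)) := fun _ => ⟨by norm_num, by norm_num⟩
  have hr0 : (0:ℝ) < r := by exact_mod_cast hr
  have hR0 : (0:ℝ) < R := by exact_mod_cast lt_of_lt_of_le hr hrR
  have h2 : (0:ℝ) < 2 ^ (1 + c) := by positivity
  rcases Nat.lt_or_ge (2 * r) R with hcase | hcase
  · have h1 := h ((m:ℤ) - 1) y0 r (R - 1) (dmp U) hr (by omega) ((HPD_sub (by omega)).trans (by
      intro e he
      rw [mem_dmp] at he ⊢
      exact hU he))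
    have h3 : H12S.PQ (1 / 2) U (fun F => H3d m y0 r R ↑F) ≤
        H12S.PQ (1 / 2) (dmp U) (fun F => HPP_E3 ((m:ℤ) - 1) y0 r (R - 1) ↑F) := by
      unfold H12S.PQ
      rw [pr_dmp]
      have e : (fun _ : Edg => (1 / 2 : ℝ)) = fun e => 1 - (fun _ : Edg => (1 / 2 : ℝ)) e := by
        funext e; norm_num
      conv_rhs => rw [e]
      rw [Pr_compl]
      refine Pr_mono hok (fun F _ hF => ?_)
      have h4 := HPD_E3 (by omega) hF
      obtain ⟨ya, yb, ha, hb, ⟨za, hza, hra⟩, ⟨zb, hzb, hrb⟩, hn⟩ := h4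
      have hR1 : ((R - 1 : ℕ) : ℤ) = R - 1 := by
        rw [Nat.cast_sub (by omega)]
        simp
      -- the two configurations agree on the half ball
      have hloc : (↑(dmp (U \ F)) : Set Edg) ∩ ↑(RE ((m:ℤ) - 1 - ((R - 1 : ℕ) : ℤ)) ((m:ℤ) - 1)
            (y0 - ((R - 1 : ℕ) : ℤ)) (y0 + ((R - 1 : ℕ) : ℤ))) =
          dl '' (↑(hbR m y0 R) \ ↑F) ∩ ↑(RE ((m:ℤ) - 1 - ((R - 1 : ℕ) : ℤ)) ((m:ℤ) - 1)
            (y0 - ((R - 1 : ℕ) : ℤ)) (y0 + ((R - 1 : ℕ) : ℤ))) := by
        ext e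
        constructor
        · rintro ⟨h5, h6⟩
          refine ⟨?_, h6⟩
          rw [Finset.mem_coe, mem_dmp, Finset.mem_sdiff] at h5
          have h7 := HPD_sub (by omega) (Finset.mem_coe.1 h6)
          rw [mem_dmp] at h7
          exact ⟨dl.symm e, ⟨h7, h5.2⟩, dl.apply_symm_apply e⟩
        · rintro ⟨⟨e', ⟨h7, h8⟩, rfl⟩, h6⟩
          refine ⟨?_, h6⟩
          rw [Finset.mem_coe, mem_dmp, Finset.mem_sdiff, dl.symm_apply_apply]
          exact ⟨hU h7, h8⟩
      refine ⟨ya, yb, ha, hb, ⟨za, hza, ?_⟩, ⟨zb, hzb, ?_⟩, ?_⟩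
      · rw [hloc]; exact hra
      · rw [hloc]; exact hrb
      · rw [hloc]; exact hn
    refine h3.trans (h1.trans ?_)
    have hR1 : ((R - 1 : ℕ) : ℝ) = R - 1 := by
      rw [Nat.cast_sub (by omega)]
      simp
    rw [hR1]
    have hR2 : (2:ℝ) ≤ R := by
      have : 2 ≤ R := by omega
      exact_mod_cast this
    have h5 : (r:ℝ) / (R - 1) ≤ 2 * (r / R) := by
      rw [← mul_div_assoc, div_le_div_iff₀ (by linarith) hR0]
      nlinarith
    have h6 : ((r:ℝ) / (R - 1)) ^ (1 + c) ≤ 2 ^ (1 + c) * ((r:ℝ) / R) ^ (1 + c) := by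
      rw [← Real.mul_rpow (by norm_num) (by positivity)]
      refine Real.rpow_le_rpow ?_ h5 (by linarith)
      exact div_nonneg hr0.le (by linarith)
    have h7 : 0 ≤ ((r:ℝ) / R) ^ (1 + c) := by positivity
    nlinarith [mul_le_mul_of_nonneg_left h6 hC.le, mul_nonneg h2.le h7]
  · refine (Pr_le_one hok _ _).trans ?_
    have h5 : (1:ℝ) ≤ 2 * (r / R) := by
      rw [← mul_div_assoc, le_div_iff₀ hR0, one_mul]
      exact_mod_cast hcase
    have h6 : (1:ℝ) ≤ 2 ^ (1 + c) * ((r:ℝ) / R) ^ (1 + c) := by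
      rw [← Real.mul_rpow (by norm_num) (by positivity)]
      exact Real.one_le_rpow h5 (by linarith)
    nlinarith [mul_pos hC (lt_of_lt_of_le one_pos h6)]

end H985T
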