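import Pool.Agent.H985R3.TA.MON

/-!
Two-arm project, task IND (helper57): independence.
-/

set_option autoImplicit false

namespace H985T

open H974 Finset

theorem IND_onB (m : ℕ) (u : Vtx) : onB m ((sy 2).ψ u) ↔ onB m u := by
  obtain ⟨x, y⟩ := u
  unfold onB inR
  simp [sy, sy2]
  omega

theorem IND_box (m : ℕ) : (sy 2).toLSym.mp (boxE m) = boxE m := by
  ext e
  rw [LSym.mem_mp]
  have h1 : (sy 2).toLSym.φ.symm e = (sy 2).φ e := by
    rw [Equiv.symm_apply_eq]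
    exact (MON_invol 2 e).symm
  rw [h1]
  exact MON_box 2 m e

/-- the two arm event only depends on the box -/
theorem IND_loc (m : ℕ) (f : Vtx) (F : Set Edg) :
    A2g m f F ↔ A2g m f (F ∩ ↑(boxE m)) := by
  unfold A2g
  rw [Set.inter_assoc, Set.inter_self]
  have : (↑(boxE m) : Set Edg) \ (F ∩ ↑(boxE m)) = ↑(boxE m) \ F := by
    ext e
    simp only [Set.mem_sdiff, Set.mem_inter_iff]
    tauto
  rw [this]

theorem IND_sym (m : ℕ) (F : Set Edg) (h : A2g m (0, 0) F) :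
    A2g m (-1, -1) ((sy 2).φ '' F) := by
  obtain ⟨⟨u, hu, hr⟩, w, hw, hd⟩ := h
  have hi : ∀ e, (sy 2).φ e ∈ (↑(boxE m) : Set Edg) ↔ e ∈ (↑(boxE m) : Set Edg) :=
    fun e => by rw [mem_coe, mem_coe]; exact MON_box 2 m e
  constructor
  · refine ⟨(sy 2).ψ u, (IND_onB m u).2 hu, ?_⟩
    have h1 := (sy 2).toLSym.reach hr
    have h2 : (sy 2).toLSym.ψ (0, 0) = ((0, 0) : Vtx) := by simp [sy, sy2]
    rw [h2] at h1
    refine h1.mono ?_
    rintro _ ⟨e, ⟨he1, he2⟩, rfl⟩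
    exact ⟨⟨e, he1, rfl⟩, (hi e).2 he2⟩
  · refine ⟨(sy 2).ψf w, (MON_out 2 m w).2 hw, ?_⟩
    have h1 := MON_dreach (sy 2) hd
    have h2 : (sy 2).ψf (0, 0) = ((-1, -1) : Vtx) := by simp [sy, sy2]
    rw [h2] at h1
    refine h1.mono ?_
    rintro _ ⟨e, ⟨he1, he2⟩, rfl⟩
    refine ⟨(hi e).2 he1, ?_⟩
    rintro ⟨e', he', heq⟩
    exact he2 ((sy 2).φ.injective heq ▸ he')

theorem IND_sym' (m : ℕ) (F : Set Edg) (h : A2g m (-1, -1) F) :
    A2g m (0, 0) ((sy 2).φ '' F) := by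
  obtain ⟨⟨u, hu, hr⟩, w, hw, hd⟩ := h
  have hi : ∀ e, (sy 2).φ e ∈ (↑(boxE m) : Set Edg) ↔ e ∈ (↑(boxE m) : Set Edg) :=
    fun e => by rw [mem_coe, mem_coe]; exact MON_box 2 m e
  constructor
  · refine ⟨(sy 2).ψ u, (IND_onB m u).2 hu, ?_⟩
    have h1 := (sy 2).toLSym.reach hr
    have h2 : (sy 2).toLSym.ψ (0, 0) = ((0, 0) : Vtx) := by simp [sy, sy2]
    rw [h2] at h1
    refine h1.mono ?_
    rintro _ ⟨e, ⟨he1, he2⟩, rfl⟩
    exact ⟨⟨e, he1, rfl⟩, (hi e).2 he2⟩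
  · refine ⟨(sy 2).ψf w, (MON_out 2 m w).2 hw, ?_⟩
    have h1 := MON_dreach (sy 2) hd
    have h2 : (sy 2).ψf (-1, -1) = ((0, 0) : Vtx) := by simp [sy, sy2]
    rw [h2] at h1
    refine h1.mono ?_
    rintro _ ⟨e, ⟨he1, he2⟩, rfl⟩
    refine ⟨(hi e).2 he1, ?_⟩
    rintro ⟨e', he', heq⟩
    exact he2 ((sy 2).φ.injective heq ▸ he')

theorem IND_pi2 (m : ℕ) {f0 : ℤ} (hf : f0 = 0 ∨ f0 = -1) :
    Pr (fun _ => (1 / 2 : ℝ)) (boxE m) (fun F => A2g m (f0, f0) ↑F) = pi2 m := by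
  have h0 : Pr (fun _ => (1 / 2 : ℝ)) (boxE m) (fun F => A2g m (0, 0) ↑F) = pi2 m := by
    unfold pi2
    exact Pr_congr fun F hF => (A2_iff m F hF).symm
  rcases hf with rfl | rfl
  · exact h0
  · have h1 := (sy 2).toLSym.pr (1 / 2) (boxE m) (fun F => A2g m (-1, -1) ↑F)
    rw [IND_box] at h1
    rw [h1, ← h0]
    apply Pr_congr
    intro F _
    rw [LSym.coe_mp]
    constructor
    · intro h
      have h2 := IND_sym' m _ h
      have h3 : (sy 2).φ '' ((sy 2).φ '' (↑F : Set Edg)) = ↑F := by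
        rw [Set.image_image]
        simp only [MON_invol, Set.image_id']
      rw [h3] at h2
      exact h2
    · exact IND_sym m _

theorem inner_indep {m : ℕ} {f0 : ℤ} (hf : f0 = 0 ∨ f0 = -1) {U : Finset Edg}
    (hU : boxE m ⊆ U) {Bd : Finset Edg → Prop}
    (hB : ∀ F, F ⊆ U → (Bd F ↔ Bd (F \ boxE m))) :
    H12S.PQ (1 / 2) U (fun F => A2g m (f0, f0) ↑F ∧ Bd F) = pi2 m * H12S.PQ (1 / 2) U Bd := by
  have hA : ∀ F, F ⊆ U → (A2g m (f0, f0) (↑F : Set Edg) ↔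
      A2g m (f0, f0) (↑(F ∩ boxE m) : Set Edg)) := by
    intro F _
    rw [coe_inter]
    exact IND_loc m _ _
  have hB' : ∀ F, F ⊆ U → (Bd F ↔ Bd (F ∩ (U \ boxE m))) := by
    intro F hF
    have : F ∩ (U \ boxE m) = F \ boxE m := by
      ext e
      simp only [mem_inter, mem_sdiff]
      constructor
      · rintro ⟨h1, _, h2⟩
        exact ⟨h1, h2⟩
      · rintro ⟨h1, h2⟩
        exact ⟨h1, hF h1, h2⟩
    rw [this]
    exact hB F hF
  have h1 := Pr_indep (p := fun _ => (1 / 2 : ℝ)) hU (sdiff_subset : U \ boxE m ⊆ U)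
    disjoint_sdiff hA hB'
  have h2 : Pr (fun _ => (1 / 2 : ℝ)) U (fun F => A2g m (f0, f0) (↑F : Set Edg)) = pi2 m := by
    rw [Pr_local hU hA]
    exact IND_pi2 m hf
  rw [h2] at h1
  exact h1

end H985T
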