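import Pool.Agent.H985R3.TA.BSLof
import Pool.Agent.H985R3.TA.IND
import Pool.Agent.H985R3.TA.MON
import Pool.Agent.H985R3.TA.HPD

/-!
Two-arm project: bad events for the selection of the landing places.
-/

set_option autoImplicit false

namespace H985T

open H974 Finset

theorem bad_sel : ∀ η : ℝ, 0 < η → ∃ D₀ : ℕ, 1 ≤ D₀ ∧ ∀ D, D₀ ≤ D → ∀ m ρ : ℕ, 1 ≤ ρ →
    D * ρ ≤ m → m ≤ 2 * D * ρ → ∃ r0 R : ℕ, 10 * ρ ≤ R ∧ 2 * R + 40 * ρ ≤ r0 ∧ 8 * r0 ≤ m ∧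
      H12S.PQ (1 / 2) (boxE m) (fun F => A2g m (0, 0) ↑F ∧ ¬ SelGood m ρ r0 R ↑F) ≤
        η * pi2 (m / 2) :=
  bad_sel_of @inner_indep @A2g_half H3d_prob

end H985T
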