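import Pool.Agent.H985R3.TA.MainA
import Pool.Agent.H985R3.TA.BSL

/-!
# Two-arm project: `π₂(m) ≍ m^(-1/4)` for critical bond percolation on `ℤ²`
-/

set_option autoImplicit false

namespace H985T

open H974 Finset

/-- upper bound for the two-arm probability -/
theorem pi2_upper : ∃ C : ℝ, 0 < C ∧ ∀ m : ℕ, 1 ≤ m → pi2 m ≤ C * (m:ℝ) ^ (-(1/4 : ℝ)) :=
  pi2_upper_main bad_sel

/-- lower bound for the separated event in at least one admissible cell, at every large scale -/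
theorem EV_lower :
    ∃ (B m₀ : ℕ) (κ : ℝ), 0 < κ ∧ ∀ m, m₀ ≤ m →
      ∃ (ρ : ℕ) (c : ℤ) (s : Fin 4) (c' f0 : ℤ), Geo B m ρ c s c' ∧ (f0 = 0 ∨ f0 = -1) ∧
        κ * (m:ℝ) ^ (-(1/4 : ℝ)) ≤
          Pr (fun _ => 1 / 2) (EU m ρ c s c') (EV m ρ c s c' (f0, f0)) :=
  EV_lower_of (fun hη => rec_gen bad_sel hη) pi2_upper pi2_lower

end H985T
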