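import Pool.Agent.H985R3.TA.Defs4
import Pool.Agent.H985R3.TA.HPD

/-!
Two-arm project, task HPI: three arms in the half plane outside of the box.
-/

set_option autoImplicit false

namespace H985T

open H974 Finset

/-- three arms (open, dual, open) in the half ball on the right of the line `x = M` -/
def HPI_E3 (M y0 : ℤ) (r R : ℕ) (F : Set Edg) : Prop :=
  ∃ ya yb : ℤ, |ya - y0| ≤ r ∧ |yb - y0| ≤ r ∧
    (∃ z : Vtx, (z.1 = M + R ∨ z.2 = y0 - R ∨ z.2 = y0 + R) ∧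
      Reach (F ∩ ↑(RE M (M + R) (y0 - R) (y0 + R))) (M, ya) z) ∧
    (∃ z : Vtx, (z.1 = M + R ∨ z.2 = y0 - R ∨ z.2 = y0 + R) ∧
      Reach (F ∩ ↑(RE M (M + R) (y0 - R) (y0 + R))) (M, yb) z) ∧
    ¬ Reach (F ∩ ↑(RE M (M + R) (y0 - R) (y0 + R))) (M, ya) (M, yb)

theorem HPI_RE (M y0 : ℤ) (R : ℕ) : (rfx 0).mp (RE M (M + R) (y0 - R) (y0 + R)) =
    RE (-M - R) (-M) (y0 - R) (y0 + R) := by
  rw [rfx_RE]
  congr 1 <;> ring

theorem HPI_image (M y0 : ℤ) (R : ℕ) (F : Finset Edg) :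
    (↑((rfx 0).mp F) : Set Edg) ∩ ↑(RE (-M - R) (-M) (y0 - R) (y0 + R)) =
      (rfx 0).φ '' ((↑F : Set Edg) ∩ ↑(RE M (M + R) (y0 - R) (y0 + R))) := by
  rw [Set.image_inter (rfx 0).φ.injective, ← LSym.coe_mp, ← LSym.coe_mp, HPI_RE]

theorem HPI_refl {M y0 : ℤ} {r R : ℕ} {F : Finset Edg} (h : HPI_E3 M y0 r R ↑F) :
    HPP_E3 (-M) y0 r R ↑((rfx 0).mp F) := by
  obtain ⟨ya, yb, ha, hb, ⟨za, hza, hra⟩, ⟨zb, hzb, hrb⟩, hn⟩ := h
  unfold HPP_E3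
  rw [HPI_image]
  have key : ∀ y : ℤ, (rfx 0).ψ (M, y) = (-M, y) := by
    intro y
    rw [rfx_ψ, zero_sub]
  refine ⟨ya, yb, ha, hb, ⟨(rfx 0).ψ za, ?_, ?_⟩, ⟨(rfx 0).ψ zb, ?_, ?_⟩, ?_⟩
  · obtain ⟨z1, z2⟩ := za
    rw [rfx_ψ]
    simp only at hza ⊢
    omega
  · rw [← key ya, LSym.reach_iff]
    exact hra
  · obtain ⟨z1, z2⟩ := zb
    rw [rfx_ψ]
    simp only at hzb ⊢
    omega
  · rw [← key yb, LSym.reach_iff]
    exact hrb
  · rw [← key ya, ← key yb, LSym.reach_iff]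
    exact hn

theorem HPI_prob : ∃ C c : ℝ, 0 < C ∧ 0 < c ∧ ∀ (M y0 : ℤ) (r R : ℕ) (U : Finset Edg),
    1 ≤ r → r ≤ R → RE M (M + R) (y0 - R) (y0 + R) ⊆ U →
    H12S.PQ (1 / 2) U (fun F => HPI_E3 M y0 r R ↑F) ≤ C * ((r:ℝ) / R) ^ (1 + c) := by
  obtain ⟨C, c, hC, hc, h⟩ := HPP_prob
  refine ⟨C, c, hC, hc, ?_⟩
  intro M y0 r R U hr hrR hU
  have hok : Ok (fun _ : Edg => (1 / 2 : ℝ)) := fun _ => ⟨by norm_num, by norm_num⟩
  have h1 := h (-M) y0 r R ((rfx 0).mp U) hr hrR (by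
    rw [← HPI_RE]
    exact (rfx 0).mp_mono hU)
  refine le_trans ?_ h1
  unfold H12S.PQ
  rw [LSym.pr]
  exact Pr_mono hok (fun F _ hF => HPI_refl hF)

/-- first exit from the half ball on the right of the line `x = M`; the vertices on the line
`x = M - 1` are pendant -/
theorem HPI_exit {M y0 : ℤ} {R : ℕ} {G : Set Edg} (hf : ∀ x y : ℤ, ((x, y, false) : Edg) ∈ G → M ≤ x)
    (ht : ∀ x y : ℤ, ((x, y, true) : Edg) ∈ G → M - 1 ≤ x) {ya : ℤ}
    (hya : y0 - R ≤ ya ∧ ya ≤ y0 + R) {v : Vtx} (h : Reach G (M, ya) v) :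
    (∃ z : Vtx, (z.1 = M + R ∨ z.2 = y0 - R ∨ z.2 = y0 + R) ∧
      Reach (G ∩ ↑(RE M (M + R) (y0 - R) (y0 + R))) (M, ya) z) ∨
    (inR M (M + R) (y0 - R) (y0 + R) v ∧
      Reach (G ∩ ↑(RE M (M + R) (y0 - R) (y0 + R))) (M, ya) v) ∨
    (v.1 = M - 1 ∧ inR M (M + R) (y0 - R) (y0 + R) (M, v.2) ∧
      Reach (G ∩ ↑(RE M (M + R) (y0 - R) (y0 + R))) (M, ya) (M, v.2)) := by
  induction h with
  | refl =>
    right; left
    refine ⟨⟨⟨le_rfl, ?_⟩, ?_, ?_⟩, Reach.refl _ _⟩ <;> simp only <;> omega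
  | @tail v w _ hs ih =>
    rcases ih with ih | ⟨hv, hr⟩ | ⟨hv1, hv2, hr⟩
    · exact Or.inl ih
    · by_cases hrim : v.1 = M + R ∨ v.2 = y0 - R ∨ v.2 = y0 + R
      · exact Or.inl ⟨v, hrim, hr⟩
      · right
        obtain ⟨⟨x, y, t⟩, he, hc⟩ := hs
        obtain ⟨v1, v2⟩ := v
        obtain ⟨⟨a1, a2⟩, a3, a4⟩ := hv
        simp only at a1 a2 a3 a4 hrim
        cases t
        · have hx := hf x y he
          simp only [src_mk, tgt_false, Prod.mk.injEq] at hc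
          left
          have hmem : ((x, y, false) : Edg) ∈ G ∩ ↑(RE M (M + R) (y0 - R) (y0 + R)) := by
            refine ⟨he, ?_⟩
            rw [Finset.mem_coe, mem_RE_false]
            rcases hc with ⟨⟨h1, h2⟩, h3⟩ | ⟨h3, h1, h2⟩ <;> omega
          rcases hc with ⟨⟨h1, h2⟩, h3⟩ | ⟨h3, h1, h2⟩
          · subst h3
            refine ⟨⟨⟨by simp only; omega, by simp only; omega⟩,
              by simp only; omega, by simp only; omega⟩, ?_⟩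
            exact hr.tail ⟨_, hmem, Or.inl ⟨by simp only [src_mk, Prod.mk.injEq]; omega,
              by simp only [tgt_false]⟩⟩
          · subst h3
            refine ⟨⟨⟨by simp only; omega, by simp only; omega⟩,
              by simp only; omega, by simp only; omega⟩, ?_⟩
            exact hr.tail ⟨_, hmem, Or.inr ⟨by simp only [src_mk],
              by simp only [tgt_false, Prod.mk.injEq]; omega⟩⟩
        · have hx := ht x y he
          simp only [src_mk, tgt_true, Prod.mk.injEq] at hc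
          by_cases hxM : x = M - 1
          · right
            rcases hc with ⟨⟨h1, h2⟩, h3⟩ | ⟨h3, h1, h2⟩
            · exfalso; omega
            · subst h3
              have e1 : v1 = M := by omega
              subst e1
              have e2 : y = v2 := by omega
              subst e2
              exact ⟨hxM, ⟨⟨a1, a2⟩, a3, a4⟩, hr⟩
          · left
            have hmem : ((x, y, true) : Edg) ∈ G ∩ ↑(RE M (M + R) (y0 - R) (y0 + R)) := by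
              refine ⟨he, ?_⟩
              rw [Finset.mem_coe, mem_RE_true]
              rcases hc with ⟨⟨h1, h2⟩, h3⟩ | ⟨h3, h1, h2⟩ <;> omega
            rcases hc with ⟨⟨h1, h2⟩, h3⟩ | ⟨h3, h1, h2⟩
            · subst h3
              refine ⟨⟨⟨by simp only; omega, by simp only; omega⟩,
                by simp only; omega, by simp only; omega⟩, ?_⟩
              exact hr.tail ⟨_, hmem, Or.inl ⟨by simp only [src_mk, Prod.mk.injEq]; omega,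
                by simp only [tgt_true]⟩⟩
            · subst h3
              refine ⟨⟨⟨by simp only; omega, by simp only; omega⟩,
                by simp only; omega, by simp only; omega⟩, ?_⟩
              exact hr.tail ⟨_, hmem, Or.inr ⟨by simp only [src_mk],
                by simp only [tgt_true, Prod.mk.injEq]; omega⟩⟩
    · right; left
      obtain ⟨⟨x, y, t⟩, he, hc⟩ := hs
      obtain ⟨v1, v2⟩ := v
      simp only at hv1 hv2 hr
      subst hv1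
      cases t
      · have hx := hf x y he
        simp only [src_mk, tgt_false, Prod.mk.injEq] at hc
        exfalso
        rcases hc with ⟨⟨h1, h2⟩, h3⟩ | ⟨h3, h1, h2⟩ <;> omega
      · have hx := ht x y he
        simp only [src_mk, tgt_true, Prod.mk.injEq] at hc
        rcases hc with ⟨⟨h1, h2⟩, h3⟩ | ⟨h3, h1, h2⟩
        · have e1 : w = (M, v2) := by
            rw [← h3, Prod.mk.injEq]
            omega
          rw [e1]
          exact ⟨hv2, hr⟩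
        · exfalso; omega

/-- membership in the half ball outside of the box -/
theorem HPI_memf {a : ℕ} {y0 : ℤ} {R : ℕ} (h : |y0| + R ≤ a) {x y : ℤ}
    (he : ((x, y, false) : Edg) ∈ hbI a y0 R) :
    (a:ℤ) + 1 ≤ x ∧ x ≤ a + R ∧ y0 - R ≤ y ∧ y < y0 + R := by
  unfold hbI boxE at he
  rw [Finset.mem_sdiff, mem_RE_false, mem_RE_false] at he
  rcases abs_cases y0 with ⟨h1, h2⟩ | ⟨h1, h2⟩ <;> omega

theorem HPI_memt {a : ℕ} {y0 : ℤ} {R : ℕ} {x y : ℤ} (he : ((x, y, true) : Edg) ∈ hbI a y0 R) :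
    (a:ℤ) ≤ x ∧ x < a + R ∧ y0 - R ≤ y ∧ y ≤ y0 + R := by
  unfold hbI at he
  rw [Finset.mem_sdiff, mem_RE_true] at he
  omega

theorem HPI_memf' {a : ℕ} {y0 : ℤ} {R : ℕ} {x y : ℤ}
    (h : (a:ℤ) + 1 ≤ x ∧ x ≤ a + R ∧ y0 - R ≤ y ∧ y < y0 + R) :
    ((x, y, false) : Edg) ∈ hbI a y0 R := by
  unfold hbI boxE
  rw [Finset.mem_sdiff, mem_RE_false, mem_RE_false]
  omega

theorem HPI_memt' {a : ℕ} {y0 : ℤ} {R : ℕ} {x y : ℤ}
    (h : (a:ℤ) ≤ x ∧ x < a + R ∧ y0 - R ≤ y ∧ y ≤ y0 + R) :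
    ((x, y, true) : Edg) ∈ hbI a y0 R := by
  unfold hbI boxE
  rw [Finset.mem_sdiff, mem_RE_true, mem_RE_true]
  omega

theorem HPI_subp {a : ℕ} {y0 : ℤ} {R : ℕ} (hR : 1 ≤ R) :
    RE ((a:ℤ) + 1) ((a:ℤ) + 1 + ((R - 1 : ℕ) : ℤ)) (y0 - ((R - 1 : ℕ) : ℤ))
      (y0 + ((R - 1 : ℕ) : ℤ)) ⊆ hbI a y0 R := by
  have hR1 : ((R - 1 : ℕ) : ℤ) = R - 1 := by
    rw [Nat.cast_sub (by omega)]
    simp
  rw [hR1]
  rintro ⟨x, y, t⟩ he
  cases t
  · rw [mem_RE_false] at he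
    exact HPI_memf' (by omega)
  · rw [mem_RE_true] at he
    exact HPI_memt' (by omega)

theorem HPI_subd {a : ℕ} {y0 : ℤ} {R : ℕ} (hR : 1 ≤ R) :
    RE (a:ℤ) ((a:ℤ) + ((R - 1 : ℕ) : ℤ)) (y0 - ((R - 1 : ℕ) : ℤ))
      (y0 + ((R - 1 : ℕ) : ℤ)) ⊆ dmp (hbI a y0 R) := by
  have hR1 : ((R - 1 : ℕ) : ℤ) = R - 1 := by
    rw [Nat.cast_sub (by omega)]
    simp
  rw [hR1]
  rintro ⟨x, y, t⟩ he
  rw [mem_dmp]
  cases t
  · rw [mem_RE_false] at he
    rw [dls_f]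
    exact HPI_memt' (by omega)
  · rw [mem_RE_true] at he
    rw [dls_t]
    exact HPI_memf' (by omega)

/-- the first step of an open path which starts on the side of the box -/
theorem HPI_first {a : ℕ} {y0 : ℤ} {R : ℕ} (hb : |y0| + R ≤ a) {F : Set Edg} {ya : ℤ} {z : Vtx}
    (hz : z ≠ ((a:ℤ), ya)) (h : Reach (F ∩ ↑(hbI a y0 R)) ((a:ℤ), ya) z) :
    (((a:ℤ), ya, true) : Edg) ∈ F ∩ ↑(hbI a y0 R) := by
  rcases Relation.ReflTransGen.cases_head h with h1 | ⟨w, ⟨e, heH, hc⟩, -⟩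
  · exact absurd h1.symm hz
  · obtain ⟨x, y, t⟩ := e
    have heR := heH.2
    rw [Finset.mem_coe] at heR
    cases t
    · have h1 := HPI_memf hb heR
      simp only [src_mk, tgt_false, Prod.mk.injEq] at hc
      exfalso
      rcases hc with ⟨⟨h2, h3⟩, h4⟩ | ⟨h4, h2, h3⟩ <;> omega
    · have h1 := HPI_memt heR
      simp only [src_mk, tgt_true, Prod.mk.injEq] at hc
      rcases hc with ⟨⟨h2, h3⟩, h4⟩ | ⟨h4, h2, h3⟩
      · rw [← h2, ← h3]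
        exact heH
      · exfalso; omega

theorem HPI_step {a : ℕ} {y : ℤ} {G : Set Edg} (h : (((a:ℤ), y, true) : Edg) ∈ G) :
    Reach G ((a:ℤ) + 1, y) ((a:ℤ), y) :=
  Relation.ReflTransGen.single ⟨_, h, Or.inr ⟨by simp only [src_mk], by simp only [tgt_true]⟩⟩

theorem HPI_p {a : ℕ} {y0 : ℤ} {r R : ℕ} (hb0 : |y0| + R ≤ a) (hrR : r + 1 ≤ R) {F : Set Edg}
    (h : H3pi a y0 r R F) : HPI_E3 ((a:ℤ) + 1) y0 r (R - 1) F := by
  obtain ⟨ya, yb, ha, hb, ⟨za, hza, hra⟩, ⟨zb, hzb, hrb⟩, hn⟩ := h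
  rw [abs_le] at ha hb
  have hR1 : ((R - 1 : ℕ) : ℤ) = R - 1 := by
    rw [Nat.cast_sub (by omega)]
    simp
  have na : za ≠ ((a:ℤ), ya) := by
    rintro rfl
    simp only at hza
    omega
  have nb' : zb ≠ ((a:ℤ), yb) := by
    rintro rfl
    simp only at hzb
    omega
  have fa := HPI_first hb0 na hra
  have fb := HPI_first hb0 nb' hrb
  have ga := (HPI_step fa).trans hra
  have gb := (HPI_step fb).trans hrb
  have hf : ∀ x y : ℤ, ((x, y, false) : Edg) ∈ F ∩ ↑(hbI a y0 R) → (a:ℤ) + 1 ≤ x :=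
    fun x y he => (HPI_memf hb0 (Finset.mem_coe.1 he.2)).1
  have ht : ∀ x y : ℤ, ((x, y, true) : Edg) ∈ F ∩ ↑(hbI a y0 R) → (a:ℤ) + 1 - 1 ≤ x := by
    intro x y he
    have := (HPI_memt (Finset.mem_coe.1 he.2)).1
    omega
  have xa := HPI_exit (R := R - 1) (y0 := y0) hf ht (ya := ya) (by omega) ga
  have xb := HPI_exit (R := R - 1) (y0 := y0) hf ht (ya := yb) (by omega) gb
  have hsub : (F ∩ ↑(hbI a y0 R)) ∩ ↑(RE ((a:ℤ) + 1) ((a:ℤ) + 1 + ((R - 1 : ℕ) : ℤ))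
      (y0 - ((R - 1 : ℕ) : ℤ)) (y0 + ((R - 1 : ℕ) : ℤ))) = F ∩ ↑(RE ((a:ℤ) + 1)
      ((a:ℤ) + 1 + ((R - 1 : ℕ) : ℤ)) (y0 - ((R - 1 : ℕ) : ℤ)) (y0 + ((R - 1 : ℕ) : ℤ))) := by
    ext e
    constructor
    · rintro ⟨h1, h2⟩
      exact ⟨h1.1, h2⟩
    · rintro ⟨h1, h2⟩
      exact ⟨⟨h1, HPI_subp (by omega) h2⟩, h2⟩
  rw [hsub] at xa xb
  refine ⟨ya, yb, abs_le.2 ha, abs_le.2 hb, ?_, ?_, ?_⟩
  · rcases xa with x1 | ⟨x1, x2⟩ | ⟨x1, x2, x3⟩
    · exact x1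
    · refine ⟨za, ?_, x2⟩
      obtain ⟨⟨b1, b2⟩, b3, b4⟩ := x1
      omega
    · exfalso
      obtain ⟨⟨b1, b2⟩, b3, b4⟩ := x2
      simp only at b1 b2 b3 b4
      omega
  · rcases xb with x1 | ⟨x1, x2⟩ | ⟨x1, x2, x3⟩
    · exact x1
    · refine ⟨zb, ?_, x2⟩
      obtain ⟨⟨b1, b2⟩, b3, b4⟩ := x1
      omega
    · exfalso
      obtain ⟨⟨b1, b2⟩, b3, b4⟩ := x2
      simp only at b1 b2 b3 b4
      omega
  · intro hcon
    rw [← hsub] at hcon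
    have h1 := hcon.mono Set.inter_subset_left
    exact hn (((HPI_step fa).symm.trans h1).trans (HPI_step fb))

theorem HPI_d {a : ℕ} {y0 : ℤ} {r R : ℕ} (hb0 : |y0| + R ≤ a) (hrR : r + 1 ≤ R) {F : Set Edg}
    (h : H3di a y0 r R F) : HPI_E3 (a:ℤ) y0 r (R - 1) (dl '' (↑(hbI a y0 R) \ F)) := by
  obtain ⟨ya, yb, ha, hb, ⟨za, hza, hra⟩, ⟨zb, hzb, hrb⟩, hn⟩ := h
  rw [abs_le] at ha hb
  have hR1 : ((R - 1 : ℕ) : ℤ) = R - 1 := by
    rw [Nat.cast_sub (by omega)]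
    simp
  have ga := reach_dl.mpr hra
  have gb := reach_dl.mpr hrb
  have hf : ∀ x y : ℤ, ((x, y, false) : Edg) ∈ dl '' (↑(hbI a y0 R) \ F) → (a:ℤ) ≤ x := by
    rintro x y ⟨⟨x', y', t⟩, he, h1⟩
    cases t
    · rw [dl_f] at h1
      simp at h1
    · rw [dl_t] at h1
      simp only [Prod.mk.injEq] at h1
      have := (HPI_memt (Finset.mem_coe.1 he.1)).1
      omega
  have ht : ∀ x y : ℤ, ((x, y, true) : Edg) ∈ dl '' (↑(hbI a y0 R) \ F) → (a:ℤ) - 1 ≤ x := by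
    rintro x y ⟨⟨x', y', t⟩, he, h1⟩
    cases t
    · rw [dl_f] at h1
      simp only [Prod.mk.injEq] at h1
      have := (HPI_memf hb0 (Finset.mem_coe.1 he.1)).1
      omega
    · rw [dl_t] at h1
      simp at h1
  have xa := HPI_exit (R := R - 1) (y0 := y0) hf ht (ya := ya) (by omega) ga
  have xb := HPI_exit (R := R - 1) (y0 := y0) hf ht (ya := yb) (by omega) gb
  refine ⟨ya, yb, abs_le.2 ha, abs_le.2 hb, ?_, ?_, ?_⟩
  · rcases xa with x1 | ⟨x1, x2⟩ | ⟨x1, x2, x3⟩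
    · exact x1
    · exfalso
      obtain ⟨⟨b1, b2⟩, b3, b4⟩ := x1
      omega
    · exfalso
      obtain ⟨⟨b1, b2⟩, b3, b4⟩ := x2
      simp only at b1 b2 b3 b4
      omega
  · rcases xb with x1 | ⟨x1, x2⟩ | ⟨x1, x2, x3⟩
    · exact x1
    · exfalso
      obtain ⟨⟨b1, b2⟩, b3, b4⟩ := x1
      omega
    · exfalso
      obtain ⟨⟨b1, b2⟩, b3, b4⟩ := x2
      simp only at b1 b2 b3 b4
      omega
  · intro hcon
    exact hn (reach_dl.mp (hcon.mono Set.inter_subset_left))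

/-- the passage from the radius `R - 1` to the radius `R` -/
theorem HPI_real {C c : ℝ} (hC : 0 < C) (hc : 0 < c) {r R : ℕ} (hr : 1 ≤ r) (hcase : 2 * r < R) :
    C * ((r:ℝ) / ((R - 1 : ℕ) : ℝ)) ^ (1 + c) ≤
      (C + 1) * 2 ^ (1 + c) * ((r:ℝ) / R) ^ (1 + c) := by
  have hr0 : (0:ℝ) < r := by exact_mod_cast hr
  have hR0 : (0:ℝ) < R := by exact_mod_cast (by omega : 0 < R)
  have h2 : (0:ℝ) < 2 ^ (1 + c) := by positivity
  have hR1 : ((R - 1 : ℕ) : ℝ) = R - 1 := by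
    rw [Nat.cast_sub (by omega)]
    simp
  rw [hR1]
  have hR2 : (2:ℝ) ≤ R := by
    have : 2 ≤ R := by omega
    exact_mod_cast this
  have h5 : (r:ℝ) / (R - 1) ≤ 2 * (r / R) := by
    rw [← mul_div_assoc, div_le_div_iff₀ (by linarith) hR0]
    nlinarith
  have h6 : ((r:ℝ) / (R - 1)) ^ (1 + c) ≤ 2 ^ (1 + c) * ((r:ℝ) / R) ^ (1 + c) := by
    rw [← Real.mul_rpow (by norm_num) (by positivity)]
    refine Real.rpow_le_rpow ?_ h5 (by linarith)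
    exact div_nonneg hr0.le (by linarith)
  have h7 : 0 ≤ ((r:ℝ) / R) ^ (1 + c) := by positivity
  nlinarith [mul_le_mul_of_nonneg_left h6 hC.le, mul_nonneg h2.le h7]

theorem HPI_triv {C c : ℝ} (hC : 0 < C) (hc : 0 < c) {r R : ℕ} (hr : 1 ≤ r) (hrR : r ≤ R)
    (hcase : R ≤ 2 * r) : 1 ≤ (C + 1) * 2 ^ (1 + c) * ((r:ℝ) / R) ^ (1 + c) := by
  have hr0 : (0:ℝ) < r := by exact_mod_cast hr
  have hR0 : (0:ℝ) < R := by exact_mod_cast lt_of_lt_of_le hr hrR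
  have h5 : (1:ℝ) ≤ 2 * (r / R) := by
    rw [← mul_div_assoc, le_div_iff₀ hR0, one_mul]
    exact_mod_cast hcase
  have h6 : (1:ℝ) ≤ 2 ^ (1 + c) * ((r:ℝ) / R) ^ (1 + c) := by
    rw [← Real.mul_rpow (by norm_num) (by positivity)]
    exact Real.one_le_rpow h5 (by linarith)
  nlinarith [mul_pos hC (lt_of_lt_of_le one_pos h6)]

theorem H3pi_prob : ∃ C c : ℝ, 0 < C ∧ 0 < c ∧ ∀ (a r R : ℕ) (y0 : ℤ) (U : Finset Edg),
    1 ≤ r → r ≤ R → |y0| + R ≤ a → hbI a y0 R ⊆ U →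
    H12S.PQ (1 / 2) U (fun F => H3pi a y0 r R ↑F) ≤ C * ((r:ℝ) / R) ^ (1 + c) := by
  obtain ⟨C, c, hC, hc, h⟩ := HPI_prob
  refine ⟨(C + 1) * 2 ^ (1 + c), c, by positivity, hc, ?_⟩
  intro a r R y0 U hr hrR hy hU
  have hok : Ok (fun _ : Edg => (1 / 2 : ℝ)) := fun _ => ⟨by norm_num, by norm_num⟩
  rcases Nat.lt_or_ge (2 * r) R with hcase | hcase
  · have h1 := h ((a:ℤ) + 1) y0 r (R - 1) U hr (by omega) ((HPI_subp (by omega)).trans hU)
    refine le_trans ?_ (h1.trans (HPI_real hC hc hr hcase))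
    unfold H12S.PQ
    exact Pr_mono hok (fun F _ hF => HPI_p hy (by omega) hF)
  · exact (Pr_le_one hok _ _).trans (HPI_triv hC hc hr hrR hcase)

theorem H3di_prob : ∃ C c : ℝ, 0 < C ∧ 0 < c ∧ ∀ (a r R : ℕ) (y0 : ℤ) (U : Finset Edg),
    1 ≤ r → r ≤ R → |y0| + R ≤ a → hbI a y0 R ⊆ U →
    H12S.PQ (1 / 2) U (fun F => H3di a y0 r R ↑F) ≤ C * ((r:ℝ) / R) ^ (1 + c) := by
  obtain ⟨C, c, hC, hc, h⟩ := HPI_prob
  refine ⟨(C + 1) * 2 ^ (1 + c), c, by positivity, hc, ?_⟩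
  intro a r R y0 U hr hrR hy hU
  have hok : Ok (fun _ : Edg => (1 / 2 : ℝ)) := fun _ => ⟨by norm_num, by norm_num⟩
  rcases Nat.lt_or_ge (2 * r) R with hcase | hcase
  · have h1 := h (a:ℤ) y0 r (R - 1) (dmp U) hr (by omega) ((HPI_subd (by omega)).trans (by
      intro e he
      rw [mem_dmp] at he ⊢
      exact hU he))
    have h3 : H12S.PQ (1 / 2) U (fun F => H3di a y0 r R ↑F) ≤
        H12S.PQ (1 / 2) (dmp U) (fun F => HPI_E3 (a:ℤ) y0 r (R - 1) ↑F) := by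
      unfold H12S.PQ
      rw [pr_dmp]
      have e : (fun _ : Edg => (1 / 2 : ℝ)) = fun e => 1 - (fun _ : Edg => (1 / 2 : ℝ)) e := by
        funext e; norm_num
      conv_rhs => rw [e]
      rw [Pr_compl]
      refine Pr_mono hok (fun F _ hF => ?_)
      have h4 := HPI_d hy (by omega) hF
      obtain ⟨ya, yb, ha, hb, ⟨za, hza, hra⟩, ⟨zb, hzb, hrb⟩, hn⟩ := h4
      -- the two configurations agree on the half ball
      have hloc : (↑(dmp (U \ F)) : Set Edg) ∩ ↑(RE (a:ℤ) ((a:ℤ) + ((R - 1 : ℕ) : ℤ))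
            (y0 - ((R - 1 : ℕ) : ℤ)) (y0 + ((R - 1 : ℕ) : ℤ))) =
          dl '' (↑(hbI a y0 R) \ ↑F) ∩ ↑(RE (a:ℤ) ((a:ℤ) + ((R - 1 : ℕ) : ℤ))
            (y0 - ((R - 1 : ℕ) : ℤ)) (y0 + ((R - 1 : ℕ) : ℤ))) := by
        ext e
        constructor
        · rintro ⟨h5, h6⟩
          refine ⟨?_, h6⟩
          rw [Finset.mem_coe, mem_dmp, Finset.mem_sdiff] at h5
          have h7 := HPI_subd (by omega) (Finset.mem_coe.1 h6)
          rw [mem_dmp] at h7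
          exact ⟨dl.symm e, ⟨h7, h5.2⟩, dl.apply_symm_apply e⟩
        · rintro ⟨⟨e', ⟨h7, h8⟩, rfl⟩, h6⟩
          refine ⟨?_, h6⟩
          rw [Finset.mem_coe, mem_dmp, Finset.mem_sdiff, dl.symm_apply_apply]
          exact ⟨hU h7, h8⟩
      refine ⟨ya, yb, ha, hb, ⟨za, hza, ?_⟩, ⟨zb, hzb, ?_⟩, ?_⟩
      · rw [hloc]; exact hra
      · rw [hloc]; exact hrb
      · rw [hloc]; exact hn
    exact h3.trans (h1.trans (HPI_real hC hc hr hcase))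
  · exact (Pr_le_one hok _ _).trans (HPI_triv hC hc hr hrR hcase)

end H985T
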