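import Pool.Agent.H985R3.TA.Defs3

/-!
Two-arm project: the four diagonal symmetries.
-/

set_option autoImplicit false

namespace H985T

open H974 Finset

theorem SYM_cases (s : Fin 4) : s = 0 ∨ s = 1 ∨ s = 2 ∨ s = 3 := by
  revert s; decide

theorem SYM_0 : sy 0 = sy0 := rfl
theorem SYM_1 : sy 1 = sy1 := rfl
theorem SYM_2 : sy 2 = sy2 := rfl
theorem SYM_3 : sy 3 = sy3 := rfl

theorem SYM_0φ (e : Edg) : (sy 0).φ e = e := rfl
theorem SYM_0ψ (v : Vtx) : (sy 0).ψ v = v := rfl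
theorem SYM_0f (v : Vtx) : (sy 0).ψf v = v := rfl
theorem SYM_1φ (x y : ℤ) (b : Bool) : (sy 1).φ (x, y, b) = (y, x, !b) := rfl
theorem SYM_1ψ (x y : ℤ) : (sy 1).ψ (x, y) = (y, x) := rfl
theorem SYM_1f (x y : ℤ) : (sy 1).ψf (x, y) = (y, x) := rfl
theorem SYM_2φt (x y : ℤ) : (sy 2).φ (x, y, true) = (-x - 1, -y, true) := rfl
theorem SYM_2φf (x y : ℤ) : (sy 2).φ (x, y, false) = (-x, -y - 1, false) := rfl
theorem SYM_2ψ (x y : ℤ) : (sy 2).ψ (x, y) = (-x, -y) := rfl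
theorem SYM_2f (x y : ℤ) : (sy 2).ψf (x, y) = (-x - 1, -y - 1) := rfl
theorem SYM_3φt (x y : ℤ) : (sy 3).φ (x, y, true) = (-y, -x - 1, false) := rfl
theorem SYM_3φf (x y : ℤ) : (sy 3).φ (x, y, false) = (-y - 1, -x, true) := rfl
theorem SYM_3ψ (x y : ℤ) : (sy 3).ψ (x, y) = (-y, -x) := rfl
theorem SYM_3f (x y : ℤ) : (sy 3).ψf (x, y) = (-y - 1, -x - 1) := rfl

theorem sy_invol (s : Fin 4) (e : Edg) : (sy s).φ ((sy s).φ e) = e := by
  obtain ⟨x, y, b⟩ := e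
  rcases SYM_cases s with rfl | rfl | rfl | rfl
  · rfl
  · rw [SYM_1φ, SYM_1φ, Bool.not_not]
  · cases b
    · rw [SYM_2φf, SYM_2φf]
      simp only [Prod.mk.injEq, and_true]; omega
    · rw [SYM_2φt, SYM_2φt]
      simp only [Prod.mk.injEq, and_true]; omega
  · cases b
    · rw [SYM_3φf, SYM_3φt]
      simp only [Prod.mk.injEq, and_true]; omega
    · rw [SYM_3φt, SYM_3φf]
      simp only [Prod.mk.injEq, and_true]; omega

theorem sy_invol_f (s : Fin 4) (a : Vtx) : (sy s).ψf ((sy s).ψf a) = a := by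
  obtain ⟨x, y⟩ := a
  rcases SYM_cases s with rfl | rfl | rfl | rfl
  · rfl
  · rfl
  · rw [SYM_2f, SYM_2f]
    simp only [Prod.mk.injEq]; omega
  · rw [SYM_3f, SYM_3f]
    simp only [Prod.mk.injEq]; omega

theorem sy_invol_v (s : Fin 4) (a : Vtx) : (sy s).ψ ((sy s).ψ a) = a := by
  obtain ⟨x, y⟩ := a
  rcases SYM_cases s with rfl | rfl | rfl | rfl
  · rfl
  · rfl
  · rw [SYM_2ψ, SYM_2ψ]
    simp only [Prod.mk.injEq]; omega
  · rw [SYM_3ψ, SYM_3ψ]
    simp only [Prod.mk.injEq]; omega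

/-- group law (`s` and `s'` exchange sides) -/
theorem sy_mul (s s' : Fin 4) : ∃ s'' : Fin 4, (s'' = 0 ↔ s = s') ∧
    (∀ e, (sy s'').φ ((sy s).φ e) = (sy s').φ e) ∧
    (∀ a, (sy s'').ψf ((sy s).ψf a) = (sy s').ψf a) ∧
    (∀ a, (sy s'').ψ ((sy s).ψ a) = (sy s').ψ a) := by
  rcases SYM_cases s with rfl | rfl | rfl | rfl <;> rcases SYM_cases s' with rfl | rfl | rfl | rfl
  · exact ⟨0, by decide, fun e => rfl, fun a => rfl, fun a => rfl⟩
  · exact ⟨1, by decide, fun e => rfl, fun a => rfl, fun a => rfl⟩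
  · exact ⟨2, by decide, fun e => rfl, fun a => rfl, fun a => rfl⟩
  · exact ⟨3, by decide, fun e => rfl, fun a => rfl, fun a => rfl⟩
  · exact ⟨1, by decide, fun e => sy_invol 1 e, fun a => sy_invol_f 1 a, fun a => sy_invol_v 1 a⟩
  · exact ⟨0, by decide, fun e => rfl, fun a => rfl, fun a => rfl⟩
  · refine ⟨3, by decide, ?_, ?_, ?_⟩
    · rintro ⟨x, y, _ | _⟩
      · rfl
      · rfl
    · rintro ⟨x, y⟩; rfl
    · rintro ⟨x, y⟩; rfl
  · refine ⟨2, by decide, ?_, ?_, ?_⟩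
    · rintro ⟨x, y, _ | _⟩
      · rfl
      · rfl
    · rintro ⟨x, y⟩; rfl
    · rintro ⟨x, y⟩; rfl
  · exact ⟨2, by decide, fun e => sy_invol 2 e, fun a => sy_invol_f 2 a, fun a => sy_invol_v 2 a⟩
  · refine ⟨3, by decide, ?_, ?_, ?_⟩
    · rintro ⟨x, y, _ | _⟩
      · rw [SYM_2φf, SYM_3φf, SYM_1φ]
        simp only [Bool.not_false, Prod.mk.injEq, and_true]; omega
      · rw [SYM_2φt, SYM_3φt, SYM_1φ]
        simp only [Bool.not_true, Prod.mk.injEq, and_true]; omega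
    · rintro ⟨x, y⟩
      rw [SYM_2f, SYM_3f, SYM_1f]
      simp only [Prod.mk.injEq]; omega
    · rintro ⟨x, y⟩
      rw [SYM_2ψ, SYM_3ψ, SYM_1ψ]
      simp only [Prod.mk.injEq]; omega
  · exact ⟨0, by decide, fun e => rfl, fun a => rfl, fun a => rfl⟩
  · refine ⟨1, by decide, ?_, ?_, ?_⟩
    · rintro ⟨x, y, _ | _⟩
      · rfl
      · rfl
    · rintro ⟨x, y⟩; rfl
    · rintro ⟨x, y⟩; rfl
  · exact ⟨3, by decide, fun e => sy_invol 3 e, fun a => sy_invol_f 3 a, fun a => sy_invol_v 3 a⟩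
  · refine ⟨2, by decide, ?_, ?_, ?_⟩
    · rintro ⟨x, y, _ | _⟩
      · rw [SYM_3φf, SYM_2φt, SYM_1φ]
        simp only [Bool.not_false, Prod.mk.injEq, and_true]; omega
      · rw [SYM_3φt, SYM_2φf, SYM_1φ]
        simp only [Bool.not_true, Prod.mk.injEq, and_true]; omega
    · rintro ⟨x, y⟩
      rw [SYM_3f, SYM_2f, SYM_1f]
      simp only [Prod.mk.injEq]; omega
    · rintro ⟨x, y⟩
      rw [SYM_3ψ, SYM_2ψ, SYM_1ψ]
      simp only [Prod.mk.injEq]; omega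
  · refine ⟨1, by decide, ?_, ?_, ?_⟩
    · rintro ⟨x, y, _ | _⟩
      · rfl
      · rfl
    · rintro ⟨x, y⟩; rfl
    · rintro ⟨x, y⟩; rfl
  · exact ⟨0, by decide, fun e => rfl, fun a => rfl, fun a => rfl⟩

theorem sy_mem_box (s : Fin 4) (m : ℕ) (e : Edg) : (sy s).φ e ∈ boxE m ↔ e ∈ boxE m := by
  obtain ⟨x, y, b⟩ := e
  unfold boxE
  rcases SYM_cases s with rfl | rfl | rfl | rfl
  · rfl
  · rw [SYM_1φ]
    cases b
    · rw [Bool.not_false, mem_RE_true, mem_RE_false]; omega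
    · rw [Bool.not_true, mem_RE_true, mem_RE_false]; omega
  · cases b
    · rw [SYM_2φf, mem_RE_false, mem_RE_false]; omega
    · rw [SYM_2φt, mem_RE_true, mem_RE_true]; omega
  · cases b
    · rw [SYM_3φf, mem_RE_false, mem_RE_true]; omega
    · rw [SYM_3φt, mem_RE_true, mem_RE_false]; omega

theorem SYM_symm (s : Fin 4) (e : Edg) : (sy s).φ.symm e = (sy s).φ e := by
  rw [Equiv.symm_apply_eq, sy_invol]

theorem sy_box (s : Fin 4) (m : ℕ) : (sy s).toLSym.mp (boxE m) = boxE m := by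
  ext e
  rw [LSym.mem_mp, SYM_symm, sy_mem_box]

theorem sy_origin (s : Fin 4) : (sy s).ψ (0, 0) = (0, 0) := by
  rcases SYM_cases s with rfl | rfl | rfl | rfl
  · rfl
  · rfl
  · rw [SYM_2ψ]; simp
  · rw [SYM_3ψ]; simp

theorem sy_corner {s : Fin 4} {x f : Vtx} : corner ((sy s).ψ x) ((sy s).ψf f) ↔ corner x f := by
  obtain ⟨a, b⟩ := x
  obtain ⟨c, d⟩ := f
  unfold corner
  rcases SYM_cases s with rfl | rfl | rfl | rfl
  · rfl
  · rw [SYM_1ψ, SYM_1f]; simp only; omega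
  · rw [SYM_2ψ, SYM_2f]; simp only; omega
  · rw [SYM_3ψ, SYM_3f]; simp only; omega

theorem sy_face (s : Fin 4) {f0 : ℤ} (hf : f0 = 0 ∨ f0 = -1) :
    ∃ f1 : ℤ, (f1 = 0 ∨ f1 = -1) ∧ (sy s).ψf (f0, f0) = (f1, f1) := by
  rcases SYM_cases s with rfl | rfl | rfl | rfl
  · exact ⟨f0, hf, rfl⟩
  · exact ⟨f0, hf, rfl⟩
  · exact ⟨-f0 - 1, by omega, rfl⟩
  · exact ⟨-f0 - 1, by omega, rfl⟩

theorem DSym.dreach (g : DSym) {H : Set Edg} {a b : Vtx} (h : DReach H a b) :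
    DReach (g.φ '' H) (g.ψf a) (g.ψf b) := by
  induction h with
  | refl => exact DReach.refl _ _
  | @tail b c _ hs ih =>
    refine ih.trans (DAdj.reach ?_)
    obtain ⟨e, he, hcase⟩ := hs
    refine ⟨g.φ e, Set.mem_image_of_mem _ he, ?_⟩
    rcases g.dcompat e with ⟨h1, h2⟩ | ⟨h1, h2⟩ <;> rcases hcase with ⟨h3, h4⟩ | ⟨h3, h4⟩ <;>
      rw [h1, h2, h3, h4] <;> simp

theorem sy_onB (s : Fin 4) (m : ℕ) (u : Vtx) : onB m ((sy s).ψ u) ↔ onB m u := by
  obtain ⟨x, y⟩ := u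
  rcases SYM_cases s with rfl | rfl | rfl | rfl
  · rfl
  · rw [SYM_1ψ]; unfold onB inR; simp only; omega
  · rw [SYM_2ψ]; unfold onB inR; simp only; omega
  · rw [SYM_3ψ]; unfold onB inR; simp only; omega

/-- tubes: the symmetry `sy s` moves the tube on the right side to the tube on side `s` -/
theorem sy_tube (s : Fin 4) (m ρ : ℕ) (c : ℤ) (L : ℕ) :
    (sy s).toLSym.mp (tube 0 m ρ c L) = tube s m ρ (cc s c) L := by
  ext ⟨x, y, b⟩
  rw [LSym.mem_mp, SYM_symm]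
  rcases SYM_cases s with rfl | rfl | rfl | rfl
  · rfl
  · rw [SYM_1φ]
    unfold tube cc
    rw [if_pos rfl, if_neg (by decide), if_pos rfl, if_pos (by decide)]
    cases b
    · rw [Bool.not_false, mem_RE_true, mem_RE_false]; omega
    · rw [Bool.not_true, mem_RE_true, mem_RE_false]; omega
  · unfold tube cc
    rw [if_pos rfl, if_neg (by decide), if_neg (by decide), if_pos rfl, if_neg (by decide)]
    cases b
    · rw [SYM_2φf, mem_RE_false, mem_RE_false]; omega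
    · rw [SYM_2φt, mem_RE_true, mem_RE_true]; omega
  · unfold tube cc
    rw [if_pos rfl, if_neg (by decide), if_neg (by decide), if_neg (by decide), if_neg (by decide)]
    cases b
    · rw [SYM_3φf, mem_RE_false, mem_RE_true]; omega
    · rw [SYM_3φt, mem_RE_true, mem_RE_false]; omega

end H985T
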