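import Pool.Agent.H985R3.TA.BGDof
import Pool.Agent.H985R3.TA.HPI
import Pool.Agent.H985R3.TA.INDI
import Pool.Agent.H985R3.TA.SYM

/-!
Two-arm project, task BGPI (helper325): the bad event at the mouth of the inward tube for a dual
arm is unlikely (adaptation of BGP).
-/

set_option autoImplicit false

namespace H985T

open H974 Finset

/-- the three arm event depends only on the half ball -/
theorem BGPI_H3pi_congr {a : ℕ} {y0 : ℤ} {r R : ℕ} {F G : Set Edg}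
    (h : F ∩ ↑(hbI a y0 R) = G ∩ ↑(hbI a y0 R)) :
    H3pi a y0 r R F ↔ H3pi a y0 r R G := by
  unfold H3pi
  rw [h]

/-- a crossing near the right side of the box uses only edges of the box of twice the size -/
theorem BGPI_crs_local {a N : ℕ} {y0 : ℤ} {r R : ℕ} (h1 : R ≤ a) (h2 : |y0| + R ≤ 2 * a)
    {F : Set Edg} (h : H12S.Crs a y0 r R (F ∩ ↑(An a N))) :
    H12S.Crs a y0 r R (F ∩ ↑(An a N ∩ boxE (2 * a))) := by
  refine H12S.WA_crs_local ?_ h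
  intro e he hF
  refine ⟨hF.1, ?_⟩
  rw [Finset.coe_inter]
  refine ⟨hF.2, ?_⟩
  have h3 := H12S.WA_T_prim he
  have h4 := abs_le.mp (le_sub_iff_add_le.mpr h2)
  rw [Finset.mem_coe]
  unfold boxE
  unfold H12S.WA_P inR at h3
  obtain ⟨x, y, _ | _⟩ := e
  · simp only [mem_RE_false, src_mk, tgt_false] at h3 ⊢; push_cast; omega
  · simp only [mem_RE_true, src_mk, tgt_true] at h3 ⊢; push_cast; omega

theorem BGPI_crs_mono {c1 c2 : ℤ} {a R : ℕ} {H H' : Set Edg} (hH : H ⊆ H')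
    (h : H12S.Crs c1 c2 a R H) : H12S.Crs c1 c2 a R H' := by
  obtain ⟨x, y, h1, h2, h3⟩ := h
  exact ⟨x, y, h1, h2, h3.mono hH⟩

/-- the localised bad event -/
def BGPI_Bd (a N ρ r l : ℕ) (c : ℤ) (F : Finset Edg) : Prop :=
  (∃ k : ℤ, |(l:ℤ) * k - c| ≤ ρ ∧ H3pi a (l * k) (2 * l) r ↑F) ∨
    (H12S.Crs a (c + ρ) (2 * r) (ρ / 4) (↑F ∩ ↑(An a N ∩ boxE (2 * a))) ∨
      H12S.Crs a (c - ρ) (2 * r) (ρ / 4) (↑F ∩ ↑(An a N ∩ boxE (2 * a))))

theorem BGPI_not_Gpi {a N ρ r l : ℕ} {c : ℤ} (hc : |c| + 20 * ρ ≤ a) {F : Finset Edg}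
    (h : ¬ Gpi a N ρ r l c ↑F) : BGPI_Bd a N ρ r l c F := by
  have hc1 := abs_le.mp (le_sub_iff_add_le.mpr hc)
  unfold Gpi at h
  unfold BGPI_Bd
  by_cases h1 : ∃ k : ℤ, |(l:ℤ) * k - c| ≤ ρ ∧ H3pi a (l * k) (2 * l) r (↑F : Set Edg)
  · exact Or.inl h1
  · right
    by_cases h2 : H12S.Crs a (c + ρ) (2 * r) (ρ / 4) ((↑F : Set Edg) ∩ ↑(An a N))
    · refine Or.inl (BGPI_crs_local (by omega) ?_ h2)
      have : |c + (ρ:ℤ)| ≤ (a:ℤ) := abs_le.mpr ⟨by omega, by omega⟩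
      omega
    · right
      by_cases h3 : H12S.Crs a (c - ρ) (2 * r) (ρ / 4) ((↑F : Set Edg) ∩ ↑(An a N))
      · refine BGPI_crs_local (by omega) ?_ h3
        have : |c - (ρ:ℤ)| ≤ (a:ℤ) := abs_le.mpr ⟨by omega, by omega⟩
        omega
      · exact absurd ⟨fun k hk hH => h1 ⟨k, hk, hH⟩, h2, h3⟩ h

theorem BGPI_hbI_box {a R : ℕ} {y0 : ℤ} (h1 : R ≤ a) (h2 : |y0| + R ≤ 2 * a) :
    hbI a y0 R ⊆ boxE (2 * a) := by
  have h3 := abs_le.mp (le_sub_iff_add_le.mpr h2)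
  intro e he
  unfold hbI at he
  have he1 := (Finset.mem_sdiff.mp he).1
  unfold boxE
  obtain ⟨x, y, _ | _⟩ := e
  · rw [mem_RE_false] at he1 ⊢; push_cast; omega
  · rw [mem_RE_true] at he1 ⊢; push_cast; omega

theorem BGPI_hbI_An {a N R : ℕ} {y0 : ℤ} (h1 : R ≤ a) (h2 : |y0| + R ≤ 2 * a)
    (hN : 2 * a ≤ N) : hbI a y0 R ⊆ An a N := by
  have h3 := abs_le.mp (le_sub_iff_add_le.mpr h2)
  intro e he
  unfold hbI at he
  unfold An
  rw [Finset.mem_sdiff] at he ⊢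
  refine ⟨?_, he.2⟩
  have he1 := he.1
  unfold boxE
  obtain ⟨x, y, _ | _⟩ := e
  · rw [mem_RE_false] at he1 ⊢; omega
  · rw [mem_RE_true] at he1 ⊢; omega

theorem BGPI_Bd_local {a N ρ r l : ℕ} {c : ℤ} (hr : r ≤ ρ) (hc : |c| + 20 * ρ ≤ a)
    (F : Finset Edg) :
    BGPI_Bd a N ρ r l c F ↔ BGPI_Bd a N ρ r l c (F ∩ boxE (2 * a)) := by
  have hc1 := abs_le.mp (le_sub_iff_add_le.mpr hc)
  have hr' : (r:ℤ) ≤ ρ := by exact_mod_cast hr
  unfold BGPI_Bd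
  have h1 : (↑F : Set Edg) ∩ ↑(An a N ∩ boxE (2 * a)) =
      ↑(F ∩ boxE (2 * a)) ∩ ↑(An a N ∩ boxE (2 * a)) := by
    ext e
    simp only [Finset.coe_inter, Set.mem_inter_iff, Finset.mem_coe]
    tauto
  have h2 : ∀ k : ℤ, |(l:ℤ) * k - c| ≤ ρ → (H3pi a (l * k) (2 * l) r (↑F : Set Edg) ↔
      H3pi a (l * k) (2 * l) r (↑(F ∩ boxE (2 * a)) : Set Edg)) := by
    intro k hk
    refine BGPI_H3pi_congr ?_
    have hk1 := abs_le.mp hk
    have hsub : hbI a (l * k) r ⊆ boxE (2 * a) := by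
      refine BGPI_hbI_box (by omega) ?_
      have : |(l:ℤ) * k| ≤ (a:ℤ) := abs_le.mpr ⟨by omega, by omega⟩
      omega
    ext e
    simp only [Finset.coe_inter, Set.mem_inter_iff, Finset.mem_coe]
    constructor
    · rintro ⟨h3, h4⟩
      exact ⟨⟨h3, hsub h4⟩, h4⟩
    · rintro ⟨h3, h4⟩
      exact ⟨h3.1, h4⟩
  rw [h1]
  refine or_congr ?_ Iff.rfl
  constructor
  · rintro ⟨k, hk, hH⟩
    exact ⟨k, hk, (h2 k hk).mp hH⟩
  · rintro ⟨k, hk, hH⟩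
    exact ⟨k, hk, (h2 k hk).mpr hH⟩

theorem BGPI_sy_An (s : Fin 4) (a N : ℕ) : (sy s).toLSym.mp (An a N) = An a N := by
  unfold An
  rw [LSym.mp_sdiff, sy_box, sy_box]

theorem BGPI_sy_inter (s : Fin 4) (b : ℕ) (F : Finset Edg) :
    (sy s).toLSym.mp (F ∩ boxE b) = (sy s).toLSym.mp F ∩ boxE b := by
  ext e
  rw [LSym.mem_mp, Finset.mem_inter, Finset.mem_inter, LSym.mem_mp, SYM_symm, sy_mem_box]

theorem bad_Gpi : ∀ η : ℝ, 0 < η → ∃ B₀ : ℕ, ∀ B, B₀ ≤ B → ∃ A₀ : ℕ, ∀ A, A₀ ≤ A →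
    ∀ (l a N ρ r : ℕ) (s : Fin 4) (c : ℤ) (U : Finset Edg), 1 ≤ l → r = A * l → ρ = B * r →
      |c| + 20 * ρ ≤ a → 2 * a ≤ N → An a N ⊆ U →
      H12S.PQ (1 / 2) U (fun F => AA (2 * a) N ↑F ∧ ¬ GpiS a N ρ r (4 * l) s c ↑F) ≤
        η * pAA (2 * a) N := by
  intro η hη
  obtain ⟨κ, hκ, hW⟩ := H12S.win_half
  obtain ⟨C', c', hC', hc', harm⟩ := H12S.win_arm_of
    (fun {q κ n} h {m} hm hmn c1 c2 S => H12S.win_blk h hm hmn c1 c2 S) κ hκ
  obtain ⟨C, c1, hC, hc1, hH3⟩ := H3pi_prob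
  obtain ⟨B1, hB1⟩ := BGD_small hc' (2 * C') 16 (half_pos hη)
  refine ⟨max B1 8, fun B hB => ?_⟩
  obtain ⟨A1, hA1⟩ := BGD_small hc1 (24 * B * C) 8 (half_pos hη)
  refine ⟨max A1 8, fun A hA => ?_⟩
  intro l a N₀ ρ r s c U hl hr hρ hcm hN0 hU
  have hB8 : 8 ≤ B := le_trans (le_max_right _ _) hB
  have hA8 : 8 ≤ A := le_trans (le_max_right _ _) hA
  have hB2 := hB1 B (le_trans (le_max_left _ _) hB)
  have hA2 := hA1 A (le_trans (le_max_left _ _) hA)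
  have ok : Ok (fun _ : Edg => (1/2:ℝ)) := okq (by norm_num) (by norm_num)
  have hr8 : 8 * l ≤ r := by rw [hr]; exact Nat.mul_le_mul_right l hA8
  have hρ8 : 8 * r ≤ ρ := by rw [hρ]; exact Nat.mul_le_mul_right r hB8
  have hc0 := abs_nonneg c
  have hρm : 20 * ρ ≤ a := by
    have : (20 * ρ : ℤ) ≤ a := by linarith
    exact_mod_cast this
  have hBd : ∀ F, F ⊆ U → (BGPI_Bd a N₀ ρ r (4 * l) c ((sy s).toLSym.mp F) ↔
      BGPI_Bd a N₀ ρ r (4 * l) c ((sy s).toLSym.mp (F ∩ boxE (2 * a)))) := by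
    intro F _
    rw [BGPI_sy_inter]
    exact BGPI_Bd_local (by omega) hcm _
  have h1 : H12S.PQ (1 / 2) U
      (fun F => AA (2 * a) N₀ ↑F ∧ ¬ GpiS a N₀ ρ r (4 * l) s c ↑F) ≤
      H12S.PQ (1 / 2) U (fun F => AA (2 * a) N₀ ↑F ∧
        BGPI_Bd a N₀ ρ r (4 * l) c ((sy s).toLSym.mp F)) := by
    refine Pr_mono ok fun F _ hF => ⟨hF.1, BGPI_not_Gpi hcm ?_⟩
    have h2 := hF.2
    unfold GpiS at h2
    rw [LSym.coe_mp]
    exact h2
  have hU2 : An (2 * a) N₀ ⊆ U := by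
    refine Finset.Subset.trans ?_ hU
    intro e he
    unfold An at he ⊢
    rw [Finset.mem_sdiff] at he ⊢
    exact ⟨he.1, fun h => he.2 (boxE_mono (by omega) h)⟩
  have h2 := outer_indep (b := 2 * a) hN0 hU2
    (Bd := fun F => BGPI_Bd a N₀ ρ r (4 * l) c ((sy s).toLSym.mp F)) hBd
  have hpr : H12S.PQ (1 / 2) U (fun F => BGPI_Bd a N₀ ρ r (4 * l) c ((sy s).toLSym.mp F)) =
      H12S.PQ (1 / 2) ((sy s).toLSym.mp U) (BGPI_Bd a N₀ ρ r (4 * l) c) :=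
    ((sy s).toLSym.pr (1 / 2) U (BGPI_Bd a N₀ ρ r (4 * l) c)).symm
  rw [hpr] at h2
  have hUs : An a N₀ ⊆ (sy s).toLSym.mp U := by
    have h3 := LSym.mp_mono (sy s).toLSym hU
    rwa [BGPI_sy_An] at h3
  clear hpr hBd
  generalize (sy s).toLSym.mp U = W at h2 hUs
  -- the three arm events
  have hA0 : (0:ℝ) < A := by exact_mod_cast (by omega : 0 < A)
  have hB0 : (0:ℝ) < B := by exact_mod_cast (by omega : 0 < B)
  have hl0 : (0:ℝ) < l := by exact_mod_cast (by omega : 0 < l)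
  set N := B * A with hN
  have hρN : ρ = N * l := by rw [hρ, hr, hN, mul_assoc]
  have hN2 : 2 ≤ N := by
    have : 8 * 8 ≤ B * A := Nat.mul_le_mul hB8 hA8
    omega
  set L : ℕ := 4 * l with hL
  set T := Finset.Icc (c / (L : ℤ) - N) (c / (L : ℤ) + N) with hT
  have hTc : (T.card : ℝ) ≤ 3 * (B * A) := by
    have h3 : T.card = 2 * N + 1 := by
      rw [hT, Int.card_Icc]
      omega
    rw [h3]
    have h4 : (2:ℝ) ≤ N := by exact_mod_cast hN2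
    have h5 : (N:ℝ) = B * A := by rw [hN]; push_cast; ring
    push_cast
    rw [← h5]
    linarith
  have hx0 : (0:ℝ) ≤ C * ((8:ℝ) / A) ^ (1 + c1) := by positivity
  have h3 : H12S.PQ (1 / 2) W (fun F => ∃ k : ℤ, |(L:ℤ) * k - c| ≤ ρ ∧
      H3pi a (L * k) (2 * L) r ↑F) ≤ T.card * (C * ((8:ℝ) / A) ^ (1 + c1)) := by
    refine le_trans (Pr_mono (B := fun F => ∃ k ∈ T, |(L:ℤ) * k - c| ≤ ρ ∧
      H3pi a (L * k) (2 * L) r ↑F) ok fun F _ => ?_) (BGD_union ok W T _ fun k _ => ?_)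
    · rintro ⟨k, hk, hF⟩
      exact ⟨k, BGD_count hl hρN hN2 hk, hk, hF⟩
    · by_cases hk : |(L:ℤ) * k - c| ≤ ρ
      · have h4 : |(L:ℤ) * k| + r ≤ a := by
          have h5 := abs_le.1 hk
          have h6 := abs_le.1 (le_refl |c|)
          have h7 : |(L:ℤ) * k| ≤ |c| + ρ := by
            rw [abs_le]
            constructor
            · linarith
            · linarith
          have h8 : (8 * r : ℤ) ≤ ρ := by exact_mod_cast hρ8
          have h9 : (0:ℤ) ≤ r := by positivity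
          linarith
        have h5 : hbI a (L * k) r ⊆ W := (BGPI_hbI_An (by omega) (by omega) hN0).trans hUs
        have h6 := hH3 a (2 * L) r (L * k) W (by omega) (by omega) h4 h5
        have h7 : ((2 * L : ℕ) : ℝ) / r = 8 / A := by
          rw [hr, hL]
          push_cast
          field_simp
          ring
        rw [h7] at h6
        exact le_trans (Pr_mono ok fun F _ hF => hF.2) h6
      · refine le_trans (le_of_eq ?_) hx0
        have h4 : Pr (fun _ : Edg => (1/2:ℝ)) W (fun F => |(L:ℤ) * k - c| ≤ ρ ∧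
            H3pi a (L * k) (2 * L) r ↑F) ≤ 0 := by
          unfold Pr
          refine Ex_le_of_le ok fun F _ => ?_
          rw [ind_not_of (fun h => hk h.1)]
        exact le_antisymm h4 (Pr_nonneg ok _ _)
  have h4 : (T.card : ℝ) * (C * ((8:ℝ) / A) ^ (1 + c1)) ≤ η / 2 := by
    have h5 : ((8:ℝ) / A) ^ (1 + c1) = (8 / A) * (8 / A) ^ c1 := by
      rw [Real.rpow_add (by positivity), Real.rpow_one]
    have h6 := mul_le_mul_of_nonneg_right hTc hx0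
    refine le_trans h6 (le_trans (le_of_eq ?_) hA2)
    rw [h5]
    field_simp
    ring
  -- the corners
  have h5 : ∀ y0 : ℤ, H12S.PQ (1 / 2) W (fun F => H12S.Crs a y0 (2 * r) (ρ / 4)
      (↑F ∩ ↑(An a N₀ ∩ boxE (2 * a)))) ≤ C' * ((16:ℝ) / B) ^ c' := by
    intro y0
    have h6 := (harm (1/2) (ρ / 4) (hW (ρ / 4)) (2 * r) (ρ / 4) (by omega) (by omega) le_rfl
      a y0 W).1
    refine le_trans (Pr_mono ok fun F _ hF => BGPI_crs_mono ?_ hF) (le_trans h6 ?_)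
    · exact fun e he => he.1
    · refine mul_le_mul_of_nonneg_left ?_ hC'.le
      refine Real.rpow_le_rpow (by positivity) ?_ hc'.le
      have hr0 : (0:ℝ) < r := by exact_mod_cast (by omega : 0 < r)
      have h7 : (ρ:ℝ) / 8 ≤ ((ρ / 4 : ℕ) : ℝ) := by
        have h8 : ρ ≤ 8 * (ρ / 4) := by omega
        have h9 : (ρ:ℝ) ≤ 8 * ((ρ / 4 : ℕ) : ℝ) := by exact_mod_cast h8
        linarith
      have h8 : (ρ:ℝ) = B * r := by rw [hρ]; push_cast; ring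
      rw [h8] at h7
      have h9 : (0:ℝ) < ((ρ / 4 : ℕ) : ℝ) := lt_of_lt_of_le (by positivity) h7
      rw [div_le_div_iff₀ h9 hB0]
      push_cast
      nlinarith
  have h6 : H12S.PQ (1 / 2) W (BGPI_Bd a N₀ ρ r L c) ≤ η := by
    have h7 := Pr_or_le ok W (fun F => ∃ k : ℤ, |(L:ℤ) * k - c| ≤ ρ ∧
      H3pi a (L * k) (2 * L) r ↑F) (fun F =>
        H12S.Crs a (c + ρ) (2 * r) (ρ / 4) (↑F ∩ ↑(An a N₀ ∩ boxE (2 * a))) ∨
        H12S.Crs a (c - ρ) (2 * r) (ρ / 4) (↑F ∩ ↑(An a N₀ ∩ boxE (2 * a))))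
    have h8 := Pr_or_le ok W
      (fun F => H12S.Crs a (c + ρ) (2 * r) (ρ / 4) (↑F ∩ ↑(An a N₀ ∩ boxE (2 * a))))
      (fun F => H12S.Crs a (c - ρ) (2 * r) (ρ / 4) (↑F ∩ ↑(An a N₀ ∩ boxE (2 * a))))
    have h9 := h5 (c + ρ)
    have h10 := h5 (c - ρ)
    refine le_trans h7 ?_
    have h11 := le_trans h3 h4
    unfold H12S.PQ at h9 h10 h11
    linarith
  refine le_trans h1 (le_of_eq_of_le h2 ?_)
  rw [mul_comm]
  exact mul_le_mul_of_nonneg_right h6 (Pr_nonneg ok _ _)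

end H985T
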