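import Pool.Agent.H985R3.TA.BSLIof
import Pool.Agent.H985R3.TA.HPI
import Pool.Agent.H985R3.TA.INDI

/-!
Two-arm project, task BSLI: the bad event for the selection of the landing places, inward.
-/

set_option autoImplicit false

namespace H985T

open H974 Finset

theorem bad_seli : ∀ η : ℝ, 0 < η → ∃ D₀ : ℕ, 1 ≤ D₀ ∧ ∀ D, D₀ ≤ D → ∀ a N ρ : ℕ, 1 ≤ ρ →
    D * ρ ≤ a → a ≤ 2 * D * ρ → 2 * a ≤ N → ∃ r0 R : ℕ, 10 * ρ ≤ R ∧ 2 * R + 40 * ρ ≤ r0 ∧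
      8 * r0 ≤ a ∧
      H12S.PQ (1 / 2) (An a N) (fun F => AA a N ↑F ∧ ¬ SelGoodi a N ρ r0 R ↑F) ≤
        η * pAA (2 * a) N :=
  bad_seli_of H3di_prob (fun hab hN _ h => AA_mono hab hN h)
    (fun hb _ hU _ hB => outer_indep hb hU hB)

end H985T
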