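import Pool.Agent.H985R3.TA.Defs
import Pool.Agent.H988R4.FromCR
import Pool.Agent.H988R4.MeasureCore

/-!
# Two-arm project, task CYL: link with the exact formula on the odd cylinder
-/

set_option autoImplicit false

namespace H985T

open H974 Finset

namespace CYL

open Pool.Agent.H974R3 (ed pst pv mem_SS pr rows cl cu push Tc pval markov_exists pairing_value
  Pat Vx Conn)
open Pool.Agent.H988R4 (LK CR izx izx_add izx_nat upr Flux flux_cover T3_CR_eq T3_conn_left
  T3_conn_right pr_of_CR T5_lower)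
open Pool.Agent.H988R3 (Alt exists_alt)

/-- the face of the grid of medial lines at the vertex `u` -/
def jr (n M : ℕ) (u : Vtx) : ℤ × ℕ := (u.1 + u.2 + n, (u.1 - u.2 + M).toNat)

theorem izx_fin {m j : ℕ} (hj : j < m + 1) : izx m (j : ℤ) = ⟨j, hj⟩ := by
  rw [izx_nat]
  apply Fin.ext
  show j % (m + 1) = j
  exact Nat.mod_eq_of_lt hj

/-- open edges of the first sheet are links -/
theorem link_first {n M j r : ℕ} {F : Finset Edg} (hj : j < 2 * n + 1) (hr : r < 2 * M)
    (he : ed n M j r ∈ F) :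
    LK (2 * n) (2 * M) (pst n M F) (jr n M (src (ed n M j r))) (jr n M (tgt (ed n M j r))) := by
  refine ⟨(j : ℤ), r, hr, ?_⟩
  rw [izx_fin hj]
  by_cases hp : (j + r) % 2 = (n + M) % 2
  · left
    refine ⟨?_, ?_, ?_⟩
    · unfold pst
      rw [if_pos hp]
      simpa using he
    · unfold ed jr
      rw [if_pos hp]
      simp only [src_mk, Prod.mk.injEq]
      constructor <;> omega
    · unfold ed jr
      rw [if_pos hp]
      simp only [tgt_true, Prod.mk.injEq]
      constructor <;> omega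
  · right
    refine ⟨?_, ?_, ?_⟩
    · unfold pst
      rw [if_neg hp]
      simpa using he
    · unfold ed jr
      rw [if_neg hp]
      simp only [src_mk, Prod.mk.injEq]
      constructor <;> omega
    · unfold ed jr
      rw [if_neg hp]
      simp only [tgt_false, Prod.mk.injEq]
      constructor <;> omega

/-- edges of the second sheet are links -/
theorem link_second {n M j r : ℕ} {F : Finset Edg} (hj : j < 2 * n + 1) (hr : r < 2 * M)
    (he : ed n M j r ∉ F) :
    LK (2 * n) (2 * M) (pst n M F) (jr n M (src (shn n (ed n M j r))))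
      (jr n M (tgt (shn n (ed n M j r)))) := by
  refine ⟨(j : ℤ) + (((2 * n : ℕ) : ℤ) + 1), r, hr, ?_⟩
  rw [izx_add, izx_fin hj]
  by_cases hp : (j + r) % 2 = (n + M) % 2
  · right
    refine ⟨?_, ?_, ?_⟩
    · unfold pst
      rw [if_pos hp]
      simpa using he
    · unfold ed jr shn
      rw [if_pos hp, dl_t]
      simp only [trl, Equiv.coe_fn_mk, src_mk, Prod.mk.injEq]
      constructor <;> omega
    · unfold ed jr shn
      rw [if_pos hp, dl_t]
      simp only [trl, Equiv.coe_fn_mk, tgt_false, Prod.mk.injEq]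
      constructor <;> omega
  · left
    refine ⟨?_, ?_, ?_⟩
    · unfold pst
      rw [if_neg hp]
      simpa using he
    · unfold ed jr shn
      rw [if_neg hp, dl_f]
      simp only [trl, Equiv.coe_fn_mk, src_mk, Prod.mk.injEq]
      constructor <;> omega
    · unfold ed jr shn
      rw [if_neg hp, dl_f]
      simp only [trl, Equiv.coe_fn_mk, tgt_true, Prod.mk.injEq]
      constructor <;> omega

theorem link_cov {n M : ℕ} {F : Finset Edg} {e : Edg}
    (he : e ∈ cov n (Pool.Agent.H974R3.SS n M) F) :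
    LK (2 * n) (2 * M) (pst n M F) (jr n M (src e)) (jr n M (tgt e)) := by
  rcases he with ⟨h1, h2⟩ | ⟨g, h1, h2, rfl⟩
  · obtain ⟨j, r, hj, hr, rfl⟩ := mem_SS.1 h1
    exact link_first hj hr h2
  · obtain ⟨j, r, hj, hr, rfl⟩ := mem_SS.1 h1
    exact link_second hj hr h2

theorem CR_of_reach {n M : ℕ} {F : Finset Edg} {u v : Vtx}
    (h : Reach (cov n (Pool.Agent.H974R3.SS n M) F) u v) :
    CR (2 * n) (2 * M) (pst n M F) (jr n M u) (jr n M v) := by
  induction h with
  | refl => exact Relation.EqvGen.refl _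
  | tail _ hs ih =>
    obtain ⟨e, he, ⟨h1, h2⟩ | ⟨h1, h2⟩⟩ := hs
    · rw [← h1] at ih
      rw [← h2]
      exact Relation.EqvGen.trans _ _ _ ih (Relation.EqvGen.rel _ _ (link_cov he))
    · rw [← h2] at ih
      rw [← h1]
      exact Relation.EqvGen.trans _ _ _ ih
        (Relation.EqvGen.symm _ _ (Relation.EqvGen.rel _ _ (link_cov he)))

/-- flux along the infinite line -/
theorem flux_exists' {L : ℕ} (σ τ : Pat L) (h : Vx L → Bool) (hh : Alt σ.1 τ.1 h) :
    ∃ φ : Vx L → ℤ, Flux σ φ ∧ Flux τ φ ∧ φ none = -1 ∧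
      (∀ v, φ v ≠ 0 → Conn σ.1 τ.1 v none) := by
  classical
  have hnone : Conn σ.1 τ.1 none none := fun g _ _ => rfl
  have hflip : ∀ a b : Bool, ((if (!a) = b then (-1 : ℤ) else 1)) = -(if a = b then -1 else 1) := by
    intro a b
    cases a <;> cases b <;> simp
  refine ⟨fun v => if Conn σ.1 τ.1 v none then (if h v = h none then -1 else 1) else 0,
    ?_, ?_, ?_, ?_⟩
  · intro v
    show (if Conn σ.1 τ.1 (σ.1 v) none then (if h (σ.1 v) = h none then (-1 : ℤ) else 1) else 0) =
      -(if Conn σ.1 τ.1 v none then (if h v = h none then -1 else 1) else 0)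
    by_cases hc : Conn σ.1 τ.1 v none
    · rw [if_pos hc, if_pos ((T3_conn_left σ τ v).2 hc), hh.1 v]
      exact hflip _ _
    · rw [if_neg hc, if_neg (fun h' => hc ((T3_conn_left σ τ v).1 h'))]
      rfl
  · intro v
    show (if Conn σ.1 τ.1 (τ.1 v) none then (if h (τ.1 v) = h none then (-1 : ℤ) else 1) else 0) =
      -(if Conn σ.1 τ.1 v none then (if h v = h none then -1 else 1) else 0)
    by_cases hc : Conn σ.1 τ.1 v none
    · rw [if_pos hc, if_pos ((T3_conn_right σ τ v).2 hc), hh.2 v]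
      exact hflip _ _
    · rw [if_neg hc, if_neg (fun h' => hc ((T3_conn_right σ τ v).1 h'))]
      rfl
  · show (if Conn σ.1 τ.1 none none then (if h none = h none then (-1 : ℤ) else 1) else 0) = -1
    rw [if_pos hnone, if_pos rfl]
  · intro v hv
    by_contra hc
    exact hv (if_neg hc)

/-- the second connection: one strand to the right -/
theorem pr_of_CR' {m M : ℕ} (c : ℕ → Fin (m + 1) → Bool) (σ τ : Pat (m + 1)) (j : ℤ)
    (h : CR m (2 * M) c (j, M) (j + 1 + ((m : ℤ) + 1), M)) :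
    pr (izx m j) (rows m c M σ) (rows m (upr M c) M τ) = 1 := by
  obtain ⟨g, hg⟩ := exists_alt (rows m c M σ).1 (rows m (upr M c) M τ).1
    (rows m c M σ).2.inv (rows m c M σ).2.nofix (rows m (upr M c) M τ).2.inv
    (rows m (upr M c) M τ).2.nofix
  obtain ⟨φ, h1, h2, h3, h4⟩ := flux_exists' _ _ g hg
  obtain ⟨f, f1, f2, f3⟩ := flux_cover c σ τ φ h1 h2
  unfold pr
  refine if_pos (h4 _ ?_)
  have e1 := T3_CR_eq f1 h
  have e2 := f2 (j + 1) M (by omega)
  have e3 := f3 j
  rw [h3] at e2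
  rw [e2, e3] at e1
  intro h0
  rw [h0] at e1
  omega

theorem Pr_le_pval_strand (n M : ℕ) (k : Fin (2 * n + 1)) (A : Finset Edg → Prop)
    (hA : ∀ F, F ⊆ Pool.Agent.H974R3.SS n M → A F → ∀ σ τ : Pat (2 * n + 1),
      pr k (rows (2 * n) (cl n M F) M σ) (rows (2 * n) (cu n M F) M τ) = 1) :
    Pr (fun _ => 1/2) (Pool.Agent.H974R3.SS n M) A ≤ pval n := by
  obtain ⟨μ, h0, h1, h2, _, _⟩ := markov_exists n
  have h3 := pairing_value n μ h1 h2 k
  have h4 : (∑ σ, ∑ τ, μ σ * μ τ * (pr k σ τ).re) = pval n := by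
    rw [← h3]
    refine Finset.sum_congr rfl fun σ _ => ?_
    refine Finset.sum_congr rfl fun τ _ => ?_
    ring
  rw [← h4]
  refine T5_lower n M μ h1 h0 h2 _ (fun σ τ => Pool.Agent.H974R3.pr_re_nonneg _ σ τ) _ ?_
  intro F hF hAF σ τ
  rw [hA F hF hAF σ τ]
  simp

end CYL

open CYL Pool.Agent.H974R3 Pool.Agent.H988R4 in
/-- upper bound for events on the odd cylinder which force the two-arm event at the origin -/
theorem cyl_bound (n M : ℕ) (hn : 1 ≤ n) (hM : n ≤ M) (f0 : ℤ) (hf : f0 = 0 ∨ f0 = -1)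
    (A : Finset Edg → Prop)
    (hA : ∀ F, F ⊆ Pool.Agent.H974R3.SS n M → A F →
      Reach (cov n (Pool.Agent.H974R3.SS n M) F) (0, 0) (n + 1 + f0, n + 1 + f0)) :
    Pr (fun _ => 1 / 2) (Pool.Agent.H974R3.SS n M) A ≤ Pool.Agent.H974R3.pval n := by
  have hcr : ∀ F, F ⊆ Pool.Agent.H974R3.SS n M → A F →
      CR (2 * n) (2 * M) (pst n M F) ((n : ℤ), M) (3 * n + 2 + 2 * f0, M) := by
    intro F hF hAF
    have h := CR_of_reach (hA F hF hAF)
    have e1 : jr n M ((0 : ℤ), (0 : ℤ)) = ((n : ℤ), M) := by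
      unfold jr
      simp only [Prod.mk.injEq]
      constructor <;> omega
    have e2 : jr n M (((n : ℤ) + 1 + f0, (n : ℤ) + 1 + f0) : ℤ × ℤ) =
        (3 * n + 2 + 2 * f0, M) := by
      unfold jr
      simp only [Prod.mk.injEq]
      constructor <;> omega
    rw [e1, e2] at h
    exact h
  rcases hf with rfl | rfl
  · refine Pr_le_pval_strand n M (izx (2 * n) (n : ℤ)) A ?_
    intro F hF hAF σ τ
    have h := hcr F hF hAF
    have e : ((n : ℤ) + 1 + (((2 * n : ℕ) : ℤ) + 1), M) = ((3 * n + 2 + 2 * 0, M) : ℤ × ℕ) := by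
      simp only [Prod.mk.injEq, and_true]
      push_cast
      ring
    rw [← e] at h
    exact pr_of_CR' (pst n M F) σ τ (n : ℤ) h
  · refine Pr_le_pval_strand n M (izx (2 * n) ((n : ℤ) - 1)) A ?_
    intro F hF hAF σ τ
    have h := hcr F hF hAF
    have e : ((n : ℤ) - 1 + (((2 * n : ℕ) : ℤ) + 1), M) = ((3 * n + 2 + 2 * (-1), M) : ℤ × ℕ) := by
      simp only [Prod.mk.injEq, and_true]
      push_cast
      ring
    have e' : (((n : ℤ), M) : ℤ × ℕ) = ((n : ℤ) - 1 + 1, M) := by
      simp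
    rw [← e, e'] at h
    exact pr_of_CR (pst n M F) σ τ ((n : ℤ) - 1) h

end H985T
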