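import Pool.Agent.H985R3.TA.Defs
import Pool.Agent.H974R2.RSW2
import Pool.Agent.H988R3.Asym
import Pool.Agent.H985R3.TA.CYL

/-!
# Gluing in the odd cylinder: `P(EV) ≤ K m^(-1/4)` (task GLU, helper18)
-/

set_option autoImplicit false

namespace H985T

open H974 Finset

/-- reading a configuration on the sheets: on `S \ K` directly, on `K` through `σ`, flipped -/
def glu_un {E : Type*} [DecidableEq E] (S K : Finset E) (σ : E → E) (w : Finset E) : Finset E :=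
  (w ∩ (S \ K)) ∪ K.filter (fun g => σ g ∉ w)

theorem glu_mem_un {E : Type*} [DecidableEq E] {S K : Finset E} {σ : E → E} {w : Finset E} {e : E} :
    e ∈ glu_un S K σ w ↔ (e ∈ w ∧ e ∈ S ∧ e ∉ K) ∨ (e ∈ K ∧ σ e ∉ w) := by
  unfold glu_un
  rw [Finset.mem_union, Finset.mem_inter, Finset.mem_sdiff, Finset.mem_filter]

theorem glu_transfer {E : Type*} [DecidableEq E] {S K : Finset E} (hK : K ⊆ S) (σ : E ↪ E)
    (hd : Disjoint (S \ K) (K.map σ)) (A : Finset E → Prop) :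
    Pr (fun _ => (1 / 2 : ℝ)) S A =
      Pr (fun _ => (1 / 2 : ℝ)) ((S \ K) ∪ K.map σ) (fun w => A (glu_un S K σ w)) := by
  have h1 : S = (S \ K) ∪ K := (Finset.sdiff_union_of_subset hK).symm
  have hd1 : Disjoint (S \ K) K := Finset.sdiff_disjoint
  unfold Pr
  conv_lhs => rw [h1]
  rw [Ex_union hd1, Ex_union hd]
  apply Ex_congr
  intro a ha
  rw [Ex_map]
  have h2 : Ex (fun _ : E => (1 / 2 : ℝ)) K (fun B => ind (A (a ∪ B))) =
      Ex (fun _ : E => 1 - (1 / 2 : ℝ)) K (fun B => ind (A (a ∪ B))) := by norm_num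
  rw [h2, Ex_compl]
  apply Ex_congr
  intro b hb
  congr 2
  ext e
  rw [glu_mem_un, Finset.mem_union, Finset.mem_union, Finset.mem_sdiff]
  constructor
  · rintro (h | ⟨h3, h4⟩)
    · have h5 := Finset.mem_sdiff.1 (ha h)
      exact Or.inl ⟨Or.inl h, h5.1, h5.2⟩
    · refine Or.inr ⟨h3, ?_⟩
      rw [Finset.mem_union, not_or]
      refine ⟨fun h5 => ?_, fun h5 => ?_⟩
      · exact Finset.disjoint_left.1 hd (ha h5) (Finset.mem_map_of_mem σ h3)
      · rw [Finset.mem_map] at h5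
        obtain ⟨x, hx, hxe⟩ := h5
        rw [σ.injective hxe] at hx
        exact h4 hx
  · rintro (⟨h3, h4, h5⟩ | ⟨h3, h4⟩)
    · rcases h3 with h3 | h3
      · exact Or.inl h3
      · exfalso
        rw [Finset.mem_map] at h3
        obtain ⟨x, hx, hxe⟩ := h3
        exact Finset.disjoint_left.1 hd (Finset.mem_sdiff.2 ⟨h4, h5⟩)
          (hxe ▸ Finset.mem_map_of_mem σ (hb hx))
    · refine Or.inr ⟨h3, fun h5 => h4 ?_⟩
      rw [Finset.mem_union]
      exact Or.inr (Finset.mem_map_of_mem σ h5)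

/-- Harris' inequality, conditionally on the configuration in `Z` -/
theorem glu_cond_harris {E : Type*} [DecidableEq E] {p : E → ℝ} (hp : Ok p) {Ω Z : Finset E}
    (hZ : Z ⊆ Ω) {A G : Finset E → Prop}
    (hA : ∀ F F', F ⊆ F' → F' ⊆ Ω → F ∩ Z = F' ∩ Z → A F → A F')
    (hG : IncrE Ω G) (hGZ : ∀ F, F ⊆ Ω → (G F ↔ G (F \ Z))) :
    Pr p Ω A * Pr p Ω G ≤ Pr p Ω (fun F => A F ∧ G F) := by
  have h1 : Ω = Z ∪ (Ω \ Z) := (Finset.union_sdiff_of_subset hZ).symm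
  have hd : Disjoint Z (Ω \ Z) := Finset.disjoint_sdiff
  have hGu : ∀ z, z ⊆ Z → ∀ w, w ⊆ Ω \ Z → (G (z ∪ w) ↔ G w) := by
    intro z hz w hw
    have h2 : z ∪ w ⊆ Ω := Finset.union_subset (hz.trans hZ) (hw.trans Finset.sdiff_subset)
    rw [hGZ _ h2]
    have h3 : (z ∪ w) \ Z = w := by
      ext e
      rw [Finset.mem_sdiff, Finset.mem_union]
      constructor
      · rintro ⟨h4 | h4, h5⟩
        · exact absurd (hz h4) h5
        · exact h4
      · intro h4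
        exact ⟨Or.inr h4, (Finset.mem_sdiff.1 (hw h4)).2⟩
    rw [h3]
  have hPG : Pr p Ω G = Pr p (Ω \ Z) G := by
    unfold Pr
    conv_lhs => rw [h1]
    rw [Ex_union hd]
    have h2 : ∀ z, z ⊆ Z → Ex p (Ω \ Z) (fun w => ind (G (z ∪ w))) =
        Ex p (Ω \ Z) (fun w => ind (G w)) := by
      intro z hz
      exact Ex_congr fun w hw => ind_congr (hGu z hz w hw)
    rw [Ex_congr h2, Ex_const]
  rw [hPG]
  unfold Pr
  conv_lhs => rw [h1]
  conv_rhs => rw [h1]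
  rw [Ex_union hd, Ex_union hd, ← Ex_mul_right]
  apply Ex_mono hp
  intro z hz
  have h2 : Ex p (Ω \ Z) (fun w => ind (A (z ∪ w) ∧ G (z ∪ w))) =
      Ex p (Ω \ Z) (fun w => ind (A (z ∪ w)) * ind (G w)) := by
    apply Ex_congr
    intro w hw
    rw [ind_and, ind_congr (hGu z hz w hw)]
  rw [h2]
  have hsd : (Z ∪ (Ω \ Z)) \ Z = Ω \ Z := by
    rw [← h1]
  have h3 := harris hp (S := Ω \ Z) (f := fun w => ind (A (z ∪ w))) (g := fun w => ind (G w))
    (by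
      intro w w' hw hw'
      apply ind_mono
      apply hA
      · exact Finset.union_subset_union_right hw
      · exact Finset.union_subset (hz.trans hZ) (hw'.trans Finset.sdiff_subset)
      · ext e
        rw [Finset.mem_inter, Finset.mem_inter, Finset.mem_union, Finset.mem_union]
        constructor
        · rintro ⟨h4 | h4, h5⟩
          · exact ⟨Or.inl h4, h5⟩
          · exact absurd h5 (Finset.mem_sdiff.1 (hw' (hw h4))).2
        · rintro ⟨h4 | h4, h5⟩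
          · exact ⟨Or.inl h4, h5⟩
          · exact absurd h5 (Finset.mem_sdiff.1 (hw' h4)).2)
    (by
      intro w w' hw hw'
      apply ind_mono
      exact hG _ _ hw (hw'.trans Finset.sdiff_subset))
  rw [hsd]
  exact h3

/-- Harris' inequality for a list of increasing events -/
theorem glu_harris_list {E : Type*} [DecidableEq E] {p : E → ℝ} (hp : Ok p) {Ω : Finset E}
    {c : ℝ} (hc : 0 ≤ c) (L : List (Finset E → Prop)) (hL : ∀ A ∈ L, IncrE Ω A)
    (hP : ∀ A ∈ L, c ≤ Pr p Ω A) : c ^ L.length ≤ Pr p Ω (fun F => ∀ A ∈ L, A F) := by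
  induction L with
  | nil =>
    rw [Pr_true Ω (fun F _ A hA => absurd hA List.not_mem_nil)]
    simp
  | cons A L ih =>
    have h1 := ih (fun B hB => hL B (List.mem_cons_of_mem _ hB))
      (fun B hB => hP B (List.mem_cons_of_mem _ hB))
    have h2 := hP A List.mem_cons_self
    have h3 := Pr_harris hp (hL A List.mem_cons_self) (B := fun F => ∀ B ∈ L, B F)
      (fun F F' h h' hF B hB => hL B (List.mem_cons_of_mem _ hB) F F' h h' (hF B hB))
    have h4 : Pr p Ω (fun F => A F ∧ ∀ B ∈ L, B F) = Pr p Ω (fun F => ∀ B ∈ A :: L, B F) := by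
      apply Pr_congr
      intro F _
      rw [List.forall_mem_cons]
    rw [← h4]
    refine le_trans ?_ h3
    rw [List.length_cons, pow_succ, mul_comm]
    exact mul_le_mul h2 h1 (pow_nonneg hc _) (hc.trans h2)

/-! ### Long rectangles (helper731, `H731R.CLong`) -/

theorem glu_hh_two {h : ℤ} (hh1 : 1 ≤ h) : (1/2 : ℝ) ^ 47 ≤ hh (1/2) (2 * h) h := by
  rcases eq_or_lt_of_le hh1 with h1 | h1
  · rw [← h1]
    have h2 := hh_half 1 (by norm_num)
    have e : (2 : ℤ) * 1 = 1 + 1 := by norm_num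
    rw [e, h2]
    norm_num
  · exact rsw (n := h / 2) (by omega) (by omega) (by omega) (by omega)

theorem glu_hh_long (k : ℕ) : ∃ c : ℝ, 0 < c ∧ ∀ h : ℤ, 1 ≤ h →
    c ≤ hh (1/2) (((k : ℤ) + 1) * h) h := by
  induction k with
  | zero =>
    refine ⟨1/2, by norm_num, ?_⟩
    intro h hh1
    have := hh_square h (by omega)
    simpa using this
  | succ k ih =>
    obtain ⟨c, hc, hk⟩ := ih
    refine ⟨c * (1/2) ^ 47 * (1/2), by positivity, ?_⟩
    intro h hh1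
    have h1 := hh_glue (q := 1/2) (by norm_num) (by norm_num) (w1 := ((k : ℤ) + 1) * h)
      (w2 := 2 * h) (v := h) (h := h) (by omega) (by nlinarith [Int.natCast_nonneg k])
      (by omega) (by omega)
    have e : ((k : ℤ) + 1) * h + 2 * h - h = (((k + 1 : ℕ) : ℤ) + 1) * h := by
      push_cast
      ring
    rw [e] at h1
    refine le_trans ?_ h1
    have a1 := hk h hh1
    have a2 := glu_hh_two hh1
    have a3 := hh_square h (by omega)
    have p47 : (0 : ℝ) ≤ (1/2 : ℝ)^47 := by positivity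
    exact mul_le_mul (mul_le_mul a1 a2 p47 (hc.le.trans a1)) a3 (by norm_num)
      (mul_nonneg (hc.le.trans a1) (p47.trans a2))

theorem glu_hh_long' (K : ℕ) : ∃ c : ℝ, 0 < c ∧ ∀ w h : ℤ, 0 < w → 1 ≤ h → w ≤ K * h →
    c ≤ hh (1/2) w h := by
  obtain ⟨c, hc, hk⟩ := glu_hh_long K
  refine ⟨c, hc, ?_⟩
  intro w h hw hh1 hwK
  exact (hk h hh1).trans (hh_mono (by norm_num) (by norm_num) hw (by nlinarith) le_rfl)

/-! ### Geometry of the two sheets -/

theorem glu_SS_true {n M : ℕ} {x y : ℤ} :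
    ((x, y, true) : Edg) ∈ Pool.Agent.H974R3.SS n M ↔
      -(n : ℤ) ≤ x + y ∧ x + y ≤ n ∧ -(M : ℤ) ≤ x - y ∧ x - y < M := by
  rw [Pool.Agent.H974R3.mem_SS]
  unfold Pool.Agent.H974R3.ed
  constructor
  · rintro ⟨j, r, hj, hr, he⟩
    split_ifs at he with h
    · simp only [Prod.mk.injEq, and_true] at he
      omega
    · simp only [Prod.mk.injEq, Bool.false_eq_true, and_false] at he
  · rintro ⟨h1, h2, h3, h4⟩
    refine ⟨(x + y + n).toNat, (x - y + M).toNat, by omega, by omega, ?_⟩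
    rw [if_pos (by omega)]
    simp only [Prod.mk.injEq, and_true]
    omega

theorem glu_SS_false {n M : ℕ} {x y : ℤ} :
    ((x, y, false) : Edg) ∈ Pool.Agent.H974R3.SS n M ↔
      -(n : ℤ) ≤ x + y ∧ x + y ≤ n ∧ -(M : ℤ) ≤ x - y - 1 ∧ x - y - 1 < M := by
  rw [Pool.Agent.H974R3.mem_SS]
  unfold Pool.Agent.H974R3.ed
  constructor
  · rintro ⟨j, r, hj, hr, he⟩
    split_ifs at he with h
    · simp only [Prod.mk.injEq, Bool.true_eq_false, and_false] at he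
    · simp only [Prod.mk.injEq, and_true] at he
      omega
  · rintro ⟨h1, h2, h3, h4⟩
    refine ⟨(x + y + n).toNat, (x - y - 1 + M).toNat, by omega, by omega, ?_⟩
    rw [if_neg (by omega)]
    simp only [Prod.mk.injEq, and_true]
    omega

/-- `shn` as an embedding -/
def glu_sh (n : ℕ) : Edg ↪ Edg := (dl.trans (trl (n + 1) (n + 1)).φ).toEmbedding

theorem glu_sh_t (n : ℕ) (x y : ℤ) :
    glu_sh n (x, y, true) = (x + (n + 1), y - 1 + (n + 1), false) := rfl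

theorem glu_sh_f (n : ℕ) (x y : ℤ) :
    glu_sh n (x, y, false) = (x - 1 + (n + 1), y + (n + 1), true) := rfl

theorem glu_sh_eq (n : ℕ) (e : Edg) : glu_sh n e = shn n e := rfl

/-- the edges which are read on the first sheet -/
def glu_U (m ρ : ℕ) (c : ℤ) (e : Edg) : Prop :=
  e ∈ boxE m ∨ ((m : ℤ) ≤ e.1 ∧ c - ρ ≤ e.2.1 ∧ e.2.1 ≤ c + ρ) ∨ 2 * (m : ℤ) ≤ e.1

open Classical in
/-- the edges which are read on the second sheet -/
noncomputable def glu_K (n M m ρ : ℕ) (c : ℤ) : Finset Edg :=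
  (Pool.Agent.H974R3.SS n M).filter (fun e => ¬ glu_U m ρ c e)

theorem glu_mem_K {n M m ρ : ℕ} {c : ℤ} {e : Edg} :
    e ∈ glu_K n M m ρ c ↔ e ∈ Pool.Agent.H974R3.SS n M ∧ ¬ glu_U m ρ c e := by
  classical
  unfold glu_K
  rw [Finset.mem_filter]

theorem glu_K_sub {n M m ρ : ℕ} {c : ℤ} : glu_K n M m ρ c ⊆ Pool.Agent.H974R3.SS n M :=
  fun _ he => (glu_mem_K.1 he).1

/-- the plane region -/
noncomputable def glu_Om (n M m ρ : ℕ) (c : ℤ) : Finset Edg :=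
  (Pool.Agent.H974R3.SS n M \ glu_K n M m ρ c) ∪ (glu_K n M m ρ c).map (glu_sh n)

theorem glu_disj (n M m ρ : ℕ) (c : ℤ) :
    Disjoint (Pool.Agent.H974R3.SS n M \ glu_K n M m ρ c)
      ((glu_K n M m ρ c).map (glu_sh n)) := by
  rw [Finset.disjoint_left]
  intro e he he'
  have h1 := (Finset.mem_sdiff.1 he).1
  rw [Finset.mem_map] at he'
  obtain ⟨⟨x, y, b⟩, hg, rfl⟩ := he'
  have h2 := glu_K_sub hg
  cases b
  · rw [glu_sh_f, glu_SS_true] at h1
    rw [glu_SS_false] at h2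
    omega
  · rw [glu_sh_t, glu_SS_false] at h1
    rw [glu_SS_true] at h2
    omega

theorem glu_Om_true {n M m ρ : ℕ} {c X Y : ℤ} (h0 : -(n : ℤ) ≤ X + Y) (h0' : X + Y ≤ 3 * n + 1)
    (h1 : -(M : ℤ) ≤ X - Y) (h1' : X - Y < M) (hU : X + Y ≤ n → glu_U m ρ c (X, Y, true))
    (hK : (n : ℤ) + 1 ≤ X + Y → ¬ glu_U m ρ c (X - n, Y - (n + 1), false)) :
    ((X, Y, true) : Edg) ∈ glu_Om n M m ρ c := by
  unfold glu_Om
  rw [Finset.mem_union]
  by_cases h : X + Y ≤ n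
  · left
    rw [Finset.mem_sdiff, glu_mem_K, glu_SS_true]
    exact ⟨⟨h0, h, h1, h1'⟩, fun h2 => h2.2 (hU h)⟩
  · right
    rw [Finset.mem_map]
    refine ⟨(X - n, Y - (n + 1), false), glu_mem_K.2 ⟨?_, hK (by omega)⟩, ?_⟩
    · rw [glu_SS_false]; omega
    · rw [glu_sh_f]
      simp only [Prod.mk.injEq, and_true]
      omega

theorem glu_Om_false {n M m ρ : ℕ} {c X Y : ℤ} (h0 : -(n : ℤ) ≤ X + Y) (h0' : X + Y ≤ 3 * n + 1)
    (h1 : -(M : ℤ) ≤ X - Y - 1) (h1' : X - Y - 1 < M)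
    (hU : X + Y ≤ n → glu_U m ρ c (X, Y, false))
    (hK : (n : ℤ) + 1 ≤ X + Y → ¬ glu_U m ρ c (X - (n + 1), Y - n, true)) :
    ((X, Y, false) : Edg) ∈ glu_Om n M m ρ c := by
  unfold glu_Om
  rw [Finset.mem_union]
  by_cases h : X + Y ≤ n
  · left
    rw [Finset.mem_sdiff, glu_mem_K, glu_SS_false]
    exact ⟨⟨h0, h, h1, h1'⟩, fun h2 => h2.2 (hU h)⟩
  · right
    rw [Finset.mem_map]
    refine ⟨(X - (n + 1), Y - n, true), glu_mem_K.2 ⟨?_, hK (by omega)⟩, ?_⟩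
    · rw [glu_SS_true]; omega
    · rw [glu_sh_t]
      simp only [Prod.mk.injEq, and_true]
      omega

/-- two crossings of rectangles in cross position meet -/
theorem glu_meet {G : Set Edg} {a b c d a' b' c' d' x x' y y' : ℤ} (h1 : a ≤ a') (h2 : a' < b')
    (h3 : b' ≤ b) (h4 : c' ≤ c) (h5 : c < d) (h6 : d ≤ d')
    (p : Reach (G ∩ ↑(LRE a b c d)) (a, y) (b, y'))
    (q : Reach (G ∩ ↑(TBE a' b' c' d')) (x, c') (x', d')) : Reach G (a, y) (x, c') := by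
  obtain ⟨y1, y2, k1, k2, k3, k4⟩ := sub_LR (a := a') (b := b') (c := c) (d := d) h2
    (by rintro x y ⟨-, h⟩ _ _; simp only [mem_coe, mem_LRE_true] at h; omega)
    (by rintro x y ⟨-, h⟩ _ _; simp only [mem_coe, mem_LRE_false] at h; omega) p h1 h3
  obtain ⟨x1, x2, l1, l2, l3, l4⟩ := sub_TB (a := a') (b := b') (c := c) (d := d) h5
    (by rintro x y ⟨-, h⟩ _ _; simp only [mem_coe, mem_TBE_false] at h; omega)
    (by rintro x y ⟨-, h⟩ _ _; simp only [mem_coe, mem_TBE_true] at h; omega) q h4 h6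
  have m1 := crossings_meet h2 h5.le (F := G) k2 l1
    (k3.mono (by rintro e ⟨⟨h7, -⟩, h8⟩; exact ⟨h7, h8⟩))
    (l3.mono (by rintro e ⟨⟨h7, -⟩, h8⟩; exact ⟨h7, h8⟩))
  exact (k4.mono Set.inter_subset_left).trans ((m1.mono Set.inter_subset_left).trans
    (l4.mono Set.inter_subset_left).symm)

theorem glu_tube0 (m ρ : ℕ) (c : ℤ) (L : ℕ) : tube 0 m ρ c L = RE m (m + L) (c - ρ) (c + ρ) := by
  unfold tube
  rw [if_pos rfl]

theorem glu_tube1 (m ρ : ℕ) (c : ℤ) (L : ℕ) : tube 1 m ρ c L = RE (c - ρ) (c + ρ) m (m + L) := by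
  unfold tube
  rw [if_neg (by decide), if_pos rfl]

theorem glu_tube2 (m ρ : ℕ) (c : ℤ) (L : ℕ) :
    tube 2 m ρ c L = RE (-m - L) (-m) (c - ρ) (c + ρ) := by
  unfold tube
  rw [if_neg (by decide), if_neg (by decide), if_pos rfl]

theorem glu_tube3 (m ρ : ℕ) (c : ℤ) (L : ℕ) :
    tube 3 m ρ c L = RE (c - ρ) (c + ρ) (-m - L) (-m) := by
  unfold tube
  rw [if_neg (by decide), if_neg (by decide), if_neg (by decide)]

/-- the shifted dual set -/
def glu_N (n : ℕ) (X : Set Edg) : Set Edg := (trl (n + 1) (n + 1)).φ '' (dl '' X)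

theorem glu_N_true {n : ℕ} {X : Set Edg} {x y : ℤ} (h : ((x, y, true) : Edg) ∈ glu_N n X) :
    ((x - n, y - (n + 1), false) : Edg) ∈ X := by
  obtain ⟨e1, ⟨⟨x', y', b⟩, hg, rfl⟩, he⟩ := h
  cases b
  · rw [dl_f, trl_φ] at he
    simp only [Prod.mk.injEq, and_true] at he
    have h1 : x - n = x' := by omega
    have h2 : y - (n + 1) = y' := by omega
    rw [h1, h2]
    exact hg
  · rw [dl_t, trl_φ] at he
    simp only [Prod.mk.injEq, Bool.false_eq_true, and_false] at he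

theorem glu_N_false {n : ℕ} {X : Set Edg} {x y : ℤ} (h : ((x, y, false) : Edg) ∈ glu_N n X) :
    ((x - (n + 1), y - n, true) : Edg) ∈ X := by
  obtain ⟨e1, ⟨⟨x', y', b⟩, hg, rfl⟩, he⟩ := h
  cases b
  · rw [dl_f, trl_φ] at he
    simp only [Prod.mk.injEq, Bool.true_eq_false, and_false] at he
  · rw [dl_t, trl_φ] at he
    simp only [Prod.mk.injEq, and_true] at he
    have h1 : x - (n + 1) = x' := by omega
    have h2 : y - n = y' := by omega
    rw [h1, h2]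
    exact hg

theorem glu_N_reach {n : ℕ} {X : Set Edg} {f g : Vtx} (h : DReach X f g) :
    Reach (glu_N n X) (f.1 + (n + 1), f.2 + (n + 1)) (g.1 + (n + 1), g.2 + (n + 1)) := by
  have h1 := (trl (n + 1) (n + 1)).reach (reach_dl.mpr h)
  exact h1

/-- the deterministic part -/
theorem glu_det {B n m ρ : ℕ} {c c' : ℤ} {s : Fin 4} (hG : Geo B m ρ c s c') (hn : n = 20 * m)
    {w : Finset Edg} {G : Set Edg} (hw : (↑w : Set Edg) ⊆ G)
    (R1 : TBc (m + 4 * ρ) (m + 8 * ρ) (c - ρ) (c + ρ) w)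
    (R2 : LRc (m + 4 * ρ) (n + ρ) (c - ρ) (c + ρ) w)
    (R3 : TBc (n - ρ) (n + ρ) (c - ρ) (n + 1 - m - 4 * ρ) w)
    (R4 : LRc (n + 1 - m - 8 * ρ) (n + 1 + m + 8 * ρ) (n + 1 - m - 8 * ρ) (n + 1 - m - 4 * ρ) w)
    (R5 : TBc (n + 1 - m - 8 * ρ) (n + 1 - m - 4 * ρ) (n + 1 - m - 8 * ρ) (n + 1 + m + 8 * ρ) w)
    (R6 : LRc (n + 1 - m - 8 * ρ) (n + 1 + m + 8 * ρ) (n + 1 + m + 4 * ρ) (n + 1 + m + 8 * ρ) w)
    (R7 : TBc (n + 1 + m + 4 * ρ) (n + 1 + m + 8 * ρ) (n + 1 + c + 3 * ρ) (n + 1 + m + 8 * ρ) w)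
    (R8 : TBc (n + 1 + m + 4 * ρ) (n + 1 + m + 8 * ρ) (n + 1 - m - 8 * ρ) (n + 1 + c - 3 * ρ) w)
    (F : Finset Edg) (f : Vtx) (hf1 : -1 ≤ f.1 ∧ f.1 ≤ 0) (hf2 : -1 ≤ f.2 ∧ f.2 ≤ 0)
    (hopen : (↑F : Set Edg) ∩ ↑(boxE m ∪ tube 0 m ρ c (10 * ρ)) ⊆ G)
    (hdual : glu_N n (↑((boxE m ∪ tube 0 m ρ c (2 * ρ) ∪ tube s m ρ c' (10 * ρ)) \ F) : Set Edg)
      ⊆ G)
    (hEV : EV m ρ c s c' f F) : Reach G (0, 0) (f.1 + (n + 1), f.2 + (n + 1)) := by
  have hρ := hG.ρpos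
  have hm := hG.small
  have hc := abs_le.1 hG.hc
  have hc' := abs_le.1 hG.hc'
  subst hn
  obtain ⟨⟨z, hz, P⟩, v, hv, D⟩ := hEV
  obtain ⟨x1, x1', -, -, r1⟩ := R1
  obtain ⟨y2, y2', -, -, r2⟩ := R2
  obtain ⟨x3, x3', -, -, r3⟩ := R3
  obtain ⟨y4, y4', -, -, r4⟩ := R4
  obtain ⟨x5, x5', -, -, r5⟩ := R5
  obtain ⟨y6, y6', -, -, r6⟩ := R6
  obtain ⟨x7, x7', -, -, r7⟩ := R7
  obtain ⟨x8, x8', -, -, r8⟩ := R8
  replace r1 := r1.mono (Set.inter_subset_inter_left _ hw)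
  replace r2 := r2.mono (Set.inter_subset_inter_left _ hw)
  replace r3 := r3.mono (Set.inter_subset_inter_left _ hw)
  replace r4 := r4.mono (Set.inter_subset_inter_left _ hw)
  replace r5 := r5.mono (Set.inter_subset_inter_left _ hw)
  replace r6 := r6.mono (Set.inter_subset_inter_left _ hw)
  replace r7 := r7.mono (Set.inter_subset_inter_left _ hw)
  replace r8 := r8.mono (Set.inter_subset_inter_left _ hw)
  -- the open path
  obtain ⟨y0, y0', -, -, p1, p2⟩ := sub_LR (a := (m : ℤ) + 4 * ρ) (b := (m : ℤ) + 8 * ρ)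
    (c := c - ρ) (d := c + ρ) (by omega)
    (by
      rintro x y ⟨-, h⟩ h1 h2
      rw [glu_tube0, Finset.mem_coe, Finset.mem_union, boxE, mem_RE_true, mem_RE_true] at h
      push_cast at h
      omega)
    (by
      rintro x y ⟨-, h⟩ h1 h2
      rw [glu_tube0, Finset.mem_coe, Finset.mem_union, boxE, mem_RE_false, mem_RE_false] at h
      push_cast at h
      omega) P (by show (0 : ℤ) ≤ _; omega) (by rw [hz]; omega)
  replace p1 := p1.mono (Set.inter_subset_inter_left _ hopen)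
  replace p2 := p2.mono hopen
  have q1 := glu_meet (by omega) (by omega) (by omega) (by omega) (by omega) (by omega) p1 r1
  have q2 := glu_meet (by omega) (by omega) (by omega) (by omega) (by omega) (by omega) r2 r1
  have q3 := glu_meet (by omega) (by omega) (by omega) (by omega) (by omega) (by omega) r2 r3
  have q4 := glu_meet (by omega) (by omega) (by omega) (by omega) (by omega) (by omega) r4 r3
  have q5 := glu_meet (by omega) (by omega) (by omega) (by omega) (by omega) (by omega) r4 r5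
  have q6 := glu_meet (by omega) (by omega) (by omega) (by omega) (by omega) (by omega) r6 r5
  have q7 := glu_meet (by omega) (by omega) (by omega) (by omega) (by omega) (by omega) r6 r7
  have q8 := glu_meet (by omega) (by omega) (by omega) (by omega) (by omega) (by omega) r4 r8
  have k4 := (((p2.trans q1).trans q2.symm).trans q3).trans q4.symm
  have k5 := k4.trans q5
  have k6 := k5.trans q6.symm
  have k7 := k6.trans q7
  have k8 := k4.trans q8
  -- the dual path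
  have D' := glu_N_reach (n := 20 * m) D
  obtain ⟨s, hs⟩ := s
  interval_cases s
  · -- right
    have hs0 : (⟨0, hs⟩ : Fin 4) = 0 := rfl
    rw [hs0] at hG hdual D' hv
    have hsep := hG.sep rfl
    have hv' : (m : ℤ) + (10 * ρ : ℕ) ≤ v.1 := hv
    push_cast at hv'
    obtain ⟨t1, t2, -, -, d1, d2⟩ := sub_LR (a := ((20 * m : ℕ) : ℤ) + 1 + m + 4 * ρ)
      (b := ((20 * m : ℕ) : ℤ) + 1 + m + 8 * ρ)
      (c := ((20 * m : ℕ) : ℤ) + 1 + c' - ρ - 1) (d := ((20 * m : ℕ) : ℤ) + 1 + c' + ρ) (by omega)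
      (by
        intro x y h h1 h2
        have h3 := glu_N_true h
        rw [glu_tube0, glu_tube0, Finset.mem_coe, Finset.mem_sdiff, Finset.mem_union,
          Finset.mem_union, boxE, mem_RE_false, mem_RE_false, mem_RE_false] at h3
        push_cast at h1 h2 h3 ⊢
        omega)
      (by
        intro x y h h1 h2
        have h3 := glu_N_false h
        rw [glu_tube0, glu_tube0, Finset.mem_coe, Finset.mem_sdiff, Finset.mem_union,
          Finset.mem_union, boxE, mem_RE_true, mem_RE_true, mem_RE_true] at h3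
        push_cast at h1 h2 h3 ⊢
        omega) D' (by show f.1 + _ ≤ _; push_cast; omega) (by show _ ≤ v.1 + _; push_cast; omega)
    replace d1 := d1.mono (Set.inter_subset_inter_left _ hdual)
    replace d2 := d2.mono hdual
    rcases le_abs.1 hsep with h | h
    · have e1 := glu_meet (by omega) (by omega) (by omega) (by omega) (by omega) (by omega) d1 r8
      exact (k8.trans e1.symm).trans d2.symm
    · have e1 := glu_meet (by omega) (by omega) (by omega) (by omega) (by omega) (by omega) d1 r7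
      exact (k7.trans e1.symm).trans d2.symm
  · -- top
    have hs1 : (⟨1, hs⟩ : Fin 4) = 1 := rfl
    rw [hs1] at hG hdual D' hv
    have hv' : (m : ℤ) + (10 * ρ : ℕ) ≤ v.2 := hv
    push_cast at hv'
    obtain ⟨t1, t2, -, -, d1, d2⟩ := sub_TB (a := ((20 * m : ℕ) : ℤ) + 1 + c' - ρ - 1)
      (b := ((20 * m : ℕ) : ℤ) + 1 + c' + ρ)
      (c := ((20 * m : ℕ) : ℤ) + 1 + m + 4 * ρ) (d := ((20 * m : ℕ) : ℤ) + 1 + m + 8 * ρ) (by omega)
      (by
        intro x y h h1 h2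
        have h3 := glu_N_false h
        rw [glu_tube0, glu_tube1, Finset.mem_coe, Finset.mem_sdiff, Finset.mem_union,
          Finset.mem_union, boxE, mem_RE_true, mem_RE_true, mem_RE_true] at h3
        push_cast at h1 h2 h3 ⊢
        omega)
      (by
        intro x y h h1 h2
        have h3 := glu_N_true h
        rw [glu_tube0, glu_tube1, Finset.mem_coe, Finset.mem_sdiff, Finset.mem_union,
          Finset.mem_union, boxE, mem_RE_false, mem_RE_false, mem_RE_false] at h3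
        push_cast at h1 h2 h3 ⊢
        omega) D' (by show f.2 + _ ≤ _; push_cast; omega) (by show _ ≤ v.2 + _; push_cast; omega)
    replace d1 := d1.mono (Set.inter_subset_inter_left _ hdual)
    replace d2 := d2.mono hdual
    have e1 := glu_meet (by omega) (by omega) (by omega) (by omega) (by omega) (by omega) r6 d1
    exact (k6.trans e1).trans d2.symm
  · -- left
    have hs2 : (⟨2, hs⟩ : Fin 4) = 2 := rfl
    rw [hs2] at hG hdual D' hv
    have hv' : v.1 < -(m : ℤ) - (10 * ρ : ℕ) := hv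
    push_cast at hv'
    obtain ⟨t1, t2, -, -, d1, d2⟩ := sub_LR (a := ((20 * m : ℕ) : ℤ) + 1 - m - 8 * ρ)
      (b := ((20 * m : ℕ) : ℤ) + 1 - m - 4 * ρ)
      (c := ((20 * m : ℕ) : ℤ) + 1 + c' - ρ - 1) (d := ((20 * m : ℕ) : ℤ) + 1 + c' + ρ) (by omega)
      (by
        intro x y h h1 h2
        have h3 := glu_N_true h
        rw [glu_tube0, glu_tube2, Finset.mem_coe, Finset.mem_sdiff, Finset.mem_union,
          Finset.mem_union, boxE, mem_RE_false, mem_RE_false, mem_RE_false] at h3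
        push_cast at h1 h2 h3 ⊢
        omega)
      (by
        intro x y h h1 h2
        have h3 := glu_N_false h
        rw [glu_tube0, glu_tube2, Finset.mem_coe, Finset.mem_sdiff, Finset.mem_union,
          Finset.mem_union, boxE, mem_RE_true, mem_RE_true, mem_RE_true] at h3
        push_cast at h1 h2 h3 ⊢
        omega) D'.symm (by show v.1 + _ ≤ _; push_cast; omega)
        (by show _ ≤ f.1 + _; push_cast; omega)
    replace d1 := d1.mono (Set.inter_subset_inter_left _ hdual)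
    replace d2 := d2.mono hdual
    have e1 := glu_meet (by omega) (by omega) (by omega) (by omega) (by omega) (by omega) d1 r5
    exact ((k5.trans e1.symm).trans d2.symm).trans (D'.mono hdual).symm
  · -- bottom
    have hs3 : (⟨3, hs⟩ : Fin 4) = 3 := rfl
    rw [hs3] at hG hdual D' hv
    have hv' : v.2 < -(m : ℤ) - (10 * ρ : ℕ) := hv
    push_cast at hv'
    obtain ⟨t1, t2, -, -, d1, d2⟩ := sub_TB (a := ((20 * m : ℕ) : ℤ) + 1 + c' - ρ - 1)
      (b := ((20 * m : ℕ) : ℤ) + 1 + c' + ρ)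
      (c := ((20 * m : ℕ) : ℤ) + 1 - m - 8 * ρ) (d := ((20 * m : ℕ) : ℤ) + 1 - m - 4 * ρ) (by omega)
      (by
        intro x y h h1 h2
        have h3 := glu_N_false h
        rw [glu_tube0, glu_tube3, Finset.mem_coe, Finset.mem_sdiff, Finset.mem_union,
          Finset.mem_union, boxE, mem_RE_true, mem_RE_true, mem_RE_true] at h3
        push_cast at h1 h2 h3 ⊢
        omega)
      (by
        intro x y h h1 h2
        have h3 := glu_N_true h
        rw [glu_tube0, glu_tube3, Finset.mem_coe, Finset.mem_sdiff, Finset.mem_union,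
          Finset.mem_union, boxE, mem_RE_false, mem_RE_false, mem_RE_false] at h3
        push_cast at h1 h2 h3 ⊢
        omega) D'.symm (by show v.2 + _ ≤ _; push_cast; omega)
        (by show _ ≤ f.2 + _; push_cast; omega)
    replace d1 := d1.mono (Set.inter_subset_inter_left _ hdual)
    replace d2 := d2.mono hdual
    have e1 := glu_meet (by omega) (by omega) (by omega) (by omega) (by omega) (by omega) r4 d1
    exact ((k4.trans e1).trans d2.symm).trans (D'.mono hdual).symm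

/-! ### Assembly -/

theorem glu_U_true {m ρ : ℕ} {c X Y : ℤ} : glu_U m ρ c (X, Y, true) ↔
    (-(m : ℤ) ≤ X ∧ X < m ∧ -(m : ℤ) ≤ Y ∧ Y ≤ m) ∨ ((m : ℤ) ≤ X ∧ c - ρ ≤ Y ∧ Y ≤ c + ρ) ∨
      2 * (m : ℤ) ≤ X := by
  unfold glu_U boxE
  rw [mem_RE_true]

theorem glu_U_false {m ρ : ℕ} {c X Y : ℤ} : glu_U m ρ c (X, Y, false) ↔
    (-(m : ℤ) ≤ X ∧ X ≤ m ∧ -(m : ℤ) ≤ Y ∧ Y < m) ∨ ((m : ℤ) ≤ X ∧ c - ρ ≤ Y ∧ Y ≤ c + ρ) ∨
      2 * (m : ℤ) ≤ X := by
  unfold glu_U boxE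
  rw [mem_RE_false]

theorem glu_Om_true' {n M m ρ : ℕ} {c X Y : ℤ}
    (h : (-(n : ℤ) ≤ X + Y ∧ X + Y ≤ 3 * n + 1 ∧ -(M : ℤ) ≤ X - Y ∧ X - Y < M) ∧
      (X + Y ≤ n → (-(m : ℤ) ≤ X ∧ X < m ∧ -(m : ℤ) ≤ Y ∧ Y ≤ m) ∨
        ((m : ℤ) ≤ X ∧ c - ρ ≤ Y ∧ Y ≤ c + ρ) ∨ 2 * (m : ℤ) ≤ X) ∧
      ((n : ℤ) + 1 ≤ X + Y → ¬ ((-(m : ℤ) ≤ X - n ∧ X - n ≤ m ∧ -(m : ℤ) ≤ Y - (n + 1) ∧
        Y - (n + 1) < m) ∨
        ((m : ℤ) ≤ X - n ∧ c - ρ ≤ Y - (n + 1) ∧ Y - (n + 1) ≤ c + ρ) ∨ 2 * (m : ℤ) ≤ X - n))) :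
    ((X, Y, true) : Edg) ∈ glu_Om n M m ρ c :=
  glu_Om_true h.1.1 h.1.2.1 h.1.2.2.1 h.1.2.2.2 (fun h1 => glu_U_true.2 (h.2.1 h1))
    (fun h1 h2 => h.2.2 h1 (glu_U_false.1 h2))

theorem glu_Om_false' {n M m ρ : ℕ} {c X Y : ℤ}
    (h : (-(n : ℤ) ≤ X + Y ∧ X + Y ≤ 3 * n + 1 ∧ -(M : ℤ) ≤ X - Y - 1 ∧ X - Y - 1 < M) ∧
      (X + Y ≤ n → (-(m : ℤ) ≤ X ∧ X ≤ m ∧ -(m : ℤ) ≤ Y ∧ Y < m) ∨
        ((m : ℤ) ≤ X ∧ c - ρ ≤ Y ∧ Y ≤ c + ρ) ∨ 2 * (m : ℤ) ≤ X) ∧
      ((n : ℤ) + 1 ≤ X + Y → ¬ ((-(m : ℤ) ≤ X - (n + 1) ∧ X - (n + 1) < m ∧ -(m : ℤ) ≤ Y - n ∧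
        Y - n ≤ m) ∨
        ((m : ℤ) ≤ X - (n + 1) ∧ c - ρ ≤ Y - n ∧ Y - n ≤ c + ρ) ∨
          2 * (m : ℤ) ≤ X - (n + 1)))) :
    ((X, Y, false) : Edg) ∈ glu_Om n M m ρ c :=
  glu_Om_false h.1.1 h.1.2.1 h.1.2.2.1 h.1.2.2.2 (fun h1 => glu_U_false.2 (h.2.1 h1))
    (fun h1 h2 => h.2.2 h1 (glu_U_true.1 h2))

/-- the region of the first part of the configuration -/
noncomputable def glu_Z (m ρ : ℕ) (c : ℤ) : Finset Edg := boxE m ∪ tube 0 m ρ c (2 * ρ)

/-- admissible crossing events -/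
structure GluGood (Ω Z : Finset Edg) (c1 : ℝ) (A : Finset Edg → Prop) : Prop where
  inc : IncrE Ω A
  pr : c1 ≤ Pr (fun _ => (1 / 2 : ℝ)) Ω A
  loc : ∀ F, F ⊆ Ω → (A F ↔ A (F \ Z))

theorem glu_inter_sdiff {Ω Z F : Finset Edg} (hF : F ⊆ Ω) : F ∩ (Ω \ Z) = F \ Z := by
  ext e
  rw [Finset.mem_inter, Finset.mem_sdiff, Finset.mem_sdiff]
  exact ⟨fun h => ⟨h.1, h.2.2⟩, fun h => ⟨h.1, hF h.1, h.2⟩⟩

theorem gluGood_LR {Ω Z : Finset Edg} {c1 : ℝ} {a b c d : ℤ} (hs : LRE a b c d ⊆ Ω \ Z)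
    (h : c1 ≤ hh (1 / 2) (b - a) (d - c)) : GluGood Ω Z c1 (LRc a b c d) where
  inc := LRc_incr _ _ _ _ _
  pr := by rw [pr_LRc _ (hs.trans Finset.sdiff_subset)]; exact h
  loc := fun F hF => by rw [LRc_local hs, glu_inter_sdiff hF]

theorem gluGood_TB {Ω Z : Finset Edg} {c1 : ℝ} {a b c d : ℤ} (hs : TBE a b c d ⊆ Ω \ Z)
    (h : c1 ≤ hh (1 / 2) (d - c) (b - a)) : GluGood Ω Z c1 (TBc a b c d) where
  inc := TBc_incr _ _ _ _ _
  pr := by rw [pr_TBc _ (hs.trans Finset.sdiff_subset)]; exact h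
  loc := fun F hF => by rw [TBc_local hs, glu_inter_sdiff hF]

theorem glu_not_Z_true {m ρ : ℕ} {c X Y : ℤ} (hρ : 40 * ρ ≤ m) (h : (m : ℤ) + 2 * ρ < X) :
    ((X, Y, true) : Edg) ∉ glu_Z m ρ c := by
  unfold glu_Z
  rw [Finset.mem_union, glu_tube0, boxE, mem_RE_true, mem_RE_true]
  push_cast
  omega

theorem glu_not_Z_false {m ρ : ℕ} {c X Y : ℤ} (hρ : 40 * ρ ≤ m) (h : (m : ℤ) + 2 * ρ < X) :
    ((X, Y, false) : Edg) ∉ glu_Z m ρ c := by
  unfold glu_Z
  rw [Finset.mem_union, glu_tube0, boxE, mem_RE_false, mem_RE_false]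
  push_cast
  omega

theorem glu_sub_LR {n M m ρ : ℕ} {c a b p q : ℤ}
    (h1 : ∀ X Y : ℤ, a ≤ X → X < b → p ≤ Y → Y ≤ q → ((X, Y, true) : Edg) ∈ glu_Om n M m ρ c ∧
      ((X, Y, true) : Edg) ∉ glu_Z m ρ c)
    (h2 : ∀ X Y : ℤ, a ≤ X → X ≤ b → p ≤ Y → Y < q → ((X, Y, false) : Edg) ∈ glu_Om n M m ρ c ∧
      ((X, Y, false) : Edg) ∉ glu_Z m ρ c) :
    LRE a b p q ⊆ glu_Om n M m ρ c \ glu_Z m ρ c := by
  rintro ⟨X, Y, _ | _⟩ h
  · rw [mem_LRE_false] at h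
    rw [Finset.mem_sdiff]
    exact h2 X Y h.1.le h.2.1.le h.2.2.1 h.2.2.2
  · rw [mem_LRE_true] at h
    rw [Finset.mem_sdiff]
    exact h1 X Y h.1 h.2.1 h.2.2.1 h.2.2.2

theorem glu_sub_TB {n M m ρ : ℕ} {c a b p q : ℤ}
    (h1 : ∀ X Y : ℤ, a ≤ X → X < b → p ≤ Y → Y ≤ q → ((X, Y, true) : Edg) ∈ glu_Om n M m ρ c ∧
      ((X, Y, true) : Edg) ∉ glu_Z m ρ c)
    (h2 : ∀ X Y : ℤ, a ≤ X → X ≤ b → p ≤ Y → Y < q → ((X, Y, false) : Edg) ∈ glu_Om n M m ρ c ∧
      ((X, Y, false) : Edg) ∉ glu_Z m ρ c) :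
    TBE a b p q ⊆ glu_Om n M m ρ c \ glu_Z m ρ c := by
  rintro ⟨X, Y, _ | _⟩ h
  · rw [mem_TBE_false] at h
    rw [Finset.mem_sdiff]
    exact h2 X Y h.1 h.2.1 h.2.2.1 h.2.2.2
  · rw [mem_TBE_true] at h
    rw [Finset.mem_sdiff]
    exact h1 X Y h.1 h.2.1 h.2.2.1.le h.2.2.2.le

/-- the tubes lie in the base -/
theorem glu_sub_SS {B m ρ : ℕ} {c c' : ℤ} {s : Fin 4} (hG : Geo B m ρ c s c') :
    EU m ρ c s c' ⊆ Pool.Agent.H974R3.SS (20 * m) (60 * m) := by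
  have hρ := hG.ρpos
  have hm := hG.small
  have hc := abs_le.1 hG.hc
  have hc' := abs_le.1 hG.hc'
  unfold EU
  obtain ⟨s, hs⟩ := s
  interval_cases s
  · have hs0 : (⟨0, hs⟩ : Fin 4) = 0 := rfl
    rw [hs0, glu_tube0, glu_tube0, boxE]
    rintro ⟨x, y, _ | _⟩ h
    · rw [Finset.mem_union, Finset.mem_union, mem_RE_false, mem_RE_false, mem_RE_false] at h
      rw [glu_SS_false]
      push_cast at h ⊢
      omega
    · rw [Finset.mem_union, Finset.mem_union, mem_RE_true, mem_RE_true, mem_RE_true] at h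
      rw [glu_SS_true]
      push_cast at h ⊢
      omega
  · have hs1 : (⟨1, hs⟩ : Fin 4) = 1 := rfl
    rw [hs1, glu_tube0, glu_tube1, boxE]
    rintro ⟨x, y, _ | _⟩ h
    · rw [Finset.mem_union, Finset.mem_union, mem_RE_false, mem_RE_false, mem_RE_false] at h
      rw [glu_SS_false]
      push_cast at h ⊢
      omega
    · rw [Finset.mem_union, Finset.mem_union, mem_RE_true, mem_RE_true, mem_RE_true] at h
      rw [glu_SS_true]
      push_cast at h ⊢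
      omega
  · have hs2 : (⟨2, hs⟩ : Fin 4) = 2 := rfl
    rw [hs2, glu_tube0, glu_tube2, boxE]
    rintro ⟨x, y, _ | _⟩ h
    · rw [Finset.mem_union, Finset.mem_union, mem_RE_false, mem_RE_false, mem_RE_false] at h
      rw [glu_SS_false]
      push_cast at h ⊢
      omega
    · rw [Finset.mem_union, Finset.mem_union, mem_RE_true, mem_RE_true, mem_RE_true] at h
      rw [glu_SS_true]
      push_cast at h ⊢
      omega
  · have hs3 : (⟨3, hs⟩ : Fin 4) = 3 := rfl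
    rw [hs3, glu_tube0, glu_tube3, boxE]
    rintro ⟨x, y, _ | _⟩ h
    · rw [Finset.mem_union, Finset.mem_union, mem_RE_false, mem_RE_false, mem_RE_false] at h
      rw [glu_SS_false]
      push_cast at h ⊢
      omega
    · rw [Finset.mem_union, Finset.mem_union, mem_RE_true, mem_RE_true, mem_RE_true] at h
      rw [glu_SS_true]
      push_cast at h ⊢
      omega

/-- the open part is read on the first sheet -/
theorem glu_open_U {m ρ : ℕ} {c : ℤ} {e : Edg}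
    (he : e ∈ boxE m ∪ tube 0 m ρ c (10 * ρ)) : glu_U m ρ c e := by
  rw [Finset.mem_union] at he
  rcases he with he | he
  · exact Or.inl he
  · right; left
    rw [glu_tube0] at he
    obtain ⟨x, y, b⟩ := e
    cases b
    · rw [mem_RE_false] at he
      refine ⟨he.1, he.2.2.1, ?_⟩
      show y ≤ _
      omega
    · rw [mem_RE_true] at he
      exact ⟨he.1, he.2.2.1, he.2.2.2⟩

theorem glu_Z_sub_open {m ρ : ℕ} {c : ℤ} :
    glu_Z m ρ c ⊆ boxE m ∪ tube 0 m ρ c (10 * ρ) := by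
  unfold glu_Z
  apply Finset.union_subset_union_right
  rw [glu_tube0, glu_tube0]
  rintro ⟨x, y, _ | _⟩ h
  · rw [mem_RE_false] at h ⊢
    push_cast at h ⊢
    omega
  · rw [mem_RE_true] at h ⊢
    push_cast at h ⊢
    omega

/-- the second tube is read on the second sheet -/
theorem glu_tube_K {B m ρ : ℕ} {c c' : ℤ} {s : Fin 4} (hG : Geo B m ρ c s c') {e : Edg}
    (he : e ∈ tube s m ρ c' (10 * ρ)) (hZ : e ∉ glu_Z m ρ c) :
    e ∈ glu_K (20 * m) (60 * m) m ρ c := by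
  have hρ := hG.ρpos
  have hm := hG.small
  have hc := abs_le.1 hG.hc
  have hc' := abs_le.1 hG.hc'
  rw [glu_mem_K]
  refine ⟨glu_sub_SS hG ?_, ?_⟩
  · unfold EU
    exact Finset.mem_union_right _ he
  · have hb : e ∉ boxE m := fun h => hZ (Finset.mem_union_left _ h)
    rintro (h | h)
    · exact hb h
    · obtain ⟨s, hs⟩ := s
      interval_cases s
      · have hs0 : (⟨0, hs⟩ : Fin 4) = 0 := rfl
        rw [hs0, glu_tube0] at he
        have hsep := le_abs.1 (hG.sep rfl)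
        obtain ⟨x, y, _ | _⟩ := e
        · rw [mem_RE_false] at he
          simp only at h
          push_cast at he
          omega
        · rw [mem_RE_true] at he
          simp only at h
          push_cast at he
          omega
      · have hs1 : (⟨1, hs⟩ : Fin 4) = 1 := rfl
        rw [hs1, glu_tube1] at he
        obtain ⟨x, y, _ | _⟩ := e
        · rw [mem_RE_false] at he
          simp only at h
          push_cast at he
          omega
        · rw [mem_RE_true] at he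
          simp only at h
          push_cast at he
          omega
      · have hs2 : (⟨2, hs⟩ : Fin 4) = 2 := rfl
        rw [hs2, glu_tube2] at he
        obtain ⟨x, y, _ | _⟩ := e
        · rw [mem_RE_false] at he
          simp only at h
          push_cast at he
          omega
        · rw [mem_RE_true] at he
          simp only at h
          push_cast at he
          omega
      · have hs3 : (⟨3, hs⟩ : Fin 4) = 3 := rfl
        rw [hs3, glu_tube3] at he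
        obtain ⟨x, y, _ | _⟩ := e
        · rw [mem_RE_false] at he
          simp only at h
          push_cast at he
          omega
        · rw [mem_RE_true] at he
          simp only at h
          push_cast at he
          omega

/-- `EV` depends only on `EU` -/
theorem glu_EV_local {m ρ : ℕ} {c c' : ℤ} {s : Fin 4} {f : Vtx} (F : Finset Edg) :
    EV m ρ c s c' f F ↔ EV m ρ c s c' f (F ∩ EU m ρ c s c') := by
  have h1 : ((↑F : Set Edg) ∩ ↑(boxE m ∪ tube 0 m ρ c (10 * ρ))) =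
      ((↑(F ∩ EU m ρ c s c') : Set Edg) ∩ ↑(boxE m ∪ tube 0 m ρ c (10 * ρ))) := by
    ext e
    rw [Finset.coe_inter]
    constructor
    · rintro ⟨h1, h2⟩
      exact ⟨⟨h1, Finset.mem_union_left _ h2⟩, h2⟩
    · rintro ⟨h1, h2⟩
      exact ⟨h1.1, h2⟩
  have h2 : (boxE m ∪ tube 0 m ρ c (2 * ρ) ∪ tube s m ρ c' (10 * ρ)) \ F =
      (boxE m ∪ tube 0 m ρ c (2 * ρ) ∪ tube s m ρ c' (10 * ρ)) \ (F ∩ EU m ρ c s c') := by
    ext e
    rw [Finset.mem_sdiff, Finset.mem_sdiff, Finset.mem_inter]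
    constructor
    · rintro ⟨h1, h2⟩
      exact ⟨h1, fun h3 => h2 h3.1⟩
    · rintro ⟨h1, h2⟩
      refine ⟨h1, fun h3 => h2 ⟨h3, ?_⟩⟩
      rw [Finset.mem_union] at h1
      rcases h1 with h1 | h1
      · exact Finset.mem_union_left _ (glu_Z_sub_open h1)
      · exact Finset.mem_union_right _ h1
  unfold EV
  rw [h1, h2]

theorem glu_EV_mono {B m ρ : ℕ} {c c' : ℤ} {s : Fin 4} (hG : Geo B m ρ c s c') {f : Vtx}
    {w w' : Finset Edg} (h : w ⊆ w') (hZ : w ∩ glu_Z m ρ c = w' ∩ glu_Z m ρ c)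
    (hEV : EV m ρ c s c' f (glu_un (Pool.Agent.H974R3.SS (20 * m) (60 * m))
      (glu_K (20 * m) (60 * m) m ρ c) (glu_sh (20 * m)) w)) :
    EV m ρ c s c' f (glu_un (Pool.Agent.H974R3.SS (20 * m) (60 * m))
      (glu_K (20 * m) (60 * m) m ρ c) (glu_sh (20 * m)) w') := by
  obtain ⟨⟨z, hz, P⟩, v, hv, D⟩ := hEV
  refine ⟨⟨z, hz, P.mono ?_⟩, v, hv, D.mono ?_⟩
  · rintro e ⟨h1, h2⟩
    refine ⟨?_, h2⟩
    rw [Finset.mem_coe, glu_mem_un] at h1 ⊢
    rcases h1 with ⟨h3, h4, h5⟩ | ⟨h3, h4⟩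
    · exact Or.inl ⟨h h3, h4, h5⟩
    · exact absurd (glu_open_U h2) (glu_mem_K.1 h3).2
  · intro e he
    rw [Finset.mem_coe, Finset.mem_sdiff] at he ⊢
    refine ⟨he.1, fun h1 => he.2 ?_⟩
    rw [glu_mem_un] at h1 ⊢
    rcases h1 with ⟨h3, h4, h5⟩ | ⟨h3, h4⟩
    · left
      have h6 : e ∈ glu_Z m ρ c := by
        by_contra h7
        rcases Finset.mem_union.1 he.1 with h8 | h8
        · exact h7 h8
        · exact h5 (glu_tube_K hG h8 h7)
      have h7 : e ∈ w ∩ glu_Z m ρ c := by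
        rw [hZ]
        exact Finset.mem_inter.2 ⟨h3, h6⟩
      exact ⟨(Finset.mem_inter.1 h7).1, h4, h5⟩
    · right
      exact ⟨h3, fun h5 => h4 (h h5)⟩

/-- the crossing events of the corridor and the ring -/
def glu_L (m ρ : ℕ) (c : ℤ) : List (Finset Edg → Prop) :=
  [TBc (m + 4 * ρ) (m + 8 * ρ) (c - ρ) (c + ρ),
   LRc (m + 4 * ρ) ((20 * m : ℕ) + ρ) (c - ρ) (c + ρ),
   TBc ((20 * m : ℕ) - ρ) ((20 * m : ℕ) + ρ) (c - ρ) ((20 * m : ℕ) + 1 - m - 4 * ρ),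
   LRc ((20 * m : ℕ) + 1 - m - 8 * ρ) ((20 * m : ℕ) + 1 + m + 8 * ρ)
     ((20 * m : ℕ) + 1 - m - 8 * ρ) ((20 * m : ℕ) + 1 - m - 4 * ρ),
   TBc ((20 * m : ℕ) + 1 - m - 8 * ρ) ((20 * m : ℕ) + 1 - m - 4 * ρ)
     ((20 * m : ℕ) + 1 - m - 8 * ρ) ((20 * m : ℕ) + 1 + m + 8 * ρ),
   LRc ((20 * m : ℕ) + 1 - m - 8 * ρ) ((20 * m : ℕ) + 1 + m + 8 * ρ)
     ((20 * m : ℕ) + 1 + m + 4 * ρ) ((20 * m : ℕ) + 1 + m + 8 * ρ),
   TBc ((20 * m : ℕ) + 1 + m + 4 * ρ) ((20 * m : ℕ) + 1 + m + 8 * ρ)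
     ((20 * m : ℕ) + 1 + c + 3 * ρ) ((20 * m : ℕ) + 1 + m + 8 * ρ),
   TBc ((20 * m : ℕ) + 1 + m + 4 * ρ) ((20 * m : ℕ) + 1 + m + 8 * ρ)
     ((20 * m : ℕ) + 1 - m - 8 * ρ) ((20 * m : ℕ) + 1 + c - 3 * ρ)]

theorem glu_conn {B m ρ : ℕ} {c c' : ℤ} {s : Fin 4} (hG : Geo B m ρ c s c') {f0 : ℤ}
    (hf : f0 = 0 ∨ f0 = -1) {w : Finset Edg} (hw : w ⊆ glu_Om (20 * m) (60 * m) m ρ c)
    (hEV : EV m ρ c s c' (f0, f0) (glu_un (Pool.Agent.H974R3.SS (20 * m) (60 * m))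
      (glu_K (20 * m) (60 * m) m ρ c) (glu_sh (20 * m)) w))
    (hL : ∀ A ∈ glu_L m ρ c, A w) :
    Reach (cov (20 * m) (Pool.Agent.H974R3.SS (20 * m) (60 * m))
      (glu_un (Pool.Agent.H974R3.SS (20 * m) (60 * m))
      (glu_K (20 * m) (60 * m) m ρ c) (glu_sh (20 * m)) w)) (0, 0)
      ((20 * m : ℕ) + 1 + f0, (20 * m : ℕ) + 1 + f0) := by
  unfold glu_L at hL
  simp only [List.forall_mem_cons] at hL
  obtain ⟨R1, R2, R3, R4, R5, R6, R7, R8, -⟩ := hL
  have hsub := glu_sub_SS hG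
  have h1 : (↑w : Set Edg) ⊆ cov (20 * m) (Pool.Agent.H974R3.SS (20 * m) (60 * m))
      (glu_un (Pool.Agent.H974R3.SS (20 * m) (60 * m))
      (glu_K (20 * m) (60 * m) m ρ c) (glu_sh (20 * m)) w) := by
    intro e he
    have h2 := hw he
    unfold glu_Om at h2
    rw [Finset.mem_union] at h2
    rcases h2 with h2 | h2
    · rw [Finset.mem_sdiff] at h2
      exact Or.inl ⟨h2.1, glu_mem_un.2 (Or.inl ⟨he, h2.1, h2.2⟩)⟩
    · rw [Finset.mem_map] at h2
      obtain ⟨g, hg, rfl⟩ := h2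
      refine Or.inr ⟨g, glu_K_sub hg, fun h3 => ?_, rfl⟩
      rcases glu_mem_un.1 h3 with ⟨-, -, h4⟩ | ⟨-, h4⟩
      · exact h4 hg
      · exact h4 he
  have h2 := glu_det hG rfl h1 R1 R2 R3 R4 R5 R6 R7 R8 _ (f0, f0)
    (by rcases hf with h | h <;> subst h <;> simp) (by rcases hf with h | h <;> subst h <;> simp)
    (by
      rintro e ⟨h3, h4⟩
      exact Or.inl ⟨hsub (Finset.mem_union_left _ h4), h3⟩)
    (by
      rintro e ⟨e1, ⟨g, hg, rfl⟩, rfl⟩
      rw [Finset.mem_coe, Finset.mem_sdiff] at hg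
      refine Or.inr ⟨g, hsub ?_, hg.2, rfl⟩
      rcases Finset.mem_union.1 hg.1 with h5 | h5
      · exact Finset.mem_union_left _ (glu_Z_sub_open h5)
      · exact Finset.mem_union_right _ h5) hEV
  have h3 : ((20 * m : ℕ) : ℤ) + 1 + f0 = f0 + (((20 * m : ℕ) : ℤ) + 1) := by ring
  rw [h3]
  exact h2

/-- all the crossing events are admissible -/
theorem glu_L_good {B m ρ : ℕ} {c c' : ℤ} {s : Fin 4} (hG : Geo B m ρ c s c') {c1 : ℝ}
    (hc1 : ∀ w h : ℤ, 0 < w → 1 ≤ h → w ≤ ((40 * B + 40 : ℕ) : ℤ) * h → c1 ≤ hh (1 / 2) w h) :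
    ∀ A ∈ glu_L m ρ c, GluGood (glu_Om (20 * m) (60 * m) m ρ c) (glu_Z m ρ c) c1 A := by
  have hρ := hG.ρpos
  have hm := hG.small
  have hc := abs_le.1 hG.hc
  have hB : (m : ℤ) ≤ B * ρ := by exact_mod_cast hG.big
  have hk2 : ∀ w : ℤ, w ≤ 22 * m + 16 * ρ → w ≤ ((40 * B + 40 : ℕ) : ℤ) * (2 * ρ) := by
    intro w hw
    have e : ((40 * B + 40 : ℕ) : ℤ) * (2 * ρ) = 80 * (B * ρ) + 80 * ρ := by push_cast; ring
    rw [e]
    omega
  have hk4 : ∀ w : ℤ, w ≤ 22 * m + 16 * ρ → w ≤ ((40 * B + 40 : ℕ) : ℤ) * (4 * ρ) := by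
    intro w hw
    have h1 := hk2 w hw
    have e : ((40 * B + 40 : ℕ) : ℤ) * (4 * ρ) = 2 * (((40 * B + 40 : ℕ) : ℤ) * (2 * ρ)) := by ring
    have e2 : (0 : ℤ) ≤ ((40 * B + 40 : ℕ) : ℤ) * (2 * ρ) := by positivity
    omega
  unfold glu_L
  simp only [List.forall_mem_cons, List.not_mem_nil, false_implies, implies_true, and_true]
  refine ⟨?_, ?_, ?_, ?_, ?_, ?_, ?_, ?_⟩
  · refine gluGood_TB (glu_sub_TB (fun X Y h1 h2 h3 h4 => ⟨glu_Om_true' ?_, ?_⟩)
      (fun X Y h1 h2 h3 h4 => ⟨glu_Om_false' ?_, ?_⟩)) ?_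
    · push_cast; omega
    · exact glu_not_Z_true hm (by omega)
    · push_cast; omega
    · exact glu_not_Z_false hm (by omega)
    · rw [show (m : ℤ) + 8 * ρ - (m + 4 * ρ) = 4 * ρ by ring]
      exact hc1 _ _ (by omega) (by omega) (hk4 _ (by omega))
  · refine gluGood_LR (glu_sub_LR (fun X Y h1 h2 h3 h4 => ⟨glu_Om_true' ?_, ?_⟩)
      (fun X Y h1 h2 h3 h4 => ⟨glu_Om_false' ?_, ?_⟩)) ?_
    · push_cast at h2 ⊢; omega
    · exact glu_not_Z_true hm (by omega)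
    · push_cast at h2 ⊢; omega
    · exact glu_not_Z_false hm (by omega)
    · rw [show c + (ρ : ℤ) - (c - ρ) = 2 * ρ by ring]
      push_cast
      exact hc1 _ _ (by omega) (by omega) (hk2 _ (by omega))
  · refine gluGood_TB (glu_sub_TB (fun X Y h1 h2 h3 h4 => ⟨glu_Om_true' ?_, ?_⟩)
      (fun X Y h1 h2 h3 h4 => ⟨glu_Om_false' ?_, ?_⟩)) ?_
    · push_cast at h1 h2 h4 ⊢; omega
    · exact glu_not_Z_true hm (by push_cast at h1; omega)
    · push_cast at h1 h2 h4 ⊢; omega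
    · exact glu_not_Z_false hm (by push_cast at h1; omega)
    · rw [show ((20 * m : ℕ) : ℤ) + ρ - ((20 * m : ℕ) - ρ) = 2 * ρ by ring]
      push_cast
      exact hc1 _ _ (by omega) (by omega) (hk2 _ (by omega))
  · refine gluGood_LR (glu_sub_LR (fun X Y h1 h2 h3 h4 => ⟨glu_Om_true' ?_, ?_⟩)
      (fun X Y h1 h2 h3 h4 => ⟨glu_Om_false' ?_, ?_⟩)) ?_
    · push_cast at h1 h2 h3 h4 ⊢; omega
    · exact glu_not_Z_true hm (by push_cast at h1; omega)
    · push_cast at h1 h2 h3 h4 ⊢; omega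
    · exact glu_not_Z_false hm (by push_cast at h1; omega)
    · rw [show ((20 * m : ℕ) : ℤ) + 1 - m - 4 * ρ - ((20 * m : ℕ) + 1 - m - 8 * ρ) = 4 * ρ by ring]
      push_cast
      exact hc1 _ _ (by omega) (by omega) (hk4 _ (by omega))
  · refine gluGood_TB (glu_sub_TB (fun X Y h1 h2 h3 h4 => ⟨glu_Om_true' ?_, ?_⟩)
      (fun X Y h1 h2 h3 h4 => ⟨glu_Om_false' ?_, ?_⟩)) ?_
    · push_cast at h1 h2 h3 h4 ⊢; omega
    · exact glu_not_Z_true hm (by push_cast at h1; omega)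
    · push_cast at h1 h2 h3 h4 ⊢; omega
    · exact glu_not_Z_false hm (by push_cast at h1; omega)
    · rw [show ((20 * m : ℕ) : ℤ) + 1 - m - 4 * ρ - ((20 * m : ℕ) + 1 - m - 8 * ρ) = 4 * ρ by ring]
      push_cast
      exact hc1 _ _ (by omega) (by omega) (hk4 _ (by omega))
  · refine gluGood_LR (glu_sub_LR (fun X Y h1 h2 h3 h4 => ⟨glu_Om_true' ?_, ?_⟩)
      (fun X Y h1 h2 h3 h4 => ⟨glu_Om_false' ?_, ?_⟩)) ?_
    · push_cast at h1 h2 h3 h4 ⊢; omega
    · exact glu_not_Z_true hm (by push_cast at h1; omega)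
    · push_cast at h1 h2 h3 h4 ⊢; omega
    · exact glu_not_Z_false hm (by push_cast at h1; omega)
    · rw [show ((20 * m : ℕ) : ℤ) + 1 + m + 8 * ρ - ((20 * m : ℕ) + 1 + m + 4 * ρ) = 4 * ρ by ring]
      push_cast
      exact hc1 _ _ (by omega) (by omega) (hk4 _ (by omega))
  · refine gluGood_TB (glu_sub_TB (fun X Y h1 h2 h3 h4 => ⟨glu_Om_true' ?_, ?_⟩)
      (fun X Y h1 h2 h3 h4 => ⟨glu_Om_false' ?_, ?_⟩)) ?_
    · push_cast at h1 h2 h3 h4 ⊢; omega
    · exact glu_not_Z_true hm (by push_cast at h1; omega)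
    · push_cast at h1 h2 h3 h4 ⊢; omega
    · exact glu_not_Z_false hm (by push_cast at h1; omega)
    · rw [show ((20 * m : ℕ) : ℤ) + 1 + m + 8 * ρ - ((20 * m : ℕ) + 1 + m + 4 * ρ) = 4 * ρ by ring]
      push_cast
      exact hc1 _ _ (by omega) (by omega) (hk4 _ (by omega))
  · refine gluGood_TB (glu_sub_TB (fun X Y h1 h2 h3 h4 => ⟨glu_Om_true' ?_, ?_⟩)
      (fun X Y h1 h2 h3 h4 => ⟨glu_Om_false' ?_, ?_⟩)) ?_
    · push_cast at h1 h2 h3 h4 ⊢; omega
    · exact glu_not_Z_true hm (by push_cast at h1; omega)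
    · push_cast at h1 h2 h3 h4 ⊢; omega
    · exact glu_not_Z_false hm (by push_cast at h1; omega)
    · rw [show ((20 * m : ℕ) : ℤ) + 1 + m + 8 * ρ - ((20 * m : ℕ) + 1 + m + 4 * ρ) = 4 * ρ by ring]
      push_cast
      exact hc1 _ _ (by omega) (by omega) (hk4 _ (by omega))

/-- gluing in the cylinder: `P(EV) ≤ K m^(-1/4)` -/
theorem glue_cyl (B : ℕ) : ∃ K : ℝ, 0 < K ∧ ∀ (m ρ : ℕ) (c : ℤ) (s : Fin 4) (c' f0 : ℤ),
    Geo B m ρ c s c' → (f0 = 0 ∨ f0 = -1) →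
    Pr (fun _ => 1 / 2) (EU m ρ c s c') (EV m ρ c s c' (f0, f0)) ≤ K * (m:ℝ) ^ (-(1/4 : ℝ)) := by
  obtain ⟨c1, hc1, hlong⟩ := glu_hh_long' (40 * B + 40)
  obtain ⟨_, C, -, hpv⟩ := Pool.Agent.H988R3.pval_bounds
  refine ⟨(|C| + 1) / c1 ^ 8, by positivity, fun m ρ c s c' f0 hG hf => ?_⟩
  have hρ := hG.ρpos
  have hm := hG.small
  have hm1 : 1 ≤ m := by omega
  have ok : Ok (fun _ : Edg => (1 / 2 : ℝ)) := okq (by norm_num) (by norm_num)
  set S := Pool.Agent.H974R3.SS (20 * m) (60 * m) with hS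
  set Kf := glu_K (20 * m) (60 * m) m ρ c with hKf
  set Ω := glu_Om (20 * m) (60 * m) m ρ c with hΩ
  set un := glu_un S Kf (glu_sh (20 * m)) with hun
  have hgood := glu_L_good hG hlong
  -- locality
  have e1 : Pr (fun _ => (1 / 2 : ℝ)) (EU m ρ c s c') (EV m ρ c s c' (f0, f0)) =
      Pr (fun _ => (1 / 2 : ℝ)) S (EV m ρ c s c' (f0, f0)) :=
    (Pr_local (glu_sub_SS hG) (fun F _ => glu_EV_local F)).symm
  have e2 := glu_transfer (glu_K_sub (n := 20 * m) (M := 60 * m) (m := m) (ρ := ρ) (c := c))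
    (glu_sh (20 * m)) (glu_disj (20 * m) (60 * m) m ρ c) (EV m ρ c s c' (f0, f0))
  have e3 := glu_transfer (glu_K_sub (n := 20 * m) (M := 60 * m) (m := m) (ρ := ρ) (c := c))
    (glu_sh (20 * m)) (glu_disj (20 * m) (60 * m) m ρ c)
    (fun F => Reach (cov (20 * m) S F) (0, 0) ((20 * m : ℕ) + 1 + f0, (20 * m : ℕ) + 1 + f0))
  have hcyl := cyl_bound (20 * m) (60 * m) (by omega) (by omega) f0 hf
    (fun F => Reach (cov (20 * m) S F) (0, 0) ((20 * m : ℕ) + 1 + f0, (20 * m : ℕ) + 1 + f0))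
    (fun F _ h => h)
  have hZΩ : glu_Z m ρ c ⊆ Ω := by
    intro e he
    rw [hΩ]
    unfold glu_Om
    refine Finset.mem_union_left _ (Finset.mem_sdiff.2 ⟨?_, fun h => ?_⟩)
    · exact glu_sub_SS hG (Finset.mem_union_left _ (glu_Z_sub_open he))
    · exact (glu_mem_K.1 h).2 (glu_open_U (glu_Z_sub_open he))
  have hH := glu_cond_harris ok hZΩ (A := fun w => EV m ρ c s c' (f0, f0) (un w))
    (G := fun w => ∀ A ∈ glu_L m ρ c, A w)
    (fun w w' h1 _ h3 h4 => glu_EV_mono hG h1 h3 h4)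
    (fun w w' h1 h2 h3 A hA => (hgood A hA).inc w w' h1 h2 (h3 A hA))
    (fun w hw => ⟨fun h A hA => ((hgood A hA).loc w hw).1 (h A hA),
      fun h A hA => ((hgood A hA).loc w hw).2 (h A hA)⟩)
  have hP := glu_harris_list ok hc1.le (glu_L m ρ c) (fun A hA => (hgood A hA).inc)
    (fun A hA => (hgood A hA).pr)
  have hlen : (glu_L m ρ c).length = 8 := rfl
  rw [hlen] at hP
  have hI : Pr (fun _ => (1 / 2 : ℝ)) Ω (fun w => EV m ρ c s c' (f0, f0) (un w) ∧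
      ∀ A ∈ glu_L m ρ c, A w) ≤ Pr (fun _ => (1 / 2 : ℝ)) Ω (fun w =>
        Reach (cov (20 * m) S (un w)) (0, 0)
          ((20 * m : ℕ) + 1 + f0, (20 * m : ℕ) + 1 + f0)) :=
    Pr_mono ok (fun w hw h => glu_conn hG hf hw h.1 h.2)
  have hmain : Pr (fun _ => (1 / 2 : ℝ)) S (EV m ρ c s c' (f0, f0)) * c1 ^ 8 ≤
      Pool.Agent.H974R3.pval (20 * m) := by
    have h0 := Pr_nonneg ok S (EV m ρ c s c' (f0, f0))
    calc Pr (fun _ => (1 / 2 : ℝ)) S (EV m ρ c s c' (f0, f0)) * c1 ^ 8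
        ≤ Pr (fun _ => (1 / 2 : ℝ)) S (EV m ρ c s c' (f0, f0)) *
          Pr (fun _ => (1 / 2 : ℝ)) Ω (fun w => ∀ A ∈ glu_L m ρ c, A w) :=
          mul_le_mul_of_nonneg_left hP h0
      _ ≤ _ := by rw [e2]; exact hH
      _ ≤ _ := hI
      _ = _ := e3.symm
      _ ≤ _ := hcyl
  rw [e1]
  have h5 := (hpv (20 * m)).2
  have hmr : (1 : ℝ) ≤ m := by exact_mod_cast hm1
  have h6 : (2 * ((20 * m : ℕ) : ℝ) + 1) ^ (-(1 / 4) : ℝ) ≤ (m : ℝ) ^ (-(1 / 4) : ℝ) := by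
    apply Real.rpow_le_rpow_of_nonpos (by linarith) _ (by norm_num)
    push_cast
    linarith
  have h7 : 0 ≤ (2 * ((20 * m : ℕ) : ℝ) + 1) ^ (-(1 / 4) : ℝ) := by positivity
  have h8 : 0 ≤ (m : ℝ) ^ (-(1 / 4) : ℝ) := by positivity
  have h9 : Pool.Agent.H974R3.pval (20 * m) ≤ (|C| + 1) * (m : ℝ) ^ (-(1 / 4) : ℝ) := by
    calc Pool.Agent.H974R3.pval (20 * m) ≤ C * (2 * ((20 * m : ℕ) : ℝ) + 1) ^ (-(1 / 4) : ℝ) := h5
      _ ≤ (|C| + 1) * (2 * ((20 * m : ℕ) : ℝ) + 1) ^ (-(1 / 4) : ℝ) :=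
          mul_le_mul_of_nonneg_right (by linarith [le_abs_self C]) h7
      _ ≤ _ := mul_le_mul_of_nonneg_left h6 (by positivity)
  rw [div_mul_eq_mul_div, le_div_iff₀ (by positivity)]
  exact hmain.trans h9

end H985T
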