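import Pool.Agent.H985R3.TA.Defs4
import Pool.Agent.H985R3.TA.GLU
import Pool.Agent.H985R3.TA.SYM
import Pool.Agent.H985R3.TA.IND
import Pool.Agent.H934R3.D74.Defs

/-!
# Two-arm project, task GLI (helper585): gluing inside the box of radius `a`
-/

set_option autoImplicit false

namespace H985T

open H974 Finset

/-! ### Leaving a set through a tube -/

/-- a path leaves `V0` by an edge of `T` -/
theorem gli_exit {T X : Set Edg} {V0 : Vtx → Prop} (hX : ∀ e ∈ X, ¬ V0 (src e) ∧ ¬ V0 (tgt e))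
    {u v : Vtx} (hu : V0 u) (h : Reach (T ∪ X) u v) (hv : ¬ V0 v) :
    ∃ w, ¬ V0 w ∧ Reach T u w ∧ ∃ e ∈ T, src e = w ∨ tgt e = w := by
  have key : ∀ w, Reach (T ∪ X) u w →
      (∃ w, ¬ V0 w ∧ Reach T u w ∧ ∃ e ∈ T, src e = w ∨ tgt e = w) ∨
      (V0 w ∧ Reach T u w) := by
    intro w hw
    induction hw with
    | refl => exact Or.inr ⟨hu, Reach.refl _ _⟩
    | @tail w w' _ hs ih =>
      rcases ih with ih | ⟨ih1, ih2⟩
      · exact Or.inl ih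
      · obtain ⟨e, he, hcase⟩ := hs
        have heT : e ∈ T := by
          rcases he with he | he
          · exact he
          · exfalso
            have h3 := hX e he
            rcases hcase with ⟨h1, h2⟩ | ⟨h1, h2⟩
            · rw [h1] at h3; exact h3.1 ih1
            · rw [h2] at h3; exact h3.2 ih1
        have hr : Reach T u w' := ih2.trans (Adj.reach ⟨e, heT, hcase⟩)
        by_cases hV : V0 w'
        · exact Or.inr ⟨hV, hr⟩
        · left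
          refine ⟨w', hV, hr, e, heT, ?_⟩
          rcases hcase with ⟨h1, h2⟩ | ⟨h1, h2⟩
          · exact Or.inr h2
          · exact Or.inl h1
  rcases key v h with h1 | h1
  · exact h1
  · exact absurd h1.1 hv

theorem gli_mem_An_true {a N : ℕ} {x y : ℤ} : ((x, y, true) : Edg) ∈ An a N ↔
    (-(N:ℤ) ≤ x ∧ x < N ∧ -(N:ℤ) ≤ y ∧ y ≤ N) ∧ ¬ (-(a:ℤ) ≤ x ∧ x < a ∧ -(a:ℤ) ≤ y ∧ y ≤ a) := by
  unfold An boxE
  rw [Finset.mem_sdiff, mem_RE_true, mem_RE_true]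

theorem gli_mem_An_false {a N : ℕ} {x y : ℤ} : ((x, y, false) : Edg) ∈ An a N ↔
    (-(N:ℤ) ≤ x ∧ x ≤ N ∧ -(N:ℤ) ≤ y ∧ y < N) ∧ ¬ (-(a:ℤ) ≤ x ∧ x ≤ a ∧ -(a:ℤ) ≤ y ∧ y < a) := by
  unfold An boxE
  rw [Finset.mem_sdiff, mem_RE_false, mem_RE_false]

/-- the open arm crosses the tube -/
theorem gli_open {a N ρ : ℕ} {c : ℤ} (hρ : 1 ≤ ρ) (ha : 100 * ρ ≤ a) (hc : |c| + 20 * ρ ≤ a)
    (hN : 2 * a ≤ N) {F : Set Edg} (h : Tvi a N ρ c F) :
    ∃ y1 y2 : ℤ, ∃ u', onB N u' ∧ Reach (F ∩ ↑(boxE N)) ((a:ℤ) - 8 * ρ, y1) u' ∧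
      Reach ((F ∩ ↑(boxE N)) ∩ ↑(LRE ((a:ℤ) - 8 * ρ) ((a:ℤ) - 4 * ρ) (c - ρ) (c + ρ)))
        ((a:ℤ) - 8 * ρ, y1) ((a:ℤ) - 4 * ρ, y2) := by
  obtain ⟨z2, hz, u', hu', P⟩ := h
  have hz' := abs_le.1 hz
  have hcl : -((a:ℤ) - 20 * ρ) ≤ c ∧ c ≤ (a:ℤ) - 20 * ρ := by
    have := abs_le.1 (show |c| ≤ (a:ℤ) - 20 * ρ by omega)
    exact this
  have hsub : ((F ∩ ↑(An a N ∪ tubeI a ρ c)) : Set Edg) ⊆ (F ∩ ↑(boxE N)) := by
    rintro ⟨x, y, b⟩ ⟨h1, h2⟩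
    refine ⟨h1, ?_⟩
    rw [Finset.mem_coe, Finset.mem_union] at h2
    rw [Finset.mem_coe]
    unfold tubeI at h2
    unfold boxE
    cases b
    · rw [gli_mem_An_false, mem_RE_false] at h2
      rw [mem_RE_false]
      omega
    · rw [gli_mem_An_true, mem_RE_true] at h2
      rw [mem_RE_true]
      omega
  have hsub2 : ((F ∩ ↑(tubeI a ρ c)) : Set Edg) ⊆ (F ∩ ↑(boxE N)) :=
    (Set.inter_subset_inter_right _ (by
      intro e he
      exact Finset.mem_union_right _ he)).trans hsub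
  obtain ⟨w, hw, hr, e, he, hew⟩ := gli_exit (T := F ∩ ↑(tubeI a ρ c)) (X := F ∩ ↑(An a N))
    (V0 := fun v => (-(a:ℤ) < v.1 ∧ v.1 < a) ∧ (-(a:ℤ) < v.2 ∧ v.2 < a))
    (by
      rintro ⟨x, y, b⟩ ⟨-, h2⟩
      rw [Finset.mem_coe] at h2
      cases b
      · rw [gli_mem_An_false] at h2
        simp only [src_mk, tgt_false]
        omega
      · rw [gli_mem_An_true] at h2
        simp only [src_mk, tgt_true]
        omega)
    (u := ((a:ℤ) - 10 * ρ, z2)) (by simp only; omega)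
    (P.mono (by
      rintro e ⟨h1, h2⟩
      rw [Finset.mem_coe, Finset.mem_union] at h2
      rcases h2 with h2 | h2
      · exact Or.inr ⟨h1, h2⟩
      · exact Or.inl ⟨h1, h2⟩))
    (by
      obtain ⟨h1, h2⟩ := hu'
      omega)
  have hw1 : (a:ℤ) ≤ w.1 := by
    obtain ⟨x, y, b⟩ := e
    have he2 := he.2
    rw [Finset.mem_coe] at he2
    unfold tubeI at he2
    cases b
    · rw [mem_RE_false] at he2
      simp only [src_mk, tgt_false] at hew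
      rcases hew with rfl | rfl
      · simp only at hw ⊢; omega
      · simp only at hw ⊢; omega
    · rw [mem_RE_true] at he2
      simp only [src_mk, tgt_true] at hew
      rcases hew with rfl | rfl
      · simp only at hw ⊢; omega
      · simp only at hw ⊢; omega
  obtain ⟨y1, y2, -, -, p1, p2⟩ := sub_LR (a := (a:ℤ) - 8 * ρ) (b := (a:ℤ) - 4 * ρ)
    (c := c - ρ) (d := c + ρ) (by omega)
    (by
      rintro x y ⟨-, h⟩ h1 h2
      unfold tubeI at h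
      rw [Finset.mem_coe, mem_RE_true] at h
      omega)
    (by
      rintro x y ⟨-, h⟩ h1 h2
      unfold tubeI at h
      rw [Finset.mem_coe, mem_RE_false] at h
      omega) hr (by simp only; omega) (by omega)
  exact ⟨y1, y2, u', hu', (p2.mono hsub2).symm.trans (P.mono hsub),
    p1.mono (Set.inter_subset_inter_left _ hsub2)⟩

/-! ### The dual arm -/

theorem gli_dl_true {X : Set Edg} {x y : ℤ} :
    ((x, y, true) : Edg) ∈ dl '' X ↔ ((x + 1, y, false) : Edg) ∈ X := by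
  rw [Set.mem_image_equiv, dls_t]

theorem gli_dl_false {X : Set Edg} {x y : ℤ} :
    ((x, y, false) : Edg) ∈ dl '' X ↔ ((x, y + 1, true) : Edg) ∈ X := by
  rw [Set.mem_image_equiv, dls_f]

theorem gli_nb (s : Fin 4) (N : ℕ) (w : Vtx) : nb N ((sy s).ψf w) ↔ nb N w := by
  obtain ⟨x, y⟩ := w
  unfold nb
  rcases SYM_cases s with rfl | rfl | rfl | rfl
  · rw [SYM_0f]
  · rw [SYM_1f]; simp only; omega
  · rw [SYM_2f]; simp only; omega
  · rw [SYM_3f]; simp only; omega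

theorem gli_An (s : Fin 4) (a N : ℕ) (e : Edg) : (sy s).φ e ∈ An a N ↔ e ∈ An a N := by
  unfold An
  rw [Finset.mem_sdiff, Finset.mem_sdiff, sy_mem_box, sy_mem_box]

theorem gli_path {a N ρ : ℕ} {c' : ℤ} {s : Fin 4} {F : Set Edg} (h : TfiS a N ρ s c' F) :
    ∃ w2 : ℤ, (c' - ρ ≤ w2 ∧ w2 < c' + ρ) ∧ ∃ w', nb N w' ∧
      Reach (dl '' (↑((sy s).toLSym.mp (tubeI a ρ c')) \ F) ∪ dl '' (↑(An a N) \ F))
        ((sy s).ψf ((a:ℤ) - 10 * ρ - 1, w2)) w' := by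
  obtain ⟨w2, h1, h2, w', hw', hd⟩ := h
  refine ⟨w2, ⟨h1, h2⟩, (sy s).ψf w', (gli_nb s N w').2 hw', ?_⟩
  have h3 := reach_dl.mpr (MON_dreach (sy s) hd)
  refine h3.mono ?_
  rw [← Set.image_union]
  apply Set.image_mono
  rintro _ ⟨e, ⟨he1, he2⟩, rfl⟩
  have hF : (sy s).φ e ∉ F := fun h4 => he2 ⟨(sy s).φ e, h4, sy_invol s e⟩
  rw [Finset.mem_coe, Finset.mem_union] at he1
  rcases he1 with he1 | he1
  · exact Or.inr ⟨(gli_An s a N e).2 he1, hF⟩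
  · refine Or.inl ⟨?_, hF⟩
    rw [Finset.mem_coe, LSym.mem_mp, SYM_symm, sy_invol]
    exact he1

/-- leaving the box of radius `a` through the tube -/
theorem gli_dexit {a N : ℕ} {Tb : Finset Edg} {F : Set Edg} (ha : 1 ≤ a) (hN : 2 * a ≤ N)
    {u w' : Vtx} (hu : (-(a:ℤ) ≤ u.1 ∧ u.1 < a) ∧ (-(a:ℤ) ≤ u.2 ∧ u.2 < a))
    (h : Reach (dl '' (↑Tb \ F) ∪ dl '' (↑(An a N) \ F)) u w') (hw' : nb N w') :
    ∃ w : Vtx, ¬ ((-(a:ℤ) ≤ w.1 ∧ w.1 < a) ∧ (-(a:ℤ) ≤ w.2 ∧ w.2 < a)) ∧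
      Reach (dl '' (↑Tb \ F)) u w ∧ ∃ e ∈ Tb, dsrc e = w ∨ dtgt e = w := by
  obtain ⟨w, h1, h2, e, ⟨g, hg, rfl⟩, h4⟩ := gli_exit (T := dl '' (↑Tb \ F))
    (X := dl '' (↑(An a N) \ F))
    (V0 := fun v => (-(a:ℤ) ≤ v.1 ∧ v.1 < a) ∧ (-(a:ℤ) ≤ v.2 ∧ v.2 < a))
    (by
      rintro ⟨x, y, b⟩ h2
      cases b
      · rw [gli_dl_false] at h2
        have h3 := h2.1
        rw [Finset.mem_coe, gli_mem_An_true] at h3
        simp only [src_mk, tgt_false]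
        omega
      · rw [gli_dl_true] at h2
        have h3 := h2.1
        rw [Finset.mem_coe, gli_mem_An_false] at h3
        simp only [src_mk, tgt_true]
        omega) hu h
    (by
      unfold nb at hw'
      omega)
  rw [src_dl, tgt_dl] at h4
  exact ⟨w, h1, h2, g, hg.1, h4⟩

theorem gli_hc {a ρ : ℕ} {c : ℤ} (hc : |c| + 20 * ρ ≤ a) :
    -((a:ℤ) - 20 * ρ) ≤ c ∧ c ≤ (a:ℤ) - 20 * ρ :=
  abs_le.1 (show |c| ≤ (a:ℤ) - 20 * ρ by omega)

theorem gli_tb1 (a ρ : ℕ) (c : ℤ) : (sy 1).toLSym.mp (tubeI a ρ c) =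
    RE (c - ρ) (c + ρ) ((a:ℤ) - 10 * ρ) a := by
  unfold tubeI
  exact tps_RE _ _ _ _

theorem gli_tb0 (a ρ : ℕ) (c : ℤ) : (sy 0).toLSym.mp (tubeI a ρ c) =
    RE ((a:ℤ) - 10 * ρ) a (c - ρ) (c + ρ) := by
  ext e
  rw [LSym.mem_mp, SYM_symm, SYM_0φ]
  rfl

theorem gli_tb2 (a ρ : ℕ) (c : ℤ) : (sy 2).toLSym.mp (tubeI a ρ c) =
    RE (-(a:ℤ)) (-(a:ℤ) + 10 * ρ) (-c - ρ) (-c + ρ) := by
  ext ⟨x, y, b⟩
  rw [LSym.mem_mp, SYM_symm]
  unfold tubeI
  cases b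
  · rw [SYM_2φf, mem_RE_false, mem_RE_false]
    omega
  · rw [SYM_2φt, mem_RE_true, mem_RE_true]
    omega

theorem gli_tb3 (a ρ : ℕ) (c : ℤ) : (sy 3).toLSym.mp (tubeI a ρ c) =
    RE (-c - ρ) (-c + ρ) (-(a:ℤ)) (-(a:ℤ) + 10 * ρ) := by
  ext ⟨x, y, b⟩
  rw [LSym.mem_mp, SYM_symm]
  unfold tubeI
  cases b
  · rw [SYM_3φf, mem_RE_true, mem_RE_false]
    omega
  · rw [SYM_3φt, mem_RE_false, mem_RE_true]
    omega

theorem gli_tb_sub (s : Fin 4) {a N ρ : ℕ} {c : ℤ} (ha : 100 * ρ ≤ a) (hc : |c| + 20 * ρ ≤ a)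
    (hN : 2 * a ≤ N) : (sy s).toLSym.mp (tubeI a ρ c) ⊆ boxE N := by
  intro e he
  rw [LSym.mem_mp, SYM_symm] at he
  rw [← sy_mem_box s]
  have hc' := gli_hc hc
  revert he
  generalize (sy s).φ e = e'
  intro he
  unfold tubeI at he
  unfold boxE
  obtain ⟨x, y, b⟩ := e'
  cases b
  · rw [mem_RE_false] at he ⊢
    omega
  · rw [mem_RE_true] at he ⊢
    omega

theorem gli_An_sub {a N : ℕ} : An a N ⊆ boxE N := Finset.sdiff_subset

/-- the dual configuration -/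
abbrev gli_H (N : ℕ) (F : Set Edg) : Set Edg := dl '' ((↑(boxE N) : Set Edg) \ F)

theorem gli_sub1 (s : Fin 4) {a N ρ : ℕ} {c : ℤ} (ha : 100 * ρ ≤ a) (hc : |c| + 20 * ρ ≤ a)
    (hN : 2 * a ≤ N) (F : Set Edg) :
    dl '' ((↑((sy s).toLSym.mp (tubeI a ρ c)) : Set Edg) \ F) ⊆ gli_H N F := by
  apply Set.image_mono
  rintro e ⟨h1, h2⟩
  exact ⟨gli_tb_sub s ha hc hN h1, h2⟩

theorem gli_sub2 (s : Fin 4) {a N ρ : ℕ} {c : ℤ} (ha : 100 * ρ ≤ a) (hc : |c| + 20 * ρ ≤ a)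
    (hN : 2 * a ≤ N) (F : Set Edg) :
    dl '' ((↑((sy s).toLSym.mp (tubeI a ρ c)) : Set Edg) \ F) ∪ dl '' (↑(An a N) \ F)
      ⊆ gli_H N F := by
  apply Set.union_subset (gli_sub1 s ha hc hN F)
  apply Set.image_mono
  rintro e ⟨h1, h2⟩
  exact ⟨gli_An_sub h1, h2⟩

theorem gli_dual0 {a N ρ : ℕ} {c' : ℤ} (hρ : 1 ≤ ρ) (ha : 100 * ρ ≤ a) (hc : |c'| + 20 * ρ ≤ a)
    (hN : 2 * a ≤ N) {F : Set Edg} (h : TfiS a N ρ 0 c' F) :
    ∃ t1 t2 : ℤ, ∃ w', nb N w' ∧ Reach (gli_H N F) ((a:ℤ) - 8 * ρ, t1) w' ∧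
      Reach (gli_H N F ∩ ↑(LRE ((a:ℤ) - 8 * ρ) ((a:ℤ) - 4 * ρ) (c' - ρ - 1) (c' + ρ)))
        ((a:ℤ) - 8 * ρ, t1) ((a:ℤ) - 4 * ρ, t2) := by
  have hcl := gli_hc hc
  obtain ⟨w2, hw2, w', hw', P⟩ := gli_path h
  have hs1 := gli_sub1 0 ha hc hN F
  have hs2 := gli_sub2 0 ha hc hN F
  have P' := P.mono hs2
  rw [SYM_0f] at P P'
  obtain ⟨w, hw, hr, e, he, hew⟩ := gli_dexit (by omega) hN (by simp only; omega) P hw'
  have hw1 : (a:ℤ) ≤ w.1 := by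
    obtain ⟨x, y, b⟩ := e
    rw [gli_tb0] at he
    cases b
    · rw [mem_RE_false] at he
      simp only [dsrc_false, dtgt_mk] at hew
      rcases hew with rfl | rfl
      · simp only at hw ⊢; omega
      · simp only at hw ⊢; omega
    · rw [mem_RE_true] at he
      simp only [dsrc_true, dtgt_mk] at hew
      rcases hew with rfl | rfl
      · simp only at hw ⊢; omega
      · simp only at hw ⊢; omega
  obtain ⟨y1, y2, -, -, p1, p2⟩ := sub_LR (a := (a:ℤ) - 8 * ρ) (b := (a:ℤ) - 4 * ρ)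
    (c := c' - ρ - 1) (d := c' + ρ) (by omega)
    (by
      intro x y h h1 h2
      rw [gli_dl_true, gli_tb0] at h
      have h3 := h.1
      rw [Finset.mem_coe, mem_RE_false] at h3
      omega)
    (by
      intro x y h h1 h2
      rw [gli_dl_false, gli_tb0] at h
      have h3 := h.1
      rw [Finset.mem_coe, mem_RE_true] at h3
      omega) hr (by simp only; omega) (by omega)
  exact ⟨y1, y2, w', hw', (p2.mono hs1).symm.trans P',
    p1.mono (Set.inter_subset_inter_left _ hs1)⟩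

theorem gli_dual1 {a N ρ : ℕ} {c' : ℤ} (hρ : 1 ≤ ρ) (ha : 100 * ρ ≤ a) (hc : |c'| + 20 * ρ ≤ a)
    (hN : 2 * a ≤ N) {F : Set Edg} (h : TfiS a N ρ 1 c' F) :
    ∃ t1 t2 : ℤ, ∃ w', nb N w' ∧ Reach (gli_H N F) (t1, (a:ℤ) - 8 * ρ) w' ∧
      Reach (gli_H N F ∩ ↑(TBE (c' - ρ - 1) (c' + ρ) ((a:ℤ) - 8 * ρ) ((a:ℤ) - 4 * ρ)))
        (t1, (a:ℤ) - 8 * ρ) (t2, (a:ℤ) - 4 * ρ) := by
  have hcl := gli_hc hc
  obtain ⟨w2, hw2, w', hw', P⟩ := gli_path h
  have hs1 := gli_sub1 1 ha hc hN F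
  have hs2 := gli_sub2 1 ha hc hN F
  have P' := P.mono hs2
  rw [SYM_1f] at P P'
  obtain ⟨w, hw, hr, e, he, hew⟩ := gli_dexit (by omega) hN (by simp only; omega) P hw'
  have hw1 : (a:ℤ) ≤ w.2 := by
    obtain ⟨x, y, b⟩ := e
    rw [gli_tb1] at he
    cases b
    · rw [mem_RE_false] at he
      simp only [dsrc_false, dtgt_mk] at hew
      rcases hew with rfl | rfl
      · simp only at hw ⊢; omega
      · simp only at hw ⊢; omega
    · rw [mem_RE_true] at he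
      simp only [dsrc_true, dtgt_mk] at hew
      rcases hew with rfl | rfl
      · simp only at hw ⊢; omega
      · simp only at hw ⊢; omega
  obtain ⟨y1, y2, -, -, p1, p2⟩ := sub_TB (c := (a:ℤ) - 8 * ρ) (d := (a:ℤ) - 4 * ρ)
    (a := c' - ρ - 1) (b := c' + ρ) (by omega)
    (by
      intro x y h h1 h2
      rw [gli_dl_false, gli_tb1] at h
      have h3 := h.1
      rw [Finset.mem_coe, mem_RE_true] at h3
      omega)
    (by
      intro x y h h1 h2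
      rw [gli_dl_true, gli_tb1] at h
      have h3 := h.1
      rw [Finset.mem_coe, mem_RE_false] at h3
      omega) hr (by simp only; omega) (by omega)
  exact ⟨y1, y2, w', hw', (p2.mono hs1).symm.trans P',
    p1.mono (Set.inter_subset_inter_left _ hs1)⟩

theorem gli_dual2 {a N ρ : ℕ} {c' : ℤ} (hρ : 1 ≤ ρ) (ha : 100 * ρ ≤ a) (hc : |c'| + 20 * ρ ≤ a)
    (hN : 2 * a ≤ N) {F : Set Edg} (h : TfiS a N ρ 2 c' F) :
    ∃ t1 t2 : ℤ, ∃ w', nb N w' ∧ Reach (gli_H N F) (-(a:ℤ) + 4 * ρ - 1, t1) w' ∧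
      Reach (gli_H N F ∩ ↑(LRE (-(a:ℤ) + 4 * ρ - 1) (-(a:ℤ) + 8 * ρ - 1) (-c' - ρ - 1) (-c' + ρ)))
        (-(a:ℤ) + 4 * ρ - 1, t1) (-(a:ℤ) + 8 * ρ - 1, t2) := by
  have hcl := gli_hc hc
  obtain ⟨w2, hw2, w', hw', P⟩ := gli_path h
  have hs1 := gli_sub1 2 ha hc hN F
  have hs2 := gli_sub2 2 ha hc hN F
  have P' := P.mono hs2
  rw [SYM_2f] at P P'
  obtain ⟨w, hw, hr, e, he, hew⟩ := gli_dexit (by omega) hN (by simp only; omega) P hw'
  have hw1 : w.1 < -(a:ℤ) := by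
    obtain ⟨x, y, b⟩ := e
    rw [gli_tb2] at he
    cases b
    · rw [mem_RE_false] at he
      simp only [dsrc_false, dtgt_mk] at hew
      rcases hew with rfl | rfl
      · simp only at hw ⊢; omega
      · simp only at hw ⊢; omega
    · rw [mem_RE_true] at he
      simp only [dsrc_true, dtgt_mk] at hew
      rcases hew with rfl | rfl
      · simp only at hw ⊢; omega
      · simp only at hw ⊢; omega
  obtain ⟨y1, y2, -, -, p1, p2⟩ := sub_LR (a := -(a:ℤ) + 4 * ρ - 1) (b := -(a:ℤ) + 8 * ρ - 1)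
    (c := -c' - ρ - 1) (d := -c' + ρ) (by omega)
    (by
      intro x y h h1 h2
      rw [gli_dl_true, gli_tb2] at h
      have h3 := h.1
      rw [Finset.mem_coe, mem_RE_false] at h3
      omega)
    (by
      intro x y h h1 h2
      rw [gli_dl_false, gli_tb2] at h
      have h3 := h.1
      rw [Finset.mem_coe, mem_RE_true] at h3
      omega) hr.symm (by omega) (by simp only; omega)
  exact ⟨y1, y2, w', hw', (p2.mono hs1).symm.trans ((hr.mono hs1).symm.trans P'),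
    p1.mono (Set.inter_subset_inter_left _ hs1)⟩

theorem gli_dual3 {a N ρ : ℕ} {c' : ℤ} (hρ : 1 ≤ ρ) (ha : 100 * ρ ≤ a) (hc : |c'| + 20 * ρ ≤ a)
    (hN : 2 * a ≤ N) {F : Set Edg} (h : TfiS a N ρ 3 c' F) :
    ∃ t1 t2 : ℤ, ∃ w', nb N w' ∧ Reach (gli_H N F) (t1, -(a:ℤ) + 4 * ρ - 1) w' ∧
      Reach (gli_H N F ∩ ↑(TBE (-c' - ρ - 1) (-c' + ρ) (-(a:ℤ) + 4 * ρ - 1) (-(a:ℤ) + 8 * ρ - 1)))
        (t1, -(a:ℤ) + 4 * ρ - 1) (t2, -(a:ℤ) + 8 * ρ - 1) := by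
  have hcl := gli_hc hc
  obtain ⟨w2, hw2, w', hw', P⟩ := gli_path h
  have hs1 := gli_sub1 3 ha hc hN F
  have hs2 := gli_sub2 3 ha hc hN F
  have P' := P.mono hs2
  rw [SYM_3f] at P P'
  obtain ⟨w, hw, hr, e, he, hew⟩ := gli_dexit (by omega) hN (by simp only; omega) P hw'
  have hw1 : w.2 < -(a:ℤ) := by
    obtain ⟨x, y, b⟩ := e
    rw [gli_tb3] at he
    cases b
    · rw [mem_RE_false] at he
      simp only [dsrc_false, dtgt_mk] at hew
      rcases hew with rfl | rfl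
      · simp only at hw ⊢; omega
      · simp only at hw ⊢; omega
    · rw [mem_RE_true] at he
      simp only [dsrc_true, dtgt_mk] at hew
      rcases hew with rfl | rfl
      · simp only at hw ⊢; omega
      · simp only at hw ⊢; omega
  obtain ⟨y1, y2, -, -, p1, p2⟩ := sub_TB (c := -(a:ℤ) + 4 * ρ - 1) (d := -(a:ℤ) + 8 * ρ - 1)
    (a := -c' - ρ - 1) (b := -c' + ρ) (by omega)
    (by
      intro x y h h1 h2
      rw [gli_dl_false, gli_tb3] at h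
      have h3 := h.1
      rw [Finset.mem_coe, mem_RE_true] at h3
      omega)
    (by
      intro x y h h1 h2
      rw [gli_dl_true, gli_tb3] at h
      have h3 := h.1
      rw [Finset.mem_coe, mem_RE_false] at h3
      omega) hr.symm (by omega) (by simp only; omega)
  exact ⟨y1, y2, w', hw', (p2.mono hs1).symm.trans ((hr.mono hs1).symm.trans P'),
    p1.mono (Set.inter_subset_inter_left _ hs1)⟩

/-! ### The deterministic part -/

/-- the arms of the origin in the core (open arm to the right, dual arm to the left) -/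
def gli_core (m : ℕ) (f : Vtx) (F : Set Edg) : Prop :=
  (∃ y : Vtx, y.1 = 3 * (m:ℤ) ∧ Reach (F ∩ ↑(RE (-(m:ℤ)) (3 * m) (-(m:ℤ)) m)) (0, 0) y) ∧
    ∃ g : Vtx, g.1 = -(3 * (m:ℤ)) - 1 ∧ DReach (↑(RE (-(3 * (m:ℤ))) m (-(m:ℤ)) m) \ F) f g

/-- the open corridor -/
def gli_LO (a ρ m : ℕ) (c : ℤ) : List (Finset Edg → Prop) :=
  [TBc ((a:ℤ) - 8 * ρ) ((a:ℤ) - 4 * ρ) (c - ρ) (c + ρ),
   LRc ((a:ℤ) - 20 * ρ) ((a:ℤ) - 4 * ρ) (c - ρ) (c + ρ),
   TBc ((a:ℤ) - 20 * ρ) ((a:ℤ) - 16 * ρ) (-(a:ℤ) + 16 * ρ) ((a:ℤ) - 16 * ρ),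
   LRc (2 * (m:ℤ)) ((a:ℤ) - 16 * ρ) (-(m:ℤ)) m,
   TBc (2 * (m:ℤ)) (3 * m) (-(m:ℤ)) m]

/-- the dual corridor -/
def gli_LD (a ρ m : ℕ) (c : ℤ) : List (Finset Edg → Prop) :=
  [TBc (-(a:ℤ) + 4 * ρ - 1) (-(a:ℤ) + 8 * ρ - 1) (-(a:ℤ) + 4 * ρ - 1) ((a:ℤ) - 4 * ρ),
   LRc (-(a:ℤ) + 4 * ρ - 1) ((a:ℤ) - 4 * ρ) ((a:ℤ) - 8 * ρ) ((a:ℤ) - 4 * ρ),
   LRc (-(a:ℤ) + 4 * ρ - 1) ((a:ℤ) - 4 * ρ) (-(a:ℤ) + 4 * ρ - 1) (-(a:ℤ) + 8 * ρ - 1),
   TBc ((a:ℤ) - 8 * ρ) ((a:ℤ) - 4 * ρ) (c + 3 * ρ) ((a:ℤ) - 4 * ρ),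
   TBc ((a:ℤ) - 8 * ρ) ((a:ℤ) - 4 * ρ) (-(a:ℤ) + 4 * ρ - 1) (c - 3 * ρ),
   LRc (-(a:ℤ) + 4 * ρ - 1) (-(2 * (m:ℤ))) (-(m:ℤ) - 1) m,
   TBc (-(3 * (m:ℤ))) (-(2 * (m:ℤ))) (-(m:ℤ) - 1) m]

theorem gli_det {B a N ρ m : ℕ} {c c' : ℤ} {s : Fin 4} (hG : Geoi B a N ρ c s c')
    (hm : 16 * m ≤ a) (hm1 : 1 ≤ m) {F W : Finset Edg} (hF : F ⊆ boxE N)
    (hW : (↑W : Set Edg) = gli_H N ↑F) {f : Vtx} (hf : -1 ≤ f.1)
    (hE : EVi a N ρ c s c' ↑F) (hC : gli_core m f ↑F)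
    (hO : ∀ A ∈ gli_LO a ρ m c, A F) (hD : ∀ A ∈ gli_LD a ρ m c, A W) : A2g N f ↑F := by
  have hρ := hG.ρpos
  have ha := hG.small
  have hN := hG.hN
  have hc := gli_hc hG.hc
  have hc' := gli_hc hG.hc'
  have hFN : (↑F : Set Edg) ∩ ↑(boxE N) = ↑F := Set.inter_eq_left.2 (by exact_mod_cast hF)
  unfold gli_LO at hO
  unfold gli_LD at hD
  simp only [List.forall_mem_cons] at hO hD
  obtain ⟨⟨x1, x1', -, -, r1⟩, ⟨y2, y2', -, -, r2⟩, ⟨x3, x3', -, -, r3⟩, ⟨y4, y4', -, -, r4⟩,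
    ⟨x5, x5', -, -, r5⟩, -⟩ := hO
  obtain ⟨⟨l1, l1', -, -, dL⟩, ⟨l2, l2', -, -, dT⟩, ⟨l3, l3', -, -, dB⟩, ⟨l4, l4', -, -, dU⟩,
    ⟨l5, l5', -, -, dW⟩, ⟨l6, l6', -, -, dM⟩, ⟨l7, l7', -, -, dV⟩, -⟩ := hD
  rw [hW] at dL dT dB dU dW dM dV
  constructor
  · -- the open arm
    obtain ⟨y1, y1', u', hu', P1, P2⟩ := gli_open hρ ha hG.hc hN hE.1
    rw [hFN] at P1 P2
    obtain ⟨⟨y, hy, hr⟩, -⟩ := hC
    obtain ⟨z1, z2, -, -, k1, k2⟩ := sub_LR (a := 2 * (m:ℤ)) (b := 3 * (m:ℤ))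
      (c := -(m:ℤ)) (d := (m:ℤ)) (by omega)
      (by
        rintro x y ⟨-, h⟩ h1 h2
        rw [Finset.mem_coe, mem_RE_true] at h
        omega)
      (by
        rintro x y ⟨-, h⟩ h1 h2
        rw [Finset.mem_coe, mem_RE_false] at h
        omega) hr (by simp only; omega) (by omega)
    have k1' := k1.mono (Set.inter_subset_inter_left _
      (Set.inter_subset_left : (↑F : Set Edg) ∩ ↑(RE (-(m:ℤ)) (3 * m) (-(m:ℤ)) m) ⊆ ↑F))
    have k2' := k2.mono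
      (Set.inter_subset_left : (↑F : Set Edg) ∩ ↑(RE (-(m:ℤ)) (3 * m) (-(m:ℤ)) m) ⊆ ↑F)
    have q1 := glu_meet (by omega) (by omega) (by omega) (by omega) (by omega) (by omega) P2 r1
    have q2 := glu_meet (by omega) (by omega) (by omega) (by omega) (by omega) (by omega) r2 r1
    have q3 := glu_meet (by omega) (by omega) (by omega) (by omega) (by omega) (by omega) r2 r3
    have q4 := glu_meet (by omega) (by omega) (by omega) (by omega) (by omega) (by omega) r4 r3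
    have q5 := glu_meet (by omega) (by omega) (by omega) (by omega) (by omega) (by omega) r4 r5
    have q6 := glu_meet (by omega) (by omega) (by omega) (by omega) (by omega) (by omega) k1' r5
    refine ⟨u', hu', ?_⟩
    rw [hFN]
    exact (((((((k2'.trans q6).trans q5.symm).trans q4).trans q3.symm).trans q2).trans
      q1.symm).trans P1)
  · -- the dual arm
    obtain ⟨-, g, hg, hr⟩ := hC
    have hr' := (reach_dl.mpr hr).symm
    have hsub : dl '' ((↑(RE (-(3 * (m:ℤ))) m (-(m:ℤ)) m) : Set Edg) \ ↑F) ⊆ gli_H N ↑F := by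
      apply Set.image_mono
      rintro ⟨x, y, b⟩ ⟨h1, h2⟩
      refine ⟨?_, h2⟩
      rw [Finset.mem_coe] at h1 ⊢
      unfold boxE
      cases b
      · rw [mem_RE_false] at h1 ⊢
        omega
      · rw [mem_RE_true] at h1 ⊢
        omega
    obtain ⟨z1, z2, -, -, k1, k2⟩ := sub_LR (a := -(3 * (m:ℤ))) (b := -(2 * (m:ℤ)))
      (c := -(m:ℤ) - 1) (d := (m:ℤ)) (by omega)
      (by
        intro x y h h1 h2
        rw [gli_dl_true] at h
        have h3 := h.1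
        rw [Finset.mem_coe, mem_RE_false] at h3
        omega)
      (by
        intro x y h h1 h2
        rw [gli_dl_false] at h
        have h3 := h.1
        rw [Finset.mem_coe, mem_RE_true] at h3
        omega) hr' (by omega) (by omega)
    have k1' := k1.mono (Set.inter_subset_inter_left _ hsub)
    have k2' := k2.mono hsub
    have q1 := glu_meet (by omega) (by omega) (by omega) (by omega) (by omega) (by omega) k1' dV
    have q2 := glu_meet (by omega) (by omega) (by omega) (by omega) (by omega) (by omega) dM dV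
    have q3 := glu_meet (by omega) (by omega) (by omega) (by omega) (by omega) (by omega) dM dL
    have q4 := glu_meet (by omega) (by omega) (by omega) (by omega) (by omega) (by omega) dT dL
    have q5 := glu_meet (by omega) (by omega) (by omega) (by omega) (by omega) (by omega) dB dL
    have q6 := glu_meet (by omega) (by omega) (by omega) (by omega) (by omega) (by omega) dT dU
    have q7 := glu_meet (by omega) (by omega) (by omega) (by omega) (by omega) (by omega) dB dW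
    have kL := (((((hr'.mono hsub).symm.trans k2').trans q1).trans q2.symm).trans q3)
    have kT := kL.trans q4.symm
    have kB := kL.trans q5.symm
    have kU := kT.trans q6
    have kW := kB.trans q7
    have fin : ∃ w', nb N w' ∧ Reach (gli_H N ↑F) f w' := by
      rcases SYM_cases s with rfl | rfl | rfl | rfl
      · obtain ⟨t1, t2, w', hw', P1, P2⟩ := gli_dual0 hρ ha hG.hc' hN hE.2
        have hsep := hG.sep rfl
        rcases le_abs.1 hsep with h | h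
        · have e1 := glu_meet (by omega) (by omega) (by omega) (by omega) (by omega) (by omega)
            P2 dW
          exact ⟨w', hw', (kW.trans e1.symm).trans P1⟩
        · have e1 := glu_meet (by omega) (by omega) (by omega) (by omega) (by omega) (by omega)
            P2 dU
          exact ⟨w', hw', (kU.trans e1.symm).trans P1⟩
      · obtain ⟨t1, t2, w', hw', P1, P2⟩ := gli_dual1 hρ ha hG.hc' hN hE.2
        have e1 := glu_meet (by omega) (by omega) (by omega) (by omega) (by omega) (by omega)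
          dT P2
        exact ⟨w', hw', (kT.trans e1).trans P1⟩
      · obtain ⟨t1, t2, w', hw', P1, P2⟩ := gli_dual2 hρ ha hG.hc' hN hE.2
        have e1 := glu_meet (by omega) (by omega) (by omega) (by omega) (by omega) (by omega)
          P2 dL
        exact ⟨w', hw', (kL.trans e1.symm).trans P1⟩
      · obtain ⟨t1, t2, w', hw', P1, P2⟩ := gli_dual3 hρ ha hG.hc' hN hE.2
        have e1 := glu_meet (by omega) (by omega) (by omega) (by omega) (by omega) (by omega)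
          dB P2
        exact ⟨w', hw', (kB.trans e1).trans P1⟩
    obtain ⟨w', hw', P⟩ := fin
    refine ⟨w', ?_, reach_dl.mp P⟩
    unfold outF
    unfold nb at hw'
    simp only [Set.mem_ofPred_eq]
    omega

/-! ### Monotonicity -/

/-- the edges of the open corridor -/
def gli_PO (a ρ m : ℕ) (c : ℤ) (e : Edg) : Prop :=
  ((a:ℤ) - 20 * ρ ≤ e.1 ∧ e.1 ≤ (a:ℤ) - 4 * ρ ∧ c - ρ ≤ e.2.1 ∧ e.2.1 ≤ c + ρ) ∨
    (2 * (m:ℤ) ≤ e.1 ∧ e.1 ≤ (a:ℤ) - 16 * ρ ∧ -(a:ℤ) + 16 * ρ ≤ e.2.1 ∧ e.2.1 ≤ (a:ℤ) - 16 * ρ)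

/-- the dual edges of the dual corridor -/
def gli_PD' (a ρ m : ℕ) (c : ℤ) (g : Edg) : Prop :=
  (-(a:ℤ) + 4 * ρ - 1 ≤ g.1 ∧ g.1 ≤ (a:ℤ) - 4 * ρ ∧ -(a:ℤ) + 4 * ρ - 1 ≤ g.2.1 ∧
    g.2.1 ≤ (a:ℤ) - 4 * ρ) ∧ (g.1 ≤ -(2 * (m:ℤ)) ∨ (a:ℤ) - 8 * ρ ≤ g.2.1 ∨
      g.2.1 ≤ -(a:ℤ) + 8 * ρ - 1 ∨ ((a:ℤ) - 8 * ρ ≤ g.1 ∧ (c + 3 * ρ ≤ g.2.1 ∨
        g.2.1 ≤ c - 3 * ρ)))

theorem gli_PO_PD {B a N ρ m : ℕ} {c c' : ℤ} {s : Fin 4} (hG : Geoi B a N ρ c s c')
    (hm : 16 * m ≤ a) (hm1 : 2 ≤ m) {e : Edg} (h : gli_PO a ρ m c e)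
    (h' : gli_PD' a ρ m c (dl e)) : False := by
  have hρ := hG.ρpos
  have ha := hG.small
  have hc := gli_hc hG.hc
  obtain ⟨x, y, b⟩ := e
  unfold gli_PO at h
  unfold gli_PD' at h'
  cases b
  · rw [dl_f] at h'
    simp only at h h'
    omega
  · rw [dl_t] at h'
    simp only at h h'
    omega

theorem gli_PD_open {B a N ρ m : ℕ} {c c' : ℤ} {s : Fin 4} (hG : Geoi B a N ρ c s c')
    (hm : 16 * m ≤ a) (hm1 : 2 ≤ m) {e : Edg} (h : e ∈ An a N ∪ tubeI a ρ c)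
    (h' : gli_PD' a ρ m c (dl e)) : False := by
  have hρ := hG.ρpos
  have ha := hG.small
  have hc := gli_hc hG.hc
  obtain ⟨x, y, b⟩ := e
  rw [Finset.mem_union] at h
  unfold tubeI at h
  unfold gli_PD' at h'
  cases b
  · rw [dl_f] at h'
    rw [gli_mem_An_false, mem_RE_false] at h
    simp only at h'
    omega
  · rw [dl_t] at h'
    rw [gli_mem_An_true, mem_RE_true] at h
    simp only at h'
    omega

theorem gli_PO_dual {B a N ρ m : ℕ} {c c' : ℤ} {s : Fin 4} (hG : Geoi B a N ρ c s c')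
    (hm : 16 * m ≤ a) (hm1 : 2 ≤ m) {e : Edg}
    (h : e ∈ An a N ∪ (sy s).toLSym.mp (tubeI a ρ c')) (h' : gli_PO a ρ m c e) : False := by
  have hρ := hG.ρpos
  have ha := hG.small
  have hc := gli_hc hG.hc
  have hc' := gli_hc hG.hc'
  have hsep := hG.sep
  obtain ⟨x, y, b⟩ := e
  rw [Finset.mem_union] at h
  unfold gli_PO at h'
  rcases SYM_cases s with rfl | rfl | rfl | rfl
  · have hs := le_abs.1 (hsep rfl)
    rw [gli_tb0] at h
    cases b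
    · rw [gli_mem_An_false, mem_RE_false] at h
      simp only at h'
      omega
    · rw [gli_mem_An_true, mem_RE_true] at h
      simp only at h'
      omega
  · rw [gli_tb1] at h
    cases b
    · rw [gli_mem_An_false, mem_RE_false] at h
      simp only at h'
      omega
    · rw [gli_mem_An_true, mem_RE_true] at h
      simp only at h'
      omega
  · rw [gli_tb2] at h
    cases b
    · rw [gli_mem_An_false, mem_RE_false] at h
      simp only at h'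
      omega
    · rw [gli_mem_An_true, mem_RE_true] at h
      simp only at h'
      omega
  · rw [gli_tb3] at h
    cases b
    · rw [gli_mem_An_false, mem_RE_false] at h
      simp only at h'
      omega
    · rw [gli_mem_An_true, mem_RE_true] at h
      simp only at h'
      omega

theorem gli_E_mono {B a N ρ m : ℕ} {c c' : ℤ} {s : Fin 4} (hG : Geoi B a N ρ c s c')
    (hm : 16 * m ≤ a) (hm1 : 2 ≤ m) {f : Vtx} {F F' : Set Edg}
    (h1 : ∀ e, ¬ gli_PD' a ρ m c (dl e) → e ∈ F → e ∈ F')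
    (h2 : ∀ e, ¬ gli_PO a ρ m c e → e ∈ F' → e ∈ F)
    (h : EVi a N ρ c s c' F ∧ gli_core m f F) : EVi a N ρ c s c' F' ∧ gli_core m f F' := by
  have hρ := hG.ρpos
  have ha := hG.small
  have hc := gli_hc hG.hc
  obtain ⟨⟨⟨z2, hz, u', hu', P⟩, ⟨w2, hw2, hw2', w', hw', D⟩⟩, ⟨y, hy, Q⟩, ⟨g, hg, R⟩⟩ := h
  refine ⟨⟨⟨z2, hz, u', hu', P.mono ?_⟩, ⟨w2, hw2, hw2', w', hw', D.mono ?_⟩⟩, ⟨y, hy, Q.mono ?_⟩,
    ⟨g, hg, R.mono ?_⟩⟩
  · rintro e ⟨k1, k2⟩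
    exact ⟨h1 e (fun k3 => gli_PD_open hG hm hm1 k2 k3) k1, k2⟩
  · rintro e ⟨k1, k2⟩
    refine ⟨k1, ?_⟩
    rintro ⟨e', he', rfl⟩
    apply k2
    refine ⟨e', h2 e' (fun k3 => ?_) he', rfl⟩
    refine gli_PO_dual hG hm hm1 ?_ k3
    rw [Finset.mem_coe, Finset.mem_union] at k1
    rw [Finset.mem_union]
    rcases k1 with k1 | k1
    · exact Or.inl ((gli_An s a N e').1 k1)
    · right
      rw [LSym.mem_mp, SYM_symm]
      exact k1
  · rintro ⟨x, y, b⟩ ⟨k1, k2⟩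
    refine ⟨h1 _ (fun k3 => ?_) k1, k2⟩
    rw [Finset.mem_coe] at k2
    unfold gli_PD' at k3
    cases b
    · rw [mem_RE_false] at k2
      rw [dl_f] at k3
      simp only at k3
      omega
    · rw [mem_RE_true] at k2
      rw [dl_t] at k3
      simp only at k3
      omega
  · rintro ⟨x, y, b⟩ ⟨k1, k2⟩
    refine ⟨k1, fun k4 => k2 (h2 _ (fun k3 => ?_) k4)⟩
    rw [Finset.mem_coe] at k1
    unfold gli_PO at k3
    cases b
    · rw [mem_RE_false] at k1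
      simp only at k3
      omega
    · rw [mem_RE_true] at k1
      simp only at k3
      omega

/-! ### Flipping -/

/-- inverse of `dmp` -/
def gli_dmi (W : Finset Edg) : Finset Edg := W.map dl.symm.toEmbedding

theorem gli_mem_dmi {W : Finset Edg} {e : Edg} : e ∈ gli_dmi W ↔ dl e ∈ W := by
  unfold gli_dmi
  simp only [Finset.mem_map, Equiv.coe_toEmbedding]
  constructor
  · rintro ⟨a, ha, rfl⟩; simpa using ha
  · intro h; exact ⟨_, h, by simp⟩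

theorem gli_flip (S : Finset Edg) (A : Finset Edg → Prop) :
    Pr (fun _ => (1 / 2 : ℝ)) (dmp S) A =
      Pr (fun _ => (1 / 2 : ℝ)) S (fun F => A (dmp (S \ F))) := by
  rw [pr_dmp]
  have h := Pr_compl (fun _ : Edg => (1 / 2 : ℝ)) S (fun F => A (dmp F))
  have e : (fun _ : Edg => (1 : ℝ) - 1 / 2) = fun _ => 1 / 2 := by
    funext
    norm_num
  rw [e] at h
  exact h

theorem gli_flip' (S : Finset Edg) (A : Finset Edg → Prop) :
    Pr (fun _ => (1 / 2 : ℝ)) (dmp S) (fun W => A (S \ gli_dmi W)) =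
      Pr (fun _ => (1 / 2 : ℝ)) S A := by
  rw [gli_flip]
  apply Pr_congr
  intro F hF
  have : S \ gli_dmi (dmp (S \ F)) = F := by
    ext e
    rw [Finset.mem_sdiff, gli_mem_dmi, mem_dmp, Equiv.symm_apply_apply, Finset.mem_sdiff]
    constructor
    · rintro ⟨h1, h2⟩
      by_contra h3
      exact h2 ⟨h1, h3⟩
    · intro h1
      exact ⟨hF h1, fun h2 => h2.2 h1⟩
  rw [this]

/-! ### The four faces at the origin -/

/-- reflection `x ↦ -x` -/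
def gli_rx : DSym where
  toLSym := rfx 0
  ψf := { toFun := fun u => (-u.1 - 1, u.2)
          invFun := fun u => (-u.1 - 1, u.2)
          left_inv := by intro e; simp
          right_inv := by intro e; simp }
  dcompat := by
    rintro ⟨x, y, _ | _⟩
    · right; simp
    · left; simp

theorem gli_rx_t (x y : ℤ) : gli_rx.φ (x, y, true) = (0 - x - 1, y, true) := rfl
theorem gli_rx_f (x y : ℤ) : gli_rx.φ (x, y, false) = (0 - x, y, false) := rfl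
theorem gli_rx_v (x y : ℤ) : gli_rx.ψ (x, y) = (0 - x, y) := rfl
theorem gli_rx_d (x y : ℤ) : gli_rx.ψf (x, y) = (-x - 1, y) := rfl

theorem gli_rx_invol (e : Edg) : gli_rx.φ (gli_rx.φ e) = e := by
  obtain ⟨x, y, _ | _⟩ := e
  · rw [gli_rx_f, gli_rx_f]
    simp
  · rw [gli_rx_t, gli_rx_t]
    simp

theorem gli_rx_box (N : ℕ) (e : Edg) : gli_rx.φ e ∈ boxE N ↔ e ∈ boxE N := by
  unfold boxE
  obtain ⟨x, y, _ | _⟩ := e
  · rw [gli_rx_f, mem_RE_false, mem_RE_false]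
    omega
  · rw [gli_rx_t, mem_RE_true, mem_RE_true]
    omega

theorem gli_refl (N : ℕ) (f : Vtx) {F : Set Edg} (h : A2g N f F) :
    A2g N (gli_rx.ψf f) (gli_rx.φ '' F) := by
  obtain ⟨⟨u, hu, hr⟩, w, hw, hd⟩ := h
  constructor
  · refine ⟨gli_rx.ψ u, ?_, ?_⟩
    · obtain ⟨x, y⟩ := u
      rw [gli_rx_v]
      unfold onB inR at hu ⊢
      simp only at hu ⊢
      omega
    · have h1 := gli_rx.toLSym.reach hr
      have h2 : gli_rx.toLSym.ψ (0, 0) = ((0, 0) : Vtx) := by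
        rw [gli_rx_v]
        simp
      rw [h2] at h1
      refine h1.mono ?_
      rintro _ ⟨e, ⟨he1, he2⟩, rfl⟩
      exact ⟨⟨e, he1, rfl⟩, (gli_rx_box N e).2 he2⟩
  · refine ⟨gli_rx.ψf w, ?_, ?_⟩
    · obtain ⟨x, y⟩ := w
      rw [gli_rx_d]
      unfold outF at hw ⊢
      simp only [Set.mem_ofPred_eq] at hw ⊢
      omega
    · have h1 := MON_dreach gli_rx hd
      refine h1.mono ?_
      rintro _ ⟨e, ⟨he1, he2⟩, rfl⟩
      refine ⟨(gli_rx_box N e).2 he1, ?_⟩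
      rintro ⟨e', he', heq⟩
      exact he2 (gli_rx.φ.injective heq ▸ he')

theorem gli_refl_pr (N : ℕ) (f : Vtx) :
    Pr (fun _ => (1 / 2 : ℝ)) (boxE N) (fun F => A2g N (gli_rx.ψf f) ↑F) =
      Pr (fun _ => (1 / 2 : ℝ)) (boxE N) (fun F => A2g N f ↑F) := by
  have hb : gli_rx.toLSym.mp (boxE N) = boxE N := by
    ext e
    rw [LSym.mem_mp]
    have h1 : gli_rx.toLSym.φ.symm e = gli_rx.φ e := by
      rw [Equiv.symm_apply_eq]
      exact (gli_rx_invol e).symm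
    rw [h1]
    exact gli_rx_box N e
  have h1 := gli_rx.toLSym.pr (1 / 2) (boxE N) (fun F => A2g N (gli_rx.ψf f) ↑F)
  rw [hb] at h1
  rw [h1]
  apply Pr_congr
  intro F _
  rw [LSym.coe_mp]
  constructor
  · intro h
    have h2 := gli_refl N _ h
    have h3 : gli_rx.φ '' (gli_rx.φ '' (↑F : Set Edg)) = ↑F := by
      rw [Set.image_image]
      simp only [gli_rx_invol, Set.image_id']
    have h4 : gli_rx.ψf (gli_rx.ψf f) = f := by
      obtain ⟨x, y⟩ := f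
      rw [gli_rx_d, gli_rx_d]
      simp
    rw [h3, h4] at h2
    exact h2
  · exact gli_refl N f

theorem gli_pi2 (N : ℕ) {f : Vtx} (hf1 : f.1 = 0 ∨ f.1 = -1) (hf2 : f.2 = 0 ∨ f.2 = -1) :
    Pr (fun _ => (1 / 2 : ℝ)) (boxE N) (fun F => A2g N f ↑F) = pi2 N := by
  obtain ⟨x, y⟩ := f
  simp only at hf1 hf2
  rcases hf1 with rfl | rfl <;> rcases hf2 with rfl | rfl
  · exact IND_pi2 N (Or.inl rfl)
  · have h1 := gli_refl_pr N (-1, -1)
    rw [gli_rx_d] at h1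
    have h2 : ((-(-1) - 1, -1) : Vtx) = (0, -1) := by norm_num
    rw [h2] at h1
    rw [h1]
    exact IND_pi2 N (Or.inr rfl)
  · have h1 := gli_refl_pr N (0, 0)
    rw [gli_rx_d] at h1
    have h2 : ((-0 - 1, 0) : Vtx) = (-1, 0) := by norm_num
    rw [h2] at h1
    rw [h1]
    exact IND_pi2 N (Or.inl rfl)
  · exact IND_pi2 N (Or.inr rfl)

/-! ### The corridors -/

open Classical in
/-- the edges of the box outside of the open corridor -/
noncomputable def gli_ZO (a N ρ m : ℕ) (c : ℤ) : Finset Edg :=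
  (boxE N).filter (fun e => ¬ gli_PO a ρ m c e)

open Classical in
/-- the dual edges of the box outside of the dual corridor -/
noncomputable def gli_ZD (a N ρ m : ℕ) (c : ℤ) : Finset Edg :=
  (dmp (boxE N)).filter (fun e => ¬ gli_PD' a ρ m c e)

theorem gli_mem_ZO {a N ρ m : ℕ} {c : ℤ} {e : Edg} :
    e ∈ gli_ZO a N ρ m c ↔ e ∈ boxE N ∧ ¬ gli_PO a ρ m c e := by
  classical
  unfold gli_ZO
  rw [Finset.mem_filter]

theorem gli_mem_ZD {a N ρ m : ℕ} {c : ℤ} {e : Edg} :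
    e ∈ gli_ZD a N ρ m c ↔ e ∈ dmp (boxE N) ∧ ¬ gli_PD' a ρ m c e := by
  classical
  unfold gli_ZD
  rw [Finset.mem_filter]

theorem gli_subO {a N ρ m : ℕ} {c : ℤ} {p q r t : ℤ}
    (h : ∀ X Y : ℤ, p ≤ X → X ≤ q → r ≤ Y → Y ≤ t →
      (-(N:ℤ) ≤ X ∧ X < N ∧ -(N:ℤ) ≤ Y ∧ Y < N) ∧
        ((((a:ℤ) - 20 * ρ ≤ X ∧ X ≤ (a:ℤ) - 4 * ρ ∧ c - ρ ≤ Y ∧ Y ≤ c + ρ) ∨
    (2 * (m:ℤ) ≤ X ∧ X ≤ (a:ℤ) - 16 * ρ ∧ -(a:ℤ) + 16 * ρ ≤ Y ∧ Y ≤ (a:ℤ) - 16 * ρ)))) :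
    RE p q r t ⊆ boxE N \ gli_ZO a N ρ m c := by
  rintro ⟨X, Y, _ | _⟩ he
  · rw [mem_RE_false] at he
    obtain ⟨h1, h2⟩ := h X Y (by omega) (by omega) (by omega) (by omega)
    have h3 : ((X, Y, false) : Edg) ∈ boxE N := by
      unfold boxE
      rw [mem_RE_false]
      omega
    rw [Finset.mem_sdiff, gli_mem_ZO]
    exact ⟨h3, fun h4 => h4.2 h2⟩
  · rw [mem_RE_true] at he
    obtain ⟨h1, h2⟩ := h X Y (by omega) (by omega) (by omega) (by omega)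
    have h3 : ((X, Y, true) : Edg) ∈ boxE N := by
      unfold boxE
      rw [mem_RE_true]
      omega
    rw [Finset.mem_sdiff, gli_mem_ZO]
    exact ⟨h3, fun h4 => h4.2 h2⟩

theorem gli_subD {a N ρ m : ℕ} {c : ℤ} {p q r t : ℤ}
    (h : ∀ X Y : ℤ, p ≤ X → X ≤ q → r ≤ Y → Y ≤ t →
      (-(N:ℤ) ≤ X ∧ X < N ∧ -(N:ℤ) ≤ Y ∧ Y < N) ∧
        ((-(a:ℤ) + 4 * ρ - 1 ≤ X ∧ X ≤ (a:ℤ) - 4 * ρ ∧ -(a:ℤ) + 4 * ρ - 1 ≤ Y ∧
    Y ≤ (a:ℤ) - 4 * ρ) ∧ (X ≤ -(2 * (m:ℤ)) ∨ (a:ℤ) - 8 * ρ ≤ Y ∨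
      Y ≤ -(a:ℤ) + 8 * ρ - 1 ∨ ((a:ℤ) - 8 * ρ ≤ X ∧ (c + 3 * ρ ≤ Y ∨
        Y ≤ c - 3 * ρ))))) :
    RE p q r t ⊆ dmp (boxE N) \ gli_ZD a N ρ m c := by
  rintro ⟨X, Y, _ | _⟩ he
  · rw [mem_RE_false] at he
    obtain ⟨h1, h2⟩ := h X Y (by omega) (by omega) (by omega) (by omega)
    have h3 : ((X, Y, false) : Edg) ∈ dmp (boxE N) := by
      unfold boxE
      rw [mem_dmp, dls_f, mem_RE_true]
      omega
    rw [Finset.mem_sdiff, gli_mem_ZD]
    exact ⟨h3, fun h4 => h4.2 h2⟩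
  · rw [mem_RE_true] at he
    obtain ⟨h1, h2⟩ := h X Y (by omega) (by omega) (by omega) (by omega)
    have h3 : ((X, Y, true) : Edg) ∈ dmp (boxE N) := by
      unfold boxE
      rw [mem_dmp, dls_t, mem_RE_false]
      omega
    rw [Finset.mem_sdiff, gli_mem_ZD]
    exact ⟨h3, fun h4 => h4.2 h2⟩

theorem gli_LO_good {B a N ρ m : ℕ} {c c' : ℤ} {s : Fin 4} (hG : Geoi B a N ρ c s c')
    (hm : 16 * m ≤ a) (hm2 : a ≤ 16 * m + 15) (hm1 : 2 ≤ m) {c1 : ℝ}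
    (hc1 : ∀ w h : ℤ, 0 < w → 1 ≤ h → w ≤ ((40 * B + 40 : ℕ) : ℤ) * h → c1 ≤ hh (1 / 2) w h) :
    ∀ A ∈ gli_LO a ρ m c, GluGood (boxE N) (gli_ZO a N ρ m c) c1 A := by
  have hρ := hG.ρpos
  have ha := hG.small
  have hN := hG.hN
  have hc := gli_hc hG.hc
  have hB : (a : ℤ) ≤ B * ρ := by exact_mod_cast hG.big
  have hk : ∀ w h : ℤ, 2 * (ρ : ℤ) ≤ h → w ≤ 4 * a + 16 * ρ → w ≤ ((40 * B + 40 : ℕ) : ℤ) * h := by
    intro w h h1 h2
    have e : ((40 * B + 40 : ℕ) : ℤ) * (2 * ρ) = 80 * (B * ρ) + 80 * ρ := by push_cast; ring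
    have e1 : ((40 * B + 40 : ℕ) : ℤ) * (2 * ρ) ≤ ((40 * B + 40 : ℕ) : ℤ) * h :=
      mul_le_mul_of_nonneg_left h1 (by positivity)
    omega
  have hkm : ∀ w h : ℤ, (m : ℤ) ≤ h → w ≤ a → w ≤ ((40 * B + 40 : ℕ) : ℤ) * h := by
    intro w h h1 h2
    have e1 : (40 : ℤ) * h ≤ ((40 * B + 40 : ℕ) : ℤ) * h :=
      mul_le_mul_of_nonneg_right (by push_cast; omega) (by omega)
    omega
  unfold gli_LO
  simp only [List.forall_mem_cons, List.not_mem_nil, false_implies, implies_true, and_true]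
  refine ⟨?_, ?_, ?_, ?_, ?_⟩
  · refine gluGood_TB (TBE_subset_RE.trans (gli_subO ?_)) (hc1 _ _ ?_ ?_ (hk _ _ ?_ ?_))
    · intro X Y h1 h2 h3 h4; omega
    all_goals omega
  · refine gluGood_LR (LRE_subset_RE.trans (gli_subO ?_)) (hc1 _ _ ?_ ?_ (hk _ _ ?_ ?_))
    · intro X Y h1 h2 h3 h4; omega
    all_goals omega
  · refine gluGood_TB (TBE_subset_RE.trans (gli_subO ?_)) (hc1 _ _ ?_ ?_ (hk _ _ ?_ ?_))
    · intro X Y h1 h2 h3 h4; omega
    all_goals omega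
  · refine gluGood_LR (LRE_subset_RE.trans (gli_subO ?_)) (hc1 _ _ ?_ ?_ (hkm _ _ ?_ ?_))
    · intro X Y h1 h2 h3 h4; omega
    all_goals omega
  · refine gluGood_TB (TBE_subset_RE.trans (gli_subO ?_)) (hc1 _ _ ?_ ?_ (hkm _ _ ?_ ?_))
    · intro X Y h1 h2 h3 h4; omega
    all_goals omega

theorem gli_LD_good {B a N ρ m : ℕ} {c c' : ℤ} {s : Fin 4} (hG : Geoi B a N ρ c s c')
    (hm : 16 * m ≤ a) (hm2 : a ≤ 16 * m + 15) (hm1 : 2 ≤ m) {c1 : ℝ}
    (hc1 : ∀ w h : ℤ, 0 < w → 1 ≤ h → w ≤ ((40 * B + 40 : ℕ) : ℤ) * h → c1 ≤ hh (1 / 2) w h) :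
    ∀ A ∈ gli_LD a ρ m c, GluGood (dmp (boxE N)) (gli_ZD a N ρ m c) c1 A := by
  have hρ := hG.ρpos
  have ha := hG.small
  have hN := hG.hN
  have hc := gli_hc hG.hc
  have hB : (a : ℤ) ≤ B * ρ := by exact_mod_cast hG.big
  have hk : ∀ w h : ℤ, 2 * (ρ : ℤ) ≤ h → w ≤ 4 * a + 16 * ρ → w ≤ ((40 * B + 40 : ℕ) : ℤ) * h := by
    intro w h h1 h2
    have e : ((40 * B + 40 : ℕ) : ℤ) * (2 * ρ) = 80 * (B * ρ) + 80 * ρ := by push_cast; ring
    have e1 : ((40 * B + 40 : ℕ) : ℤ) * (2 * ρ) ≤ ((40 * B + 40 : ℕ) : ℤ) * h :=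
      mul_le_mul_of_nonneg_left h1 (by positivity)
    omega
  have hkm : ∀ w h : ℤ, (m : ℤ) ≤ h → w ≤ a → w ≤ ((40 * B + 40 : ℕ) : ℤ) * h := by
    intro w h h1 h2
    have e1 : (40 : ℤ) * h ≤ ((40 * B + 40 : ℕ) : ℤ) * h :=
      mul_le_mul_of_nonneg_right (by push_cast; omega) (by omega)
    omega
  unfold gli_LD
  simp only [List.forall_mem_cons, List.not_mem_nil, false_implies, implies_true, and_true]
  refine ⟨?_, ?_, ?_, ?_, ?_, ?_, ?_⟩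
  · refine gluGood_TB (TBE_subset_RE.trans (gli_subD ?_)) (hc1 _ _ ?_ ?_ (hk _ _ ?_ ?_))
    · intro X Y h1 h2 h3 h4; omega
    all_goals omega
  · refine gluGood_LR (LRE_subset_RE.trans (gli_subD ?_)) (hc1 _ _ ?_ ?_ (hk _ _ ?_ ?_))
    · intro X Y h1 h2 h3 h4; omega
    all_goals omega
  · refine gluGood_LR (LRE_subset_RE.trans (gli_subD ?_)) (hc1 _ _ ?_ ?_ (hk _ _ ?_ ?_))
    · intro X Y h1 h2 h3 h4; omega
    all_goals omega
  · refine gluGood_TB (TBE_subset_RE.trans (gli_subD ?_)) (hc1 _ _ ?_ ?_ (hk _ _ ?_ ?_))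
    · intro X Y h1 h2 h3 h4; omega
    all_goals omega
  · refine gluGood_TB (TBE_subset_RE.trans (gli_subD ?_)) (hc1 _ _ ?_ ?_ (hk _ _ ?_ ?_))
    · intro X Y h1 h2 h3 h4; omega
    all_goals omega
  · refine gluGood_LR (LRE_subset_RE.trans (gli_subD ?_)) (hc1 _ _ ?_ ?_ (hkm _ _ ?_ ?_))
    · intro X Y h1 h2 h3 h4; omega
    all_goals omega
  · refine gluGood_TB (TBE_subset_RE.trans (gli_subD ?_)) (hc1 _ _ ?_ ?_ (hkm _ _ ?_ ?_))
    · intro X Y h1 h2 h3 h4; omega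
    all_goals omega

/-! ### Assembly -/

theorem gli_core_of_Sep {m : ℕ} {σ : Bool × Bool} {F : Finset Edg}
    (h : H934F.SepArms σ m ((sy 2).toLSym.mp F)) :
    gli_core m ((sy 2).ψf (H934E.cface (0, 0) σ)) ↑F := by
  obtain ⟨⟨y, hy, hr⟩, g, hg, hd⟩ := h
  constructor
  · refine ⟨(sy 2).ψ y, ?_, ?_⟩
    · obtain ⟨y1, y2⟩ := y
      rw [SYM_2ψ]
      simp only at hy ⊢
      push_cast at hy
      omega
    · have h1 := (sy 2).toLSym.reach hr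
      have h2 : (sy 2).toLSym.ψ (0, 0) = ((0, 0) : Vtx) := by
        rw [SYM_2ψ]
        simp
      rw [h2] at h1
      refine h1.mono ?_
      rintro _ ⟨e, ⟨he1, he2⟩, rfl⟩
      rw [LSym.coe_mp] at he1
      obtain ⟨e', he', rfl⟩ := he1
      rw [sy_invol]
      refine ⟨he', ?_⟩
      rw [Finset.mem_coe] at he2 ⊢
      obtain ⟨x, y, b⟩ := e'
      cases b
      · rw [SYM_2φf, mem_RE_false] at he2
        rw [mem_RE_false]
        push_cast at he2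
        omega
      · rw [SYM_2φt, mem_RE_true] at he2
        rw [mem_RE_true]
        push_cast at he2
        omega
  · refine ⟨(sy 2).ψf g, ?_, ?_⟩
    · obtain ⟨g1, g2⟩ := g
      rw [SYM_2f]
      simp only at hg ⊢
      push_cast at hg
      omega
    · have h1 := MON_dreach (sy 2) hd
      refine h1.mono ?_
      rintro _ ⟨e, he, rfl⟩
      rw [Finset.mem_coe, Finset.mem_sdiff] at he
      refine ⟨?_, ?_⟩
      · have he1 := he.1
        rw [Finset.mem_coe]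
        obtain ⟨x, y, b⟩ := e
        cases b
        · rw [mem_RE_false] at he1
          rw [SYM_2φf, mem_RE_false]
          push_cast at he1
          omega
        · rw [mem_RE_true] at he1
          rw [SYM_2φt, mem_RE_true]
          push_cast at he1
          omega
      · intro h2
        apply he.2
        rw [LSym.mem_mp, SYM_symm]
        exact h2

theorem gli_core_local {m : ℕ} {f : Vtx} {F S : Finset Edg}
    (hS : RE (-(3 * (m:ℤ))) (3 * m) (-(m:ℤ)) m ⊆ S) :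
    gli_core m f (↑F : Set Edg) ↔ gli_core m f (↑(F ∩ S) : Set Edg) := by
  have s1 : RE (-(m:ℤ)) (3 * m) (-(m:ℤ)) m ⊆ S := by
    refine Finset.Subset.trans ?_ hS
    rintro ⟨x, y, b⟩ h
    cases b
    · rw [mem_RE_false] at h ⊢
      omega
    · rw [mem_RE_true] at h ⊢
      omega
  have s2 : RE (-(3 * (m:ℤ))) m (-(m:ℤ)) m ⊆ S := by
    refine Finset.Subset.trans ?_ hS
    rintro ⟨x, y, b⟩ h
    cases b
    · rw [mem_RE_false] at h ⊢
      omega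
    · rw [mem_RE_true] at h ⊢
      omega
  have h1 : ((↑F : Set Edg) ∩ ↑(RE (-(m:ℤ)) (3 * m) (-(m:ℤ)) m)) =
      ((↑(F ∩ S) : Set Edg) ∩ ↑(RE (-(m:ℤ)) (3 * m) (-(m:ℤ)) m)) := (coe_inter_eq s1).symm
  have h2 : ((↑(RE (-(3 * (m:ℤ))) m (-(m:ℤ)) m) : Set Edg) \ ↑F) =
      ((↑(RE (-(3 * (m:ℤ))) m (-(m:ℤ)) m) : Set Edg) \ ↑(F ∩ S)) := by
    ext e
    rw [Set.mem_sdiff, Set.mem_sdiff, Finset.mem_coe, Finset.mem_coe, Finset.mem_coe,
      Finset.mem_inter]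
    constructor
    · rintro ⟨h1, h2⟩
      exact ⟨h1, fun h3 => h2 h3.1⟩
    · rintro ⟨h1, h2⟩
      exact ⟨h1, fun h3 => h2 ⟨h3, s2 h1⟩⟩
  unfold gli_core
  rw [h1, h2]

theorem gli_EVi_local {a N ρ : ℕ} {c c' : ℤ} {s : Fin 4} (F : Finset Edg) :
    EVi a N ρ c s c' (↑F : Set Edg) ↔ EVi a N ρ c s c' (↑(F ∩ EUi a N ρ c s c') : Set Edg) := by
  have s1 : An a N ∪ tubeI a ρ c ⊆ EUi a N ρ c s c' := Finset.subset_union_left
  have h1 : ((↑F : Set Edg) ∩ ↑(An a N ∪ tubeI a ρ c)) =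
      ((↑(F ∩ EUi a N ρ c s c') : Set Edg) ∩ ↑(An a N ∪ tubeI a ρ c)) := (coe_inter_eq s1).symm
  have h2 : ((↑(An a N ∪ tubeI a ρ c') : Set Edg) \ (sy s).φ '' ↑F) =
      ((↑(An a N ∪ tubeI a ρ c') : Set Edg) \ (sy s).φ '' ↑(F ∩ EUi a N ρ c s c')) := by
    ext e
    rw [Set.mem_sdiff, Set.mem_sdiff]
    constructor
    · rintro ⟨h1, h2⟩
      refine ⟨h1, ?_⟩
      rintro ⟨e', he', rfl⟩
      rw [Finset.coe_inter] at he'
      exact h2 ⟨e', he'.1, rfl⟩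
    · rintro ⟨h1, h2⟩
      refine ⟨h1, ?_⟩
      rintro ⟨e', he', rfl⟩
      apply h2
      refine ⟨e', ?_, rfl⟩
      rw [Finset.coe_inter]
      refine ⟨he', ?_⟩
      rw [Finset.mem_coe, Finset.mem_union] at h1
      rw [Finset.mem_coe]
      unfold EUi
      rw [Finset.mem_union, Finset.mem_union]
      rcases h1 with h1 | h1
      · exact Or.inl (Or.inl ((gli_An s a N e').1 h1))
      · right
        rw [LSym.mem_mp, SYM_symm]
        exact h1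
  unfold EVi Tvi TfiS Tfi
  rw [h1, h2]

/-- gluing with the separated arms of the origin in the box of radius `a/16` -/
theorem glue_in_of (hpi : ∃ C : ℝ, 0 < C ∧ ∀ m : ℕ, 1 ≤ m → pi2 m ≤ C * (m:ℝ) ^ (-(1/4 : ℝ)))
    (hL : H934F.St_L) (B : ℕ) : ∃ K : ℝ, 0 < K ∧ ∀ (a N ρ : ℕ) (c : ℤ) (s : Fin 4)
    (c' : ℤ), Geoi B a N ρ c s c' →
    H12S.PQ (1 / 2) (EUi a N ρ c s c') (fun F => EVi a N ρ c s c' ↑F) ≤
      K * ((a:ℝ) / N) ^ (1/4 : ℝ) := by
  obtain ⟨c1, hc1, hlong⟩ := glu_hh_long' (40 * B + 40)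
  obtain ⟨C, hC, hpi⟩ := hpi
  obtain ⟨c0, σ, hc0, hL⟩ := hL
  refine ⟨C / (c0 * (c1 ^ 5 * c1 ^ 7)), by positivity, fun a N ρ c s c' hG => ?_⟩
  have hρ := hG.ρpos
  have ha := hG.small
  have hN := hG.hN
  have hcc := gli_hc hG.hc
  have hcc' := gli_hc hG.hc'
  obtain ⟨m, hm⟩ : ∃ m : ℕ, m = a / 16 := ⟨_, rfl⟩
  have hm16 : 16 * m ≤ a := by omega
  have hm15 : a ≤ 16 * m + 15 := by omega
  have hm2 : 2 ≤ m := by omega
  have ok : Ok (fun _ : Edg => (1 / 2 : ℝ)) := okq (by norm_num) (by norm_num)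
  set f : Vtx := (sy 2).ψf (H934E.cface (0, 0) σ) with hf
  have hf12 : (f.1 = 0 ∨ f.1 = -1) ∧ (f.2 = 0 ∨ f.2 = -1) := by
    rw [hf]
    unfold H934E.cface
    obtain ⟨σ1, σ2⟩ := σ
    cases σ1 <;> cases σ2 <;> simp [SYM_2f]
  set Ω := boxE N with hΩ
  set R := RE (-(3 * (m:ℤ))) (3 * m) (-(m:ℤ)) m with hR
  -- regions
  have hRΩ : R ⊆ Ω := by
    rintro ⟨x, y, b⟩ h
    rw [hR] at h
    rw [hΩ]
    unfold boxE
    cases b
    · rw [mem_RE_false] at h ⊢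
      omega
    · rw [mem_RE_true] at h ⊢
      omega
  have hUΩ : EUi a N ρ c s c' ⊆ Ω := by
    unfold EUi
    refine Finset.union_subset (Finset.union_subset gli_An_sub ?_) (gli_tb_sub s ha hG.hc' hN)
    have h := gli_tb_sub 0 ha hG.hc hN
    rw [gli_tb0] at h
    exact h
  have hdisj : Disjoint (EUi a N ρ c s c') R := by
    rw [Finset.disjoint_left]
    rintro ⟨x, y, b⟩ h h'
    unfold EUi at h
    rw [Finset.mem_union, Finset.mem_union] at h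
    unfold tubeI at h
    rw [hR] at h'
    rcases SYM_cases s with rfl | rfl | rfl | rfl
    · have h2 := gli_tb0 a ρ c'
      unfold tubeI at h2
      rw [h2] at h
      cases b
      · rw [gli_mem_An_false, mem_RE_false, mem_RE_false] at h
        rw [mem_RE_false] at h'
        omega
      · rw [gli_mem_An_true, mem_RE_true, mem_RE_true] at h
        rw [mem_RE_true] at h'
        omega
    · have h2 := gli_tb1 a ρ c'
      unfold tubeI at h2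
      rw [h2] at h
      cases b
      · rw [gli_mem_An_false, mem_RE_false, mem_RE_false] at h
        rw [mem_RE_false] at h'
        omega
      · rw [gli_mem_An_true, mem_RE_true, mem_RE_true] at h
        rw [mem_RE_true] at h'
        omega
    · have h2 := gli_tb2 a ρ c'
      unfold tubeI at h2
      rw [h2] at h
      cases b
      · rw [gli_mem_An_false, mem_RE_false, mem_RE_false] at h
        rw [mem_RE_false] at h'
        omega
      · rw [gli_mem_An_true, mem_RE_true, mem_RE_true] at h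
        rw [mem_RE_true] at h'
        omega
    · have h2 := gli_tb3 a ρ c'
      unfold tubeI at h2
      rw [h2] at h
      cases b
      · rw [gli_mem_An_false, mem_RE_false, mem_RE_false] at h
        rw [mem_RE_false] at h'
        omega
      · rw [gli_mem_An_true, mem_RE_true, mem_RE_true] at h
        rw [mem_RE_true] at h'
        omega
  -- locality and independence
  have e1 : Pr (fun _ => (1 / 2 : ℝ)) (EUi a N ρ c s c') (fun F => EVi a N ρ c s c' ↑F) =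
      Pr (fun _ => (1 / 2 : ℝ)) Ω (fun F => EVi a N ρ c s c' ↑F) :=
    (Pr_local hUΩ (fun F _ => gli_EVi_local F)).symm
  have e2 : Pr (fun _ => (1 / 2 : ℝ)) Ω (fun F => gli_core m f ↑F) =
      Pr (fun _ => (1 / 2 : ℝ)) R (fun F => gli_core m f ↑F) :=
    Pr_local hRΩ (fun F _ => gli_core_local (Finset.Subset.refl _))
  have e3 : Pr (fun _ => (1 / 2 : ℝ)) Ω (fun F => EVi a N ρ c s c' ↑F ∧ gli_core m f ↑F) =
      Pr (fun _ => (1 / 2 : ℝ)) Ω (fun F => EVi a N ρ c s c' ↑F) *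
        Pr (fun _ => (1 / 2 : ℝ)) Ω (fun F => gli_core m f ↑F) :=
    Pr_indep hUΩ hRΩ hdisj (fun F _ => gli_EVi_local F)
      (fun F _ => gli_core_local (Finset.Subset.refl _))
  -- the core
  have e4 : c0 * (a : ℝ) ^ (-(1/4) : ℝ) ≤
      Pr (fun _ => (1 / 2 : ℝ)) Ω (fun F => gli_core m f ↑F) := by
    have hR' : RE (-(3 * m : ℕ)) (3 * m : ℕ) (-(m : ℕ)) (m : ℕ) = R := by
      rw [hR]
      push_cast
      rfl
    have h1 := hL m (by omega)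
    rw [hR'] at h1
    have h2 : (sy 2).toLSym.mp R = R := by
      ext ⟨x, y, b⟩
      rw [LSym.mem_mp, SYM_symm, hR]
      cases b
      · rw [SYM_2φf, mem_RE_false, mem_RE_false]
        omega
      · rw [SYM_2φt, mem_RE_true, mem_RE_true]
        omega
    have h3 := (sy 2).toLSym.pr (1 / 2) R (H934F.SepArms σ m)
    rw [h2] at h3
    have h4 : Pr (fun _ => (1 / 2 : ℝ)) R (fun F => H934F.SepArms σ m ((sy 2).toLSym.mp F)) ≤
        Pr (fun _ => (1 / 2 : ℝ)) R (fun F => gli_core m f ↑F) :=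
      Pr_mono ok (fun F _ h => gli_core_of_Sep h)
    have h5 : (a : ℝ) ^ (-(1/4) : ℝ) ≤ (m : ℝ) ^ (-(1/4) : ℝ) := by
      apply Real.rpow_le_rpow_of_nonpos _ _ (by norm_num)
      · exact_mod_cast (show 0 < m by omega)
      · exact_mod_cast (show m ≤ a by omega)
    rw [e2]
    calc c0 * (a : ℝ) ^ (-(1/4) : ℝ) ≤ c0 * (m : ℝ) ^ (-(1/4) : ℝ) :=
          mul_le_mul_of_nonneg_left h5 hc0.le
      _ ≤ _ := h1
      _ = _ := h3
      _ ≤ _ := h4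
  -- the corridors
  have gO := gli_LO_good hG hm16 hm15 hm2 hlong
  have gD := gli_LD_good hG hm16 hm15 hm2 hlong
  have pO := glu_harris_list ok hc1.le (gli_LO a ρ m c) (fun A hA => (gO A hA).inc)
    (fun A hA => (gO A hA).pr)
  have pD := glu_harris_list ok hc1.le (gli_LD a ρ m c) (fun A hA => (gD A hA).inc)
    (fun A hA => (gD A hA).pr)
  have lO : (gli_LO a ρ m c).length = 5 := rfl
  have lD : (gli_LD a ρ m c).length = 7 := rfl
  rw [lO] at pO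
  rw [lD] at pD
  have hZO : gli_ZO a N ρ m c ⊆ Ω := fun e he => (gli_mem_ZO.1 he).1
  have hZD : gli_ZD a N ρ m c ⊆ dmp Ω := fun e he => (gli_mem_ZD.1 he).1
  have H1 := glu_cond_harris ok hZO
    (A := fun F => EVi a N ρ c s c' (↑F : Set Edg) ∧ gli_core m f (↑F : Set Edg))
    (G := fun F => ∀ A ∈ gli_LO a ρ m c, A F)
    (fun F F' h1 h2 h3 h4 => gli_E_mono hG hm16 hm2
      (fun e _ he => h1 he)
      (fun e he he' => by
        have h5 : e ∈ F' ∩ gli_ZO a N ρ m c := Finset.mem_inter.2 ⟨he', gli_mem_ZO.2 ⟨h2 he', he⟩⟩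
        rw [← h3] at h5
        exact (Finset.mem_inter.1 h5).1) h4)
    (fun F F' h1 h2 h3 A hA => (gO A hA).inc F F' h1 h2 (h3 A hA))
    (fun F hF => ⟨fun h A hA => ((gO A hA).loc F hF).1 (h A hA),
      fun h A hA => ((gO A hA).loc F hF).2 (h A hA)⟩)
  have H2 := glu_cond_harris ok hZD
    (A := fun W => (EVi a N ρ c s c' (↑(Ω \ gli_dmi W) : Set Edg) ∧
      gli_core m f (↑(Ω \ gli_dmi W) : Set Edg)) ∧ ∀ A ∈ gli_LO a ρ m c, A (Ω \ gli_dmi W))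
    (G := fun W => ∀ A ∈ gli_LD a ρ m c, A W)
    (fun W W' h1 h2 h3 h4 => by
      have k1 : ∀ e, ¬ gli_PD' a ρ m c (dl e) → e ∈ Ω \ gli_dmi W → e ∈ Ω \ gli_dmi W' := by
        intro e he he'
        rw [Finset.mem_sdiff, gli_mem_dmi] at he' ⊢
        refine ⟨he'.1, fun h5 => he'.2 ?_⟩
        have h6 : dl e ∈ W' ∩ gli_ZD a N ρ m c :=
          Finset.mem_inter.2 ⟨h5, gli_mem_ZD.2 ⟨h2 h5, he⟩⟩
        rw [← h3] at h6
        exact (Finset.mem_inter.1 h6).1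
      have k2 : ∀ e, e ∈ Ω \ gli_dmi W' → e ∈ Ω \ gli_dmi W := by
        intro e he
        rw [Finset.mem_sdiff, gli_mem_dmi] at he ⊢
        exact ⟨he.1, fun h5 => he.2 (h1 h5)⟩
      refine ⟨gli_E_mono hG hm16 hm2 (fun e he he' => k1 e he he') (fun e _ he => k2 e he) h4.1,
        fun A hA => ?_⟩
      have k3 := ((gO A hA).loc _ Finset.sdiff_subset).1 (h4.2 A hA)
      apply ((gO A hA).loc _ Finset.sdiff_subset).2
      have k4 : (Ω \ gli_dmi W) \ gli_ZO a N ρ m c = (Ω \ gli_dmi W') \ gli_ZO a N ρ m c := by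
        ext e
        constructor
        · intro h
          rw [Finset.mem_sdiff] at h ⊢
          obtain ⟨h5, h6⟩ := h
          refine ⟨k1 e (fun h7 => ?_) h5, h6⟩
          apply h6
          rw [gli_mem_ZO]
          exact ⟨(Finset.mem_sdiff.1 h5).1, fun h8 => gli_PO_PD hG hm16 hm2 h8 h7⟩
        · intro h
          rw [Finset.mem_sdiff] at h ⊢
          exact ⟨k2 e h.1, h.2⟩
      rw [← k4]
      exact k3)
    (fun F F' h1 h2 h3 A hA => (gD A hA).inc F F' h1 h2 (h3 A hA))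
    (fun F hF => ⟨fun h A hA => ((gD A hA).loc F hF).1 (h A hA),
      fun h A hA => ((gD A hA).loc F hF).2 (h A hA)⟩)
  have H3 := gli_flip' Ω (fun F => (EVi a N ρ c s c' (↑F : Set Edg) ∧
      gli_core m f (↑F : Set Edg)) ∧ ∀ A ∈ gli_LO a ρ m c, A F)
  rw [H3] at H2
  have H4 : Pr (fun _ => (1 / 2 : ℝ)) (dmp Ω) (fun W =>
      ((EVi a N ρ c s c' (↑(Ω \ gli_dmi W) : Set Edg) ∧
      gli_core m f (↑(Ω \ gli_dmi W) : Set Edg)) ∧ ∀ A ∈ gli_LO a ρ m c, A (Ω \ gli_dmi W)) ∧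
        ∀ A ∈ gli_LD a ρ m c, A W) ≤ Pr (fun _ => (1 / 2 : ℝ)) Ω (fun F => A2g N f ↑F) := by
    have h1 := gli_flip' Ω (fun F => A2g N f (↑F : Set Edg))
    rw [← h1]
    apply Pr_mono ok
    rintro W hW ⟨⟨⟨k1, k2⟩, k3⟩, k4⟩
    refine gli_det hG hm16 (by omega) Finset.sdiff_subset ?_ ?_ k1 k2 k3 k4
    · ext e
      rw [Set.mem_image_equiv, Finset.mem_coe]
      constructor
      · intro he
        have h2 := hW he
        rw [mem_dmp] at h2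
        refine ⟨h2, fun h3 => ?_⟩
        rw [Finset.mem_coe, Finset.mem_sdiff, gli_mem_dmi, Equiv.apply_symm_apply] at h3
        exact h3.2 he
      · rintro ⟨h2, h3⟩
        by_contra h4
        apply h3
        rw [Finset.mem_coe, Finset.mem_sdiff, gli_mem_dmi, Equiv.apply_symm_apply]
        exact ⟨h2, h4⟩
    · rcases hf12.1 with h | h <;> rw [h] <;> norm_num
  have H5 := gli_pi2 N hf12.1 hf12.2
  rw [H5] at H4
  have H6 := hpi N (by omega)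
  -- numbers
  set x := Pr (fun _ => (1 / 2 : ℝ)) Ω (fun F => EVi a N ρ c s c' (↑F : Set Edg)) with hx
  have hx0 : 0 ≤ x := Pr_nonneg ok _ _
  have haR : (0:ℝ) < a := by exact_mod_cast (show 0 < a by omega)
  have hNR : (0:ℝ) < N := by exact_mod_cast (show 0 < N by omega)
  have hfin : x * (c0 * (a : ℝ) ^ (-(1/4) : ℝ)) * (c1 ^ 5 * c1 ^ 7) ≤
      C * (N : ℝ) ^ (-(1/4) : ℝ) := by
    have a1 : x * (c0 * (a : ℝ) ^ (-(1/4) : ℝ)) ≤
        Pr (fun _ => (1 / 2 : ℝ)) Ω (fun F => EVi a N ρ c s c' ↑F ∧ gli_core m f ↑F) := by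
      rw [e3]
      exact mul_le_mul_of_nonneg_left e4 hx0
    have p5 : (0:ℝ) ≤ c1 ^ 5 := by positivity
    have p7 : (0:ℝ) ≤ c1 ^ 7 := by positivity
    calc x * (c0 * (a : ℝ) ^ (-(1/4) : ℝ)) * (c1 ^ 5 * c1 ^ 7)
        = (x * (c0 * (a : ℝ) ^ (-(1/4) : ℝ)) * c1 ^ 5) * c1 ^ 7 := by ring
      _ ≤ (Pr (fun _ => (1 / 2 : ℝ)) Ω (fun F => EVi a N ρ c s c' ↑F ∧ gli_core m f ↑F) *
            c1 ^ 5) * c1 ^ 7 :=
          mul_le_mul_of_nonneg_right (mul_le_mul_of_nonneg_right a1 p5) p7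
      _ ≤ (Pr (fun _ => (1 / 2 : ℝ)) Ω (fun F => EVi a N ρ c s c' ↑F ∧ gli_core m f ↑F) *
            Pr (fun _ => (1 / 2 : ℝ)) Ω (fun F => ∀ A ∈ gli_LO a ρ m c, A F)) * c1 ^ 7 :=
          mul_le_mul_of_nonneg_right (mul_le_mul_of_nonneg_left pO (Pr_nonneg ok _ _)) p7
      _ ≤ Pr (fun _ => (1 / 2 : ℝ)) Ω (fun F => (EVi a N ρ c s c' (↑F : Set Edg) ∧
            gli_core m f (↑F : Set Edg)) ∧ ∀ A ∈ gli_LO a ρ m c, A F) * c1 ^ 7 :=
          mul_le_mul_of_nonneg_right H1 p7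
      _ ≤ _ := mul_le_mul_of_nonneg_left pD (Pr_nonneg ok _ _)
      _ ≤ _ := H2
      _ ≤ _ := H4
      _ ≤ _ := H6
  show Pr (fun _ => (1 / 2 : ℝ)) (EUi a N ρ c s c') (fun F => EVi a N ρ c s c' ↑F) ≤ _
  rw [e1]
  have hdiv : ((a:ℝ) / N) ^ (1/4 : ℝ) = (a:ℝ) ^ (1/4 : ℝ) * (N : ℝ) ^ (-(1/4) : ℝ) := by
    rw [Real.div_rpow haR.le hNR.le, Real.rpow_neg hNR.le, div_eq_mul_inv]
  have hainv : (a : ℝ) ^ (-(1/4) : ℝ) * (a : ℝ) ^ (1/4 : ℝ) = 1 := by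
    rw [← Real.rpow_add haR]
    norm_num
  have ha4 : (0:ℝ) < (a : ℝ) ^ (1/4 : ℝ) := Real.rpow_pos_of_pos haR _
  rw [hdiv, div_mul_eq_mul_div, le_div_iff₀ (by positivity)]
  calc x * (c0 * (c1 ^ 5 * c1 ^ 7))
      = (x * (c0 * ((a : ℝ) ^ (-(1/4) : ℝ) * (a : ℝ) ^ (1/4 : ℝ))) * (c1 ^ 5 * c1 ^ 7)) := by
        rw [hainv]; ring
    _ = (x * (c0 * (a : ℝ) ^ (-(1/4) : ℝ)) * (c1 ^ 5 * c1 ^ 7)) * (a : ℝ) ^ (1/4 : ℝ) := by ring
    _ ≤ (C * (N : ℝ) ^ (-(1/4) : ℝ)) * (a : ℝ) ^ (1/4 : ℝ) :=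
        mul_le_mul_of_nonneg_right hfin ha4.le
    _ = _ := by ring

end H985T
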