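import Pool.Agent.H985R3.TA.Defs2

/-!
Task OUT of the two-arm project: the outside of the region of the extension step is connected.
-/

set_option autoImplicit false

namespace H985T

open H974 Finset

/-- the region of the extension step -/
noncomputable def RO (m ρ : ℕ) (c : ℤ) : Finset Edg := boxE m ∪ tubeD m ρ c ∪ endE m ρ c

theorem mem_RO {m ρ : ℕ} {c : ℤ} {e : Edg} :
    e ∈ RO m ρ c ↔ e ∈ boxE m ∨ e ∈ RE (m:ℤ) ((m:ℤ) + 14 * ρ) (c - ρ) (c + ρ) := by
  classical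
  obtain ⟨x, y, b⟩ := e
  have h1 : ((10 * ρ : ℕ) : ℤ) = 10 * ρ := by push_cast; ring
  have h2 : (x, y, b) ∈ RO m ρ c ↔ (x, y, b) ∈ boxE m ∨
      (x, y, b) ∈ RE (m:ℤ) ((m:ℤ) + 10 * ρ) (c - ρ) (c + ρ) ∨
      (x, y, b) ∈ RE ((m:ℤ) + 10 * ρ) ((m:ℤ) + 14 * ρ) (c - ρ) (c + ρ) := by
    simp only [RO, tubeD, endE, Finset.mem_union, Finset.mem_sdiff, tube, if_true, h1]
    tauto
  rw [h2]
  refine or_congr Iff.rfl ?_
  cases b
  · rw [mem_RE_false, mem_RE_false, mem_RE_false]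
    omega
  · rw [mem_RE_true, mem_RE_true, mem_RE_true]
    omega

/-- horizontal lines -/
theorem OUT_hline {R : Vtx → Vtx → Prop} {P : Vtx → Prop} (hr : ∀ u, R u u)
    (ht : ∀ u v w, R u v → R v w → R u w)
    (hh : ∀ x y : ℤ, P (x, y) → P (x + 1, y) → R (x, y) (x + 1, y)) (y : ℤ) (n : ℕ) :
    ∀ x : ℤ, (∀ t : ℤ, x ≤ t → t ≤ x + n → P (t, y)) → R (x, y) (x + n, y) := by
  induction n with
  | zero => intro x _; simpa using hr (x, y)
  | succ n ih =>
    intro x h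
    have h1 := ih x (fun t h1 h2 => h t h1 (by push_cast; omega))
    have h2 := hh (x + n) y (h _ (by omega) (by push_cast; omega))
      (h _ (by omega) (by push_cast; omega))
    have h3 : x + ((n + 1 : ℕ) : ℤ) = x + n + 1 := by push_cast; ring
    rw [h3]
    exact ht _ _ _ h1 h2

/-- vertical lines -/
theorem OUT_vline {R : Vtx → Vtx → Prop} {P : Vtx → Prop} (hr : ∀ u, R u u)
    (ht : ∀ u v w, R u v → R v w → R u w)
    (hv : ∀ x y : ℤ, P (x, y) → P (x, y + 1) → R (x, y) (x, y + 1)) (x : ℤ) (n : ℕ) :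
    ∀ y : ℤ, (∀ t : ℤ, y ≤ t → t ≤ y + n → P (x, t)) → R (x, y) (x, y + n) := by
  induction n with
  | zero => intro y _; simpa using hr (x, y)
  | succ n ih =>
    intro y h
    have h1 := ih y (fun t h1 h2 => h t h1 (by push_cast; omega))
    have h2 := hv x (y + n) (h _ (by omega) (by push_cast; omega))
      (h _ (by omega) (by push_cast; omega))
    have h3 : y + ((n + 1 : ℕ) : ℤ) = y + n + 1 := by push_cast; ring
    rw [h3]
    exact ht _ _ _ h1 h2

theorem OUT_hl {R : Vtx → Vtx → Prop} {P : Vtx → Prop} (hr : ∀ u, R u u)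
    (hs : ∀ u v, R u v → R v u) (ht : ∀ u v w, R u v → R v w → R u w)
    (hh : ∀ x y : ℤ, P (x, y) → P (x + 1, y) → R (x, y) (x + 1, y)) (x x' y : ℤ)
    (h : ∀ t : ℤ, (x ≤ t ∧ t ≤ x') ∨ (x' ≤ t ∧ t ≤ x) → P (t, y)) : R (x, y) (x', y) := by
  rcases le_total x x' with h1 | h1
  · have := OUT_hline hr ht hh y (x' - x).toNat x (fun t h2 h3 => h t (Or.inl ⟨h2, by omega⟩))
    have h4 : x + ((x' - x).toNat : ℤ) = x' := by omega
    rwa [h4] at this
  · have := OUT_hline hr ht hh y (x - x').toNat x' (fun t h2 h3 => h t (Or.inr ⟨h2, by omega⟩))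
    have h4 : x' + ((x - x').toNat : ℤ) = x := by omega
    rw [h4] at this
    exact hs _ _ this

theorem OUT_vl {R : Vtx → Vtx → Prop} {P : Vtx → Prop} (hr : ∀ u, R u u)
    (hs : ∀ u v, R u v → R v u) (ht : ∀ u v w, R u v → R v w → R u w)
    (hv : ∀ x y : ℤ, P (x, y) → P (x, y + 1) → R (x, y) (x, y + 1)) (x y y' : ℤ)
    (h : ∀ t : ℤ, (y ≤ t ∧ t ≤ y') ∨ (y' ≤ t ∧ t ≤ y) → P (x, t)) : R (x, y) (x, y') := by
  rcases le_total y y' with h1 | h1
  · have := OUT_vline hr ht hv x (y' - y).toNat y (fun t h2 h3 => h t (Or.inl ⟨h2, by omega⟩))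
    have h4 : y + ((y' - y).toNat : ℤ) = y' := by omega
    rwa [h4] at this
  · have := OUT_vline hr ht hv x (y - y').toNat y' (fun t h2 h3 => h t (Or.inr ⟨h2, by omega⟩))
    have h4 : y' + ((y - y').toNat : ℤ) = y := by omega
    rw [h4] at this
    exact hs _ _ this

/-- outside of two (half-open) rectangles -/
def OUT_P (a b m d p q : ℤ) (u : Vtx) : Prop :=
  ¬ (a ≤ u.1 ∧ u.1 < b ∧ a ≤ u.2 ∧ u.2 < b) ∧ ¬ (m ≤ u.1 ∧ u.1 < d ∧ p ≤ u.2 ∧ u.2 < q)

theorem OUT_conn {R : Vtx → Vtx → Prop} {a b m d p q : ℤ} (hmb : m ≤ b) (hbm : b ≤ m + 1)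
    (hbd : b ≤ d) (ham : a ≤ m)
    (hp : a ≤ p) (hq : q ≤ b) (hr : ∀ u, R u u)
    (hs : ∀ u v, R u v → R v u) (ht : ∀ u v w, R u v → R v w → R u w)
    (hh : ∀ x y : ℤ, OUT_P a b m d p q (x, y) → OUT_P a b m d p q (x + 1, y) →
      R (x, y) (x + 1, y))
    (hv : ∀ x y : ℤ, OUT_P a b m d p q (x, y) → OUT_P a b m d p q (x, y + 1) →
      R (x, y) (x, y + 1)) (u : Vtx) (hu : OUT_P a b m d p q u) : R u (d, b) := by
  obtain ⟨x, y⟩ := u
  have key : ∀ y' : ℤ, R (d, y') (d, b) := fun y' =>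
    OUT_vl hr hs ht hv d y' b (fun t _ => by simp only [OUT_P]; omega)
  have key2 : ∀ x' : ℤ, R (x', b) (d, b) := fun x' =>
    OUT_hl hr hs ht hh x' d b (fun t _ => by simp only [OUT_P]; omega)
  simp only [OUT_P] at hu
  by_cases h1 : x < a
  · exact ht _ _ _ (OUT_vl hr hs ht hv x y b (fun t _ => by simp only [OUT_P]; omega)) (key2 x)
  · refine ht _ _ _ (OUT_hl hr hs ht hh x d y (fun t h => ?_)) (key y)
    simp only [OUT_P]
    omega

/-- the outside of the region is connected (faces) -/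
theorem out_face {m ρ : ℕ} {c : ℤ} (hρ : 1 ≤ ρ) (hc : |c| + 4 * ρ ≤ m) (e e' : Edg)
    (he : e ∉ RO m ρ c) (he' : e' ∉ RO m ρ c) :
    DReach {e : Edg | e ∉ RO m ρ c} (dtgt e) (dtgt e') := by
  have hc1 := abs_le.mp (le_refl |c|)
  have main : ∀ u : Vtx, OUT_P (-m) m m ((m:ℤ) + 14 * ρ) (c - ρ) (c + ρ) u →
      DReach {e : Edg | e ∉ RO m ρ c} u ((m:ℤ) + 14 * ρ, m) := by
    refine OUT_conn (R := DReach {e : Edg | e ∉ RO m ρ c}) le_rfl (by omega) (by omega) (by omega)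
      (by omega) (by omega) (fun u => DReach.refl _ u)
      (fun u v h => h.symm) (fun u v w h h' => h.trans h') ?_ ?_
    · intro x y h1 h2
      refine DAdj.reach ⟨(x + 1, y, false), ?_, Or.inl ⟨by simp, by simp⟩⟩
      simp only [OUT_P] at h1 h2
      intro h3
      rcases mem_RO.mp h3 with h3 | h3
      · rw [boxE, mem_RE_false] at h3; omega
      · rw [mem_RE_false] at h3; omega
    · intro x y h1 h2
      refine DAdj.reach ⟨(x, y + 1, true), ?_, Or.inl ⟨by simp, by simp⟩⟩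
      simp only [OUT_P] at h1 h2
      intro h3
      rcases mem_RO.mp h3 with h3 | h3
      · rw [boxE, mem_RE_true] at h3; omega
      · rw [mem_RE_true] at h3; omega
  have start : ∀ e : Edg, e ∉ RO m ρ c →
      OUT_P (-m) m m ((m:ℤ) + 14 * ρ) (c - ρ) (c + ρ) (dtgt e) := by
    rintro ⟨x, y, b⟩ he
    rw [mem_RO, boxE] at he
    cases b
    · rw [mem_RE_false, mem_RE_false] at he
      simp only [OUT_P, dtgt_mk]
      omega
    · rw [mem_RE_true, mem_RE_true] at he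
      simp only [OUT_P, dtgt_mk]
      omega
  exact (main _ (start e he)).trans (main _ (start e' he')).symm

/-- the outside of the region is connected (vertices) -/
theorem out_vtx {m ρ : ℕ} {c : ℤ} (hρ : 1 ≤ ρ) (hc : |c| + 4 * ρ ≤ m) (e e' : Edg)
    (he : e ∉ RO m ρ c) (he' : e' ∉ RO m ρ c) :
    Reach {e : Edg | e ∉ RO m ρ c} (tgt e) (tgt e') := by
  have hc1 := abs_le.mp (le_refl |c|)
  have main : ∀ u : Vtx, OUT_P (-m) ((m:ℤ) + 1) m ((m:ℤ) + 14 * ρ + 1) (c - ρ) (c + ρ + 1) u →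
      Reach {e : Edg | e ∉ RO m ρ c} u ((m:ℤ) + 14 * ρ + 1, (m:ℤ) + 1) := by
    refine OUT_conn (R := Reach {e : Edg | e ∉ RO m ρ c}) (by omega) (by omega) (by omega)
      (by omega) (by omega) (by omega) (fun u => Reach.refl _ u)
      (fun u v h => h.symm) (fun u v w h h' => h.trans h') ?_ ?_
    · intro x y h1 h2
      refine Adj.reach ⟨(x, y, true), ?_, Or.inl ⟨by simp, by simp⟩⟩
      simp only [OUT_P] at h1 h2
      intro h3
      rcases mem_RO.mp h3 with h3 | h3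
      · rw [boxE, mem_RE_true] at h3; omega
      · rw [mem_RE_true] at h3; omega
    · intro x y h1 h2
      refine Adj.reach ⟨(x, y, false), ?_, Or.inl ⟨by simp, by simp⟩⟩
      simp only [OUT_P] at h1 h2
      intro h3
      rcases mem_RO.mp h3 with h3 | h3
      · rw [boxE, mem_RE_false] at h3; omega
      · rw [mem_RE_false] at h3; omega
  have start : ∀ e : Edg, e ∉ RO m ρ c →
      Reach {e : Edg | e ∉ RO m ρ c} (tgt e) ((m:ℤ) + 14 * ρ + 1, (m:ℤ) + 1) := by
    intro e he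
    by_cases h1 : OUT_P (-m) ((m:ℤ) + 1) m ((m:ℤ) + 14 * ρ + 1) (c - ρ) (c + ρ + 1) (tgt e)
    · exact main _ h1
    · have h2 : OUT_P (-m) ((m:ℤ) + 1) m ((m:ℤ) + 14 * ρ + 1) (c - ρ) (c + ρ + 1) (src e) := by
        obtain ⟨x, y, b⟩ := e
        rw [mem_RO, boxE] at he
        cases b
        · rw [mem_RE_false, mem_RE_false] at he
          simp only [OUT_P, tgt_false] at h1
          simp only [OUT_P, src_mk]
          omega
        · rw [mem_RE_true, mem_RE_true] at he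
          simp only [OUT_P, tgt_true] at h1
          simp only [OUT_P, src_mk]
          omega
      exact (Adj.reach ⟨e, he, Or.inr ⟨rfl, rfl⟩⟩ :
        Reach {e : Edg | e ∉ RO m ρ c} (tgt e) (src e)).trans (main _ h2)
  exact (start e he).trans (start e' he').symm

end H985T
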