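import Pool.Agent.H985R3.TA.START
import Pool.Agent.H985R3.TA.OUT

/-!
# Two-arm project, task NR1: geometry of the mouth of the tube (open arm)
-/

set_option autoImplicit false

namespace H985T

open H974 Finset

/-- follow a dual path until it leaves the set `P` -/
theorem NR1_exit {G G' : Set Edg} {P : Vtx → Prop}
    (hP : ∀ e ∈ G, ∀ b c : Vtx, P b →
      ((dsrc e = b ∧ dtgt e = c) ∨ (dsrc e = c ∧ dtgt e = b)) → e ∈ G')
    {a z : Vtx} (h : DReach G a z) :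
    (P z ∧ DReach G' a z) ∨ ∃ z', ¬ P z' ∧ DReach G' a z' := by
  induction h with
  | refl =>
    by_cases hp : P a
    · exact Or.inl ⟨hp, DReach.refl _ _⟩
    · exact Or.inr ⟨a, hp, DReach.refl _ _⟩
  | @tail b c _ hs ih =>
    rcases ih with ⟨hb, h1⟩ | h1
    · obtain ⟨e, he, hc⟩ := hs
      have h2 : DReach G' a c := h1.tail ⟨e, hP e he b c hb hc, hc⟩
      by_cases hp : P c
      · exact Or.inl ⟨hp, h2⟩
      · exact Or.inr ⟨c, hp, h2⟩
    · exact Or.inr h1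

/-- a dual path all of whose faces stay in `B` -/
theorem NR1_local {G : Set Edg} {B : Set Vtx} {a b : Vtx} (hB : ∀ c, DReach G a c → c ∈ B)
    (h : DReach G a b) : DReach (G ∩ {e | dsrc e ∈ B ∧ dtgt e ∈ B}) a b := by
  obtain ⟨k, hk⟩ := DW.of_reach (Z := fun _ => 0) h
  exact (hk.local hB).reach

theorem NR1_dhor {G : Set Edg} {x y : ℤ} (n : ℕ)
    (h : ∀ t : ℤ, x < t → t ≤ x + n → ((t, y, false) : Edg) ∈ G) :
    DReach G (x, y) (x + n, y) := by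
  induction n with
  | zero => simpa using DReach.refl G (x, y)
  | succ n ih =>
    have h1 := ih (fun t h1 h2 => h t h1 (by push_cast; omega))
    refine h1.tail ⟨(x + n + 1, y, false), h _ (by omega) (by push_cast; omega), Or.inl ⟨?_, ?_⟩⟩
    · simp
    · simp only [dtgt_mk, Prod.mk.injEq, and_true]
      push_cast; ring

theorem NR1_dver {G : Set Edg} {x y : ℤ} (n : ℕ)
    (h : ∀ t : ℤ, y < t → t ≤ y + n → ((x, t, true) : Edg) ∈ G) :
    DReach G (x, y) (x, y + n) := by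
  induction n with
  | zero => simpa using DReach.refl G (x, y)
  | succ n ih =>
    have h1 := ih (fun t h1 h2 => h t h1 (by push_cast; omega))
    refine h1.tail ⟨(x, y + n + 1, true), h _ (by omega) (by push_cast; omega), Or.inl ⟨?_, ?_⟩⟩
    · simp
    · simp only [dtgt_mk, Prod.mk.injEq, true_and]
      push_cast; ring

theorem NR1_hor {G : Set Edg} {x y : ℤ} (n : ℕ)
    (h : ∀ t : ℤ, x ≤ t → t < x + n → ((t, y, true) : Edg) ∈ G) :
    Reach G (x, y) (x + n, y) := by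
  induction n with
  | zero => simpa using Reach.refl G (x, y)
  | succ n ih =>
    have h1 := ih (fun t h1 h2 => h t h1 (by push_cast; omega))
    refine h1.tail ⟨(x + n, y, true), h _ (by omega) (by push_cast; omega), Or.inl ⟨?_, ?_⟩⟩
    · simp
    · simp only [tgt_true, Prod.mk.injEq, and_true]
      push_cast; ring

theorem NR1_ver {G : Set Edg} {x y : ℤ} (n : ℕ)
    (h : ∀ t : ℤ, y ≤ t → t < y + n → ((x, t, false) : Edg) ∈ G) :
    Reach G (x, y) (x, y + n) := by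
  induction n with
  | zero => simpa using Reach.refl G (x, y)
  | succ n ih =>
    have h1 := ih (fun t h1 h2 => h t h1 (by push_cast; omega))
    refine h1.tail ⟨(x, y + n, false), h _ (by omega) (by push_cast; omega), Or.inl ⟨?_, ?_⟩⟩
    · simp
    · simp only [tgt_false, Prod.mk.injEq, true_and]
      push_cast; ring

/-- two faces of a rectangle are joined in `G` if the dual edges inside the rectangle are in `G` -/
theorem NR1_drect {G : Set Edg} {p q r s : ℤ}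
    (hh : ∀ t y : ℤ, p < t → t ≤ q → r ≤ y → y ≤ s → ((t, y, false) : Edg) ∈ G)
    (hv : ∀ x t : ℤ, p ≤ x → x ≤ q → r < t → t ≤ s → ((x, t, true) : Edg) ∈ G)
    {z : Vtx} (h1 : p ≤ z.1) (h2 : z.1 ≤ q) (h3 : r ≤ z.2) (h4 : z.2 ≤ s) :
    DReach G (p, r) z := by
  obtain ⟨n, hn⟩ := Int.eq_ofNat_of_zero_le (sub_nonneg.mpr h1)
  obtain ⟨k, hk⟩ := Int.eq_ofNat_of_zero_le (sub_nonneg.mpr h3)
  have e1 : z.1 = p + n := by omega
  have e2 : z.2 = r + k := by omega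
  have g1 : DReach G (p, r) (p + n, r) :=
    NR1_dhor n (fun t h5 h6 => hh t r h5 (by omega) le_rfl (by omega))
  have g2 : DReach G (p + n, r) (p + n, r + k) :=
    NR1_dver k (fun t h5 h6 => hv _ t (by omega) (by omega) h5 (by omega))
  have e3 : z = (p + n, r + k) := Prod.ext e1 e2
  rw [e3]
  exact g1.trans g2

theorem NR1_boxE_true {m : ℕ} {x y : ℤ} :
    ((x, y, true) : Edg) ∈ boxE m ↔ -(m:ℤ) ≤ x ∧ x < m ∧ -(m:ℤ) ≤ y ∧ y ≤ m := by
  unfold boxE; rw [mem_RE_true]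

theorem NR1_boxE_false {m : ℕ} {x y : ℤ} :
    ((x, y, false) : Edg) ∈ boxE m ↔ -(m:ℤ) ≤ x ∧ x ≤ m ∧ -(m:ℤ) ≤ y ∧ y < m := by
  unfold boxE; rw [mem_RE_false]

theorem NR1_RO_true {m ρ : ℕ} {c x y : ℤ} :
    ((x, y, true) : Edg) ∈ RO m ρ c ↔ (-(m:ℤ) ≤ x ∧ x < m ∧ -(m:ℤ) ≤ y ∧ y ≤ m) ∨
      ((m:ℤ) ≤ x ∧ x < m + 14 * ρ ∧ c - ρ ≤ y ∧ y ≤ c + ρ) := by
  rw [mem_RO, NR1_boxE_true, mem_RE_true]

theorem NR1_RO_false {m ρ : ℕ} {c x y : ℤ} :
    ((x, y, false) : Edg) ∈ RO m ρ c ↔ (-(m:ℤ) ≤ x ∧ x ≤ m ∧ -(m:ℤ) ≤ y ∧ y < m) ∨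
      ((m:ℤ) ≤ x ∧ x ≤ m + 14 * ρ ∧ c - ρ ≤ y ∧ y < c + ρ) := by
  rw [mem_RO, NR1_boxE_false, mem_RE_false]

theorem NR1_tubeD_true {m ρ : ℕ} {c x y : ℤ} :
    ((x, y, true) : Edg) ∈ tubeD m ρ c ↔
      (m:ℤ) ≤ x ∧ x < m + 10 * ρ ∧ c - ρ ≤ y ∧ y ≤ c + ρ := by
  unfold tubeD tube
  rw [if_pos rfl, Finset.mem_sdiff, NR1_boxE_true, mem_RE_true]
  push_cast
  constructor
  · rintro ⟨h1, h2⟩; exact h1
  · intro h1; exact ⟨h1, fun h2 => by omega⟩

theorem NR1_tubeD_false {m ρ : ℕ} {c x y : ℤ} (hc : |c| + ρ ≤ m) :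
    ((x, y, false) : Edg) ∈ tubeD m ρ c ↔
      (m:ℤ) < x ∧ x ≤ m + 10 * ρ ∧ c - ρ ≤ y ∧ y < c + ρ := by
  have hc1 := abs_le.mp (show |c| ≤ (m:ℤ) - ρ by omega)
  unfold tubeD tube
  rw [if_pos rfl, Finset.mem_sdiff, NR1_boxE_false, mem_RE_false]
  push_cast
  constructor
  · rintro ⟨h1, h2⟩
    refine ⟨?_, h1.2.1, h1.2.2.1, h1.2.2.2⟩
    by_contra h3
    exact h2 ⟨by omega, by omega, by omega, by omega⟩
  · intro h1; exact ⟨⟨by omega, h1.2⟩, fun h2 => by omega⟩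

theorem NR1_endE_true {m ρ : ℕ} {c x y : ℤ} :
    ((x, y, true) : Edg) ∈ endE m ρ c ↔
      (m:ℤ) + 10 * ρ ≤ x ∧ x < m + 14 * ρ ∧ c - ρ ≤ y ∧ y ≤ c + ρ := by
  unfold endE tube
  rw [if_pos rfl, Finset.mem_sdiff, mem_RE_true, mem_RE_true]
  push_cast
  constructor
  · rintro ⟨h1, h2⟩; exact h1
  · intro h1; exact ⟨h1, fun h2 => by omega⟩

theorem NR1_endE_false {m ρ : ℕ} {c x y : ℤ} :
    ((x, y, false) : Edg) ∈ endE m ρ c ↔
      (m:ℤ) + 10 * ρ < x ∧ x ≤ m + 14 * ρ ∧ c - ρ ≤ y ∧ y < c + ρ := by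
  unfold endE tube
  rw [if_pos rfl, Finset.mem_sdiff, mem_RE_false, mem_RE_false]
  push_cast
  constructor
  · rintro ⟨h1, h2⟩
    refine ⟨?_, h1.2.1, h1.2.2.1, h1.2.2.2⟩
    by_contra h3
    exact h2 ⟨by omega, by omega, by omega, by omega⟩
  · intro h1; exact ⟨⟨by omega, h1.2⟩, fun h2 => by omega⟩

/-- closed edges of the start environment inside the region are closed edges of the box -/
theorem NR1_H0_box {m ρ : ℕ} {c : ℤ} {F : Set Edg} {e : Edg}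
    (he : e ∈ H0s (↑(RO m ρ c) : Set Edg) ↑(tubeD m ρ c) (F ∪ ↑(endE m ρ c)))
    (heO : e ∈ RO m ρ c) : e ∈ (↑(boxE m) : Set Edg) \ F := by
  have h1 : e ∉ tubeD m ρ c ∧ e ∉ F ∧ e ∉ endE m ρ c := by
    refine ⟨fun h => he ⟨heO, Or.inl h⟩, fun h => he ⟨heO, Or.inr (Or.inl h)⟩,
      fun h => he ⟨heO, Or.inr (Or.inr h)⟩⟩
  refine ⟨?_, h1.2.1⟩
  have h2 := heO
  unfold RO at h2
  rw [Finset.mem_union, Finset.mem_union] at h2
  rcases h2 with (h2 | h2) | h2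
  · exact h2
  · exact absurd h2 h1.1
  · exact absurd h2 h1.2.2

theorem NR1_box_H0 {m ρ : ℕ} {c : ℤ} {F : Set Edg} {e : Edg}
    (he : e ∈ (↑(boxE m) : Set Edg) \ F) :
    e ∈ H0s (↑(RO m ρ c) : Set Edg) ↑(tubeD m ρ c) (F ∪ ↑(endE m ρ c)) := by
  rintro ⟨-, h1 | h1 | h1⟩
  · have h2 : e ∈ tubeD m ρ c := h1
    unfold tubeD at h2
    rw [Finset.mem_sdiff] at h2
    exact h2.2 he.1
  · exact he.2 h1
  · obtain ⟨x, y, _ | _⟩ := e
    · have h2 := he.1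
      rw [Finset.mem_coe, NR1_endE_false] at h1
      rw [Finset.mem_coe, NR1_boxE_false] at h2
      omega
    · have h2 := he.1
      rw [Finset.mem_coe, NR1_endE_true] at h1
      rw [Finset.mem_coe, NR1_boxE_true] at h2
      omega

/-- an explored face is joined by closed edges of the box to a face with an outside edge -/
theorem NR1_out {m ρ : ℕ} {c : ℤ} {F : Set Edg} {a : Vtx}
    (ha : a ∈ YY (↑(RO m ρ c) : Set Edg) ↑(tubeD m ρ c) (F ∪ ↑(endE m ρ c))) :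
    ∃ z, (∃ e, e ∉ RO m ρ c ∧ (dsrc e = z ∨ dtgt e = z)) ∧
      DReach ((↑(boxE m) : Set Edg) \ F) a z := by
  obtain ⟨e, he, h⟩ := ha
  rcases NR1_exit (G' := (↑(boxE m) : Set Edg) \ F)
    (P := fun z => ∀ e, (dsrc e = z ∨ dtgt e = z) → e ∈ RO m ρ c) (by
      intro e' he' b c' hb hc
      refine NR1_H0_box he' (hb e' ?_)
      rcases hc with h1 | h1
      · exact Or.inl h1.1
      · exact Or.inr h1.2) h.symm with h1 | ⟨z, hz, h1⟩
  · exact absurd (h1.1 e (Or.inr rfl)) he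
  · push Not at hz
    obtain ⟨e', h2, h3⟩ := hz
    exact ⟨z, ⟨e', h3, h2⟩, h1⟩

/-- a face with an outside edge is not inside the region -/
theorem NR1_face {m ρ : ℕ} {c : ℤ} {z : Vtx}
    (h : ∃ e, e ∉ RO m ρ c ∧ (dsrc e = z ∨ dtgt e = z)) :
    ¬ (-(m:ℤ) ≤ z.1 ∧ z.1 < m ∧ -(m:ℤ) ≤ z.2 ∧ z.2 < m) ∧
      ¬ ((m:ℤ) ≤ z.1 ∧ z.1 < m + 14 * ρ ∧ c - ρ ≤ z.2 ∧ z.2 < c + ρ) := by
  obtain ⟨⟨x, y, _ | _⟩, he, hz⟩ := h
  · rw [NR1_RO_false] at he
    rcases hz with rfl | rfl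
    · simp only [dsrc_false]
      omega
    · simp only [dtgt_mk]
      omega
  · rw [NR1_RO_true] at he
    rcases hz with rfl | rfl
    · simp only [dsrc_true]
      omega
    · simp only [dtgt_mk]
      omega

/-- explored faces next to the tube -/
theorem NR1_VDY {m ρ : ℕ} {c : ℤ} {F : Set Edg} (hρ : 1 ≤ ρ) (hc : |c| + 4 * ρ ≤ m) {a : Vtx}
    (ha : a ∈ YY (↑(RO m ρ c) : Set Edg) ↑(tubeD m ρ c) (F ∪ ↑(endE m ρ c)))
    (hD : a ∈ VD (↑(tubeD m ρ c) : Set Edg)) :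
    ((m:ℤ) ≤ a.1 ∧ a.1 ≤ m + 10 * ρ ∧ (a.2 = c + ρ ∨ a.2 = c - ρ - 1)) ∨
      (a.1 = m ∧ c - ρ ≤ a.2 ∧ a.2 < c + ρ) := by
  have hc1 := abs_le.mp (show |c| ≤ (m:ℤ) - 4 * ρ by omega)
  have h0 : (m:ℤ) ≤ a.1 ∧ a.1 ≤ m + 10 * ρ ∧ c - ρ - 1 ≤ a.2 ∧ a.2 ≤ c + ρ := by
    obtain ⟨⟨x, y, _ | _⟩, he, hz⟩ := hD
    · rw [Finset.mem_coe, NR1_tubeD_false (by omega)] at he
      rcases hz with rfl | rfl
      · simp only [dsrc_false]
        omega
      · simp only [dtgt_mk]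
        omega
    · rw [Finset.mem_coe, NR1_tubeD_true] at he
      rcases hz with rfl | rfl
      · simp only [dsrc_true]
        omega
      · simp only [dtgt_mk]
        omega
  by_cases h1 : a.2 = c + ρ ∨ a.2 = c - ρ - 1
  · exact Or.inl ⟨h0.1, h0.2.1, h1⟩
  by_cases h2 : a.1 = m
  · exact Or.inr ⟨h2, by omega, by omega⟩
  exfalso
  obtain ⟨z, hz, h3⟩ := NR1_out ha
  -- the face `a` is isolated
  have h4 : z = a := by
    rcases Relation.ReflTransGen.cases_head h3 with h4 | ⟨w, ⟨e, he, hc⟩, -⟩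
    · exact h4.symm
    · exfalso
      obtain ⟨x, y, _ | _⟩ := e
      · have h5 := he.1
        rw [Finset.mem_coe, NR1_boxE_false] at h5
        simp only [dsrc_false, dtgt_mk] at hc
        rcases hc with ⟨h6, h7⟩ | ⟨h6, h7⟩
        · rw [← h6] at h0 h2
          simp only at h0 h2
          omega
        · rw [← h7] at h0 h2
          simp only at h0 h2
          omega
      · have h5 := he.1
        rw [Finset.mem_coe, NR1_boxE_true] at h5
        simp only [dsrc_true, dtgt_mk] at hc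
        rcases hc with ⟨h6, h7⟩ | ⟨h6, h7⟩
        · rw [← h6] at h0 h2
          simp only at h0 h2
          omega
        · rw [← h7] at h0 h2
          simp only at h0 h2
          omega
  rw [h4] at hz
  have h5 := (NR1_face hz).2
  omega

theorem NR1_ball {a b : Vtx} {R : ℤ} :
    b ∈ ball a R ↔ (-R ≤ b.1 - a.1 ∧ b.1 - a.1 ≤ R) ∧ (-R ≤ b.2 - a.2 ∧ b.2 - a.2 ≤ R) := by
  unfold ball
  rw [Set.mem_ofPred_eq, abs_le, abs_le]

/-- the two corners of the mouth -/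
theorem NR1_corner {m ρ r : ℕ} {c K s1 s2 : ℤ} (hr : 8 ≤ r) (hρ : 16 * r ≤ ρ)
    (hc : |c| + 4 * ρ ≤ m) {F : Set Edg}
    (hs : (s1 = K ∧ s2 = K + ((ρ / 4 : ℕ) : ℤ) - 1 ∧ K = c + ρ) ∨
      (s1 = K - ((ρ / 4 : ℕ) : ℤ) + 1 ∧ s2 = K - 1 ∧ K = c - ρ))
    (hno : ¬ H12S.DCrs m K (2 * r) (ρ / 4) ((↑(boxE m) : Set Edg) \ F)) {a b : Vtx}
    (ha : a ∈ YY (↑(RO m ρ c) : Set Edg) ↑(tubeD m ρ c) (F ∪ ↑(endE m ρ c)))
    (hb : b ∈ YY (↑(RO m ρ c) : Set Edg) ↑(tubeD m ρ c) (F ∪ ↑(endE m ρ c)))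
    (haK : (m:ℤ) - 2 * r ≤ a.1 ∧ a.1 ≤ m + 2 * r ∧ K - 2 * r ≤ a.2 ∧ a.2 ≤ K + 2 * r)
    (hbK : (m:ℤ) - 2 * r ≤ b.1 ∧ b.1 ≤ m + 2 * r ∧ K - 2 * r ≤ b.2 ∧ b.2 ≤ K + 2 * r) :
    DReach (H0s (↑(RO m ρ c) : Set Edg) ↑(tubeD m ρ c) (F ∪ ↑(endE m ρ c)) ∩
      eball a ((ρ / 2 : ℕ) : ℤ)) a b := by
  have hc1 := abs_le.mp (show |c| ≤ (m:ℤ) - 4 * ρ by omega)
  set B : Set Vtx := {z | ((m:ℤ) - ((ρ / 4 : ℕ) : ℤ) < z.1 ∧ z.1 < m + ((ρ / 4 : ℕ) : ℤ)) ∧
    (K - ((ρ / 4 : ℕ) : ℤ) < z.2 ∧ z.2 < K + ((ρ / 4 : ℕ) : ℤ))} with hB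
  have hloc : ∀ a' : Vtx, ((m:ℤ) - 2 * r ≤ a'.1 ∧ a'.1 ≤ m + 2 * r ∧ K - 2 * r ≤ a'.2 ∧
      a'.2 ≤ K + 2 * r) → ∀ z, DReach ((↑(boxE m) : Set Edg) \ F) a' z → z ∈ B := by
    intro a' h1 z h2
    by_contra h3
    apply hno
    refine ⟨a', z, ⟨⟨?_, ?_⟩, ?_, ?_⟩, ?_, h2⟩
    · push_cast; omega
    · push_cast; omega
    · push_cast; omega
    · push_cast; omega
    · by_contra h4
      push Not at h4
      exact h3 ⟨⟨h4.1, h4.2.1⟩, h4.2.2.1, h4.2.2.2⟩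
  have hBb : ∀ z ∈ B, z ∈ ball a ((ρ / 2 : ℕ) : ℤ) := by
    intro z hz
    rw [NR1_ball]
    have h1 := hz.1
    have h2 := hz.2
    refine ⟨⟨?_, ?_⟩, ?_, ?_⟩ <;> omega
  set G : Set Edg := H0s (↑(RO m ρ c) : Set Edg) ↑(tubeD m ρ c) (F ∪ ↑(endE m ρ c)) ∩
      eball a ((ρ / 2 : ℕ) : ℤ) with hG
  have hmain : ∀ a' ∈ YY (↑(RO m ρ c) : Set Edg) ↑(tubeD m ρ c) (F ∪ ↑(endE m ρ c)),
      ((m:ℤ) - 2 * r ≤ a'.1 ∧ a'.1 ≤ m + 2 * r ∧ K - 2 * r ≤ a'.2 ∧ a'.2 ≤ K + 2 * r) →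
      DReach G a' ((m:ℤ), s1) := by
    intro a' h1 h2
    obtain ⟨z, hz, h3⟩ := NR1_out h1
    have hzB : z ∈ B := hloc a' h2 z h3
    have h4 : DReach G a' z := by
      refine (NR1_local (hloc a' h2) h3).mono ?_
      rintro e ⟨he1, he2, he3⟩
      exact ⟨NR1_box_H0 he1, hBb _ he2, hBb _ he3⟩
    have h5 := NR1_face hz
    have h6 := hzB.1
    have h7 := hzB.2
    have hz1 : (m:ℤ) ≤ z.1 := by
      by_contra h8
      apply h5.1
      refine ⟨?_, ?_, ?_, ?_⟩ <;> omega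
    have hz2 : s1 ≤ z.2 ∧ z.2 ≤ s2 := by
      rcases hs with h8 | h8
      · refine ⟨?_, by omega⟩
        by_contra h9
        exact h5.2 ⟨hz1, by omega, by omega, by omega⟩
      · refine ⟨by omega, ?_⟩
        by_contra h9
        exact h5.2 ⟨hz1, by omega, by omega, by omega⟩
    have h8 : DReach G ((m:ℤ), s1) z := by
      refine NR1_drect (p := (m:ℤ)) (q := (m:ℤ) + ((ρ / 4 : ℕ) : ℤ) - 1) (r := s1) (s := s2)
        ?_ ?_ hz1 (by omega) hz2.1 hz2.2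
      · intro t y g1 g2 g3 g4
        refine ⟨?_, hBb _ ?_, hBb _ ?_⟩
        · rintro ⟨g5, -⟩
          rw [Finset.mem_coe, NR1_RO_false] at g5
          omega
        · simp only [dsrc_false]
          rw [hB]
          refine ⟨⟨?_, ?_⟩, ?_, ?_⟩ <;> simp only <;> omega
        · simp only [dtgt_mk]
          rw [hB]
          refine ⟨⟨?_, ?_⟩, ?_, ?_⟩ <;> simp only <;> omega
      · intro x t g1 g2 g3 g4
        refine ⟨?_, hBb _ ?_, hBb _ ?_⟩
        · rintro ⟨g5, -⟩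
          rw [Finset.mem_coe, NR1_RO_true] at g5
          omega
        · simp only [dsrc_true]
          rw [hB]
          refine ⟨⟨?_, ?_⟩, ?_, ?_⟩ <;> simp only <;> omega
        · simp only [dtgt_mk]
          rw [hB]
          refine ⟨⟨?_, ?_⟩, ?_, ?_⟩ <;> simp only <;> omega
    exact h4.trans h8.symm
  exact (hmain a ha haK).trans (hmain b hb hbK).symm

/-- a path from a mouth face reaches the rim of the half ball inside the half ball -/
theorem NR1_rim {m ρ r : ℕ} {c y0 : ℤ} (hr : 8 ≤ r) (hρ : 16 * r ≤ ρ)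
    (hc : |c| + 4 * ρ ≤ m) {F : Set Edg} (h1 : c - ρ + r ≤ y0) (h2 : y0 + r ≤ c + ρ) {ya : ℤ}
    (ha : ((m:ℤ), ya) ∈ YY (↑(RO m ρ c) : Set Edg) ↑(tubeD m ρ c) (F ∪ ↑(endE m ρ c))) :
    ∃ z : Vtx, (z.1 < (m:ℤ) - r ∨ z.2 < y0 - r ∨ y0 + r ≤ z.2) ∧
      DReach (↑(hbR m y0 r) \ F) ((m:ℤ), ya) z := by
  have hc1 := abs_le.mp (show |c| ≤ (m:ℤ) - 4 * ρ by omega)
  obtain ⟨z, hz, h3⟩ := NR1_out ha
  rcases NR1_exit (G' := (↑(hbR m y0 r) : Set Edg) \ F)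
    (P := fun z => (m:ℤ) - r ≤ z.1 ∧ z.1 ≤ m ∧ y0 - r ≤ z.2 ∧ z.2 < y0 + r) (by
      rintro e he b c' hb hc'
      refine ⟨?_, he.2⟩
      have he1 := he.1
      unfold hbR
      obtain ⟨x, y, _ | _⟩ := e
      · rw [Finset.mem_coe, NR1_boxE_false] at he1
        rw [Finset.mem_coe, mem_RE_false]
        simp only [dsrc_false, dtgt_mk] at hc'
        rcases hc' with ⟨h6, h7⟩ | ⟨h6, h7⟩
        · rw [← h6] at hb
          simp only at hb
          omega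
        · rw [← h7] at hb
          simp only at hb
          omega
      · rw [Finset.mem_coe, NR1_boxE_true] at he1
        rw [Finset.mem_coe, mem_RE_true]
        simp only [dsrc_true, dtgt_mk] at hc'
        rcases hc' with ⟨h6, h7⟩ | ⟨h6, h7⟩
        · rw [← h6] at hb
          simp only at hb
          omega
        · rw [← h7] at hb
          simp only at hb
          omega) h3 with h4 | ⟨w, hw, h4⟩
  · exfalso
    have h5 := NR1_face hz
    obtain ⟨⟨h6, h7, h8, h9⟩, -⟩ := h4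
    by_cases h10 : z.1 = m
    · exact h5.2 ⟨by omega, by omega, by omega, by omega⟩
    · exact h5.1 ⟨by omega, by omega, by omega, by omega⟩
  · refine ⟨w, ?_, h4⟩
    -- faces reached through edges of the half ball have first coordinate at most `m`
    have h5 : w.1 ≤ m := by
      rcases Relation.ReflTransGen.cases_tail h4 with h6 | ⟨v, -, e, he, hc'⟩
      · rw [h6]
      · have he1 := he.1
        unfold hbR at he1
        obtain ⟨x, y, _ | _⟩ := e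
        · rw [Finset.mem_coe, mem_RE_false] at he1
          simp only [dsrc_false, dtgt_mk] at hc'
          rcases hc' with ⟨h6, h7⟩ | ⟨h6, h7⟩
          · rw [← h7]
            simp only
            omega
          · rw [← h6]
            simp only
            omega
        · rw [Finset.mem_coe, mem_RE_true] at he1
          simp only [dsrc_true, dtgt_mk] at hc'
          rcases hc' with ⟨h6, h7⟩ | ⟨h6, h7⟩
          · rw [← h7]
            simp only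
            omega
          · rw [← h6]
            simp only
            omega
    by_contra h6
    push Not at h6
    exact hw ⟨h6.1, h5, h6.2.1, h6.2.2⟩

/-- geometry of the mouth of the tube -/
theorem NR1_near {m ρ r l : ℕ} {c : ℤ} (hl : 1 ≤ l) (hr : 8 * l ≤ r) (hρ : 16 * r ≤ ρ)
    (hc : |c| + 4 * ρ ≤ m) {F : Set Edg} (hG : Gd m ρ r l c F) {a b : Vtx}
    (ha : a ∈ YY (↑(RO m ρ c) : Set Edg) ↑(tubeD m ρ c) (F ∪ ↑(endE m ρ c)))
    (haD : a ∈ VD (↑(tubeD m ρ c) : Set Edg))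
    (hb : b ∈ YY (↑(RO m ρ c) : Set Edg) ↑(tubeD m ρ c) (F ∪ ↑(endE m ρ c)))
    (hbD : b ∈ VD (↑(tubeD m ρ c) : Set Edg)) (hab : b ∈ ball a (l:ℤ)) :
    (∀ e ∈ (F ∩ ↑(boxE m)) ∪ ((↑(RE (m:ℤ) (m + 14 * ρ) (c - ((ρ / 2 : ℕ) : ℤ))
      (c + ((ρ / 2 : ℕ) : ℤ))) : Set Edg) \ ↑(boxE m)), e ∉ eball a (l:ℤ)) ∨
      DReach (H0s (↑(RO m ρ c) : Set Edg) ↑(tubeD m ρ c) (F ∪ ↑(endE m ρ c)) ∩
        eball a ((ρ / 2 : ℕ) : ℤ)) a b := by
  have hc1 := abs_le.mp (show |c| ≤ (m:ℤ) - 4 * ρ by omega)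
  have hρ1 : 1 ≤ ρ := by omega
  have ha1 := NR1_VDY hρ1 hc ha haD
  have hb1 := NR1_VDY hρ1 hc hb hbD
  rw [NR1_ball] at hab
  by_cases h1 : (m:ℤ) + l + 1 ≤ a.1
  · -- far from the mouth
    left
    have ha2 : a.2 = c + ρ ∨ a.2 = c - ρ - 1 := by omega
    rintro e he ⟨h2, h3⟩
    rw [NR1_ball] at h2 h3
    rcases he with ⟨-, he⟩ | ⟨he, -⟩
    · obtain ⟨x, y, _ | _⟩ := e
      · rw [Finset.mem_coe, NR1_boxE_false] at he
        simp only [dsrc_false, dtgt_mk] at h2 h3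
        omega
      · rw [Finset.mem_coe, NR1_boxE_true] at he
        simp only [dsrc_true, dtgt_mk] at h2 h3
        omega
    · obtain ⟨x, y, _ | _⟩ := e
      · rw [Finset.mem_coe, mem_RE_false] at he
        simp only [dsrc_false, dtgt_mk] at h2 h3
        omega
      · rw [Finset.mem_coe, mem_RE_true] at he
        simp only [dsrc_true, dtgt_mk] at h2 h3
        omega
  right
  obtain ⟨h3d, hK1, hK2⟩ := hG
  by_cases h2 : c + ρ - (r + l + 1) ≤ a.2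
  · exact NR1_corner (s1 := c + ρ) (s2 := c + ρ + ((ρ / 4 : ℕ) : ℤ) - 1) (by omega) hρ hc
      (Or.inl ⟨rfl, rfl, rfl⟩) hK1 ha hb
      ⟨by omega, by omega, by omega, by omega⟩ ⟨by omega, by omega, by omega, by omega⟩
  by_cases h3 : a.2 ≤ c - ρ + (r + l + 1)
  · exact NR1_corner (s1 := c - ρ - ((ρ / 4 : ℕ) : ℤ) + 1) (s2 := c - ρ - 1) (by omega) hρ hc
      (Or.inr ⟨rfl, rfl, rfl⟩) hK2 ha hb
      ⟨by omega, by omega, by omega, by omega⟩ ⟨by omega, by omega, by omega, by omega⟩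
  -- both faces are in the mouth
  have ha2 : a.1 = m := by omega
  have hb2 : b.1 = m := by omega
  have ea : a = ((m:ℤ), a.2) := Prod.ext ha2 rfl
  have eb : b = ((m:ℤ), b.2) := Prod.ext hb2 rfl
  obtain ⟨k, hk1, hk2⟩ : ∃ k : ℤ, (l:ℤ) * k ≤ a.2 ∧ a.2 < l * k + l := by
    refine ⟨a.2 / l, ?_, ?_⟩
    · exact Int.mul_ediv_self_le (by omega)
    · have := Int.lt_mul_ediv_self_add (x := a.2) (k := (l:ℤ)) (by omega)
      linarith
  have h4 := h3d k (by rw [abs_le]; constructor <;> omega)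
  have h5 : DReach (↑(hbR m (l * k) r) \ F) ((m:ℤ), a.2) ((m:ℤ), b.2) := by
    by_contra h6
    apply h4
    refine ⟨a.2, b.2, ?_, ?_, ?_, ?_, h6⟩
    · rw [abs_le]; push_cast; constructor <;> omega
    · rw [abs_le]; push_cast; constructor <;> omega
    · exact NR1_rim (by omega) hρ hc (by omega) (by omega) (ea ▸ ha)
    · exact NR1_rim (by omega) hρ hc (by omega) (by omega) (eb ▸ hb)
  rw [← ea, ← eb] at h5
  refine h5.mono ?_
  rintro e ⟨he1, he2⟩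
  have he3 : e ∈ boxE m := by
    unfold hbR at he1
    obtain ⟨x, y, _ | _⟩ := e
    · rw [Finset.mem_coe, mem_RE_false] at he1
      rw [NR1_boxE_false]
      omega
    · rw [Finset.mem_coe, mem_RE_true] at he1
      rw [NR1_boxE_true]
      omega
  refine ⟨NR1_box_H0 ⟨he3, he2⟩, ?_⟩
  unfold hbR at he1
  constructor
  · rw [NR1_ball]
    obtain ⟨x, y, _ | _⟩ := e
    · rw [Finset.mem_coe, mem_RE_false] at he1
      simp only [dsrc_false]
      omega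
    · rw [Finset.mem_coe, mem_RE_true] at he1
      simp only [dsrc_true]
      omega
  · rw [NR1_ball]
    obtain ⟨x, y, _ | _⟩ := e
    · rw [Finset.mem_coe, mem_RE_false] at he1
      simp only [dtgt_mk]
      omega
    · rw [Finset.mem_coe, mem_RE_true] at he1
      simp only [dtgt_mk]
      omega

/-- the path in the tube -/
theorem NR1_tube {m ρ : ℕ} {c u2 : ℤ} (hρ : 8 ≤ ρ) (hu : 2 * |u2 - c| ≤ ρ) :
    Reach ((↑(RE (m:ℤ) (m + 14 * ρ) (c - ((ρ / 2 : ℕ) : ℤ)) (c + ((ρ / 2 : ℕ) : ℤ))) : Set Edg) \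
      ↑(boxE m)) ((m:ℤ), u2) ((m:ℤ) + 14 * ρ, c) := by
  have hu1 := abs_le.mp (show |u2 - c| ≤ ((ρ / 2 : ℕ) : ℤ) by omega)
  set T : Set Edg := (↑(RE (m:ℤ) (m + 14 * ρ) (c - ((ρ / 2 : ℕ) : ℤ))
    (c + ((ρ / 2 : ℕ) : ℤ))) : Set Edg) \ ↑(boxE m) with hT
  have hTt : ∀ x y : ℤ, (m:ℤ) ≤ x → x < m + 14 * ρ → c - ((ρ / 2 : ℕ) : ℤ) ≤ y →
      y ≤ c + ((ρ / 2 : ℕ) : ℤ) → ((x, y, true) : Edg) ∈ T := by
    intro x y h1 h2 h3 h4
    refine ⟨?_, ?_⟩
    · rw [Finset.mem_coe, mem_RE_true]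
      exact ⟨h1, h2, h3, h4⟩
    · rw [Finset.mem_coe, NR1_boxE_true]
      omega
  have hTf : ∀ x y : ℤ, (m:ℤ) < x → x ≤ m + 14 * ρ → c - ((ρ / 2 : ℕ) : ℤ) ≤ y →
      y < c + ((ρ / 2 : ℕ) : ℤ) → ((x, y, false) : Edg) ∈ T := by
    intro x y h1 h2 h3 h4
    refine ⟨?_, ?_⟩
    · rw [Finset.mem_coe, mem_RE_false]
      exact ⟨h1.le, h2, h3, h4⟩
    · rw [Finset.mem_coe, NR1_boxE_false]
      omega
  have h1 : Reach T ((m:ℤ), u2) ((m:ℤ) + (1 : ℕ), u2) :=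
    NR1_hor 1 (fun t g1 g2 => hTt t u2 g1 (by push_cast at g2; omega) (by omega) (by omega))
  have h2 : Reach T ((m:ℤ) + (1 : ℕ), u2) ((m:ℤ) + (1 : ℕ), c) := by
    rcases le_total u2 c with h3 | h3
    · obtain ⟨n, hn⟩ := Int.eq_ofNat_of_zero_le (sub_nonneg.mpr h3)
      have e1 : c = u2 + n := by omega
      have h4 : Reach T ((m:ℤ) + (1 : ℕ), u2) ((m:ℤ) + (1 : ℕ), u2 + n) :=
        NR1_ver n (fun t g1 g2 => hTf _ t (by push_cast; omega) (by push_cast; omega)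
          (by omega) (by omega))
      rw [← e1] at h4
      exact h4
    · obtain ⟨n, hn⟩ := Int.eq_ofNat_of_zero_le (sub_nonneg.mpr h3)
      have e1 : u2 = c + n := by omega
      have h4 : Reach T ((m:ℤ) + (1 : ℕ), c) ((m:ℤ) + (1 : ℕ), c + n) :=
        NR1_ver n (fun t g1 g2 => hTf _ t (by push_cast; omega) (by push_cast; omega)
          (by omega) (by omega))
      rw [← e1] at h4
      exact h4.symm
  have h3 : Reach T ((m:ℤ) + (1 : ℕ), c) ((m:ℤ) + (1 : ℕ) + ((14 * ρ - 1 : ℕ) : ℤ), c) :=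
    NR1_hor _ (fun t g1 g2 => hTt t c (by push_cast at g1; omega)
      (by push_cast at g2; omega) (by omega) (by omega))
  have e2 : (m:ℤ) + (1 : ℕ) + ((14 * ρ - 1 : ℕ) : ℤ) = (m:ℤ) + 14 * ρ := by
    push_cast; omega
  rw [e2] at h3
  exact (h1.trans h2).trans h3

theorem near_right {m ρ r l : ℕ} {c : ℤ} (hl : 1 ≤ l) (hr : 8 * l ≤ r) (hρ : 16 * r ≤ ρ)
    (hc : |c| + 4 * ρ ≤ m) {F : Set Edg} (hv : Lv m ρ c F) (hG : Gd m ρ r l c F)
    {Z : Edg → ZMod 2}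
    (hZ : ∀ v, vb Z v = b2 (((0, 0) : Vtx) = v) + b2 ((((m:ℤ) + 14 * ρ, c) : Vtx) = v)) :
    PotHyp (↑(RO m ρ c) : Set Edg) ↑(tubeD m ρ c) (F ∪ ↑(endE m ρ c)) Z l := by
  have hc1 := abs_le.mp (show |c| ≤ (m:ℤ) - 4 * ρ by omega)
  have hρ1 : 1 ≤ ρ := by omega
  obtain ⟨u2, hu, hreach⟩ := hv
  refine pot_of_near (A := (F ∩ ↑(boxE m)) ∪ ((↑(RE (m:ℤ) (m + 14 * ρ)
    (c - ((ρ / 2 : ℕ) : ℤ)) (c + ((ρ / 2 : ℕ) : ℤ))) : Set Edg) \ ↑(boxE m)))
    (ρ := ((ρ / 2 : ℕ) : ℤ)) (x := (0, 0)) (y := ((m:ℤ) + 14 * ρ, c)) ?_ ?_ ?_ ?_ ?_ hZ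
  · rintro e (⟨h1, h2⟩ | ⟨h1, h2⟩)
    · refine ⟨?_, Or.inr (Or.inl h1)⟩
      rw [Finset.mem_coe, mem_RO]
      exact Or.inl h2
    · obtain ⟨x, y, _ | _⟩ := e
      · rw [Finset.mem_coe, mem_RE_false] at h1
        rw [Finset.mem_coe, NR1_boxE_false] at h2
        refine ⟨?_, ?_⟩
        · rw [Finset.mem_coe, NR1_RO_false]
          right
          omega
        · rw [Set.mem_union, Set.mem_union, Finset.mem_coe, Finset.mem_coe,
            NR1_tubeD_false (by omega), NR1_endE_false]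
          have h3 : (m:ℤ) < x := by
            by_contra h4
            exact h2 ⟨by omega, by omega, by omega, by omega⟩
          by_cases h4 : x ≤ (m:ℤ) + 10 * ρ
          · exact Or.inl ⟨h3, h4, by omega, by omega⟩
          · exact Or.inr (Or.inr ⟨by omega, h1.2.1, by omega, by omega⟩)
      · rw [Finset.mem_coe, mem_RE_true] at h1
        refine ⟨?_, ?_⟩
        · rw [Finset.mem_coe, NR1_RO_true]
          right
          omega
        · rw [Set.mem_union, Set.mem_union, Finset.mem_coe, Finset.mem_coe,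
            NR1_tubeD_true, NR1_endE_true]
          by_cases h4 : x < (m:ℤ) + 10 * ρ
          · exact Or.inl ⟨h1.1, h4, by omega, by omega⟩
          · exact Or.inr (Or.inr ⟨by omega, h1.2.1, by omega, by omega⟩)
  · omega
  · intro a ha v hv'
    have h0 : (m:ℤ) ≤ a.1 ∧ a.1 ≤ m + 10 * ρ := by
      obtain ⟨⟨x, y, _ | _⟩, he, hz⟩ := ha
      · rw [Finset.mem_coe, NR1_tubeD_false (by omega)] at he
        rcases hz with rfl | rfl
        · simp only [dsrc_false]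
          omega
        · simp only [dtgt_mk]
          omega
      · rw [Finset.mem_coe, NR1_tubeD_true] at he
        rcases hz with rfl | rfl
        · simp only [dsrc_true]
          omega
        · simp only [dtgt_mk]
          omega
    rcases hv' with rfl | rfl
    · simp only
      omega
    · simp only
      omega
  · intro a ha haD b hb hbD hab
    exact NR1_near hl hr hρ hc hG ha haD hb hbD hab
  · refine (hreach.mono Set.subset_union_left).trans ?_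
    exact (NR1_tube (by omega) hu).mono Set.subset_union_right

end H985T
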