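import Pool.Agent.H985R3.TA.Defs4
import Pool.Agent.H985R3.TA.NR1

/-!
# Two-arm project, task NI1: geometry of the mouth of the inward tube (open arm)
-/

set_option autoImplicit false

namespace H985T

open H974 Finset

theorem NI1_An_true {a N : ℕ} {x y : ℤ} :
    ((x, y, true) : Edg) ∈ An a N ↔ (-(N:ℤ) ≤ x ∧ x < N ∧ -(N:ℤ) ≤ y ∧ y ≤ N) ∧
      ¬ (-(a:ℤ) ≤ x ∧ x < a ∧ -(a:ℤ) ≤ y ∧ y ≤ a) := by
  unfold An; rw [Finset.mem_sdiff, NR1_boxE_true, NR1_boxE_true]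

theorem NI1_An_false {a N : ℕ} {x y : ℤ} :
    ((x, y, false) : Edg) ∈ An a N ↔ (-(N:ℤ) ≤ x ∧ x ≤ N ∧ -(N:ℤ) ≤ y ∧ y < N) ∧
      ¬ (-(a:ℤ) ≤ x ∧ x ≤ a ∧ -(a:ℤ) ≤ y ∧ y < a) := by
  unfold An; rw [Finset.mem_sdiff, NR1_boxE_false, NR1_boxE_false]

theorem NI1_Rg_true {N : ℕ} {x y : ℤ} :
    ((x, y, true) : Edg) ∈ Rg N ↔
      (-(N:ℤ) - 1 ≤ x ∧ x < (N:ℤ) + 1 ∧ -(N:ℤ) - 1 ≤ y ∧ y ≤ (N:ℤ) + 1) ∧
      ¬ (-(N:ℤ) ≤ x ∧ x < N ∧ -(N:ℤ) ≤ y ∧ y ≤ N) := by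
  unfold Rg; rw [Finset.mem_sdiff, NR1_boxE_true, mem_RE_true]

theorem NI1_Rg_false {N : ℕ} {x y : ℤ} :
    ((x, y, false) : Edg) ∈ Rg N ↔
      (-(N:ℤ) - 1 ≤ x ∧ x ≤ (N:ℤ) + 1 ∧ -(N:ℤ) - 1 ≤ y ∧ y < (N:ℤ) + 1) ∧
      ¬ (-(N:ℤ) ≤ x ∧ x ≤ N ∧ -(N:ℤ) ≤ y ∧ y < N) := by
  unfold Rg; rw [Finset.mem_sdiff, NR1_boxE_false, mem_RE_false]

theorem NI1_tubeI_true {a ρ : ℕ} {c x y : ℤ} :
    ((x, y, true) : Edg) ∈ tubeI a ρ c ↔
      (a:ℤ) - 10 * ρ ≤ x ∧ x < a ∧ c - ρ ≤ y ∧ y ≤ c + ρ := by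
  unfold tubeI; rw [mem_RE_true]

theorem NI1_tubeI_false {a ρ : ℕ} {c x y : ℤ} :
    ((x, y, false) : Edg) ∈ tubeI a ρ c ↔
      (a:ℤ) - 10 * ρ ≤ x ∧ x ≤ a ∧ c - ρ ≤ y ∧ y < c + ρ := by
  unfold tubeI; rw [mem_RE_false]

theorem NI1_endI_true {a ρ : ℕ} {c x y : ℤ} :
    ((x, y, true) : Edg) ∈ endI a ρ c ↔
      (a:ℤ) - 14 * ρ ≤ x ∧ x < (a:ℤ) - 10 * ρ ∧ c - ρ ≤ y ∧ y ≤ c + ρ := by
  unfold endI
  rw [Finset.mem_sdiff, mem_RE_true, NI1_tubeI_true]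
  constructor
  · rintro ⟨h1, h2⟩; exact h1
  · intro h1; exact ⟨h1, fun h2 => by omega⟩

theorem NI1_endI_false {a ρ : ℕ} {c x y : ℤ} :
    ((x, y, false) : Edg) ∈ endI a ρ c ↔
      (a:ℤ) - 14 * ρ ≤ x ∧ x < (a:ℤ) - 10 * ρ ∧ c - ρ ≤ y ∧ y < c + ρ := by
  unfold endI
  rw [Finset.mem_sdiff, mem_RE_false, NI1_tubeI_false]
  constructor
  · rintro ⟨h1, h2⟩
    refine ⟨h1.1, ?_, h1.2.2.1, h1.2.2.2⟩
    by_contra h3
    exact h2 ⟨by omega, by omega, by omega, by omega⟩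
  · intro h1; exact ⟨⟨h1.1, by omega, h1.2.2.1, h1.2.2.2⟩, fun h2 => by omega⟩

theorem NI1_RI_true {a N ρ : ℕ} {c x y : ℤ} (hc : |c| + 20 * ρ ≤ a) (hN : 2 * a ≤ N) :
    ((x, y, true) : Edg) ∈ RI a N ρ c ↔
      ((-(N:ℤ) - 1 ≤ x ∧ x < (N:ℤ) + 1 ∧ -(N:ℤ) - 1 ≤ y ∧ y ≤ (N:ℤ) + 1) ∧
      ¬ (-(a:ℤ) ≤ x ∧ x < a ∧ -(a:ℤ) ≤ y ∧ y ≤ a)) ∨
      ((a:ℤ) - 14 * ρ ≤ x ∧ x < a ∧ c - ρ ≤ y ∧ y ≤ c + ρ) := by
  have hc1 := abs_le.mp (show |c| ≤ (a:ℤ) - 20 * ρ by omega)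
  unfold RI
  rw [Finset.mem_union, Finset.mem_union, Finset.mem_union, NI1_An_true, NI1_tubeI_true,
    NI1_endI_true, NI1_Rg_true]
  constructor
  · rintro ((h | h) | (h | h))
    · left; omega
    · right; omega
    · right; omega
    · left; omega
  · rintro (h | h)
    · by_cases h1 : -(N:ℤ) ≤ x ∧ x < N ∧ -(N:ℤ) ≤ y ∧ y ≤ N
      · left; left; exact ⟨h1, h.2⟩
      · right; right; exact ⟨h.1, h1⟩
    · by_cases h1 : (a:ℤ) - 10 * ρ ≤ x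
      · left; right; omega
      · right; left; omega

theorem NI1_RI_false {a N ρ : ℕ} {c x y : ℤ} (hc : |c| + 20 * ρ ≤ a) (hN : 2 * a ≤ N) :
    ((x, y, false) : Edg) ∈ RI a N ρ c ↔
      ((-(N:ℤ) - 1 ≤ x ∧ x ≤ (N:ℤ) + 1 ∧ -(N:ℤ) - 1 ≤ y ∧ y < (N:ℤ) + 1) ∧
      ¬ (-(a:ℤ) ≤ x ∧ x ≤ a ∧ -(a:ℤ) ≤ y ∧ y < a)) ∨
      ((a:ℤ) - 14 * ρ ≤ x ∧ x ≤ a ∧ c - ρ ≤ y ∧ y < c + ρ) := by
  have hc1 := abs_le.mp (show |c| ≤ (a:ℤ) - 20 * ρ by omega)
  unfold RI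
  rw [Finset.mem_union, Finset.mem_union, Finset.mem_union, NI1_An_false, NI1_tubeI_false,
    NI1_endI_false, NI1_Rg_false]
  constructor
  · rintro ((h | h) | (h | h))
    · left; omega
    · right; omega
    · right; omega
    · left; omega
  · rintro (h | h)
    · by_cases h1 : -(N:ℤ) ≤ x ∧ x ≤ N ∧ -(N:ℤ) ≤ y ∧ y < N
      · left; left; exact ⟨h1, h.2⟩
      · right; right; exact ⟨h.1, h1⟩
    · by_cases h1 : (a:ℤ) - 10 * ρ ≤ x
      · left; right; omega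
      · right; left; omega

/-- closed edges of the start environment inside the region are closed edges of the annulus -/
theorem NI1_H0_An {a N ρ : ℕ} {c : ℤ} {F : Set Edg} {e : Edg}
    (he : e ∈ H0s (↑(RI a N ρ c) : Set Edg) ↑(tubeI a ρ c) (F ∪ ↑(endI a ρ c ∪ Rg N)))
    (heO : e ∈ RI a N ρ c) : e ∈ (↑(An a N) : Set Edg) \ F := by
  have h1 : e ∉ tubeI a ρ c ∧ e ∉ F ∧ e ∉ endI a ρ c ∪ Rg N := by
    refine ⟨fun h => he ⟨heO, Or.inl h⟩, fun h => he ⟨heO, Or.inr (Or.inl h)⟩,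
      fun h => he ⟨heO, Or.inr (Or.inr h)⟩⟩
  refine ⟨?_, h1.2.1⟩
  have h2 := heO
  unfold RI at h2
  rw [Finset.mem_union, Finset.mem_union] at h2
  rcases h2 with (h2 | h2) | h2
  · exact h2
  · exact absurd h2 h1.1
  · exact absurd h2 h1.2.2

theorem NI1_An_H0 {a N ρ : ℕ} {c : ℤ} (hc : |c| + 20 * ρ ≤ a) {F : Set Edg} {e : Edg}
    (he : e ∈ (↑(An a N) : Set Edg) \ F) :
    e ∈ H0s (↑(RI a N ρ c) : Set Edg) ↑(tubeI a ρ c) (F ∪ ↑(endI a ρ c ∪ Rg N)) := by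
  have hc1 := abs_le.mp (show |c| ≤ (a:ℤ) - 20 * ρ by omega)
  rintro ⟨-, h1 | h1 | h1⟩
  · obtain ⟨x, y, _ | _⟩ := e
    · have h2 := he.1
      rw [Finset.mem_coe, NI1_tubeI_false] at h1
      rw [Finset.mem_coe, NI1_An_false] at h2
      omega
    · have h2 := he.1
      rw [Finset.mem_coe, NI1_tubeI_true] at h1
      rw [Finset.mem_coe, NI1_An_true] at h2
      omega
  · exact he.2 h1
  · obtain ⟨x, y, _ | _⟩ := e
    · have h2 := he.1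
      rw [Finset.mem_coe, Finset.mem_union, NI1_endI_false, NI1_Rg_false] at h1
      rw [Finset.mem_coe, NI1_An_false] at h2
      rcases h1 with h1 | h1
      · omega
      · exact h1.2 h2.1
    · have h2 := he.1
      rw [Finset.mem_coe, Finset.mem_union, NI1_endI_true, NI1_Rg_true] at h1
      rw [Finset.mem_coe, NI1_An_true] at h2
      rcases h1 with h1 | h1
      · omega
      · exact h1.2 h2.1

/-- an explored face is joined by closed edges of the annulus to a face with an outside edge -/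
theorem NI1_out {a N ρ : ℕ} {c : ℤ} {F : Set Edg} {u : Vtx}
    (hu : u ∈ YY (↑(RI a N ρ c) : Set Edg) ↑(tubeI a ρ c) (F ∪ ↑(endI a ρ c ∪ Rg N))) :
    ∃ z, (∃ e, e ∉ RI a N ρ c ∧ (dsrc e = z ∨ dtgt e = z)) ∧
      DReach ((↑(An a N) : Set Edg) \ F) u z := by
  obtain ⟨e, he, h⟩ := hu
  rcases NR1_exit (G' := (↑(An a N) : Set Edg) \ F)
    (P := fun z => ∀ e, (dsrc e = z ∨ dtgt e = z) → e ∈ RI a N ρ c) (by
      intro e' he' b c' hb hc
      refine NI1_H0_An he' (hb e' ?_)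
      rcases hc with h1 | h1
      · exact Or.inl h1.1
      · exact Or.inr h1.2) h.symm with h1 | ⟨z, hz, h1⟩
  · exact absurd (h1.1 e (Or.inr rfl)) he
  · push Not at hz
    obtain ⟨e', h2, h3⟩ := hz
    exact ⟨z, ⟨e', h3, h2⟩, h1⟩

/-- a face with an outside edge is not inside the region -/
theorem NI1_face {a N ρ : ℕ} {c : ℤ} (hc : |c| + 20 * ρ ≤ a) (hN : 2 * a ≤ N) {z : Vtx}
    (h : ∃ e, e ∉ RI a N ρ c ∧ (dsrc e = z ∨ dtgt e = z)) :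
    ¬ ((a:ℤ) - 14 * ρ ≤ z.1 ∧ z.1 ≤ a ∧ c - ρ ≤ z.2 ∧ z.2 < c + ρ) ∧
      ¬ ((a:ℤ) < z.1 ∧ z.1 ≤ N ∧ -(N:ℤ) ≤ z.2 ∧ z.2 ≤ N) := by
  have hc1 := abs_le.mp (show |c| ≤ (a:ℤ) - 20 * ρ by omega)
  obtain ⟨⟨x, y, _ | _⟩, he, hz⟩ := h
  · rw [NI1_RI_false hc hN] at he
    rcases hz with rfl | rfl
    · simp only [dsrc_false]
      omega
    · simp only [dtgt_mk]
      omega
  · rw [NI1_RI_true hc hN] at he
    rcases hz with rfl | rfl
    · simp only [dsrc_true]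
      omega
    · simp only [dtgt_mk]
      omega

/-- faces next to the tube -/
theorem NI1_VD {a ρ : ℕ} {c : ℤ} {u : Vtx} (hD : u ∈ VD (↑(tubeI a ρ c) : Set Edg)) :
    (a:ℤ) - 10 * ρ - 1 ≤ u.1 ∧ u.1 ≤ a ∧ c - ρ - 1 ≤ u.2 ∧ u.2 ≤ c + ρ ∧
      (u.2 = c + ρ ∨ u.2 = c - ρ - 1 → (a:ℤ) - 10 * ρ ≤ u.1 ∧ u.1 < a) := by
  obtain ⟨⟨x, y, _ | _⟩, he, hz⟩ := hD
  · rw [Finset.mem_coe, NI1_tubeI_false] at he
    rcases hz with rfl | rfl
    · simp only [dsrc_false]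
      omega
    · simp only [dtgt_mk]
      omega
  · rw [Finset.mem_coe, NI1_tubeI_true] at he
    rcases hz with rfl | rfl
    · simp only [dsrc_true]
      omega
    · simp only [dtgt_mk]
      omega

/-- explored faces next to the tube -/
theorem NI1_VDY {a N ρ : ℕ} {c : ℤ} {F : Set Edg} (hρ : 1 ≤ ρ) (hc : |c| + 20 * ρ ≤ a)
    (hN : 2 * a ≤ N) {u : Vtx}
    (hu : u ∈ YY (↑(RI a N ρ c) : Set Edg) ↑(tubeI a ρ c) (F ∪ ↑(endI a ρ c ∪ Rg N)))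
    (hD : u ∈ VD (↑(tubeI a ρ c) : Set Edg)) :
    ((a:ℤ) - 10 * ρ ≤ u.1 ∧ u.1 < a ∧ (u.2 = c + ρ ∨ u.2 = c - ρ - 1)) ∨
      (u.1 = a ∧ c - ρ ≤ u.2 ∧ u.2 < c + ρ) := by
  have hc1 := abs_le.mp (show |c| ≤ (a:ℤ) - 20 * ρ by omega)
  have h0 := NI1_VD hD
  by_cases h1 : u.2 = c + ρ ∨ u.2 = c - ρ - 1
  · exact Or.inl ⟨(h0.2.2.2.2 h1).1, (h0.2.2.2.2 h1).2, h1⟩
  by_cases h2 : u.1 = a
  · exact Or.inr ⟨h2, by omega, by omega⟩
  exfalso
  obtain ⟨z, hz, h3⟩ := NI1_out hu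
  -- the face `u` is isolated
  have h4 : z = u := by
    rcases Relation.ReflTransGen.cases_head h3 with h4 | ⟨w, ⟨e, he, hc⟩, -⟩
    · exact h4.symm
    · exfalso
      obtain ⟨x, y, _ | _⟩ := e
      · have h5 := he.1
        rw [Finset.mem_coe, NI1_An_false] at h5
        simp only [dsrc_false, dtgt_mk] at hc
        rcases hc with ⟨h6, h7⟩ | ⟨h6, h7⟩
        · rw [← h6] at h0 h1 h2
          simp only at h0 h1 h2
          omega
        · rw [← h7] at h0 h1 h2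
          simp only at h0 h1 h2
          omega
      · have h5 := he.1
        rw [Finset.mem_coe, NI1_An_true] at h5
        simp only [dsrc_true, dtgt_mk] at hc
        rcases hc with ⟨h6, h7⟩ | ⟨h6, h7⟩
        · rw [← h6] at h0 h1 h2
          simp only at h0 h1 h2
          omega
        · rw [← h7] at h0 h1 h2
          simp only at h0 h1 h2
          omega
  rw [h4] at hz
  have h5 := (NI1_face hc hN hz).1
  omega

/-- faces of a rectangle are joined by the first column and the rows -/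
theorem NI1_drect {G : Set Edg} {p q r s : ℤ}
    (hh : ∀ t y : ℤ, p < t → t ≤ q → r ≤ y → y ≤ s → ((t, y, false) : Edg) ∈ G)
    (hv : ∀ t : ℤ, r < t → t ≤ s → ((p, t, true) : Edg) ∈ G)
    {z : Vtx} (h1 : p ≤ z.1) (h2 : z.1 ≤ q) (h3 : r ≤ z.2) (h4 : z.2 ≤ s) :
    DReach G (p, r) z := by
  obtain ⟨n, hn⟩ := Int.eq_ofNat_of_zero_le (sub_nonneg.mpr h1)
  obtain ⟨k, hk⟩ := Int.eq_ofNat_of_zero_le (sub_nonneg.mpr h3)
  have e1 : z.1 = p + n := by omega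
  have e2 : z.2 = r + k := by omega
  have g1 : DReach G (p, r) (p, r + k) :=
    NR1_dver k (fun t h5 h6 => hv t h5 (by omega))
  have g2 : DReach G (p, r + k) (p + n, r + k) :=
    NR1_dhor n (fun t h5 h6 => hh t _ h5 (by omega) (by omega) (by omega))
  have e3 : z = (p + n, r + k) := Prod.ext e1 e2
  rw [e3]
  exact g1.trans g2

/-- the two corners of the mouth -/
theorem NI1_corner {a N ρ r : ℕ} {c K s1 s2 : ℤ} (hr : 8 ≤ r) (hρ : 16 * r ≤ ρ)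
    (hc : |c| + 20 * ρ ≤ a) (hN : 2 * a ≤ N) {F : Set Edg}
    (hs : (s1 = K ∧ s2 = K + ((ρ / 4 : ℕ) : ℤ) - 1 ∧ K = c + ρ) ∨
      (s1 = K - ((ρ / 4 : ℕ) : ℤ) + 1 ∧ s2 = K - 1 ∧ K = c - ρ))
    (hno : ¬ H12S.DCrs a K (2 * r) (ρ / 4) ((↑(An a N) : Set Edg) \ F)) {u v : Vtx}
    (hu : u ∈ YY (↑(RI a N ρ c) : Set Edg) ↑(tubeI a ρ c) (F ∪ ↑(endI a ρ c ∪ Rg N)))
    (hv : v ∈ YY (↑(RI a N ρ c) : Set Edg) ↑(tubeI a ρ c) (F ∪ ↑(endI a ρ c ∪ Rg N)))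
    (huK : (a:ℤ) - 2 * r ≤ u.1 ∧ u.1 ≤ a + 2 * r ∧ K - 2 * r ≤ u.2 ∧ u.2 ≤ K + 2 * r)
    (hvK : (a:ℤ) - 2 * r ≤ v.1 ∧ v.1 ≤ a + 2 * r ∧ K - 2 * r ≤ v.2 ∧ v.2 ≤ K + 2 * r) :
    DReach (H0s (↑(RI a N ρ c) : Set Edg) ↑(tubeI a ρ c) (F ∪ ↑(endI a ρ c ∪ Rg N)) ∩
      eball u ((ρ / 2 : ℕ) : ℤ)) u v := by
  have hc1 := abs_le.mp (show |c| ≤ (a:ℤ) - 20 * ρ by omega)
  set B : Set Vtx := {z | ((a:ℤ) - ((ρ / 4 : ℕ) : ℤ) < z.1 ∧ z.1 < a + ((ρ / 4 : ℕ) : ℤ)) ∧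
    (K - ((ρ / 4 : ℕ) : ℤ) < z.2 ∧ z.2 < K + ((ρ / 4 : ℕ) : ℤ))} with hB
  have hloc : ∀ a' : Vtx, ((a:ℤ) - 2 * r ≤ a'.1 ∧ a'.1 ≤ a + 2 * r ∧ K - 2 * r ≤ a'.2 ∧
      a'.2 ≤ K + 2 * r) → ∀ z, DReach ((↑(An a N) : Set Edg) \ F) a' z → z ∈ B := by
    intro a' h1 z h2
    by_contra h3
    apply hno
    refine ⟨a', z, ⟨⟨?_, ?_⟩, ?_, ?_⟩, ?_, h2⟩
    · push_cast; omega
    · push_cast; omega
    · push_cast; omega
    · push_cast; omega
    · by_contra h4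
      push Not at h4
      exact h3 ⟨⟨h4.1, h4.2.1⟩, h4.2.2.1, h4.2.2.2⟩
  have hBb : ∀ z ∈ B, z ∈ ball u ((ρ / 2 : ℕ) : ℤ) := by
    intro z hz
    rw [NR1_ball]
    have h1 := hz.1
    have h2 := hz.2
    refine ⟨⟨?_, ?_⟩, ?_, ?_⟩ <;> omega
  set G : Set Edg := H0s (↑(RI a N ρ c) : Set Edg) ↑(tubeI a ρ c)
      (F ∪ ↑(endI a ρ c ∪ Rg N)) ∩ eball u ((ρ / 2 : ℕ) : ℤ) with hG
  have hmain : ∀ a' ∈ YY (↑(RI a N ρ c) : Set Edg) ↑(tubeI a ρ c)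
        (F ∪ ↑(endI a ρ c ∪ Rg N)),
      ((a:ℤ) - 2 * r ≤ a'.1 ∧ a'.1 ≤ a + 2 * r ∧ K - 2 * r ≤ a'.2 ∧ a'.2 ≤ K + 2 * r) →
      DReach G a' ((a:ℤ) - ((ρ / 4 : ℕ) : ℤ) + 1, s1) := by
    intro a' h1 h2
    obtain ⟨z, hz, h3⟩ := NI1_out h1
    have hzB : z ∈ B := hloc a' h2 z h3
    have h4 : DReach G a' z := by
      refine (NR1_local (hloc a' h2) h3).mono ?_
      rintro e ⟨he1, he2, he3⟩
      exact ⟨NI1_An_H0 hc he1, hBb _ he2, hBb _ he3⟩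
    have h5 := NI1_face hc hN hz
    have h6 := hzB.1
    have h7 := hzB.2
    have hz1 : z.1 ≤ (a:ℤ) := by
      by_contra h8
      apply h5.2
      refine ⟨?_, ?_, ?_, ?_⟩ <;> omega
    have hz2 : s1 ≤ z.2 ∧ z.2 ≤ s2 := by
      rcases hs with h8 | h8
      · refine ⟨?_, by omega⟩
        by_contra h9
        exact h5.1 ⟨by omega, hz1, by omega, by omega⟩
      · refine ⟨by omega, ?_⟩
        by_contra h9
        exact h5.1 ⟨by omega, hz1, by omega, by omega⟩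
    have h8 : DReach G ((a:ℤ) - ((ρ / 4 : ℕ) : ℤ) + 1, s1) z := by
      refine NI1_drect (p := (a:ℤ) - ((ρ / 4 : ℕ) : ℤ) + 1) (q := (a:ℤ)) (r := s1) (s := s2)
        ?_ ?_ (by omega) hz1 hz2.1 hz2.2
      · intro t y g1 g2 g3 g4
        refine ⟨?_, hBb _ ?_, hBb _ ?_⟩
        · rintro ⟨g5, -⟩
          rw [Finset.mem_coe, NI1_RI_false hc hN] at g5
          omega
        · simp only [dsrc_false]
          rw [hB]
          refine ⟨⟨?_, ?_⟩, ?_, ?_⟩ <;> simp only <;> omega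
        · simp only [dtgt_mk]
          rw [hB]
          refine ⟨⟨?_, ?_⟩, ?_, ?_⟩ <;> simp only <;> omega
      · intro t g3 g4
        refine ⟨?_, hBb _ ?_, hBb _ ?_⟩
        · rintro ⟨g5, -⟩
          rw [Finset.mem_coe, NI1_RI_true hc hN] at g5
          omega
        · simp only [dsrc_true]
          rw [hB]
          refine ⟨⟨?_, ?_⟩, ?_, ?_⟩ <;> simp only <;> omega
        · simp only [dtgt_mk]
          rw [hB]
          refine ⟨⟨?_, ?_⟩, ?_, ?_⟩ <;> simp only <;> omega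
    exact h4.trans h8.symm
  exact (hmain u hu huK).trans (hmain v hv hvK).symm

theorem NI1_hb_An {a N ρ r : ℕ} {c y0 : ℤ} (hr : 8 ≤ r) (hρ : 16 * r ≤ ρ)
    (hc : |c| + 20 * ρ ≤ a) (hN : 2 * a ≤ N) (h1 : c - ρ + r ≤ y0) (h2 : y0 + r ≤ c + ρ)
    {e : Edg} (he : e ∈ hbI a y0 r) : e ∈ An a N := by
  have hc1 := abs_le.mp (show |c| ≤ (a:ℤ) - 20 * ρ by omega)
  unfold hbI at he
  rw [Finset.mem_sdiff] at he
  unfold An
  rw [Finset.mem_sdiff]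
  refine ⟨?_, he.2⟩
  have he1 := he.1
  obtain ⟨x, y, _ | _⟩ := e
  · rw [mem_RE_false] at he1
    rw [NR1_boxE_false]
    omega
  · rw [mem_RE_true] at he1
    rw [NR1_boxE_true]
    omega

/-- a path from a mouth face reaches the rim of the half ball inside the half ball -/
theorem NI1_rim {a N ρ r : ℕ} {c y0 : ℤ} (hr : 8 ≤ r) (hρ : 16 * r ≤ ρ)
    (hc : |c| + 20 * ρ ≤ a) (hN : 2 * a ≤ N) {F : Set Edg} (h1 : c - ρ + r ≤ y0)
    (h2 : y0 + r ≤ c + ρ) {ya : ℤ} (ha : ((a:ℤ), ya) ∈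
      YY (↑(RI a N ρ c) : Set Edg) ↑(tubeI a ρ c) (F ∪ ↑(endI a ρ c ∪ Rg N))) :
    ∃ z : Vtx, ((a:ℤ) + r ≤ z.1 ∨ z.2 < y0 - r ∨ y0 + r ≤ z.2) ∧
      DReach (↑(hbI a y0 r) \ F) ((a:ℤ), ya) z := by
  have hc1 := abs_le.mp (show |c| ≤ (a:ℤ) - 20 * ρ by omega)
  obtain ⟨z, hz, h3⟩ := NI1_out ha
  rcases NR1_exit (G' := (↑(hbI a y0 r) : Set Edg) \ F)
    (P := fun z => (a:ℤ) ≤ z.1 ∧ z.1 < a + r ∧ y0 - r ≤ z.2 ∧ z.2 < y0 + r) (by
      rintro e he b c' hb hc'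
      refine ⟨?_, he.2⟩
      have he1 := he.1
      unfold hbI
      rw [Finset.mem_coe, Finset.mem_sdiff]
      obtain ⟨x, y, _ | _⟩ := e
      · rw [Finset.mem_coe, NI1_An_false] at he1
        rw [NR1_boxE_false, mem_RE_false]
        refine ⟨?_, he1.2⟩
        simp only [dsrc_false, dtgt_mk] at hc'
        rcases hc' with ⟨h6, h7⟩ | ⟨h6, h7⟩
        · rw [← h6] at hb
          simp only at hb
          omega
        · rw [← h7] at hb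
          simp only at hb
          omega
      · rw [Finset.mem_coe, NI1_An_true] at he1
        rw [NR1_boxE_true, mem_RE_true]
        refine ⟨?_, he1.2⟩
        simp only [dsrc_true, dtgt_mk] at hc'
        rcases hc' with ⟨h6, h7⟩ | ⟨h6, h7⟩
        · rw [← h6] at hb
          simp only at hb
          omega
        · rw [← h7] at hb
          simp only at hb
          omega) h3 with h4 | ⟨w, hw, h4⟩
  · exfalso
    have h5 := NI1_face hc hN hz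
    obtain ⟨⟨h6, h7, h8, h9⟩, -⟩ := h4
    by_cases h10 : z.1 = a
    · exact h5.1 ⟨by omega, by omega, by omega, by omega⟩
    · exact h5.2 ⟨by omega, by omega, by omega, by omega⟩
  · refine ⟨w, ?_, h4⟩
    -- faces reached through edges of the half ball have first coordinate at least `a`
    have h5 : (a:ℤ) ≤ w.1 := by
      rcases Relation.ReflTransGen.cases_tail h4 with h6 | ⟨v, -, e, he, hc'⟩
      · rw [h6]
      · have he1 := he.1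
        unfold hbI at he1
        rw [Finset.mem_coe, Finset.mem_sdiff] at he1
        obtain ⟨x, y, _ | _⟩ := e
        · rw [NR1_boxE_false, mem_RE_false] at he1
          simp only [dsrc_false, dtgt_mk] at hc'
          rcases hc' with ⟨h6, h7⟩ | ⟨h6, h7⟩
          · rw [← h7]
            simp only
            omega
          · rw [← h6]
            simp only
            omega
        · rw [NR1_boxE_true, mem_RE_true] at he1
          simp only [dsrc_true, dtgt_mk] at hc'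
          rcases hc' with ⟨h6, h7⟩ | ⟨h6, h7⟩
          · rw [← h7]
            simp only
            omega
          · rw [← h6]
            simp only
            omega
    by_contra h6
    push Not at h6
    exact hw ⟨h5, h6.1, h6.2.1, h6.2.2⟩

/-- geometry of the mouth of the tube -/
theorem NI1_near {a N ρ r l : ℕ} {c : ℤ} (hl : 1 ≤ l) (hr : 8 * l ≤ r) (hρ : 16 * r ≤ ρ)
    (hc : |c| + 20 * ρ ≤ a) (hN : 2 * a ≤ N) {F : Set Edg} (hG : Gdi a N ρ r l c F)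
    {u v : Vtx}
    (hu : u ∈ YY (↑(RI a N ρ c) : Set Edg) ↑(tubeI a ρ c) (F ∪ ↑(endI a ρ c ∪ Rg N)))
    (huD : u ∈ VD (↑(tubeI a ρ c) : Set Edg))
    (hv : v ∈ YY (↑(RI a N ρ c) : Set Edg) ↑(tubeI a ρ c) (F ∪ ↑(endI a ρ c ∪ Rg N)))
    (hvD : v ∈ VD (↑(tubeI a ρ c) : Set Edg)) (huv : v ∈ ball u (l:ℤ)) :
    (∀ e ∈ ((F ∩ ↑(An a N)) ∪ (↑(RE ((a:ℤ) - 14 * ρ) a (c - ((ρ / 2 : ℕ) : ℤ))
      (c + ((ρ / 2 : ℕ) : ℤ))) : Set Edg)) ∪ (↑(Rg N) : Set Edg), e ∉ eball u (l:ℤ)) ∨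
      DReach (H0s (↑(RI a N ρ c) : Set Edg) ↑(tubeI a ρ c) (F ∪ ↑(endI a ρ c ∪ Rg N)) ∩
        eball u ((ρ / 2 : ℕ) : ℤ)) u v := by
  have hc1 := abs_le.mp (show |c| ≤ (a:ℤ) - 20 * ρ by omega)
  have hρ1 : 1 ≤ ρ := by omega
  have ha1 := NI1_VDY hρ1 hc hN hu huD
  have hb1 := NI1_VDY hρ1 hc hN hv hvD
  rw [NR1_ball] at huv
  by_cases h1 : u.1 ≤ (a:ℤ) - l - 1
  · -- far from the mouth
    left
    have ha2 : u.2 = c + ρ ∨ u.2 = c - ρ - 1 := by omega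
    have ha3 : (a:ℤ) - 10 * ρ ≤ u.1 := by omega
    rintro e he ⟨h2, h3⟩
    rw [NR1_ball] at h2 h3
    rcases he with (⟨-, he⟩ | he) | he
    · obtain ⟨x, y, _ | _⟩ := e
      · rw [Finset.mem_coe, NI1_An_false] at he
        simp only [dsrc_false, dtgt_mk] at h2 h3
        exact he.2 ⟨by omega, by omega, by omega, by omega⟩
      · rw [Finset.mem_coe, NI1_An_true] at he
        simp only [dsrc_true, dtgt_mk] at h2 h3
        exact he.2 ⟨by omega, by omega, by omega, by omega⟩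
    · obtain ⟨x, y, _ | _⟩ := e
      · rw [Finset.mem_coe, mem_RE_false] at he
        simp only [dsrc_false, dtgt_mk] at h2 h3
        omega
      · rw [Finset.mem_coe, mem_RE_true] at he
        simp only [dsrc_true, dtgt_mk] at h2 h3
        omega
    · obtain ⟨x, y, _ | _⟩ := e
      · rw [Finset.mem_coe, NI1_Rg_false] at he
        simp only [dsrc_false, dtgt_mk] at h2 h3
        exact he.2 ⟨by omega, by omega, by omega, by omega⟩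
      · rw [Finset.mem_coe, NI1_Rg_true] at he
        simp only [dsrc_true, dtgt_mk] at h2 h3
        exact he.2 ⟨by omega, by omega, by omega, by omega⟩
  right
  obtain ⟨h3d, hK1, hK2⟩ := hG
  by_cases h2 : c + ρ - (r + l + 1) ≤ u.2
  · exact NI1_corner (s1 := c + ρ) (s2 := c + ρ + ((ρ / 4 : ℕ) : ℤ) - 1) (by omega) hρ hc hN
      (Or.inl ⟨rfl, rfl, rfl⟩) hK1 hu hv
      ⟨by omega, by omega, by omega, by omega⟩ ⟨by omega, by omega, by omega, by omega⟩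
  by_cases h3 : u.2 ≤ c - ρ + (r + l + 1)
  · exact NI1_corner (s1 := c - ρ - ((ρ / 4 : ℕ) : ℤ) + 1) (s2 := c - ρ - 1) (by omega) hρ hc
      hN (Or.inr ⟨rfl, rfl, rfl⟩) hK2 hu hv
      ⟨by omega, by omega, by omega, by omega⟩ ⟨by omega, by omega, by omega, by omega⟩
  -- both faces are in the mouth
  have ha2 : u.1 = a := by omega
  have hb2 : v.1 = a := by omega
  have ea : u = ((a:ℤ), u.2) := Prod.ext ha2 rfl
  have eb : v = ((a:ℤ), v.2) := Prod.ext hb2 rfl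
  obtain ⟨k, hk1, hk2⟩ : ∃ k : ℤ, (l:ℤ) * k ≤ u.2 ∧ u.2 < l * k + l := by
    refine ⟨u.2 / l, ?_, ?_⟩
    · exact Int.mul_ediv_self_le (by omega)
    · have := Int.lt_mul_ediv_self_add (x := u.2) (k := (l:ℤ)) (by omega)
      linarith
  have h4 := h3d k (by rw [abs_le]; constructor <;> omega)
  have h5 : DReach (↑(hbI a (l * k) r) \ F) ((a:ℤ), u.2) ((a:ℤ), v.2) := by
    by_contra h6
    apply h4
    refine ⟨u.2, v.2, ?_, ?_, ?_, ?_, h6⟩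
    · rw [abs_le]; push_cast; constructor <;> omega
    · rw [abs_le]; push_cast; constructor <;> omega
    · exact NI1_rim (by omega) hρ hc hN (by omega) (by omega) (ea ▸ hu)
    · exact NI1_rim (by omega) hρ hc hN (by omega) (by omega) (eb ▸ hv)
  rw [← ea, ← eb] at h5
  refine h5.mono ?_
  rintro e ⟨he1, he2⟩
  have he3 : e ∈ An a N :=
    NI1_hb_An (by omega) hρ hc hN (by omega) (by omega) (Finset.mem_coe.mp he1)
  refine ⟨NI1_An_H0 hc ⟨he3, he2⟩, ?_⟩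
  unfold hbI at he1
  rw [Finset.mem_coe, Finset.mem_sdiff] at he1
  have he4 := he1.1
  constructor
  · rw [NR1_ball]
    obtain ⟨x, y, _ | _⟩ := e
    · rw [mem_RE_false] at he4
      simp only [dsrc_false]
      omega
    · rw [mem_RE_true] at he4
      simp only [dsrc_true]
      omega
  · rw [NR1_ball]
    obtain ⟨x, y, _ | _⟩ := e
    · rw [mem_RE_false] at he4
      simp only [dtgt_mk]
      omega
    · rw [mem_RE_true] at he4
      simp only [dtgt_mk]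
      omega

/-- the path in the tube -/
theorem NI1_tube {a ρ : ℕ} {c u2 : ℤ} (hρ : 8 ≤ ρ) (hu : 2 * |u2 - c| ≤ ρ) :
    Reach (↑(RE ((a:ℤ) - 14 * ρ) a (c - ((ρ / 2 : ℕ) : ℤ)) (c + ((ρ / 2 : ℕ) : ℤ))) : Set Edg)
      ((a:ℤ) - 14 * ρ, c) ((a:ℤ), u2) := by
  have hu1 := abs_le.mp (show |u2 - c| ≤ ((ρ / 2 : ℕ) : ℤ) by omega)
  set T : Set Edg := (↑(RE ((a:ℤ) - 14 * ρ) a (c - ((ρ / 2 : ℕ) : ℤ))
    (c + ((ρ / 2 : ℕ) : ℤ))) : Set Edg) with hT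
  have h1 : Reach T ((a:ℤ) - 14 * ρ, c) ((a:ℤ) - 14 * ρ + ((14 * ρ : ℕ) : ℤ), c) :=
    NR1_hor _ (fun t g1 g2 => by
      rw [hT, Finset.mem_coe, mem_RE_true]
      push_cast at g2
      omega)
  have e1 : (a:ℤ) - 14 * ρ + ((14 * ρ : ℕ) : ℤ) = a := by push_cast; ring
  rw [e1] at h1
  refine h1.trans ?_
  rcases le_total u2 c with h3 | h3
  · obtain ⟨n, hn⟩ := Int.eq_ofNat_of_zero_le (sub_nonneg.mpr h3)
    have e1 : c = u2 + n := by omega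
    have h4 : Reach T ((a:ℤ), u2) ((a:ℤ), u2 + n) :=
      NR1_ver n (fun t g1 g2 => by
        rw [hT, Finset.mem_coe, mem_RE_false]
        omega)
    rw [← e1] at h4
    exact h4.symm
  · obtain ⟨n, hn⟩ := Int.eq_ofNat_of_zero_le (sub_nonneg.mpr h3)
    have e1 : u2 = c + n := by omega
    have h4 : Reach T ((a:ℤ), c) ((a:ℤ), c + n) :=
      NR1_ver n (fun t g1 g2 => by
        rw [hT, Finset.mem_coe, mem_RE_false]
        omega)
    rw [← e1] at h4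
    exact h4

/-- a vertical line of the ring -/
theorem NI1_rver {N : ℕ} {x y y' : ℤ} (hx : x = (N:ℤ) + 1 ∨ x = -(N:ℤ) - 1)
    (h1 : -(N:ℤ) - 1 ≤ y) (h2 : y ≤ (N:ℤ) + 1) (h3 : -(N:ℤ) - 1 ≤ y') (h4 : y' ≤ (N:ℤ) + 1) :
    Reach (↑(Rg N) : Set Edg) (x, y) (x, y') := by
  have key : ∀ y y' : ℤ, y ≤ y' → -(N:ℤ) - 1 ≤ y → y' ≤ (N:ℤ) + 1 →
      Reach (↑(Rg N) : Set Edg) (x, y) (x, y') := by
    intro y y' h5 h6 h7
    obtain ⟨n, hn⟩ := Int.eq_ofNat_of_zero_le (sub_nonneg.mpr h5)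
    have e1 : y' = y + n := by omega
    rw [e1]
    refine NR1_ver n (fun t g1 g2 => ?_)
    rw [Finset.mem_coe, NI1_Rg_false]
    omega
  rcases le_total y y' with h5 | h5
  · exact key y y' h5 h1 h4
  · exact (key y' y h5 h3 h2).symm

/-- a horizontal line of the ring -/
theorem NI1_rhor {N : ℕ} {x x' y : ℤ} (hy : y = (N:ℤ) + 1 ∨ y = -(N:ℤ) - 1)
    (h1 : -(N:ℤ) - 1 ≤ x) (h2 : x ≤ (N:ℤ) + 1) (h3 : -(N:ℤ) - 1 ≤ x') (h4 : x' ≤ (N:ℤ) + 1) :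
    Reach (↑(Rg N) : Set Edg) (x, y) (x', y) := by
  have key : ∀ x x' : ℤ, x ≤ x' → -(N:ℤ) - 1 ≤ x → x' ≤ (N:ℤ) + 1 →
      Reach (↑(Rg N) : Set Edg) (x, y) (x', y) := by
    intro x x' h5 h6 h7
    obtain ⟨n, hn⟩ := Int.eq_ofNat_of_zero_le (sub_nonneg.mpr h5)
    have e1 : x' = x + n := by omega
    rw [e1]
    refine NR1_hor n (fun t g1 g2 => ?_)
    rw [Finset.mem_coe, NI1_Rg_true]
    omega
  rcases le_total x x' with h5 | h5
  · exact key x x' h5 h1 h4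
  · exact (key x' x h5 h3 h2).symm

/-- the ring joins the boundary of the box `N` to `(N+1, 0)` -/
theorem NI1_ring {N : ℕ} {u : Vtx} (hu : onB N u) :
    Reach (↑(Rg N) : Set Edg) u ((N:ℤ) + 1, 0) := by
  obtain ⟨⟨⟨h1, h2⟩, h3, h4⟩, h5⟩ := hu
  have eu : u = (u.1, u.2) := rfl
  rcases h5 with h5 | h5 | h5 | h5
  · -- left side
    have g1 : Reach (↑(Rg N) : Set Edg) (-(N:ℤ) - 1, u.2) (-(N:ℤ) - 1 + (1 : ℕ), u.2) :=
      NR1_hor 1 (fun t g1 g2 => by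
        push_cast at g2
        rw [Finset.mem_coe, NI1_Rg_true]
        omega)
    have e1 : (-(N:ℤ) - 1 + ((1 : ℕ) : ℤ), u.2) = u := by
      refine Prod.ext ?_ rfl
      simp only
      push_cast
      omega
    rw [e1] at g1
    refine g1.symm.trans ?_
    refine (NI1_rver (y' := (N:ℤ) + 1) (Or.inr rfl) (by omega) (by omega) (by omega)
      (by omega)).trans ?_
    refine (NI1_rhor (x' := (N:ℤ) + 1) (Or.inl rfl) (by omega) (by omega) (by omega)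
      (by omega)).trans ?_
    exact NI1_rver (Or.inl rfl) (by omega) (by omega) (by omega) (by omega)
  · -- right side
    have g1 : Reach (↑(Rg N) : Set Edg) ((N:ℤ), u.2) ((N:ℤ) + (1 : ℕ), u.2) :=
      NR1_hor 1 (fun t g1 g2 => by
        push_cast at g2
        rw [Finset.mem_coe, NI1_Rg_true]
        omega)
    have e1 : ((N:ℤ), u.2) = u := Prod.ext h5.symm rfl
    have e2 : ((N:ℤ) + ((1 : ℕ) : ℤ), u.2) = ((N:ℤ) + 1, u.2) := by push_cast; rfl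
    rw [e1, e2] at g1
    refine g1.trans ?_
    exact NI1_rver (Or.inl rfl) (by omega) (by omega) (by omega) (by omega)
  · -- bottom side
    have g1 : Reach (↑(Rg N) : Set Edg) (u.1, -(N:ℤ) - 1) (u.1, -(N:ℤ) - 1 + (1 : ℕ)) :=
      NR1_ver 1 (fun t g1 g2 => by
        push_cast at g2
        rw [Finset.mem_coe, NI1_Rg_false]
        omega)
    have e1 : (u.1, -(N:ℤ) - 1 + ((1 : ℕ) : ℤ)) = u := by
      refine Prod.ext rfl ?_
      simp only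
      push_cast
      omega
    rw [e1] at g1
    refine g1.symm.trans ?_
    refine (NI1_rhor (x' := (N:ℤ) + 1) (Or.inr rfl) (by omega) (by omega) (by omega)
      (by omega)).trans ?_
    exact NI1_rver (Or.inl rfl) (by omega) (by omega) (by omega) (by omega)
  · -- top side
    have g1 : Reach (↑(Rg N) : Set Edg) (u.1, (N:ℤ)) (u.1, (N:ℤ) + (1 : ℕ)) :=
      NR1_ver 1 (fun t g1 g2 => by
        push_cast at g2
        rw [Finset.mem_coe, NI1_Rg_false]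
        omega)
    have e1 : (u.1, (N:ℤ)) = u := Prod.ext rfl h5.symm
    have e2 : (u.1, (N:ℤ) + ((1 : ℕ) : ℤ)) = (u.1, (N:ℤ) + 1) := by push_cast; rfl
    rw [e1, e2] at g1
    refine g1.trans ?_
    refine (NI1_rhor (x' := (N:ℤ) + 1) (Or.inl rfl) (by omega) (by omega) (by omega)
      (by omega)).trans ?_
    exact NI1_rver (Or.inl rfl) (by omega) (by omega) (by omega) (by omega)

theorem near_inR {a N ρ r l : ℕ} {c : ℤ} (hl : 1 ≤ l) (hr : 8 * l ≤ r) (hρ : 16 * r ≤ ρ)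
    (hc : |c| + 20 * ρ ≤ a) (hN : 2 * a ≤ N) {F : Set Edg} (hv : Lvi a N ρ c F)
    (hG : Gdi a N ρ r l c F) {Z : Edg → ZMod 2}
    (hZ : ∀ v, vb Z v = b2 ((((a:ℤ) - 14 * ρ, c) : Vtx) = v) + b2 ((((N:ℤ) + 1, 0) : Vtx) = v)) :
    PotHyp (↑(RI a N ρ c) : Set Edg) ↑(tubeI a ρ c) (F ∪ ↑(endI a ρ c ∪ Rg N)) Z l := by
  have hc1 := abs_le.mp (show |c| ≤ (a:ℤ) - 20 * ρ by omega)
  have hρ1 : 1 ≤ ρ := by omega
  obtain ⟨u2, hu, u', hu', hreach⟩ := hv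
  refine pot_of_near (A := ((F ∩ ↑(An a N)) ∪ (↑(RE ((a:ℤ) - 14 * ρ) a
      (c - ((ρ / 2 : ℕ) : ℤ)) (c + ((ρ / 2 : ℕ) : ℤ))) : Set Edg)) ∪ (↑(Rg N) : Set Edg))
    (ρ := ((ρ / 2 : ℕ) : ℤ)) (x := ((a:ℤ) - 14 * ρ, c)) (y := ((N:ℤ) + 1, 0))
    ?_ ?_ ?_ ?_ ?_ hZ
  · rintro e ((⟨h1, h2⟩ | h1) | h1)
    · refine ⟨?_, Or.inr (Or.inl h1)⟩
      rw [Finset.mem_coe, RI, Finset.mem_union, Finset.mem_union]
      exact Or.inl (Or.inl h2)
    · have h3 : e ∈ tubeI a ρ c ∨ e ∈ endI a ρ c := by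
        obtain ⟨x, y, _ | _⟩ := e
        · rw [Finset.mem_coe, mem_RE_false] at h1
          rw [NI1_tubeI_false, NI1_endI_false]
          omega
        · rw [Finset.mem_coe, mem_RE_true] at h1
          rw [NI1_tubeI_true, NI1_endI_true]
          omega
      rw [Set.mem_inter_iff, Finset.mem_coe, RI, Finset.mem_union, Finset.mem_union,
        Finset.mem_union]
      rcases h3 with h3 | h3
      · exact ⟨Or.inl (Or.inr h3), Or.inl h3⟩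
      · refine ⟨Or.inr (Or.inl h3), Or.inr (Or.inr ?_)⟩
        rw [Finset.mem_coe, Finset.mem_union]
        exact Or.inl h3
    · rw [Set.mem_inter_iff, Finset.mem_coe, RI, Finset.mem_union, Finset.mem_union,
        Finset.mem_union]
      refine ⟨Or.inr (Or.inr h1), Or.inr (Or.inr ?_)⟩
      rw [Finset.mem_coe, Finset.mem_union]
      exact Or.inr h1
  · omega
  · intro w hw v hv'
    have h0 := NI1_VD hw
    rcases hv' with rfl | rfl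
    · simp only
      omega
    · simp only
      omega
  · intro w hw hwD b hb hbD hab
    exact NI1_near hl hr hρ hc hN hG hw hwD hb hbD hab
  · refine ((NI1_tube (by omega) hu).mono
      (Set.subset_union_right.trans Set.subset_union_left)).trans ?_
    refine (hreach.mono (Set.subset_union_left.trans Set.subset_union_left)).trans ?_
    exact (NI1_ring hu').mono Set.subset_union_right

end H985T
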