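import Pool.Agent.H985R3.TA.OUT
import Pool.Agent.H985R3.TA.Defs4

/-!
Task OUI of the two-arm project: connectivity of the inner part of the complement of the region of
the inward step, and of the ring.
-/

set_option autoImplicit false

namespace H985T

open H974 Finset

/-- edges of the box `[-a,a]²` outside of the region are the edges outside of the rectangle -/
theorem OUI_mem {a N ρ : ℕ} {c : ℤ} (hN : a ≤ N) {e : Edg} (he : e ∈ boxE a) :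
    e ∈ RI a N ρ c ↔ e ∈ RE ((a:ℤ) - 14 * ρ) a (c - ρ) (c + ρ) := by
  classical
  obtain ⟨x, y, b⟩ := e
  have hb : (x, y, b) ∈ boxE N := by
    cases b
    · rw [boxE, mem_RE_false] at he ⊢; omega
    · rw [boxE, mem_RE_true] at he ⊢; omega
  have h2 : (x, y, b) ∈ RI a N ρ c ↔
      (x, y, b) ∈ RE ((a:ℤ) - 10 * ρ) a (c - ρ) (c + ρ) ∨
      (x, y, b) ∈ RE ((a:ℤ) - 14 * ρ) ((a:ℤ) - 10 * ρ) (c - ρ) (c + ρ) := by
    simp only [RI, An, Rg, tubeI, endI, Finset.mem_union, Finset.mem_sdiff]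
    tauto
  rw [h2]
  cases b
  · rw [mem_RE_false, mem_RE_false, mem_RE_false]
    omega
  · rw [mem_RE_true, mem_RE_true, mem_RE_true]
    omega

/-- inside of the square, outside of the rectangle -/
def OUI_P (a b p q r : ℤ) (u : Vtx) : Prop :=
  (a ≤ u.1 ∧ u.1 < b ∧ a ≤ u.2 ∧ u.2 < b) ∧ ¬ (p ≤ u.1 ∧ q ≤ u.2 ∧ u.2 < r)

theorem OUI_conn {R : Vtx → Vtx → Prop} {a b p q r t : ℤ} (hp : a < p) (hpb : p ≤ b)
    (hq : a ≤ q) (hrb : r ≤ b) (hqt : q ≤ t) (htr : t < r) (hr : ∀ u, R u u)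
    (hs : ∀ u v, R u v → R v u) (ht : ∀ u v w, R u v → R v w → R u w)
    (hh : ∀ x y : ℤ, OUI_P a b p q r (x, y) → OUI_P a b p q r (x + 1, y) →
      R (x, y) (x + 1, y))
    (hv : ∀ x y : ℤ, OUI_P a b p q r (x, y) → OUI_P a b p q r (x, y + 1) →
      R (x, y) (x, y + 1)) (u : Vtx) (hu : OUI_P a b p q r u) : R u (p - 1, t) := by
  obtain ⟨x, y⟩ := u
  simp only [OUI_P] at hu
  refine ht _ (p - 1, y) _ ?_ ?_
  · exact OUT_hl hr hs ht hh x (p - 1) y (fun t h => by simp only [OUI_P]; omega)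
  · exact OUT_vl hr hs ht hv (p - 1) y t (fun t h => by simp only [OUI_P]; omega)

theorem in_face {a N ρ : ℕ} {c : ℤ} (hρ : 1 ≤ ρ) (hc : |c| + 20 * ρ ≤ a) (hN : 2 * a ≤ N)
    {e : Edg} (he : e ∈ boxE a) (he' : e ∉ RI a N ρ c) {w : Vtx} (hw : dsrc e = w ∨ dtgt e = w) :
    DReach {e : Edg | e ∉ RI a N ρ c} w ((a:ℤ) - 14 * ρ - 1, c) := by
  have hc1 := abs_le.mp (le_refl |c|)
  have haN : a ≤ N := by omega
  have main : ∀ u : Vtx, OUI_P (-a) a ((a:ℤ) - 14 * ρ) (c - ρ) (c + ρ) u →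
      DReach {e : Edg | e ∉ RI a N ρ c} u ((a:ℤ) - 14 * ρ - 1, c) := by
    refine OUI_conn (R := DReach {e : Edg | e ∉ RI a N ρ c}) (by omega) (by omega) (by omega)
      (by omega) (by omega) (by omega) (fun u => DReach.refl _ u)
      (fun u v h => h.symm) (fun u v w h h' => h.trans h') ?_ ?_
    · intro x y h1 h2
      refine DAdj.reach ⟨(x + 1, y, false), ?_, Or.inl ⟨by simp, by simp⟩⟩
      simp only [OUI_P] at h1 h2
      have hb : ((x + 1, y, false) : Edg) ∈ boxE a := by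
        rw [boxE, mem_RE_false]; omega
      intro h3
      rw [OUI_mem haN hb, mem_RE_false] at h3
      omega
    · intro x y h1 h2
      refine DAdj.reach ⟨(x, y + 1, true), ?_, Or.inl ⟨by simp, by simp⟩⟩
      simp only [OUI_P] at h1 h2
      have hb : ((x, y + 1, true) : Edg) ∈ boxE a := by
        rw [boxE, mem_RE_true]; omega
      intro h3
      rw [OUI_mem haN hb, mem_RE_true] at h3
      omega
  have hstep : DReach {e : Edg | e ∉ RI a N ρ c} (dsrc e) (dtgt e) :=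
    DAdj.reach ⟨e, he', Or.inl ⟨rfl, rfl⟩⟩
  have hor : OUI_P (-a) a ((a:ℤ) - 14 * ρ) (c - ρ) (c + ρ) (dsrc e) ∨
      OUI_P (-a) a ((a:ℤ) - 14 * ρ) (c - ρ) (c + ρ) (dtgt e) := by
    rw [OUI_mem haN he] at he'
    obtain ⟨x, y, b⟩ := e
    cases b
    · rw [boxE, mem_RE_false] at he
      rw [mem_RE_false] at he'
      simp only [OUI_P, dsrc_false, dtgt_mk]
      omega
    · rw [boxE, mem_RE_true] at he
      rw [mem_RE_true] at he'
      simp only [OUI_P, dsrc_true, dtgt_mk]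
      omega
  rcases hor with h | h <;> rcases hw with rfl | rfl
  · exact main _ h
  · exact hstep.symm.trans (main _ h)
  · exact hstep.trans (main _ h)
  · exact main _ h

theorem in_vtx {a N ρ : ℕ} {c : ℤ} (hρ : 1 ≤ ρ) (hc : |c| + 20 * ρ ≤ a) (hN : 2 * a ≤ N)
    {e : Edg} (he : e ∈ boxE a) (he' : e ∉ RI a N ρ c) {w : Vtx} (hw : src e = w ∨ tgt e = w) :
    Reach {e : Edg | e ∉ RI a N ρ c} w ((a:ℤ) - 14 * ρ - 1, c) := by
  have hc1 := abs_le.mp (le_refl |c|)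
  have haN : a ≤ N := by omega
  have main : ∀ u : Vtx, OUI_P (-a) ((a:ℤ) + 1) ((a:ℤ) - 14 * ρ) (c - ρ) (c + ρ + 1) u →
      Reach {e : Edg | e ∉ RI a N ρ c} u ((a:ℤ) - 14 * ρ - 1, c) := by
    refine OUI_conn (R := Reach {e : Edg | e ∉ RI a N ρ c}) (by omega) (by omega) (by omega)
      (by omega) (by omega) (by omega) (fun u => Reach.refl _ u)
      (fun u v h => h.symm) (fun u v w h h' => h.trans h') ?_ ?_
    · intro x y h1 h2
      refine Adj.reach ⟨(x, y, true), ?_, Or.inl ⟨by simp, by simp⟩⟩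
      simp only [OUI_P] at h1 h2
      have hb : ((x, y, true) : Edg) ∈ boxE a := by
        rw [boxE, mem_RE_true]; omega
      intro h3
      rw [OUI_mem haN hb, mem_RE_true] at h3
      omega
    · intro x y h1 h2
      refine Adj.reach ⟨(x, y, false), ?_, Or.inl ⟨by simp, by simp⟩⟩
      simp only [OUI_P] at h1 h2
      have hb : ((x, y, false) : Edg) ∈ boxE a := by
        rw [boxE, mem_RE_false]; omega
      intro h3
      rw [OUI_mem haN hb, mem_RE_false] at h3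
      omega
  have hstep : Reach {e : Edg | e ∉ RI a N ρ c} (src e) (tgt e) :=
    Adj.reach ⟨e, he', Or.inl ⟨rfl, rfl⟩⟩
  have hor : OUI_P (-a) ((a:ℤ) + 1) ((a:ℤ) - 14 * ρ) (c - ρ) (c + ρ + 1) (src e) ∨
      OUI_P (-a) ((a:ℤ) + 1) ((a:ℤ) - 14 * ρ) (c - ρ) (c + ρ + 1) (tgt e) := by
    rw [OUI_mem haN he] at he'
    obtain ⟨x, y, b⟩ := e
    cases b
    · rw [boxE, mem_RE_false] at he
      rw [mem_RE_false] at he'
      simp only [OUI_P, src_mk, tgt_false]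
      omega
    · rw [boxE, mem_RE_true] at he
      rw [mem_RE_true] at he'
      simp only [OUI_P, src_mk, tgt_true]
      omega
  rcases hor with h | h <;> rcases hw with rfl | rfl
  · exact main _ h
  · exact hstep.symm.trans (main _ h)
  · exact hstep.trans (main _ h)
  · exact main _ h

/-- the boundary of a square is connected -/
theorem OUI_ring {R : Vtx → Vtx → Prop} {a b : ℤ} (hab : a ≤ b) (hr : ∀ u, R u u)
    (hs : ∀ u v, R u v → R v u) (ht : ∀ u v w, R u v → R v w → R u w)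
    (hha : ∀ x : ℤ, a ≤ x → x < b → R (x, a) (x + 1, a))
    (hhb : ∀ x : ℤ, a ≤ x → x < b → R (x, b) (x + 1, b))
    (hva : ∀ y : ℤ, a ≤ y → y < b → R (a, y) (a, y + 1))
    (hvb : ∀ y : ℤ, a ≤ y → y < b → R (b, y) (b, y + 1)) (u : Vtx)
    (hu : (u.1 = a ∨ u.1 = b ∨ u.2 = a ∨ u.2 = b) ∧ a ≤ u.1 ∧ u.1 ≤ b ∧ a ≤ u.2 ∧ u.2 ≤ b) :
    R u (b, b) := by
  have kh : ∀ y : ℤ, y = a ∨ y = b → ∀ x, a ≤ x → x ≤ b → R (x, y) (b, y) := by
    intro y hy x hx1 hx2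
    refine OUT_hl (P := fun u => a ≤ u.1 ∧ u.1 ≤ b ∧ (u.2 = a ∨ u.2 = b)) hr hs ht ?_ x b y ?_
    · intro x' y' h1 h2
      obtain ⟨h1a, h1b, h1c⟩ := h1
      obtain ⟨h2a, h2b, h2c⟩ := h2
      simp only at h1a h1b h1c h2a h2b h2c
      rcases h1c with rfl | rfl
      · exact hha x' h1a (by omega)
      · exact hhb x' h1a (by omega)
    · intro t h
      refine ⟨?_, ?_, hy⟩
      · simp only; omega
      · simp only; omega
  have kv : ∀ x : ℤ, x = a ∨ x = b → ∀ y, a ≤ y → y ≤ b → R (x, y) (x, b) := by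
    intro x hx y hy1 hy2
    refine OUT_vl (P := fun u => a ≤ u.2 ∧ u.2 ≤ b ∧ (u.1 = a ∨ u.1 = b)) hr hs ht ?_ x y b ?_
    · intro x' y' h1 h2
      obtain ⟨h1a, h1b, h1c⟩ := h1
      obtain ⟨h2a, h2b, h2c⟩ := h2
      simp only at h1a h1b h1c h2a h2b h2c
      rcases h1c with rfl | rfl
      · exact hva y' h1a (by omega)
      · exact hvb y' h1a (by omega)
    · intro t h
      refine ⟨?_, ?_, hx⟩
      · simp only; omega
      · simp only; omega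
  obtain ⟨x, y⟩ := u
  obtain ⟨h1, h2, h3, h4, h5⟩ := hu
  simp only at h1 h2 h3 h4 h5
  rcases h1 with rfl | rfl | rfl | rfl
  · exact ht _ _ _ (kv x (Or.inl rfl) y h4 h5) (kh b (Or.inr rfl) x le_rfl hab)
  · exact kv x (Or.inr rfl) y h4 h5
  · exact ht _ _ _ (kh y (Or.inl rfl) x h2 h3) (kv b (Or.inr rfl) y le_rfl hab)
  · exact kh y (Or.inr rfl) x h2 h3

theorem OUI_Rg {N : ℕ} {e : Edg} : e ∈ Rg N ↔
    e ∈ RE (-(N:ℤ) - 1) ((N:ℤ) + 1) (-(N:ℤ) - 1) ((N:ℤ) + 1) ∧ e ∉ boxE N := by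
  rw [Rg, Finset.mem_sdiff]

theorem OUI_rv {N : ℕ} (x y : ℤ)
    (h1 : x = -(N:ℤ) - 1 ∨ x = (N:ℤ) + 1 ∨ y = -(N:ℤ) - 1 ∨ y = (N:ℤ) + 1)
    (h2 : -(N:ℤ) - 1 ≤ x ∧ x ≤ (N:ℤ) + 1 ∧ -(N:ℤ) - 1 ≤ y ∧ y ≤ (N:ℤ) + 1) :
    Reach (↑(Rg N) : Set Edg) (x, y) ((N:ℤ) + 1, (N:ℤ) + 1) := by
  refine OUI_ring (R := Reach (↑(Rg N) : Set Edg)) (by omega) (fun u => Reach.refl _ u)
      (fun u v h => h.symm) (fun u v w h h' => h.trans h') ?_ ?_ ?_ ?_ (x, y) ⟨h1, h2⟩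
  · intro x h1 h2
    refine Adj.reach ⟨(x, -(N:ℤ) - 1, true), ?_, Or.inl ⟨by simp, by simp⟩⟩
    rw [Finset.mem_coe, OUI_Rg, boxE, mem_RE_true, mem_RE_true]
    omega
  · intro x h1 h2
    refine Adj.reach ⟨(x, (N:ℤ) + 1, true), ?_, Or.inl ⟨by simp, by simp⟩⟩
    rw [Finset.mem_coe, OUI_Rg, boxE, mem_RE_true, mem_RE_true]
    omega
  · intro y h1 h2
    refine Adj.reach ⟨(-(N:ℤ) - 1, y, false), ?_, Or.inl ⟨by simp, by simp⟩⟩
    rw [Finset.mem_coe, OUI_Rg, boxE, mem_RE_false, mem_RE_false]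
    omega
  · intro y h1 h2
    refine Adj.reach ⟨((N:ℤ) + 1, y, false), ?_, Or.inl ⟨by simp, by simp⟩⟩
    rw [Finset.mem_coe, OUI_Rg, boxE, mem_RE_false, mem_RE_false]
    omega

theorem OUI_corner {x y x' y' : ℤ} (h1 : x' = x ∨ x' = x - 1) (h2 : y' = y ∨ y' = y - 1) :
    corner (x, y) (x', y') := ⟨h1, h2⟩

theorem ring_vtx {N : ℕ} {w : Vtx} (hw : nb N w) :
    ∃ y', corner y' w ∧ Reach (↑(Rg N) : Set Edg) ((N:ℤ) + 1, 0) y' := by
  have h0 := OUI_rv (N := N) ((N:ℤ) + 1) 0 (by omega) (by omega)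
  obtain ⟨x, y⟩ := w
  simp only [nb] at hw
  rcases hw with ⟨h | h, h1, h2⟩ | ⟨h | h, h1, h2⟩
  · exact ⟨((N:ℤ) + 1, y), OUI_corner (by omega) (by omega),
      h0.trans (OUI_rv _ _ (by omega) (by omega)).symm⟩
  · exact ⟨(-(N:ℤ) - 1, y), OUI_corner (by omega) (by omega),
      h0.trans (OUI_rv _ _ (by omega) (by omega)).symm⟩
  · exact ⟨(x, (N:ℤ) + 1), OUI_corner (by omega) (by omega),
      h0.trans (OUI_rv _ _ (by omega) (by omega)).symm⟩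
  · exact ⟨(x, -(N:ℤ) - 1), OUI_corner (by omega) (by omega),
      h0.trans (OUI_rv _ _ (by omega) (by omega)).symm⟩

theorem OUI_rf {N : ℕ} (x y : ℤ)
    (h1 : x = -(N:ℤ) - 1 ∨ x = (N:ℤ) ∨ y = -(N:ℤ) - 1 ∨ y = (N:ℤ))
    (h2 : -(N:ℤ) - 1 ≤ x ∧ x ≤ (N:ℤ) ∧ -(N:ℤ) - 1 ≤ y ∧ y ≤ (N:ℤ)) :
    DReach (↑(Rg N) : Set Edg) (x, y) ((N:ℤ), (N:ℤ)) := by
  refine OUI_ring (R := DReach (↑(Rg N) : Set Edg)) (by omega) (fun u => DReach.refl _ u)
      (fun u v h => h.symm) (fun u v w h h' => h.trans h') ?_ ?_ ?_ ?_ (x, y) ⟨h1, h2⟩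
  · intro x h1 h2
    refine DAdj.reach ⟨(x + 1, -(N:ℤ) - 1, false), ?_, Or.inl ⟨by simp, by simp⟩⟩
    rw [Finset.mem_coe, OUI_Rg, boxE, mem_RE_false, mem_RE_false]
    omega
  · intro x h1 h2
    refine DAdj.reach ⟨(x + 1, (N:ℤ), false), ?_, Or.inl ⟨by simp, by simp⟩⟩
    rw [Finset.mem_coe, OUI_Rg, boxE, mem_RE_false, mem_RE_false]
    omega
  · intro y h1 h2
    refine DAdj.reach ⟨(-(N:ℤ) - 1, y + 1, true), ?_, Or.inl ⟨by simp, by simp⟩⟩
    rw [Finset.mem_coe, OUI_Rg, boxE, mem_RE_true, mem_RE_true]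
    omega
  · intro y h1 h2
    refine DAdj.reach ⟨((N:ℤ), y + 1, true), ?_, Or.inl ⟨by simp, by simp⟩⟩
    rw [Finset.mem_coe, OUI_Rg, boxE, mem_RE_true, mem_RE_true]
    omega

theorem ring_face {N : ℕ} (hN : 1 ≤ N) {u : Vtx} (hu : onB N u) :
    ∃ w, corner u w ∧ DReach (↑(Rg N) : Set Edg) ((N:ℤ) + 1, 0) w := by
  have h0 : DReach (↑(Rg N) : Set Edg) ((N:ℤ) + 1, 0) ((N:ℤ), (N:ℤ)) := by
    refine (DReach.symm (DAdj.reach ⟨((N:ℤ) + 1, 0, false), ?_, Or.inl ⟨by simp, rfl⟩⟩)).trans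
      (OUI_rf (N:ℤ) 0 (by omega) (by omega))
    rw [Finset.mem_coe, OUI_Rg, boxE, mem_RE_false, mem_RE_false]
    omega
  obtain ⟨x, y⟩ := u
  simp only [onB, inR] at hu
  by_cases h1 : x = (N:ℤ)
  · exact ⟨((N:ℤ), y), OUI_corner (by omega) (by omega),
      h0.trans (OUI_rf _ _ (by omega) (by omega)).symm⟩
  · by_cases h2 : x = -(N:ℤ)
    · exact ⟨(-(N:ℤ) - 1, y), OUI_corner (by omega) (by omega),
        h0.trans (OUI_rf _ _ (by omega) (by omega)).symm⟩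
    · by_cases h3 : y = (N:ℤ)
      · exact ⟨(x, (N:ℤ)), OUI_corner (by omega) (by omega),
          h0.trans (OUI_rf _ _ (by omega) (by omega)).symm⟩
      · exact ⟨(x, -(N:ℤ) - 1), OUI_corner (by omega) (by omega),
          h0.trans (OUI_rf _ _ (by omega) (by omega)).symm⟩

end H985T
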