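import Pool.Agent.H985R3.TA.Defs4

/-!
Two-arm project, task PAI (helper487): first passages in the annulus.
-/

set_option autoImplicit false

namespace H985T

open H974 Finset

theorem PAI_abs {a b : ℤ} (h : |a| ≤ b) : -b ≤ a ∧ a ≤ b := abs_le.1 h

theorem PAI_An_t {a N : ℕ} {x y : ℤ} : ((x, y, true) : Edg) ∈ An a N ↔
    (-(N:ℤ) ≤ x ∧ x < N ∧ -(N:ℤ) ≤ y ∧ y ≤ N) ∧
      ¬ (-(a:ℤ) ≤ x ∧ x < a ∧ -(a:ℤ) ≤ y ∧ y ≤ a) := by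
  unfold An boxE
  rw [Finset.mem_sdiff, mem_RE_true, mem_RE_true]

theorem PAI_An_f {a N : ℕ} {x y : ℤ} : ((x, y, false) : Edg) ∈ An a N ↔
    (-(N:ℤ) ≤ x ∧ x ≤ N ∧ -(N:ℤ) ≤ y ∧ y < N) ∧
      ¬ (-(a:ℤ) ≤ x ∧ x ≤ a ∧ -(a:ℤ) ≤ y ∧ y < a) := by
  unfold An boxE
  rw [Finset.mem_sdiff, mem_RE_false, mem_RE_false]

theorem PAI_Rg_t {N : ℕ} {x y : ℤ} : ((x, y, true) : Edg) ∈ Rg N ↔
    (-(N:ℤ) - 1 ≤ x ∧ x < (N:ℤ) + 1 ∧ -(N:ℤ) - 1 ≤ y ∧ y ≤ (N:ℤ) + 1) ∧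
      ¬ (-(N:ℤ) ≤ x ∧ x < N ∧ -(N:ℤ) ≤ y ∧ y ≤ N) := by
  unfold Rg boxE
  rw [Finset.mem_sdiff, mem_RE_true, mem_RE_true]

theorem PAI_Rg_f {N : ℕ} {x y : ℤ} : ((x, y, false) : Edg) ∈ Rg N ↔
    (-(N:ℤ) - 1 ≤ x ∧ x ≤ (N:ℤ) + 1 ∧ -(N:ℤ) - 1 ≤ y ∧ y < (N:ℤ) + 1) ∧
      ¬ (-(N:ℤ) ≤ x ∧ x ≤ N ∧ -(N:ℤ) ≤ y ∧ y < N) := by
  unfold Rg boxE
  rw [Finset.mem_sdiff, mem_RE_false, mem_RE_false]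

theorem PAI_tu_t {a ρ : ℕ} {c x y : ℤ} : ((x, y, true) : Edg) ∈ tubeI a ρ c ↔
    (a:ℤ) - 10 * ρ ≤ x ∧ x < a ∧ c - ρ ≤ y ∧ y ≤ c + ρ := by
  unfold tubeI
  rw [mem_RE_true]

theorem PAI_tu_f {a ρ : ℕ} {c x y : ℤ} : ((x, y, false) : Edg) ∈ tubeI a ρ c ↔
    (a:ℤ) - 10 * ρ ≤ x ∧ x ≤ a ∧ c - ρ ≤ y ∧ y < c + ρ := by
  unfold tubeI
  rw [mem_RE_false]

theorem PAI_en_t {a ρ : ℕ} {c x y : ℤ} : ((x, y, true) : Edg) ∈ endI a ρ c ↔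
    ((a:ℤ) - 14 * ρ ≤ x ∧ x < (a:ℤ) - 10 * ρ ∧ c - ρ ≤ y ∧ y ≤ c + ρ) ∧
      ¬ ((a:ℤ) - 10 * ρ ≤ x ∧ x < a ∧ c - ρ ≤ y ∧ y ≤ c + ρ) := by
  unfold endI tubeI
  rw [Finset.mem_sdiff, mem_RE_true, mem_RE_true]

theorem PAI_en_f {a ρ : ℕ} {c x y : ℤ} : ((x, y, false) : Edg) ∈ endI a ρ c ↔
    ((a:ℤ) - 14 * ρ ≤ x ∧ x ≤ (a:ℤ) - 10 * ρ ∧ c - ρ ≤ y ∧ y < c + ρ) ∧
      ¬ ((a:ℤ) - 10 * ρ ≤ x ∧ x ≤ a ∧ c - ρ ≤ y ∧ y < c + ρ) := by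
  unfold endI tubeI
  rw [Finset.mem_sdiff, mem_RE_false, mem_RE_false]

/-- position of the end points of an edge of the annulus or of the tube, next to a vertex in the
end of the tube -/
theorem PAI_v1 {a N ρ : ℕ} {c : ℤ} (hρ : (1:ℤ) ≤ ρ) (hc1 : -((a:ℤ) - 20 * ρ) ≤ c)
    (hc2 : c ≤ (a:ℤ) - 20 * ρ) (hN : 2 * (a:ℤ) ≤ N) {e : Edg} {u v : Vtx}
    (he : e ∈ An a N ∪ tubeI a ρ c) (huv : (src e = u ∧ tgt e = v) ∨ (src e = v ∧ tgt e = u))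
    (h1 : (a:ℤ) - 14 * ρ ≤ u.1) (h2 : u.1 ≤ (a:ℤ) - 10 * ρ) (h3 : c - ρ ≤ u.2) (h4 : u.2 ≤ c + ρ) :
    u.1 = (a:ℤ) - 10 * ρ ∧ -(N:ℤ) < v.1 ∧ v.1 < N ∧ -(N:ℤ) < v.2 ∧ v.2 < N := by
  obtain ⟨x, y, _ | _⟩ := e
  · rw [Finset.mem_union, PAI_An_f, PAI_tu_f] at he
    rcases huv with ⟨h5, h6⟩ | ⟨h5, h6⟩ <;> subst h5 <;> subst h6 <;>
      simp only [src_mk, tgt_false] at h1 h2 h3 h4 ⊢ <;> omega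
  · rw [Finset.mem_union, PAI_An_t, PAI_tu_t] at he
    rcases huv with ⟨h5, h6⟩ | ⟨h5, h6⟩ <;> subst h5 <;> subst h6 <;>
      simp only [src_mk, tgt_true] at h1 h2 h3 h4 ⊢ <;> omega

theorem PAI_v2 {a N ρ : ℕ} {c : ℤ} (hρ : (1:ℤ) ≤ ρ) (hc1 : -((a:ℤ) - 20 * ρ) ≤ c)
    (hc2 : c ≤ (a:ℤ) - 20 * ρ) (hN : 2 * (a:ℤ) ≤ N) {e : Edg} {u v : Vtx}
    (he : e ∈ endI a ρ c ∪ Rg N) (huv : (src e = u ∧ tgt e = v) ∨ (src e = v ∧ tgt e = u))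
    (h : ((a:ℤ) - 14 * ρ ≤ u.1 ∧ u.1 ≤ (a:ℤ) - 10 * ρ ∧ c - ρ ≤ u.2 ∧ u.2 ≤ c + ρ) ∨
      (-(N:ℤ) < u.1 ∧ u.1 < N ∧ -(N:ℤ) < u.2 ∧ u.2 < N)) :
    (a:ℤ) - 14 * ρ ≤ v.1 ∧ v.1 ≤ (a:ℤ) - 10 * ρ ∧ c - ρ ≤ v.2 ∧ v.2 ≤ c + ρ := by
  obtain ⟨x, y, _ | _⟩ := e
  · rw [Finset.mem_union, PAI_en_f, PAI_Rg_f] at he
    rcases huv with ⟨h5, h6⟩ | ⟨h5, h6⟩ <;> subst h5 <;> subst h6 <;>
      simp only [src_mk, tgt_false] at h ⊢ <;> omega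
  · rw [Finset.mem_union, PAI_en_t, PAI_Rg_t] at he
    rcases huv with ⟨h5, h6⟩ | ⟨h5, h6⟩ <;> subst h5 <;> subst h6 <;>
      simp only [src_mk, tgt_true] at h ⊢ <;> omega

theorem PAI_v3 {a N ρ : ℕ} {c : ℤ} (hρ : (1:ℤ) ≤ ρ) (hc1 : -((a:ℤ) - 20 * ρ) ≤ c)
    (hc2 : c ≤ (a:ℤ) - 20 * ρ) (hN : 2 * (a:ℤ) ≤ N) {e : Edg} {u v : Vtx}
    (he : e ∈ An a N ∪ tubeI a ρ c) (huv : (src e = u ∧ tgt e = v) ∨ (src e = v ∧ tgt e = u)) :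
    (-(N:ℤ) < v.1 ∧ v.1 < N ∧ -(N:ℤ) < v.2 ∧ v.2 < N) ∨ onB N v := by
  unfold onB inR
  obtain ⟨x, y, _ | _⟩ := e
  · rw [Finset.mem_union, PAI_An_f, PAI_tu_f] at he
    rcases huv with ⟨h5, h6⟩ | ⟨h5, h6⟩ <;> subst h5 <;> subst h6 <;>
      simp only [src_mk, tgt_false] <;> omega
  · rw [Finset.mem_union, PAI_An_t, PAI_tu_t] at he
    rcases huv with ⟨h5, h6⟩ | ⟨h5, h6⟩ <;> subst h5 <;> subst h6 <;>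
      simp only [src_mk, tgt_true] <;> omega

theorem pass_vi {a N ρ : ℕ} {c : ℤ} (hρ : 1 ≤ ρ) (hc : |c| + 20 * ρ ≤ a) (hN : 2 * a ≤ N)
    {F : Set Edg}
    (h : Reach (((↑(An a N ∪ tubeI a ρ c) : Set Edg) ∩ F) ∪ ↑(endI a ρ c ∪ Rg N))
      ((a:ℤ) - 14 * ρ, c) ((N:ℤ) + 1, 0)) : Tvi a N ρ c F := by
  have hc0 : |c| ≤ (a:ℤ) - 20 * ρ := by linarith
  obtain ⟨hc1, hc2⟩ := PAI_abs hc0
  have hN' : 2 * (a:ℤ) ≤ N := by exact_mod_cast hN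
  have hρ' : (1:ℤ) ≤ ρ := by exact_mod_cast hρ
  have key : ∀ u, Reach (((↑(An a N ∪ tubeI a ρ c) : Set Edg) ∩ F) ∪ ↑(endI a ρ c ∪ Rg N))
      ((a:ℤ) - 14 * ρ, c) u → Tvi a N ρ c F ∨
        ((a:ℤ) - 14 * ρ ≤ u.1 ∧ u.1 ≤ (a:ℤ) - 10 * ρ ∧ c - ρ ≤ u.2 ∧ u.2 ≤ c + ρ) ∨
        ((∃ z2 : ℤ, |z2 - c| ≤ ρ ∧ Reach (F ∩ ↑(An a N ∪ tubeI a ρ c)) ((a:ℤ) - 10 * ρ, z2) u) ∧
          -(N:ℤ) < u.1 ∧ u.1 < N ∧ -(N:ℤ) < u.2 ∧ u.2 < N) := by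
    intro u hu
    induction hu with
    | refl =>
      right; left
      refine ⟨le_refl _, ?_, ?_, ?_⟩ <;> simp only <;> omega
    | @tail u v _ hs ih =>
      rcases ih with ih | ih
      · exact Or.inl ih
      obtain ⟨e, he, huv⟩ := hs
      rcases he with ⟨he, heF⟩ | he
      · -- edge of the annulus or the tube
        have hst : Reach (F ∩ ↑(An a N ∪ tubeI a ρ c)) u v := Adj.reach ⟨e, ⟨heF, he⟩, huv⟩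
        rw [Finset.mem_coe] at he
        have hz : ∃ z2 : ℤ, |z2 - c| ≤ ρ ∧
            Reach (F ∩ ↑(An a N ∪ tubeI a ρ c)) ((a:ℤ) - 10 * ρ, z2) v := by
          rcases ih with ⟨h1, h2, h3, h4⟩ | ⟨⟨z2, h1, h2⟩, -⟩
          · obtain ⟨h5, -⟩ := PAI_v1 hρ' hc1 hc2 hN' he huv h1 h2 h3 h4
            refine ⟨u.2, abs_le.2 ⟨by omega, by omega⟩, ?_⟩
            rw [← h5]
            exact hst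
          · exact ⟨z2, h1, h2.trans hst⟩
        rcases PAI_v3 hρ' hc1 hc2 hN' he huv with h5 | h5
        · right; right
          exact ⟨hz, h5⟩
        · left
          obtain ⟨z2, h1, h2⟩ := hz
          exact ⟨z2, h1, v, h5, h2⟩
      · right; left
        rw [Finset.mem_coe] at he
        refine PAI_v2 hρ' hc1 hc2 hN' he huv ?_
        rcases ih with ih | ⟨-, ih⟩
        · exact Or.inl ih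
        · exact Or.inr ih
  rcases key _ h with h | h | ⟨-, h⟩
  · exact h
  · exfalso; simp only at h; omega
  · exfalso; simp only at h; omega

theorem PAI_f2 {a N ρ : ℕ} {c : ℤ} (hρ : (1:ℤ) ≤ ρ) (hc1 : -((a:ℤ) - 20 * ρ) ≤ c)
    (hc2 : c ≤ (a:ℤ) - 20 * ρ) (hN : 2 * (a:ℤ) ≤ N) {e : Edg} {u v : Vtx}
    (he : e ∈ endI a ρ c ∪ Rg N) (huv : (dsrc e = u ∧ dtgt e = v) ∨ (dsrc e = v ∧ dtgt e = u))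
    (h : ((a:ℤ) - 14 * ρ - 1 ≤ u.1 ∧ u.1 ≤ (a:ℤ) - 10 * ρ - 1 ∧ c - ρ - 1 ≤ u.2 ∧ u.2 ≤ c + ρ) ∨
      (-(N:ℤ) ≤ u.1 ∧ u.1 < N ∧ -(N:ℤ) ≤ u.2 ∧ u.2 < N)) :
    (a:ℤ) - 14 * ρ - 1 ≤ v.1 ∧ v.1 ≤ (a:ℤ) - 10 * ρ - 1 ∧ c - ρ - 1 ≤ v.2 ∧ v.2 ≤ c + ρ := by
  obtain ⟨x, y, _ | _⟩ := e
  · rw [Finset.mem_union, PAI_en_f, PAI_Rg_f] at he
    rcases huv with ⟨h5, h6⟩ | ⟨h5, h6⟩ <;> subst h5 <;> subst h6 <;>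
      simp only [dtgt_mk, dsrc_false] at h ⊢ <;> omega
  · rw [Finset.mem_union, PAI_en_t, PAI_Rg_t] at he
    rcases huv with ⟨h5, h6⟩ | ⟨h5, h6⟩ <;> subst h5 <;> subst h6 <;>
      simp only [dtgt_mk, dsrc_true] at h ⊢ <;> omega

theorem PAI_f1 {a N ρ : ℕ} {c : ℤ} (hρ : (1:ℤ) ≤ ρ) (hc1 : -((a:ℤ) - 20 * ρ) ≤ c)
    (hc2 : c ≤ (a:ℤ) - 20 * ρ) (hN : 2 * (a:ℤ) ≤ N) {e : Edg} {u v : Vtx}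
    (he : e ∈ An a N ∪ tubeI a ρ c) (huv : (dsrc e = u ∧ dtgt e = v) ∨ (dsrc e = v ∧ dtgt e = u))
    (h1 : (a:ℤ) - 14 * ρ - 1 ≤ u.1) (h2 : u.1 ≤ (a:ℤ) - 10 * ρ - 1) (h3 : c - ρ - 1 ≤ u.2)
    (h4 : u.2 ≤ c + ρ) :
    u.1 = (a:ℤ) - 10 * ρ - 1 ∧ c - ρ ≤ u.2 ∧ u.2 < c + ρ ∧
      (-(N:ℤ) ≤ v.1 ∧ v.1 < N ∧ -(N:ℤ) ≤ v.2 ∧ v.2 < N) := by
  obtain ⟨x, y, _ | _⟩ := e
  · rw [Finset.mem_union, PAI_An_f, PAI_tu_f] at he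
    rcases huv with ⟨h5, h6⟩ | ⟨h5, h6⟩ <;> subst h5 <;> subst h6 <;>
      simp only [dtgt_mk, dsrc_false] at h1 h2 h3 h4 ⊢ <;> omega
  · rw [Finset.mem_union, PAI_An_t, PAI_tu_t] at he
    rcases huv with ⟨h5, h6⟩ | ⟨h5, h6⟩ <;> subst h5 <;> subst h6 <;>
      simp only [dtgt_mk, dsrc_true] at h1 h2 h3 h4 ⊢ <;> omega

theorem PAI_f3 {a N ρ : ℕ} {c : ℤ} (hρ : (1:ℤ) ≤ ρ) (hc1 : -((a:ℤ) - 20 * ρ) ≤ c)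
    (hc2 : c ≤ (a:ℤ) - 20 * ρ) (hN : 2 * (a:ℤ) ≤ N) {e : Edg} {u v : Vtx}
    (he : e ∈ An a N ∪ tubeI a ρ c) (huv : (dsrc e = u ∧ dtgt e = v) ∨ (dsrc e = v ∧ dtgt e = u))
    (hu : -(N:ℤ) ≤ u.1 ∧ u.1 < N ∧ -(N:ℤ) ≤ u.2 ∧ u.2 < N) :
    (-(N:ℤ) ≤ v.1 ∧ v.1 < N ∧ -(N:ℤ) ≤ v.2 ∧ v.2 < N) ∨ nb N v := by
  unfold nb
  obtain ⟨x, y, _ | _⟩ := e
  · rw [Finset.mem_union, PAI_An_f, PAI_tu_f] at he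
    rcases huv with ⟨h5, h6⟩ | ⟨h5, h6⟩ <;> subst h5 <;> subst h6 <;>
      simp only [dtgt_mk, dsrc_false] at hu ⊢ <;> omega
  · rw [Finset.mem_union, PAI_An_t, PAI_tu_t] at he
    rcases huv with ⟨h5, h6⟩ | ⟨h5, h6⟩ <;> subst h5 <;> subst h6 <;>
      simp only [dtgt_mk, dsrc_true] at hu ⊢ <;> omega

theorem pass_fi {a N ρ : ℕ} {c : ℤ} (hρ : 1 ≤ ρ) (hc : |c| + 20 * ρ ≤ a) (hN : 2 * a ≤ N)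
    {F : Set Edg}
    (h : DReach ((↑(An a N ∪ tubeI a ρ c) : Set Edg) \ F ∪ ↑(endI a ρ c ∪ Rg N))
      ((a:ℤ) - 14 * ρ - 1, c) ((N:ℤ) + 1, 0)) : Tfi a N ρ c F := by
  have hc0 : |c| ≤ (a:ℤ) - 20 * ρ := by linarith
  obtain ⟨hc1, hc2⟩ := PAI_abs hc0
  have hN' : 2 * (a:ℤ) ≤ N := by exact_mod_cast hN
  have hρ' : (1:ℤ) ≤ ρ := by exact_mod_cast hρ
  have key : ∀ u, DReach ((↑(An a N ∪ tubeI a ρ c) : Set Edg) \ F ∪ ↑(endI a ρ c ∪ Rg N))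
      ((a:ℤ) - 14 * ρ - 1, c) u → Tfi a N ρ c F ∨
        ((a:ℤ) - 14 * ρ - 1 ≤ u.1 ∧ u.1 ≤ (a:ℤ) - 10 * ρ - 1 ∧ c - ρ - 1 ≤ u.2 ∧ u.2 ≤ c + ρ) ∨
        ((∃ w2 : ℤ, c - ρ ≤ w2 ∧ w2 < c + ρ ∧
          DReach (↑(An a N ∪ tubeI a ρ c) \ F) ((a:ℤ) - 10 * ρ - 1, w2) u) ∧
          -(N:ℤ) ≤ u.1 ∧ u.1 < N ∧ -(N:ℤ) ≤ u.2 ∧ u.2 < N) := by
    intro u hu
    induction hu with
    | refl =>
      right; left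
      refine ⟨le_refl _, ?_, ?_, ?_⟩ <;> simp only <;> omega
    | @tail u v _ hs ih =>
      rcases ih with ih | ih
      · exact Or.inl ih
      obtain ⟨e, he, huv⟩ := hs
      rcases he with ⟨he, heF⟩ | he
      · -- edge of the annulus or the tube
        have hst : DReach (↑(An a N ∪ tubeI a ρ c) \ F) u v := DAdj.reach ⟨e, ⟨he, heF⟩, huv⟩
        rw [Finset.mem_coe] at he
        rcases ih with ⟨h1, h2, h3, h4⟩ | ⟨⟨w2, h1, h1', h2⟩, h3⟩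
        · obtain ⟨h5, h6, h7, h8⟩ := PAI_f1 hρ' hc1 hc2 hN' he huv h1 h2 h3 h4
          right; right
          refine ⟨⟨u.2, h6, h7, ?_⟩, h8⟩
          rw [← h5]
          exact hst
        · rcases PAI_f3 hρ' hc1 hc2 hN' he huv h3 with h5 | h5
          · right; right
            exact ⟨⟨w2, h1, h1', h2.trans hst⟩, h5⟩
          · left
            exact ⟨w2, h1, h1', v, h5, h2.trans hst⟩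
      · right; left
        rw [Finset.mem_coe] at he
        refine PAI_f2 hρ' hc1 hc2 hN' he huv ?_
        rcases ih with ih | ⟨-, ih⟩
        · exact Or.inl ih
        · exact Or.inr ih
  rcases key _ h with h | h | ⟨-, h⟩
  · exact h
  · exfalso; simp only at h; omega
  · exfalso; simp only at h; omega

end H985T
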