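import Pool.Agent.H985R3.TA.PST

/-! The abstract separation step, second form (task PS2). -/

set_option autoImplicit false

namespace H985T

open H974 Finset

theorem PS2_congr {Z Z' : Edg → ZMod 2} {G : Set Edg} {a b : Vtx} {k : ZMod 2}
    (hZ : ∀ e ∈ G, Z e = Z' e) (h : DW Z G a b k) : DW Z' G a b k := by
  induction h with
  | refl => exact DW.refl
  | @step b c k e _ he hc ih => rw [hZ e he]; exact ih.step he hc

/-- the abstract separation step, second form -/
theorem step_prob2 {p : Edg → ℝ} (hp : Ok p) {S D X Oo : Finset Edg}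
    (hSD : Disjoint S D) (hX : Disjoint X (S ∪ D ∪ Oo)) (hOo : Disjoint Oo (S ∪ D))
    {Z : Edg → ZMod 2} {x y : Vtx} {l : ℤ} (hZ : ∀ v, vb Z v = b2 (x = v) + b2 (y = v))
    {Wa Wb : Set Vtx} (hWa : ∀ w ∈ Wa, ∃ e, e ∉ S ∪ D ∪ Oo ∧ (dsrc e = w ∨ dtgt e = w))
    (hxa : ∀ w ∈ Wa, ∃ f, corner x f ∧ DReach {e : Edg | e ∉ S ∪ D ∪ Oo} w f)
    (hyb : ∀ w ∈ Wb, ∃ y', corner y' w ∧ Reach (↑Oo : Set Edg) y y') :
    Pr p (S ∪ D ∪ X) (fun F =>
        PotHyp (↑(S ∪ D ∪ Oo) : Set Edg) ↑D (↑F ∪ ↑Oo) Z l ∧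
          ∃ w ∈ Wa, ∃ w' ∈ Wb, DReach (↑(S ∪ X) \ ↑F : Set Edg) w w') *
      Pr p (S ∪ D ∪ X) (fun F => ∀ a ∈ VD (↑D : Set Edg), ∀ b,
        DReach (↑((S ∪ D ∪ X) \ F) : Set Edg) a b → b ∈ ball a l) ≤
    Pr p (S ∪ D ∪ X) (fun F => Reach (((↑(S ∪ D) : Set Edg) ∩ ↑F) ∪ ↑Oo) x y ∧
      ∃ w ∈ Wa, ∃ w' ∈ Wb, DReach (↑(S ∪ X) \ ↑F : Set Edg) w w') := by
  classical
  refine (markov_inc hp (PST_stop (X := X) hSD hOo) ?_ ?_).trans (Pr_mono hp ?_)
  · -- the event is explored
    rintro F F' _ _ h ⟨hP, w, hw, w', hw', hr⟩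
    refine ⟨PST_pot hSD hOo h hP, w, hw, w', hw', ?_⟩
    have hwY : w ∈ PST_Y S D Oo F := PST_Y_out' (hWa w hw)
    have h1 := (PST_path hSD hX hOo hwY hr).2
    refine h1.mono ?_
    rintro e ⟨he1, he2, he3⟩
    exact ⟨he2, fun h' => he3 ((PST_agree h (Finset.mem_coe.mp he1)).mpr h')⟩
  · -- monotonicity
    intro F G hFG h a ha b hr
    refine h a ha b (hr.mono ?_)
    exact Finset.coe_subset.mpr (Finset.sdiff_subset_sdiff le_rfl hFG)
  · rintro F hF ⟨⟨hP, w, hw, w', hw', hr⟩, hB⟩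
    refine ⟨?_, w, hw, w', hw', hr⟩
    have hwY : w ∈ PST_Y S D Oo F := PST_Y_out' (hWa w hw)
    obtain ⟨f, hxf, hwf⟩ := hxa w hw
    obtain ⟨y', hy', hOy⟩ := hyb w' hw'
    -- `f` is explored
    have hfY : f ∈ PST_Y S D Oo F := by
      obtain ⟨e0, he0, hr0⟩ := hwY
      refine ⟨e0, he0, hr0.trans (hwf.mono ?_)⟩
      intro e he
      exact (PST_H0s hSD hOo).mpr (Or.inl he)
    have hGset : (((↑(S ∪ D) : Set Edg) ∩ ↑F) ∪ ↑Oo) = (↑(((S ∪ D) ∩ F) ∪ Oo) : Set Edg) := by
      push_cast; rfl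
    rw [hGset]
    -- the modified chain
    obtain ⟨Z1, hZ1, hZ1v⟩ := chain_of_reach hOy
    have hZ1' : ∀ e, e ∉ ((S ∪ D) ∩ F) ∪ Oo → Z1 e = 0 := by
      intro e he
      by_contra h
      exact he (Finset.mem_union_right _ (Finset.mem_coe.mp (hZ1 e h)))
    have hvb : ∀ v, vb (fun e => Z e + Z1 e) v = b2 (x = v) + b2 (y' = v) := by
      intro v
      have h1 : vb (fun e => Z e + Z1 e) v = vb Z v + vb Z1 v := by
        unfold vb; ring
      rw [h1, hZ v, hZ1v v]
      have := zmod2_add_self (b2 (y = v))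
      linear_combination this
    have hfw' : DReach {e : Edg | e ∉ ((S ∪ D) ∩ F) ∪ Oo} f w' := by
      refine DReach.trans (hwf.mono ?_).symm (hr.mono ?_)
      · intro e he h1
        apply he
        rw [Finset.mem_union, Finset.mem_inter] at h1
        rw [Finset.mem_union]
        exact h1.imp (fun h => h.1) id
      · rintro e ⟨he1, he2⟩ h1
        rw [Finset.mem_union, Finset.mem_inter] at h1
        rcases h1 with ⟨_, h1⟩ | h1
        · exact he2 h1
        · rw [Finset.mem_coe, Finset.mem_union] at he1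
          rcases he1 with he1 | he1
          · exact Finset.disjoint_left.mp hOo h1 (Finset.mem_union_left _ he1)
          · exact Finset.disjoint_left.mp hX he1 (Finset.mem_union_right _ h1)
    have hmain : Reach (↑(((S ∪ D) ∩ F) ∪ Oo) : Set Edg) x y' := by
      refine conv_star hvb hxf hy' hfw' ?_
      intro k hk
      have hk' : DW Z {e : Edg | e ∉ ((S ∪ D) ∩ F) ∪ Oo} f f k :=
        PS2_congr (fun e he => by rw [hZ1' e he, add_zero]) hk
      refine yonly hP ?_ hfY (hk'.mono ?_)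
      · intro a ha b hr1
        refine hB a ha b (hr1.mono ?_)
        rintro e ⟨he1, he2, he3⟩
        have he1' : e ∈ S ∪ D ∪ Oo := Finset.mem_coe.mp he1
        have hnF : e ∉ F := fun h => he2 (Or.inl h)
        have hnO : e ∉ Oo := fun h => he2 (Or.inr h)
        have hSD' : e ∈ S ∪ D := by
          rw [Finset.mem_union] at he1'
          exact he1'.resolve_right hnO
        rw [Finset.mem_coe, Finset.mem_sdiff]
        refine ⟨Finset.mem_union_left _ hSD', ?_⟩
        intro h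
        rw [Finset.mem_union] at h
        rcases h with h | h
        · exact hnF h
        · rw [PST_mem_K] at h
          rcases h with ⟨h4, h5⟩ | h
          · rcases he3 with h6 | ⟨h6, h7⟩
            · exact Finset.disjoint_left.mp hSD h4 h6
            · exact h5.elim h6 h7
          · exact Finset.disjoint_left.mp hX h he1'
      · intro e he h1
        apply he
        obtain ⟨h2, h3⟩ := h1
        have h2' : e ∈ S ∪ D ∪ Oo := Finset.mem_coe.mp h2
        rw [Finset.mem_union] at h2'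
        rw [Finset.mem_union, Finset.mem_inter]
        rcases h3 with h3 | h3
        · exact h2'.imp (fun h => ⟨h, h3⟩) id
        · exact Or.inr h3
    refine hmain.trans ((hOy.mono ?_).symm)
    exact Finset.coe_subset.mpr Finset.subset_union_right

end H985T
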