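import Pool.Agent.H985R3.TA.S1Iof
import Pool.Agent.H985R3.TA.PS2
import Pool.Agent.H985R3.TA.NI1
import Pool.Agent.H985R3.TA.OUI
import Pool.Agent.H985R3.TA.PAI

/-!
S1I (helper325): the first inward separation step.
-/

set_option autoImplicit false

namespace H985T

open H974 Finset

theorem step1i {κ : ℝ} {n : ℕ} (hW : H12S.Win (1 / 2) κ n) {a N ρ r l k : ℕ} {c : ℤ}
    (hl : 1 ≤ l) (hr : 32 * l ≤ r) (hρ : 16 * r ≤ ρ) (hk : ρ ≤ k * l) (hc : |c| + 20 * ρ ≤ a)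
    (hN : 2 * a ≤ N) (hn : 2 * l ≤ n) {X : Finset Edg} (hX : Disjoint X (RI a N ρ c))
    {Wa : Set Vtx}
    (hWa : ∀ w ∈ Wa, ∃ e ∈ boxE a, e ∉ RI a N ρ c ∧ (dsrc e = w ∨ dtgt e = w)) :
    H12S.PQ (1 / 2) (An a N ∪ tubeI a ρ c ∪ X) (fun F =>
        (Lvi a N ρ c ↑F ∧ Gdi a N ρ r (4 * l) c ↑F) ∧
        ∃ w ∈ Wa, ∃ w', nb N w' ∧ DReach (↑(An a N ∪ X) \ ↑F : Set Edg) w w') *
          κ ^ (4 * (2 * (6 * k) + 1) ^ 2) ≤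
    H12S.PQ (1 / 2) (An a N ∪ tubeI a ρ c ∪ X) (fun F => Tvi a N ρ c ↑F ∧
        ∃ w ∈ Wa, ∃ w', nb N w' ∧ DReach (↑(An a N ∪ X) \ ↑F : Set Edg) w w') :=
  step1i_of (fun hp => step_prob2 hp) (fun h1 h2 h3 h4 h5 => near_inR h1 h2 h3 h4 h5)
    (fun h1 h2 h3 => in_face h1 h2 h3) ring_vtx
    (fun h1 h2 h3 => pass_vi h1 h2 h3) hW hl hr hρ hk hc hN hn hX hWa

end H985T
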