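import Pool.Agent.H985R3.TA.M1Iof
import Pool.Agent.H985R3.TA.S1I

/-! M1I (helper325): the first inward extension step for the landing on a general side. -/

set_option autoImplicit false

namespace H985T

open H974 Finset

theorem mid1i {κ : ℝ} {n : ℕ} (hW : H12S.Win (1 / 2) κ n) {a N ρ r l k : ℕ} {c c' : ℤ}
    {s : Fin 4} (hl : 1 ≤ l) (hr : 32 * l ≤ r) (hρ : 16 * r ≤ ρ) (hk : ρ ≤ k * l)
    (hc : |c| + 20 * ρ ≤ a) (hc' : |c'| + 20 * ρ ≤ a) (hs : s = 0 → 6 * (ρ:ℤ) ≤ |c - c'|)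
    (hN : 2 * a ≤ N) (hn : 2 * l ≤ n) :
    H12S.PQ (1 / 2) (An a N) (fun F => (Lvi a N ρ c ↑F ∧ Gdi a N ρ r (4 * l) c ↑F) ∧
        LfiS a N ρ s c' ↑F) * κ ^ (4 * (2 * (6 * k) + 1) ^ 2) ≤
    H12S.PQ (1 / 2) (An a N ∪ tubeI a ρ c) (fun F => Tvi a N ρ c ↑F ∧
        LfiS a N ρ s c' ↑F) :=
  mid1i_of (fun hW _ _ _ _ _ _ _ hl hr hρ hk hc hN hn _ hX _ hWa =>
    step1i hW hl hr hρ hk hc hN hn hX hWa) hW hl hr hρ hk hc hc' hs hN hn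

end H985T
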