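import Pool.Agent.H985R3.TA.Defs2

/-!
Two-arm project, task START: the potential on the explored faces.
-/

set_option autoImplicit false

namespace H985T

open H974 Finset

/-- a weighted dual path lies in a ball -/
theorem START_bounded {Z : Edg → ZMod 2} {G : Set Edg} {a b : Vtx} {k : ZMod 2}
    (h : DW Z G a b k) : ∃ R : ℤ, DW Z (G ∩ eball a R) a b k := by
  induction h with
  | refl => exact ⟨0, DW.refl⟩
  | @step b c k e h he hc ih =>
    obtain ⟨R, hR⟩ := ih
    set R' := max R (|b.1 - a.1| + |b.2 - a.2| + |c.1 - a.1| + |c.2 - a.2|) with hR'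
    have n1 := abs_nonneg (b.1 - a.1)
    have n2 := abs_nonneg (b.2 - a.2)
    have n3 := abs_nonneg (c.1 - a.1)
    have n4 := abs_nonneg (c.2 - a.2)
    have hle := le_max_right R (|b.1 - a.1| + |b.2 - a.2| + |c.1 - a.1| + |c.2 - a.2|)
    have hb : b ∈ ball a R' := ⟨by omega, by omega⟩
    have hc' : c ∈ ball a R' := ⟨by omega, by omega⟩
    refine ⟨R', (hR.mono (Set.inter_subset_inter_right _ (eball_mono (le_max_left _ _)))).step
      ⟨he, ?_⟩ hc⟩
    rcases hc with ⟨h1, h2⟩ | ⟨h1, h2⟩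
    · exact ⟨by rw [h1]; exact hb, by rw [h2]; exact hc'⟩
    · exact ⟨by rw [h1]; exact hc', by rw [h2]; exact hb⟩

/-- a closed chain is a coboundary -/
theorem START_pot {W : Edg → ZMod 2} (hW : ∀ v, vb W v = 0) :
    ∃ θ : Vtx → ZMod 2, ∀ e, W e = θ (dsrc e) + θ (dtgt e) := by
  obtain ⟨θ, hθ⟩ := exists_pot (Z := W) (G := Set.univ) (by
    intro a k h
    obtain ⟨R, hR⟩ := START_bounded h
    obtain ⟨φ, hφ⟩ := local_exact (Z := W) (p := a.1 - R) (r := a.2 - R) (q := a.1 + R)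
      (s := a.2 + R) (fun i j _ _ _ _ => hW (i, j))
    have h1 : k = φ a + φ a := by
      refine DW.exact (φ := φ) ?_ hR
      rintro e ⟨-, ⟨h1, h2⟩, h3, h4⟩
      rw [abs_le] at h1 h2 h3 h4
      exact hφ e (by omega) (by omega) (by omega) (by omega)
    rw [h1]
    exact zmod2_add_self _)
  exact ⟨θ, fun e => hθ e (Set.mem_univ e)⟩

theorem START_conv {Z ZA : Edg → ZMod 2} {θ : Vtx → ZMod 2}
    (hθ : ∀ e, Z e + ZA e = θ (dsrc e) + θ (dtgt e)) {G : Set Edg} {a b : Vtx} {k : ZMod 2}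
    (h : DW Z G a b k) : ∃ k', DW ZA G a b k' ∧ k + k' = θ a + θ b := by
  induction h with
  | refl =>
    refine ⟨0, DW.refl, ?_⟩
    rw [zmod2_add_self, zmod2_add_self]
  | @step b c k e _ he hc ih =>
    obtain ⟨k', hk', h2⟩ := ih
    refine ⟨k' + ZA e, hk'.step he hc, ?_⟩
    have h3 := hθ e
    have h4 := zmod2_add_self (θ b)
    rcases hc with ⟨h5, h6⟩ | ⟨h5, h6⟩
    · rw [h5, h6] at h3
      linear_combination h2 + h3 + h4
    · rw [h5, h6] at h3
      linear_combination h2 + h3 + h4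

theorem pot_of_near {O D F A : Set Edg} {x y : Vtx} {l ρ : ℤ} (sub : A ⊆ O ∩ (D ∪ F))
    (le : l ≤ ρ)
    (far : ∀ a ∈ VD D, ∀ v : Vtx, v = x ∨ v = y →
      ¬ (a.1 - ρ < v.1 ∧ v.1 ≤ a.1 + ρ ∧ a.2 - ρ < v.2 ∧ v.2 ≤ a.2 + ρ))
    (near : ∀ a ∈ YY O D F, a ∈ VD D → ∀ b ∈ YY O D F, b ∈ VD D → b ∈ ball a l →
      (∀ e ∈ A, e ∉ eball a l) ∨ DReach (H0s O D F ∩ eball a ρ) a b)
    (hxy : Reach A x y) {Z : Edg → ZMod 2} (hZ : ∀ v, vb Z v = b2 (x = v) + b2 (y = v)) :
    PotHyp O D F Z l := by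
  obtain ⟨ZA, hZA, hZA2⟩ := chain_of_reach hxy
  have hW : ∀ v, vb (fun e => Z e + ZA e) v = 0 := by
    intro v
    have h1 := hZ v
    have h2 := hZA2 v
    have h3 := zmod2_add_self (b2 (x = v))
    have h4 := zmod2_add_self (b2 (y = v))
    unfold vb at h1 h2 ⊢
    linear_combination h1 + h2 + h3 + h4
  obtain ⟨θ, hθ⟩ := START_pot hW
  have hH0 : ∀ e ∈ H0s O D F, ZA e = 0 := by
    intro e he
    by_contra h6
    have h7 := sub (hZA e h6)
    exact he ⟨h7.1, h7.2⟩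
  refine ⟨θ, ?_, ?_⟩
  · intro e he _
    have h1 := hθ e
    rw [hH0 e he, add_zero] at h1
    exact h1
  · intro a ha haD b hb hbD hab k hk
    obtain ⟨k', hk', h2⟩ := START_conv hθ hk
    have hk0 : k' = 0 := by
      rcases near a ha haD b hb hbD hab with h | h
      · refine hk'.zero ?_
        intro e he
        by_contra h3
        exact h e (hZA e h3) he
      · obtain ⟨φ, hφ⟩ := pot_ball hZA2 (far a haD)
        have h3 : k' = φ a + φ b :=
          DW.exact (φ := φ) (fun e he => hφ e (eball_mono le he)) hk'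
        obtain ⟨k'', hk''⟩ := DW.of_reach (Z := ZA) h
        have h4 : k'' = φ a + φ b := DW.exact (φ := φ) (fun e he => hφ e he.2) hk''
        have h5 : k'' = 0 := hk''.zero (fun e he => hH0 e he.1)
        rw [h3, ← h4, h5]
    rw [hk0, add_zero] at h2
    exact h2

end H985T
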