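import Pool.Agent.H985R3.TA.Defs2
import Pool.Agent.H985R3.TA.OUT
import Pool.Agent.H985R3.TA.START
import Pool.Agent.H12R2.Sep.Defs

/-!
Two-arm project: geometry of the mouth of the tube, dual arm (task NR2)
-/

set_option autoImplicit false

namespace H985T

open H974 Finset

/-! ### duality -/

theorem NR2_dsrc (e : Edg) : dsrc (dl e) = ((src e).1 - 1, (src e).2 - 1) := by
  obtain ⟨x, y, _ | _⟩ := e <;> simp

theorem NR2_dtgt (e : Edg) : dtgt (dl e) = ((tgt e).1 - 1, (tgt e).2 - 1) := by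
  obtain ⟨x, y, _ | _⟩ := e <;> simp

theorem NR2_of_reach {G H : Set Edg} (hG : ∀ e ∈ G, dl e ∈ H) {u v : Vtx} (h : Reach G u v) :
    DReach H (u.1 - 1, u.2 - 1) (v.1 - 1, v.2 - 1) := by
  induction h with
  | refl => exact DReach.refl _ _
  | @tail v w _ hs ih =>
    obtain ⟨e, he, hc⟩ := hs
    refine ih.tail ⟨dl e, hG e he, ?_⟩
    rw [NR2_dsrc, NR2_dtgt]
    rcases hc with ⟨h1, h2⟩ | ⟨h1, h2⟩
    · left; rw [h1, h2]; exact ⟨rfl, rfl⟩
    · right; rw [h1, h2]; exact ⟨rfl, rfl⟩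

theorem NR2_to_reach {G H : Set Edg} (hH : ∀ e, dl e ∈ H → e ∈ G) {a b : Vtx} (h : DReach H a b) :
    Reach G (a.1 + 1, a.2 + 1) (b.1 + 1, b.2 + 1) := by
  induction h with
  | refl => exact Reach.refl _ _
  | @tail b c _ hs ih =>
    obtain ⟨e, he, hc⟩ := hs
    obtain ⟨e', rfl⟩ := dl.surjective e
    refine ih.tail ⟨e', hH e' he, ?_⟩
    rw [NR2_dsrc, NR2_dtgt] at hc
    rcases hc with ⟨h1, h2⟩ | ⟨h1, h2⟩
    · left; rw [← h1, ← h2]; simp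
    · right; rw [← h1, ← h2]; simp

/-! ### straight paths -/

theorem NR2_hreach {G : Set Edg} {x y : ℤ} (n : ℕ)
    (h : ∀ i : ℤ, x ≤ i → i < x + n → ((i, y, true) : Edg) ∈ G) :
    Reach G (x, y) (x + n, y) := by
  induction n with
  | zero => simpa using Reach.refl G (x, y)
  | succ n ih =>
    have h1 := ih (fun i h1 h2 => h i h1 (by push_cast; omega))
    refine h1.tail ⟨(x + n, y, true), h _ (by omega) (by push_cast; omega), Or.inl ⟨rfl, ?_⟩⟩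
    simp only [tgt_true, Nat.cast_add, Nat.cast_one]
    rw [add_assoc]

theorem NR2_vreach {G : Set Edg} {x y : ℤ} (n : ℕ)
    (h : ∀ j : ℤ, y ≤ j → j < y + n → ((x, j, false) : Edg) ∈ G) :
    Reach G (x, y) (x, y + n) := by
  induction n with
  | zero => simpa using Reach.refl G (x, y)
  | succ n ih =>
    have h1 := ih (fun i h1 h2 => h i h1 (by push_cast; omega))
    refine h1.tail ⟨(x, y + n, false), h _ (by omega) (by push_cast; omega), Or.inl ⟨rfl, ?_⟩⟩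
    simp only [tgt_false, Nat.cast_add, Nat.cast_one]
    rw [add_assoc]

theorem NR2_hreach' {G : Set Edg} {x x' y : ℤ} (hx : x ≤ x')
    (h : ∀ i : ℤ, x ≤ i → i < x' → ((i, y, true) : Edg) ∈ G) :
    Reach G (x, y) (x', y) := by
  obtain ⟨n, hn⟩ := Int.eq_ofNat_of_zero_le (sub_nonneg.mpr hx)
  have e1 : x' = x + n := by omega
  rw [e1]
  exact NR2_hreach n (fun i h1 h2 => h i h1 (by omega))

theorem NR2_vreach' {G : Set Edg} {x y y' : ℤ} (hy : y ≤ y')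
    (h : ∀ j : ℤ, y ≤ j → j < y' → ((x, j, false) : Edg) ∈ G) :
    Reach G (x, y) (x, y') := by
  obtain ⟨n, hn⟩ := Int.eq_ofNat_of_zero_le (sub_nonneg.mpr hy)
  have e1 : y' = y + n := by omega
  rw [e1]
  exact NR2_vreach n (fun i h1 h2 => h i h1 (by omega))

theorem NR2_dhreach {G : Set Edg} {x x' y : ℤ} (hx : x ≤ x')
    (h : ∀ i : ℤ, x < i → i ≤ x' → ((i, y, false) : Edg) ∈ G) :
    DReach G (x, y) (x', y) := by
  obtain ⟨n, hn⟩ := Int.eq_ofNat_of_zero_le (sub_nonneg.mpr hx)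
  have e1 : x' = x + n := by omega
  subst e1
  clear hn hx
  induction n with
  | zero => simpa using DReach.refl G (x, y)
  | succ n ih =>
    have h1 := ih (fun i h1 h2 => h i h1 (by push_cast; omega))
    refine h1.tail ⟨(x + n + 1, y, false), h _ (by omega) (by push_cast; omega),
      Or.inl ⟨?_, ?_⟩⟩
    · simp
    · simp only [dtgt_mk, Nat.cast_add, Nat.cast_one]
      rw [add_assoc]

theorem NR2_dvreach {G : Set Edg} {x y y' : ℤ} (hy : y ≤ y')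
    (h : ∀ j : ℤ, y < j → j ≤ y' → ((x, j, true) : Edg) ∈ G) :
    DReach G (x, y) (x, y') := by
  obtain ⟨n, hn⟩ := Int.eq_ofNat_of_zero_le (sub_nonneg.mpr hy)
  have e1 : y' = y + n := by omega
  subst e1
  clear hn hy
  induction n with
  | zero => simpa using DReach.refl G (x, y)
  | succ n ih =>
    have h1 := ih (fun i h1 h2 => h i h1 (by push_cast; omega))
    refine h1.tail ⟨(x, y + n + 1, true), h _ (by omega) (by push_cast; omega),
      Or.inl ⟨?_, ?_⟩⟩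
    · simp
    · simp only [dtgt_mk, Nat.cast_add, Nat.cast_one]
      rw [add_assoc]

/-! ### the environment in primal terms -/

/-- edges of the box which are open, and edges outside of the region -/
def NR2_H (m ρ : ℕ) (c : ℤ) (F : Set Edg) : Set Edg :=
  {e | e ∉ RO m ρ c ∨ (e ∈ F ∧ e ∈ boxE m)}

/-- joined to the outside -/
def NR2_out (m ρ : ℕ) (c : ℤ) (F : Set Edg) (v : Vtx) : Prop :=
  ∃ e, e ∉ RO m ρ c ∧ Reach (NR2_H m ρ c F) (tgt e) v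

variable {m ρ r l : ℕ} {c : ℤ} {F : Set Edg}

theorem NR2_exit {v : Vtx} (h : NR2_out m ρ c F v) : ∃ u, Reach (F ∩ ↑(boxE m)) v u ∧
    ∃ e, e ∉ RO m ρ c ∧ (src e = u ∨ tgt e = u) := by
  obtain ⟨e0, he0, h⟩ := h
  have h1 : ∀ w, Reach (NR2_H m ρ c F) v w → Reach (F ∩ ↑(boxE m)) v w ∨
      ∃ u, Reach (F ∩ ↑(boxE m)) v u ∧ ∃ e, e ∉ RO m ρ c ∧ (src e = u ∨ tgt e = u) := by
    intro w hw
    induction hw with
    | refl => exact Or.inl (Reach.refl _ _)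
    | @tail w w' _ hs ih =>
      rcases ih with ih | ih
      · obtain ⟨e, he, hc⟩ := hs
        rcases he with he | he
        · refine Or.inr ⟨w, ih, e, he, ?_⟩
          rcases hc with ⟨h2, _⟩ | ⟨_, h2⟩
          · exact Or.inl h2
          · exact Or.inr h2
        · exact Or.inl (ih.tail ⟨e, ⟨he.1, he.2⟩, hc⟩)
      · exact Or.inr ih
  rcases h1 _ h.symm with h2 | h2
  · exact ⟨_, h2, e0, he0, Or.inr rfl⟩
  · exact h2

/-- no vertex in the interior of the tube is joined to the outside -/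
theorem NR2_int {v : Vtx} (h1 : (m:ℤ) < v.1) (h2 : v.1 ≤ (m:ℤ) + 10 * ρ)
    (h3 : c - ρ < v.2) (h4 : v.2 < c + ρ) : ¬ NR2_out m ρ c F v := by
  intro h
  obtain ⟨u, hu, e, he, hc⟩ := NR2_exit h
  rcases Relation.ReflTransGen.cases_head hu with h5 | ⟨w, ⟨e', ⟨_, he'⟩, hc'⟩, _⟩
  · subst h5
    apply he
    rw [mem_RO]
    right
    obtain ⟨x, y, b⟩ := e
    obtain ⟨v1, v2⟩ := v
    simp only at h1 h2 h3 h4
    cases b
    · simp only [src_mk, tgt_false, Prod.mk.injEq] at hc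
      rw [mem_RE_false]
      omega
    · simp only [src_mk, tgt_true, Prod.mk.injEq] at hc
      rw [mem_RE_true]
      omega
  · obtain ⟨x, y, b⟩ := e'
    obtain ⟨v1, v2⟩ := v
    simp only at h1 h2 h3 h4
    cases b
    · simp only [src_mk, tgt_false, Prod.mk.injEq] at hc'
      rw [Finset.mem_coe, boxE, mem_RE_false] at he'
      omega
    · simp only [src_mk, tgt_true, Prod.mk.injEq] at hc'
      rw [Finset.mem_coe, boxE, mem_RE_true] at he'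
      omega

theorem NR2_local {G : Set Edg} {B : Set Vtx} {v w : Vtx} (hB : ∀ u, Reach G v u → u ∈ B)
    (h : Reach G v w) : Reach (G ∩ {e | src e ∈ B ∧ tgt e ∈ B}) v w := by
  induction h with
  | refl => exact Reach.refl _ _
  | @tail w w' hw hs ih =>
    have h1 := hB w hw
    have h2 := hB w' (hw.tail hs)
    obtain ⟨e, he, hc⟩ := hs
    refine ih.tail ⟨e, ⟨he, ?_⟩, hc⟩
    rcases hc with ⟨h3, h4⟩ | ⟨h3, h4⟩
    · rw [Set.mem_ofPred_eq, h3, h4]; exact ⟨h1, h2⟩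
    · rw [Set.mem_ofPred_eq, h3, h4]; exact ⟨h2, h1⟩

theorem NR2_corner_up (hr : 1 ≤ r) (hρ : 16 * r ≤ ρ) (hc : |c| + 4 * ρ ≤ m) {v : Vtx}
    (hv : inR ((m:ℤ) - (2 * r : ℕ)) ((m:ℤ) + (2 * r : ℕ)) (c + ρ - (2 * r : ℕ))
      (c + ρ + (2 * r : ℕ)) v)
    (hout : NR2_out m ρ c F v)
    (hn : ¬ H12S.Crs m (c + ρ) (2 * r) (ρ / 4) (F ∩ ↑(boxE m))) :
    Reach (NR2_H m ρ c F ∩ {e | src e ∈ ball ((m:ℤ), c + ρ) ((ρ:ℤ) / 4 + 1) ∧
      tgt e ∈ ball ((m:ℤ), c + ρ) ((ρ:ℤ) / 4 + 1)}) v ((m:ℤ) + 1, c + ρ + 1) := by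
  have hc' := abs_le.mp (le_of_eq rfl : |c| ≤ |c|)
  obtain ⟨u, hu, e, he, hce⟩ := NR2_exit hout
  have hB : ∀ w, Reach (F ∩ ↑(boxE m)) v w → (m:ℤ) - ρ / 4 < w.1 ∧ w.1 < (m:ℤ) + ρ / 4 ∧
      c + ρ - ρ / 4 < w.2 ∧ w.2 < c + ρ + ρ / 4 := by
    intro w hw
    by_contra h1
    apply hn
    refine ⟨v, w, hv, ?_, hw⟩
    push_cast
    omega
  have hB' : ∀ w, Reach (F ∩ ↑(boxE m)) v w → w ∈ ball ((m:ℤ), c + ρ) ((ρ:ℤ) / 4 + 1) := by
    intro w hw
    have := hB w hw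
    simp only [ball, Set.mem_ofPred_eq, abs_le]
    omega
  have h1 := NR2_local hB' hu
  have h2 : Reach (NR2_H m ρ c F ∩ {e | src e ∈ ball ((m:ℤ), c + ρ) ((ρ:ℤ) / 4 + 1) ∧
      tgt e ∈ ball ((m:ℤ), c + ρ) ((ρ:ℤ) / 4 + 1)}) v u := by
    refine Reach.mono ?_ h1
    rintro e ⟨he1, he2⟩
    exact ⟨Or.inr ⟨he1.1, he1.2⟩, he2⟩
  refine h2.trans ?_
  -- from `u` to the corner
  have hu' := hB u hu
  obtain ⟨u1, u2⟩ := u
  simp only at hu'
  have hu2 : (m:ℤ) ≤ u1 ∧ c + ρ ≤ u2 ∧ ((m:ℤ) + 1 ≤ u1 ∨ c + ρ + 1 ≤ u2) := by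
    rw [mem_RO] at he
    obtain ⟨x, y, b⟩ := e
    cases b
    · simp only [src_mk, tgt_false, Prod.mk.injEq] at hce
      rw [boxE, mem_RE_false, mem_RE_false] at he
      omega
    · simp only [src_mk, tgt_true, Prod.mk.injEq] at hce
      rw [boxE, mem_RE_true, mem_RE_true] at he
      omega
  have hh : ∀ x y : ℤ, (m:ℤ) ≤ x → c + ρ + 1 ≤ y → x < (m:ℤ) + ρ / 4 → y < c + ρ + ρ / 4 + 1 →
      ((x, y, true) : Edg) ∈ NR2_H m ρ c F ∩ {e | src e ∈ ball ((m:ℤ), c + ρ) ((ρ:ℤ) / 4 + 1) ∧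
      tgt e ∈ ball ((m:ℤ), c + ρ) ((ρ:ℤ) / 4 + 1)} := by
    intro x y h1 h2 h3 h4
    refine ⟨Or.inl ?_, ?_⟩
    · rw [mem_RO, boxE, mem_RE_true, mem_RE_true]
      omega
    · simp only [ball, Set.mem_ofPred_eq, abs_le, src_mk, tgt_true]
      omega
  have hv' : ∀ x y : ℤ, (m:ℤ) + 1 ≤ x → c + ρ ≤ y → x < (m:ℤ) + ρ / 4 + 1 → y < c + ρ + ρ / 4 →
      ((x, y, false) : Edg) ∈ NR2_H m ρ c F ∩ {e | src e ∈ ball ((m:ℤ), c + ρ) ((ρ:ℤ) / 4 + 1) ∧
      tgt e ∈ ball ((m:ℤ), c + ρ) ((ρ:ℤ) / 4 + 1)} := by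
    intro x y h1 h2 h3 h4
    refine ⟨Or.inl ?_, ?_⟩
    · rw [mem_RO, boxE, mem_RE_false, mem_RE_false]
      omega
    · simp only [ball, Set.mem_ofPred_eq, abs_le, src_mk, tgt_false]
      omega
  -- first to the row `≥ c + ρ + 1`
  have k1 : ∀ w1 w2 : ℤ, (m:ℤ) ≤ w1 → c + ρ + 1 ≤ w2 → w1 < (m:ℤ) + ρ / 4 →
      w2 < c + ρ + ρ / 4 + 1 → Reach (NR2_H m ρ c F ∩
      {e | src e ∈ ball ((m:ℤ), c + ρ) ((ρ:ℤ) / 4 + 1) ∧
      tgt e ∈ ball ((m:ℤ), c + ρ) ((ρ:ℤ) / 4 + 1)}) (w1, w2) ((m:ℤ) + 1, c + ρ + 1) := by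
    intro w1 w2 h1 h2 h3 h4
    have k2 : Reach (NR2_H m ρ c F ∩
      {e | src e ∈ ball ((m:ℤ), c + ρ) ((ρ:ℤ) / 4 + 1) ∧
      tgt e ∈ ball ((m:ℤ), c + ρ) ((ρ:ℤ) / 4 + 1)}) (w1, w2) ((m:ℤ) + 1, w2) := by
      rcases le_or_gt w1 ((m:ℤ) + 1) with h5 | h5
      · exact NR2_hreach' h5 (fun i h6 h7 => hh i w2 (by omega) (by omega) (by omega) (by omega))
      · exact (NR2_hreach' h5.le
          (fun i h6 h7 => hh i w2 (by omega) (by omega) (by omega) (by omega))).symm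
    refine k2.trans ?_
    exact (NR2_vreach' h2
      (fun j h6 h7 => hv' _ j (by omega) (by omega) (by omega) (by omega))).symm
  rcases le_or_gt (c + ρ + 1) u2 with h5 | h5
  · exact k1 u1 u2 (by omega) h5 (by omega) (by omega)
  · have h6 : u2 = c + ρ := by omega
    subst h6
    have h7 := NR2_vreach' (G := NR2_H m ρ c F ∩
      {e | src e ∈ ball ((m:ℤ), c + ρ) ((ρ:ℤ) / 4 + 1) ∧
      tgt e ∈ ball ((m:ℤ), c + ρ) ((ρ:ℤ) / 4 + 1)}) (x := u1) (y := c + ρ) (y' := c + ρ + 1)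
      (by omega) (fun j h8 h9 => hv' u1 j (by omega) (by omega) (by omega) (by omega))
    exact h7.trans (k1 u1 (c + ρ + 1) (by omega) (by omega) (by omega) (by omega))

theorem NR2_corner_dn (hr : 1 ≤ r) (hρ : 16 * r ≤ ρ) (hc : |c| + 4 * ρ ≤ m) {v : Vtx}
    (hv : inR ((m:ℤ) - (2 * r : ℕ)) ((m:ℤ) + (2 * r : ℕ)) (c - ρ - (2 * r : ℕ))
      (c - ρ + (2 * r : ℕ)) v)
    (hout : NR2_out m ρ c F v)
    (hn : ¬ H12S.Crs m (c - ρ) (2 * r) (ρ / 4) (F ∩ ↑(boxE m))) :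
    Reach (NR2_H m ρ c F ∩ {e | src e ∈ ball ((m:ℤ), c - ρ) ((ρ:ℤ) / 4 + 1) ∧
      tgt e ∈ ball ((m:ℤ), c - ρ) ((ρ:ℤ) / 4 + 1)}) v ((m:ℤ) + 1, c - ρ - 1) := by
  have hc' := abs_le.mp (le_of_eq rfl : |c| ≤ |c|)
  obtain ⟨u, hu, e, he, hce⟩ := NR2_exit hout
  have hB : ∀ w, Reach (F ∩ ↑(boxE m)) v w → (m:ℤ) - ρ / 4 < w.1 ∧ w.1 < (m:ℤ) + ρ / 4 ∧
      c - ρ - ρ / 4 < w.2 ∧ w.2 < c - ρ + ρ / 4 := by
    intro w hw
    by_contra h1
    apply hn
    refine ⟨v, w, hv, ?_, hw⟩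
    push_cast
    omega
  have hB' : ∀ w, Reach (F ∩ ↑(boxE m)) v w → w ∈ ball ((m:ℤ), c - ρ) ((ρ:ℤ) / 4 + 1) := by
    intro w hw
    have := hB w hw
    simp only [ball, Set.mem_ofPred_eq, abs_le]
    omega
  have h1 := NR2_local hB' hu
  have h2 : Reach (NR2_H m ρ c F ∩ {e | src e ∈ ball ((m:ℤ), c - ρ) ((ρ:ℤ) / 4 + 1) ∧
      tgt e ∈ ball ((m:ℤ), c - ρ) ((ρ:ℤ) / 4 + 1)}) v u := by
    refine Reach.mono ?_ h1
    rintro e ⟨he1, he2⟩
    exact ⟨Or.inr ⟨he1.1, he1.2⟩, he2⟩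
  refine h2.trans ?_
  -- from `u` to the corner
  have hu' := hB u hu
  obtain ⟨u1, u2⟩ := u
  simp only at hu'
  have hu2 : (m:ℤ) ≤ u1 ∧ u2 ≤ c - ρ ∧ ((m:ℤ) + 1 ≤ u1 ∨ u2 ≤ c - ρ - 1) := by
    rw [mem_RO] at he
    obtain ⟨x, y, b⟩ := e
    cases b
    · simp only [src_mk, tgt_false, Prod.mk.injEq] at hce
      rw [boxE, mem_RE_false, mem_RE_false] at he
      omega
    · simp only [src_mk, tgt_true, Prod.mk.injEq] at hce
      rw [boxE, mem_RE_true, mem_RE_true] at he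
      omega
  have hh : ∀ x y : ℤ, (m:ℤ) ≤ x → y ≤ c - ρ - 1 → x < (m:ℤ) + ρ / 4 → c - ρ - ρ / 4 - 1 < y →
      ((x, y, true) : Edg) ∈ NR2_H m ρ c F ∩ {e | src e ∈ ball ((m:ℤ), c - ρ) ((ρ:ℤ) / 4 + 1) ∧
      tgt e ∈ ball ((m:ℤ), c - ρ) ((ρ:ℤ) / 4 + 1)} := by
    intro x y h1 h2 h3 h4
    refine ⟨Or.inl ?_, ?_⟩
    · rw [mem_RO, boxE, mem_RE_true, mem_RE_true]
      omega
    · simp only [ball, Set.mem_ofPred_eq, abs_le, src_mk, tgt_true]
      omega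
  have hv' : ∀ x y : ℤ, (m:ℤ) + 1 ≤ x → y + 1 ≤ c - ρ → x < (m:ℤ) + ρ / 4 + 1 →
      c - ρ - ρ / 4 - 1 < y →
      ((x, y, false) : Edg) ∈ NR2_H m ρ c F ∩ {e | src e ∈ ball ((m:ℤ), c - ρ) ((ρ:ℤ) / 4 + 1) ∧
      tgt e ∈ ball ((m:ℤ), c - ρ) ((ρ:ℤ) / 4 + 1)} := by
    intro x y h1 h2 h3 h4
    refine ⟨Or.inl ?_, ?_⟩
    · rw [mem_RO, boxE, mem_RE_false, mem_RE_false]
      omega
    · simp only [ball, Set.mem_ofPred_eq, abs_le, src_mk, tgt_false]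
      omega
  have k1 : ∀ w1 w2 : ℤ, (m:ℤ) ≤ w1 → w2 ≤ c - ρ - 1 → w1 < (m:ℤ) + ρ / 4 →
      c - ρ - ρ / 4 - 1 < w2 → Reach (NR2_H m ρ c F ∩
      {e | src e ∈ ball ((m:ℤ), c - ρ) ((ρ:ℤ) / 4 + 1) ∧
      tgt e ∈ ball ((m:ℤ), c - ρ) ((ρ:ℤ) / 4 + 1)}) (w1, w2) ((m:ℤ) + 1, c - ρ - 1) := by
    intro w1 w2 h1 h2 h3 h4
    have k2 : Reach (NR2_H m ρ c F ∩
      {e | src e ∈ ball ((m:ℤ), c - ρ) ((ρ:ℤ) / 4 + 1) ∧
      tgt e ∈ ball ((m:ℤ), c - ρ) ((ρ:ℤ) / 4 + 1)}) (w1, w2) ((m:ℤ) + 1, w2) := by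
      rcases le_or_gt w1 ((m:ℤ) + 1) with h5 | h5
      · exact NR2_hreach' h5 (fun i h6 h7 => hh i w2 (by omega) (by omega) (by omega) (by omega))
      · exact (NR2_hreach' h5.le
          (fun i h6 h7 => hh i w2 (by omega) (by omega) (by omega) (by omega))).symm
    refine k2.trans ?_
    exact NR2_vreach' h2
      (fun j h6 h7 => hv' _ j (by omega) (by omega) (by omega) (by omega))
  rcases le_or_gt u2 (c - ρ - 1) with h5 | h5
  · exact k1 u1 u2 (by omega) h5 (by omega) (by omega)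
  · have h6 : u2 = c - ρ := by omega
    subst h6
    have h7 := NR2_vreach' (G := NR2_H m ρ c F ∩
      {e | src e ∈ ball ((m:ℤ), c - ρ) ((ρ:ℤ) / 4 + 1) ∧
      tgt e ∈ ball ((m:ℤ), c - ρ) ((ρ:ℤ) / 4 + 1)}) (x := u1) (y := c - ρ - 1) (y' := c - ρ)
      (by omega) (fun j h8 h9 => hv' u1 j (by omega) (by omega) (by omega) (by omega))
    exact h7.symm.trans (k1 u1 (c - ρ - 1) (by omega) (by omega) (by omega) (by omega))

/-- from the mouth to the rim of the half ball -/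
theorem NR2_mouth {y y0 : ℤ} (hr : 1 ≤ r) (h1 : c - ρ < y0 - r)
    (h2 : y0 + r < c + ρ) (hm1 : -(m:ℤ) ≤ y0 - r) (hm2 : y0 + r ≤ m)
    (h3 : y0 - r < y) (h4 : y < y0 + r) (hout : NR2_out m ρ c F ((m:ℤ), y)) :
    ∃ z : Vtx, (z.1 = (m:ℤ) - r ∨ z.2 = y0 - r ∨ z.2 = y0 + r) ∧
      Reach (F ∩ ↑(hbR m y0 r)) ((m:ℤ), y) z := by
  obtain ⟨u, hu, e, he, hce⟩ := NR2_exit hout
  have key : ∀ w, Reach (F ∩ ↑(boxE m)) ((m:ℤ), y) w →
      (((m:ℤ) - r < w.1 ∧ w.1 ≤ m ∧ y0 - r < w.2 ∧ w.2 < y0 + r) ∧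
        Reach (F ∩ ↑(hbR m y0 r)) ((m:ℤ), y) w) ∨
      ∃ z : Vtx, (z.1 = (m:ℤ) - r ∨ z.2 = y0 - r ∨ z.2 = y0 + r) ∧
        Reach (F ∩ ↑(hbR m y0 r)) ((m:ℤ), y) z := by
    intro w hw
    induction hw with
    | refl =>
      refine Or.inl ⟨?_, Reach.refl _ _⟩
      simp only
      omega
    | @tail w w' _ hs ih =>
      rcases ih with ⟨ih1, ih2⟩ | ih
      · obtain ⟨e, ⟨heF, heB⟩, hc⟩ := hs
        obtain ⟨w1, w2⟩ := w
        obtain ⟨w1', w2'⟩ := w'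
        obtain ⟨x, z, b⟩ := e
        simp only at ih1
        have h5 : ((x, z, b) : Edg) ∈ hbR m y0 r ∧ ((m:ℤ) - r ≤ w1' ∧ w1' ≤ m ∧ y0 - r ≤ w2' ∧
            w2' ≤ y0 + r) := by
          cases b
          · simp only [src_mk, tgt_false, Prod.mk.injEq] at hc
            rw [Finset.mem_coe, boxE, mem_RE_false] at heB
            rw [hbR, mem_RE_false]
            omega
          · simp only [src_mk, tgt_true, Prod.mk.injEq] at hc
            rw [Finset.mem_coe, boxE, mem_RE_true] at heB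
            rw [hbR, mem_RE_true]
            omega
        have h6 : Reach (F ∩ ↑(hbR m y0 r)) ((m:ℤ), y) (w1', w2') :=
          ih2.tail ⟨(x, z, b), ⟨heF, h5.1⟩, hc⟩
        by_cases h7 : w1' = (m:ℤ) - r ∨ w2' = y0 - r ∨ w2' = y0 + r
        · exact Or.inr ⟨_, h7, h6⟩
        · refine Or.inl ⟨?_, h6⟩
          simp only
          omega
      · exact Or.inr ih
  rcases key u hu with ⟨h5, h6⟩ | h5
  · exfalso
    apply he
    rw [mem_RO]
    obtain ⟨x, z, b⟩ := e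
    obtain ⟨u1, u2⟩ := u
    simp only at h5
    cases b
    · simp only [src_mk, tgt_false, Prod.mk.injEq] at hce
      rw [boxE, mem_RE_false, mem_RE_false]
      omega
    · simp only [src_mk, tgt_true, Prod.mk.injEq] at hce
      rw [boxE, mem_RE_true, mem_RE_true]
      omega
  · exact h5

/-- the good positions of the vertices joined to the outside -/
theorem NR2_loc {v : Vtx} (hv : ∃ e ∈ tubeD m ρ c, src e = v ∨ tgt e = v)
    (hout : NR2_out m ρ c F v) :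
    (m:ℤ) ≤ v.1 ∧ v.1 ≤ (m:ℤ) + 10 * ρ ∧ c - ρ ≤ v.2 ∧ v.2 ≤ c + ρ ∧
      (v.1 = m ∨ v.2 = c - ρ ∨ v.2 = c + ρ) := by
  obtain ⟨e, he, hc⟩ := hv
  have h1 : (m:ℤ) ≤ v.1 ∧ v.1 ≤ (m:ℤ) + 10 * ρ ∧ c - ρ ≤ v.2 ∧ v.2 ≤ c + ρ := by
    obtain ⟨x, y, b⟩ := e
    obtain ⟨v1, v2⟩ := v
    rw [tubeD, tube, if_pos rfl, Finset.mem_sdiff] at he
    cases b
    · simp only [src_mk, tgt_false, Prod.mk.injEq] at hc
      rw [mem_RE_false] at he
      push_cast at he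
      simp only
      omega
    · simp only [src_mk, tgt_true, Prod.mk.injEq] at hc
      rw [mem_RE_true] at he
      push_cast at he
      simp only
      omega
  refine ⟨h1.1, h1.2.1, h1.2.2.1, h1.2.2.2, ?_⟩
  by_contra h2
  exact NR2_int (v := v) (by omega) (by omega) (by omega) (by omega) hout

/-- the closed edges of the box and the middle edges of the tube -/
def NR2_A (m ρ : ℕ) (c : ℤ) (F : Set Edg) : Set Edg :=
  {e | (e ∈ boxE m ∧ e ∉ F) ∨ (e ∈ RE (m:ℤ) ((m:ℤ) + 14 * ρ) (c - ρ) (c + ρ) ∧ e ∉ boxE m ∧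
    2 * e.2.1 ≤ 2 * c + ρ ∧ 2 * c ≤ 2 * e.2.1 + ρ)}

theorem NR2_path (hρ : 1 ≤ ρ) {f : Vtx} (hv : Lf m ρ c f F) :
    DReach (NR2_A m ρ c F) f ((m:ℤ) + 14 * ρ, c) := by
  obtain ⟨w2, hw, h⟩ := hv
  have hw' := abs_le.mp (show |w2 - c| ≤ |w2 - c| from le_rfl)
  have h1 : DReach (NR2_A m ρ c F) f ((m:ℤ), w2) :=
    DReach.mono (fun _ he => Or.inl ⟨he.1, he.2⟩) h
  have h2 : DReach (NR2_A m ρ c F) ((m:ℤ), w2) ((m:ℤ) + 1, w2) := by
    refine NR2_dhreach (by omega) fun i h3 h4 => Or.inr ⟨?_, ?_, ?_⟩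
    · rw [mem_RE_false]; omega
    · rw [boxE, mem_RE_false]; omega
    · simp only; omega
  have h3 : DReach (NR2_A m ρ c F) ((m:ℤ) + 1, w2) ((m:ℤ) + 1, c) := by
    rcases le_or_gt w2 c with h5 | h5
    · refine NR2_dvreach h5 fun i h3 h4 => Or.inr ⟨?_, ?_, ?_⟩
      · rw [mem_RE_true]; omega
      · rw [boxE, mem_RE_true]; omega
      · simp only; omega
    · refine (NR2_dvreach h5.le fun i h3 h4 => Or.inr ⟨?_, ?_, ?_⟩).symm
      · rw [mem_RE_true]; omega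
      · rw [boxE, mem_RE_true]; omega
      · simp only; omega
  have h4 : DReach (NR2_A m ρ c F) ((m:ℤ) + 1, c) ((m:ℤ) + 14 * ρ, c) := by
    refine NR2_dhreach (by omega) fun i h3 h4 => Or.inr ⟨?_, ?_, ?_⟩
    · rw [mem_RE_false]; omega
    · rw [boxE, mem_RE_false]; omega
    · simp only; omega
  exact ((h1.trans h2).trans h3).trans h4

/-- the geometric alternative -/
theorem NR2_near (hl : 1 ≤ l) (hr : 8 * l ≤ r) (hρ : 16 * r ≤ ρ)
    (hc : |c| + 4 * ρ ≤ m) (hG : Gp m ρ r l c F) {a b : Vtx}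
    (ha : NR2_out m ρ c F a) (ha' : ∃ e ∈ tubeD m ρ c, src e = a ∨ tgt e = a)
    (hb : NR2_out m ρ c F b) (hb' : ∃ e ∈ tubeD m ρ c, src e = b ∨ tgt e = b)
    (hab : b ∈ ball a l) :
    (∀ e ∈ NR2_A m ρ c F, ¬ (src e ∈ ball a l ∧ tgt e ∈ ball a l)) ∨
      Reach (NR2_H m ρ c F ∩ {e | src e ∈ ball a ((ρ:ℤ) / 2) ∧ tgt e ∈ ball a ((ρ:ℤ) / 2)})
        a b := by
  have hc' := abs_le.mp (le_of_eq rfl : |c| ≤ |c|)
  have hla := NR2_loc ha' ha
  have hlb := NR2_loc hb' hb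
  obtain ⟨a1, a2⟩ := a
  obtain ⟨b1, b2⟩ := b
  simp only [ball, Set.mem_ofPred_eq, abs_le] at hab
  simp only at hla hlb
  rcases le_or_gt ((m:ℤ) + l + 1) a1 with h1 | h1
  · -- far from the box
    left
    rintro ⟨x, y, e3⟩ he ⟨h2, h3⟩
    simp only [ball, Set.mem_ofPred_eq, abs_le, src_mk] at h2
    rcases he with ⟨he, _⟩ | ⟨_, _, he1, he2⟩
    · cases e3
      · rw [boxE, mem_RE_false] at he
        omega
      · rw [boxE, mem_RE_true] at he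
        omega
    · simp only at he1 he2
      omega
  right
  obtain ⟨hG1, hG2, hG3⟩ := hG
  have hball : ∀ (K : Vtx), (|K.1 - a1| ≤ 2 * r ∧ |K.2 - a2| ≤ 2 * r) →
      NR2_H m ρ c F ∩ {e | src e ∈ ball K ((ρ:ℤ) / 4 + 1) ∧ tgt e ∈ ball K ((ρ:ℤ) / 4 + 1)} ⊆
      NR2_H m ρ c F ∩ {e | src e ∈ ball (a1, a2) ((ρ:ℤ) / 2) ∧
        tgt e ∈ ball (a1, a2) ((ρ:ℤ) / 2)} := by
    rintro K ⟨hK1, hK2⟩ e ⟨he1, he2, he3⟩
    rw [abs_le] at hK1 hK2
    simp only [ball, Set.mem_ofPred_eq, abs_le] at he2 he3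
    refine ⟨he1, ?_, ?_⟩
    · simp only [ball, Set.mem_ofPred_eq, abs_le]
      omega
    · simp only [ball, Set.mem_ofPred_eq, abs_le]
      omega
  by_cases hup : c + ρ - (r + l + 1) ≤ a2
  · -- upper corner
    have k1 := NR2_corner_up (v := (a1, a2)) (by omega) hρ hc (by
      simp only [inR]; push_cast; omega) ha hG2
    have k2 := NR2_corner_up (v := (b1, b2)) (by omega) hρ hc (by
      simp only [inR]; push_cast; omega) hb hG2
    refine Reach.mono (hball ((m:ℤ), c + ρ) ?_) (k1.trans k2.symm)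
    rw [abs_le, abs_le]
    simp only
    omega
  by_cases hdn : a2 ≤ c - ρ + (r + l + 1)
  · have k1 := NR2_corner_dn (v := (a1, a2)) (by omega) hρ hc (by
      simp only [inR]; push_cast; omega) ha hG3
    have k2 := NR2_corner_dn (v := (b1, b2)) (by omega) hρ hc (by
      simp only [inR]; push_cast; omega) hb hG3
    refine Reach.mono (hball ((m:ℤ), c - ρ) ?_) (k1.trans k2.symm)
    rw [abs_le, abs_le]
    simp only
    omega
  -- the mouth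
  have ha1 : a1 = m := by omega
  have hb1 : b1 = m := by omega
  subst ha1 hb1
  set k : ℤ := a2 / l with hk
  have hl0 : (0:ℤ) < l := by omega
  have hk1 : (l:ℤ) * k ≤ a2 := by
    rw [hk]; exact Int.mul_ediv_self_le hl0.ne'
  have hk2 : a2 < (l:ℤ) * k + l := by
    rw [hk]; exact Int.lt_mul_ediv_self_add hl0
  have hH := hG1 k (by rw [abs_le]; omega)
  generalize hy0 : (l:ℤ) * k = y0 at hH hk1 hk2
  have hm : (r:ℤ) ≤ m := by omega
  have m1 := NR2_mouth (y := a2) (y0 := y0) (by omega : 1 ≤ r) (by omega) (by omega) (by omega)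
    (by omega) (by omega) (by omega) ha
  have m2 := NR2_mouth (y := b2) (y0 := y0) (by omega : 1 ≤ r) (by omega) (by omega) (by omega)
    (by omega) (by omega) (by omega) hb
  have h5 : Reach (F ∩ ↑(hbR m y0 r)) ((m:ℤ), a2) ((m:ℤ), b2) := by
    by_contra h6
    exact hH ⟨a2, b2, by rw [abs_le]; push_cast; omega, by rw [abs_le]; push_cast; omega,
      m1, m2, h6⟩
  refine Reach.mono ?_ h5
  rintro ⟨x, y, e3⟩ ⟨heF, he⟩
  cases e3
  · rw [Finset.mem_coe, hbR, mem_RE_false] at he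
    refine ⟨Or.inr ⟨heF, ?_⟩, ?_⟩
    · rw [boxE, mem_RE_false]; omega
    · simp only [ball, Set.mem_ofPred_eq, abs_le, src_mk, tgt_false]
      omega
  · rw [Finset.mem_coe, hbR, mem_RE_true] at he
    refine ⟨Or.inr ⟨heF, ?_⟩, ?_⟩
    · rw [boxE, mem_RE_true]; omega
    · simp only [ball, Set.mem_ofPred_eq, abs_le, src_mk, tgt_true]
      omega

theorem NR2_RO_cases {e : Edg} (he : e ∈ RO m ρ c) (hb : e ∉ boxE m) :
    e ∈ tubeD m ρ c ∨ e ∈ endE m ρ c := by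
  rw [RO, Finset.mem_union, Finset.mem_union] at he
  tauto

theorem NR2_not_box (hρ : 1 ≤ ρ) {e : Edg} (he : e ∈ tubeD m ρ c ∨ e ∈ endE m ρ c) :
    e ∉ boxE m := by
  rcases he with he | he
  · rw [tubeD, Finset.mem_sdiff] at he
    exact he.2
  · intro hb
    rw [endE, Finset.mem_sdiff] at he
    obtain ⟨x, y, b⟩ := e
    cases b
    · rw [mem_RE_false] at he
      rw [boxE, mem_RE_false] at hb
      omega
    · rw [mem_RE_true] at he
      rw [boxE, mem_RE_true] at hb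
      omega

theorem near_dual {m ρ r l : ℕ} {c : ℤ} (hl : 1 ≤ l) (hr : 8 * l ≤ r) (hρ : 16 * r ≤ ρ)
    (hc : |c| + 4 * ρ ≤ m) {F : Set Edg} {f : Vtx} (hf : corner (0, 0) f) (hv : Lf m ρ c f F)
    (hG : Gp m ρ r l c F) {Fs : Set Edg} (hFs : ∀ e ∈ boxE m, (dl e ∈ Fs ↔ e ∉ F))
    {Z : Edg → ZMod 2}
    (hZ : ∀ v, vb Z v = b2 (f = v) + b2 ((((m:ℤ) + 14 * ρ, c) : Vtx) = v)) :
    PotHyp (↑(dmp (RO m ρ c)) : Set Edg) ↑(dmp (tubeD m ρ c)) (Fs ∪ ↑(dmp (endE m ρ c))) Z l := by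
  have hρ1 : 1 ≤ ρ := by omega
  have hc' := abs_le.mp (le_of_eq rfl : |c| ≤ |c|)
  have hsub : ∀ e : Edg, e ∈ boxE m → e ∈ RO m ρ c := fun e he => mem_RO.mpr (Or.inl he)
  -- the closed edges of the start environment
  have hH : ∀ e : Edg, dl e ∈ H0s (↑(dmp (RO m ρ c)) : Set Edg) ↑(dmp (tubeD m ρ c))
      (Fs ∪ ↑(dmp (endE m ρ c))) ↔ e ∈ NR2_H m ρ c F := by
    intro e
    rw [H0s, NR2_H, Set.mem_ofPred_eq, Set.mem_ofPred_eq, Set.mem_union, Finset.mem_coe,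
      Finset.mem_coe, Finset.mem_coe, mem_dmp, mem_dmp, mem_dmp, Equiv.symm_apply_apply]
    constructor
    · intro h
      by_cases h1 : e ∈ RO m ρ c
      · right
        by_cases h2 : e ∈ boxE m
        · refine ⟨?_, h2⟩
          by_contra h3
          exact h ⟨h1, Or.inr (Or.inl ((hFs e h2).mpr h3))⟩
        · exfalso
          rcases NR2_RO_cases h1 h2 with h3 | h3
          · exact h ⟨h1, Or.inl h3⟩
          · exact h ⟨h1, Or.inr (Or.inr h3)⟩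
      · exact Or.inl h1
    · rintro (h | ⟨h, h2⟩) ⟨h1, h3⟩
      · exact h h1
      · rcases h3 with h3 | h3 | h3
        · exact NR2_not_box hρ1 (Or.inl h3) h2
        · exact (hFs e h2).mp h3 h
        · exact NR2_not_box hρ1 (Or.inr h3) h2
  have hY : ∀ a, a ∈ YY (↑(dmp (RO m ρ c)) : Set Edg) ↑(dmp (tubeD m ρ c))
      (Fs ∪ ↑(dmp (endE m ρ c))) → NR2_out m ρ c F (a.1 + 1, a.2 + 1) := by
    rintro a ⟨e, he, h⟩
    obtain ⟨e', rfl⟩ := dl.surjective e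
    rw [Finset.mem_coe, mem_dmp, Equiv.symm_apply_apply] at he
    refine ⟨e', he, ?_⟩
    have h1 := NR2_to_reach (fun e he => (hH e).mp he) h
    rw [NR2_dtgt] at h1
    simpa using h1
  have hV : ∀ a, a ∈ VD (↑(dmp (tubeD m ρ c)) : Set Edg) →
      ∃ e ∈ tubeD m ρ c, src e = (a.1 + 1, a.2 + 1) ∨ tgt e = (a.1 + 1, a.2 + 1) := by
    rintro a ⟨e, he, h⟩
    obtain ⟨e', rfl⟩ := dl.surjective e
    rw [Finset.mem_coe, mem_dmp, Equiv.symm_apply_apply] at he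
    refine ⟨e', he, ?_⟩
    rw [NR2_dsrc, NR2_dtgt] at h
    rcases h with h | h
    · left; rw [← h]; simp
    · right; rw [← h]; simp
  have hVb : ∀ a, a ∈ VD (↑(dmp (tubeD m ρ c)) : Set Edg) →
      (m:ℤ) ≤ a.1 + 1 ∧ a.1 + 1 ≤ (m:ℤ) + 10 * ρ := by
    intro a ha
    obtain ⟨e, he, hce⟩ := hV a ha
    obtain ⟨x, y, b⟩ := e
    rw [tubeD, tube, if_pos rfl, Finset.mem_sdiff] at he
    cases b
    · simp only [src_mk, tgt_false, Prod.mk.injEq] at hce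
      rw [mem_RE_false] at he
      push_cast at he
      omega
    · simp only [src_mk, tgt_true, Prod.mk.injEq] at hce
      rw [mem_RE_true] at he
      push_cast at he
      omega
  refine pot_of_near (A := dl '' NR2_A m ρ c F) (x := f) (y := ((m:ℤ) + 14 * ρ, c))
    (ρ := (ρ:ℤ) / 2) ?_ (by omega) ?_ ?_ (reach_dl.mpr (NR2_path hρ1 hv)) hZ
  · rintro _ ⟨e, he, rfl⟩
    rcases he with ⟨h1, h2⟩ | ⟨h1, h2, _⟩
    · refine ⟨?_, Or.inr (Or.inl ((hFs e h1).mpr h2))⟩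
      rw [Finset.mem_coe, mem_dmp, Equiv.symm_apply_apply]
      exact hsub e h1
    · have h3 : e ∈ RO m ρ c := mem_RO.mpr (Or.inr h1)
      refine ⟨?_, ?_⟩
      · rw [Finset.mem_coe, mem_dmp, Equiv.symm_apply_apply]
        exact h3
      · rcases NR2_RO_cases h3 h2 with h4 | h4
        · left
          rw [Finset.mem_coe, mem_dmp, Equiv.symm_apply_apply]
          exact h4
        · right; right
          rw [Finset.mem_coe, mem_dmp, Equiv.symm_apply_apply]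
          exact h4
  · rintro a ha v (rfl | rfl)
    · have h1 := hVb a ha
      obtain ⟨h2, _⟩ := hf
      simp only at h2
      omega
    · have h1 := hVb a ha
      simp only
      omega
  · intro a ha ha' b hb hb' hab
    have h1 := NR2_near hl hr hρ hc hG (hY a ha) (hV a ha') (hY b hb) (hV b hb') (by
      simp only [ball, Set.mem_ofPred_eq] at hab ⊢
      rw [show b.1 + 1 - (a.1 + 1) = b.1 - a.1 by ring,
        show b.2 + 1 - (a.2 + 1) = b.2 - a.2 by ring]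
      exact hab)
    have hshift : ∀ (v : Vtx) (R : ℤ), v ∈ ball (a.1 + 1, a.2 + 1) R ↔
        (v.1 - 1, v.2 - 1) ∈ ball a R := by
      intro v R
      simp only [ball, Set.mem_ofPred_eq]
      rw [show v.1 - (a.1 + 1) = v.1 - 1 - a.1 by ring,
        show v.2 - (a.2 + 1) = v.2 - 1 - a.2 by ring]
    rcases h1 with h1 | h1
    · left
      rintro _ ⟨e, he, rfl⟩ ⟨h2, h3⟩
      rw [NR2_dsrc, ← hshift] at h2
      rw [NR2_dtgt, ← hshift] at h3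
      exact h1 e he ⟨h2, h3⟩
    · right
      have h2 := NR2_of_reach (H := H0s (↑(dmp (RO m ρ c)) : Set Edg) ↑(dmp (tubeD m ρ c))
        (Fs ∪ ↑(dmp (endE m ρ c))) ∩ eball a ((ρ:ℤ) / 2)) (by
          rintro e ⟨h3, h4, h5⟩
          refine ⟨(hH e).mpr h3, ?_, ?_⟩
          · rw [NR2_dsrc, ← hshift]; exact h4
          · rw [NR2_dtgt, ← hshift]; exact h5) h1
      simpa using h2

end H985T
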