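import Pool.Agent.H985R3.TA.Defs4
import Pool.Agent.H985R3.TA.NR2
import Pool.Agent.H985R3.TA.START
import Pool.Agent.H12R2.Sep.Defs

/-!
Two-arm project: geometry of the mouth of the tube, inward, dual arm (task NI2)
-/

set_option autoImplicit false

namespace H985T

open H974 Finset

/-! ### membership -/

theorem NI2_mem_An_false {a N : ℕ} {x y : ℤ} : ((x, y, false) : Edg) ∈ An a N ↔
    (-(N:ℤ) ≤ x ∧ x ≤ N ∧ -(N:ℤ) ≤ y ∧ y < N) ∧ ¬ (-(a:ℤ) ≤ x ∧ x ≤ a ∧ -(a:ℤ) ≤ y ∧ y < a) := by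
  rw [An, Finset.mem_sdiff, boxE, boxE, mem_RE_false, mem_RE_false]

theorem NI2_mem_An_true {a N : ℕ} {x y : ℤ} : ((x, y, true) : Edg) ∈ An a N ↔
    (-(N:ℤ) ≤ x ∧ x < N ∧ -(N:ℤ) ≤ y ∧ y ≤ N) ∧ ¬ (-(a:ℤ) ≤ x ∧ x < a ∧ -(a:ℤ) ≤ y ∧ y ≤ a) := by
  rw [An, Finset.mem_sdiff, boxE, boxE, mem_RE_true, mem_RE_true]

theorem NI2_mem_RI_false {a N ρ : ℕ} {c : ℤ} (haN : a ≤ N) {x y : ℤ} :
    ((x, y, false) : Edg) ∈ RI a N ρ c ↔
    ((-(N:ℤ) - 1 ≤ x ∧ x ≤ N + 1 ∧ -(N:ℤ) - 1 ≤ y ∧ y < N + 1) ∧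
      ¬ (-(a:ℤ) ≤ x ∧ x ≤ a ∧ -(a:ℤ) ≤ y ∧ y < a)) ∨
      ((a:ℤ) - 14 * ρ ≤ x ∧ x ≤ a ∧ c - ρ ≤ y ∧ y < c + ρ) := by
  classical
  simp only [RI, tubeI, endI, Rg, Finset.mem_union, Finset.mem_sdiff, NI2_mem_An_false, boxE,
    mem_RE_false]
  omega

theorem NI2_mem_RI_true {a N ρ : ℕ} {c : ℤ} (haN : a ≤ N) {x y : ℤ} :
    ((x, y, true) : Edg) ∈ RI a N ρ c ↔
    ((-(N:ℤ) - 1 ≤ x ∧ x < N + 1 ∧ -(N:ℤ) - 1 ≤ y ∧ y ≤ N + 1) ∧
      ¬ (-(a:ℤ) ≤ x ∧ x < a ∧ -(a:ℤ) ≤ y ∧ y ≤ a)) ∨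
      ((a:ℤ) - 14 * ρ ≤ x ∧ x < a ∧ c - ρ ≤ y ∧ y ≤ c + ρ) := by
  classical
  simp only [RI, tubeI, endI, Rg, Finset.mem_union, Finset.mem_sdiff, NI2_mem_An_true, boxE,
    mem_RE_true]
  omega

/-! ### the environment in primal terms -/

/-- edges of the annulus which are open, and edges outside of the region -/
def NI2_H (a N ρ : ℕ) (c : ℤ) (F : Set Edg) : Set Edg :=
  {e | e ∉ RI a N ρ c ∨ (e ∈ F ∧ e ∈ An a N)}

/-- joined to the outside -/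
def NI2_out (a N ρ : ℕ) (c : ℤ) (F : Set Edg) (v : Vtx) : Prop :=
  ∃ e, e ∉ RI a N ρ c ∧ Reach (NI2_H a N ρ c F) (tgt e) v

variable {a N ρ r l : ℕ} {c : ℤ} {F : Set Edg}

theorem NI2_exit {v : Vtx} (h : NI2_out a N ρ c F v) : ∃ u, Reach (F ∩ ↑(An a N)) v u ∧
    ∃ e, e ∉ RI a N ρ c ∧ (src e = u ∨ tgt e = u) := by
  obtain ⟨e0, he0, h⟩ := h
  have h1 : ∀ w, Reach (NI2_H a N ρ c F) v w → Reach (F ∩ ↑(An a N)) v w ∨
      ∃ u, Reach (F ∩ ↑(An a N)) v u ∧ ∃ e, e ∉ RI a N ρ c ∧ (src e = u ∨ tgt e = u) := by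
    intro w hw
    induction hw with
    | refl => exact Or.inl (Reach.refl _ _)
    | @tail w w' _ hs ih =>
      rcases ih with ih | ih
      · obtain ⟨e, he, hc⟩ := hs
        rcases he with he | he
        · refine Or.inr ⟨w, ih, e, he, ?_⟩
          rcases hc with ⟨h2, _⟩ | ⟨_, h2⟩
          · exact Or.inl h2
          · exact Or.inr h2
        · exact Or.inl (ih.tail ⟨e, ⟨he.1, he.2⟩, hc⟩)
      · exact Or.inr ih
  rcases h1 _ h.symm with h2 | h2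
  · exact ⟨_, h2, e0, he0, Or.inr rfl⟩
  · exact h2

/-- no vertex in the interior of the tube is joined to the outside -/
theorem NI2_int (hc : |c| + 20 * ρ ≤ a) (hN : 2 * a ≤ N) {v : Vtx} (h1 : v.1 < (a:ℤ))
    (h2 : (a:ℤ) - 10 * ρ ≤ v.1)
    (h3 : c - ρ < v.2) (h4 : v.2 < c + ρ) : ¬ NI2_out a N ρ c F v := by
  have hc' := abs_le.mp (le_of_eq rfl : |c| ≤ |c|)
  intro h
  obtain ⟨u, hu, e, he, hce⟩ := NI2_exit h
  rcases Relation.ReflTransGen.cases_head hu with h5 | ⟨w, ⟨e', ⟨_, he'⟩, hc'⟩, _⟩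
  · subst h5
    apply he
    obtain ⟨x, y, b⟩ := e
    obtain ⟨v1, v2⟩ := v
    simp only at h1 h2 h3 h4
    cases b
    · simp only [src_mk, tgt_false, Prod.mk.injEq] at hce
      rw [NI2_mem_RI_false (by omega)]
      omega
    · simp only [src_mk, tgt_true, Prod.mk.injEq] at hce
      rw [NI2_mem_RI_true (by omega)]
      omega
  · obtain ⟨x, y, b⟩ := e'
    obtain ⟨v1, v2⟩ := v
    simp only at h1 h2 h3 h4
    cases b
    · simp only [src_mk, tgt_false, Prod.mk.injEq] at hc'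
      rw [Finset.mem_coe, NI2_mem_An_false] at he'
      omega
    · simp only [src_mk, tgt_true, Prod.mk.injEq] at hc'
      rw [Finset.mem_coe, NI2_mem_An_true] at he'
      omega

theorem NI2_corner_up (hr : 1 ≤ r) (hρ : 16 * r ≤ ρ) (hc : |c| + 20 * ρ ≤ a) (hN : 2 * a ≤ N)
    {v : Vtx}
    (hv : inR ((a:ℤ) - (2 * r : ℕ)) ((a:ℤ) + (2 * r : ℕ)) (c + ρ - (2 * r : ℕ))
      (c + ρ + (2 * r : ℕ)) v)
    (hout : NI2_out a N ρ c F v)
    (hn : ¬ H12S.Crs a (c + ρ) (2 * r) (ρ / 4) (F ∩ ↑(An a N))) :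
    Reach (NI2_H a N ρ c F ∩ {e | src e ∈ ball ((a:ℤ), c + ρ) ((ρ:ℤ) / 4 + 1) ∧
      tgt e ∈ ball ((a:ℤ), c + ρ) ((ρ:ℤ) / 4 + 1)}) v ((a:ℤ) - 1, c + ρ + 1) := by
  have hc' := abs_le.mp (le_of_eq rfl : |c| ≤ |c|)
  obtain ⟨u, hu, e, he, hce⟩ := NI2_exit hout
  have hB : ∀ w, Reach (F ∩ ↑(An a N)) v w → (a:ℤ) - ρ / 4 < w.1 ∧ w.1 < (a:ℤ) + ρ / 4 ∧
      c + ρ - ρ / 4 < w.2 ∧ w.2 < c + ρ + ρ / 4 := by
    intro w hw
    by_contra h1
    apply hn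
    refine ⟨v, w, hv, ?_, hw⟩
    push_cast
    omega
  have hB' : ∀ w, Reach (F ∩ ↑(An a N)) v w → w ∈ ball ((a:ℤ), c + ρ) ((ρ:ℤ) / 4 + 1) := by
    intro w hw
    have := hB w hw
    simp only [ball, Set.mem_ofPred_eq, abs_le]
    omega
  have h1 := NR2_local hB' hu
  have h2 : Reach (NI2_H a N ρ c F ∩ {e | src e ∈ ball ((a:ℤ), c + ρ) ((ρ:ℤ) / 4 + 1) ∧
      tgt e ∈ ball ((a:ℤ), c + ρ) ((ρ:ℤ) / 4 + 1)}) v u := by
    refine Reach.mono ?_ h1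
    rintro e ⟨he1, he2⟩
    exact ⟨Or.inr ⟨he1.1, he1.2⟩, he2⟩
  refine h2.trans ?_
  -- from `u` to the corner
  have hu' := hB u hu
  obtain ⟨u1, u2⟩ := u
  simp only at hu'
  have hu2 : u1 ≤ (a:ℤ) ∧ c + ρ ≤ u2 := by
    obtain ⟨x, y, b⟩ := e
    cases b
    · simp only [src_mk, tgt_false, Prod.mk.injEq] at hce
      rw [NI2_mem_RI_false (by omega)] at he
      omega
    · simp only [src_mk, tgt_true, Prod.mk.injEq] at hce
      rw [NI2_mem_RI_true (by omega)] at he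
      omega
  have hh : ∀ x y : ℤ, x + 1 ≤ (a:ℤ) → c + ρ + 1 ≤ y → (a:ℤ) - ρ / 4 - 1 < x →
      y < c + ρ + ρ / 4 + 1 →
      ((x, y, true) : Edg) ∈ NI2_H a N ρ c F ∩ {e | src e ∈ ball ((a:ℤ), c + ρ) ((ρ:ℤ) / 4 + 1) ∧
      tgt e ∈ ball ((a:ℤ), c + ρ) ((ρ:ℤ) / 4 + 1)} := by
    intro x y h1 h2 h3 h4
    refine ⟨Or.inl ?_, ?_⟩
    · rw [NI2_mem_RI_true (by omega)]
      omega
    · simp only [ball, Set.mem_ofPred_eq, abs_le, src_mk, tgt_true]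
      omega
  have hv' : ∀ x y : ℤ, x ≤ (a:ℤ) → c + ρ ≤ y → (a:ℤ) - ρ / 4 - 1 < x →
      y < c + ρ + ρ / 4 →
      ((x, y, false) : Edg) ∈ NI2_H a N ρ c F ∩ {e | src e ∈ ball ((a:ℤ), c + ρ) ((ρ:ℤ) / 4 + 1) ∧
      tgt e ∈ ball ((a:ℤ), c + ρ) ((ρ:ℤ) / 4 + 1)} := by
    intro x y h1 h2 h3 h4
    refine ⟨Or.inl ?_, ?_⟩
    · rw [NI2_mem_RI_false (by omega)]
      omega
    · simp only [ball, Set.mem_ofPred_eq, abs_le, src_mk, tgt_false]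
      omega
  -- first to the row `≥ c + ρ + 1`
  have k1 : ∀ w1 w2 : ℤ, w1 ≤ (a:ℤ) → c + ρ + 1 ≤ w2 → (a:ℤ) - ρ / 4 - 1 < w1 →
      w2 < c + ρ + ρ / 4 + 1 → Reach (NI2_H a N ρ c F ∩
      {e | src e ∈ ball ((a:ℤ), c + ρ) ((ρ:ℤ) / 4 + 1) ∧
      tgt e ∈ ball ((a:ℤ), c + ρ) ((ρ:ℤ) / 4 + 1)}) (w1, w2) ((a:ℤ) - 1, c + ρ + 1) := by
    intro w1 w2 h1 h2 h3 h4
    have k2 : Reach (NI2_H a N ρ c F ∩
      {e | src e ∈ ball ((a:ℤ), c + ρ) ((ρ:ℤ) / 4 + 1) ∧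
      tgt e ∈ ball ((a:ℤ), c + ρ) ((ρ:ℤ) / 4 + 1)}) (w1, w2) ((a:ℤ) - 1, w2) := by
      rcases le_or_gt w1 ((a:ℤ) - 1) with h5 | h5
      · exact NR2_hreach' h5 (fun i h6 h7 => hh i w2 (by omega) (by omega) (by omega) (by omega))
      · exact (NR2_hreach' h5.le
          (fun i h6 h7 => hh i w2 (by omega) (by omega) (by omega) (by omega))).symm
    refine k2.trans ?_
    exact (NR2_vreach' h2
      (fun j h6 h7 => hv' _ j (by omega) (by omega) (by omega) (by omega))).symm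
  rcases le_or_gt (c + ρ + 1) u2 with h5 | h5
  · exact k1 u1 u2 (by omega) h5 (by omega) (by omega)
  · have h6 : u2 = c + ρ := by omega
    subst h6
    have h7 := NR2_vreach' (G := NI2_H a N ρ c F ∩
      {e | src e ∈ ball ((a:ℤ), c + ρ) ((ρ:ℤ) / 4 + 1) ∧
      tgt e ∈ ball ((a:ℤ), c + ρ) ((ρ:ℤ) / 4 + 1)}) (x := u1) (y := c + ρ) (y' := c + ρ + 1)
      (by omega) (fun j h8 h9 => hv' u1 j (by omega) (by omega) (by omega) (by omega))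
    exact h7.trans (k1 u1 (c + ρ + 1) (by omega) (by omega) (by omega) (by omega))

theorem NI2_corner_dn (hr : 1 ≤ r) (hρ : 16 * r ≤ ρ) (hc : |c| + 20 * ρ ≤ a) (hN : 2 * a ≤ N)
    {v : Vtx}
    (hv : inR ((a:ℤ) - (2 * r : ℕ)) ((a:ℤ) + (2 * r : ℕ)) (c - ρ - (2 * r : ℕ))
      (c - ρ + (2 * r : ℕ)) v)
    (hout : NI2_out a N ρ c F v)
    (hn : ¬ H12S.Crs a (c - ρ) (2 * r) (ρ / 4) (F ∩ ↑(An a N))) :
    Reach (NI2_H a N ρ c F ∩ {e | src e ∈ ball ((a:ℤ), c - ρ) ((ρ:ℤ) / 4 + 1) ∧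
      tgt e ∈ ball ((a:ℤ), c - ρ) ((ρ:ℤ) / 4 + 1)}) v ((a:ℤ) - 1, c - ρ - 1) := by
  have hc' := abs_le.mp (le_of_eq rfl : |c| ≤ |c|)
  obtain ⟨u, hu, e, he, hce⟩ := NI2_exit hout
  have hB : ∀ w, Reach (F ∩ ↑(An a N)) v w → (a:ℤ) - ρ / 4 < w.1 ∧ w.1 < (a:ℤ) + ρ / 4 ∧
      c - ρ - ρ / 4 < w.2 ∧ w.2 < c - ρ + ρ / 4 := by
    intro w hw
    by_contra h1
    apply hn
    refine ⟨v, w, hv, ?_, hw⟩
    push_cast
    omega
  have hB' : ∀ w, Reach (F ∩ ↑(An a N)) v w → w ∈ ball ((a:ℤ), c - ρ) ((ρ:ℤ) / 4 + 1) := by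
    intro w hw
    have := hB w hw
    simp only [ball, Set.mem_ofPred_eq, abs_le]
    omega
  have h1 := NR2_local hB' hu
  have h2 : Reach (NI2_H a N ρ c F ∩ {e | src e ∈ ball ((a:ℤ), c - ρ) ((ρ:ℤ) / 4 + 1) ∧
      tgt e ∈ ball ((a:ℤ), c - ρ) ((ρ:ℤ) / 4 + 1)}) v u := by
    refine Reach.mono ?_ h1
    rintro e ⟨he1, he2⟩
    exact ⟨Or.inr ⟨he1.1, he1.2⟩, he2⟩
  refine h2.trans ?_
  -- from `u` to the corner
  have hu' := hB u hu
  obtain ⟨u1, u2⟩ := u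
  simp only at hu'
  have hu2 : u1 ≤ (a:ℤ) ∧ u2 ≤ c - ρ := by
    obtain ⟨x, y, b⟩ := e
    cases b
    · simp only [src_mk, tgt_false, Prod.mk.injEq] at hce
      rw [NI2_mem_RI_false (by omega)] at he
      omega
    · simp only [src_mk, tgt_true, Prod.mk.injEq] at hce
      rw [NI2_mem_RI_true (by omega)] at he
      omega
  have hh : ∀ x y : ℤ, x + 1 ≤ (a:ℤ) → y ≤ c - ρ - 1 → (a:ℤ) - ρ / 4 - 1 < x →
      c - ρ - ρ / 4 - 1 < y →
      ((x, y, true) : Edg) ∈ NI2_H a N ρ c F ∩ {e | src e ∈ ball ((a:ℤ), c - ρ) ((ρ:ℤ) / 4 + 1) ∧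
      tgt e ∈ ball ((a:ℤ), c - ρ) ((ρ:ℤ) / 4 + 1)} := by
    intro x y h1 h2 h3 h4
    refine ⟨Or.inl ?_, ?_⟩
    · rw [NI2_mem_RI_true (by omega)]
      omega
    · simp only [ball, Set.mem_ofPred_eq, abs_le, src_mk, tgt_true]
      omega
  have hv' : ∀ x y : ℤ, x ≤ (a:ℤ) → y + 1 ≤ c - ρ → (a:ℤ) - ρ / 4 - 1 < x →
      c - ρ - ρ / 4 - 1 < y →
      ((x, y, false) : Edg) ∈ NI2_H a N ρ c F ∩ {e | src e ∈ ball ((a:ℤ), c - ρ) ((ρ:ℤ) / 4 + 1) ∧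
      tgt e ∈ ball ((a:ℤ), c - ρ) ((ρ:ℤ) / 4 + 1)} := by
    intro x y h1 h2 h3 h4
    refine ⟨Or.inl ?_, ?_⟩
    · rw [NI2_mem_RI_false (by omega)]
      omega
    · simp only [ball, Set.mem_ofPred_eq, abs_le, src_mk, tgt_false]
      omega
  have k1 : ∀ w1 w2 : ℤ, w1 ≤ (a:ℤ) → w2 ≤ c - ρ - 1 → (a:ℤ) - ρ / 4 - 1 < w1 →
      c - ρ - ρ / 4 - 1 < w2 → Reach (NI2_H a N ρ c F ∩
      {e | src e ∈ ball ((a:ℤ), c - ρ) ((ρ:ℤ) / 4 + 1) ∧
      tgt e ∈ ball ((a:ℤ), c - ρ) ((ρ:ℤ) / 4 + 1)}) (w1, w2) ((a:ℤ) - 1, c - ρ - 1) := by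
    intro w1 w2 h1 h2 h3 h4
    have k2 : Reach (NI2_H a N ρ c F ∩
      {e | src e ∈ ball ((a:ℤ), c - ρ) ((ρ:ℤ) / 4 + 1) ∧
      tgt e ∈ ball ((a:ℤ), c - ρ) ((ρ:ℤ) / 4 + 1)}) (w1, w2) ((a:ℤ) - 1, w2) := by
      rcases le_or_gt w1 ((a:ℤ) - 1) with h5 | h5
      · exact NR2_hreach' h5 (fun i h6 h7 => hh i w2 (by omega) (by omega) (by omega) (by omega))
      · exact (NR2_hreach' h5.le
          (fun i h6 h7 => hh i w2 (by omega) (by omega) (by omega) (by omega))).symm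
    refine k2.trans ?_
    exact NR2_vreach' h2
      (fun j h6 h7 => hv' _ j (by omega) (by omega) (by omega) (by omega))
  rcases le_or_gt u2 (c - ρ - 1) with h5 | h5
  · exact k1 u1 u2 (by omega) h5 (by omega) (by omega)
  · have h6 : u2 = c - ρ := by omega
    subst h6
    have h7 := NR2_vreach' (G := NI2_H a N ρ c F ∩
      {e | src e ∈ ball ((a:ℤ), c - ρ) ((ρ:ℤ) / 4 + 1) ∧
      tgt e ∈ ball ((a:ℤ), c - ρ) ((ρ:ℤ) / 4 + 1)}) (x := u1) (y := c - ρ - 1) (y' := c - ρ)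
      (by omega) (fun j h8 h9 => hv' u1 j (by omega) (by omega) (by omega) (by omega))
    exact h7.symm.trans (k1 u1 (c - ρ - 1) (by omega) (by omega) (by omega) (by omega))

/-- from the mouth to the rim of the half ball -/
theorem NI2_mouth {y y0 : ℤ} (hr : 1 ≤ r) (_ : 16 * r ≤ ρ) (hc : |c| + 20 * ρ ≤ a)
    (hN : 2 * a ≤ N) (h1 : c - ρ < y0 - r)
    (h2 : y0 + r < c + ρ)
    (h3 : y0 - r < y) (h4 : y < y0 + r) (hout : NI2_out a N ρ c F ((a:ℤ), y)) :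
    ∃ z : Vtx, (z.1 = (a:ℤ) + r ∨ z.2 = y0 - r ∨ z.2 = y0 + r) ∧
      Reach (F ∩ ↑(hbI a y0 r)) ((a:ℤ), y) z := by
  have hc' := abs_le.mp (le_of_eq rfl : |c| ≤ |c|)
  obtain ⟨u, hu, e, he, hce⟩ := NI2_exit hout
  have key : ∀ w, Reach (F ∩ ↑(An a N)) ((a:ℤ), y) w →
      (((a:ℤ) ≤ w.1 ∧ w.1 < (a:ℤ) + r ∧ y0 - r < w.2 ∧ w.2 < y0 + r) ∧
        Reach (F ∩ ↑(hbI a y0 r)) ((a:ℤ), y) w) ∨
      ∃ z : Vtx, (z.1 = (a:ℤ) + r ∨ z.2 = y0 - r ∨ z.2 = y0 + r) ∧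
        Reach (F ∩ ↑(hbI a y0 r)) ((a:ℤ), y) z := by
    intro w hw
    induction hw with
    | refl =>
      refine Or.inl ⟨?_, Reach.refl _ _⟩
      simp only
      omega
    | @tail w w' _ hs ih =>
      rcases ih with ⟨ih1, ih2⟩ | ih
      · obtain ⟨e, ⟨heF, heB⟩, hc⟩ := hs
        obtain ⟨w1, w2⟩ := w
        obtain ⟨w1', w2'⟩ := w'
        obtain ⟨x, z, b⟩ := e
        simp only at ih1
        have h5 : ((x, z, b) : Edg) ∈ hbI a y0 r ∧ ((a:ℤ) ≤ w1' ∧ w1' ≤ (a:ℤ) + r ∧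
            y0 - r ≤ w2' ∧ w2' ≤ y0 + r) := by
          cases b
          · simp only [src_mk, tgt_false, Prod.mk.injEq] at hc
            rw [Finset.mem_coe, NI2_mem_An_false] at heB
            rw [hbI, Finset.mem_sdiff, boxE, mem_RE_false, mem_RE_false]
            omega
          · simp only [src_mk, tgt_true, Prod.mk.injEq] at hc
            rw [Finset.mem_coe, NI2_mem_An_true] at heB
            rw [hbI, Finset.mem_sdiff, boxE, mem_RE_true, mem_RE_true]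
            omega
        have h6 : Reach (F ∩ ↑(hbI a y0 r)) ((a:ℤ), y) (w1', w2') :=
          ih2.tail ⟨(x, z, b), ⟨heF, h5.1⟩, hc⟩
        by_cases h7 : w1' = (a:ℤ) + r ∨ w2' = y0 - r ∨ w2' = y0 + r
        · exact Or.inr ⟨_, h7, h6⟩
        · refine Or.inl ⟨?_, h6⟩
          simp only
          omega
      · exact Or.inr ih
  rcases key u hu with ⟨h5, h6⟩ | h5
  · exfalso
    apply he
    obtain ⟨x, z, b⟩ := e
    obtain ⟨u1, u2⟩ := u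
    simp only at h5
    cases b
    · simp only [src_mk, tgt_false, Prod.mk.injEq] at hce
      rw [NI2_mem_RI_false (by omega)]
      omega
    · simp only [src_mk, tgt_true, Prod.mk.injEq] at hce
      rw [NI2_mem_RI_true (by omega)]
      omega
  · exact h5

/-- position of the vertices of the tube -/
theorem NI2_pos {v : Vtx} (hv : ∃ e ∈ tubeI a ρ c, src e = v ∨ tgt e = v) :
    (a:ℤ) - 10 * ρ ≤ v.1 ∧ v.1 ≤ (a:ℤ) ∧ c - ρ ≤ v.2 ∧ v.2 ≤ c + ρ := by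
  obtain ⟨e, he, hce⟩ := hv
  obtain ⟨x, y, b⟩ := e
  obtain ⟨v1, v2⟩ := v
  rw [tubeI] at he
  cases b
  · simp only [src_mk, tgt_false, Prod.mk.injEq] at hce
    rw [mem_RE_false] at he
    simp only
    omega
  · simp only [src_mk, tgt_true, Prod.mk.injEq] at hce
    rw [mem_RE_true] at he
    simp only
    omega

/-- the good positions of the vertices joined to the outside -/
theorem NI2_loc (hc : |c| + 20 * ρ ≤ a) (hN : 2 * a ≤ N) {v : Vtx}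
    (hv : ∃ e ∈ tubeI a ρ c, src e = v ∨ tgt e = v)
    (hout : NI2_out a N ρ c F v) :
    (a:ℤ) - 10 * ρ ≤ v.1 ∧ v.1 ≤ (a:ℤ) ∧ c - ρ ≤ v.2 ∧ v.2 ≤ c + ρ ∧
      (v.1 = a ∨ v.2 = c - ρ ∨ v.2 = c + ρ) := by
  have h1 := NI2_pos hv
  refine ⟨h1.1, h1.2.1, h1.2.2.1, h1.2.2.2, ?_⟩
  by_contra h2
  exact NI2_int hc hN (v := v) (by omega) (by omega) (by omega) (by omega) hout

/-- the closed edges of the annulus, the middle edges of the tube, the ring -/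
def NI2_A (a N ρ : ℕ) (c : ℤ) (F : Set Edg) : Set Edg :=
  {e | (e ∈ An a N ∧ e ∉ F) ∨ (e ∈ RE ((a:ℤ) - 14 * ρ) (a:ℤ) (c - ρ) (c + ρ) ∧
    2 * e.2.1 ≤ 2 * c + ρ ∧ 2 * c ≤ 2 * e.2.1 + ρ) ∨ e ∈ Rg N}

theorem NI2_mem_Rg_false {x y : ℤ} : ((x, y, false) : Edg) ∈ Rg N ↔
    (-(N:ℤ) - 1 ≤ x ∧ x ≤ N + 1 ∧ -(N:ℤ) - 1 ≤ y ∧ y < N + 1) ∧
      ¬ (-(N:ℤ) ≤ x ∧ x ≤ N ∧ -(N:ℤ) ≤ y ∧ y < N) := by
  rw [Rg, Finset.mem_sdiff, boxE, mem_RE_false, mem_RE_false]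

theorem NI2_mem_Rg_true {x y : ℤ} : ((x, y, true) : Edg) ∈ Rg N ↔
    (-(N:ℤ) - 1 ≤ x ∧ x < N + 1 ∧ -(N:ℤ) - 1 ≤ y ∧ y ≤ N + 1) ∧
      ¬ (-(N:ℤ) ≤ x ∧ x < N ∧ -(N:ℤ) ≤ y ∧ y ≤ N) := by
  rw [Rg, Finset.mem_sdiff, boxE, mem_RE_true, mem_RE_true]

/-- vertical moves of faces, both directions -/
theorem NI2_dv {G : Set Edg} {x y y' : ℤ}
    (h : ∀ j : ℤ, ((y < j ∧ j ≤ y') ∨ (y' < j ∧ j ≤ y)) → ((x, j, true) : Edg) ∈ G) :
    DReach G (x, y) (x, y') := by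
  rcases le_total y y' with h1 | h1
  · exact NR2_dvreach h1 fun j h2 h3 => h j (Or.inl ⟨h2, h3⟩)
  · exact (NR2_dvreach h1 fun j h2 h3 => h j (Or.inr ⟨h2, h3⟩)).symm

theorem NI2_dh {G : Set Edg} {x x' y : ℤ}
    (h : ∀ j : ℤ, ((x < j ∧ j ≤ x') ∨ (x' < j ∧ j ≤ x)) → ((j, y, false) : Edg) ∈ G) :
    DReach G (x, y) (x', y) := by
  rcases le_total x x' with h1 | h1
  · exact NR2_dhreach h1 fun j h2 h3 => h j (Or.inl ⟨h2, h3⟩)
  · exact (NR2_dhreach h1 fun j h2 h3 => h j (Or.inr ⟨h2, h3⟩)).symm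

/-- the faces of the ring are joined in the ring to the face `(N+1, 0)` -/
theorem NI2_ring {w : Vtx} (hw : nb N w) : DReach (↑(Rg N) : Set Edg) w ((N:ℤ) + 1, 0) := by
  obtain ⟨w1, w2⟩ := w
  -- last step
  have hlast : DReach (↑(Rg N) : Set Edg) ((N:ℤ), 0) ((N:ℤ) + 1, 0) := by
    refine NI2_dh fun j hj => ?_
    rw [Finset.mem_coe, NI2_mem_Rg_false]
    omega
  -- right column
  have hright : ∀ y : ℤ, -(N:ℤ) - 1 ≤ y → y ≤ N → DReach (↑(Rg N) : Set Edg) ((N:ℤ), y) ((N:ℤ), 0) := by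
    intro y h1 h2
    refine NI2_dv fun j hj => ?_
    rw [Finset.mem_coe, NI2_mem_Rg_true]
    omega
  have htop : ∀ x : ℤ, -(N:ℤ) - 1 ≤ x → x ≤ N → DReach (↑(Rg N) : Set Edg) (x, (N:ℤ)) ((N:ℤ), (N:ℤ)) := by
    intro x h1 h2
    refine NI2_dh fun j hj => ?_
    rw [Finset.mem_coe, NI2_mem_Rg_false]
    omega
  have hbot : ∀ x : ℤ, -(N:ℤ) - 1 ≤ x → x ≤ N →
      DReach (↑(Rg N) : Set Edg) (x, -(N:ℤ) - 1) ((N:ℤ), -(N:ℤ) - 1) := by
    intro x h1 h2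
    refine NI2_dh fun j hj => ?_
    rw [Finset.mem_coe, NI2_mem_Rg_false]
    omega
  have hleft : ∀ y : ℤ, -(N:ℤ) - 1 ≤ y → y ≤ N →
      DReach (↑(Rg N) : Set Edg) (-(N:ℤ) - 1, y) (-(N:ℤ) - 1, (N:ℤ)) := by
    intro y h1 h2
    refine NI2_dv fun j hj => ?_
    rw [Finset.mem_coe, NI2_mem_Rg_true]
    omega
  simp only [nb] at hw
  rcases hw with ⟨h1 | h1, h2, h3⟩ | ⟨h1 | h1, h2, h3⟩
  · rw [h1]
    exact (hright w2 (by omega) (by omega)).trans hlast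
  · rw [h1]
    exact (((hleft w2 (by omega) (by omega)).trans (htop _ (by omega) (by omega))).trans
      (hright _ (by omega) (by omega))).trans hlast
  · rw [h1]
    exact ((htop w1 (by omega) (by omega)).trans (hright _ (by omega) (by omega))).trans hlast
  · rw [h1]
    exact ((hbot w1 (by omega) (by omega)).trans (hright _ (by omega) (by omega))).trans hlast

theorem NI2_path (hρ : 1 ≤ ρ) (hv : Lfi a N ρ c F) :
    DReach (NI2_A a N ρ c F) ((a:ℤ) - 14 * ρ - 1, c) ((N:ℤ) + 1, 0) := by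
  obtain ⟨w2, hw, w', hw', h⟩ := hv
  have hw2 := abs_le.mp (show |w2 - c| ≤ |w2 - c| from le_rfl)
  have h1 : DReach (NI2_A a N ρ c F) ((a:ℤ), w2) w' :=
    DReach.mono (fun _ he => Or.inl ⟨he.1, he.2⟩) h
  have h0 : DReach (NI2_A a N ρ c F) w' ((N:ℤ) + 1, 0) :=
    DReach.mono (fun _ he => Or.inr (Or.inr he)) (NI2_ring hw')
  have h2 : DReach (NI2_A a N ρ c F) ((a:ℤ) - 1, w2) ((a:ℤ), w2) := by
    refine NR2_dhreach (by omega) fun i h3 h4 => Or.inr (Or.inl ⟨?_, ?_, ?_⟩)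
    · rw [mem_RE_false]; omega
    · simp only; omega
    · simp only; omega
  have h3 : DReach (NI2_A a N ρ c F) ((a:ℤ) - 1, c) ((a:ℤ) - 1, w2) := by
    refine NI2_dv fun j hj => Or.inr (Or.inl ⟨?_, ?_, ?_⟩)
    · rw [mem_RE_true]; omega
    · simp only; omega
    · simp only; omega
  have h4 : DReach (NI2_A a N ρ c F) ((a:ℤ) - 14 * ρ - 1, c) ((a:ℤ) - 1, c) := by
    refine NR2_dhreach (by omega) fun i h3 h4 => Or.inr (Or.inl ⟨?_, ?_, ?_⟩)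
    · rw [mem_RE_false]; omega
    · simp only; omega
    · simp only; omega
  exact (((h4.trans h3).trans h2).trans h1).trans h0

/-- the geometric alternative -/
theorem NI2_near (hl : 1 ≤ l) (hr : 8 * l ≤ r) (hρ : 16 * r ≤ ρ)
    (hc : |c| + 20 * ρ ≤ a) (hN : 2 * a ≤ N) (hG : Gpi a N ρ r l c F) {p q : Vtx}
    (hp : NI2_out a N ρ c F p) (hp' : ∃ e ∈ tubeI a ρ c, src e = p ∨ tgt e = p)
    (hq : NI2_out a N ρ c F q) (hq' : ∃ e ∈ tubeI a ρ c, src e = q ∨ tgt e = q)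
    (hpq : q ∈ ball p l) :
    (∀ e ∈ NI2_A a N ρ c F, ¬ (src e ∈ ball p l ∧ tgt e ∈ ball p l)) ∨
      Reach (NI2_H a N ρ c F ∩ {e | src e ∈ ball p ((ρ:ℤ) / 2) ∧ tgt e ∈ ball p ((ρ:ℤ) / 2)})
        p q := by
  have hc' := abs_le.mp (le_of_eq rfl : |c| ≤ |c|)
  have hla := NI2_loc hc hN hp' hp
  have hlb := NI2_loc hc hN hq' hq
  obtain ⟨a1, a2⟩ := p
  obtain ⟨b1, b2⟩ := q
  simp only [ball, Set.mem_ofPred_eq, abs_le] at hpq
  simp only at hla hlb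
  rcases le_or_gt a1 ((a:ℤ) - l - 1) with h1 | h1
  · -- far from the mouth
    left
    rintro ⟨x, y, e3⟩ he ⟨h2, h3⟩
    simp only [ball, Set.mem_ofPred_eq, abs_le, src_mk] at h2
    rcases he with ⟨he, _⟩ | ⟨_, he1, he2⟩ | he
    · cases e3
      · rw [NI2_mem_An_false] at he
        omega
      · rw [NI2_mem_An_true] at he
        omega
    · simp only at he1 he2
      omega
    · cases e3
      · rw [NI2_mem_Rg_false] at he
        omega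
      · rw [NI2_mem_Rg_true] at he
        omega
  right
  obtain ⟨hG1, hG2, hG3⟩ := hG
  have hball : ∀ (K : Vtx), (|K.1 - a1| ≤ 2 * r ∧ |K.2 - a2| ≤ 2 * r) →
      NI2_H a N ρ c F ∩ {e | src e ∈ ball K ((ρ:ℤ) / 4 + 1) ∧ tgt e ∈ ball K ((ρ:ℤ) / 4 + 1)} ⊆
      NI2_H a N ρ c F ∩ {e | src e ∈ ball (a1, a2) ((ρ:ℤ) / 2) ∧
        tgt e ∈ ball (a1, a2) ((ρ:ℤ) / 2)} := by
    rintro K ⟨hK1, hK2⟩ e ⟨he1, he2, he3⟩
    rw [abs_le] at hK1 hK2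
    simp only [ball, Set.mem_ofPred_eq, abs_le] at he2 he3
    refine ⟨he1, ?_, ?_⟩
    · simp only [ball, Set.mem_ofPred_eq, abs_le]
      omega
    · simp only [ball, Set.mem_ofPred_eq, abs_le]
      omega
  by_cases hup : c + ρ - (r + l + 1) ≤ a2
  · -- upper corner
    have k1 := NI2_corner_up (v := (a1, a2)) (by omega) hρ hc hN (by
      simp only [inR]; push_cast; omega) hp hG2
    have k2 := NI2_corner_up (v := (b1, b2)) (by omega) hρ hc hN (by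
      simp only [inR]; push_cast; omega) hq hG2
    refine Reach.mono (hball ((a:ℤ), c + ρ) ?_) (k1.trans k2.symm)
    rw [abs_le, abs_le]
    simp only
    omega
  by_cases hdn : a2 ≤ c - ρ + (r + l + 1)
  · have k1 := NI2_corner_dn (v := (a1, a2)) (by omega) hρ hc hN (by
      simp only [inR]; push_cast; omega) hp hG3
    have k2 := NI2_corner_dn (v := (b1, b2)) (by omega) hρ hc hN (by
      simp only [inR]; push_cast; omega) hq hG3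
    refine Reach.mono (hball ((a:ℤ), c - ρ) ?_) (k1.trans k2.symm)
    rw [abs_le, abs_le]
    simp only
    omega
  -- the mouth
  have ha1 : a1 = a := by omega
  have hb1 : b1 = a := by omega
  subst ha1 hb1
  set k : ℤ := a2 / l with hk
  have hl0 : (0:ℤ) < l := by omega
  have hk1 : (l:ℤ) * k ≤ a2 := by
    rw [hk]; exact Int.mul_ediv_self_le hl0.ne'
  have hk2 : a2 < (l:ℤ) * k + l := by
    rw [hk]; exact Int.lt_mul_ediv_self_add hl0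
  have hH := hG1 k (by rw [abs_le]; omega)
  generalize hy0 : (l:ℤ) * k = y0 at hH hk1 hk2
  have m1 := NI2_mouth (y := a2) (y0 := y0) (by omega : 1 ≤ r) hρ hc hN (by omega) (by omega)
    (by omega) (by omega) hp
  have m2 := NI2_mouth (y := b2) (y0 := y0) (by omega : 1 ≤ r) hρ hc hN (by omega) (by omega)
    (by omega) (by omega) hq
  have h5 : Reach (F ∩ ↑(hbI a y0 r)) ((a:ℤ), a2) ((a:ℤ), b2) := by
    by_contra h6
    exact hH ⟨a2, b2, by rw [abs_le]; push_cast; omega, by rw [abs_le]; push_cast; omega,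
      m1, m2, h6⟩
  refine Reach.mono ?_ h5
  rintro ⟨x, y, e3⟩ ⟨heF, he⟩
  cases e3
  · rw [Finset.mem_coe, hbI, Finset.mem_sdiff, boxE, mem_RE_false, mem_RE_false] at he
    refine ⟨Or.inr ⟨heF, ?_⟩, ?_⟩
    · rw [NI2_mem_An_false]; omega
    · simp only [ball, Set.mem_ofPred_eq, abs_le, src_mk, tgt_false]
      omega
  · rw [Finset.mem_coe, hbI, Finset.mem_sdiff, boxE, mem_RE_true, mem_RE_true] at he
    refine ⟨Or.inr ⟨heF, ?_⟩, ?_⟩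
    · rw [NI2_mem_An_true]; omega
    · simp only [ball, Set.mem_ofPred_eq, abs_le, src_mk, tgt_true]
      omega

theorem NI2_RI_cases {e : Edg} (he : e ∈ RI a N ρ c) (hb : e ∉ An a N) :
    e ∈ tubeI a ρ c ∨ e ∈ endI a ρ c ∪ Rg N := by
  rw [RI, Finset.mem_union, Finset.mem_union] at he
  tauto

theorem NI2_not_An (hc : |c| + 20 * ρ ≤ a) (_ : 2 * a ≤ N) {e : Edg}
    (he : e ∈ tubeI a ρ c ∨ e ∈ endI a ρ c ∪ Rg N) : e ∉ An a N := by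
  have hc' := abs_le.mp (le_of_eq rfl : |c| ≤ |c|)
  intro hb
  obtain ⟨x, y, b⟩ := e
  cases b
  · rw [tubeI, endI, Finset.mem_union, Finset.mem_sdiff, mem_RE_false, mem_RE_false,
      NI2_mem_Rg_false] at he
    rw [NI2_mem_An_false] at hb
    omega
  · rw [tubeI, endI, Finset.mem_union, Finset.mem_sdiff, mem_RE_true, mem_RE_true,
      NI2_mem_Rg_true] at he
    rw [NI2_mem_An_true] at hb
    omega

theorem near_inD {a N ρ r l : ℕ} {c : ℤ} (hl : 1 ≤ l) (hr : 8 * l ≤ r) (hρ : 16 * r ≤ ρ)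
    (hc : |c| + 20 * ρ ≤ a) (hN : 2 * a ≤ N) {F : Set Edg} (hv : Lfi a N ρ c F)
    (hG : Gpi a N ρ r l c F) {Fs : Set Edg} (hFs : ∀ e ∈ An a N, (dl e ∈ Fs ↔ e ∉ F))
    {Z : Edg → ZMod 2}
    (hZ : ∀ v, vb Z v = b2 ((((a:ℤ) - 14 * ρ - 1, c) : Vtx) = v) +
      b2 ((((N:ℤ) + 1, 0) : Vtx) = v)) :
    PotHyp (↑(dmp (RI a N ρ c)) : Set Edg) ↑(dmp (tubeI a ρ c))
      (Fs ∪ ↑(dmp (endI a ρ c ∪ Rg N))) Z l := by
  have hρ1 : 1 ≤ ρ := by omega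
  have hc' := abs_le.mp (le_of_eq rfl : |c| ≤ |c|)
  have hsub : ∀ e : Edg, e ∈ An a N → e ∈ RI a N ρ c := fun e he => by
    rw [RI, Finset.mem_union, Finset.mem_union]; exact Or.inl (Or.inl he)
  -- the closed edges of the start environment
  have hH : ∀ e : Edg, dl e ∈ H0s (↑(dmp (RI a N ρ c)) : Set Edg) ↑(dmp (tubeI a ρ c))
      (Fs ∪ ↑(dmp (endI a ρ c ∪ Rg N))) ↔ e ∈ NI2_H a N ρ c F := by
    intro e
    rw [H0s, NI2_H, Set.mem_ofPred_eq, Set.mem_ofPred_eq, Set.mem_union, Finset.mem_coe,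
      Finset.mem_coe, Finset.mem_coe, mem_dmp, mem_dmp, mem_dmp, Equiv.symm_apply_apply]
    constructor
    · intro h
      by_cases h1 : e ∈ RI a N ρ c
      · right
        by_cases h2 : e ∈ An a N
        · refine ⟨?_, h2⟩
          by_contra h3
          exact h ⟨h1, Or.inr (Or.inl ((hFs e h2).mpr h3))⟩
        · exfalso
          rcases NI2_RI_cases h1 h2 with h3 | h3
          · exact h ⟨h1, Or.inl h3⟩
          · exact h ⟨h1, Or.inr (Or.inr h3)⟩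
      · exact Or.inl h1
    · rintro (h | ⟨h, h2⟩) ⟨h1, h3⟩
      · exact h h1
      · rcases h3 with h3 | h3 | h3
        · exact NI2_not_An hc hN (Or.inl h3) h2
        · exact (hFs e h2).mp h3 h
        · exact NI2_not_An hc hN (Or.inr h3) h2
  have hY : ∀ a', a' ∈ YY (↑(dmp (RI a N ρ c)) : Set Edg) ↑(dmp (tubeI a ρ c))
      (Fs ∪ ↑(dmp (endI a ρ c ∪ Rg N))) → NI2_out a N ρ c F (a'.1 + 1, a'.2 + 1) := by
    rintro a' ⟨e, he, h⟩
    obtain ⟨e', rfl⟩ := dl.surjective e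
    rw [Finset.mem_coe, mem_dmp, Equiv.symm_apply_apply] at he
    refine ⟨e', he, ?_⟩
    have h1 := NR2_to_reach (fun e he => (hH e).mp he) h
    rw [NR2_dtgt] at h1
    simpa using h1
  have hV : ∀ a', a' ∈ VD (↑(dmp (tubeI a ρ c)) : Set Edg) →
      ∃ e ∈ tubeI a ρ c, src e = (a'.1 + 1, a'.2 + 1) ∨ tgt e = (a'.1 + 1, a'.2 + 1) := by
    rintro a' ⟨e, he, h⟩
    obtain ⟨e', rfl⟩ := dl.surjective e
    rw [Finset.mem_coe, mem_dmp, Equiv.symm_apply_apply] at he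
    refine ⟨e', he, ?_⟩
    rw [NR2_dsrc, NR2_dtgt] at h
    rcases h with h | h
    · left; rw [← h]; simp
    · right; rw [← h]; simp
  have hVb : ∀ a', a' ∈ VD (↑(dmp (tubeI a ρ c)) : Set Edg) →
      (a:ℤ) - 10 * ρ ≤ a'.1 + 1 ∧ a'.1 + 1 ≤ (a:ℤ) := by
    intro a' ha
    have h1 := NI2_pos (hV a' ha)
    exact ⟨h1.1, h1.2.1⟩
  refine pot_of_near (A := dl '' NI2_A a N ρ c F) (x := ((a:ℤ) - 14 * ρ - 1, c))
    (y := ((N:ℤ) + 1, 0))
    (ρ := (ρ:ℤ) / 2) ?_ (by omega) ?_ ?_ (reach_dl.mpr (NI2_path hρ1 hv)) hZ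
  · rintro _ ⟨e, he, rfl⟩
    have h3 : e ∈ RI a N ρ c := by
      rcases he with ⟨h1, _⟩ | ⟨h1, _⟩ | h1
      · exact hsub e h1
      · obtain ⟨x, y, b⟩ := e
        cases b
        · rw [mem_RE_false] at h1
          rw [NI2_mem_RI_false (by omega)]
          omega
        · rw [mem_RE_true] at h1
          rw [NI2_mem_RI_true (by omega)]
          omega
      · rw [RI, Finset.mem_union, Finset.mem_union]
        exact Or.inr (Finset.mem_union_right _ h1)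
    refine ⟨by rw [Finset.mem_coe, mem_dmp, Equiv.symm_apply_apply]; exact h3, ?_⟩
    by_cases h4 : e ∈ An a N
    · have h5 : e ∉ F := by
        rcases he with ⟨_, h2⟩ | ⟨h1, _⟩ | h1
        · exact h2
        · exfalso
          obtain ⟨x, y, b⟩ := e
          cases b
          · rw [mem_RE_false] at h1
            rw [NI2_mem_An_false] at h4
            omega
          · rw [mem_RE_true] at h1
            rw [NI2_mem_An_true] at h4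
            omega
        · exact absurd h4 (NI2_not_An hc hN (Or.inr (Finset.mem_union_right _ h1)))
      exact Or.inr (Or.inl ((hFs e h4).mpr h5))
    · rcases NI2_RI_cases h3 h4 with h5 | h5
      · left
        rw [Finset.mem_coe, mem_dmp, Equiv.symm_apply_apply]
        exact h5
      · right; right
        rw [Finset.mem_coe, mem_dmp, Equiv.symm_apply_apply]
        exact h5
  · rintro a' ha v (rfl | rfl)
    · have h1 := hVb a' ha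
      simp only
      omega
    · have h1 := hVb a' ha
      simp only
      omega
  · intro p hp hp' q hq hq' hpq
    have h1 := NI2_near hl hr hρ hc hN hG (hY p hp) (hV p hp') (hY q hq) (hV q hq') (by
      simp only [ball, Set.mem_ofPred_eq] at hpq ⊢
      rw [show q.1 + 1 - (p.1 + 1) = q.1 - p.1 by ring,
        show q.2 + 1 - (p.2 + 1) = q.2 - p.2 by ring]
      exact hpq)
    have hshift : ∀ (v : Vtx) (R : ℤ), v ∈ ball (p.1 + 1, p.2 + 1) R ↔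
        (v.1 - 1, v.2 - 1) ∈ ball p R := by
      intro v R
      simp only [ball, Set.mem_ofPred_eq]
      rw [show v.1 - (p.1 + 1) = v.1 - 1 - p.1 by ring,
        show v.2 - (p.2 + 1) = v.2 - 1 - p.2 by ring]
    rcases h1 with h1 | h1
    · left
      rintro _ ⟨e, he, rfl⟩ ⟨h2, h3⟩
      rw [NR2_dsrc, ← hshift] at h2
      rw [NR2_dtgt, ← hshift] at h3
      exact h1 e he ⟨h2, h3⟩
    · right
      have h2 := NR2_of_reach (H := H0s (↑(dmp (RI a N ρ c)) : Set Edg) ↑(dmp (tubeI a ρ c))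
        (Fs ∪ ↑(dmp (endI a ρ c ∪ Rg N))) ∩ eball p ((ρ:ℤ) / 2)) (by
          rintro e ⟨h3, h4, h5⟩
          refine ⟨(hH e).mpr h3, ?_, ?_⟩
          · rw [NR2_dsrc, ← hshift]; exact h4
          · rw [NR2_dtgt, ← hshift]; exact h5) h1
      simpa using h2

end H985T
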