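import Pool.Agent.H985R3.TA.SYM
import Pool.Agent.H985R3.TA.OUT
import Pool.Agent.H985R3.TA.Defs4
import Pool.Agent.H985R3.TA.S2I

/-!
Task M2I of the two-arm project: the second inward separation step (statement `mid2i`, from
`step2i`).
-/

set_option autoImplicit false

namespace H985T

open H974 Finset

theorem M2I_box_true {m : ℕ} {x y : ℤ} : ((x, y, true) : Edg) ∈ boxE m ↔
    -(m:ℤ) ≤ x ∧ x < m ∧ -(m:ℤ) ≤ y ∧ y ≤ m := by
  unfold boxE; exact mem_RE_true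

theorem M2I_box_false {m : ℕ} {x y : ℤ} : ((x, y, false) : Edg) ∈ boxE m ↔
    -(m:ℤ) ≤ x ∧ x ≤ m ∧ -(m:ℤ) ≤ y ∧ y < m := by
  unfold boxE; exact mem_RE_false

theorem M2I_mp_mp (s : Fin 4) (F : Finset Edg) :
    (sy s).toLSym.mp ((sy s).toLSym.mp F) = F := by
  ext e
  rw [LSym.mem_mp, LSym.mem_mp, SYM_symm, SYM_symm, sy_invol]

theorem M2I_mp_union (s : Fin 4) (F G : Finset Edg) :
    (sy s).toLSym.mp (F ∪ G) = (sy s).toLSym.mp F ∪ (sy s).toLSym.mp G := by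
  ext e
  simp only [LSym.mem_mp, Finset.mem_union]

theorem M2I_img (s : Fin 4) (F : Set Edg) : (sy s).φ '' ((sy s).φ '' F) = F := by
  rw [Set.image_image]
  simp only [sy_invol, Set.image_id']

theorem M2I_An (s : Fin 4) (a N : ℕ) : (sy s).toLSym.mp (An a N) = An a N := by
  unfold An
  rw [LSym.mp_sdiff, sy_box, sy_box]

theorem M2I_tube_box {a ρ : ℕ} {c : ℤ} (hc : |c| + 20 * ρ ≤ a) : tubeI a ρ c ⊆ boxE a := by
  have hc1 := abs_le.mp (show |c| ≤ (a:ℤ) - 20 * ρ by linarith)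
  rintro ⟨x, y, b⟩ he
  unfold tubeI at he
  cases b
  · rw [mem_RE_false] at he
    rw [M2I_box_false]
    omega
  · rw [mem_RE_true] at he
    rw [M2I_box_true]
    omega

/-- the part of `RI` in the box `a` -/
theorem M2I_RI_box {a N ρ : ℕ} {c : ℤ} (haN : a ≤ N) {e : Edg} (he : e ∈ boxE a)
    (he' : e ∈ RI a N ρ c) : e ∈ RE ((a:ℤ) - 14 * ρ) a (c - ρ) (c + ρ) := by
  have hN : e ∈ boxE N := by
    obtain ⟨x, y, b⟩ := e
    cases b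
    · rw [M2I_box_false] at he ⊢; omega
    · rw [M2I_box_true] at he ⊢; omega
  unfold RI An endI Rg tubeI at he'
  simp only [Finset.mem_union, Finset.mem_sdiff] at he'
  obtain ⟨x, y, b⟩ := e
  cases b
  · rw [mem_RE_false]
    rw [mem_RE_false, mem_RE_false] at he'
    rcases he' with (⟨_, h⟩ | h) | (⟨h, _⟩ | ⟨_, h⟩)
    · exact absurd he h
    · omega
    · omega
    · exact absurd hN h
  · rw [mem_RE_true]
    rw [mem_RE_true, mem_RE_true] at he'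
    rcases he' with (⟨_, h⟩ | h) | (⟨h, _⟩ | ⟨_, h⟩)
    · exact absurd he h
    · omega
    · omega
    · exact absurd hN h

theorem M2I_disj {a N ρ : ℕ} {c c' : ℤ} {s : Fin 4} (hρ : 1 ≤ ρ) (hc : |c| + 20 * ρ ≤ a)
    (haN : a ≤ N) (ha : 100 * ρ ≤ a)
    (hs : s = 0 → 6 * (ρ:ℤ) ≤ |c - c'|) :
    Disjoint ((sy s).toLSym.mp (tubeI a ρ c)) (RI a N ρ c') := by
  rw [Finset.disjoint_left]
  intro e he he2
  rw [LSym.mem_mp, SYM_symm] at he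
  have hb : e ∈ boxE a := by
    rw [← sy_mem_box s]
    exact M2I_tube_box hc he
  have he3 := M2I_RI_box haN hb he2
  unfold tubeI at he
  have hc1 := abs_le.mp (show |c| ≤ (a:ℤ) - 20 * ρ by linarith)
  obtain ⟨x, y, b⟩ := e
  rcases SYM_cases s with rfl | rfl | rfl | rfl
  · have h6 := hs rfl
    rw [SYM_0φ] at he
    cases b
    · rw [mem_RE_false] at he he3
      rcases abs_cases (c - c') with h | h <;> omega
    · rw [mem_RE_true] at he he3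
      rcases abs_cases (c - c') with h | h <;> omega
  · rw [SYM_1φ] at he
    cases b
    · rw [Bool.not_false, mem_RE_true] at he
      rw [mem_RE_false] at he3
      omega
    · rw [Bool.not_true, mem_RE_false] at he
      rw [mem_RE_true] at he3
      omega
  · cases b
    · rw [SYM_2φf, mem_RE_false] at he
      rw [mem_RE_false] at he3
      omega
    · rw [SYM_2φt, mem_RE_true] at he
      rw [mem_RE_true] at he3
      omega
  · cases b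
    · rw [SYM_3φf, mem_RE_true] at he
      rw [mem_RE_false] at he3
      omega
    · rw [SYM_3φt, mem_RE_false] at he
      rw [mem_RE_true] at he3
      omega

/-- the starting points of the open arm -/
def M2I_Zs (a ρ : ℕ) (c : ℤ) (s : Fin 4) : Set Vtx :=
  {z | ∃ z2 : ℤ, |z2 - c| ≤ ρ ∧ z = (sy s).ψ ((a:ℤ) - 10 * ρ, z2)}

theorem M2I_hZs {a N ρ : ℕ} {c c' : ℤ} {s : Fin 4} (hρ : 1 ≤ ρ) (hc : |c| + 20 * ρ ≤ a)
    (haN : a ≤ N) (ha : 100 * ρ ≤ a) (hs : s = 0 → 6 * (ρ:ℤ) ≤ |c - c'|) :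
    ∀ z ∈ M2I_Zs a ρ c s, ∃ e ∈ boxE a, e ∉ RI a N ρ c' ∧ (src e = z ∨ tgt e = z) := by
  rintro z ⟨z2, hz2, rfl⟩
  have hc1 := abs_le.mp (show |c| ≤ (a:ℤ) - 20 * ρ by linarith)
  have hz := abs_le.mp hz2
  have hb : ((((sy s).ψ ((a:ℤ) - 10 * ρ, z2)).1, ((sy s).ψ ((a:ℤ) - 10 * ρ, z2)).2, true) : Edg)
      ∈ boxE a := by
    rw [M2I_box_true]
    rcases SYM_cases s with rfl | rfl | rfl | rfl
    · rw [SYM_0ψ]; simp only; omega
    · rw [SYM_1ψ]; simp only; omega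
    · rw [SYM_2ψ]; simp only; omega
    · rw [SYM_3ψ]; simp only; omega
  refine ⟨(((sy s).ψ ((a:ℤ) - 10 * ρ, z2)).1, ((sy s).ψ ((a:ℤ) - 10 * ρ, z2)).2, true), hb, ?_,
    Or.inl rfl⟩
  intro h
  have h3 := M2I_RI_box haN hb h
  rw [mem_RE_true] at h3
  rcases SYM_cases s with rfl | rfl | rfl | rfl
  · have h6 := hs rfl
    rw [SYM_0ψ] at h3
    simp only at h3
    rcases abs_cases (c - c') with h | h <;> omega
  · rw [SYM_1ψ] at h3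
    simp only at h3
    omega
  · rw [SYM_2ψ] at h3
    simp only at h3
    omega
  · rw [SYM_3ψ] at h3
    simp only at h3
    omega

theorem M2I_hb {a N : ℕ} {y0 : ℤ} {R : ℕ} (h : |y0| + R ≤ a) (hN : 2 * a ≤ N) :
    hbI a y0 R ⊆ An a N := by
  have h1 := abs_le.mp (show |y0| ≤ (a:ℤ) - R by linarith)
  have h0 := abs_nonneg y0
  intro e he
  unfold hbI at he
  unfold An
  rw [Finset.mem_sdiff] at he ⊢
  refine ⟨?_, he.2⟩
  have he1 := he.1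
  obtain ⟨x, y, b⟩ := e
  cases b
  · rw [mem_RE_false] at he1
    rw [M2I_box_false]
    omega
  · rw [mem_RE_true] at he1
    rw [M2I_box_true]
    omega

theorem M2I_H3p_congr {a N : ℕ} {y0 : ℤ} {r R : ℕ} (h : |y0| + R ≤ a) (hN : 2 * a ≤ N)
    {F G : Set Edg} (hFG : F ∩ ↑(An a N) = G ∩ ↑(An a N)) (hF : H3pi a y0 r R F) :
    H3pi a y0 r R G := by
  have e : F ∩ ↑(hbI a y0 R) = G ∩ ↑(hbI a y0 R) := by
    have hsub : (↑(hbI a y0 R) : Set Edg) ⊆ ↑(An a N) := Finset.coe_subset.mpr (M2I_hb h hN)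
    ext e
    constructor
    · rintro ⟨h1, h2⟩
      have h3 : e ∈ F ∩ ↑(An a N) := ⟨h1, hsub h2⟩
      rw [hFG] at h3
      exact ⟨h3.1, h2⟩
    · rintro ⟨h1, h2⟩
      have h3 : e ∈ G ∩ ↑(An a N) := ⟨h1, hsub h2⟩
      rw [← hFG] at h3
      exact ⟨h3.1, h2⟩
  unfold H3pi at hF ⊢
  rw [← e]
  exact hF

theorem M2I_Gp_congr {a N ρ r l : ℕ} {c : ℤ} (hr : r ≤ ρ) (hc : |c| + 20 * ρ ≤ a)
    (hN : 2 * a ≤ N) {F G : Set Edg}
    (hFG : F ∩ ↑(An a N) = G ∩ ↑(An a N)) (hF : Gpi a N ρ r l c F) : Gpi a N ρ r l c G := by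
  obtain ⟨h1, h2, h3⟩ := hF
  rw [hFG] at h2 h3
  refine ⟨fun k hk h => h1 k hk (M2I_H3p_congr ?_ hN hFG.symm h), h2, h3⟩
  have hc1 := abs_le.mp (show |c| ≤ (a:ℤ) - 20 * ρ by linarith)
  have hk1 := abs_le.mp hk
  rcases abs_cases ((l:ℤ) * k) with h | h <;> omega

theorem M2I_Lf_congr {a N ρ : ℕ} {c : ℤ} {F G : Set Edg}
    (hFG : F ∩ ↑(An a N) = G ∩ ↑(An a N)) (hF : Lfi a N ρ c F) : Lfi a N ρ c G := by
  have e : (↑(An a N) : Set Edg) \ F = ↑(An a N) \ G := by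
    ext e
    constructor
    · rintro ⟨h1, h2⟩
      refine ⟨h1, fun h3 => ?_⟩
      have h4 : e ∈ G ∩ ↑(An a N) := ⟨h3, h1⟩
      rw [← hFG] at h4
      exact h2 h4.1
    · rintro ⟨h1, h2⟩
      refine ⟨h1, fun h3 => ?_⟩
      have h4 : e ∈ F ∩ ↑(An a N) := ⟨h3, h1⟩
      rw [hFG] at h4
      exact h2 h4.1
  unfold Lfi at hF ⊢
  rw [← e]
  exact hF

theorem M2I_e1 (F B X : Finset Edg) :
    (↑F : Set Edg) ∩ ↑B = ↑(F ∩ (B ∪ X)) ∩ ↑B := by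
  ext e
  simp only [Finset.coe_inter, Finset.coe_union, Set.mem_inter_iff, Set.mem_union]
  tauto

theorem M2I_e2 (F Y : Finset Edg) : (↑(F ∩ Y) : Set Edg) ∩ ↑Y = ↑F ∩ ↑Y := by
  ext e
  simp only [Finset.coe_inter, Set.mem_inter_iff]
  tauto

theorem M2I_sub (A B X : Finset Edg) : A ∪ X ⊆ A ∪ B ∪ X := by
  intro e he
  simp only [Finset.mem_union] at he ⊢
  tauto

theorem mid2i_of {κ : ℝ} {n : ℕ} (hW : H12S.Win (1 / 2) κ n) {a N ρ r l k : ℕ} {c c' : ℤ}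
    {s : Fin 4}
    (step2i : ∀ {X : Finset Edg} (_ : Disjoint X (RI a N ρ c')) {Za : Set Vtx}
      (_ : ∀ z ∈ Za, ∃ e ∈ boxE a, e ∉ RI a N ρ c' ∧ (src e = z ∨ tgt e = z)),
      H12S.PQ (1 / 2) (An a N ∪ tubeI a ρ c' ∪ X) (fun F =>
          (Lfi a N ρ c' ↑F ∧ Gpi a N ρ r (4 * l) c' ↑F) ∧
          ∃ z ∈ Za, ∃ u', onB N u' ∧ Reach (↑F ∩ ↑(An a N ∪ X) : Set Edg) z u') *
            κ ^ (4 * (2 * (6 * k) + 1) ^ 2) ≤
      H12S.PQ (1 / 2) (An a N ∪ tubeI a ρ c' ∪ X) (fun F => Tfi a N ρ c' ↑F ∧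
          ∃ z ∈ Za, ∃ u', onB N u' ∧ Reach (↑F ∩ ↑(An a N ∪ X) : Set Edg) z u'))
    (hl : 1 ≤ l) (hr : 32 * l ≤ r) (hρ : 16 * r ≤ ρ)
    (hc : |c| + 20 * ρ ≤ a) (hc' : |c'| + 20 * ρ ≤ a) (hs : s = 0 → 6 * (ρ:ℤ) ≤ |c - c'|)
    (ha : 100 * ρ ≤ a) (hN : 2 * a ≤ N) :
    H12S.PQ (1 / 2) (An a N ∪ tubeI a ρ c) (fun F => Tvi a N ρ c ↑F ∧
        LfiS a N ρ s c' ↑F ∧ GpiS a N ρ r (4 * l) s c' ↑F) *
          κ ^ (4 * (2 * (6 * k) + 1) ^ 2) ≤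
    H12S.PQ (1 / 2) (EUi a N ρ c s c') (fun F => EVi a N ρ c s c' ↑F) := by
  have hρ1 : 1 ≤ ρ := by omega
  have haN : a ≤ N := by omega
  have hok : Ok (fun _ : Edg => (1 / 2 : ℝ)) := fun _ => by norm_num
  set X : Finset Edg := (sy s).toLSym.mp (tubeI a ρ c) with hXdef
  have hX := M2I_disj (s := s) (c' := c') hρ1 hc haN ha hs
  rw [← hXdef] at hX
  have hst := step2i hX (M2I_hZs (c' := c') hρ1 hc haN ha hs)
  -- the images of the sets of edges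
  have hmp1 : (sy s).toLSym.mp (An a N ∪ X) = An a N ∪ tubeI a ρ c := by
    rw [M2I_mp_union, M2I_An, hXdef, M2I_mp_mp]
  have hmp2 : (sy s).toLSym.mp (An a N ∪ tubeI a ρ c' ∪ X) = EUi a N ρ c s c' := by
    rw [M2I_mp_union, M2I_mp_union, M2I_An, hXdef, M2I_mp_mp]
    unfold EUi
    rw [Finset.union_right_comm]
  -- first inequality
  have h1 : H12S.PQ (1 / 2) (An a N ∪ tubeI a ρ c) (fun F => Tvi a N ρ c ↑F ∧
      LfiS a N ρ s c' ↑F ∧ GpiS a N ρ r (4 * l) s c' ↑F) ≤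
      H12S.PQ (1 / 2) (An a N ∪ tubeI a ρ c' ∪ X)
        (fun F => (Lfi a N ρ c' ↑F ∧ Gpi a N ρ r (4 * l) c' ↑F) ∧
          ∃ z ∈ M2I_Zs a ρ c s, ∃ u', onB N u' ∧
            Reach (↑F ∩ ↑(An a N ∪ X) : Set Edg) z u') := by
    rw [← hmp1]
    unfold H12S.PQ
    rw [LSym.pr]
    rw [Pr_local (M2I_sub (An a N) (tubeI a ρ c') X)]
    · apply Pr_mono hok
      rintro F - ⟨hTv, hLf, hGp⟩
      rw [LSym.coe_mp] at hTv hLf hGp
      refine ⟨⟨?_, ?_⟩, ?_⟩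
      · unfold LfiS at hLf
        rw [M2I_img] at hLf
        exact hLf
      · unfold GpiS at hGp
        rw [M2I_img] at hGp
        exact hGp
      · obtain ⟨z2, hz2, u', hu', hz3⟩ := hTv
        refine ⟨(sy s).ψ ((a:ℤ) - 10 * ρ, z2), ⟨z2, hz2, rfl⟩, (sy s).ψ u',
          (sy_onB s N u').mpr hu', ?_⟩
        have h3 := (sy s).toLSym.reach hz3
        refine h3.mono ?_
        rintro e ⟨e', ⟨he1, he2⟩, rfl⟩
        rw [← hmp1, LSym.coe_mp] at he2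
        refine ⟨?_, ?_⟩
        · obtain ⟨e'', he3, rfl⟩ := he1
          rw [sy_invol]
          exact he3
        · obtain ⟨e'', he3, rfl⟩ := he2
          rw [sy_invol]
          exact he3
    · intro F _
      have e1 := M2I_e1 F (An a N) X
      have e2 := M2I_e2 F (An a N ∪ X)
      rw [e2]
      constructor
      · rintro ⟨⟨ha, hb⟩, hc⟩
        exact ⟨⟨M2I_Lf_congr e1 ha, M2I_Gp_congr (by omega) hc' hN e1 hb⟩, hc⟩
      · rintro ⟨⟨ha, hb⟩, hc⟩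
        exact ⟨⟨M2I_Lf_congr e1.symm ha, M2I_Gp_congr (by omega) hc' hN e1.symm hb⟩, hc⟩
  -- last inequality
  have h2 : H12S.PQ (1 / 2) (An a N ∪ tubeI a ρ c' ∪ X) (fun F => Tfi a N ρ c' ↑F ∧
      ∃ z ∈ M2I_Zs a ρ c s, ∃ u', onB N u' ∧ Reach (↑F ∩ ↑(An a N ∪ X) : Set Edg) z u') ≤
      H12S.PQ (1 / 2) (EUi a N ρ c s c') (fun F => EVi a N ρ c s c' ↑F) := by
    rw [← hmp2]
    unfold H12S.PQ
    rw [LSym.pr]
    apply Pr_mono hok
    rintro F - ⟨hT, z, ⟨z2, hz2, rfl⟩, u', hu', hz⟩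
    rw [LSym.coe_mp]
    refine ⟨⟨z2, hz2, (sy s).ψ u', (sy_onB s N u').mpr hu', ?_⟩, ?_⟩
    · have h3 := (sy s).toLSym.reach hz
      rw [sy_invol_v] at h3
      refine h3.mono ?_
      rw [← hmp1, LSym.coe_mp]
      rintro e ⟨e', ⟨he1, he2⟩, rfl⟩
      exact ⟨Set.mem_image_of_mem _ he1, Set.mem_image_of_mem _ he2⟩
    · unfold TfiS
      rw [M2I_img]
      exact hT
  have hκ : (0:ℝ) ≤ κ ^ (4 * (2 * (6 * k) + 1) ^ 2) := pow_nonneg hW.kpos.le _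
  exact (mul_le_mul_of_nonneg_right h1 hκ).trans (hst.trans h2)

theorem mid2i {κ : ℝ} {n : ℕ} (hW : H12S.Win (1 / 2) κ n) {a N ρ r l k : ℕ} {c c' : ℤ}
    {s : Fin 4} (hl : 1 ≤ l) (hr : 32 * l ≤ r) (hρ : 16 * r ≤ ρ) (hk : ρ ≤ k * l)
    (hc : |c| + 20 * ρ ≤ a) (hc' : |c'| + 20 * ρ ≤ a) (hs : s = 0 → 6 * (ρ:ℤ) ≤ |c - c'|)
    (ha : 100 * ρ ≤ a) (hN : 2 * a ≤ N) (hn : 2 * l ≤ n) :
    H12S.PQ (1 / 2) (An a N ∪ tubeI a ρ c) (fun F => Tvi a N ρ c ↑F ∧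
        LfiS a N ρ s c' ↑F ∧ GpiS a N ρ r (4 * l) s c' ↑F) *
          κ ^ (4 * (2 * (6 * k) + 1) ^ 2) ≤
    H12S.PQ (1 / 2) (EUi a N ρ c s c') (fun F => EVi a N ρ c s c' ↑F) :=
  mid2i_of hW (fun hX _ hZa => step2i hW hl hr hρ hk hc' hN hn hX hZa) hl hr hρ hc hc' hs ha hN

end H985T
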