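import Pool.Agent.H985R3.TA.Defs4
import Pool.Agent.H934R3.D74.Defs
import Pool.Agent.H12R2.Sep.WinHalf

/-!
# Two-arm project: the recursion for the two-arm probability of an annulus
-/

set_option autoImplicit false

namespace H985T

open H974 Finset

/-! ### Statements used -/

def ReciSelSum : Prop :=
  ∀ η : ℝ, 0 < η → ∃ D₀ : ℕ, 100 ≤ D₀ ∧ ∀ D, D₀ ≤ D → ∀ a N ρ : ℕ, 1 ≤ ρ →
    D * ρ ≤ a → a ≤ 2 * D * ρ → 2 * a ≤ N → ∀ M : ℝ, 0 ≤ M →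
    (∀ (s : Fin 4) (c c' : ℤ), |c| + 20 * ρ ≤ a → |c'| + 20 * ρ ≤ a →
      (s = 0 → 6 * (ρ:ℤ) ≤ |c - c'|) →
      H12S.PQ (1 / 2) (An a N) (fun F => Lvi a N ρ c ↑F ∧ LfiS a N ρ s c' ↑F) ≤ M) →
    pAA a N ≤ 16 * (4 * (D:ℝ) + 1) ^ 2 * M + η * pAA (2 * a) N

def ReciBadGdi : Prop :=
  ∀ η : ℝ, 0 < η → ∃ B₀ : ℕ, ∀ B, B₀ ≤ B → ∃ A₀ : ℕ, ∀ A, A₀ ≤ A →
    ∀ (l a N ρ r : ℕ) (c : ℤ) (U : Finset Edg), 1 ≤ l → r = A * l → ρ = B * r →
      |c| + 20 * ρ ≤ a → 2 * a ≤ N → An a N ⊆ U →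
      H12S.PQ (1 / 2) U (fun F => AA (2 * a) N ↑F ∧ ¬ Gdi a N ρ r (4 * l) c ↑F) ≤
        η * pAA (2 * a) N

def ReciBadGpi : Prop :=
  ∀ η : ℝ, 0 < η → ∃ B₀ : ℕ, ∀ B, B₀ ≤ B → ∃ A₀ : ℕ, ∀ A, A₀ ≤ A →
    ∀ (l a N ρ r : ℕ) (s : Fin 4) (c : ℤ) (U : Finset Edg), 1 ≤ l → r = A * l → ρ = B * r →
      |c| + 20 * ρ ≤ a → 2 * a ≤ N → An a N ⊆ U →
      H12S.PQ (1 / 2) U (fun F => AA (2 * a) N ↑F ∧ ¬ GpiS a N ρ r (4 * l) s c ↑F) ≤
        η * pAA (2 * a) N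

def ReciMid1 : Prop :=
  ∀ {κ : ℝ} {n : ℕ} (_ : H12S.Win (1 / 2) κ n) {a N ρ r l k : ℕ} {c c' : ℤ}
    {s : Fin 4} (_ : 1 ≤ l) (_ : 32 * l ≤ r) (_ : 16 * r ≤ ρ) (_ : ρ ≤ k * l)
    (_ : |c| + 20 * ρ ≤ a) (_ : |c'| + 20 * ρ ≤ a) (_ : s = 0 → 6 * (ρ:ℤ) ≤ |c - c'|)
    (_ : 2 * a ≤ N) (_ : 2 * l ≤ n),
    H12S.PQ (1 / 2) (An a N) (fun F => (Lvi a N ρ c ↑F ∧ Gdi a N ρ r (4 * l) c ↑F) ∧
        LfiS a N ρ s c' ↑F) * κ ^ (4 * (2 * (6 * k) + 1) ^ 2) ≤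
    H12S.PQ (1 / 2) (An a N ∪ tubeI a ρ c) (fun F => Tvi a N ρ c ↑F ∧
        LfiS a N ρ s c' ↑F)

def ReciMid2 : Prop :=
  ∀ {κ : ℝ} {n : ℕ} (_ : H12S.Win (1 / 2) κ n) {a N ρ r l k : ℕ} {c c' : ℤ}
    {s : Fin 4} (_ : 1 ≤ l) (_ : 32 * l ≤ r) (_ : 16 * r ≤ ρ) (_ : ρ ≤ k * l)
    (_ : |c| + 20 * ρ ≤ a) (_ : |c'| + 20 * ρ ≤ a) (_ : s = 0 → 6 * (ρ:ℤ) ≤ |c - c'|)
    (_ : 100 * ρ ≤ a) (_ : 2 * a ≤ N) (_ : 2 * l ≤ n),
    H12S.PQ (1 / 2) (An a N ∪ tubeI a ρ c) (fun F => Tvi a N ρ c ↑F ∧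
        LfiS a N ρ s c' ↑F ∧ GpiS a N ρ r (4 * l) s c' ↑F) *
          κ ^ (4 * (2 * (6 * k) + 1) ^ 2) ≤
    H12S.PQ (1 / 2) (EUi a N ρ c s c') (fun F => EVi a N ρ c s c' ↑F)

def ReciGlue : Prop :=
  ∀ (B : ℕ), ∃ K : ℝ, 0 < K ∧ ∀ (a N ρ : ℕ) (c : ℤ) (s : Fin 4)
    (c' : ℤ), Geoi B a N ρ c s c' →
    H12S.PQ (1 / 2) (EUi a N ρ c s c') (fun F => EVi a N ρ c s c' ↑F) ≤
      K * ((a:ℝ) / N) ^ (1/4 : ℝ)

def ReciMono : Prop :=
  ∀ {a b N : ℕ} (_ : a ≤ b) (_ : b ≤ N) {F : Set Edg} (_ : AA a N F), AA b N F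

def ReciOfL : Prop :=
  ∀ {a N ρ : ℕ} {s : Fin 4} {c c' : ℤ} (_ : 1 ≤ a) (_ : |c| + ρ < a)
    (_ : |c'| + ρ < a) (_ : 2 * a ≤ N) {F : Set Edg} (_ : Lvi a N ρ c F)
    (_ : LfiS a N ρ s c' F), AA (2 * a) N F

def ReciOfT : Prop :=
  ∀ {a N ρ : ℕ} {s : Fin 4} {c c' : ℤ} (_ : 1 ≤ a) (_ : |c| + 20 * ρ ≤ a)
    (_ : 1 ≤ ρ) (_ : |c'| + ρ < a) (_ : 2 * a ≤ N) {F : Set Edg} (_ : Tvi a N ρ c F)
    (_ : LfiS a N ρ s c' F), AA (2 * a) N F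

def ReciIndep : Prop :=
  ∀ {b N : ℕ} (_ : b ≤ N) {U : Finset Edg} (_ : An b N ⊆ U)
    {Bd : Finset Edg → Prop} (_ : ∀ F, F ⊆ U → (Bd F ↔ Bd (F ∩ boxE b))),
    H12S.PQ (1 / 2) U (fun F => AA b N ↑F ∧ Bd F) = pAA b N * H12S.PQ (1 / 2) U Bd

theorem reci_ok : Ok (fun _ : Edg => (1 / 2 : ℝ)) := fun _ => by constructor <;> norm_num

theorem reci_nonneg (a N : ℕ) : 0 ≤ pAA a N := Pr_nonneg reci_ok _ _

theorem reci_le_one (a N : ℕ) : pAA a N ≤ 1 := Pr_le_one reci_ok _ _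

theorem reci_split {S : Finset Edg} (A B : Finset Edg → Prop) :
    H12S.PQ (1 / 2) S A ≤ H12S.PQ (1 / 2) S (fun F => A F ∧ B F) +
      H12S.PQ (1 / 2) S (fun F => A F ∧ ¬ B F) := by
  refine le_trans (Pr_mono reci_ok (B := fun F => (A F ∧ B F) ∨ (A F ∧ ¬ B F)) ?_)
    (Pr_or_le reci_ok _ _ _)
  intro F _ hA
  by_cases hB : B F
  · exact Or.inl ⟨hA, hB⟩
  · exact Or.inr ⟨hA, hB⟩

theorem reci_ineq_of (hSum : ReciSelSum) (hGd : ReciBadGdi) (hGp : ReciBadGpi) (hM1 : ReciMid1)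
    (hM2 : ReciMid2) (hGlue : ReciGlue) (hL : ReciOfL) (hT : ReciOfT) :
    ∃ (K : ℝ) (a₀ : ℕ), 0 < K ∧ 1 ≤ a₀ ∧ ∀ a N, a₀ ≤ a → 2 * a ≤ N →
      pAA a N ≤ K * ((a:ℝ) / N) ^ (1/4 : ℝ) + 1 / 4 * pAA (2 * a) N := by
  obtain ⟨κ, hκ, hW⟩ := H12S.win_half
  obtain ⟨D, hD50, hD⟩ := hSum (1 / 16) (by norm_num)
  obtain ⟨K, hK0, hK⟩ := hGlue (2 * D)
  set Q : ℝ := 16 * (4 * (D:ℝ) + 1) ^ 2 with hQ
  have hQ0 : 0 < Q := by positivity
  obtain ⟨B₁, hB₁⟩ := hGd (1 / (16 * Q)) (by positivity)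
  obtain ⟨A₁, hA₁⟩ := hB₁ (max B₁ 16) (le_max_left _ _)
  have hA₁' := hA₁ (max A₁ 32) (le_max_left _ _)
  set b1 := max B₁ 16 with hb1
  set a1 := max A₁ 32 with ha1
  have hb16 : 16 ≤ b1 := le_max_right _ _
  have ha32 : 32 ≤ a1 := le_max_right _ _
  set N1 := 4 * (2 * (6 * (a1 * b1)) + 1) ^ 2 with hN1
  have hκN1 : 0 < κ ^ N1 := pow_pos hκ _
  obtain ⟨B₂, hB₂⟩ := hGp (κ ^ N1 / (16 * Q)) (by positivity)
  obtain ⟨A₂, hA₂⟩ := hB₂ (max B₂ 16) (le_max_left _ _)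
  have hA₂' := hA₂ (max A₂ 32) (le_max_left _ _)
  set b2 := max B₂ 16 with hb2
  set a2 := max A₂ 32 with ha2
  have hb16' : 16 ≤ b2 := le_max_right _ _
  have ha32' : 32 ≤ a2 := le_max_right _ _
  set N2 := 4 * (2 * (6 * (a2 * b2)) + 1) ^ 2 with hN2
  have hκN2 : 0 < κ ^ N2 := pow_pos hκ _
  clear_value a1 b1 a2 b2
  set W := a1 * b1 * a2 * b2 with hWd
  have hW0 : 1 ≤ W := by
    rw [hWd]
    have h1 : 0 < a1 := by omega
    have h2 : 0 < b1 := by omega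
    have h3 : 0 < a2 := by omega
    have h4 : 0 < b2 := by omega
    have := Nat.mul_pos (Nat.mul_pos (Nat.mul_pos h1 h2) h3) h4
    omega
  have hDW : 0 < D * W := Nat.mul_pos (by omega) (by omega)
  refine ⟨Q * (K / (κ ^ N1 * κ ^ N2)) , D * W, by positivity, hDW, fun m N hm hN => ?_⟩
  -- choice of the scales
  set t := m / (D * W) with ht
  have ht1 : 1 ≤ t := (Nat.one_le_div_iff hDW).mpr hm
  have htm : (D * W) * t ≤ m := Nat.mul_div_le _ _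
  have htm' : m < (D * W) * (t + 1) := by
    rw [ht]; exact Nat.lt_mul_div_succ _ hDW
  set l1 := a2 * b2 * t with hl1
  set l2 := a1 * b1 * t with hl2
  set r1 := a1 * l1 with hr1
  set r2 := a2 * l2 with hr2
  set ρ := b1 * r1 with hρ
  have hρ2 : ρ = b2 * r2 := by
    rw [hρ, hr1, hr2, hl1, hl2]; ring
  have hρW : ρ = W * t := by
    rw [hρ, hr1, hl1, hWd]; ring
  have hl1p : 1 ≤ l1 := by
    rw [hl1]
    have := Nat.mul_pos (Nat.mul_pos (show 0 < a2 by omega) (show 0 < b2 by omega))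
      (show 0 < t by omega)
    omega
  have hl2p : 1 ≤ l2 := by
    rw [hl2]
    have := Nat.mul_pos (Nat.mul_pos (show 0 < a1 by omega) (show 0 < b1 by omega))
      (show 0 < t by omega)
    omega
  have hρ1 : 1 ≤ ρ := by
    rw [hρW]
    have := Nat.mul_pos (show 0 < W by omega) (show 0 < t by omega)
    omega
  have hDρ : D * ρ ≤ m := by
    rw [hρW, ← mul_assoc]; exact htm
  have hDρ' : m ≤ 2 * D * ρ := by
    have h1 : (D * W) * (t + 1) ≤ (D * W) * (2 * t) := Nat.mul_le_mul_left _ (by omega)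
    have h2 : 2 * D * ρ = (D * W) * (2 * t) := by rw [hρW]; ring
    omega
  have h50 : 100 * ρ ≤ m := le_trans (Nat.mul_le_mul_right _ hD50) hDρ
  have hm1 : 1 ≤ m := by omega
  set x : ℝ := ((m:ℝ) / N) ^ (1/4 : ℝ) with hx
  have hx0 : 0 ≤ x := by positivity
  have hp0 := reci_nonneg (2 * m) N
  set M : ℝ := (K * x / κ ^ N2 + κ ^ N1 / (16 * Q) * pAA (2 * m) N) / κ ^ N1 +
    1 / (16 * Q) * pAA (2 * m) N with hM
  have hM0 : 0 ≤ M := by positivity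
  have key : ∀ (s : Fin 4) (c c' : ℤ), |c| + 20 * ρ ≤ m →
      |c'| + 20 * ρ ≤ m → (s = 0 → 6 * (ρ:ℤ) ≤ |c - c'|) →
      H12S.PQ (1 / 2) (An m N) (fun F => Lvi m N ρ c ↑F ∧ LfiS m N ρ s c' ↑F) ≤ M := by
    intro s c c' hc hc' hs
    have hcρ : |c| + ρ < m := by omega
    have hcρ' : |c'| + ρ < m := by omega
    -- first splitting
    have e1 := reci_split (S := An m N) (fun F => Lvi m N ρ c ↑F ∧ LfiS m N ρ s c' ↑F)
      (fun F => Gdi m N ρ r1 (4 * l1) c ↑F)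
    have e2 : H12S.PQ (1 / 2) (An m N) (fun F => (Lvi m N ρ c ↑F ∧ LfiS m N ρ s c' ↑F) ∧
        ¬ Gdi m N ρ r1 (4 * l1) c ↑F) ≤ 1 / (16 * Q) * pAA (2 * m) N := by
      refine le_trans (Pr_mono reci_ok ?_)
        (hA₁' l1 m N ρ r1 c (An m N) hl1p hr1 hρ hc hN (Finset.Subset.refl _))
      intro F _ h
      exact ⟨hL hm1 hcρ hcρ' hN h.1.1 h.1.2, h.2⟩
    have e3 : H12S.PQ (1 / 2) (An m N) (fun F => (Lvi m N ρ c ↑F ∧ LfiS m N ρ s c' ↑F) ∧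
        Gdi m N ρ r1 (4 * l1) c ↑F) ≤ H12S.PQ (1 / 2) (An m N)
          (fun F => (Lvi m N ρ c ↑F ∧ Gdi m N ρ r1 (4 * l1) c ↑F) ∧
        LfiS m N ρ s c' ↑F) := by
      refine Pr_mono reci_ok ?_
      intro F _ h
      exact ⟨⟨h.1.1, h.2⟩, h.1.2⟩
    have e4 := hM1 (hW (2 * l1)) (a := m) (N := N) (ρ := ρ) (r := r1) (l := l1)
      (k := a1 * b1) (c := c) (c' := c') (s := s) hl1p
      (by rw [hr1]; exact Nat.mul_le_mul_right _ ha32)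
      (by rw [hρ]; exact Nat.mul_le_mul_right _ hb16)
      (by rw [hρ, hr1]; exact le_of_eq (by ring)) hc hc' hs hN le_rfl
    -- second splitting
    have e5 := reci_split (S := An m N ∪ tubeI m ρ c)
      (fun F => Tvi m N ρ c ↑F ∧ LfiS m N ρ s c' ↑F) (fun F => GpiS m N ρ r2 (4 * l2) s c' ↑F)
    have e6 : H12S.PQ (1 / 2) (An m N ∪ tubeI m ρ c) (fun F => (Tvi m N ρ c ↑F ∧
        LfiS m N ρ s c' ↑F) ∧ ¬ GpiS m N ρ r2 (4 * l2) s c' ↑F) ≤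
        κ ^ N1 / (16 * Q) * pAA (2 * m) N := by
      refine le_trans (Pr_mono reci_ok ?_)
        (hA₂' l2 m N ρ r2 s c' (An m N ∪ tubeI m ρ c) hl2p hr2 hρ2 hc' hN
          Finset.subset_union_left)
      intro F _ h
      exact ⟨hT hm1 hc hρ1 hcρ' hN h.1.1 h.1.2, h.2⟩
    have e7 : H12S.PQ (1 / 2) (An m N ∪ tubeI m ρ c) (fun F => (Tvi m N ρ c ↑F ∧
        LfiS m N ρ s c' ↑F) ∧ GpiS m N ρ r2 (4 * l2) s c' ↑F) ≤
        H12S.PQ (1 / 2) (An m N ∪ tubeI m ρ c) (fun F => Tvi m N ρ c ↑F ∧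
        LfiS m N ρ s c' ↑F ∧ GpiS m N ρ r2 (4 * l2) s c' ↑F) := by
      refine Pr_mono reci_ok ?_
      intro F _ h
      exact ⟨h.1.1, h.1.2, h.2⟩
    have e8 := hM2 (hW (2 * l2)) (a := m) (N := N) (ρ := ρ) (r := r2) (l := l2)
      (k := a2 * b2) (c := c) (c' := c') (s := s) hl2p
      (by rw [hr2]; exact Nat.mul_le_mul_right _ ha32')
      (by rw [hρ2]; exact Nat.mul_le_mul_right _ hb16')
      (by rw [hρ2, hr2]; exact le_of_eq (by ring)) hc hc' hs h50 hN le_rfl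
    have hgeo : Geoi (2 * D) m N ρ c s c' := ⟨hρ1, hDρ', h50, hN, hc, hc', hs⟩
    have e9 := hK m N ρ c s c' hgeo
    have e10 : H12S.PQ (1 / 2) (An m N ∪ tubeI m ρ c) (fun F => Tvi m N ρ c ↑F ∧
        LfiS m N ρ s c' ↑F ∧ GpiS m N ρ r2 (4 * l2) s c' ↑F) ≤ K * x / κ ^ N2 := by
      rw [le_div_iff₀ hκN2]
      exact e8.trans e9
    have e11 : H12S.PQ (1 / 2) (An m N ∪ tubeI m ρ c)
        (fun F => Tvi m N ρ c ↑F ∧ LfiS m N ρ s c' ↑F) ≤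
        K * x / κ ^ N2 + κ ^ N1 / (16 * Q) * pAA (2 * m) N := by
      linarith
    have e12 : H12S.PQ (1 / 2) (An m N)
          (fun F => (Lvi m N ρ c ↑F ∧ Gdi m N ρ r1 (4 * l1) c ↑F) ∧
        LfiS m N ρ s c' ↑F) ≤
        (K * x / κ ^ N2 + κ ^ N1 / (16 * Q) * pAA (2 * m) N) / κ ^ N1 := by
      rw [le_div_iff₀ hκN1]
      exact e4.trans e11
    rw [hM]
    linarith
  have hfin := hD D le_rfl m N ρ hρ1 hDρ hDρ' hN M hM0 key
  rw [← hQ] at hfin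
  have hQM : Q * M = Q * (K / (κ ^ N1 * κ ^ N2)) * x + 1 / 8 * pAA (2 * m) N := by
    rw [hM]
    field_simp
    ring
  rw [hQM] at hfin
  linarith

/-- the trivial bound `t ≤ t ^ (1/4)` on `[0,1]` -/
theorem reci_root {t : ℝ} (h0 : 0 ≤ t) (h1 : t ≤ 1) : t ≤ t ^ (1/4 : ℝ) := by
  rcases h0.eq_or_lt with h | h
  · rw [← h]
    rw [Real.zero_rpow (by norm_num)]
  · calc t = t ^ (1:ℝ) := (Real.rpow_one t).symm
      _ ≤ t ^ (1/4 : ℝ) := Real.rpow_le_rpow_of_exponent_ge h h1 (by norm_num)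

theorem AA_upper_of (hInd : ReciIndep) (hMono : ReciMono)
    (h : ∃ (K : ℝ) (a₀ : ℕ), 0 < K ∧ 1 ≤ a₀ ∧ ∀ a N, a₀ ≤ a → 2 * a ≤ N →
      pAA a N ≤ K * ((a:ℝ) / N) ^ (1/4 : ℝ) + 1 / 4 * pAA (2 * a) N) :
    ∃ C : ℝ, 0 < C ∧ ∀ a N : ℕ, 1 ≤ a → a ≤ N →
      pAA a N ≤ C * ((a:ℝ) / N) ^ (1/4 : ℝ) := by
  obtain ⟨K, a₀, hK, ha₀, hrec⟩ := h
  set C₁ : ℝ := 2 * K + 2 with hC₁
  have hC₁0 : 0 < C₁ := by positivity
  -- large radii
  have hbig : ∀ d a N : ℕ, N - a ≤ d → a₀ ≤ a → a ≤ N →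
      pAA a N ≤ C₁ * ((a:ℝ) / N) ^ (1/4 : ℝ) := by
    intro d
    induction d with
    | zero =>
      intro a N hd ha haN
      have hN : N = a := by omega
      subst hN
      have ha0 : (0:ℝ) < N := by
        have : 0 < N := by omega
        exact_mod_cast this
      rw [div_self ha0.ne', Real.one_rpow]
      have := reci_le_one N N
      linarith
    | succ d ih =>
      intro a N hd ha haN
      have ha0 : (0:ℝ) < a := by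
        have : 0 < a := by omega
        exact_mod_cast this
      have hN0 : (0:ℝ) < N := by
        have : 0 < N := by omega
        exact_mod_cast this
      have haN' : (a:ℝ) ≤ N := by exact_mod_cast haN
      set t : ℝ := (a:ℝ) / N with ht
      have ht0 : 0 < t := div_pos ha0 hN0
      have ht1 : t ≤ 1 := (div_le_one hN0).mpr haN'
      have hroot := reci_root ht0.le ht1
      have hx0 : 0 ≤ t ^ (1/4 : ℝ) := by positivity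
      by_cases h2 : 2 * a ≤ N
      · have e1 := hrec a N ha h2
        have e2 := ih (2 * a) N (by omega) (by omega) h2
        have e3 : ((2 * a : ℕ) : ℝ) / N = 2 * t := by
          rw [ht]; push_cast; ring
        rw [e3, Real.mul_rpow (by norm_num) ht0.le] at e2
        have e4 : (2:ℝ) ^ (1/4 : ℝ) ≤ 2 := by
          calc (2:ℝ) ^ (1/4 : ℝ) ≤ (2:ℝ) ^ (1:ℝ) :=
                Real.rpow_le_rpow_of_exponent_le (by norm_num) (by norm_num)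
            _ = 2 := Real.rpow_one 2
        have e5 : C₁ * ((2:ℝ) ^ (1/4 : ℝ) * t ^ (1/4 : ℝ)) ≤ C₁ * (2 * t ^ (1/4 : ℝ)) :=
          mul_le_mul_of_nonneg_left (mul_le_mul_of_nonneg_right e4 hx0) hC₁0.le
        have e6 : K * t ^ (1/4 : ℝ) ≤ C₁ / 2 * t ^ (1/4 : ℝ) :=
          mul_le_mul_of_nonneg_right (by rw [hC₁]; linarith) hx0
        linarith
      · have e1 : (1:ℝ) / 2 ≤ t := by
          rw [ht, le_div_iff₀ hN0]
          have : N ≤ 2 * a := by omega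
          have : (N:ℝ) ≤ 2 * a := by exact_mod_cast this
          linarith
        have e2 := reci_le_one a N
        have e3 : 2 * (t ^ (1/4 : ℝ)) ≤ C₁ * t ^ (1/4 : ℝ) :=
          mul_le_mul_of_nonneg_right (by rw [hC₁]; linarith) hx0
        linarith
  refine ⟨C₁ * a₀, by positivity, fun a N ha haN => ?_⟩
  have ha0 : (0:ℝ) < a := by exact_mod_cast ha
  have ha1 : (1:ℝ) ≤ a := by exact_mod_cast ha
  have hN0 : (0:ℝ) < N := by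
    have : 0 < N := by omega
    exact_mod_cast this
  have haN' : (a:ℝ) ≤ N := by exact_mod_cast haN
  have ha₀' : (1:ℝ) ≤ a₀ := by exact_mod_cast ha₀
  set t : ℝ := (a:ℝ) / N with ht
  have ht0 : 0 < t := div_pos ha0 hN0
  have ht1 : t ≤ 1 := (div_le_one hN0).mpr haN'
  have hroot := reci_root ht0.le ht1
  have hx0 : 0 ≤ t ^ (1/4 : ℝ) := by positivity
  by_cases h1 : a₀ ≤ a
  · refine (hbig (N - a) a N le_rfl h1 haN).trans ?_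
    exact mul_le_mul_of_nonneg_right (by nlinarith) hx0
  · by_cases h2 : a₀ ≤ N
    · have e1 : pAA a N ≤ pAA a₀ N := by
        have f1 : pAA a N ≤ H12S.PQ (1 / 2) (An a N) (fun F => AA a₀ N ↑F ∧ True) := by
          refine Pr_mono reci_ok ?_
          intro F _ hF
          exact ⟨hMono (by omega) h2 hF, trivial⟩
        have hsub : An a₀ N ⊆ An a N := by
          unfold An
          refine Finset.sdiff_subset_sdiff (Finset.Subset.refl _) ?_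
          rintro ⟨x, y, b⟩ he
          have h3 : a ≤ a₀ := by omega
          unfold boxE at he ⊢
          cases b
          · rw [mem_RE_false] at he ⊢; omega
          · rw [mem_RE_true] at he ⊢; omega
        rw [hInd h2 hsub (Bd := fun _ => True) (fun _ _ => Iff.rfl)] at f1
        have f2 : H12S.PQ (1 / 2) (An a N) (fun _ => True) ≤ 1 := Pr_le_one reci_ok _ _
        have f3 := reci_nonneg a₀ N
        nlinarith
      have e2 := hbig (N - a₀) a₀ N le_rfl le_rfl h2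
      have e3 : ((a₀:ℝ) / N) ^ (1/4 : ℝ) ≤ a₀ * t ^ (1/4 : ℝ) := by
        have g1 : (a₀:ℝ) / N ≤ a₀ * t := by
          rw [ht, ← mul_div_assoc]
          apply div_le_div_of_nonneg_right _ hN0.le
          nlinarith
        have g2 : ((a₀:ℝ) / N) ^ (1/4 : ℝ) ≤ ((a₀:ℝ) * t) ^ (1/4 : ℝ) :=
          Real.rpow_le_rpow (by positivity) g1 (by norm_num)
        rw [Real.mul_rpow (by positivity) ht0.le] at g2
        have g3 : ((a₀:ℝ)) ^ (1/4 : ℝ) ≤ a₀ := by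
          calc ((a₀:ℝ)) ^ (1/4 : ℝ) ≤ (a₀:ℝ) ^ (1:ℝ) :=
                Real.rpow_le_rpow_of_exponent_le ha₀' (by norm_num)
            _ = a₀ := Real.rpow_one _
        exact g2.trans (mul_le_mul_of_nonneg_right g3 hx0)
      calc pAA a N ≤ C₁ * ((a₀:ℝ) / N) ^ (1/4 : ℝ) := e1.trans e2
        _ ≤ C₁ * (a₀ * t ^ (1/4 : ℝ)) := mul_le_mul_of_nonneg_left e3 hC₁0.le
        _ = C₁ * a₀ * t ^ (1/4 : ℝ) := by ring
    · have e1 := reci_le_one a N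
      have e2 : 1 ≤ (a₀:ℝ) * t := by
        rw [ht, ← mul_div_assoc, le_div_iff₀ hN0]
        have : N ≤ a₀ := by omega
        have : (N:ℝ) ≤ a₀ := by exact_mod_cast this
        nlinarith
      have e3 : (a₀:ℝ) * t ≤ a₀ * t ^ (1/4 : ℝ) :=
        mul_le_mul_of_nonneg_left hroot (by positivity)
      have e4 : a₀ * t ^ (1/4 : ℝ) ≤ C₁ * (a₀ * t ^ (1/4 : ℝ)) := by
        have : 0 ≤ a₀ * t ^ (1/4 : ℝ) := by positivity
        have : 1 ≤ C₁ := by rw [hC₁]; linarith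
        nlinarith
      calc pAA a N ≤ C₁ * (a₀ * t ^ (1/4 : ℝ)) := by linarith
        _ = C₁ * a₀ * t ^ (1/4 : ℝ) := by ring

end H985T
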