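import Pool.Agent.H985R3.TA.Defs2

/-!
Two-arm project, task CLD: closing the edges of `D`.
-/

set_option autoImplicit false

namespace H985T

open H974 Finset

theorem CLD_from {G D : Set Edg} {Z : Edg → ZMod 2} {c : Vtx} {ρ : ℤ} (hD : D ⊆ eball c ρ)
    (hcon : ∀ a ∈ VD D, ∀ b ∈ VD D, DReach {e : Edg | e ∉ G} a b →
      DReach ({e : Edg | e ∉ G} ∩ eball c ρ) a b)
    (hZ0 : ∀ e, e ∉ G → Z e = 0) {a b : Vtx} {k : ZMod 2} (ha : a ∈ VD D)
    (h : DW Z {e : Edg | ¬ (e ∈ G ∧ e ∉ D)} a b k) :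
    ∃ a' ∈ VD D, DW Z (eball c ρ) a a' k ∧ DReach {e : Edg | e ∉ G} a' b := by
  induction h with
  | refl => exact ⟨a, ha, DW.refl, DReach.refl _ _⟩
  | @step b c' k e _ he hc ih =>
    obtain ⟨a', ha', h1, h2⟩ := ih
    by_cases heG : e ∈ G
    · have heD : e ∈ D := by
        by_contra heD
        exact he ⟨heG, heD⟩
      have hbD : b ∈ VD D := by
        rcases hc with ⟨h1, h2⟩ | ⟨h1, h2⟩
        · exact ⟨e, heD, Or.inl h1⟩
        · exact ⟨e, heD, Or.inr h2⟩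
      have hcD : c' ∈ VD D := by
        rcases hc with ⟨h1, h2⟩ | ⟨h1, h2⟩
        · exact ⟨e, heD, Or.inr h2⟩
        · exact ⟨e, heD, Or.inl h1⟩
      obtain ⟨k2, hk2⟩ := DW.of_reach (Z := Z) (hcon a' ha' b hbD h2)
      have h0 : k2 = 0 := hk2.zero (fun e he => hZ0 e he.1)
      have h3 := h1.trans (hk2.mono Set.inter_subset_right)
      rw [h0, add_zero] at h3
      exact ⟨c', hcD, h3.step (hD heD) hc, DReach.refl _ _⟩
    · refine ⟨a', ha', ?_, h2.tail ⟨e, heG, hc⟩⟩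
      rw [hZ0 e heG, add_zero]
      exact h1

theorem CLD_split {G D : Set Edg} {Z : Edg → ZMod 2} {a b : Vtx} {k : ZMod 2}
    (h : DW Z {e : Edg | ¬ (e ∈ G ∧ e ∉ D)} a b k) :
    DW Z {e : Edg | e ∉ G} a b k ∨ ∃ d ∈ VD D, ∃ k1 k2,
      DW Z {e : Edg | ¬ (e ∈ G ∧ e ∉ D)} a d k1 ∧ DW Z {e : Edg | ¬ (e ∈ G ∧ e ∉ D)} d b k2 ∧
        k = k1 + k2 := by
  induction h with
  | refl => exact Or.inl DW.refl
  | @step b c' k e h he hc ih =>
    rcases ih with ih | ⟨d, hd, k1, k2, h1, h2, h3⟩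
    · by_cases heG : e ∈ G
      · have heD : e ∈ D := by
          by_contra heD
          exact he ⟨heG, heD⟩
        have hcD : c' ∈ VD D := by
          rcases hc with ⟨h1, h2⟩ | ⟨h1, h2⟩
          · exact ⟨e, heD, Or.inr h2⟩
          · exact ⟨e, heD, Or.inl h1⟩
        exact Or.inr ⟨c', hcD, k + Z e, 0, h.step he hc, DW.refl, (add_zero _).symm⟩
      · exact Or.inl (ih.step heG hc)
    · exact Or.inr ⟨d, hd, k1, k2 + Z e, h1, h2.step he hc, by rw [h3, add_assoc]⟩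

/-- closing the edges of `D` does not disconnect `x` and `y` if faces next to `D` which are
connected (before closing) are connected locally -/
theorem closing {G : Finset Edg} {D : Set Edg} {x y c : Vtx} {ρ : ℤ} (hD : D ⊆ eball c ρ)
    (far : ∀ v : Vtx, v = x ∨ v = y →
      ¬ (c.1 - ρ < v.1 ∧ v.1 ≤ c.1 + ρ ∧ c.2 - ρ < v.2 ∧ v.2 ≤ c.2 + ρ))
    (hcon : ∀ a ∈ VD D, ∀ b ∈ VD D, DReach {e : Edg | e ∉ G} a b →
      DReach ({e : Edg | e ∉ G} ∩ eball c ρ) a b)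
    (hxy : Reach (↑G : Set Edg) x y) : Reach (↑G \ D : Set Edg) x y := by
  classical
  obtain ⟨Z, hZG, hZ⟩ := chain_of_reach hxy
  have hZ0 : ∀ e, e ∉ (↑G : Set Edg) → Z e = 0 := by
    intro e he
    by_contra h
    exact he (hZG e h)
  have hcon' : ∀ a ∈ VD D, ∀ b ∈ VD D, DReach {e : Edg | e ∉ (↑G : Set Edg)} a b →
      DReach ({e : Edg | e ∉ (↑G : Set Edg)} ∩ eball c ρ) a b := hcon
  have hD0 : ∀ a ∈ VD D, ∀ k, DW Z {e : Edg | ¬ (e ∈ (↑G : Set Edg) ∧ e ∉ D)} a a k → k = 0 := by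
    intro a ha k h
    obtain ⟨a', ha', h1, h2⟩ := CLD_from hD hcon' hZ0 ha h
    obtain ⟨k2, hk2⟩ := DW.of_reach (Z := Z) (hcon' a' ha' a ha h2)
    have h0 : k2 = 0 := hk2.zero (fun e he => hZ0 e he.1)
    have h3 := h1.trans (hk2.mono Set.inter_subset_right)
    rw [h0, add_zero] at h3
    obtain ⟨φ, hφ⟩ := pot_ball hZ far
    have h4 : k = φ a + φ a := DW.exact (φ := φ) (fun e he => hφ e he) h3
    rw [h4]
    exact zmod2_add_self _
  obtain ⟨θ, hθ⟩ := exists_pot (Z := Z) (G := {e : Edg | ¬ (e ∈ (↑G : Set Edg) ∧ e ∉ D)})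
    (by
      intro a k h
      rcases CLD_split h with h1 | ⟨d, hd, k1, k2, h1, h2, h3⟩
      · exact h1.zero (fun e he => hZ0 e he)
      · have := hD0 d hd _ (h2.trans h1)
        rw [h3, add_comm]
        exact this)
  by_contra hcn
  have hfin : {v | Reach (↑G \ D : Set Edg) x v}.Finite := by
    have : {v | Reach (↑G \ D : Set Edg) x v} ⊆
        insert x ((G.image src ∪ G.image tgt : Finset Vtx) : Set Vtx) := by
      intro v hv
      rcases Relation.ReflTransGen.cases_tail hv with h1 | ⟨w, _, e, he, hc⟩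
      · exact Or.inl h1
      · right
        rw [Finset.mem_coe, Finset.mem_union, Finset.mem_image, Finset.mem_image]
        rcases hc with ⟨_, h2⟩ | ⟨h2, _⟩
        · exact Or.inr ⟨e, he.1, h2⟩
        · exact Or.inl ⟨e, he.1, h2⟩
    exact (Set.Finite.insert x (Finset.finite_toSet _)).subset this
  obtain ⟨C, hC⟩ : ∃ C : Finset Vtx, ∀ v, v ∈ C ↔ Reach (↑G \ D : Set Edg) x v :=
    ⟨hfin.toFinset, fun v => by rw [Set.Finite.mem_toFinset]; rfl⟩
  have hbd : ∀ e, ¬ (src e ∈ C ↔ tgt e ∈ C) → e ∈ {e : Edg | ¬ (e ∈ (↑G : Set Edg) ∧ e ∉ D)} := by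
    intro e he h1
    apply he
    rw [hC, hC]
    constructor
    · intro h2; exact h2.tail ⟨e, h1, Or.inl ⟨rfl, rfl⟩⟩
    · intro h2; exact h2.tail ⟨e, h1, Or.inr ⟨rfl, rfl⟩⟩
  have h1 := flow (C := C) (d := fun e => Z e + (θ (dsrc e) + θ (dtgt e))) (by
    intro e he
    show Z e + (θ (dsrc e) + θ (dtgt e)) = 0
    rw [hθ e (hbd e he)]
    exact zmod2_add_self _)
  have h2 : ∀ v, vb (fun e => Z e + (θ (dsrc e) + θ (dtgt e))) v = b2 (x = v) + b2 (y = v) := by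
    intro v
    have h3 := vb_cob θ v
    have h4 := hZ v
    unfold vb at h3 h4 ⊢
    linear_combination h3 + h4
  rw [Finset.sum_congr rfl (fun v _ => h2 v), Finset.sum_add_distrib] at h1
  have h3 : ∑ v ∈ C, b2 (x = v) = 1 := by
    rw [Finset.sum_eq_single_of_mem x ((hC x).mpr (Reach.refl _ _))
      (fun v _ hv => b2_not_of (fun h => hv h.symm)), b2_of rfl]
  have h4 : ∑ v ∈ C, b2 (y = v) = 0 := by
    apply Finset.sum_eq_zero
    intro v hv
    apply b2_not_of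
    rintro rfl
    exact hcn ((hC y).mp hv)
  rw [h3, h4, add_zero] at h1
  exact one_ne_zero h1

end H985T
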