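import Pool.Agent.H985R3.TA.Defs2
import Pool.Agent.H985R3.TA.CLD

/-!
# Two-arm project: another landing of the open arm (task EXI)
-/

set_option autoImplicit false

namespace H985T

open H974 Finset

/-- vertical segment -/
theorem EXI_vert {G : Set Edg} (x y : ℤ) (n : ℕ)
    (h : ∀ k : ℕ, k < n → ((x, y + k, false) : Edg) ∈ G) : Reach G (x, y) (x, y + n) := by
  induction n with
  | zero => simpa using Reach.refl G (x, y)
  | succ n ih =>
    refine (ih (fun k hk => h k (by omega))).trans (Adj.reach ⟨(x, y + n, false), h n (by omega), ?_⟩)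
    left
    refine ⟨rfl, ?_⟩
    simp only [tgt_false, Prod.mk.injEq, true_and]
    push_cast; ring

/-- horizontal segment -/
theorem EXI_hor {G : Set Edg} (x y : ℤ) (n : ℕ)
    (h : ∀ k : ℕ, k < n → ((x + k, y, true) : Edg) ∈ G) : Reach G (x, y) (x + n, y) := by
  induction n with
  | zero => simpa using Reach.refl G (x, y)
  | succ n ih =>
    refine (ih (fun k hk => h k (by omega))).trans (Adj.reach ⟨(x + n, y, true), h n (by omega), ?_⟩)
    left
    refine ⟨rfl, ?_⟩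
    simp only [tgt_true, Prod.mk.injEq, and_true]
    push_cast; ring

theorem EXI_vert' {G : Set Edg} (x : ℤ) {y y' : ℤ} (hy : y ≤ y')
    (h : ∀ k : ℤ, y ≤ k → k < y' → ((x, k, false) : Edg) ∈ G) : Reach G (x, y) (x, y') := by
  obtain ⟨n, hn⟩ := Int.eq_ofNat_of_zero_le (sub_nonneg.mpr hy)
  have : y' = y + n := by
    have h1 : ((n : ℕ) : ℤ) = y' - y := hn.symm
    omega
  rw [this]
  exact EXI_vert x y n (fun k hk => h _ (by omega) (by omega))

theorem EXI_hor' {G : Set Edg} (y : ℤ) {x x' : ℤ} (hx : x ≤ x')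
    (h : ∀ k : ℤ, x ≤ k → k < x' → ((k, y, true) : Edg) ∈ G) : Reach G (x, y) (x', y) := by
  obtain ⟨n, hn⟩ := Int.eq_ofNat_of_zero_le (sub_nonneg.mpr hx)
  have : x' = x + n := by
    have h1 : ((n : ℕ) : ℤ) = x' - x := hn.symm
    omega
  rw [this]
  exact EXI_hor x y n (fun k hk => h _ (by omega) (by omega))

/-- the open frame around the box -/
noncomputable def EXI_out (m : ℕ) : Finset Edg :=
  RE (-m - 1) (m + 1) (-m - 1) (m + 1) \ boxE m

theorem EXI_rim (m : ℕ) {u : Vtx} (hu : onB m u) :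
    Reach (↑(EXI_out m) : Set Edg) u (-(m:ℤ) - 1, 0) := by
  obtain ⟨x, y⟩ := u
  obtain ⟨⟨⟨h1, h2⟩, h3, h4⟩, h5⟩ := hu
  simp only at h1 h2 h3 h4 h5
  have hT : ∀ a b : ℤ, -(m:ℤ) - 1 ≤ a → a < m + 1 → -(m:ℤ) - 1 ≤ b → b ≤ m + 1 →
      (a = -(m:ℤ) - 1 ∨ a = m ∨ b = -(m:ℤ) - 1 ∨ b = m + 1) →
      ((a, b, true) : Edg) ∈ (↑(EXI_out m) : Set Edg) := by
    intro a b k1 k2 k3 k4 k5
    rw [Finset.mem_coe, EXI_out, Finset.mem_sdiff, boxE, mem_RE_true, mem_RE_true]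
    omega
  have hF : ∀ a b : ℤ, -(m:ℤ) - 1 ≤ a → a ≤ m + 1 → -(m:ℤ) - 1 ≤ b → b < m + 1 →
      (b = -(m:ℤ) - 1 ∨ b = m ∨ a = -(m:ℤ) - 1 ∨ a = m + 1) →
      ((a, b, false) : Edg) ∈ (↑(EXI_out m) : Set Edg) := by
    intro a b k1 k2 k3 k4 k5
    rw [Finset.mem_coe, EXI_out, Finset.mem_sdiff, boxE, mem_RE_false, mem_RE_false]
    omega
  -- corners
  have c1 : Reach (↑(EXI_out m) : Set Edg) (-(m:ℤ) - 1, 0) (-(m:ℤ) - 1, (m:ℤ) + 1) :=
    EXI_vert' _ (by omega) (fun k k1 k2 => hF _ _ (by omega) (by omega) (by omega) (by omega)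
      (by omega))
  have c2 : Reach (↑(EXI_out m) : Set Edg) (-(m:ℤ) - 1, -(m:ℤ) - 1) (-(m:ℤ) - 1, 0) :=
    EXI_vert' _ (by omega) (fun k k1 k2 => hF _ _ (by omega) (by omega) (by omega) (by omega)
      (by omega))
  rcases h5 with h5 | h5 | h5 | h5
  · -- left
    have s1 : Reach (↑(EXI_out m) : Set Edg) (-(m:ℤ) - 1, y) (x, y) := by
      rw [h5]
      exact EXI_hor' _ (by omega) (fun k k1 k2 => hT _ _ (by omega) (by omega) (by omega)
        (by omega) (by omega))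
    refine s1.symm.trans ?_
    rcases le_total y 0 with h6 | h6
    · exact EXI_vert' _ h6 (fun k k1 k2 => hF _ _ (by omega) (by omega) (by omega) (by omega)
        (by omega))
    · exact (EXI_vert' _ h6 (fun k k1 k2 => hF _ _ (by omega) (by omega) (by omega) (by omega)
        (by omega))).symm
  · -- right
    have s1 : Reach (↑(EXI_out m) : Set Edg) (x, y) ((m:ℤ) + 1, y) := by
      rw [h5]
      exact EXI_hor' _ (by omega) (fun k k1 k2 => hT _ _ (by omega) (by omega) (by omega)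
        (by omega) (by omega))
    have s2 : Reach (↑(EXI_out m) : Set Edg) ((m:ℤ) + 1, y) ((m:ℤ) + 1, (m:ℤ) + 1) :=
      EXI_vert' _ (by omega) (fun k k1 k2 => hF _ _ (by omega) (by omega) (by omega) (by omega)
        (by omega))
    have s3 : Reach (↑(EXI_out m) : Set Edg) (-(m:ℤ) - 1, (m:ℤ) + 1) ((m:ℤ) + 1, (m:ℤ) + 1) :=
      EXI_hor' _ (by omega) (fun k k1 k2 => hT _ _ (by omega) (by omega) (by omega) (by omega)
        (by omega))
    exact ((s1.trans s2).trans s3.symm).trans c1.symm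
  · -- bottom
    have s1 : Reach (↑(EXI_out m) : Set Edg) (x, -(m:ℤ) - 1) (x, y) := by
      rw [h5]
      exact EXI_vert' _ (by omega) (fun k k1 k2 => hF _ _ (by omega) (by omega) (by omega)
        (by omega) (by omega))
    have s2 : Reach (↑(EXI_out m) : Set Edg) (-(m:ℤ) - 1, -(m:ℤ) - 1) (x, -(m:ℤ) - 1) :=
      EXI_hor' _ (by omega) (fun k k1 k2 => hT _ _ (by omega) (by omega) (by omega) (by omega)
        (by omega))
    exact (s1.symm.trans s2.symm).trans c2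
  · -- top
    have s1 : Reach (↑(EXI_out m) : Set Edg) (x, y) (x, (m:ℤ) + 1) := by
      rw [h5]
      exact EXI_vert' _ (by omega) (fun k k1 k2 => hF _ _ (by omega) (by omega) (by omega)
        (by omega) (by omega))
    have s2 : Reach (↑(EXI_out m) : Set Edg) (-(m:ℤ) - 1, (m:ℤ) + 1) (x, (m:ℤ) + 1) :=
      EXI_hor' _ (by omega) (fun k k1 k2 => hT _ _ (by omega) (by omega) (by omega) (by omega)
        (by omega))
    exact (s1.trans s2.symm).trans c1.symm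

/-- dual paths inside the frame stay in the box -/
theorem EXI_inside {m : ℕ} {F : Set Edg} {G : Finset Edg}
    (hG : ∀ e, e ∈ G ↔ (e ∈ F ∧ e ∈ boxE m) ∨ e ∈ EXI_out m) {a b : Vtx}
    (ha : -(m:ℤ) - 1 ≤ a.1 ∧ a.1 ≤ m ∧ -(m:ℤ) - 1 ≤ a.2 ∧ a.2 ≤ m)
    (h : DReach {e : Edg | e ∉ G} a b) :
    (-(m:ℤ) - 1 ≤ b.1 ∧ b.1 ≤ m ∧ -(m:ℤ) - 1 ≤ b.2 ∧ b.2 ≤ m) ∧
      DReach (↑(boxE m) \ F) a b := by
  induction h with
  | refl => exact ⟨ha, DReach.refl _ _⟩
  | @tail b c _ hs ih =>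
    obtain ⟨hb, ihb⟩ := ih
    obtain ⟨e, he, hc⟩ := hs
    have he' : ¬ ((e ∈ F ∧ e ∈ boxE m) ∨ e ∈ EXI_out m) := fun h => he ((hG e).mpr h)
    push Not at he'
    obtain ⟨he1, he2⟩ := he'
    rw [EXI_out, Finset.mem_sdiff] at he2
    push Not at he2
    obtain ⟨b1, b2⟩ := b
    obtain ⟨c1, c2⟩ := c
    have key : e ∈ boxE m ∧ (-(m:ℤ) - 1 ≤ c1 ∧ c1 ≤ m ∧ -(m:ℤ) - 1 ≤ c2 ∧ c2 ≤ m) := by
      obtain ⟨x, y, β⟩ := e
      simp only at hb
      cases β
      · simp only [dsrc_false, dtgt_mk, Prod.mk.injEq] at hc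
        have h1 : ((x, y, false) : Edg) ∈ RE (-(m:ℤ) - 1) ((m:ℤ) + 1) (-(m:ℤ) - 1) ((m:ℤ) + 1) := by
          rw [mem_RE_false]; omega
        have h2 := he2 h1
        refine ⟨h2, ?_⟩
        rw [boxE, mem_RE_false] at h2
        omega
      · simp only [dsrc_true, dtgt_mk, Prod.mk.injEq] at hc
        have h1 : ((x, y, true) : Edg) ∈ RE (-(m:ℤ) - 1) ((m:ℤ) + 1) (-(m:ℤ) - 1) ((m:ℤ) + 1) := by
          rw [mem_RE_true]; omega
        have h2 := he2 h1
        refine ⟨h2, ?_⟩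
        rw [boxE, mem_RE_true] at h2
        omega
    refine ⟨key.2, ihb.tail ⟨e, ⟨key.1, fun hF => he1 hF key.1⟩, hc⟩⟩

/-- a dual path in the box stays in the half ball or reaches its rim -/
theorem EXI_half {m R : ℕ} {y0 : ℤ} {F : Set Edg} {a b : Vtx}
    (ha : ¬ (a.1 < (m:ℤ) - R ∨ a.2 < y0 - R ∨ y0 + R ≤ a.2))
    (h : DReach (↑(boxE m) \ F) a b) :
    (¬ (b.1 < (m:ℤ) - R ∨ b.2 < y0 - R ∨ y0 + R ≤ b.2) ∧ DReach (↑(hbR m y0 R) \ F) a b) ∨
      ∃ z : Vtx, (z.1 < (m:ℤ) - R ∨ z.2 < y0 - R ∨ y0 + R ≤ z.2) ∧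
        DReach (↑(hbR m y0 R) \ F) a z := by
  induction h with
  | refl => exact Or.inl ⟨ha, DReach.refl _ _⟩
  | @tail b c _ hs ih =>
    rcases ih with ⟨hb, ihb⟩ | ih
    · obtain ⟨e, ⟨he1, he2⟩, hc⟩ := hs
      have key : e ∈ hbR m y0 R := by
        obtain ⟨b1, b2⟩ := b
        obtain ⟨c1, c2⟩ := c
        obtain ⟨x, y, β⟩ := e
        simp only at hb
        rw [Finset.mem_coe] at he1
        cases β
        · simp only [dsrc_false, dtgt_mk, Prod.mk.injEq] at hc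
          rw [boxE, mem_RE_false] at he1
          rw [hbR, mem_RE_false]
          omega
        · simp only [dsrc_true, dtgt_mk, Prod.mk.injEq] at hc
          rw [boxE, mem_RE_true] at he1
          rw [hbR, mem_RE_true]
          omega
      have h1 : DReach (↑(hbR m y0 R) \ F) a c := ihb.tail ⟨e, ⟨key, he2⟩, hc⟩
      by_cases hcK : c.1 < (m:ℤ) - R ∨ c.2 < y0 - R ∨ y0 + R ≤ c.2
      · exact Or.inr ⟨c, hcK, h1⟩
      · exact Or.inl ⟨hcK, h1⟩
    · exact Or.inr ih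

/-- vertices reached in the box -/
theorem EXI_box {m : ℕ} {F : Set Edg} {v : Vtx} (h : Reach (F ∩ ↑(boxE m)) (0, 0) v) :
    inR (-m) m (-m) m v := by
  rcases Relation.ReflTransGen.cases_tail h with h1 | ⟨w, _, e, he, hc⟩
  · rw [h1]
    refine ⟨⟨?_, ?_⟩, ?_, ?_⟩ <;> simp
  · obtain ⟨v1, v2⟩ := v
    obtain ⟨w1, w2⟩ := w
    obtain ⟨x, y, β⟩ := e
    have he2 := he.2
    rw [Finset.mem_coe, boxE] at he2
    unfold inR
    simp only
    cases β
    · rw [mem_RE_false] at he2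
      simp only [src_mk, tgt_false, Prod.mk.injEq] at hc
      omega
    · rw [mem_RE_true] at he2
      simp only [src_mk, tgt_true, Prod.mk.injEq] at hc
      omega

/-- the closed part of the frame -/
def EXI_D (m : ℕ) (y0 : ℤ) (r : ℕ) : Set Edg := {e | e.1 = m ∧ e.2.2 = true ∧ |e.2.1 - y0| ≤ r}

theorem EXI_VD {m r : ℕ} {y0 : ℤ} {a : Vtx} (ha : a ∈ VD (EXI_D m y0 r)) :
    a.1 = m ∧ y0 - r - 1 ≤ a.2 ∧ a.2 ≤ y0 + r := by
  obtain ⟨⟨x, y, β⟩, ⟨h1, h2, h3⟩, h4⟩ := ha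
  simp only at h1 h2 h3
  subst h2
  rw [abs_le] at h3
  obtain ⟨a1, a2⟩ := a
  simp only [dsrc_true, dtgt_mk, Prod.mk.injEq] at h4 ⊢
  omega

/-- statement of `closing` -/
def EXI_Cl : Prop := ∀ {G : Finset Edg} {D : Set Edg} {x y c : Vtx} {ρ : ℤ}, D ⊆ eball c ρ →
    (∀ v : Vtx, v = x ∨ v = y →
      ¬ (c.1 - ρ < v.1 ∧ v.1 ≤ c.1 + ρ ∧ c.2 - ρ < v.2 ∧ v.2 ≤ c.2 + ρ)) →
    (∀ a ∈ VD D, ∀ b ∈ VD D, DReach {e : Edg | e ∉ G} a b →
      DReach ({e : Edg | e ∉ G} ∩ eball c ρ) a b) →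
    Reach (↑G : Set Edg) x y → Reach (↑G \ D : Set Edg) x y

theorem exit_right_of (HC : EXI_Cl) {m r R : ℕ} {y0 : ℤ} (hr : 1 ≤ r) (hR : r + 1 ≤ R)
    (hm : |y0| + R + 4 ≤ m)
    {F : Set Edg} (h3 : ¬ H3d m y0 (r + 1) R F)
    (hv : ∃ u, onB m u ∧ Reach (F ∩ ↑(boxE m)) (0, 0) u) :
    ∃ u, onB m u ∧ Reach (F ∩ ↑(boxE m)) (0, 0) u ∧ ¬ (u.1 = m ∧ |u.2 - y0| ≤ r) := by
  classical
  have hy1 : y0 ≤ |y0| := le_abs_self y0
  have hy2 : -y0 ≤ |y0| := neg_le_abs y0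
  set G : Finset Edg := (boxE m).filter (fun e => e ∈ F) ∪ EXI_out m with hGdef
  have hG : ∀ e, e ∈ G ↔ (e ∈ F ∧ e ∈ boxE m) ∨ e ∈ EXI_out m := by
    intro e
    rw [hGdef, Finset.mem_union, Finset.mem_filter]
    tauto
  obtain ⟨u, hu1, hu2⟩ := hv
  have hxy : Reach (↑G : Set Edg) (0, 0) (-(m:ℤ) - 1, 0) := by
    refine (hu2.mono ?_).trans ((EXI_rim m hu1).mono ?_)
    · rintro e ⟨k1, k2⟩
      exact Finset.mem_coe.mpr ((hG e).mpr (Or.inl ⟨k1, Finset.mem_coe.mp k2⟩))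
    · intro e k
      exact Finset.mem_coe.mpr ((hG e).mpr (Or.inr (Finset.mem_coe.mp k)))
  have hD : EXI_D m y0 r ⊆ eball ((m:ℤ), y0) ((R:ℤ) + 1) := by
    rintro ⟨x, y, β⟩ ⟨k1, k2, k3⟩
    simp only at k1 k2 k3
    subst k2
    rw [abs_le] at k3
    refine ⟨⟨?_, ?_⟩, ?_, ?_⟩ <;> simp only [dsrc_true, dtgt_mk] <;> rw [abs_le] <;> omega
  have far : ∀ v : Vtx, v = ((0, 0) : Vtx) ∨ v = (-(m:ℤ) - 1, 0) →
      ¬ (((m:ℤ), y0).1 - ((R:ℤ) + 1) < v.1 ∧ v.1 ≤ ((m:ℤ), y0).1 + ((R:ℤ) + 1) ∧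
        ((m:ℤ), y0).2 - ((R:ℤ) + 1) < v.2 ∧ v.2 ≤ ((m:ℤ), y0).2 + ((R:ℤ) + 1)) := by
    rintro v (rfl | rfl) ⟨k1, -, -, -⟩
    · simp only at k1; omega
    · simp only at k1; omega
  have hcon : ∀ a ∈ VD (EXI_D m y0 r), ∀ b ∈ VD (EXI_D m y0 r), DReach {e : Edg | e ∉ G} a b →
      DReach ({e : Edg | e ∉ G} ∩ eball ((m:ℤ), y0) ((R:ℤ) + 1)) a b := by
    intro a ha b hb hab
    have ha' := EXI_VD ha
    have hb' := EXI_VD hb
    have k1 := (EXI_inside hG (by omega) hab).2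
    have haK : ¬ (a.1 < (m:ℤ) - R ∨ a.2 < y0 - R ∨ y0 + R ≤ a.2) := by omega
    have hbK : ¬ (b.1 < (m:ℤ) - R ∨ b.2 < y0 - R ∨ y0 + R ≤ b.2) := by omega
    have k2 : DReach (↑(hbR m y0 R) \ F) a b := by
      rcases EXI_half haK k1 with ⟨_, h⟩ | ⟨z, hz1, hz2⟩
      · exact h
      rcases EXI_half hbK k1.symm with ⟨_, h⟩ | ⟨z', hz1', hz2'⟩
      · exact h.symm
      by_contra hcon
      apply h3
      obtain ⟨a1, a2⟩ := a
      obtain ⟨b1, b2⟩ := b
      simp only at ha' hb'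
      obtain ⟨rfl, ha2, ha3⟩ := ha'
      obtain ⟨hb1, hb2, hb3⟩ := hb'
      rw [hb1] at hz2' hcon
      refine ⟨a2, b2, ?_, ?_, ⟨z, hz1, hz2⟩, ⟨z', hz1', hz2'⟩, hcon⟩
      · rw [abs_le]; push_cast; omega
      · rw [abs_le]; push_cast; omega
    refine k2.mono ?_
    rintro ⟨x, y, β⟩ ⟨he1, he2⟩
    rw [Finset.mem_coe, hbR] at he1
    cases β
    · rw [mem_RE_false] at he1
      refine ⟨?_, ⟨?_, ?_⟩, ?_, ?_⟩
      · intro h
        rcases (hG _).mp h with h | h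
        · exact he2 h.1
        · rw [EXI_out, Finset.mem_sdiff, boxE, mem_RE_false, mem_RE_false] at h
          omega
      all_goals simp only [dsrc_false, dtgt_mk]; rw [abs_le]; omega
    · rw [mem_RE_true] at he1
      refine ⟨?_, ⟨?_, ?_⟩, ?_, ?_⟩
      · intro h
        rcases (hG _).mp h with h | h
        · exact he2 h.1
        · rw [EXI_out, Finset.mem_sdiff, boxE, mem_RE_true, mem_RE_true] at h
          omega
      all_goals simp only [dsrc_true, dtgt_mk]; rw [abs_le]; omega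
  have hfin := HC hD far hcon hxy
  -- follow the path
  have main : ∀ v, Reach (↑G \ EXI_D m y0 r : Set Edg) (0, 0) v →
      Reach (F ∩ ↑(boxE m)) (0, 0) v ∨
      ∃ u, onB m u ∧ Reach (F ∩ ↑(boxE m)) (0, 0) u ∧ ¬ (u.1 = m ∧ |u.2 - y0| ≤ r) := by
    intro v hv
    induction hv with
    | refl => exact Or.inl (Reach.refl _ _)
    | @tail v w _ hs ih =>
      rcases ih with ih | ih
      · obtain ⟨e, ⟨he1, he2⟩, hc⟩ := hs
        rcases (hG e).mp (Finset.mem_coe.mp he1) with h | h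
        · exact Or.inl (ih.tail ⟨e, ⟨h.1, Finset.mem_coe.mpr h.2⟩, hc⟩)
        · right
          have hbox := EXI_box ih
          refine ⟨v, ?_, ih, ?_⟩
          · refine ⟨hbox, ?_⟩
            obtain ⟨⟨b1, b2⟩, b3, b4⟩ := hbox
            obtain ⟨v1, v2⟩ := v
            obtain ⟨w1, w2⟩ := w
            obtain ⟨x, y, β⟩ := e
            simp only at b1 b2 b3 b4 ⊢
            cases β
            · rw [EXI_out, Finset.mem_sdiff, boxE, mem_RE_false, mem_RE_false] at h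
              simp only [src_mk, tgt_false, Prod.mk.injEq] at hc
              omega
            · rw [EXI_out, Finset.mem_sdiff, boxE, mem_RE_true, mem_RE_true] at h
              simp only [src_mk, tgt_true, Prod.mk.injEq] at hc
              omega
          · rintro ⟨k1, k2⟩
            rw [abs_le] at k2
            obtain ⟨v1, v2⟩ := v
            obtain ⟨w1, w2⟩ := w
            obtain ⟨x, y, β⟩ := e
            simp only at k1 k2
            cases β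
            · rw [EXI_out, Finset.mem_sdiff, boxE, mem_RE_false, mem_RE_false] at h
              simp only [src_mk, tgt_false, Prod.mk.injEq] at hc
              omega
            · rw [EXI_out, Finset.mem_sdiff, boxE, mem_RE_true, mem_RE_true] at h
              simp only [src_mk, tgt_true, Prod.mk.injEq] at hc
              apply he2
              refine ⟨?_, rfl, ?_⟩
              · show x = (m:ℤ)
                omega
              · show |y - y0| ≤ (r:ℤ)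
                rw [abs_le]
                omega
      · exact Or.inr ih
  rcases main _ hfin with h | h
  · exfalso
    obtain ⟨⟨b1, b2⟩, b3, b4⟩ := EXI_box h
    simp only at b1
    omega
  · exact h

theorem exit_right {m r R : ℕ} {y0 : ℤ} (hr : 1 ≤ r) (hR : r + 1 ≤ R) (hm : |y0| + R + 4 ≤ m)
    {F : Set Edg} (h3 : ¬ H3d m y0 (r + 1) R F)
    (hv : ∃ u, onB m u ∧ Reach (F ∩ ↑(boxE m)) (0, 0) u) :
    ∃ u, onB m u ∧ Reach (F ∩ ↑(boxE m)) (0, 0) u ∧ ¬ (u.1 = m ∧ |u.2 - y0| ≤ r) :=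
  exit_right_of (fun h1 h2 h3 h4 => closing h1 h2 h3 h4) hr hR hm h3 hv

end H985T
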