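import Pool.Agent.H985R3.TA.Defs4
import Pool.Agent.H985R3.TA.EXI

/-!
# Two-arm project: another start of the open arm, annulus (task EXII)
-/

set_option autoImplicit false

namespace H985T

open H974 Finset

/-- the closed edges -/
def EXII_D (a : ℕ) (y0 : ℤ) (r : ℕ) : Set Edg :=
  {e | (e.2.2 = true ∧ e.1 = (a:ℤ) - 1 ∧ |e.2.1 - y0| ≤ r) ∨
    (e.2.2 = false ∧ e.1 = (a:ℤ) ∧ y0 - r - 1 ≤ e.2.1 ∧ e.2.1 ≤ y0 + r)}

theorem EXII_VD {a r : ℕ} {y0 : ℤ} {w : Vtx} (hw : w ∈ VD (EXII_D a y0 r)) :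
    (w.1 = (a:ℤ) ∨ w.1 = (a:ℤ) - 1) ∧ y0 - r - 1 ≤ w.2 ∧ w.2 ≤ y0 + r := by
  obtain ⟨⟨x, y, β⟩, h, h4⟩ := hw
  obtain ⟨w1, w2⟩ := w
  rcases h with ⟨h1, h2, h3⟩ | ⟨h1, h2, h3⟩
  · simp only at h1 h2 h3
    subst h1
    rw [abs_le] at h3
    simp only [dsrc_true, dtgt_mk, Prod.mk.injEq] at h4 ⊢
    omega
  · simp only at h1 h2 h3
    subst h1
    simp only [dsrc_false, dtgt_mk, Prod.mk.injEq] at h4 ⊢
    omega

/-- a dual path in the annulus which starts at the right side of the box stays in the half ball or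
reaches its rim -/
theorem EXII_half {a N R : ℕ} {y0 : ℤ} {F : Set Edg} (hm : |y0| + R + 4 ≤ a) {f b : Vtx}
    (hf : (a:ℤ) ≤ f.1 ∧ ¬ ((a:ℤ) + R ≤ f.1 ∨ f.2 < y0 - R ∨ y0 + R ≤ f.2))
    (h : DReach (↑(An a N) \ F) f b) :
    (((a:ℤ) ≤ b.1 ∧ ¬ ((a:ℤ) + R ≤ b.1 ∨ b.2 < y0 - R ∨ y0 + R ≤ b.2)) ∧
        DReach (↑(hbI a y0 R) \ F) f b) ∨
      ∃ z : Vtx, ((a:ℤ) + R ≤ z.1 ∨ z.2 < y0 - R ∨ y0 + R ≤ z.2) ∧
        DReach (↑(hbI a y0 R) \ F) f z := by
  have hy1 : y0 ≤ |y0| := le_abs_self y0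
  have hy2 : -y0 ≤ |y0| := neg_le_abs y0
  induction h with
  | refl => exact Or.inl ⟨hf, DReach.refl _ _⟩
  | @tail b c _ hs ih =>
    rcases ih with ⟨hb, ihb⟩ | ih
    · obtain ⟨e, ⟨he1, he2⟩, hc⟩ := hs
      have key : e ∈ hbI a y0 R ∧ (a:ℤ) ≤ c.1 := by
        obtain ⟨b1, b2⟩ := b
        obtain ⟨c1, c2⟩ := c
        obtain ⟨x, y, β⟩ := e
        simp only at hb
        rw [Finset.mem_coe, An, Finset.mem_sdiff] at he1
        cases β
        · simp only [dsrc_false, dtgt_mk, Prod.mk.injEq] at hc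
          rw [boxE, boxE, mem_RE_false, mem_RE_false] at he1
          rw [hbI, Finset.mem_sdiff, boxE, mem_RE_false, mem_RE_false]
          simp only
          omega
        · simp only [dsrc_true, dtgt_mk, Prod.mk.injEq] at hc
          rw [boxE, boxE, mem_RE_true, mem_RE_true] at he1
          rw [hbI, Finset.mem_sdiff, boxE, mem_RE_true, mem_RE_true]
          simp only
          omega
      have h1 : DReach (↑(hbI a y0 R) \ F) f c := ihb.tail ⟨e, ⟨key.1, he2⟩, hc⟩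
      by_cases hcK : (a:ℤ) + R ≤ c.1 ∨ c.2 < y0 - R ∨ y0 + R ≤ c.2
      · exact Or.inr ⟨c, hcK, h1⟩
      · exact Or.inl ⟨⟨key.2, hcK⟩, h1⟩
    · exact Or.inr ih

/-- vertices reached in the annulus -/
theorem EXII_box {a N : ℕ} (haN : a ≤ N) {F : Set Edg} {u v : Vtx}
    (hu : inR (-a) a (-a) a u) (h : Reach (F ∩ ↑(An a N)) u v) : inR (-N) N (-N) N v := by
  rcases Relation.ReflTransGen.cases_tail h with h1 | ⟨w, _, e, he, hc⟩
  · rw [h1]
    obtain ⟨⟨h1, h2⟩, h3, h4⟩ := hu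
    refine ⟨⟨?_, ?_⟩, ?_, ?_⟩ <;> omega
  · obtain ⟨v1, v2⟩ := v
    obtain ⟨w1, w2⟩ := w
    obtain ⟨x, y, β⟩ := e
    have he2 := he.2
    rw [Finset.mem_coe, An, Finset.mem_sdiff, boxE] at he2
    unfold inR
    simp only
    cases β
    · rw [mem_RE_false] at he2
      simp only [src_mk, tgt_false, Prod.mk.injEq] at hc
      omega
    · rw [mem_RE_true] at he2
      simp only [src_mk, tgt_true, Prod.mk.injEq] at hc
      omega

/-- the origin is joined to the boundary of the box by the edges of the box -/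
theorem EXII_start {a : ℕ} {u : Vtx} (hu : onB a u) : Reach (↑(boxE a) : Set Edg) (0, 0) u := by
  obtain ⟨x, y⟩ := u
  obtain ⟨⟨⟨h1, h2⟩, h3, h4⟩, h5⟩ := hu
  simp only at h1 h2 h3 h4
  have hT : ∀ p q : ℤ, -(a:ℤ) ≤ p → p < a → -(a:ℤ) ≤ q → q ≤ a →
      ((p, q, true) : Edg) ∈ (↑(boxE a) : Set Edg) := by
    intro p q k1 k2 k3 k4
    rw [Finset.mem_coe, boxE, mem_RE_true]
    omega
  have hF : ∀ p q : ℤ, -(a:ℤ) ≤ p → p ≤ a → -(a:ℤ) ≤ q → q < a →
      ((p, q, false) : Edg) ∈ (↑(boxE a) : Set Edg) := by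
    intro p q k1 k2 k3 k4
    rw [Finset.mem_coe, boxE, mem_RE_false]
    omega
  have s1 : Reach (↑(boxE a) : Set Edg) (0, 0) (x, 0) := by
    rcases le_total 0 x with h6 | h6
    · exact EXI_hor' _ h6 (fun k k1 k2 => hT _ _ (by omega) (by omega) (by omega) (by omega))
    · exact (EXI_hor' _ h6 (fun k k1 k2 => hT _ _ (by omega) (by omega) (by omega)
        (by omega))).symm
  have s2 : Reach (↑(boxE a) : Set Edg) (x, 0) (x, y) := by
    rcases le_total 0 y with h6 | h6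
    · exact EXI_vert' _ h6 (fun k k1 k2 => hF _ _ (by omega) (by omega) (by omega) (by omega))
    · exact (EXI_vert' _ h6 (fun k k1 k2 => hF _ _ (by omega) (by omega) (by omega)
        (by omega))).symm
  exact s1.trans s2

/-- faces of the box are isolated when all edges of the box are open -/
theorem EXII_iso {a : ℕ} {G : Finset Edg} (hG : ∀ e ∈ boxE a, e ∈ G) {f b : Vtx}
    (h1 : -(a:ℤ) ≤ f.1 ∧ f.1 < a) (h2 : -(a:ℤ) ≤ f.2 ∧ f.2 < a)
    (h : DReach {e : Edg | e ∉ G} f b) : b = f := by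
  rcases Relation.ReflTransGen.cases_head h with h0 | ⟨w, hs, _⟩
  · exact h0.symm
  · exfalso
    obtain ⟨e, he, hc⟩ := hs
    apply he
    apply hG
    obtain ⟨f1, f2⟩ := f
    obtain ⟨w1, w2⟩ := w
    obtain ⟨x, y, β⟩ := e
    simp only at h1 h2
    cases β
    · simp only [dsrc_false, dtgt_mk, Prod.mk.injEq] at hc
      rw [boxE, mem_RE_false]
      omega
    · simp only [dsrc_true, dtgt_mk, Prod.mk.injEq] at hc
      rw [boxE, mem_RE_true]
      omega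

/-- an edge of the box which is not closed ends outside of the segment -/
theorem EXII_edge {a r : ℕ} {y0 : ℤ} {e : Edg} (he1 : e ∈ boxE a) (he2 : e ∉ EXII_D a y0 r)
    {v w : Vtx} (hc : (src e = v ∧ tgt e = w) ∨ (src e = w ∧ tgt e = v)) :
    inR (-a) a (-a) a w ∧ ¬ (w.1 = a ∧ |w.2 - y0| ≤ r) := by
  obtain ⟨v1, v2⟩ := v
  obtain ⟨w1, w2⟩ := w
  obtain ⟨x, y, β⟩ := e
  unfold inR
  rw [abs_le]
  simp only [EXII_D, Set.mem_ofPred_eq, abs_le] at he2
  cases β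
  · rw [boxE, mem_RE_false] at he1
    simp only [src_mk, tgt_false, Prod.mk.injEq] at hc
    simp at he2
    constructor
    · simp only
      omega
    · rintro ⟨k1, k2, k3⟩
      simp only at k1 k2 k3
      have : x = (a:ℤ) := by omega
      have := he2 this
      omega
  · rw [boxE, mem_RE_true] at he1
    simp only [src_mk, tgt_true, Prod.mk.injEq] at hc
    simp at he2
    constructor
    · simp only
      omega
    · rintro ⟨k1, k2, k3⟩
      simp only at k1 k2 k3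
      have : x = (a:ℤ) - 1 := by omega
      have := he2 this
      omega

/-- an edge of the annulus at a vertex of the box -/
theorem EXII_onA {a N : ℕ} {e : Edg} (he : e ∈ An a N)
    {v w : Vtx} (hc : (src e = v ∧ tgt e = w) ∨ (src e = w ∧ tgt e = v))
    (hv : inR (-a) a (-a) a v) : onB a v := by
  refine ⟨hv, ?_⟩
  obtain ⟨⟨b1, b2⟩, b3, b4⟩ := hv
  obtain ⟨v1, v2⟩ := v
  obtain ⟨w1, w2⟩ := w
  obtain ⟨x, y, β⟩ := e
  simp only at b1 b2 b3 b4 ⊢
  cases β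
  · rw [An, Finset.mem_sdiff, boxE, boxE, mem_RE_false, mem_RE_false] at he
    simp only [src_mk, tgt_false, Prod.mk.injEq] at hc
    omega
  · rw [An, Finset.mem_sdiff, boxE, boxE, mem_RE_true, mem_RE_true] at he
    simp only [src_mk, tgt_true, Prod.mk.injEq] at hc
    omega

/-- an edge of the frame at a vertex of the box -/
theorem EXII_onN {N : ℕ} {e : Edg} (he : e ∈ EXI_out N)
    {v w : Vtx} (hc : (src e = v ∧ tgt e = w) ∨ (src e = w ∧ tgt e = v))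
    (hv : inR (-N) N (-N) N v) : onB N v := by
  refine ⟨hv, ?_⟩
  obtain ⟨⟨b1, b2⟩, b3, b4⟩ := hv
  obtain ⟨v1, v2⟩ := v
  obtain ⟨w1, w2⟩ := w
  obtain ⟨x, y, β⟩ := e
  simp only at b1 b2 b3 b4 ⊢
  cases β
  · rw [EXI_out, Finset.mem_sdiff, boxE, mem_RE_false, mem_RE_false] at he
    simp only [src_mk, tgt_false, Prod.mk.injEq] at hc
    omega
  · rw [EXI_out, Finset.mem_sdiff, boxE, mem_RE_true, mem_RE_true] at he
    simp only [src_mk, tgt_true, Prod.mk.injEq] at hc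
    omega

theorem EXII_far {a N : ℕ} (ha : 1 ≤ a) (hN : 2 * a ≤ N) {v : Vtx}
    (hv : inR (-a) a (-a) a v) (h : onB N v) : False := by
  obtain ⟨⟨b1, b2⟩, b3, b4⟩ := hv
  obtain ⟨-, h⟩ := h
  omega

theorem exit_in {a N r R : ℕ} {y0 : ℤ} (hr : 1 ≤ r) (hR : r + 1 ≤ R) (hm : |y0| + R + 4 ≤ a)
    (hN : 2 * a ≤ N) {F : Set Edg} (h3 : ¬ H3di a y0 (r + 1) R F)
    (hv : ∃ u u', onB a u ∧ onB N u' ∧ Reach (F ∩ ↑(An a N)) u u') :
    ∃ u u', onB a u ∧ onB N u' ∧ Reach (F ∩ ↑(An a N)) u u' ∧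
      ¬ (u.1 = a ∧ |u.2 - y0| ≤ r) := by
  classical
  have hy1 : y0 ≤ |y0| := le_abs_self y0
  have hy2 : -y0 ≤ |y0| := neg_le_abs y0
  have hy0 : 0 ≤ |y0| := abs_nonneg y0
  set G : Finset Edg := (An a N).filter (fun e => e ∈ F) ∪ boxE a ∪ EXI_out N with hGdef
  have hG : ∀ e, e ∈ G ↔ (e ∈ F ∧ e ∈ An a N) ∨ e ∈ boxE a ∨ e ∈ EXI_out N := by
    intro e
    rw [hGdef, Finset.mem_union, Finset.mem_union, Finset.mem_filter]
    tauto
  have hsub : ∀ e : Edg, e ∈ boxE a → e ∈ boxE N := by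
    rintro ⟨x, y, β⟩ he
    cases β
    · rw [boxE, mem_RE_false] at he ⊢
      omega
    · rw [boxE, mem_RE_true] at he ⊢
      omega
  have hG' : ∀ e, e ∈ G ↔ (e ∈ (F ∪ ↑(boxE a) : Set Edg) ∧ e ∈ boxE N) ∨ e ∈ EXI_out N := by
    intro e
    rw [hG, An, Finset.mem_sdiff, Set.mem_union, Finset.mem_coe]
    have := hsub e
    tauto
  obtain ⟨u, u', hu1, hu2, hu3⟩ := hv
  have hxy : Reach (↑G : Set Edg) (0, 0) (-(N:ℤ) - 1, 0) := by
    refine ((EXII_start hu1).mono ?_).trans ((hu3.mono ?_).trans ((EXI_rim N hu2).mono ?_))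
    · intro e k
      exact Finset.mem_coe.mpr ((hG e).mpr (Or.inr (Or.inl (Finset.mem_coe.mp k))))
    · rintro e ⟨k1, k2⟩
      exact Finset.mem_coe.mpr ((hG e).mpr (Or.inl ⟨k1, Finset.mem_coe.mp k2⟩))
    · intro e k
      exact Finset.mem_coe.mpr ((hG e).mpr (Or.inr (Or.inr (Finset.mem_coe.mp k))))
  have hD : EXII_D a y0 r ⊆ eball ((a:ℤ), y0) ((R:ℤ) + 1) := by
    rintro ⟨x, y, β⟩ (⟨k1, k2, k3⟩ | ⟨k1, k2, k3⟩)
    · simp only at k1 k2 k3
      subst k1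
      rw [abs_le] at k3
      refine ⟨⟨?_, ?_⟩, ?_, ?_⟩ <;> simp only [dsrc_true, dtgt_mk] <;> rw [abs_le] <;> omega
    · simp only at k1 k2 k3
      subst k1
      refine ⟨⟨?_, ?_⟩, ?_, ?_⟩ <;> simp only [dsrc_false, dtgt_mk] <;> rw [abs_le] <;> omega
  have far : ∀ v : Vtx, v = ((0, 0) : Vtx) ∨ v = (-(N:ℤ) - 1, 0) →
      ¬ (((a:ℤ), y0).1 - ((R:ℤ) + 1) < v.1 ∧ v.1 ≤ ((a:ℤ), y0).1 + ((R:ℤ) + 1) ∧
        ((a:ℤ), y0).2 - ((R:ℤ) + 1) < v.2 ∧ v.2 ≤ ((a:ℤ), y0).2 + ((R:ℤ) + 1)) := by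
    rintro v (rfl | rfl) ⟨k1, -, -, -⟩
    · simp only at k1; omega
    · simp only at k1; omega
  have hcon : ∀ f ∈ VD (EXII_D a y0 r), ∀ b ∈ VD (EXII_D a y0 r), DReach {e : Edg | e ∉ G} f b →
      DReach ({e : Edg | e ∉ G} ∩ eball ((a:ℤ), y0) ((R:ℤ) + 1)) f b := by
    intro f hf b hb hab
    have hf' := EXII_VD hf
    have hb' := EXII_VD hb
    have hiso : ∀ e ∈ boxE a, e ∈ G := fun e he => (hG e).mpr (Or.inr (Or.inl he))
    by_cases hf1 : f.1 = (a:ℤ) - 1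
    · rw [EXII_iso hiso (by omega) (by omega) hab]
      exact DReach.refl _ _
    by_cases hb1 : b.1 = (a:ℤ) - 1
    · rw [EXII_iso hiso (by omega) (by omega) hab.symm]
      exact DReach.refl _ _
    have k1 := (EXI_inside hG' (by omega) hab).2
    have k1' : DReach (↑(An a N) \ F) f b := by
      refine k1.mono ?_
      rintro e ⟨he1, he2⟩
      rw [Set.mem_union, Finset.mem_coe] at he2
      push Not at he2
      refine ⟨?_, he2.1⟩
      rw [Finset.mem_coe, An, Finset.mem_sdiff]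
      exact ⟨he1, he2.2⟩
    have hfK : (a:ℤ) ≤ f.1 ∧ ¬ ((a:ℤ) + R ≤ f.1 ∨ f.2 < y0 - R ∨ y0 + R ≤ f.2) := by omega
    have hbK : (a:ℤ) ≤ b.1 ∧ ¬ ((a:ℤ) + R ≤ b.1 ∨ b.2 < y0 - R ∨ y0 + R ≤ b.2) := by omega
    have k2 : DReach (↑(hbI a y0 R) \ F) f b := by
      rcases EXII_half hm hfK k1' with ⟨_, h⟩ | ⟨z, hz1, hz2⟩
      · exact h
      rcases EXII_half hm hbK k1'.symm with ⟨_, h⟩ | ⟨z', hz1', hz2'⟩
      · exact h.symm
      by_contra hcon
      apply h3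
      obtain ⟨f1, f2⟩ := f
      obtain ⟨b1, b2⟩ := b
      simp only at hf' hb' hf1 hb1
      have e1 : f1 = (a:ℤ) := by omega
      have e2 : b1 = (a:ℤ) := by omega
      subst e1
      rw [e2] at hz2' hcon
      refine ⟨f2, b2, ?_, ?_, ⟨z, hz1, hz2⟩, ⟨z', hz1', hz2'⟩, hcon⟩
      · rw [abs_le]; push_cast; omega
      · rw [abs_le]; push_cast; omega
    refine k2.mono ?_
    rintro ⟨x, y, β⟩ ⟨he1, he2⟩
    rw [Finset.mem_coe, hbI, Finset.mem_sdiff] at he1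
    cases β
    · rw [boxE, mem_RE_false, mem_RE_false] at he1
      refine ⟨?_, ⟨?_, ?_⟩, ?_, ?_⟩
      · intro h
        rcases (hG _).mp h with h | h | h
        · exact he2 h.1
        · rw [boxE, mem_RE_false] at h
          exact he1.2 h
        · rw [EXI_out, Finset.mem_sdiff, boxE, mem_RE_false, mem_RE_false] at h
          omega
      all_goals simp only [dsrc_false, dtgt_mk]; rw [abs_le]; omega
    · rw [boxE, mem_RE_true, mem_RE_true] at he1
      refine ⟨?_, ⟨?_, ?_⟩, ?_, ?_⟩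
      · intro h
        rcases (hG _).mp h with h | h | h
        · exact he2 h.1
        · rw [boxE, mem_RE_true] at h
          exact he1.2 h
        · rw [EXI_out, Finset.mem_sdiff, boxE, mem_RE_true, mem_RE_true] at h
          omega
      all_goals simp only [dsrc_true, dtgt_mk]; rw [abs_le]; omega
  have hfin := closing hD far hcon hxy
  -- follow the path
  have main : ∀ v, Reach (↑G \ EXII_D a y0 r : Set Edg) (0, 0) v →
      (inR (-a) a (-a) a v ∧ ¬ (v.1 = a ∧ |v.2 - y0| ≤ r)) ∨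
      (∃ u, onB a u ∧ ¬ (u.1 = a ∧ |u.2 - y0| ≤ r) ∧ Reach (F ∩ ↑(An a N)) u v) ∨
      ∃ u u', onB a u ∧ onB N u' ∧ Reach (F ∩ ↑(An a N)) u u' ∧
        ¬ (u.1 = a ∧ |u.2 - y0| ≤ r) := by
    intro v hv
    induction hv with
    | refl =>
      left
      refine ⟨⟨⟨?_, ?_⟩, ?_, ?_⟩, ?_⟩
      · simp
      · simp
      · simp
      · simp
      · rintro ⟨k1, -⟩
        simp only at k1
        omega
    | @tail v w _ hs ih =>
      obtain ⟨e, ⟨he1, he2⟩, hc⟩ := hs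
      rcases ih with ⟨hin, hns⟩ | ⟨u, hu, hns, hr'⟩ | ih
      · rcases (hG e).mp (Finset.mem_coe.mp he1) with h | h | h
        · right; left
          exact ⟨v, EXII_onA h.2 hc hin, hns,
            Relation.ReflTransGen.single ⟨e, ⟨h.1, Finset.mem_coe.mpr h.2⟩, hc⟩⟩
        · left
          exact EXII_edge h he2 hc
        · exfalso
          refine EXII_far (by omega) hN hin (EXII_onN h hc ?_)
          obtain ⟨⟨b1, b2⟩, b3, b4⟩ := hin
          refine ⟨⟨?_, ?_⟩, ?_, ?_⟩ <;> omega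
      · rcases (hG e).mp (Finset.mem_coe.mp he1) with h | h | h
        · right; left
          exact ⟨u, hu, hns, hr'.tail ⟨e, ⟨h.1, Finset.mem_coe.mpr h.2⟩, hc⟩⟩
        · left
          exact EXII_edge h he2 hc
        · right; right
          exact ⟨u, v, hu, EXII_onN h hc (EXII_box (by omega) hu.1 hr'), hr', hns⟩
      · exact Or.inr (Or.inr ih)
  rcases main _ hfin with ⟨⟨⟨b1, b2⟩, b3, b4⟩, -⟩ | ⟨u, hu, -, hr'⟩ | h
  · exfalso
    simp only at b1
    omega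
  · exfalso
    obtain ⟨⟨b1, b2⟩, b3, b4⟩ := EXII_box (by omega) hu.1 hr'
    simp only at b1
    omega
  · exact h

end H985T
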