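import Pool.Agent.H985R3.TA.SELIof
import Pool.Agent.H985R3.TA.EXII

set_option autoImplicit false

namespace H985T

open H974 Finset

theorem sel_det_i {a N ρ r0 R : ℕ} (hρ : 1 ≤ ρ) (hR : 10 * ρ ≤ R) (hr0 : 2 * R + 40 * ρ ≤ r0)
    (ha : 8 * r0 ≤ a) (hN : 2 * a ≤ N) {F : Set Edg} (hA : AA a N F)
    (hG : SelGoodi a N ρ r0 R F) :
    ∃ s s' : Fin 4, ∃ k k' : ℤ, |(ρ:ℤ) * k| + 20 * ρ ≤ a ∧ |(ρ:ℤ) * k'| + 20 * ρ ≤ a ∧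
      (s = s' → 6 * (ρ:ℤ) ≤ |(ρ:ℤ) * k - ρ * k'|) ∧ Lvi a N ρ (ρ * k) ((sy s).φ '' F) ∧
        LfiS a N ρ s' (ρ * k') F :=
  sel_det_i_of exit_in hρ hR hr0 ha hN hA hG

end H985T
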