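import Pool.Agent.H985R3.TA.INDI
import Pool.Agent.H934R3.D74.Defs

/-!
Two-arm project (helper985), task STA: the annulus bound for arbitrary edge sets from the
bound for `pAA` (both arms are truncated to the annulus).
-/

set_option autoImplicit false

namespace H985T

open H974 Finset

/-- first exit of a dual path from the box `N` -/
theorem STA_dexit {N : ℕ} {G : Set Edg} {x y : Vtx}
    (hx : (-(N:ℤ) ≤ x.1 ∧ x.1 < N) ∧ (-(N:ℤ) ≤ x.2 ∧ x.2 < N)) (h : DReach G x y)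
    (hy : ¬ ((-(N:ℤ) ≤ y.1 ∧ y.1 < N) ∧ (-(N:ℤ) ≤ y.2 ∧ y.2 < N))) :
    ∃ w, nb N w ∧ DReach (G ∩ ↑(boxE N)) x w := by
  have key : ∀ w, DReach G x w → (∃ w, nb N w ∧ DReach (G ∩ ↑(boxE N)) x w) ∨
      (((-(N:ℤ) ≤ w.1 ∧ w.1 < N) ∧ (-(N:ℤ) ≤ w.2 ∧ w.2 < N)) ∧
        DReach (G ∩ ↑(boxE N)) x w) := by
    intro w hw
    induction hw with
    | refl => exact Or.inr ⟨hx, DReach.refl _ _⟩
    | @tail w w' _ hs ih =>
      rcases ih with ih | ⟨ih1, ih2⟩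
      · exact Or.inl ih
      · obtain ⟨⟨x0, y0, bo⟩, heG, hcase⟩ := hs
        obtain ⟨w1, w2⟩ := w
        obtain ⟨w1', w2'⟩ := w'
        have hmem : ((x0, y0, bo) : Edg) ∈ boxE N := by
          unfold boxE
          cases bo
          · simp only [dsrc_false, dtgt_mk, Prod.mk.injEq] at hcase
            rw [mem_RE_false]
            simp only at ih1
            omega
          · simp only [dsrc_true, dtgt_mk, Prod.mk.injEq] at hcase
            rw [mem_RE_true]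
            simp only at ih1
            omega
        have hadj : DAdj (G ∩ ↑(boxE N)) (w1, w2) (w1', w2') :=
          ⟨_, ⟨heG, mem_coe.2 hmem⟩, hcase⟩
        have hr := ih2.trans hadj.reach
        by_cases hb : (-(N:ℤ) ≤ w1' ∧ w1' < N) ∧ (-(N:ℤ) ≤ w2' ∧ w2' < N)
        · exact Or.inr ⟨hb, hr⟩
        · left
          refine ⟨(w1', w2'), ?_, hr⟩
          unfold nb
          cases bo
          · simp only [dsrc_false, dtgt_mk, Prod.mk.injEq] at hcase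
            simp only at ih1 ⊢
            omega
          · simp only [dsrc_true, dtgt_mk, Prod.mk.injEq] at hcase
            simp only at ih1 ⊢
            omega
  rcases key y h with h1 | ⟨h1, -⟩
  · exact h1
  · exact absurd h1 hy

/-- the two crossings contain arms through the annulus -/
theorem STA_AA {r R : ℕ} (hR : r + 2 ≤ R) {S F G : Set Edg} (hF : G ⊆ F)
    (hS : ∀ e ∈ S, e ∉ F)
    (h1 : H12S.Crs 0 0 r R G) (h2 : H12S.DCrs 0 0 r R S) : AA (r + 1) (R - 1) F := by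
  have hN : ((R - 1 : ℕ) : ℤ) = (R : ℤ) - 1 := by omega
  constructor
  · obtain ⟨x, y, hx, hy, hr⟩ := h1
    have hx' : inR (-((R - 1 : ℕ):ℤ)) ((R - 1 : ℕ):ℤ) (-((R - 1 : ℕ):ℤ)) ((R - 1 : ℕ):ℤ) x := by
      unfold inR at hx ⊢
      omega
    obtain ⟨u', hu1, hu2, hu3⟩ := first_exit hx' hr (by omega)
    have hon : onB (R - 1) u' := ⟨hu1, hu2⟩
    obtain ⟨v, hv, hv2⟩ := INDI_pexit (b := r + 1) (N := R - 1) (by omega)
      (G := G ∩ ↑(RE (-((R - 1 : ℕ):ℤ)) ((R - 1 : ℕ):ℤ) (-((R - 1 : ℕ):ℤ)) ((R - 1 : ℕ):ℤ)))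
      (F := F) (Set.inter_subset_left.trans hF) (fun e he => mem_coe.1 he.2) hon hu3.symm (by
        unfold inR at hx ⊢
        push_cast
        omega)
    exact ⟨v, u', hv, hon, hv2⟩
  · obtain ⟨x, y, hx, hy, hr⟩ := h2
    unfold inR at hx
    obtain ⟨w', hw', hw2⟩ := STA_dexit (N := R - 1) (G := S) (x := x) (y := y) (by
      omega) hr (by omega)
    obtain ⟨v, hv, hv2⟩ := INDI_dexit (b := r + 1) (N := R - 1) (by omega)
      (G := S ∩ ↑(boxE (R - 1))) (F := F) (fun e he => hS e he.1)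
      (fun e he => mem_coe.1 he.2) hw' hw2.symm (by
        right
        push_cast
        omega)
    exact ⟨v, w', hv, hw', hv2⟩

theorem STA_dadj_trl {s t : ℤ} {F : Set Edg} {u v : Vtx} (h : DAdj ((trl s t).φ '' F) u v) :
    DAdj F (u.1 - s, u.2 - t) (v.1 - s, v.2 - t) := by
  obtain ⟨e, ⟨⟨x, y, b⟩, he, rfl⟩, h⟩ := h
  refine ⟨_, he, ?_⟩
  obtain ⟨u1, u2⟩ := u
  obtain ⟨v1, v2⟩ := v
  cases b
  · simp only [trl_φ, dsrc_false, dtgt_mk, Prod.mk.injEq] at h ⊢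
    omega
  · simp only [trl_φ, dsrc_true, dtgt_mk, Prod.mk.injEq] at h ⊢
    omega

theorem STA_dreach_trl {s t : ℤ} {F : Set Edg} {u v : Vtx} (h : DReach ((trl s t).φ '' F) u v) :
    DReach F (u.1 - s, u.2 - t) (v.1 - s, v.2 - t) := by
  induction h with
  | refl => exact DReach.refl _ _
  | tail _ hs ih => exact ih.trans (STA_dadj_trl hs).reach

theorem STA_crs_trl {s t : ℤ} {r R : ℕ} {F : Set Edg} (h : H12S.Crs s t r R ((trl s t).φ '' F)) :
    H12S.Crs 0 0 r R F := by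
  obtain ⟨x, y, hx, hy, hr⟩ := h
  refine ⟨(x.1 - s, x.2 - t), (y.1 - s, y.2 - t), ?_, ?_, ?_⟩
  · unfold inR at hx ⊢
    simp only
    omega
  · simp only
    omega
  · rw [← (trl s t).reach_iff]
    simpa using hr

theorem STA_dcrs_trl {s t : ℤ} {r R : ℕ} {F : Set Edg}
    (h : H12S.DCrs s t r R ((trl s t).φ '' F)) : H12S.DCrs 0 0 r R F := by
  obtain ⟨x, y, hx, hy, hr⟩ := h
  refine ⟨(x.1 - s, x.2 - t), (y.1 - s, y.2 - t), ?_, ?_, STA_dreach_trl hr⟩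
  · unfold inR at hx ⊢
    simp only
    omega
  · simp only
    omega

theorem STA_mp_inv (s t : ℤ) (S : Finset Edg) : (trl s t).mp ((trl (-s) (-t)).mp S) = S := by
  have := trl_trl (-s) (-t) S
  simpa using this

theorem STA_ok : Ok (fun _ : Edg => (1 / 2 : ℝ)) := okq (by norm_num) (by norm_num)

theorem STA_bound {r R : ℕ} (hR : r + 2 ≤ R) (c1 c2 : ℤ) (S : Finset Edg) :
    H12S.PQ (1/2) S (fun F => H12S.Crs c1 c2 r R ↑F ∧ H12S.DCrs c1 c2 r R (↑(S \ F) : Set Edg)) ≤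
      pAA (r + 1) (R - 1) := by
  obtain ⟨T, rfl⟩ : ∃ T, S = (trl c1 c2).mp T := ⟨_, (STA_mp_inv c1 c2 S).symm⟩
  unfold H12S.PQ
  rw [LSym.pr]
  -- the events for the translated set
  have e1 : Pr (fun _ => (1/2:ℝ)) T (fun F =>
        H12S.Crs c1 c2 r R (↑((trl c1 c2).mp F) : Set Edg) ∧
        H12S.DCrs c1 c2 r R (↑((trl c1 c2).mp T \ (trl c1 c2).mp F) : Set Edg)) ≤
      Pr (fun _ => (1/2:ℝ)) T (fun F =>
        H12S.Crs 0 0 r R (↑F : Set Edg) ∧ H12S.DCrs 0 0 r R (↑(T \ F) : Set Edg)) := by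
    apply Pr_mono STA_ok
    rintro F hF ⟨h1, h2⟩
    rw [LSym.coe_mp] at h1
    rw [← LSym.mp_sdiff, LSym.coe_mp] at h2
    exact ⟨STA_crs_trl h1, STA_dcrs_trl h2⟩
  refine e1.trans ?_
  set U := T ∪ An (r + 1) (R - 1) with hU
  have e2 : Pr (fun _ => (1/2:ℝ)) U (fun F =>
        H12S.Crs 0 0 r R (↑(F ∩ T) : Set Edg) ∧ H12S.DCrs 0 0 r R (↑(T \ (F ∩ T)) : Set Edg)) =
      Pr (fun _ => (1/2:ℝ)) T (fun F =>
        H12S.Crs 0 0 r R (↑F : Set Edg) ∧ H12S.DCrs 0 0 r R (↑(T \ F) : Set Edg)) := by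
    rw [Pr_local (S' := T) (subset_union_left)]
    · apply Pr_congr
      intro F hF
      rw [inter_eq_left.2 hF]
    · intro F _
      rw [inter_assoc, inter_self]
  rw [← e2]
  have e3 : Pr (fun _ => (1/2:ℝ)) U (fun F =>
        H12S.Crs 0 0 r R (↑(F ∩ T) : Set Edg) ∧ H12S.DCrs 0 0 r R (↑(T \ (F ∩ T)) : Set Edg)) ≤
      Pr (fun _ => (1/2:ℝ)) U (fun F => AA (r + 1) (R - 1) (↑F : Set Edg)) := by
    apply Pr_mono STA_ok
    rintro F hF ⟨h1, h2⟩
    refine STA_AA hR ?_ ?_ h1 h2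
    · rw [coe_inter]
      exact Set.inter_subset_left
    · intro e he heF
      rw [mem_coe, mem_sdiff, mem_inter] at he
      exact he.2 ⟨mem_coe.1 heF, he.1⟩
  refine e3.trans (le_of_eq ?_)
  unfold pAA H12S.PQ
  apply Pr_local (subset_union_right)
  intro F _
  rw [coe_inter]
  exact INDI_loc _ _ _

/-- STA from the bound for the annulus -/
theorem st_A_of (hA : ∃ C : ℝ, 0 < C ∧ ∀ a N : ℕ, 1 ≤ a → a ≤ N →
    pAA a N ≤ C * ((a:ℝ) / N) ^ (1/4 : ℝ)) : H934F.St_A := by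
  obtain ⟨C, hC, hA⟩ := hA
  refine ⟨4 * C + 12, by linarith, ?_⟩
  intro r R hr hrR c1 c2 S
  have hr' : (1:ℝ) ≤ r := by exact_mod_cast hr
  have hrR' : (r:ℝ) ≤ R := by exact_mod_cast hrR
  have hR0 : (0:ℝ) < R := by linarith
  have hq0 : (0:ℝ) < (r:ℝ) / R := by positivity
  have hq1 : (r:ℝ) / R ≤ 1 := by rw [div_le_one hR0]; exact hrR'
  by_cases hR : 4 * (r + 2) ≤ R
  · refine (STA_bound (by omega) c1 c2 S).trans ?_
    refine (hA (r + 1) (R - 1) (by omega) (by omega)).trans ?_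
    have hRR : (4:ℝ) * (r + 2) ≤ R := by exact_mod_cast hR
    have e : ((R - 1 : ℕ) : ℝ) = (R:ℝ) - 1 := by
      rw [Nat.cast_sub (by omega)]; simp
    have h4 : (((r + 1 : ℕ) : ℝ) / ((R - 1 : ℕ) : ℝ)) ≤ 4 * ((r:ℝ) / R) := by
      rw [e]
      push_cast
      rw [div_le_iff₀ (by linarith)]
      rw [show 4 * ((r:ℝ) / R) * ((R:ℝ) - 1) = (4 * r * (R - 1)) / R by ring]
      rw [le_div_iff₀ hR0]
      nlinarith
    have h5 : (((r + 1 : ℕ) : ℝ) / ((R - 1 : ℕ) : ℝ)) ^ (1/4 : ℝ) ≤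
        4 * ((r:ℝ) / R) ^ (1/4 : ℝ) := by
      have h0 : (0:ℝ) ≤ ((r + 1 : ℕ) : ℝ) / ((R - 1 : ℕ) : ℝ) := by positivity
      refine (Real.rpow_le_rpow h0 h4 (by norm_num)).trans ?_
      rw [Real.mul_rpow (by norm_num) hq0.le]
      apply mul_le_mul_of_nonneg_right _ (Real.rpow_nonneg hq0.le _)
      calc (4:ℝ) ^ (1/4 : ℝ) ≤ (4:ℝ) ^ (1 : ℝ) :=
            Real.rpow_le_rpow_of_exponent_le (by norm_num) (by norm_num)
        _ = 4 := Real.rpow_one _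
    have h6 : (0:ℝ) ≤ ((r:ℝ) / R) ^ (1/4 : ℝ) := Real.rpow_nonneg hq0.le _
    nlinarith
  · refine (Pr_le_one STA_ok _ _).trans ?_
    have h1 : (R:ℝ) ≤ 12 * r := by
      have : R ≤ 12 * r := by omega
      exact_mod_cast this
    have h2 : (1/12 : ℝ) ≤ (r:ℝ) / R := by
      rw [le_div_iff₀ hR0]; linarith
    have h3 : (r:ℝ) / R ≤ ((r:ℝ) / R) ^ (1/4 : ℝ) := by
      calc (r:ℝ) / R = ((r:ℝ) / R) ^ (1:ℝ) := (Real.rpow_one _).symm
        _ ≤ _ := Real.rpow_le_rpow_of_exponent_ge hq0 hq1 (by norm_num)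
    nlinarith

end H985T
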