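import Pool.Agent.H985R3.TA.Defs4
import Pool.Agent.H985R3.TA.SYM
import Pool.Agent.H974R2.Split

/-!
Two-arm project, task SUMI: union bound over the landing places, annulus.
`sel_sum_i_of` takes the statements of BSLI (`bad_seli`) and SELI (`sel_det_i`) as hypotheses.
-/

set_option autoImplicit false

namespace H985T

open H974 Finset

theorem SUMI_An (s : Fin 4) (a N : ℕ) : (sy s).toLSym.mp (An a N) = An a N := by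
  ext e
  rw [LSym.mem_mp, SYM_symm]
  unfold An
  rw [Finset.mem_sdiff, Finset.mem_sdiff, sy_mem_box, sy_mem_box]

/-- symmetry of one event -/
theorem SUMI_sym {a N ρ : ℕ} {M : ℝ}
    (hM : ∀ (s : Fin 4) (c c' : ℤ), |c| + 20 * ρ ≤ a → |c'| + 20 * ρ ≤ a →
      (s = 0 → 6 * (ρ:ℤ) ≤ |c - c'|) →
      H12S.PQ (1 / 2) (An a N) (fun F => Lvi a N ρ c ↑F ∧ LfiS a N ρ s c' ↑F) ≤ M)
    (s s' : Fin 4) (c c' : ℤ) (hc : |c| + 20 * ρ ≤ a) (hc' : |c'| + 20 * ρ ≤ a)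
    (hs : s = s' → 6 * (ρ:ℤ) ≤ |c - c'|) :
    H12S.PQ (1 / 2) (An a N) (fun F => Lvi a N ρ c ((sy s).φ '' ↑F) ∧
      LfiS a N ρ s' c' ↑F) ≤ M := by
  obtain ⟨s'', h0, h1, -, -⟩ := sy_mul s s'
  have key := (sy s).toLSym.pr (1 / 2) (An a N)
    (fun F => Lvi a N ρ c ↑F ∧ LfiS a N ρ s'' c' ↑F)
  rw [SUMI_An] at key
  have e1 : (fun F : Finset Edg => Lvi a N ρ c ((sy s).φ '' ↑F) ∧ LfiS a N ρ s' c' ↑F) =
      (fun F : Finset Edg => Lvi a N ρ c ↑((sy s).toLSym.mp F) ∧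
        LfiS a N ρ s'' c' ↑((sy s).toLSym.mp F)) := by
    funext F
    have e2 : (↑((sy s).toLSym.mp F) : Set Edg) = (sy s).φ '' ↑F := LSym.coe_mp _ F
    rw [e2]
    unfold LfiS
    have e3 : (sy s'').φ '' ((sy s).φ '' ↑F) = (sy s').φ '' (↑F : Set Edg) := by
      rw [Set.image_image]
      apply Set.image_congr
      intro e _
      exact h1 e
    rw [e3]
  show Pr (fun _ => 1 / 2) (An a N) _ ≤ M
  rw [e1, ← key]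
  exact hM s'' c c' hc hc' (fun h => hs (h0.1 h))

theorem sel_sum_i_of
    (hbad : ∀ η : ℝ, 0 < η → ∃ D₀ : ℕ, 1 ≤ D₀ ∧ ∀ D, D₀ ≤ D → ∀ a N ρ : ℕ, 1 ≤ ρ →
      D * ρ ≤ a → a ≤ 2 * D * ρ → 2 * a ≤ N → ∃ r0 R : ℕ, 10 * ρ ≤ R ∧ 2 * R + 40 * ρ ≤ r0 ∧
        8 * r0 ≤ a ∧
        H12S.PQ (1 / 2) (An a N) (fun F => AA a N ↑F ∧ ¬ SelGoodi a N ρ r0 R ↑F) ≤
          η * pAA (2 * a) N)
    (hsel : ∀ {a N ρ r0 R : ℕ}, 1 ≤ ρ → 10 * ρ ≤ R → 2 * R + 40 * ρ ≤ r0 →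
      8 * r0 ≤ a → 2 * a ≤ N → ∀ {F : Set Edg}, AA a N F → SelGoodi a N ρ r0 R F →
      ∃ s s' : Fin 4, ∃ k k' : ℤ, |(ρ:ℤ) * k| + 20 * ρ ≤ a ∧ |(ρ:ℤ) * k'| + 20 * ρ ≤ a ∧
        (s = s' → 6 * (ρ:ℤ) ≤ |(ρ:ℤ) * k - ρ * k'|) ∧ Lvi a N ρ (ρ * k) ((sy s).φ '' F) ∧
          LfiS a N ρ s' (ρ * k') F) :
    ∀ η : ℝ, 0 < η → ∃ D₀ : ℕ, 100 ≤ D₀ ∧ ∀ D, D₀ ≤ D → ∀ a N ρ : ℕ, 1 ≤ ρ →
    D * ρ ≤ a → a ≤ 2 * D * ρ → 2 * a ≤ N → ∀ M : ℝ, 0 ≤ M →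
    (∀ (s : Fin 4) (c c' : ℤ), |c| + 20 * ρ ≤ a → |c'| + 20 * ρ ≤ a →
      (s = 0 → 6 * (ρ:ℤ) ≤ |c - c'|) →
      H12S.PQ (1 / 2) (An a N) (fun F => Lvi a N ρ c ↑F ∧ LfiS a N ρ s c' ↑F) ≤ M) →
    pAA a N ≤ 16 * (4 * (D:ℝ) + 1) ^ 2 * M + η * pAA (2 * a) N := by
  classical
  intro η hη
  obtain ⟨D₀, hD₀, hD⟩ := hbad η hη
  refine ⟨max 100 D₀, le_max_left _ _, ?_⟩
  intro D hDD a N ρ hρ h1 h2 hN M hM0 hM
  obtain ⟨r0, R, hR, hr0, ha, hb⟩ := hD D (le_trans (le_max_right _ _) hDD) a N ρ hρ h1 h2 hN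
  have hok : Ok (fun _ : Edg => (1 / 2 : ℝ)) := okq (by norm_num) (by norm_num)
  -- the events
  set J : Finset ((Fin 4 × Fin 4) × (ℤ × ℤ)) :=
    (univ ×ˢ univ) ×ˢ (Icc (-(2 * D : ℤ)) (2 * D) ×ˢ Icc (-(2 * D : ℤ)) (2 * D)) with hJ
  let Ev : (Fin 4 × Fin 4) × (ℤ × ℤ) → Finset Edg → Prop := fun j F =>
    (|(ρ:ℤ) * j.2.1| + 20 * ρ ≤ a ∧ |(ρ:ℤ) * j.2.2| + 20 * ρ ≤ a ∧
      (j.1.1 = j.1.2 → 6 * (ρ:ℤ) ≤ |(ρ:ℤ) * j.2.1 - ρ * j.2.2|)) ∧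
      (Lvi a N ρ (ρ * j.2.1) ((sy j.1.1).φ '' ↑F) ∧ LfiS a N ρ j.1.2 (ρ * j.2.2) ↑F)
  have hEv : ∀ j ∈ J, Pr (fun _ => 1 / 2) (An a N) (Ev j) ≤ M := by
    intro j _
    by_cases hcond : |(ρ:ℤ) * j.2.1| + 20 * ρ ≤ a ∧ |(ρ:ℤ) * j.2.2| + 20 * ρ ≤ a ∧
      (j.1.1 = j.1.2 → 6 * (ρ:ℤ) ≤ |(ρ:ℤ) * j.2.1 - ρ * j.2.2|)
    · have hle : Pr (fun _ => 1 / 2) (An a N) (Ev j) ≤
          Pr (fun _ => 1 / 2) (An a N) (fun F => Lvi a N ρ (ρ * j.2.1) ((sy j.1.1).φ '' ↑F) ∧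
            LfiS a N ρ j.1.2 (ρ * j.2.2) ↑F) := Pr_mono hok (fun F _ h => h.2)
      exact hle.trans (SUMI_sym hM j.1.1 j.1.2 _ _ hcond.1 hcond.2.1 hcond.2.2)
    · have h0 : Pr (fun _ => 1 / 2) (An a N) (Ev j) = 0 := by
        unfold Pr
        rw [Ex_congr (g := fun _ => 0) (fun F _ => ind_not_of (fun h => hcond h.1)), Ex_const]
      rw [h0]
      exact hM0
  have hk : ∀ k : ℤ, |(ρ:ℤ) * k| + 20 * ρ ≤ a → k ∈ Icc (-(2 * D : ℤ)) (2 * D) := by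
    intro k hk
    rw [Finset.mem_Icc, ← abs_le]
    by_contra hlt
    push Not at hlt
    have h3 : (ρ:ℤ) * (2 * D + 1) ≤ |(ρ:ℤ) * k| := by
      rw [abs_mul, abs_of_nonneg (by positivity : (0:ℤ) ≤ ρ)]
      apply mul_le_mul_of_nonneg_left _ (by positivity)
      omega
    have h4 : (a:ℤ) ≤ 2 * D * ρ := by exact_mod_cast h2
    have h5 : (1:ℤ) ≤ ρ := by exact_mod_cast hρ
    nlinarith
  have hmain : pAA a N ≤ Pr (fun _ => 1 / 2) (An a N)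
      (fun F => AA a N ↑F ∧ ¬ SelGoodi a N ρ r0 R ↑F) +
      Pr (fun _ => 1 / 2) (An a N) (fun F => ∃ j ∈ J, Ev j F) := by
    unfold pAA
    refine le_trans (Pr_mono hok ?_) (Pr_or_le hok (An a N) _ _)
    intro F hF hA
    by_cases hG : SelGoodi a N ρ r0 R ↑F
    · right
      obtain ⟨s, s', k, k', g1, g2, g3, g4, g5⟩ := hsel hρ hR hr0 ha hN hA hG
      refine ⟨((s, s'), (k, k')), ?_, ⟨g1, g2, g3⟩, g4, g5⟩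
      rw [hJ, Finset.mem_product, Finset.mem_product, Finset.mem_product]
      exact ⟨⟨Finset.mem_univ _, Finset.mem_univ _⟩, hk k g1, hk k' g2⟩
    · left
      exact ⟨hA, hG⟩
  have hsum : Pr (fun _ => 1 / 2) (An a N) (fun F => ∃ j ∈ J, Ev j F) ≤
      16 * (4 * (D:ℝ) + 1) ^ 2 * M := by
    refine (Pr_exists_le hok (An a N) J Ev).trans ?_
    refine (Finset.sum_le_card_nsmul J _ M hEv).trans (le_of_eq ?_)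
    have hcard : (J.card : ℝ) = 16 * (4 * (D:ℝ) + 1) ^ 2 := by
      rw [hJ, Finset.card_product, Finset.card_product, Finset.card_product, Finset.card_univ,
        Fintype.card_fin, Int.card_Icc]
      have : (2 * (D:ℤ) + 1 - -(2 * D)).toNat = 4 * D + 1 := by omega
      rw [this]
      push_cast
      ring
    rw [nsmul_eq_mul, hcard]
  have hb' : Pr (fun _ => 1 / 2) (An a N)
      (fun F => AA a N ↑F ∧ ¬ SelGoodi a N ρ r0 R ↑F) ≤ η * pAA (2 * a) N := hb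
  linarith

end H985T
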