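import Pool.Agent.H985R3.TA.BGDI
import Pool.Agent.H985R3.TA.BGPI
import Pool.Agent.H985R3.TA.BSLI
import Pool.Agent.H985R3.TA.SELI
import Pool.Agent.H985R3.TA.SUMI
import Pool.Agent.H985R3.TA.M1I
import Pool.Agent.H985R3.TA.M2I
import Pool.Agent.H985R3.TA.RECI
import Pool.Agent.H985R3.TA.STAof
import Pool.Agent.H985R3.TA.GLI
import Pool.Agent.H985R3.TA.Main
import Pool.Agent.H934R3.SL.SL

/-!
# Two-arm project: two arms in annuli, upper bound (final assembly)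
-/

set_option autoImplicit false

namespace H985T

open H974 Finset

theorem sel_sum_i : ReciSelSum :=
  sel_sum_i_of bad_seli (fun h1 h2 h3 h4 h5 _ h6 h7 => sel_det_i h1 h2 h3 h4 h5 h6 h7)

theorem AA_upper : ∃ C : ℝ, 0 < C ∧ ∀ a N : ℕ, 1 ≤ a → a ≤ N →
    pAA a N ≤ C * ((a:ℝ) / N) ^ (1/4 : ℝ) :=
  AA_upper_of (fun hb _ hU _ hB => outer_indep hb hU hB) (fun hab hN _ h => AA_mono hab hN h)
    (reci_ineq_of sel_sum_i bad_Gdi bad_Gpi
      (fun hW _ _ _ _ _ _ _ _ _ hl hr hρ hk hc hc' hs hN hn => mid1i hW hl hr hρ hk hc hc' hs hN hn)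
      (fun hW _ _ _ _ _ _ _ _ _ hl hr hρ hk hc hc' hs ha hN hn =>
        mid2i hW hl hr hρ hk hc hc' hs ha hN hn)
      (fun B => glue_in_of pi2_upper H934SL.st_L B)
      (fun ha hc hc' hN _ h1 h2 => AA_of_L ha hc hc' hN h1 h2)
      (fun ha hc hρ hc' hN _ h1 h2 => AA_of_T ha hc hρ hc' hN h1 h2))

theorem st_A : H934F.St_A := st_A_of AA_upper

end H985T
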