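import Pool.Agent.H974R2.Lattice

/-!
# The stability theorem (mod 2 flow argument) for paths in the square lattice

`O` is a finite arena, all edges outside `O` are closed. `D ⊆ O` is open at first (start
environment) and carries the configuration `F` afterwards. `A` is an open path from `x` to `y` in
the start environment. The theorem gives conditions under which `x` and `y` are still connected.
-/

set_option autoImplicit false

namespace H985T

open H974 Finset

/-! ### Chains -/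

/-- vertex-boundary of a primal chain -/
def vb (Z : Edg → ZMod 2) (v : Vtx) : ZMod 2 :=
  Z (v.1, v.2, true) + Z (v.1 - 1, v.2, true) + Z (v.1, v.2, false) + Z (v.1, v.2 - 1, false)

/-- the edges at a vertex -/
def star (v : Vtx) : Finset Edg :=
  {(v.1, v.2, true), (v.1 - 1, v.2, true), (v.1, v.2, false), (v.1, v.2 - 1, false)}

theorem mem_star {v : Vtx} {e : Edg} : e ∈ star v ↔ src e = v ∨ tgt e = v := by
  obtain ⟨x, y, b⟩ := e
  obtain ⟨a, c⟩ := v
  cases b
  · simp only [star, Finset.mem_insert, Finset.mem_singleton, Prod.mk.injEq, src_mk, tgt_false,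
      Bool.false_eq_true, and_false, false_or, and_true]
    constructor
    · rintro (⟨h1, h2⟩ | ⟨h1, h2⟩)
      · exact Or.inl ⟨h1, h2⟩
      · exact Or.inr ⟨h1, by omega⟩
    · rintro (⟨h1, h2⟩ | ⟨h1, h2⟩)
      · exact Or.inl ⟨h1, h2⟩
      · exact Or.inr ⟨h1, by omega⟩
  · simp only [star, Finset.mem_insert, Finset.mem_singleton, Prod.mk.injEq, src_mk, tgt_true,
      Bool.true_eq_false, and_false, or_false, and_true]
    constructor
    · rintro (⟨h1, h2⟩ | ⟨h1, h2⟩)
      · exact Or.inl ⟨h1, h2⟩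
      · exact Or.inr ⟨by omega, h2⟩
    · rintro (⟨h1, h2⟩ | ⟨h1, h2⟩)
      · exact Or.inl ⟨h1, h2⟩
      · exact Or.inr ⟨by omega, h2⟩

theorem sum_star (Z : Edg → ZMod 2) (v : Vtx) : ∑ e ∈ star v, Z e = vb Z v := by
  unfold star vb
  rw [Finset.sum_insert, Finset.sum_insert, Finset.sum_insert, Finset.sum_singleton]
  · ring
  · simp only [Finset.mem_singleton, Prod.mk.injEq, not_and]
    intro _ h; omega
  · simp only [Finset.mem_insert, Finset.mem_singleton, Prod.mk.injEq, Bool.true_eq_false,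
      and_false, or_self, not_false_iff]
  · simp only [Finset.mem_insert, Finset.mem_singleton, Prod.mk.injEq, Bool.true_eq_false,
      and_false, or_false, and_true]
    intro h; omega

theorem src_ne_tgt (e : Edg) : src e ≠ tgt e := by
  obtain ⟨x, y, b⟩ := e
  cases b
  · intro h
    simp only [src_mk, tgt_false, Prod.mk.injEq] at h
    omega
  · intro h
    simp only [src_mk, tgt_true, Prod.mk.injEq] at h
    omega

theorem vb_single (e : Edg) (v : Vtx) :
    vb (fun e' => b2 (e' = e)) v = b2 (src e = v) + b2 (tgt e = v) := by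
  classical
  rw [← sum_star]
  by_cases h : e ∈ star v
  · rw [Finset.sum_eq_single_of_mem e h (fun b _ hb => b2_not_of hb), b2_of rfl]
    rcases mem_star.mp h with h1 | h1
    · have h2 : ¬ tgt e = v := fun h2 => src_ne_tgt e (h1.trans h2.symm)
      rw [b2_of h1, b2_not_of h2, add_zero]
    · have h2 : ¬ src e = v := fun h2 => src_ne_tgt e (h2.trans h1.symm)
      rw [b2_of h1, b2_not_of h2, zero_add]
  · rw [Finset.sum_eq_zero]
    · have h1 := mt mem_star.mpr h
      push Not at h1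
      rw [b2_not_of h1.1, b2_not_of h1.2, add_zero]
    · intro e' he'
      apply b2_not_of
      rintro rfl
      exact h he'

theorem chain_of_reach {G : Set Edg} {x y : Vtx} (h : Reach G x y) :
    ∃ Z : Edg → ZMod 2, (∀ e, Z e ≠ 0 → e ∈ G) ∧
      ∀ v, vb Z v = b2 (x = v) + b2 (y = v) := by
  induction h with
  | refl =>
    refine ⟨fun _ => 0, fun e h => absurd rfl h, ?_⟩
    intro v
    rw [zmod2_add_self]
    simp [vb]
  | @tail y' y'' _ hstep ih =>
    obtain ⟨Z, hZ1, hZ2⟩ := ih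
    obtain ⟨e, he, hcase⟩ := hstep
    refine ⟨fun e' => Z e' + b2 (e' = e), ?_, ?_⟩
    · intro e' h
      by_cases h1 : e' = e
      · rw [h1]; exact he
      · apply hZ1
        intro h0
        apply h
        show Z e' + b2 (e' = e) = 0
        rw [b2_not_of h1, add_zero, h0]
    · intro v
      have e1 : vb (fun e' => Z e' + b2 (e' = e)) v = vb Z v + vb (fun e' => b2 (e' = e)) v := by
        unfold vb; ring
      rw [e1, hZ2, vb_single]
      rcases hcase with ⟨h1, h2⟩ | ⟨h1, h2⟩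
      · rw [h1, h2]
        have := zmod2_add_self (b2 (y' = v))
        linear_combination this
      · rw [h1, h2]
        have := zmod2_add_self (b2 (y' = v))
        linear_combination this

/-- the flow argument -/
theorem flow {C : Finset Vtx} {d : Edg → ZMod 2}
    (h : ∀ e, ¬ (src e ∈ C ↔ tgt e ∈ C) → d e = 0) : ∑ v ∈ C, vb d v = 0 := by
  classical
  have h1 : ∀ v ∈ C, vb d v = ∑ e ∈ C.biUnion star, if e ∈ star v then d e else 0 := by
    intro v hv
    rw [← Finset.sum_filter, ← sum_star]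
    congr 1
    ext e
    rw [Finset.mem_filter, Finset.mem_biUnion]
    constructor
    · intro he; exact ⟨⟨v, hv, he⟩, he⟩
    · intro he; exact he.2
  rw [Finset.sum_congr rfl h1, Finset.sum_comm]
  apply Finset.sum_eq_zero
  intro e _
  have h2 : ∀ v ∈ C, (if e ∈ star v then d e else 0) =
      (if src e = v then d e else 0) + (if tgt e = v then d e else 0) := by
    intro v _
    by_cases h3 : src e = v
    · have h4 : ¬ tgt e = v := fun h4 => src_ne_tgt e (h3.trans h4.symm)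
      rw [if_pos (mem_star.mpr (Or.inl h3)), if_pos h3, if_neg h4, add_zero]
    · by_cases h4 : tgt e = v
      · rw [if_pos (mem_star.mpr (Or.inr h4)), if_neg h3, if_pos h4, zero_add]
      · rw [if_neg (fun h5 => (mem_star.mp h5).elim h3 h4), if_neg h3, if_neg h4, add_zero]
  rw [Finset.sum_congr rfl h2, Finset.sum_add_distrib, Finset.sum_ite_eq, Finset.sum_ite_eq]
  by_cases h3 : src e ∈ C <;> by_cases h4 : tgt e ∈ C
  · rw [if_pos h3, if_pos h4]; exact zmod2_add_self _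
  · rw [h e (fun h5 => h4 (h5.mp h3))]; simp
  · rw [h e (fun h5 => h3 (h5.mpr h4))]; simp
  · rw [if_neg h3, if_neg h4, add_zero]

/-- a coboundary of a function on the faces has no vertex-boundary -/
theorem vb_cob (θ : Vtx → ZMod 2) (v : Vtx) :
    vb (fun e => θ (dsrc e) + θ (dtgt e)) v = 0 := by
  obtain ⟨x, y⟩ := v
  unfold vb
  simp only [dsrc_true, dtgt_mk, dsrc_false]
  have h1 := zmod2_add_self (θ (x, y - 1))
  have h2 := zmod2_add_self (θ (x, y))
  have h3 := zmod2_add_self (θ (x - 1, y - 1))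
  have h4 := zmod2_add_self (θ (x - 1, y))
  linear_combination h1 + h2 + h3 + h4

/-! ### Weighted dual paths -/

/-- dual path through edges of `G` with weight -/
inductive DW (Z : Edg → ZMod 2) (G : Set Edg) (a : Vtx) : Vtx → ZMod 2 → Prop
  | refl : DW Z G a a 0
  | step {b c : Vtx} {k : ZMod 2} {e : Edg} (h : DW Z G a b k) (he : e ∈ G)
      (hc : (dsrc e = b ∧ dtgt e = c) ∨ (dsrc e = c ∧ dtgt e = b)) : DW Z G a c (k + Z e)

variable {Z : Edg → ZMod 2} {G G' : Set Edg} {a b c : Vtx} {k k' : ZMod 2}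

theorem DW.reach (h : DW Z G a b k) : DReach G a b := by
  induction h with
  | refl => exact DReach.refl _ _
  | step _ he hc ih => exact ih.tail ⟨_, he, hc⟩

theorem DW.of_reach (h : DReach G a b) : ∃ k, DW Z G a b k := by
  induction h with
  | refl => exact ⟨0, DW.refl⟩
  | tail _ hs ih =>
    obtain ⟨k, hk⟩ := ih
    obtain ⟨e, he, hc⟩ := hs
    exact ⟨_, hk.step he hc⟩

theorem DW.mono (hG : G ⊆ G') (h : DW Z G a b k) : DW Z G' a b k := by
  induction h with
  | refl => exact DW.refl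
  | step _ he hc ih => exact ih.step (hG he) hc

theorem DW.trans (h : DW Z G a b k) (h' : DW Z G b c k') : DW Z G a c (k + k') := by
  induction h' with
  | refl => rw [add_zero]; exact h
  | step _ he hc ih => rw [← add_assoc]; exact ih.step he hc

theorem DW.single {e : Edg} (he : e ∈ G)
    (hc : (dsrc e = b ∧ dtgt e = c) ∨ (dsrc e = c ∧ dtgt e = b)) : DW Z G b c (Z e) := by
  have := (DW.refl (Z := Z) (G := G) (a := b)).step he hc
  rwa [zero_add] at this

theorem DW.symm (h : DW Z G a b k) : DW Z G b a k := by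
  induction h with
  | refl => exact DW.refl
  | @step b c k e _ he hc ih =>
    have := (DW.single (Z := Z) he hc.symm).trans ih
    rwa [add_comm] at this

/-- inside a set of edges on which `Z` is the coboundary of `φ` -/
theorem DW.exact {φ : Vtx → ZMod 2} (hφ : ∀ e ∈ G, Z e = φ (dsrc e) + φ (dtgt e))
    (h : DW Z G a b k) : k = φ a + φ b := by
  induction h with
  | refl => exact (zmod2_add_self _).symm
  | @step b c k e _ he hc ih =>
    rw [ih, hφ e he]
    rcases hc with ⟨h1, h2⟩ | ⟨h1, h2⟩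
    · rw [h1, h2]
      have := zmod2_add_self (φ b)
      linear_combination this
    · rw [h1, h2]
      have := zmod2_add_self (φ b)
      linear_combination this

theorem DW.zero (hz : ∀ e ∈ G, Z e = 0) (h : DW Z G a b k) : k = 0 := by
  have := DW.exact (φ := fun _ => 0) (fun e he => by rw [hz e he]; simp) h
  simpa using this

/-- a path all of whose end points stay in `B` -/
theorem DW.local {B : Set Vtx} (hB : ∀ c, DReach G a c → c ∈ B) (h : DW Z G a b k) :
    DW Z (G ∩ {e | dsrc e ∈ B ∧ dtgt e ∈ B}) a b k := by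
  induction h with
  | refl => exact DW.refl
  | @step b c k e h he hc ih =>
    have hb : b ∈ B := hB b h.reach
    have hc' : c ∈ B := hB c (h.step he hc).reach
    refine ih.step ⟨he, ?_⟩ hc
    rcases hc with ⟨h1, h2⟩ | ⟨h1, h2⟩
    · exact ⟨h1 ▸ hb, h2 ▸ hc'⟩
    · exact ⟨h1 ▸ hc', h2 ▸ hb⟩

/-- existence of a potential -/
theorem exists_pot (h : ∀ a k, DW Z G a a k → k = 0) :
    ∃ θ : Vtx → ZMod 2, ∀ e ∈ G, Z e = θ (dsrc e) + θ (dtgt e) := by
  classical
  have hs : Equivalence (DReach G) :=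
    ⟨fun a => DReach.refl _ _, fun h => h.symm, fun h h' => h.trans h'⟩
  let S : Setoid Vtx := ⟨DReach G, hs⟩
  have hrep : ∀ a, DReach G (Quotient.out (Quotient.mk S a)) a := fun a => Quotient.mk_out a
  choose θ hθ using fun a => DW.of_reach (Z := Z) (hrep a)
  refine ⟨θ, ?_⟩
  intro e he
  have e1 : DReach G (dsrc e) (dtgt e) := DAdj.reach ⟨e, he, Or.inl ⟨rfl, rfl⟩⟩
  have e2 : Quotient.mk S (dsrc e) = Quotient.mk S (dtgt e) := Quotient.sound e1
  have h1 := hθ (dsrc e)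
  have h2 := hθ (dtgt e)
  rw [← e2] at h2
  have h3 := (h1.step he (Or.inl ⟨rfl, rfl⟩)).trans h2.symm
  have h4 := h _ _ h3
  have h5 := zmod2_add_self (θ (dsrc e))
  have h6 := zmod2_add_self (θ (dtgt e))
  linear_combination h4 - h5 - h6

/-! ### Local exactness -/

/-- ball of faces -/
def ball (a : Vtx) (ρ : ℤ) : Set Vtx := {b | |b.1 - a.1| ≤ ρ ∧ |b.2 - a.2| ≤ ρ}

/-- edges both of whose faces are in the ball -/
def eball (a : Vtx) (ρ : ℤ) : Set Edg := {e | dsrc e ∈ ball a ρ ∧ dtgt e ∈ ball a ρ}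

theorem eball_mono {a : Vtx} {ρ ρ' : ℤ} (h : ρ ≤ ρ') : eball a ρ ⊆ eball a ρ' := by
  rintro e ⟨h1, h2⟩
  exact ⟨⟨h1.1.trans h, h1.2.trans h⟩, ⟨h2.1.trans h, h2.2.trans h⟩⟩

theorem col_sum {x r : ℤ} (n : ℕ) (h : ∀ j : ℤ, r < j → j ≤ r + n → vb Z (x, j) = 0) :
    ∑ l ∈ Finset.Ico (r + 1) (r + n + 1), (Z (x - 1, l, true) + Z (x, l, true)) =
      Z (x, r, false) + Z (x, r + n, false) := by
  induction n with
  | zero => simp [zmod2_add_self]
  | succ n ih =>
    have e1 : r + ((n + 1 : ℕ) : ℤ) + 1 = (r + n + 1) + 1 := by push_cast; ring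
    rw [e1, sum_Ico_int_succ (by omega), ih (fun j h1 h2 => h j h1 (by push_cast; omega))]
    have h1 := h (r + n + 1) (by omega) (by push_cast; omega)
    unfold vb at h1
    simp only at h1
    have e2 : r + ((n + 1 : ℕ) : ℤ) = r + n + 1 := by push_cast; ring
    have e3 : r + (n : ℤ) + 1 - 1 = r + n := by ring
    rw [e3] at h1
    rw [e2]
    have h2 := zmod2_add_self (Z (x, r + n, false))
    have h3 := zmod2_add_self (Z (x, r + n + 1, false))
    linear_combination h1 - h3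

theorem local_exact {p r : ℤ} {q s : ℤ} (hv : ∀ i j : ℤ, p < i → i ≤ q → r < j → j ≤ s →
    vb Z (i, j) = 0) :
    ∃ φ : Vtx → ZMod 2, ∀ e : Edg, p ≤ (dsrc e).1 → (dtgt e).1 ≤ q → r ≤ (dsrc e).2 →
      (dtgt e).2 ≤ s → Z e = φ (dsrc e) + φ (dtgt e) := by
  refine ⟨fun f => ∑ k ∈ Finset.Ico (p + 1) (f.1 + 1), Z (k, r, false) +
    ∑ l ∈ Finset.Ico (r + 1) (f.2 + 1), Z (f.1, l, true), ?_⟩
  rintro ⟨x, y, b⟩ h1 h2 h3 h4
  cases b
  · simp only [dsrc_false, dtgt_mk] at h1 h2 h3 h4 ⊢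
    have e1 : ∑ k ∈ Finset.Ico (p + 1) (x + 1), Z (k, r, false) =
        ∑ k ∈ Finset.Ico (p + 1) (x - 1 + 1), Z (k, r, false) + Z (x, r, false) := by
      rw [sub_add_cancel, sum_Ico_int_succ (by omega)]
    obtain ⟨n, hn⟩ := Int.eq_ofNat_of_zero_le (sub_nonneg.mpr h3)
    have hy : y = r + n := by
      have : ((n : ℕ) : ℤ) = y - r := hn.symm
      omega
    have e2 := col_sum (Z := Z) (x := x) (r := r) n
      (fun j h5 h6 => hv x j (by omega) h2 h5 (by omega))
    rw [← hy, Finset.sum_add_distrib] at e2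
    rw [e1]
    have h5 := zmod2_add_self (∑ k ∈ Finset.Ico (p + 1) (x - 1 + 1), Z (k, r, false))
    have h6 := zmod2_add_self (Z (x, r, false))
    linear_combination -h5 - e2 - h6
  · simp only [dsrc_true, dtgt_mk] at h1 h2 h3 h4 ⊢
    have e1 : ∑ l ∈ Finset.Ico (r + 1) (y + 1), Z (x, l, true) =
        ∑ l ∈ Finset.Ico (r + 1) (y - 1 + 1), Z (x, l, true) + Z (x, y, true) := by
      rw [sub_add_cancel, sum_Ico_int_succ (by omega)]
    rw [e1]
    have h5 := zmod2_add_self (∑ k ∈ Finset.Ico (p + 1) (x + 1), Z (k, r, false))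
    have h6 := zmod2_add_self (∑ l ∈ Finset.Ico (r + 1) (y - 1 + 1), Z (x, l, true))
    linear_combination -h5 - h6

/-! ### The stability theorem -/

/-- closed edges in the start environment (`D` is open) -/
def H0s (O D F : Set Edg) : Set Edg := {e | ¬ (e ∈ O ∧ (e ∈ D ∨ e ∈ F))}

/-- closed edges of the final configuration -/
def Hs (O F : Set Edg) : Set Edg := {e | ¬ (e ∈ O ∧ e ∈ F)}

/-- faces joined to the outside of `O` in the start environment -/
def YY (O D F : Set Edg) : Set Vtx := {b | ∃ e, e ∉ O ∧ DReach (H0s O D F) (dtgt e) b}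

/-- unexplored closed edges -/
def Fresh (O D F : Set Edg) : Set Edg :=
  {e | e ∈ O ∧ e ∉ F ∧ (e ∈ D ∨ (dsrc e ∉ YY O D F ∧ dtgt e ∉ YY O D F))}

/-- faces next to `D` -/
def VD (D : Set Edg) : Set Vtx := {b | ∃ e ∈ D, dsrc e = b ∨ dtgt e = b}

variable {O D F A : Set Edg}

theorem YY_step {e : Edg} (he : e ∈ H0s O D F) (hb : b ∈ YY O D F)
    (hc : (dsrc e = b ∧ dtgt e = c) ∨ (dsrc e = c ∧ dtgt e = b)) : c ∈ YY O D F := by
  obtain ⟨e', he', h⟩ := hb
  exact ⟨e', he', h.tail ⟨e, he, hc⟩⟩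

theorem YY_out {e : Edg} (he : e ∉ O) : dsrc e ∈ YY O D F ∧ dtgt e ∈ YY O D F := by
  have h1 : dtgt e ∈ YY O D F := ⟨e, he, DReach.refl _ _⟩
  have h2 : e ∈ H0s O D F := fun h => he h.1
  exact ⟨YY_step h2 h1 (Or.inr ⟨rfl, rfl⟩), h1⟩

/-- hypotheses of the stability theorem -/
structure StabHyp (O D F A : Set Edg) (x y : Vtx) (l ρ : ℤ) : Prop where
  sub : A ⊆ O ∩ (D ∪ F)
  trap : ∀ a ∈ VD D, ∀ b, DReach (Fresh O D F) a b → b ∈ ball a l
  le : l ≤ ρ
  far : ∀ a ∈ VD D, ∀ v : Vtx, v = x ∨ v = y →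
    ¬ (a.1 - ρ < v.1 ∧ v.1 ≤ a.1 + ρ ∧ a.2 - ρ < v.2 ∧ v.2 ≤ a.2 + ρ)
  near : ∀ a ∈ YY O D F, a ∈ VD D → ∀ b ∈ YY O D F, b ∈ VD D → b ∈ ball a l →
    (∀ e ∈ A, e ∉ eball a l) ∨ DReach (H0s O D F ∩ eball a ρ) a b

variable {x y : Vtx} {l ρ : ℤ}

theorem pot_ball (hZ : ∀ v, vb Z v = b2 (x = v) + b2 (y = v))
    (h : ∀ v : Vtx, v = x ∨ v = y →
      ¬ (a.1 - ρ < v.1 ∧ v.1 ≤ a.1 + ρ ∧ a.2 - ρ < v.2 ∧ v.2 ≤ a.2 + ρ)) :
    ∃ φ : Vtx → ZMod 2, ∀ e ∈ eball a ρ, Z e = φ (dsrc e) + φ (dtgt e) := by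
  obtain ⟨φ, hφ⟩ := local_exact (Z := Z) (p := a.1 - ρ) (r := a.2 - ρ) (q := a.1 + ρ)
    (s := a.2 + ρ) (by
      intro i j h1 h2 h3 h4
      rw [hZ]
      have hx : ¬ x = (i, j) := by
        intro hx
        exact h (i, j) (Or.inl hx.symm) ⟨h1, h2, h3, h4⟩
      have hy : ¬ y = (i, j) := by
        intro hy
        exact h (i, j) (Or.inr hy.symm) ⟨h1, h2, h3, h4⟩
      rw [b2_not_of hx, b2_not_of hy, add_zero])
  refine ⟨φ, ?_⟩
  rintro e ⟨⟨h1, h2⟩, h3, h4⟩
  rw [abs_le] at h1 h2 h3 h4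
  exact hφ e (by omega) (by omega) (by omega) (by omega)

/-- excursions between explored faces have weight 0 -/
theorem exc_zero (H : StabHyp O D F A x y l ρ) (hZA : ∀ e, Z e ≠ 0 → e ∈ A)
    (hZ : ∀ v, vb Z v = b2 (x = v) + b2 (y = v)) (ha : a ∈ YY O D F) (haD : a ∈ VD D)
    (hb : b ∈ YY O D F) (hbD : b ∈ VD D) (h : DW Z (Fresh O D F) a b k) : k = 0 := by
  have h0 : b ∈ ball a l := H.trap a haD b h.reach
  have h1 := h.local (B := ball a l) (fun c hc => H.trap a haD c hc)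
  rcases H.near a ha haD b hb hbD h0 with h2 | h2
  · refine h1.zero ?_
    intro e he
    by_contra h3
    exact h2 e (hZA e h3) he.2
  · obtain ⟨φ, hφ⟩ := pot_ball hZ (H.far a haD)
    have h3 : k = φ a + φ b := by
      refine DW.exact (φ := φ) ?_ h1
      intro e he
      exact hφ e (eball_mono H.le he.2)
    obtain ⟨k', hk'⟩ := DW.of_reach (Z := Z) h2
    have h4 : k' = φ a + φ b := DW.exact (φ := φ) (fun e he => hφ e he.2) hk'
    have h5 : k' = 0 := by
      refine hk'.zero ?_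
      intro e he
      by_contra h6
      have h7 := H.sub (hZA e h6)
      exact he.1 ⟨h7.1, h7.2⟩
    rw [h3, ← h4, h5]

/-- paths from an explored face -/
theorem from_Y (H : StabHyp O D F A x y l ρ) (hZA : ∀ e, Z e ≠ 0 → e ∈ A)
    (hZ : ∀ v, vb Z v = b2 (x = v) + b2 (y = v)) (ha : a ∈ YY O D F)
    (h : DW Z (Hs O F) a c k) :
    (c ∈ YY O D F ∧ k = 0) ∨
      (c ∉ YY O D F ∧ ∃ b ∈ YY O D F, b ∈ VD D ∧ DW Z (Fresh O D F) b c k) := by
  have hH0 : ∀ e ∈ H0s O D F, Z e = 0 := by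
    intro e he
    by_contra h6
    have h7 := H.sub (hZA e h6)
    exact he ⟨h7.1, h7.2⟩
  induction h with
  | refl => exact Or.inl ⟨ha, rfl⟩
  | @step b c k e h he hc ih =>
    by_cases he0 : e ∈ H0s O D F
    · rcases ih with ⟨hb, hk⟩ | ⟨hb, b', hb', hb'D, hk⟩
      · refine Or.inl ⟨YY_step he0 hb hc, ?_⟩
        rw [hk, hH0 e he0, add_zero]
      · right
        have hcY : c ∉ YY O D F := fun hcY => hb (YY_step he0 hcY hc.symm)
        refine ⟨hcY, b', hb', hb'D, ?_⟩
        have heO : e ∈ O := by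
          by_contra heO
          have := YY_out (D := D) (F := F) heO
          rcases hc with ⟨h1, h2⟩ | ⟨h1, h2⟩
          · exact hb (h1 ▸ this.1)
          · exact hb (h2 ▸ this.2)
        refine hk.step ⟨heO, fun hF => he0 ⟨heO, Or.inr hF⟩, Or.inr ?_⟩ hc
        rcases hc with ⟨h1, h2⟩ | ⟨h1, h2⟩
        · rw [h1, h2]; exact ⟨hb, hcY⟩
        · rw [h1, h2]; exact ⟨hcY, hb⟩
    · have he1 : e ∈ O ∧ (e ∈ D ∨ e ∈ F) := not_not.mp he0
      have heF : e ∉ F := fun hF => he ⟨he1.1, hF⟩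
      have heD : e ∈ D := he1.2.resolve_right heF
      have hfr : e ∈ Fresh O D F := ⟨he1.1, heF, Or.inl heD⟩
      have hbD : b ∈ VD D := by
        rcases hc with ⟨h1, h2⟩ | ⟨h1, h2⟩
        · exact ⟨e, heD, Or.inl h1⟩
        · exact ⟨e, heD, Or.inr h2⟩
      have hcD : c ∈ VD D := by
        rcases hc with ⟨h1, h2⟩ | ⟨h1, h2⟩
        · exact ⟨e, heD, Or.inr h2⟩
        · exact ⟨e, heD, Or.inl h1⟩
      rcases ih with ⟨hb, hk⟩ | ⟨hb, b', hb', hb'D, hk⟩
      · rw [hk, zero_add]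
        have h1 := DW.single (Z := Z) hfr hc
        by_cases hcY : c ∈ YY O D F
        · exact Or.inl ⟨hcY, exc_zero H hZA hZ hb hbD hcY hcD h1⟩
        · exact Or.inr ⟨hcY, b, hb, hbD, h1⟩
      · have h1 := hk.step hfr hc
        by_cases hcY : c ∈ YY O D F
        · exact Or.inl ⟨hcY, exc_zero H hZA hZ hb' hb'D hcY hcD h1⟩
        · exact Or.inr ⟨hcY, b', hb', hb'D, h1⟩

/-- trichotomy for paths from an unexplored face -/
theorem from_N (H : StabHyp O D F A x y l ρ) (hZA : ∀ e, Z e ≠ 0 → e ∈ A)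
    (ha : a ∉ YY O D F) (h : DW Z (Hs O F) a c k) :
    (∃ b ∈ YY O D F, ∃ k1 k2, DW Z (Hs O F) a b k1 ∧ DW Z (Hs O F) b c k2 ∧ k = k1 + k2) ∨
      (∃ b ∈ VD D, ∃ k1 k2, DW Z (Fresh O D F) a b k1 ∧ DW Z (Fresh O D F) b c k2 ∧
        k = k1 + k2 ∧ c ∉ YY O D F) ∨
      (DW Z (Fresh O D F) a c k ∧ k = 0 ∧ c ∉ YY O D F) := by
  have hH0 : ∀ e ∈ H0s O D F, Z e = 0 := by
    intro e he
    by_contra h6
    have h7 := H.sub (hZA e h6)
    exact he ⟨h7.1, h7.2⟩
  induction h with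
  | refl => exact Or.inr (Or.inr ⟨DW.refl, rfl, ha⟩)
  | @step b c k e h he hc ih =>
    by_cases hcY : c ∈ YY O D F
    · exact Or.inl ⟨c, hcY, k + Z e, 0, h.step he hc, DW.refl, (add_zero _).symm⟩
    rcases ih with ⟨b', hb', k1, k2, h1, h2, h3⟩ | ⟨b', hb', k1, k2, h1, h2, h3, hb⟩ |
      ⟨h1, h2, hb⟩
    · exact Or.inl ⟨b', hb', k1, k2 + Z e, h1, h2.step he hc, by rw [h3, add_assoc]⟩
    · right; left
      refine ⟨b', hb', k1, k2 + Z e, h1, h2.step ?_ hc, by rw [h3, add_assoc], hcY⟩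
      have heO : e ∈ O := by
        by_contra heO
        have := YY_out (D := D) (F := F) heO
        rcases hc with ⟨h1, h2⟩ | ⟨h1, h2⟩
        · exact hb (h1 ▸ this.1)
        · exact hb (h2 ▸ this.2)
      refine ⟨heO, fun hF => he ⟨heO, hF⟩, Or.inr ?_⟩
      rcases hc with ⟨h1, h2⟩ | ⟨h1, h2⟩
      · rw [h1, h2]; exact ⟨hb, hcY⟩
      · rw [h1, h2]; exact ⟨hcY, hb⟩
    · have heO : e ∈ O := by
        by_contra heO
        have := YY_out (D := D) (F := F) heO
        rcases hc with ⟨h1, h2⟩ | ⟨h1, h2⟩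
        · exact hb (h1 ▸ this.1)
        · exact hb (h2 ▸ this.2)
      have hfr : e ∈ Fresh O D F := by
        refine ⟨heO, fun hF => he ⟨heO, hF⟩, Or.inr ?_⟩
        rcases hc with ⟨h1, h2⟩ | ⟨h1, h2⟩
        · rw [h1, h2]; exact ⟨hb, hcY⟩
        · rw [h1, h2]; exact ⟨hcY, hb⟩
      by_cases heD : e ∈ D
      · right; left
        refine ⟨c, ?_, k + Z e, 0, h1.step hfr hc, DW.refl, (add_zero _).symm, hcY⟩
        rcases hc with ⟨h1, h2⟩ | ⟨h1, h2⟩
        · exact ⟨e, heD, Or.inr h2⟩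
        · exact ⟨e, heD, Or.inl h1⟩
      · right; right
        refine ⟨h1.step hfr hc, ?_, hcY⟩
        rw [h2, zero_add]
        refine hH0 e ?_
        intro h5
        exact hfr.2.1 (h5.2.resolve_left heD)

/-- all closed dual paths of the final configuration have weight 0 -/
theorem closed_zero (H : StabHyp O D F A x y l ρ) (hZA : ∀ e, Z e ≠ 0 → e ∈ A)
    (hZ : ∀ v, vb Z v = b2 (x = v) + b2 (y = v)) (h : DW Z (Hs O F) a a k) : k = 0 := by
  by_cases ha : a ∈ YY O D F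
  · rcases from_Y H hZA hZ ha h with h1 | h1
    · exact h1.2
    · exact absurd ha h1.1
  · rcases from_N H hZA ha h with ⟨b, hb, k1, k2, h1, h2, h3⟩ | ⟨b, hb, k1, k2, h1, h2, h3, -⟩ |
      ⟨-, h1, -⟩
    · have h4 := h2.trans h1
      rcases from_Y H hZA hZ hb h4 with h5 | h5
      · rw [h3, add_comm]; exact h5.2
      · exact absurd hb h5.1
    · have h4 := h2.trans h1
      have h5 := h4.local (B := ball b l) (fun c hc => H.trap b hb c hc)
      obtain ⟨φ, hφ⟩ := pot_ball hZ (H.far b hb)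
      have h6 : k2 + k1 = φ b + φ b := by
        refine DW.exact (φ := φ) ?_ h5
        intro e he
        exact hφ e (eball_mono H.le he.2)
      rw [h3, add_comm, h6]
      exact zmod2_add_self _
    · exact h1

/-- STABILITY THEOREM -/
theorem stability {O : Finset Edg} (H : StabHyp (↑O : Set Edg) D F A x y l ρ)
    (hxy : Reach A x y) : Reach ((↑O : Set Edg) ∩ F) x y := by
  classical
  obtain ⟨Z, hZA, hZ⟩ := chain_of_reach hxy
  obtain ⟨θ, hθ⟩ := exists_pot (Z := Z) (G := Hs (↑O : Set Edg) F)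
    (fun a k h => closed_zero H hZA hZ h)
  by_contra hcon
  -- the cluster of `x`
  have hfin : {v | Reach ((↑O : Set Edg) ∩ F) x v}.Finite := by
    have : {v | Reach ((↑O : Set Edg) ∩ F) x v} ⊆
        insert x ((O.image src ∪ O.image tgt : Finset Vtx) : Set Vtx) := by
      intro v hv
      rcases Relation.ReflTransGen.cases_tail hv with h1 | ⟨w, _, e, he, hc⟩
      · exact Or.inl h1
      · right
        rw [Finset.mem_coe, Finset.mem_union, Finset.mem_image, Finset.mem_image]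
        rcases hc with ⟨_, h2⟩ | ⟨h2, _⟩
        · exact Or.inr ⟨e, he.1, h2⟩
        · exact Or.inl ⟨e, he.1, h2⟩
    exact (Set.Finite.insert x (Finset.finite_toSet _)).subset this
  obtain ⟨C, hC⟩ : ∃ C : Finset Vtx, ∀ v, v ∈ C ↔ Reach ((↑O : Set Edg) ∩ F) x v :=
    ⟨hfin.toFinset, fun v => by rw [Set.Finite.mem_toFinset]; rfl⟩
  have hbd : ∀ e, ¬ (src e ∈ C ↔ tgt e ∈ C) → e ∈ Hs (↑O : Set Edg) F := by
    intro e he h1
    apply he
    rw [hC, hC]
    constructor
    · intro h2; exact h2.tail ⟨e, h1, Or.inl ⟨rfl, rfl⟩⟩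
    · intro h2; exact h2.tail ⟨e, h1, Or.inr ⟨rfl, rfl⟩⟩
  have h1 := flow (C := C) (d := fun e => Z e + (θ (dsrc e) + θ (dtgt e))) (by
    intro e he
    show Z e + (θ (dsrc e) + θ (dtgt e)) = 0
    rw [hθ e (hbd e he)]
    exact zmod2_add_self _)
  have h2 : ∀ v, vb (fun e => Z e + (θ (dsrc e) + θ (dtgt e))) v = b2 (x = v) + b2 (y = v) := by
    intro v
    have h3 := vb_cob θ v
    have h4 := hZ v
    unfold vb at h3 h4 ⊢
    linear_combination h3 + h4
  rw [Finset.sum_congr rfl (fun v _ => h2 v), Finset.sum_add_distrib] at h1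
  have h3 : ∑ v ∈ C, b2 (x = v) = 1 := by
    rw [Finset.sum_eq_single_of_mem x ((hC x).mpr (Reach.refl _ _))
      (fun v _ hv => b2_not_of (fun h => hv h.symm)), b2_of rfl]
  have h4 : ∑ v ∈ C, b2 (y = v) = 0 := by
    apply Finset.sum_eq_zero
    intro v hv
    apply b2_not_of
    rintro rfl
    exact hcon ((hC y).mp hv)
  rw [h3, h4, add_zero] at h1
  exact one_ne_zero h1

end H985T
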