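import Pool.Agent.H12R2.Sep.Defs
import Pool.Agent.H985R3.TA.Stab

/-!
# Two-arm project: definitions
-/

set_option autoImplicit false

namespace H985T

open H974 Finset

/-- Tube of length `L` and half-width `ρ` attached to the side `s` of the box `[-m,m]²` at the
coordinate `c`; `s = 0` right, `1` top, `2` left, `3` bottom. -/
noncomputable def tube (s : Fin 4) (m ρ : ℕ) (c : ℤ) (L : ℕ) : Finset Edg :=
  if s = 0 then RE m (m + L) (c - ρ) (c + ρ)
  else if s = 1 then RE (c - ρ) (c + ρ) m (m + L)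
  else if s = 2 then RE (-m - L) (-m) (c - ρ) (c + ρ)
  else RE (c - ρ) (c + ρ) (-m - L) (-m)

/-- the face `w` is beyond the end of the tube of length `L` on side `s` -/
def beyond (s : Fin 4) (m L : ℕ) (w : Vtx) : Prop :=
  if s = 0 then (m:ℤ) + L ≤ w.1
  else if s = 1 then (m:ℤ) + L ≤ w.2
  else if s = 2 then w.1 < -m - L
  else w.2 < -m - L

/-- Two arms in tubes: the vertex `(0,0)` is joined by an open path in the box and the tube on the
right side to the end of this tube (length `10 ρ`), and the face `f` is joined by a dual path to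
the end of the tube on side `s`, using only the box, the tube on side `s` and the initial part
(length `2 ρ`) of the tube on the right side. -/
def EV (m ρ : ℕ) (c : ℤ) (s : Fin 4) (c' : ℤ) (f : Vtx) (F : Finset Edg) : Prop :=
  (∃ z : Vtx, z.1 = (m:ℤ) + 10 * ρ ∧
      Reach ((↑F : Set Edg) ∩ ↑(boxE m ∪ tube 0 m ρ c (10 * ρ))) (0, 0) z) ∧
    ∃ w : Vtx, beyond s m (10 * ρ) w ∧
      DReach (↑((boxE m ∪ tube 0 m ρ c (2 * ρ) ∪ tube s m ρ c' (10 * ρ)) \ F) : Set Edg) f w

/-- the region of `EV` -/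
noncomputable def EU (m ρ : ℕ) (c : ℤ) (s : Fin 4) (c' : ℤ) : Finset Edg :=
  boxE m ∪ tube 0 m ρ c (10 * ρ) ∪ tube s m ρ c' (10 * ρ)

/-- admissible geometry: tubes away from the corners and from each other -/
structure Geo (B m ρ : ℕ) (c : ℤ) (s : Fin 4) (c' : ℤ) : Prop where
  ρpos : 1 ≤ ρ
  big : m ≤ B * ρ
  small : 40 * ρ ≤ m
  hc : |c| ≤ (m:ℤ) - 20 * ρ
  hc' : |c'| ≤ (m:ℤ) - 20 * ρ
  sep : s = 0 → 6 * (ρ:ℤ) ≤ |c - c'|

/-- the deck transformation `(1/2+n, 1/2+n)` of the odd cylinder (exchanges primal and dual) -/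
def shn (n : ℕ) (e : Edg) : Edg := (trl (n + 1) (n + 1)).φ (dl e)

/-- the configuration on two sheets of the universal cover of the odd cylinder with base `S` -/
def cov (n : ℕ) (S F : Finset Edg) : Set Edg :=
  {e | e ∈ S ∧ e ∈ F} ∪ {e | ∃ g ∈ S, g ∉ F ∧ e = shn n g}

/-- two alternating arms from the vertex `(0,0)` and the face `(0,0)` to the boundary of the box -/
def A2 (m : ℕ) (F : Finset Edg) : Prop :=
  (∃ u : Vtx, onB m u ∧ Reach (↑F : Set Edg) (0, 0) u) ∧
    ∃ w : Vtx, (w.1 < -m ∨ (m:ℤ) ≤ w.1 ∨ w.2 < -m ∨ (m:ℤ) ≤ w.2) ∧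
      DReach (↑(boxE m \ F) : Set Edg) (0, 0) w

/-- the two-arm probability at `p = 1/2` -/
noncomputable def pi2 (m : ℕ) : ℝ := Pr (fun _ => 1 / 2) (boxE m) (A2 m)

end H985T
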