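import Pool.Agent.H985R3.TA.BGDof
import Pool.Agent.H985R3.TA.HPD

/-!
Two-arm project, task BGD: the bad event at the mouth of the tube is unlikely.
-/

set_option autoImplicit false

namespace H985T

open H974 Finset

theorem bad_Gd : ∀ η : ℝ, 0 < η → ∃ B₀ : ℕ, ∀ B, B₀ ≤ B → ∃ A₀ : ℕ, ∀ A, A₀ ≤ A →
    ∀ (l m ρ r : ℕ) (c f0 : ℤ) (U : Finset Edg), 1 ≤ l → r = A * l → ρ = B * r →
      |c| + 20 * ρ ≤ m → (f0 = 0 ∨ f0 = -1) → boxE m ⊆ U →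
      H12S.PQ (1 / 2) U (fun F => A2g (m / 2) (f0, f0) ↑F ∧ ¬ Gd m ρ r (4 * l) c ↑F) ≤
        η * pi2 (m / 2) :=
  bad_Gd_of H3d_prob

end H985T
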