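import Pool.Agent.H985R3.TA.BGDIo2
import Pool.Agent.H985R3.TA.HPI

set_option autoImplicit false

namespace H985T

open H974 Finset

theorem bad_Gdi : ∀ η : ℝ, 0 < η → ∃ B₀ : ℕ, ∀ B, B₀ ≤ B → ∃ A₀ : ℕ, ∀ A, A₀ ≤ A →
    ∀ (l a N ρ r : ℕ) (c : ℤ) (U : Finset Edg), 1 ≤ l → r = A * l → ρ = B * r →
      |c| + 20 * ρ ≤ a → 2 * a ≤ N → An a N ⊆ U →
      H12S.PQ (1 / 2) U (fun F => AA (2 * a) N ↑F ∧ ¬ Gdi a N ρ r (4 * l) c ↑F) ≤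
        η * pAA (2 * a) N :=
  bad_Gdi_of3 H3di_prob

end H985T
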