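import Pool.Agent.H985R3.TA.BGDIof
import Pool.Agent.H985R3.TA.INDI

/-!
Two-arm project, task BGDI: the bad event at the mouth of the inward tube, from the bound of the
three arm event.
-/

set_option autoImplicit false

namespace H985T

open H974 Finset

theorem bad_Gdi_of3 (hH3 : ∃ C c : ℝ, 0 < C ∧ 0 < c ∧ ∀ (a r R : ℕ) (y0 : ℤ) (U : Finset Edg),
    1 ≤ r → r ≤ R → |y0| + R ≤ a → hbI a y0 R ⊆ U →
    H12S.PQ (1 / 2) U (fun F => H3di a y0 r R ↑F) ≤ C * ((r:ℝ) / R) ^ (1 + c)) :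
    ∀ η : ℝ, 0 < η → ∃ B₀ : ℕ, ∀ B, B₀ ≤ B → ∃ A₀ : ℕ, ∀ A, A₀ ≤ A →
    ∀ (l a N ρ r : ℕ) (c : ℤ) (U : Finset Edg), 1 ≤ l → r = A * l → ρ = B * r →
      |c| + 20 * ρ ≤ a → 2 * a ≤ N → An a N ⊆ U →
      H12S.PQ (1 / 2) U (fun F => AA (2 * a) N ↑F ∧ ¬ Gdi a N ρ r (4 * l) c ↑F) ≤
        η * pAA (2 * a) N :=
  bad_Gdi_of hH3 fun hb _ hU _ hB => outer_indep hb hU hB

end H985T
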