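import Pool.Agent.H985R3.TA.BGDof
import Pool.Agent.H985R3.TA.Defs4

/-!
Two-arm project, task BGDI: the bad event at the mouth of the inward tube is unlikely
(from the bound of the three arm event and the independence of the outer annulus).
-/

set_option autoImplicit false

namespace H985T

open H974 Finset

/-- the three arm event depends only on the half ball -/
theorem BGDI_H3di_congr {a : ℕ} {y0 : ℤ} {r R : ℕ} {F G : Set Edg}
    (h : (↑(hbI a y0 R) : Set Edg) \ F = ↑(hbI a y0 R) \ G) :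
    H3di a y0 r R F ↔ H3di a y0 r R G := by
  unfold H3di
  rw [h]

theorem BGDI_hbI_sub2 {a R : ℕ} {y0 : ℤ} (h1 : R ≤ a) (h2 : |y0| + R ≤ a) :
    hbI a y0 R ⊆ boxE (2 * a) := by
  have h3 := abs_le.1 (show |y0| ≤ (a:ℤ) - R by linarith)
  have h1' : (R:ℤ) ≤ a := by exact_mod_cast h1
  unfold hbI boxE
  rintro ⟨x, y, _ | _⟩ h8
  · simp only [mem_RE_false, Finset.mem_sdiff] at h8 ⊢; push_cast; omega
  · simp only [mem_RE_true, Finset.mem_sdiff] at h8 ⊢; push_cast; omega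

theorem BGDI_hbI_sub {a N R : ℕ} {y0 : ℤ} (h1 : R ≤ a) (h2 : |y0| + R ≤ a) (hN : 2 * a ≤ N) :
    hbI a y0 R ⊆ An a N := by
  intro e he
  have h3 := BGDI_hbI_sub2 h1 h2 he
  unfold An
  rw [Finset.mem_sdiff]
  refine ⟨boxE_mono hN h3, ?_⟩
  unfold hbI at he
  exact (Finset.mem_sdiff.1 he).2

/-- a crossing near the side of the box does not use edges outside of the box `2 a` -/
theorem BGDI_dcrs_local {a N : ℕ} {y0 : ℤ} {r R : ℕ} (h1 : |y0| + R + 1 < 2 * a)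
    (h2 : R + 1 < a) {F : Set Edg} (h : H12S.DCrs a y0 r R (↑(An a N) \ F)) :
    H12S.DCrs a y0 r R (↑(An a N ∩ boxE (2 * a)) \ F) := by
  refine H12S.WA_dcrs_local ?_ h
  intro e he hF
  refine ⟨?_, hF.2⟩
  rw [Finset.coe_inter]
  refine ⟨hF.1, ?_⟩
  have h4 := H12S.WA_T_dual he
  have h3 := abs_le.1 (show |y0| ≤ 2 * (a:ℤ) - 1 - R - 1 by linarith)
  rw [Finset.mem_coe]
  unfold boxE
  unfold H12S.WA_P inR at h4
  obtain ⟨x, y, _ | _⟩ := e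
  · simp only [mem_RE_false, dsrc_false, dtgt_mk] at h4 ⊢; push_cast; omega
  · simp only [mem_RE_true, dsrc_true, dtgt_mk] at h4 ⊢; push_cast; omega

/-- the localised bad event -/
def BGDI_Bd (a N ρ r l : ℕ) (c : ℤ) (F : Finset Edg) : Prop :=
  (∃ k : ℤ, |(l:ℤ) * k - c| ≤ ρ ∧ H3di a (l * k) (2 * l) r ↑F) ∨
    (H12S.DCrs a (c + ρ) (2 * r) (ρ / 4) (↑(An a N ∩ boxE (2 * a)) \ ↑F) ∨
      H12S.DCrs a (c - ρ) (2 * r) (ρ / 4) (↑(An a N ∩ boxE (2 * a)) \ ↑F))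

theorem BGDI_not_Gdi {a N ρ r l : ℕ} {c : ℤ} (hρ : 1 ≤ ρ) (hc : |c| + 20 * ρ ≤ a)
    {F : Finset Edg} (h : ¬ Gdi a N ρ r l c ↑F) : BGDI_Bd a N ρ r l c F := by
  have hc0 := abs_nonneg c
  have h4 : ((ρ / 4 : ℕ) : ℤ) ≤ ρ := by exact_mod_cast Nat.div_le_self _ _
  have hρ' : (1:ℤ) ≤ ρ := by exact_mod_cast hρ
  have ha1 : |c + ρ| + ((ρ / 4 : ℕ) : ℤ) + 1 < 2 * a := by
    have := abs_add_le c (ρ:ℤ)
    rw [Nat.abs_cast] at this
    linarith
  have ha2 : |c - ρ| + ((ρ / 4 : ℕ) : ℤ) + 1 < 2 * a := by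
    have := abs_sub c (ρ:ℤ)
    rw [Nat.abs_cast] at this
    linarith
  have ha3 : ρ / 4 + 1 < a := by
    have : ((ρ / 4 : ℕ) : ℤ) + 1 < a := by linarith
    exact_mod_cast this
  unfold Gdi at h
  unfold BGDI_Bd
  by_cases h1 : ∃ k : ℤ, |(l:ℤ) * k - c| ≤ ρ ∧ H3di a (l * k) (2 * l) r (↑F : Set Edg)
  · exact Or.inl h1
  · right
    by_cases h2 : H12S.DCrs a (c + ρ) (2 * r) (ρ / 4) ((↑(An a N) : Set Edg) \ ↑F)
    · exact Or.inl (BGDI_dcrs_local ha1 ha3 h2)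
    · right
      by_cases h3 : H12S.DCrs a (c - ρ) (2 * r) (ρ / 4) ((↑(An a N) : Set Edg) \ ↑F)
      · exact BGDI_dcrs_local ha2 ha3 h3
      · exact absurd ⟨fun k hk hH => h1 ⟨k, hk, hH⟩, h2, h3⟩ h

theorem BGDI_Bd_local {a N ρ r l : ℕ} {c : ℤ} (hr : r ≤ ρ) (hc : |c| + 20 * ρ ≤ a)
    (F : Finset Edg) :
    BGDI_Bd a N ρ r l c F ↔ BGDI_Bd a N ρ r l c (F ∩ boxE (2 * a)) := by
  unfold BGDI_Bd
  have h1 : (↑(An a N ∩ boxE (2 * a)) : Set Edg) \ ↑F =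
      ↑(An a N ∩ boxE (2 * a)) \ ↑(F ∩ boxE (2 * a)) := by
    ext e
    simp only [Finset.coe_inter, Set.mem_sdiff, Finset.mem_coe, Set.mem_inter_iff]
    tauto
  have hc0 := abs_nonneg c
  have hr' : (r:ℤ) ≤ ρ := by exact_mod_cast hr
  have h2 : ∀ k : ℤ, |(l:ℤ) * k - c| ≤ ρ → (H3di a (l * k) (2 * l) r (↑F : Set Edg) ↔
      H3di a (l * k) (2 * l) r (↑(F ∩ boxE (2 * a)) : Set Edg)) := by
    intro k hk
    have hk2 : |(l:ℤ) * k| ≤ |c| + ρ := by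
      have := abs_add_le ((l:ℤ) * k - c) c
      rw [sub_add_cancel] at this
      linarith
    have h5 : hbI a (l * k) r ⊆ boxE (2 * a) := by
      refine BGDI_hbI_sub2 ?_ (by linarith)
      have : (r:ℤ) ≤ a := by linarith
      exact_mod_cast this
    refine BGDI_H3di_congr ?_
    ext e
    simp only [Finset.coe_inter, Set.mem_sdiff, Finset.mem_coe, Set.mem_inter_iff]
    constructor
    · rintro ⟨h3, h4⟩
      exact ⟨h3, fun h5 => h4 h5.1⟩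
    · rintro ⟨h3, h4⟩
      exact ⟨h3, fun h6 => h4 ⟨h6, h5 h3⟩⟩
  rw [h1]
  constructor
  · rintro (⟨k, hk, hH⟩ | h)
    · exact Or.inl ⟨k, hk, (h2 k hk).1 hH⟩
    · exact Or.inr h
  · rintro (⟨k, hk, hH⟩ | h)
    · exact Or.inl ⟨k, hk, (h2 k hk).2 hH⟩
    · exact Or.inr h

theorem bad_Gdi_of (hH3 : ∃ C c : ℝ, 0 < C ∧ 0 < c ∧ ∀ (a r R : ℕ) (y0 : ℤ) (U : Finset Edg),
    1 ≤ r → r ≤ R → |y0| + R ≤ a → hbI a y0 R ⊆ U →
    H12S.PQ (1 / 2) U (fun F => H3di a y0 r R ↑F) ≤ C * ((r:ℝ) / R) ^ (1 + c))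
    (hind : ∀ {b N : ℕ}, b ≤ N → ∀ {U : Finset Edg}, An b N ⊆ U →
      ∀ {Bd : Finset Edg → Prop}, (∀ F, F ⊆ U → (Bd F ↔ Bd (F ∩ boxE b))) →
      H12S.PQ (1 / 2) U (fun F => AA b N ↑F ∧ Bd F) = pAA b N * H12S.PQ (1 / 2) U Bd) :
    ∀ η : ℝ, 0 < η → ∃ B₀ : ℕ, ∀ B, B₀ ≤ B → ∃ A₀ : ℕ, ∀ A, A₀ ≤ A →
    ∀ (l a N ρ r : ℕ) (c : ℤ) (U : Finset Edg), 1 ≤ l → r = A * l → ρ = B * r →
      |c| + 20 * ρ ≤ a → 2 * a ≤ N → An a N ⊆ U →
      H12S.PQ (1 / 2) U (fun F => AA (2 * a) N ↑F ∧ ¬ Gdi a N ρ r (4 * l) c ↑F) ≤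
        η * pAA (2 * a) N := by
  intro η hη
  obtain ⟨κ, hκ, hW⟩ := H12S.win_half
  obtain ⟨C', c', hC', hc', harm⟩ := H12S.win_arm_of
    (fun {q κ n} h {m} hm hmn c1 c2 S => H12S.win_blk h hm hmn c1 c2 S) κ hκ
  obtain ⟨C, c1, hC, hc1, hH3⟩ := hH3
  obtain ⟨B1, hB1⟩ := BGD_small hc' (2 * C') 16 (half_pos hη)
  refine ⟨max B1 8, fun B hB => ?_⟩
  obtain ⟨A1, hA1⟩ := BGD_small hc1 (24 * B * C) 8 (half_pos hη)
  refine ⟨max A1 8, fun A hA => ?_⟩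
  intro l m N0 ρ r c U hl hr hρ hcm hN0 hU
  have hB8 : 8 ≤ B := le_trans (le_max_right _ _) hB
  have hA8 : 8 ≤ A := le_trans (le_max_right _ _) hA
  have hB2 := hB1 B (le_trans (le_max_left _ _) hB)
  have hA2 := hA1 A (le_trans (le_max_left _ _) hA)
  have ok : Ok (fun _ : Edg => (1/2:ℝ)) := okq (by norm_num) (by norm_num)
  have hr8 : 8 * l ≤ r := by rw [hr]; exact Nat.mul_le_mul_right l hA8
  have hρ8 : 8 * r ≤ ρ := by rw [hρ]; exact Nat.mul_le_mul_right r hB8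
  have hc0 := abs_nonneg c
  have hρm : 20 * ρ ≤ m := by
    have : (20 * ρ : ℤ) ≤ m := by linarith
    exact_mod_cast this
  have hBd : ∀ F, F ⊆ U → (BGDI_Bd m N0 ρ r (4 * l) c F ↔
      BGDI_Bd m N0 ρ r (4 * l) c (F ∩ boxE (2 * m))) :=
    fun F _ => BGDI_Bd_local (by omega) hcm F
  have h1 : H12S.PQ (1 / 2) U
      (fun F => AA (2 * m) N0 ↑F ∧ ¬ Gdi m N0 ρ r (4 * l) c ↑F) ≤
      H12S.PQ (1 / 2) U (fun F => AA (2 * m) N0 ↑F ∧ BGDI_Bd m N0 ρ r (4 * l) c F) :=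
    Pr_mono ok fun F _ hF => ⟨hF.1, BGDI_not_Gdi (by omega) hcm hF.2⟩
  have hAn : An (2 * m) N0 ⊆ U := by
    refine subset_trans ?_ hU
    unfold An
    exact Finset.sdiff_subset_sdiff (subset_refl _) (boxE_mono (by omega))
  have h2 := hind hN0 hAn (Bd := BGDI_Bd m N0 ρ r (4 * l) c) hBd
  -- the three arm events
  have hA0 : (0:ℝ) < A := by exact_mod_cast (by omega : 0 < A)
  have hB0 : (0:ℝ) < B := by exact_mod_cast (by omega : 0 < B)
  have hl0 : (0:ℝ) < l := by exact_mod_cast (by omega : 0 < l)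
  set N := B * A with hN
  have hρN : ρ = N * l := by rw [hρ, hr, hN, mul_assoc]
  have hN2 : 2 ≤ N := by
    have : 8 * 8 ≤ B * A := Nat.mul_le_mul hB8 hA8
    omega
  set L : ℕ := 4 * l with hL
  set T := Finset.Icc (c / (L : ℤ) - N) (c / (L : ℤ) + N) with hT
  have hTc : (T.card : ℝ) ≤ 3 * (B * A) := by
    have h3 : T.card = 2 * N + 1 := by
      rw [hT, Int.card_Icc]
      omega
    rw [h3]
    have h4 : (2:ℝ) ≤ N := by exact_mod_cast hN2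
    have h5 : (N:ℝ) = B * A := by rw [hN]; push_cast; ring
    push_cast
    rw [← h5]
    linarith
  have hx0 : (0:ℝ) ≤ C * ((8:ℝ) / A) ^ (1 + c1) := by positivity
  have h3 : H12S.PQ (1 / 2) U (fun F => ∃ k : ℤ, |(L:ℤ) * k - c| ≤ ρ ∧
      H3di m (L * k) (2 * L) r ↑F) ≤ T.card * (C * ((8:ℝ) / A) ^ (1 + c1)) := by
    refine le_trans (Pr_mono (B := fun F => ∃ k ∈ T, |(L:ℤ) * k - c| ≤ ρ ∧
      H3di m (L * k) (2 * L) r ↑F) ok fun F _ => ?_) (BGD_union ok U T _ fun k _ => ?_)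
    · rintro ⟨k, hk, hF⟩
      exact ⟨k, BGD_count hl hρN hN2 hk, hk, hF⟩
    · by_cases hk : |(L:ℤ) * k - c| ≤ ρ
      · have h4 : |(L:ℤ) * k| + r ≤ m := by
          have h5 := abs_le.1 hk
          have h6 := abs_le.1 (le_refl |c|)
          have h7 : |(L:ℤ) * k| ≤ |c| + ρ := by
            rw [abs_le]
            constructor
            · linarith
            · linarith
          have h8 : (8 * r : ℤ) ≤ ρ := by exact_mod_cast hρ8
          have h9 : (0:ℤ) ≤ r := by positivity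
          linarith
        have h5 : hbI m (L * k) r ⊆ U := (BGDI_hbI_sub (by omega) h4 hN0).trans hU
        have h6 := hH3 m (2 * L) r (L * k) U (by omega) (by omega) h4 h5
        have h7 : ((2 * L : ℕ) : ℝ) / r = 8 / A := by
          rw [hr, hL]
          push_cast
          field_simp
          ring
        rw [h7] at h6
        exact le_trans (Pr_mono ok fun F _ hF => hF.2) h6
      · refine le_trans (le_of_eq ?_) hx0
        have h4 : Pr (fun _ : Edg => (1/2:ℝ)) U (fun F => |(L:ℤ) * k - c| ≤ ρ ∧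
            H3di m (L * k) (2 * L) r ↑F) ≤ 0 := by
          unfold Pr
          refine Ex_le_of_le ok fun F _ => ?_
          rw [ind_not_of (fun h => hk h.1)]
        exact le_antisymm h4 (Pr_nonneg ok _ _)
  have h4 : (T.card : ℝ) * (C * ((8:ℝ) / A) ^ (1 + c1)) ≤ η / 2 := by
    have h5 : ((8:ℝ) / A) ^ (1 + c1) = (8 / A) * (8 / A) ^ c1 := by
      rw [Real.rpow_add (by positivity), Real.rpow_one]
    have h6 := mul_le_mul_of_nonneg_right hTc hx0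
    refine le_trans h6 (le_trans (le_of_eq ?_) hA2)
    rw [h5]
    field_simp
    ring
  -- the corners
  have h5 : ∀ y0 : ℤ, H12S.PQ (1 / 2) U (fun F => H12S.DCrs m y0 (2 * r) (ρ / 4)
      (↑(An m N0 ∩ boxE (2 * m)) \ ↑F)) ≤ C' * ((16:ℝ) / B) ^ c' := by
    intro y0
    have h6 := (harm (1/2) (ρ / 4) (hW (ρ / 4)) (2 * r) (ρ / 4) (by omega) (by omega) le_rfl
      m y0 U).2
    refine le_trans (Pr_mono ok fun F _ hF => BGD_dcrs_mono ?_ hF) (le_trans h6 ?_)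
    · intro e he
      rw [Finset.coe_sdiff]
      refine ⟨hU ?_, he.2⟩
      have := he.1
      rw [Finset.mem_coe, Finset.mem_inter] at this
      exact this.1
    · refine mul_le_mul_of_nonneg_left ?_ hC'.le
      refine Real.rpow_le_rpow (by positivity) ?_ hc'.le
      have hr0 : (0:ℝ) < r := by exact_mod_cast (by omega : 0 < r)
      have h7 : (ρ:ℝ) / 8 ≤ ((ρ / 4 : ℕ) : ℝ) := by
        have h8 : ρ ≤ 8 * (ρ / 4) := by omega
        have h9 : (ρ:ℝ) ≤ 8 * ((ρ / 4 : ℕ) : ℝ) := by exact_mod_cast h8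
        linarith
      have h8 : (ρ:ℝ) = B * r := by rw [hρ]; push_cast; ring
      rw [h8] at h7
      have h9 : (0:ℝ) < ((ρ / 4 : ℕ) : ℝ) := lt_of_lt_of_le (by positivity) h7
      rw [div_le_div_iff₀ h9 hB0]
      push_cast
      nlinarith
  have h6 : H12S.PQ (1 / 2) U (BGDI_Bd m N0 ρ r L c) ≤ η := by
    have h7 := Pr_or_le ok U (fun F => ∃ k : ℤ, |(L:ℤ) * k - c| ≤ ρ ∧
      H3di m (L * k) (2 * L) r ↑F) (fun F =>
        H12S.DCrs m (c + ρ) (2 * r) (ρ / 4) (↑(An m N0 ∩ boxE (2 * m)) \ ↑F) ∨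
        H12S.DCrs m (c - ρ) (2 * r) (ρ / 4) (↑(An m N0 ∩ boxE (2 * m)) \ ↑F))
    have h8 := Pr_or_le ok U
      (fun F => H12S.DCrs m (c + ρ) (2 * r) (ρ / 4) (↑(An m N0 ∩ boxE (2 * m)) \ ↑F))
      (fun F => H12S.DCrs m (c - ρ) (2 * r) (ρ / 4) (↑(An m N0 ∩ boxE (2 * m)) \ ↑F))
    have h9 := h5 (c + ρ)
    have h10 := h5 (c - ρ)
    refine le_trans h7 ?_
    have h11 := le_trans h3 h4
    unfold H12S.PQ at h9 h10 h11
    linarith
  refine le_trans h1 (le_of_eq_of_le h2 ?_)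
  rw [mul_comm]
  exact mul_le_mul_of_nonneg_right h6 (Pr_nonneg ok _ _)

end H985T
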