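import Pool.Agent.H985R3.TA.IND
import Pool.Agent.H12R2.Sep.Win2
import Pool.Agent.H12R2.Sep.WinHalf
import Pool.Agent.H12R2.Sep.Win1

/-!
Two-arm project, task BGD: the bad event at the mouth of the tube is unlikely
(from the bound of the three arm event).
-/

set_option autoImplicit false

namespace H985T

open H974 Finset

/-- union bound -/
theorem BGD_union {ι : Type*} {p : Edg → ℝ} (hp : Ok p) (S : Finset Edg) (T : Finset ι)
    (A : ι → Finset Edg → Prop) {x : ℝ} (h : ∀ i ∈ T, Pr p S (A i) ≤ x) :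
    Pr p S (fun F => ∃ i ∈ T, A i F) ≤ T.card * x := by
  classical
  induction T using Finset.induction_on with
  | empty =>
    have h1 : Pr p S (fun F => ∃ i ∈ (∅ : Finset ι), A i F) ≤ 0 := by
      unfold Pr
      refine Ex_le_of_le hp fun F _ => ?_
      rw [ind_not_of (by simp)]
    simpa using h1
  | insert a T ha ih =>
    have h1 : Pr p S (fun F => ∃ i ∈ insert a T, A i F) ≤
        Pr p S (fun F => A a F ∨ ∃ i ∈ T, A i F) := by
      refine Pr_mono hp fun F _ => ?_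
      rintro ⟨i, hi, hF⟩
      rcases Finset.mem_insert.1 hi with h2 | h2
      · exact Or.inl (h2 ▸ hF)
      · exact Or.inr ⟨i, h2, hF⟩
    have h2 := Pr_or_le hp S (A a) (fun F => ∃ i ∈ T, A i F)
    have h3 := ih fun i hi => h i (Finset.mem_insert_of_mem hi)
    have h4 := h a (Finset.mem_insert_self a T)
    rw [Finset.card_insert_of_notMem ha]
    push_cast
    linarith

/-- `K (a / n) ^ c` is small for large `n`. -/
theorem BGD_small {c : ℝ} (hc : 0 < c) (K a : ℝ) {η : ℝ} (hη : 0 < η) :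
    ∃ N : ℕ, ∀ n : ℕ, N ≤ n → K * (a / n) ^ c ≤ η := by
  have h1 : Filter.Tendsto (fun n : ℕ => a / (n:ℝ)) Filter.atTop (nhds 0) :=
    tendsto_const_div_atTop_nhds_zero_nat a
  have h2 : Filter.Tendsto (fun n : ℕ => (a / (n:ℝ)) ^ c) Filter.atTop (nhds ((0:ℝ) ^ c)) :=
    h1.rpow_const (Or.inr hc.le)
  rw [Real.zero_rpow hc.ne'] at h2
  have h3 := h2.const_mul K
  rw [mul_zero] at h3
  have h4 := h3.eventually (gt_mem_nhds hη)
  obtain ⟨N, hN⟩ := Filter.eventually_atTop.1 h4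
  exact ⟨N, fun n hn => (hN n hn).le⟩

/-- the three arm event depends only on the half ball -/
theorem BGD_H3d_congr {m : ℕ} {y0 : ℤ} {r R : ℕ} {F G : Set Edg}
    (h : (↑(hbR m y0 R) : Set Edg) \ F = ↑(hbR m y0 R) \ G) :
    H3d m y0 r R F ↔ H3d m y0 r R G := by
  unfold H3d
  rw [h]

theorem BGD_hbR_sub {m R : ℕ} {y0 : ℤ} (h1 : R ≤ m) (h2 : |y0| + R ≤ m) :
    hbR m y0 R ⊆ boxE m := by
  have h3 := abs_le.1 (show |y0| ≤ (m:ℤ) - R by linarith)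
  have h1' : (R:ℤ) ≤ m := by exact_mod_cast h1
  unfold hbR boxE
  rintro ⟨x, y, _ | _⟩ h8
  · simp only [mem_RE_false] at h8 ⊢; omega
  · simp only [mem_RE_true] at h8 ⊢; omega

theorem BGD_hbR_disj {m R : ℕ} {y0 : ℤ} (h1 : R + m / 2 < m) {e : Edg} (he : e ∈ hbR m y0 R) :
    e ∉ boxE (m / 2) := by
  unfold hbR at he
  unfold boxE
  intro h8
  obtain ⟨x, y, _ | _⟩ := e
  · simp only [mem_RE_false] at h8 he; omega
  · simp only [mem_RE_true] at h8 he; omega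

/-- a crossing near the right side of the box does not use edges of the inner box -/
theorem BGD_dcrs_local {m : ℕ} {y0 : ℤ} {a R : ℕ} (h1 : R + m / 2 + 1 < m) {F : Set Edg}
    (h : H12S.DCrs m y0 a R (↑(boxE m) \ F)) :
    H12S.DCrs m y0 a R (↑(boxE m \ boxE (m / 2)) \ F) := by
  refine H12S.WA_dcrs_local ?_ h
  intro e he hF
  refine ⟨?_, hF.2⟩
  rw [Finset.coe_sdiff]
  refine ⟨hF.1, ?_⟩
  have h2 := H12S.WA_T_dual he
  intro h8
  rw [Finset.mem_coe] at h8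
  unfold boxE at h8
  unfold H12S.WA_P inR at h2
  obtain ⟨x, y, _ | _⟩ := e
  · simp only [mem_RE_false, dsrc_false, dtgt_mk] at h8 h2; omega
  · simp only [mem_RE_true, dsrc_true, dtgt_mk] at h8 h2; omega

theorem BGD_dcrs_mono {c1 c2 : ℤ} {a R : ℕ} {H H' : Set Edg} (hH : H ⊆ H')
    (h : H12S.DCrs c1 c2 a R H) : H12S.DCrs c1 c2 a R H' := by
  obtain ⟨x, y, h1, h2, h3⟩ := h
  exact ⟨x, y, h1, h2, h3.mono hH⟩

/-- the localised bad event -/
def BGD_Bd (m ρ r l : ℕ) (c : ℤ) (F : Finset Edg) : Prop :=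
  (∃ k : ℤ, |(l:ℤ) * k - c| ≤ ρ ∧ H3d m (l * k) (2 * l) r ↑F) ∨
    (H12S.DCrs m (c + ρ) (2 * r) (ρ / 4) (↑(boxE m \ boxE (m / 2)) \ ↑F) ∨
      H12S.DCrs m (c - ρ) (2 * r) (ρ / 4) (↑(boxE m \ boxE (m / 2)) \ ↑F))

theorem BGD_not_Gd {m ρ r l : ℕ} {c : ℤ} (hρ : ρ / 4 + m / 2 + 1 < m) {F : Finset Edg}
    (h : ¬ Gd m ρ r l c ↑F) : BGD_Bd m ρ r l c F := by
  unfold Gd at h
  unfold BGD_Bd
  by_cases h1 : ∃ k : ℤ, |(l:ℤ) * k - c| ≤ ρ ∧ H3d m (l * k) (2 * l) r (↑F : Set Edg)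
  · exact Or.inl h1
  · right
    by_cases h2 : H12S.DCrs m (c + ρ) (2 * r) (ρ / 4) ((↑(boxE m) : Set Edg) \ ↑F)
    · exact Or.inl (BGD_dcrs_local hρ h2)
    · right
      by_cases h3 : H12S.DCrs m (c - ρ) (2 * r) (ρ / 4) ((↑(boxE m) : Set Edg) \ ↑F)
      · exact BGD_dcrs_local hρ h3
      · exact absurd ⟨fun k hk hH => h1 ⟨k, hk, hH⟩, h2, h3⟩ h

theorem BGD_Bd_local {m ρ r l : ℕ} {c : ℤ} (hr : r + m / 2 < m) (F : Finset Edg) :
    BGD_Bd m ρ r l c F ↔ BGD_Bd m ρ r l c (F \ boxE (m / 2)) := by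
  unfold BGD_Bd
  have h1 : (↑(boxE m \ boxE (m / 2)) : Set Edg) \ ↑F =
      ↑(boxE m \ boxE (m / 2)) \ ↑(F \ boxE (m / 2)) := by
    ext e
    simp only [Finset.coe_sdiff, Set.mem_sdiff, Finset.mem_coe]
    tauto
  have h2 : ∀ k : ℤ, H3d m (l * k) (2 * l) r (↑F : Set Edg) ↔
      H3d m (l * k) (2 * l) r (↑(F \ boxE (m / 2)) : Set Edg) := by
    intro k
    refine BGD_H3d_congr ?_
    ext e
    simp only [Finset.coe_sdiff, Set.mem_sdiff, Finset.mem_coe]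
    constructor
    · rintro ⟨h3, h4⟩
      exact ⟨h3, fun h5 => h4 h5.1⟩
    · rintro ⟨h3, h4⟩
      exact ⟨h3, fun h5 => h4 ⟨h5, BGD_hbR_disj hr h3⟩⟩
  rw [h1]
  simp only [h2]

/-- the number of possible centres -/
theorem BGD_count {l N ρ : ℕ} {c k : ℤ} (hl : 1 ≤ l) (hρ : ρ = N * l) (hN : 2 ≤ N)
    (hk : |((4 * l : ℕ) : ℤ) * k - c| ≤ ρ) :
    k ∈ Finset.Icc (c / ((4 * l : ℕ) : ℤ) - N) (c / ((4 * l : ℕ) : ℤ) + N) := by
  have h1 := abs_le.1 hk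
  have hL : (0:ℤ) < ((4 * l : ℕ) : ℤ) := by exact_mod_cast (by omega : 0 < 4 * l)
  have h2 := Int.mul_ediv_self_le (x := c) (k := ((4 * l : ℕ) : ℤ)) hL.ne'
  have h3 := Int.lt_mul_ediv_self_add (x := c) (k := ((4 * l : ℕ) : ℤ)) hL
  set q := c / ((4 * l : ℕ) : ℤ) with hq
  rw [Finset.mem_Icc]
  subst hρ
  push_cast at *
  have hl' : (1:ℤ) ≤ l := by exact_mod_cast hl
  have hN' : (2:ℤ) ≤ N := by exact_mod_cast hN
  constructor
  · by_contra hc
    have h4 : k ≤ q - N - 1 := by omega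
    nlinarith [mul_le_mul_of_nonneg_left h4 (by positivity : (0:ℤ) ≤ l)]
  · by_contra hc
    have h4 : q + N + 1 ≤ k := by omega
    nlinarith [mul_le_mul_of_nonneg_left h4 (by positivity : (0:ℤ) ≤ l)]

theorem bad_Gd_of (hH3d : ∃ C c : ℝ, 0 < C ∧ 0 < c ∧ ∀ (m r R : ℕ) (y0 : ℤ) (U : Finset Edg),
    1 ≤ r → r ≤ R → hbR m y0 R ⊆ U →
    H12S.PQ (1 / 2) U (fun F => H3d m y0 r R ↑F) ≤ C * ((r:ℝ) / R) ^ (1 + c)) :
    ∀ η : ℝ, 0 < η → ∃ B₀ : ℕ, ∀ B, B₀ ≤ B → ∃ A₀ : ℕ, ∀ A, A₀ ≤ A →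
    ∀ (l m ρ r : ℕ) (c f0 : ℤ) (U : Finset Edg), 1 ≤ l → r = A * l → ρ = B * r →
      |c| + 20 * ρ ≤ m → (f0 = 0 ∨ f0 = -1) → boxE m ⊆ U →
      H12S.PQ (1 / 2) U (fun F => A2g (m / 2) (f0, f0) ↑F ∧ ¬ Gd m ρ r (4 * l) c ↑F) ≤
        η * pi2 (m / 2) := by
  intro η hη
  obtain ⟨κ, hκ, hW⟩ := H12S.win_half
  obtain ⟨C', c', hC', hc', harm⟩ := H12S.win_arm_of
    (fun {q κ n} h {m} hm hmn c1 c2 S => H12S.win_blk h hm hmn c1 c2 S) κ hκ
  obtain ⟨C, c1, hC, hc1, hH3⟩ := hH3d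
  obtain ⟨B1, hB1⟩ := BGD_small hc' (2 * C') 16 (half_pos hη)
  refine ⟨max B1 8, fun B hB => ?_⟩
  obtain ⟨A1, hA1⟩ := BGD_small hc1 (24 * B * C) 8 (half_pos hη)
  refine ⟨max A1 8, fun A hA => ?_⟩
  intro l m ρ r c f0 U hl hr hρ hcm hf hU
  have hB8 : 8 ≤ B := le_trans (le_max_right _ _) hB
  have hA8 : 8 ≤ A := le_trans (le_max_right _ _) hA
  have hB2 := hB1 B (le_trans (le_max_left _ _) hB)
  have hA2 := hA1 A (le_trans (le_max_left _ _) hA)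
  have ok : Ok (fun _ : Edg => (1/2:ℝ)) := okq (by norm_num) (by norm_num)
  have hr8 : 8 * l ≤ r := by rw [hr]; exact Nat.mul_le_mul_right l hA8
  have hρ8 : 8 * r ≤ ρ := by rw [hρ]; exact Nat.mul_le_mul_right r hB8
  have hc0 := abs_nonneg c
  have hρm : 20 * ρ ≤ m := by
    have : (20 * ρ : ℤ) ≤ m := by linarith
    exact_mod_cast this
  have hBd : ∀ F, F ⊆ U → (BGD_Bd m ρ r (4 * l) c F ↔ BGD_Bd m ρ r (4 * l) c (F \ boxE (m / 2))) :=
    fun F _ => BGD_Bd_local (by omega) F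
  have h1 : H12S.PQ (1 / 2) U
      (fun F => A2g (m / 2) (f0, f0) ↑F ∧ ¬ Gd m ρ r (4 * l) c ↑F) ≤
      H12S.PQ (1 / 2) U (fun F => A2g (m / 2) (f0, f0) ↑F ∧ BGD_Bd m ρ r (4 * l) c F) :=
    Pr_mono ok fun F _ hF => ⟨hF.1, BGD_not_Gd (by omega) hF.2⟩
  have h2 := inner_indep (m := m / 2) hf
    ((boxE_mono (Nat.div_le_self m 2)).trans hU) (Bd := BGD_Bd m ρ r (4 * l) c) hBd
  -- the three arm events
  have hA0 : (0:ℝ) < A := by exact_mod_cast (by omega : 0 < A)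
  have hB0 : (0:ℝ) < B := by exact_mod_cast (by omega : 0 < B)
  have hl0 : (0:ℝ) < l := by exact_mod_cast (by omega : 0 < l)
  set N := B * A with hN
  have hρN : ρ = N * l := by rw [hρ, hr, hN, mul_assoc]
  have hN2 : 2 ≤ N := by
    have : 8 * 8 ≤ B * A := Nat.mul_le_mul hB8 hA8
    omega
  set L : ℕ := 4 * l with hL
  set T := Finset.Icc (c / (L : ℤ) - N) (c / (L : ℤ) + N) with hT
  have hTc : (T.card : ℝ) ≤ 3 * (B * A) := by
    have h3 : T.card = 2 * N + 1 := by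
      rw [hT, Int.card_Icc]
      omega
    rw [h3]
    have h4 : (2:ℝ) ≤ N := by exact_mod_cast hN2
    have h5 : (N:ℝ) = B * A := by rw [hN]; push_cast; ring
    push_cast
    rw [← h5]
    linarith
  have hx0 : (0:ℝ) ≤ C * ((8:ℝ) / A) ^ (1 + c1) := by positivity
  have h3 : H12S.PQ (1 / 2) U (fun F => ∃ k : ℤ, |(L:ℤ) * k - c| ≤ ρ ∧
      H3d m (L * k) (2 * L) r ↑F) ≤ T.card * (C * ((8:ℝ) / A) ^ (1 + c1)) := by
    refine le_trans (Pr_mono (B := fun F => ∃ k ∈ T, |(L:ℤ) * k - c| ≤ ρ ∧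
      H3d m (L * k) (2 * L) r ↑F) ok fun F _ => ?_) (BGD_union ok U T _ fun k _ => ?_)
    · rintro ⟨k, hk, hF⟩
      exact ⟨k, BGD_count hl hρN hN2 hk, hk, hF⟩
    · by_cases hk : |(L:ℤ) * k - c| ≤ ρ
      · have h4 : |(L:ℤ) * k| + r ≤ m := by
          have h5 := abs_le.1 hk
          have h6 := abs_le.1 (le_refl |c|)
          have h7 : |(L:ℤ) * k| ≤ |c| + ρ := by
            rw [abs_le]
            constructor
            · linarith
            · linarith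
          have h8 : (8 * r : ℤ) ≤ ρ := by exact_mod_cast hρ8
          have h9 : (0:ℤ) ≤ r := by positivity
          linarith
        have h5 : hbR m (L * k) r ⊆ U := (BGD_hbR_sub (by omega) h4).trans hU
        have h6 := hH3 m (2 * L) r (L * k) U (by omega) (by omega) h5
        have h7 : ((2 * L : ℕ) : ℝ) / r = 8 / A := by
          rw [hr, hL]
          push_cast
          field_simp
          ring
        rw [h7] at h6
        exact le_trans (Pr_mono ok fun F _ hF => hF.2) h6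
      · refine le_trans (le_of_eq ?_) hx0
        have h4 : Pr (fun _ : Edg => (1/2:ℝ)) U (fun F => |(L:ℤ) * k - c| ≤ ρ ∧
            H3d m (L * k) (2 * L) r ↑F) ≤ 0 := by
          unfold Pr
          refine Ex_le_of_le ok fun F _ => ?_
          rw [ind_not_of (fun h => hk h.1)]
        exact le_antisymm h4 (Pr_nonneg ok _ _)
  have h4 : (T.card : ℝ) * (C * ((8:ℝ) / A) ^ (1 + c1)) ≤ η / 2 := by
    have h5 : ((8:ℝ) / A) ^ (1 + c1) = (8 / A) * (8 / A) ^ c1 := by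
      rw [Real.rpow_add (by positivity), Real.rpow_one]
    have h6 := mul_le_mul_of_nonneg_right hTc hx0
    refine le_trans h6 (le_trans (le_of_eq ?_) hA2)
    rw [h5]
    field_simp
    ring
  -- the corners
  have h5 : ∀ y0 : ℤ, H12S.PQ (1 / 2) U (fun F => H12S.DCrs m y0 (2 * r) (ρ / 4)
      (↑(boxE m \ boxE (m / 2)) \ ↑F)) ≤ C' * ((16:ℝ) / B) ^ c' := by
    intro y0
    have h6 := (harm (1/2) (ρ / 4) (hW (ρ / 4)) (2 * r) (ρ / 4) (by omega) (by omega) le_rfl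
      m y0 U).2
    refine le_trans (Pr_mono ok fun F _ hF => BGD_dcrs_mono ?_ hF) (le_trans h6 ?_)
    · intro e he
      rw [Finset.coe_sdiff]
      refine ⟨hU ?_, he.2⟩
      have := he.1
      rw [Finset.mem_coe, Finset.mem_sdiff] at this
      exact this.1
    · refine mul_le_mul_of_nonneg_left ?_ hC'.le
      refine Real.rpow_le_rpow (by positivity) ?_ hc'.le
      have hr0 : (0:ℝ) < r := by exact_mod_cast (by omega : 0 < r)
      have h7 : (ρ:ℝ) / 8 ≤ ((ρ / 4 : ℕ) : ℝ) := by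
        have h8 : ρ ≤ 8 * (ρ / 4) := by omega
        have h9 : (ρ:ℝ) ≤ 8 * ((ρ / 4 : ℕ) : ℝ) := by exact_mod_cast h8
        linarith
      have h8 : (ρ:ℝ) = B * r := by rw [hρ]; push_cast; ring
      rw [h8] at h7
      have h9 : (0:ℝ) < ((ρ / 4 : ℕ) : ℝ) := lt_of_lt_of_le (by positivity) h7
      rw [div_le_div_iff₀ h9 hB0]
      push_cast
      nlinarith
  have h6 : H12S.PQ (1 / 2) U (BGD_Bd m ρ r L c) ≤ η := by
    have h7 := Pr_or_le ok U (fun F => ∃ k : ℤ, |(L:ℤ) * k - c| ≤ ρ ∧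
      H3d m (L * k) (2 * L) r ↑F) (fun F =>
        H12S.DCrs m (c + ρ) (2 * r) (ρ / 4) (↑(boxE m \ boxE (m / 2)) \ ↑F) ∨
        H12S.DCrs m (c - ρ) (2 * r) (ρ / 4) (↑(boxE m \ boxE (m / 2)) \ ↑F))
    have h8 := Pr_or_le ok U
      (fun F => H12S.DCrs m (c + ρ) (2 * r) (ρ / 4) (↑(boxE m \ boxE (m / 2)) \ ↑F))
      (fun F => H12S.DCrs m (c - ρ) (2 * r) (ρ / 4) (↑(boxE m \ boxE (m / 2)) \ ↑F))
    have h9 := h5 (c + ρ)
    have h10 := h5 (c - ρ)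
    refine le_trans h7 ?_
    have h11 := le_trans h3 h4
    unfold H12S.PQ at h9 h10 h11
    linarith
  refine le_trans h1 (le_of_eq_of_le h2 ?_)
  rw [mul_comm]
  exact mul_le_mul_of_nonneg_right h6 (Pr_nonneg ok _ _)

end H985T
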