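import Pool.Agent.H985R3.TA.Defs3
import Pool.Agent.H12R2.Sep.H3
import Pool.Agent.H12R2.Sep.WinHalf

/-!
Two-arm project, task HPP: three arms in the half plane (open, dual, open).
-/

set_option autoImplicit false

namespace H985T

open H974 Finset

/-- three arms (open, dual, open) in the half ball on the left of the line `x = M` -/
def HPP_E3 (M y0 : ℤ) (r R : ℕ) (F : Set Edg) : Prop :=
  ∃ ya yb : ℤ, |ya - y0| ≤ r ∧ |yb - y0| ≤ r ∧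
    (∃ z : Vtx, (z.1 = M - R ∨ z.2 = y0 - R ∨ z.2 = y0 + R) ∧
      Reach (F ∩ ↑(RE (M - R) M (y0 - R) (y0 + R))) (M, ya) z) ∧
    (∃ z : Vtx, (z.1 = M - R ∨ z.2 = y0 - R ∨ z.2 = y0 + R) ∧
      Reach (F ∩ ↑(RE (M - R) M (y0 - R) (y0 + R))) (M, yb) z) ∧
    ¬ Reach (F ∩ ↑(RE (M - R) M (y0 - R) (y0 + R))) (M, ya) (M, yb)

theorem HPP_inR {G : Set Edg} {a b c d : ℤ} {u v : Vtx} (hu : inR a b c d u)
    (h : Reach (G ∩ ↑(RE a b c d)) u v) : inR a b c d v := by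
  induction h with
  | refl => exact hu
  | @tail v w _ hs _ =>
    obtain ⟨e, ⟨-, he⟩, hc⟩ := hs
    obtain ⟨x, y, t⟩ := e
    rw [Finset.mem_coe] at he
    cases t
    · rw [mem_RE_false] at he
      rcases hc with ⟨-, h2⟩ | ⟨h2, -⟩
      · rw [← h2, tgt_false]
        exact ⟨⟨by simp only; omega, by simp only; omega⟩, ⟨by simp only; omega, by simp only; omega⟩⟩
      · rw [← h2, src_mk]
        exact ⟨⟨by simp only; omega, by simp only; omega⟩, ⟨by simp only; omega, by simp only; omega⟩⟩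
    · rw [mem_RE_true] at he
      rcases hc with ⟨-, h2⟩ | ⟨h2, -⟩
      · rw [← h2, tgt_true]
        exact ⟨⟨by simp only; omega, by simp only; omega⟩, ⟨by simp only; omega, by simp only; omega⟩⟩
      · rw [← h2, src_mk]
        exact ⟨⟨by simp only; omega, by simp only; omega⟩, ⟨by simp only; omega, by simp only; omega⟩⟩

theorem HPP_image (M y0 : ℤ) (R : ℕ) (F : Finset Edg) :
    (↑(tps.mp ((rfx M).mp F)) : Set Edg) ∩ ↑(H12S.hbU y0 0 R) =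
      tps.φ '' ((rfx M).φ '' ((↑F : Set Edg) ∩ ↑(RE (M - R) M (y0 - R) (y0 + R)))) := by
  rw [Set.image_inter (rfx M).φ.injective, Set.image_inter tps.φ.injective,
    ← LSym.coe_mp, ← LSym.coe_mp, ← LSym.coe_mp, ← LSym.coe_mp, rfx_RE, tps_RE]
  congr 2
  unfold H12S.hbU
  congr 1 <;> ring

theorem HPP_H3 {M y0 : ℤ} {r R : ℕ} (hrR : r ≤ R) {F : Finset Edg} (h : HPP_E3 M y0 r R ↑F) :
    H12S.H3 y0 0 r R ↑(tps.mp ((rfx M).mp F)) := by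
  obtain ⟨ya, yb, ha, hb, ⟨za, hza, hra⟩, ⟨zb, hzb, hrb⟩, hn⟩ := h
  rw [abs_le] at ha hb
  unfold H12S.H3 H12S.H3g
  rw [HPP_image]
  have key : ∀ y : ℤ, tps.ψ ((rfx M).ψ (M, y)) = (y, 0) := by
    intro y
    rw [rfx_ψ, tps_ψ, sub_self]
  have hrim : ∀ (y : ℤ) (z : Vtx), -(r:ℤ) ≤ y - y0 ∧ y - y0 ≤ r →
      (z.1 = M - R ∨ z.2 = y0 - R ∨ z.2 = y0 + R) →
      Reach ((↑F : Set Edg) ∩ ↑(RE (M - R) M (y0 - R) (y0 + R))) (M, y) z →
      tps.ψ ((rfx M).ψ z) ∈ H12S.rimU y0 0 R := by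
    intro y z hy hz hr
    have h1 := HPP_inR (u := (M, y)) ⟨⟨by simp only; omega, le_rfl⟩,
      ⟨by simp only; omega, by simp only; omega⟩⟩ hr
    obtain ⟨z1, z2⟩ := z
    rw [rfx_ψ, tps_ψ]
    obtain ⟨⟨h2, h3⟩, h4, h5⟩ := h1
    simp only at h2 h3 h4 h5 hz
    refine ⟨⟨⟨h4, h5⟩, ⟨by simp only; omega, by simp only; omega⟩⟩, ?_⟩
    simp only
    omega
  refine ⟨(ya, 0), ⟨rfl, by simp only; omega, by simp only; omega⟩, (yb, 0),
    ⟨rfl, by simp only; omega, by simp only; omega⟩, ⟨_, hrim ya za ha hza hra, ?_⟩,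
    ⟨_, hrim yb zb hb hzb hrb, ?_⟩, ?_⟩
  · rw [← key ya, LSym.reach_iff, LSym.reach_iff]
    exact hra
  · rw [← key yb, LSym.reach_iff, LSym.reach_iff]
    exact hrb
  · rw [← key ya, ← key yb, LSym.reach_iff, LSym.reach_iff]
    exact hn

theorem HPP_prob : ∃ C c : ℝ, 0 < C ∧ 0 < c ∧ ∀ (M y0 : ℤ) (r R : ℕ) (U : Finset Edg),
    1 ≤ r → r ≤ R → RE (M - R) M (y0 - R) (y0 + R) ⊆ U →
    H12S.PQ (1 / 2) U (fun F => HPP_E3 M y0 r R ↑F) ≤ C * ((r:ℝ) / R) ^ (1 + c) := by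
  obtain ⟨κ, hκ, hwin⟩ := H12S.win_half
  obtain ⟨C, c, hC, hc, h⟩ := H12S.H3_bound κ hκ
  refine ⟨C, c, hC, hc, ?_⟩
  intro M y0 r R U hr hrR hU
  have hok : Ok (fun _ : Edg => (1 / 2 : ℝ)) := fun _ => ⟨by norm_num, by norm_num⟩
  have h1 := h (1 / 2) R (hwin R) r R hr hrR le_rfl y0 0 (tps.mp ((rfx M).mp U)) (by
    have h2 := tps.mp_mono ((rfx M).mp_mono hU)
    rw [rfx_RE, tps_RE] at h2
    unfold H12S.hbU
    have e1 : M - M = 0 := by ring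
    have e2 : M - (M - (R:ℤ)) = 0 + R := by ring
    rw [e1, e2] at h2
    exact h2)
  refine le_trans ?_ h1
  unfold H12S.PQ
  rw [LSym.pr, LSym.pr]
  exact Pr_mono hok (fun F _ hF => HPP_H3 hrR hF)

theorem H3p_prob : ∃ C c : ℝ, 0 < C ∧ 0 < c ∧ ∀ (m r R : ℕ) (y0 : ℤ) (U : Finset Edg),
    1 ≤ r → r ≤ R → hbR m y0 R ⊆ U →
    H12S.PQ (1 / 2) U (fun F => H3p m y0 r R ↑F) ≤ C * ((r:ℝ) / R) ^ (1 + c) := by
  obtain ⟨C, c, hC, hc, h⟩ := HPP_prob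
  exact ⟨C, c, hC, hc, fun m r R y0 U hr hrR hU => h m y0 r R U hr hrR hU⟩

end H985T
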