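import Pool.Agent.H985R3.TA.BGDof
import Pool.Agent.H985R3.TA.HPP
import Pool.Agent.H985R3.TA.SYM

/-!
Two-arm project, task BGP: the bad event at the mouth of the tube for a dual arm is unlikely.
-/

set_option autoImplicit false

namespace H985T

open H974 Finset

/-- the three arm event depends only on the half ball -/
theorem BGP_H3p_congr {m : ℕ} {y0 : ℤ} {r R : ℕ} {F G : Set Edg}
    (h : F ∩ ↑(hbR m y0 R) = G ∩ ↑(hbR m y0 R)) :
    H3p m y0 r R F ↔ H3p m y0 r R G := by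
  unfold H3p
  rw [h]

/-- a crossing near the right side of the box does not use edges of the inner box -/
theorem BGP_crs_local {m : ℕ} {y0 : ℤ} {a R : ℕ} (h1 : R + m / 2 + 1 < m) {F : Set Edg}
    (h : H12S.Crs m y0 a R (F ∩ ↑(boxE m))) :
    H12S.Crs m y0 a R (F ∩ ↑(boxE m \ boxE (m / 2))) := by
  refine H12S.WA_crs_local ?_ h
  intro e he hF
  refine ⟨hF.1, ?_⟩
  rw [Finset.coe_sdiff]
  refine ⟨hF.2, ?_⟩
  have h2 := H12S.WA_T_prim he
  intro h8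
  rw [Finset.mem_coe] at h8
  unfold boxE at h8
  unfold H12S.WA_P inR at h2
  obtain ⟨x, y, _ | _⟩ := e
  · simp only [mem_RE_false, src_mk, tgt_false] at h8 h2; omega
  · simp only [mem_RE_true, src_mk, tgt_true] at h8 h2; omega

theorem BGP_crs_mono {c1 c2 : ℤ} {a R : ℕ} {H H' : Set Edg} (hH : H ⊆ H')
    (h : H12S.Crs c1 c2 a R H) : H12S.Crs c1 c2 a R H' := by
  obtain ⟨x, y, h1, h2, h3⟩ := h
  exact ⟨x, y, h1, h2, h3.mono hH⟩

/-- the localised bad event -/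
def BGP_Bd (m ρ r l : ℕ) (c : ℤ) (F : Finset Edg) : Prop :=
  (∃ k : ℤ, |(l:ℤ) * k - c| ≤ ρ ∧ H3p m (l * k) (2 * l) r ↑F) ∨
    (H12S.Crs m (c + ρ) (2 * r) (ρ / 4) (↑F ∩ ↑(boxE m \ boxE (m / 2))) ∨
      H12S.Crs m (c - ρ) (2 * r) (ρ / 4) (↑F ∩ ↑(boxE m \ boxE (m / 2))))

theorem BGP_not_Gp {m ρ r l : ℕ} {c : ℤ} (hρ : ρ / 4 + m / 2 + 1 < m) {F : Finset Edg}
    (h : ¬ Gp m ρ r l c ↑F) : BGP_Bd m ρ r l c F := by
  unfold Gp at h
  unfold BGP_Bd
  by_cases h1 : ∃ k : ℤ, |(l:ℤ) * k - c| ≤ ρ ∧ H3p m (l * k) (2 * l) r (↑F : Set Edg)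
  · exact Or.inl h1
  · right
    by_cases h2 : H12S.Crs m (c + ρ) (2 * r) (ρ / 4) ((↑F : Set Edg) ∩ ↑(boxE m))
    · exact Or.inl (BGP_crs_local hρ h2)
    · right
      by_cases h3 : H12S.Crs m (c - ρ) (2 * r) (ρ / 4) ((↑F : Set Edg) ∩ ↑(boxE m))
      · exact BGP_crs_local hρ h3
      · exact absurd ⟨fun k hk hH => h1 ⟨k, hk, hH⟩, h2, h3⟩ h

theorem BGP_Bd_local {m ρ r l : ℕ} {c : ℤ} (hr : r + m / 2 < m) (F : Finset Edg) :
    BGP_Bd m ρ r l c F ↔ BGP_Bd m ρ r l c (F \ boxE (m / 2)) := by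
  unfold BGP_Bd
  have h1 : (↑F : Set Edg) ∩ ↑(boxE m \ boxE (m / 2)) =
      ↑(F \ boxE (m / 2)) ∩ ↑(boxE m \ boxE (m / 2)) := by
    ext e
    simp only [Finset.coe_sdiff, Set.mem_sdiff, Set.mem_inter_iff, Finset.mem_coe]
    tauto
  have h2 : ∀ k : ℤ, H3p m (l * k) (2 * l) r (↑F : Set Edg) ↔
      H3p m (l * k) (2 * l) r (↑(F \ boxE (m / 2)) : Set Edg) := by
    intro k
    refine BGP_H3p_congr ?_
    ext e
    simp only [Finset.coe_sdiff, Set.mem_sdiff, Set.mem_inter_iff, Finset.mem_coe]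
    constructor
    · rintro ⟨h3, h4⟩
      exact ⟨⟨h3, BGD_hbR_disj hr h4⟩, h4⟩
    · rintro ⟨h3, h4⟩
      exact ⟨h3.1, h4⟩
  rw [h1]
  simp only [h2]

theorem bad_Gp : ∀ η : ℝ, 0 < η → ∃ B₀ : ℕ, ∀ B, B₀ ≤ B → ∃ A₀ : ℕ, ∀ A, A₀ ≤ A →
    ∀ (l m ρ r : ℕ) (s : Fin 4) (c f0 : ℤ) (U : Finset Edg), 1 ≤ l → r = A * l → ρ = B * r →
      |c| + 20 * ρ ≤ m → (f0 = 0 ∨ f0 = -1) → boxE m ⊆ U →
      H12S.PQ (1 / 2) U (fun F => A2g (m / 2) (f0, f0) ↑F ∧ ¬ GpS m ρ r (4 * l) s c ↑F) ≤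
        η * pi2 (m / 2) := by
  intro η hη
  obtain ⟨κ, hκ, hW⟩ := H12S.win_half
  obtain ⟨C', c', hC', hc', harm⟩ := H12S.win_arm_of
    (fun {q κ n} h {m} hm hmn c1 c2 S => H12S.win_blk h hm hmn c1 c2 S) κ hκ
  obtain ⟨C, c1, hC, hc1, hH3⟩ := H3p_prob
  obtain ⟨B1, hB1⟩ := BGD_small hc' (2 * C') 16 (half_pos hη)
  refine ⟨max B1 8, fun B hB => ?_⟩
  obtain ⟨A1, hA1⟩ := BGD_small hc1 (24 * B * C) 8 (half_pos hη)
  refine ⟨max A1 8, fun A hA => ?_⟩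
  intro l m ρ r s c f0 U hl hr hρ hcm hf hU
  have hB8 : 8 ≤ B := le_trans (le_max_right _ _) hB
  have hA8 : 8 ≤ A := le_trans (le_max_right _ _) hA
  have hB2 := hB1 B (le_trans (le_max_left _ _) hB)
  have hA2 := hA1 A (le_trans (le_max_left _ _) hA)
  have ok : Ok (fun _ : Edg => (1/2:ℝ)) := okq (by norm_num) (by norm_num)
  have hr8 : 8 * l ≤ r := by rw [hr]; exact Nat.mul_le_mul_right l hA8
  have hρ8 : 8 * r ≤ ρ := by rw [hρ]; exact Nat.mul_le_mul_right r hB8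
  have hc0 := abs_nonneg c
  have hρm : 20 * ρ ≤ m := by
    have : (20 * ρ : ℤ) ≤ m := by linarith
    exact_mod_cast this
  have hBd : ∀ F, F ⊆ U → (BGP_Bd m ρ r (4 * l) c ((sy s).toLSym.mp F) ↔
      BGP_Bd m ρ r (4 * l) c ((sy s).toLSym.mp (F \ boxE (m / 2)))) := by
    intro F _
    rw [LSym.mp_sdiff, sy_box]
    exact BGP_Bd_local (by omega) _
  have h1 : H12S.PQ (1 / 2) U
      (fun F => A2g (m / 2) (f0, f0) ↑F ∧ ¬ GpS m ρ r (4 * l) s c ↑F) ≤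
      H12S.PQ (1 / 2) U (fun F => A2g (m / 2) (f0, f0) ↑F ∧
        BGP_Bd m ρ r (4 * l) c ((sy s).toLSym.mp F)) := by
    refine Pr_mono ok fun F _ hF => ⟨hF.1, BGP_not_Gp (by omega) ?_⟩
    have h2 := hF.2
    unfold GpS at h2
    rw [LSym.coe_mp]
    exact h2
  have h2 := inner_indep (m := m / 2) hf
    ((boxE_mono (Nat.div_le_self m 2)).trans hU)
    (Bd := fun F => BGP_Bd m ρ r (4 * l) c ((sy s).toLSym.mp F)) hBd
  have hpr : H12S.PQ (1 / 2) U (fun F => BGP_Bd m ρ r (4 * l) c ((sy s).toLSym.mp F)) =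
      H12S.PQ (1 / 2) ((sy s).toLSym.mp U) (BGP_Bd m ρ r (4 * l) c) :=
    ((sy s).toLSym.pr (1 / 2) U (BGP_Bd m ρ r (4 * l) c)).symm
  rw [hpr] at h2
  have hUs : boxE m ⊆ (sy s).toLSym.mp U := by
    have h3 := LSym.mp_mono (sy s).toLSym hU
    rwa [sy_box] at h3
  clear hpr hBd
  generalize (sy s).toLSym.mp U = W at h2 hUs
  -- the three arm events
  have hA0 : (0:ℝ) < A := by exact_mod_cast (by omega : 0 < A)
  have hB0 : (0:ℝ) < B := by exact_mod_cast (by omega : 0 < B)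
  have hl0 : (0:ℝ) < l := by exact_mod_cast (by omega : 0 < l)
  set N := B * A with hN
  have hρN : ρ = N * l := by rw [hρ, hr, hN, mul_assoc]
  have hN2 : 2 ≤ N := by
    have : 8 * 8 ≤ B * A := Nat.mul_le_mul hB8 hA8
    omega
  set L : ℕ := 4 * l with hL
  set T := Finset.Icc (c / (L : ℤ) - N) (c / (L : ℤ) + N) with hT
  have hTc : (T.card : ℝ) ≤ 3 * (B * A) := by
    have h3 : T.card = 2 * N + 1 := by
      rw [hT, Int.card_Icc]
      omega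
    rw [h3]
    have h4 : (2:ℝ) ≤ N := by exact_mod_cast hN2
    have h5 : (N:ℝ) = B * A := by rw [hN]; push_cast; ring
    push_cast
    rw [← h5]
    linarith
  have hx0 : (0:ℝ) ≤ C * ((8:ℝ) / A) ^ (1 + c1) := by positivity
  have h3 : H12S.PQ (1 / 2) W (fun F => ∃ k : ℤ, |(L:ℤ) * k - c| ≤ ρ ∧
      H3p m (L * k) (2 * L) r ↑F) ≤ T.card * (C * ((8:ℝ) / A) ^ (1 + c1)) := by
    refine le_trans (Pr_mono (B := fun F => ∃ k ∈ T, |(L:ℤ) * k - c| ≤ ρ ∧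
      H3p m (L * k) (2 * L) r ↑F) ok fun F _ => ?_) (BGD_union ok W T _ fun k _ => ?_)
    · rintro ⟨k, hk, hF⟩
      exact ⟨k, BGD_count hl hρN hN2 hk, hk, hF⟩
    · by_cases hk : |(L:ℤ) * k - c| ≤ ρ
      · have h4 : |(L:ℤ) * k| + r ≤ m := by
          have h5 := abs_le.1 hk
          have h6 := abs_le.1 (le_refl |c|)
          have h7 : |(L:ℤ) * k| ≤ |c| + ρ := by
            rw [abs_le]
            constructor
            · linarith
            · linarith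
          have h8 : (8 * r : ℤ) ≤ ρ := by exact_mod_cast hρ8
          have h9 : (0:ℤ) ≤ r := by positivity
          linarith
        have h5 : hbR m (L * k) r ⊆ W := (BGD_hbR_sub (by omega) h4).trans hUs
        have h6 := hH3 m (2 * L) r (L * k) W (by omega) (by omega) h5
        have h7 : ((2 * L : ℕ) : ℝ) / r = 8 / A := by
          rw [hr, hL]
          push_cast
          field_simp
          ring
        rw [h7] at h6
        exact le_trans (Pr_mono ok fun F _ hF => hF.2) h6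
      · refine le_trans (le_of_eq ?_) hx0
        have h4 : Pr (fun _ : Edg => (1/2:ℝ)) W (fun F => |(L:ℤ) * k - c| ≤ ρ ∧
            H3p m (L * k) (2 * L) r ↑F) ≤ 0 := by
          unfold Pr
          refine Ex_le_of_le ok fun F _ => ?_
          rw [ind_not_of (fun h => hk h.1)]
        exact le_antisymm h4 (Pr_nonneg ok _ _)
  have h4 : (T.card : ℝ) * (C * ((8:ℝ) / A) ^ (1 + c1)) ≤ η / 2 := by
    have h5 : ((8:ℝ) / A) ^ (1 + c1) = (8 / A) * (8 / A) ^ c1 := by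
      rw [Real.rpow_add (by positivity), Real.rpow_one]
    have h6 := mul_le_mul_of_nonneg_right hTc hx0
    refine le_trans h6 (le_trans (le_of_eq ?_) hA2)
    rw [h5]
    field_simp
    ring
  -- the corners
  have h5 : ∀ y0 : ℤ, H12S.PQ (1 / 2) W (fun F => H12S.Crs m y0 (2 * r) (ρ / 4)
      (↑F ∩ ↑(boxE m \ boxE (m / 2)))) ≤ C' * ((16:ℝ) / B) ^ c' := by
    intro y0
    have h6 := (harm (1/2) (ρ / 4) (hW (ρ / 4)) (2 * r) (ρ / 4) (by omega) (by omega) le_rfl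
      m y0 W).1
    refine le_trans (Pr_mono ok fun F _ hF => BGP_crs_mono ?_ hF) (le_trans h6 ?_)
    · exact fun e he => he.1
    · refine mul_le_mul_of_nonneg_left ?_ hC'.le
      refine Real.rpow_le_rpow (by positivity) ?_ hc'.le
      have hr0 : (0:ℝ) < r := by exact_mod_cast (by omega : 0 < r)
      have h7 : (ρ:ℝ) / 8 ≤ ((ρ / 4 : ℕ) : ℝ) := by
        have h8 : ρ ≤ 8 * (ρ / 4) := by omega
        have h9 : (ρ:ℝ) ≤ 8 * ((ρ / 4 : ℕ) : ℝ) := by exact_mod_cast h8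
        linarith
      have h8 : (ρ:ℝ) = B * r := by rw [hρ]; push_cast; ring
      rw [h8] at h7
      have h9 : (0:ℝ) < ((ρ / 4 : ℕ) : ℝ) := lt_of_lt_of_le (by positivity) h7
      rw [div_le_div_iff₀ h9 hB0]
      push_cast
      nlinarith
  have h6 : H12S.PQ (1 / 2) W (BGP_Bd m ρ r L c) ≤ η := by
    have h7 := Pr_or_le ok W (fun F => ∃ k : ℤ, |(L:ℤ) * k - c| ≤ ρ ∧
      H3p m (L * k) (2 * L) r ↑F) (fun F =>
        H12S.Crs m (c + ρ) (2 * r) (ρ / 4) (↑F ∩ ↑(boxE m \ boxE (m / 2))) ∨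
        H12S.Crs m (c - ρ) (2 * r) (ρ / 4) (↑F ∩ ↑(boxE m \ boxE (m / 2))))
    have h8 := Pr_or_le ok W
      (fun F => H12S.Crs m (c + ρ) (2 * r) (ρ / 4) (↑F ∩ ↑(boxE m \ boxE (m / 2))))
      (fun F => H12S.Crs m (c - ρ) (2 * r) (ρ / 4) (↑F ∩ ↑(boxE m \ boxE (m / 2))))
    have h9 := h5 (c + ρ)
    have h10 := h5 (c - ρ)
    refine le_trans h7 ?_
    have h11 := le_trans h3 h4
    unfold H12S.PQ at h9 h10 h11
    linarith
  refine le_trans h1 (le_of_eq_of_le h2 ?_)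
  rw [mul_comm]
  exact mul_le_mul_of_nonneg_right h6 (Pr_nonneg ok _ _)

end H985T
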