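import Pool.Agent.H985R3.TA.BLoc
import Pool.Agent.H12R2.Sep.Markov
import Pool.Agent.H12R2.Sep.Trap

/-!
Two-arm project: bad events for the extension of a dual arm (task BGP), from the statements of the
tasks IND and HPP (taken as hypotheses).
-/

set_option autoImplicit false

namespace H985T

open H974 Finset Filter Topology

theorem BL_pi2_nonneg (m : ℕ) : 0 ≤ pi2 m :=
  Pr_nonneg (okq (by norm_num) (by norm_num)) _ _

theorem BL_tend {C a c : ℝ} (hc : 0 < c) :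
    Tendsto (fun n : ℕ => C * (a / (n:ℝ)) ^ c) atTop (𝓝 0) := by
  have h1 : Tendsto (fun n : ℕ => (a / (n:ℝ))) atTop (𝓝 0) :=
    tendsto_const_div_atTop_nhds_zero_nat a
  have h2 := h1.rpow_const (p := c) (Or.inr hc.le)
  rw [Real.zero_rpow hc.ne'] at h2
  simpa using h2.const_mul C

theorem BL_ex {C a c η : ℝ} (hc : 0 < c) (hη : 0 < η) :
    ∃ N : ℕ, ∀ n, N ≤ n → C * (a / (n:ℝ)) ^ c ≤ η := by
  have h := (BL_tend (C := C) (a := a) hc).eventually (gt_mem_nhds hη)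
  obtain ⟨N, hN⟩ := eventually_atTop.mp h
  exact ⟨N, fun n hn => (hN n hn).le⟩

theorem BL_or3 {S : Finset Edg} {A B C : Finset Edg → Prop} {a b c : ℝ}
    (hA : H12S.PQ (1 / 2) S A ≤ a) (hB : H12S.PQ (1 / 2) S B ≤ b) (hC : H12S.PQ (1 / 2) S C ≤ c) :
    H12S.PQ (1 / 2) S (fun F => A F ∨ B F ∨ C F) ≤ a + b + c := by
  have hOk : Ok (fun _ : Edg => (1 / 2 : ℝ)) := okq (by norm_num) (by norm_num)
  have h1 := Pr_or_le hOk S A (fun F => B F ∨ C F)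
  have h2 := Pr_or_le hOk S B C
  unfold H12S.PQ at *
  linarith

theorem BL_hb_disj {m m' : ℕ} {y0 : ℤ} {R : ℕ} (h : m' + R < m) (e : Edg)
    (he : e ∈ hbR m y0 R) : e ∉ boxE m' := by
  obtain ⟨x, y, b⟩ := e
  unfold hbR at he
  unfold boxE
  cases b
  · rw [mem_RE_false] at he ⊢; omega
  · rw [mem_RE_true] at he ⊢; omega

theorem BL_hb_inter {m m' : ℕ} {y0 : ℤ} {R : ℕ} (h : m' + R < m) (G : Set Edg) :
    (G \ ↑(boxE m')) ∩ ↑(hbR m y0 R) = G ∩ ↑(hbR m y0 R) := by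
  ext e
  constructor
  · rintro ⟨⟨h1, h2⟩, h3⟩; exact ⟨h1, h3⟩
  · rintro ⟨h1, h3⟩
    exact ⟨⟨h1, fun h4 => BL_hb_disj h e h3 h4⟩, h3⟩

theorem BL_ball_out {m m' R : ℕ} {c : ℤ} (h : m' + R < m) (e : Edg)
    (he : e ∈ RE ((m:ℤ) - R) (m + R) (c - R) (c + R)) : e ∉ boxE m' := by
  obtain ⟨x, y, b⟩ := e
  unfold boxE
  cases b
  · rw [mem_RE_false] at he ⊢; omega
  · rw [mem_RE_true] at he ⊢; omega

theorem BL_hb_sub {m : ℕ} {y0 : ℤ} {R : ℕ} (h : |y0| + R ≤ m) : hbR m y0 R ⊆ boxE m := by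
  have h1 := abs_le.mp (show |y0| ≤ (m:ℤ) - R by linarith)
  rintro ⟨x, y, b⟩ he
  unfold hbR at he
  unfold boxE
  cases b
  · rw [mem_RE_false] at he ⊢; omega
  · rw [mem_RE_true] at he ⊢; omega

/-- the centres of the three arm events -/
noncomputable def BL_K (l ρ : ℕ) (c : ℤ) : Finset ℤ := Finset.Icc ((c - ρ) / (l:ℤ)) ((c + ρ) / (l:ℤ))

theorem BL_K_mem {l ρ : ℕ} (hl : 1 ≤ l) {c k : ℤ} (h : |(l:ℤ) * k - c| ≤ ρ) : k ∈ BL_K l ρ c := by
  have hl' : (0:ℤ) < l := by exact_mod_cast hl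
  obtain ⟨h1, h2⟩ := abs_le.mp h
  unfold BL_K
  rw [Finset.mem_Icc]
  constructor
  · have h3 := Int.ediv_le_ediv hl' (show c - ρ ≤ (l:ℤ) * k by linarith)
    rwa [Int.mul_ediv_cancel_left _ hl'.ne'] at h3
  · exact Int.le_ediv_of_mul_le hl' (by linarith)

theorem BL_K_card {l ρ : ℕ} (hl : 1 ≤ l) (c : ℤ) :
    ((BL_K l ρ c).card : ℝ) ≤ 2 * ρ / l + 2 := by
  have hl' : (0:ℤ) < l := by exact_mod_cast hl
  have hl2 : (0:ℝ) < l := by exact_mod_cast hl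
  have hρ0 : (0:ℝ) ≤ 2 * ρ / l := by positivity
  unfold BL_K
  rw [Int.card_Icc]
  have h1 : (c + ρ) / (l:ℤ) * l ≤ c + ρ := Int.ediv_mul_le _ hl'.ne'
  have h2 : c - ρ < ((c - ρ) / (l:ℤ) + 1) * l := Int.lt_ediv_add_one_mul_self _ hl'
  set a := (c + ρ) / (l:ℤ)
  set b := (c - ρ) / (l:ℤ)
  rcases le_total 0 (a + 1 - b) with h3 | h3
  · have h4 : (((a + 1 - b).toNat : ℕ) : ℝ) = ((a + 1 - b : ℤ) : ℝ) := by
      have : (((a + 1 - b).toNat : ℕ) : ℤ) = a + 1 - b := Int.toNat_of_nonneg h3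
      exact_mod_cast this
    rw [h4]
    have h1' : (a:ℝ) * l ≤ c + ρ := by exact_mod_cast h1
    have h2' : (c:ℝ) - ρ < ((b:ℝ) + 1) * l := by exact_mod_cast h2
    rw [← sub_le_iff_le_add, le_div_iff₀ hl2]
    push_cast
    nlinarith
  · rw [Int.toNat_of_nonpos h3]
    simp only [Nat.cast_zero]
    linarith

theorem bad_Gp_of
    (inner_indep : ∀ {m : ℕ} {f0 : ℤ} (_ : f0 = 0 ∨ f0 = -1) {U : Finset Edg}
      (_ : boxE m ⊆ U) {Bd : Finset Edg → Prop}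
      (_ : ∀ F, F ⊆ U → (Bd F ↔ Bd (F \ boxE m))),
      H12S.PQ (1 / 2) U (fun F => A2g m (f0, f0) ↑F ∧ Bd F) = pi2 m * H12S.PQ (1 / 2) U Bd)
    (H3p_prob : ∃ C c : ℝ, 0 < C ∧ 0 < c ∧ ∀ (m r R : ℕ) (y0 : ℤ) (U : Finset Edg),
      1 ≤ r → r ≤ R → hbR m y0 R ⊆ U →
      H12S.PQ (1 / 2) U (fun F => H3p m y0 r R ↑F) ≤ C * ((r:ℝ) / R) ^ (1 + c)) :
    ∀ η : ℝ, 0 < η → ∃ B₀ : ℕ, ∀ B, B₀ ≤ B → ∃ A₀ : ℕ, ∀ A, A₀ ≤ A →
    ∀ (l m ρ r : ℕ) (s : Fin 4) (c f0 : ℤ) (U : Finset Edg), 1 ≤ l → r = A * l → ρ = B * r →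
      |c| + 20 * ρ ≤ m → (f0 = 0 ∨ f0 = -1) → boxE m ⊆ U →
      H12S.PQ (1 / 2) U (fun F => A2g (m / 2) (f0, f0) ↑F ∧ ¬ GpS m ρ r (4 * l) s c ↑F) ≤
        η * pi2 (m / 2) := by
  intro η hη
  obtain ⟨C1, c1, hC1, hc1, h3p⟩ := H3p_prob
  obtain ⟨C2, c2, hC2, hc2, harm⟩ := BL_arm
  have hOk : Ok (fun _ : Edg => (1 / 2 : ℝ)) := okq (by norm_num) (by norm_num)
  obtain ⟨N1, hN1⟩ := BL_ex (C := C2) (a := 16) hc2 (show 0 < η / 4 by linarith)
  refine ⟨max N1 8, fun B hB => ?_⟩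
  have hB1 : N1 ≤ B := (le_max_left _ _).trans hB
  have hB8 : 8 ≤ B := (le_max_right _ _).trans hB
  obtain ⟨N2, hN2⟩ := BL_ex (C := ((B:ℝ) + 2) * (8 * C1)) (a := 8) hc1 (show 0 < η / 2 by linarith)
  refine ⟨max N2 8, fun A hA => ?_⟩
  have hA1 : N2 ≤ A := (le_max_left _ _).trans hA
  have hA8 : 8 ≤ A := (le_max_right _ _).trans hA
  intro l m ρ r s c f0 U hl hr hρ hc hf hU
  have hr8 : 8 * l ≤ r := by rw [hr]; exact Nat.mul_le_mul_right l hA8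
  have hρ8 : 8 * r ≤ ρ := by rw [hρ]; exact Nat.mul_le_mul_right r hB8
  have hρm : 20 * ρ ≤ m := by
    have := abs_nonneg c
    omega
  have hρ4 : 2 * r ≤ ρ / 4 := by omega
  -- the bad event
  set g := sy s with hg
  set Bd : Finset Edg → Prop := fun F =>
    (∃ k ∈ BL_K (4 * l) ρ c, |((4 * l : ℕ):ℤ) * k - c| ≤ ρ ∧
      H3p m (((4 * l : ℕ):ℤ) * k) (2 * (4 * l)) r (g.φ '' ↑F)) ∨
    H12S.Crs m (c + ρ) (2 * r) (ρ / 4) ((g.φ '' ↑F) \ ↑(boxE (m / 2))) ∨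
    H12S.Crs m (c - ρ) (2 * r) (ρ / 4) ((g.φ '' ↑F) \ ↑(boxE (m / 2))) with hBd
  have hloc : ∀ F, F ⊆ U → (Bd F ↔ Bd (F \ boxE (m / 2))) := by
    intro F _
    simp only [hBd]
    rw [hg, BL_img, ← hg, Set.sdiff_sdiff, Set.union_self]
    have e1 : ∀ k : ℤ, H3p m (((4 * l : ℕ):ℤ) * k) (2 * (4 * l)) r (g.φ '' ↑F) ↔
        H3p m (((4 * l : ℕ):ℤ) * k) (2 * (4 * l)) r ((g.φ '' ↑F) \ ↑(boxE (m / 2))) := by
      intro k
      apply BL_H3p_congr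
      rw [BL_hb_inter (by omega)]
    simp only [e1]
  have hsub : ∀ (c' : ℤ) (F : Finset Edg),
      H12S.Crs m c' (2 * r) (ρ / 4) ((g.φ '' ↑F) ∩ ↑(boxE m)) →
      H12S.Crs m c' (2 * r) (ρ / 4) ((g.φ '' ↑F) \ ↑(boxE (m / 2))) := by
    intro c' F h
    refine H12S.Crs.mono ?_ (BL_crs_loc h)
    rintro e ⟨⟨h1, h2⟩, h3⟩
    refine ⟨h1, fun h4 => ?_⟩
    exact BL_ball_out (m' := m / 2) (R := ρ / 4) (by omega) e h3 h4
  have himp : ∀ F, F ⊆ U → (A2g (m / 2) (f0, f0) ↑F ∧ ¬ GpS m ρ r (4 * l) s c ↑F) →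
      (A2g (m / 2) (f0, f0) ↑F ∧ Bd F) := by
    rintro F _ ⟨h1, h2⟩
    refine ⟨h1, ?_⟩
    unfold GpS Gp at h2
    rw [← hg] at h2
    simp only [hBd]
    by_contra h4
    push Not at h4
    obtain ⟨h5, h6, h7⟩ := h4
    apply h2
    refine ⟨?_, fun h => h6 (hsub _ F h), fun h => h7 (hsub _ F h)⟩
    intro k hk h
    exact h5 k (BL_K_mem (by omega) hk) hk h
  have hprob : H12S.PQ (1 / 2) U Bd ≤ η := by
    -- corners
    have hcor : ∀ c' : ℤ, H12S.PQ (1 / 2) U (fun F =>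
        H12S.Crs m c' (2 * r) (ρ / 4) ((g.φ '' ↑F) \ ↑(boxE (m / 2)))) ≤ η / 4 := by
      intro c'
      have h1 : H12S.PQ (1 / 2) U (fun F =>
          H12S.Crs m c' (2 * r) (ρ / 4) ((g.φ '' ↑F) \ ↑(boxE (m / 2)))) ≤
          H12S.PQ (1 / 2) U (fun F => H12S.Crs m c' (2 * r) (ρ / 4) (g.φ '' ↑F)) := by
        apply Pr_mono hOk
        intro F _ h
        exact H12S.Crs.mono Set.sdiff_subset h
      have h2 := BL_pr s (1 / 2) U (fun G => H12S.Crs m c' (2 * r) (ρ / 4) G)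
      rw [← hg] at h2
      rw [h2] at h1
      have h3 := (harm (2 * r) (ρ / 4) (by omega) hρ4 m c' ((sy s).toLSym.mp U)).1
      refine h1.trans (h3.trans (le_trans ?_ (hN1 B hB1)))
      apply mul_le_mul_of_nonneg_left _ hC2.le
      apply Real.rpow_le_rpow (by positivity) _ hc2.le
      have hr0 : (0:ℝ) < r := by
        have : 1 ≤ r := by omega
        exact_mod_cast this
      have hB0 : (0:ℝ) < B := by
        have : 1 ≤ B := by omega
        exact_mod_cast this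
      have hρ4' : (B:ℝ) * r / 8 ≤ ((ρ / 4 : ℕ) : ℝ) := by
        have h5 : ρ ≤ 8 * (ρ / 4) := by omega
        have h6 : (ρ:ℝ) ≤ 8 * ((ρ / 4 : ℕ) : ℝ) := by exact_mod_cast h5
        have h7 : (ρ:ℝ) = B * r := by rw [hρ]; push_cast; ring
        rw [← h7]; linarith
      rw [div_le_div_iff₀ (lt_of_lt_of_le (by positivity) hρ4') hB0]
      push_cast at hρ4' ⊢
      nlinarith
    -- three arms
    have hthree : H12S.PQ (1 / 2) U (fun F => ∃ k ∈ BL_K (4 * l) ρ c, |((4 * l : ℕ):ℤ) * k - c| ≤ ρ ∧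
        H3p m (((4 * l : ℕ):ℤ) * k) (2 * (4 * l)) r (g.φ '' ↑F)) ≤ η / 2 := by
      refine (Pr_exists_le hOk U (BL_K (4 * l) ρ c) (fun k F => |((4 * l : ℕ):ℤ) * k - c| ≤ ρ ∧
        H3p m (((4 * l : ℕ):ℤ) * k) (2 * (4 * l)) r (g.φ '' ↑F))).trans ?_
      have hl0 : (0:ℝ) < l := by exact_mod_cast hl
      have hA0 : (0:ℝ) < A := by
        have : 1 ≤ A := by omega
        exact_mod_cast this
      have hterm : ∀ k ∈ BL_K (4 * l) ρ c, Pr (fun _ => (1 / 2 : ℝ)) U (fun F =>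
          |((4 * l : ℕ):ℤ) * k - c| ≤ ρ ∧
          H3p m (((4 * l : ℕ):ℤ) * k) (2 * (4 * l)) r (g.φ '' ↑F)) ≤ C1 * (8 / (A:ℝ)) ^ (1 + c1) := by
        intro k _
        by_cases hk : |((4 * l : ℕ):ℤ) * k - c| ≤ ρ
        · have h1 : Pr (fun _ => (1 / 2 : ℝ)) U (fun F =>
              |((4 * l : ℕ):ℤ) * k - c| ≤ ρ ∧
              H3p m (((4 * l : ℕ):ℤ) * k) (2 * (4 * l)) r (g.φ '' ↑F)) ≤
              H12S.PQ (1 / 2) U (fun F => H3p m (((4 * l : ℕ):ℤ) * k) (2 * (4 * l)) r (g.φ '' ↑F)) :=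
            Pr_mono hOk (fun F _ h => h.2)
          have h2 := BL_pr s (1 / 2) U (fun G => H3p m (((4 * l : ℕ):ℤ) * k) (2 * (4 * l)) r G)
          rw [← hg] at h2
          rw [h2] at h1
          refine h1.trans ((h3p m (2 * (4 * l)) r (((4 * l : ℕ):ℤ) * k) _ (by omega) (by omega)
            ((BL_hb_sub ?_).trans (BL_box_sub hU))).trans ?_)
          · have h5 : |((4 * l : ℕ):ℤ) * k| ≤ |((4 * l : ℕ):ℤ) * k - c| + |c| := by
              have := abs_add_le (((4 * l : ℕ):ℤ) * k - c) c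
              simpa using this
            have h6 : (r:ℤ) ≤ ρ := by omega
            linarith
          · apply mul_le_mul_of_nonneg_left _ hC1.le
            apply Real.rpow_le_rpow (by positivity) _ (by linarith)
            rw [hr]
            push_cast
            apply le_of_eq
            field_simp
            ring
        · have h0 : Pr (fun _ => (1 / 2 : ℝ)) U (fun F =>
              |((4 * l : ℕ):ℤ) * k - c| ≤ ρ ∧
              H3p m (((4 * l : ℕ):ℤ) * k) (2 * (4 * l)) r (g.φ '' ↑F)) = 0 :=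
            H12S.MK_false _ U (fun F _ h => hk h.1)
          rw [h0]
          positivity
      refine (Finset.sum_le_sum hterm).trans ?_
      rw [Finset.sum_const, nsmul_eq_mul]
      have hcard := BL_K_card (l := 4 * l) (ρ := ρ) (by omega) c
      have h8 : (8 / (A:ℝ)) ^ (1 + c1) = 8 / A * (8 / (A:ℝ)) ^ c1 := by
        rw [Real.rpow_add (by positivity), Real.rpow_one]
      have hAB : 2 * (ρ:ℝ) / ((4 * l : ℕ) : ℝ) + 2 ≤ (A:ℝ) * (B + 2) := by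
        have h7 : (ρ:ℝ) = B * (A * l) := by rw [hρ, hr]; push_cast; ring
        rw [h7]
        push_cast
        have e : 2 * ((B:ℝ) * (A * l)) / (4 * l) = B * A / 2 := by field_simp; ring
        rw [e]
        have hA1' : (1:ℝ) ≤ A := by
          have : 1 ≤ A := by omega
          exact_mod_cast this
        have hB0 : (0:ℝ) ≤ B := by positivity
        nlinarith [mul_nonneg hB0 (by linarith : (0:ℝ) ≤ A)]
      calc ((BL_K (4 * l) ρ c).card : ℝ) * (C1 * (8 / (A:ℝ)) ^ (1 + c1))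
          ≤ ((A:ℝ) * (B + 2)) * (C1 * (8 / (A:ℝ)) ^ (1 + c1)) := by
            apply mul_le_mul_of_nonneg_right (hcard.trans hAB)
            positivity
        _ = ((B:ℝ) + 2) * (8 * C1) * (8 / (A:ℝ)) ^ c1 := by
            rw [h8]
            field_simp
        _ ≤ η / 2 := hN2 A hA1
    have := BL_or3 hthree (hcor (c + ρ)) (hcor (c - ρ))
    refine le_trans this ?_
    linarith
  calc H12S.PQ (1 / 2) U (fun F => A2g (m / 2) (f0, f0) ↑F ∧ ¬ GpS m ρ r (4 * l) s c ↑F)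
      ≤ H12S.PQ (1 / 2) U (fun F => A2g (m / 2) (f0, f0) ↑F ∧ Bd F) := Pr_mono hOk himp
    _ = pi2 (m / 2) * H12S.PQ (1 / 2) U Bd := by
        apply inner_indep hf _ hloc
        refine Finset.Subset.trans ?_ hU
        rintro ⟨x, y, b⟩ h
        unfold boxE at h ⊢
        cases b
        · rw [mem_RE_false] at h ⊢; omega
        · rw [mem_RE_true] at h ⊢; omega
    _ ≤ pi2 (m / 2) * η := mul_le_mul_of_nonneg_left hprob (BL_pi2_nonneg _)
    _ = η * pi2 (m / 2) := mul_comm _ _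

end H985T
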