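import Pool.Agent.H985R3.TA.SYM
import Pool.Agent.H12R2.Sep.Win1
import Pool.Agent.H12R2.Sep.Win2
import Pool.Agent.H12R2.Sep.WinHalf

/-!
Two-arm project: localisation of the bad events (for BGP, BSL).
-/

set_option autoImplicit false

namespace H985T

open H974 Finset

/-! ### Localisation of crossings -/

theorem BL_stop {G E : Set Edg} {P : Vtx → Prop} (hE : ∀ e, (P (src e) ∨ P (tgt e)) → e ∈ E)
    {x y : Vtx} (h : Reach G x y) (hy : ¬ P y) : ∃ w, ¬ P w ∧ Reach (G ∩ E) x w := by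
  have key : (∃ w, ¬ P w ∧ Reach (G ∩ E) x w) ∨ (P y ∧ Reach (G ∩ E) x y) := by
    clear hy
    induction h with
    | refl =>
      by_cases hx : P x
      · exact Or.inr ⟨hx, Reach.refl _ _⟩
      · exact Or.inl ⟨x, hx, Reach.refl _ _⟩
    | @tail b c _ hs ih =>
      rcases ih with h1 | ⟨h1, h2⟩
      · exact Or.inl h1
      · obtain ⟨e, he, hc⟩ := hs
        have heE : e ∈ E := by
          rcases hc with ⟨h3, h4⟩ | ⟨h3, h4⟩
          · exact hE e (Or.inl (h3 ▸ h1))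
          · exact hE e (Or.inr (h4 ▸ h1))
        have h5 : Reach (G ∩ E) x c := h2.trans (Adj.reach ⟨e, ⟨he, heE⟩, hc⟩)
        by_cases hcP : P c
        · exact Or.inr ⟨hcP, h5⟩
        · exact Or.inl ⟨c, hcP, h5⟩
  rcases key with h1 | h1
  · exact h1
  · exact absurd h1.1 hy

theorem BL_dstop {G E : Set Edg} {P : Vtx → Prop} (hE : ∀ e, (P (dsrc e) ∨ P (dtgt e)) → e ∈ E)
    {x y : Vtx} (h : DReach G x y) (hy : ¬ P y) : ∃ w, ¬ P w ∧ DReach (G ∩ E) x w := by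
  have key : (∃ w, ¬ P w ∧ DReach (G ∩ E) x w) ∨ (P y ∧ DReach (G ∩ E) x y) := by
    clear hy
    induction h with
    | refl =>
      by_cases hx : P x
      · exact Or.inr ⟨hx, DReach.refl _ _⟩
      · exact Or.inl ⟨x, hx, DReach.refl _ _⟩
    | @tail b c _ hs ih =>
      rcases ih with h1 | ⟨h1, h2⟩
      · exact Or.inl h1
      · obtain ⟨e, he, hc⟩ := hs
        have heE : e ∈ E := by
          rcases hc with ⟨h3, h4⟩ | ⟨h3, h4⟩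
          · exact hE e (Or.inl (h3 ▸ h1))
          · exact hE e (Or.inr (h4 ▸ h1))
        have h5 : DReach (G ∩ E) x c := h2.trans (DAdj.reach ⟨e, ⟨he, heE⟩, hc⟩)
        by_cases hcP : P c
        · exact Or.inr ⟨hcP, h5⟩
        · exact Or.inl ⟨c, hcP, h5⟩
  rcases key with h1 | h1
  · exact h1
  · exact absurd h1.1 hy

theorem BL_crs_loc {c1 c2 : ℤ} {ρ R : ℕ} {G : Set Edg} (h : H12S.Crs c1 c2 ρ R G) :
    H12S.Crs c1 c2 ρ R (G ∩ ↑(RE (c1 - R) (c1 + R) (c2 - R) (c2 + R))) := by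
  obtain ⟨x, y, hx, hy, hr⟩ := h
  obtain ⟨w, hw, hxw⟩ := BL_stop (E := ↑(RE (c1 - R) (c1 + R) (c2 - R) (c2 + R)))
    (P := fun v => ¬ (v.1 ≤ c1 - R ∨ c1 + R ≤ v.1 ∨ v.2 ≤ c2 - R ∨ c2 + R ≤ v.2)) (by
      rintro ⟨a, b, bo⟩ h
      cases bo
      · rw [Finset.mem_coe, mem_RE_false]
        simp only [src_mk, tgt_false] at h
        omega
      · rw [Finset.mem_coe, mem_RE_true]
        simp only [src_mk, tgt_true] at h
        omega) hr (not_not_intro hy)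
  exact ⟨x, w, hx, not_not.mp hw, hxw⟩

theorem BL_dcrs_loc {c1 c2 : ℤ} {ρ R : ℕ} {G : Set Edg} (h : H12S.DCrs c1 c2 ρ R G) :
    H12S.DCrs c1 c2 ρ R (G ∩ ↑(RE (c1 - R) (c1 + R) (c2 - R) (c2 + R))) := by
  obtain ⟨x, y, hx, hy, hr⟩ := h
  obtain ⟨w, hw, hxw⟩ := BL_dstop (E := ↑(RE (c1 - R) (c1 + R) (c2 - R) (c2 + R)))
    (P := fun v => ¬ (v.1 ≤ c1 - R ∨ c1 + R ≤ v.1 ∨ v.2 ≤ c2 - R ∨ c2 + R ≤ v.2)) (by
      rintro ⟨a, b, bo⟩ h
      cases bo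
      · rw [Finset.mem_coe, mem_RE_false]
        simp only [dtgt_mk, dsrc_false] at h
        omega
      · rw [Finset.mem_coe, mem_RE_true]
        simp only [dtgt_mk, dsrc_true] at h
        omega) hr (not_not_intro hy)
  exact ⟨x, w, hx, not_not.mp hw, hxw⟩

theorem BL_H3p_congr {m : ℕ} {y0 : ℤ} {r R : ℕ} {F F' : Set Edg}
    (h : F ∩ ↑(hbR m y0 R) = F' ∩ ↑(hbR m y0 R)) : H3p m y0 r R F ↔ H3p m y0 r R F' := by
  unfold H3p; rw [h]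

theorem BL_H3d_congr {m : ℕ} {y0 : ℤ} {r R : ℕ} {F F' : Set Edg}
    (h : F ∩ ↑(hbR m y0 R) = F' ∩ ↑(hbR m y0 R)) : H3d m y0 r R F ↔ H3d m y0 r R F' := by
  have h2 : (↑(hbR m y0 R) : Set Edg) \ F = ↑(hbR m y0 R) \ F' := by
    rw [← Set.sdiff_inter_self_eq_sdiff (s := (↑(hbR m y0 R) : Set Edg)) (t := F),
      ← Set.sdiff_inter_self_eq_sdiff (s := (↑(hbR m y0 R) : Set Edg)) (t := F'), h]
  unfold H3d; rw [h2]

/-- arms at `p = 1/2` -/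
theorem BL_arm : ∃ C c : ℝ, 0 < C ∧ 0 < c ∧ ∀ ρ R : ℕ, 1 ≤ ρ → ρ ≤ R →
    ∀ (c1 c2 : ℤ) (S : Finset Edg),
      H12S.PQ (1 / 2) S (fun F => H12S.Crs c1 c2 ρ R ↑F) ≤ C * ((ρ:ℝ) / R) ^ c ∧
      H12S.PQ (1 / 2) S (fun F => H12S.DCrs c1 c2 ρ R (↑(S \ F) : Set Edg)) ≤
        C * ((ρ:ℝ) / R) ^ c := by
  obtain ⟨κ, hκ, hW⟩ := H12S.win_half
  obtain ⟨C, c, hC, hc, h⟩ := H12S.win_arm_of
    (fun {q κ n} h {m} hm hmn c1 c2 S => H12S.win_blk h hm hmn c1 c2 S) κ hκ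
  exact ⟨C, c, hC, hc, fun ρ R h1 h2 c1 c2 S => h (1 / 2) R (hW R) ρ R h1 h2 le_rfl c1 c2 S⟩

/-- the symmetries preserve the boxes -/
theorem BL_img (s : Fin 4) (m : ℕ) (F : Finset Edg) :
    (sy s).φ '' (↑(F \ boxE m) : Set Edg) = ((sy s).φ '' ↑F) \ ↑(boxE m) := by
  ext e
  constructor
  · rintro ⟨e', he', rfl⟩
    rw [Finset.mem_coe, Finset.mem_sdiff] at he'
    refine ⟨⟨e', he'.1, rfl⟩, ?_⟩
    rw [Finset.mem_coe, sy_mem_box]
    exact he'.2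
  · rintro ⟨⟨e', he', rfl⟩, h⟩
    rw [Finset.mem_coe, sy_mem_box] at h
    exact ⟨e', by rw [Finset.mem_coe, Finset.mem_sdiff]; exact ⟨he', h⟩, rfl⟩

theorem BL_pr (s : Fin 4) (q : ℝ) (U : Finset Edg) (A : Set Edg → Prop) :
    H12S.PQ q U (fun F => A ((sy s).φ '' ↑F)) =
      H12S.PQ q ((sy s).toLSym.mp U) (fun F => A ↑F) := by
  rw [H12S.PQ, H12S.PQ, LSym.pr]
  apply Pr_congr
  intro F _
  rw [LSym.coe_mp]

theorem BL_box_sub {s : Fin 4} {m : ℕ} {U : Finset Edg} (h : boxE m ⊆ U) :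
    boxE m ⊆ (sy s).toLSym.mp U := by
  rw [← sy_box s m]
  exact LSym.mp_mono _ h

end H985T
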