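import Pool.Agent.H985R3.TA.BGDof
import Pool.Agent.H985R3.TA.SYM
import Pool.Agent.H985R3.TA.Defs4

/-!
Two-arm project, task BSLI: the bad event for the selection of the landing places, inward
(from the bound of the three arm event, monotonicity and independence).
-/

set_option autoImplicit false

namespace H985T

open H974 Finset

/-- the three arm event depends only on the half ball -/
theorem BSLI_H3di_congr {a : ℕ} {y0 : ℤ} {r R : ℕ} {F G : Set Edg}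
    (h : (↑(hbI a y0 R) : Set Edg) \ F = ↑(hbI a y0 R) \ G) :
    H3di a y0 r R F ↔ H3di a y0 r R G := by
  unfold H3di
  rw [h]

theorem BSLI_hbI_sub {a R N : ℕ} {y0 : ℤ} (h1 : a + R ≤ N) (h2 : |y0| + R ≤ a) :
    hbI a y0 R ⊆ An a N := by
  have h3 := abs_le.1 (show |y0| ≤ (a:ℤ) - R by linarith)
  have h1' : (a:ℤ) + R ≤ N := by exact_mod_cast h1
  unfold hbI An boxE
  rintro ⟨x, y, _ | _⟩ h8
  · simp only [Finset.mem_sdiff, mem_RE_false] at h8 ⊢; omega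
  · simp only [Finset.mem_sdiff, mem_RE_true] at h8 ⊢; omega

theorem BSLI_crs_local {a N : ℕ} {y0 : ℤ} {r R : ℕ} (hy : |y0| ≤ a) (hR : R + 2 ≤ a)
    {F : Set Edg} (h : H12S.Crs a y0 r R (F ∩ ↑(An a N))) :
    H12S.Crs a y0 r R (F ∩ ↑(An a (2 * a))) := by
  have hy' := abs_le.1 hy
  refine H12S.WA_crs_local ?_ h
  intro e he hF
  refine ⟨hF.1, ?_⟩
  have h1 := hF.2
  rw [Finset.mem_coe] at h1 ⊢
  have h2 := H12S.WA_T_prim he
  unfold An boxE at h1 ⊢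
  unfold H12S.WA_P inR at h2
  obtain ⟨x, y, _ | _⟩ := e
  · simp only [Finset.mem_sdiff, mem_RE_false, src_mk, tgt_false] at h1 h2 ⊢; omega
  · simp only [Finset.mem_sdiff, mem_RE_true, src_mk, tgt_true] at h1 h2 ⊢; omega

theorem BSLI_dcrs_local {a N : ℕ} {y0 : ℤ} {r R : ℕ} (hy : |y0| ≤ a) (hR : R + 2 ≤ a)
    {F : Set Edg} (h : H12S.DCrs a y0 r R (↑(An a N) \ F)) :
    H12S.DCrs a y0 r R (↑(An a (2 * a)) \ F) := by
  have hy' := abs_le.1 hy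
  refine H12S.WA_dcrs_local ?_ h
  intro e he hF
  refine ⟨?_, hF.2⟩
  have h1 := hF.1
  rw [Finset.mem_coe] at h1 ⊢
  have h2 := H12S.WA_T_dual he
  unfold An boxE at h1 ⊢
  unfold H12S.WA_P inR at h2
  obtain ⟨x, y, _ | _⟩ := e
  · simp only [Finset.mem_sdiff, mem_RE_false, dsrc_false, dtgt_mk] at h1 h2 ⊢; omega
  · simp only [Finset.mem_sdiff, mem_RE_true, dsrc_true, dtgt_mk] at h1 h2 ⊢; omega

/-- the localised bad event on one side -/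
def BSLI_Bd (a ρ r0 R : ℕ) (G : Finset Edg) : Prop :=
  ((H12S.Crs a a r0 (a / 4) (↑G ∩ ↑(An a (2 * a))) ∨
      H12S.Crs a (-(a:ℤ)) r0 (a / 4) (↑G ∩ ↑(An a (2 * a)))) ∨
    (H12S.DCrs a a r0 (a / 4) (↑(An a (2 * a)) \ ↑G) ∨
      H12S.DCrs a (-(a:ℤ)) r0 (a / 4) (↑(An a (2 * a)) \ ↑G))) ∨
    ∃ k : ℤ, |(ρ:ℤ) * k| + r0 ≤ a + ρ ∧ H3di a (ρ * k) (8 * ρ + 1) R ↑G

theorem BSLI_not {a N ρ r0 R : ℕ} (ha : 8 ≤ a) {F : Finset Edg}
    (h : ¬ SelGoodi a N ρ r0 R ↑F) : ∃ s : Fin 4, BSLI_Bd a ρ r0 R ((sy s).toLSym.mp F) := by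
  by_contra hc
  apply h
  have hc' : ∀ s : Fin 4, ¬ BSLI_Bd a ρ r0 R ((sy s).toLSym.mp F) := fun s hs => hc ⟨s, hs⟩
  have h4 : a / 4 + 2 ≤ a := by omega
  have hy1 : |(a:ℤ)| ≤ a := le_of_eq (abs_of_nonneg (by positivity))
  have hy2 : |(-(a:ℤ))| ≤ a := by rw [abs_neg]; exact hy1
  refine ⟨fun s => ⟨fun h1 => hc' s ?_, fun h1 => hc' s ?_⟩,
    fun s => ⟨fun h1 => hc' s ?_, fun h1 => hc' s ?_⟩, fun s k hk h1 => hc' s ?_⟩
  · rw [← LSym.coe_mp] at h1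
    exact Or.inl (Or.inl (Or.inl (BSLI_crs_local hy1 h4 h1)))
  · rw [← LSym.coe_mp] at h1
    exact Or.inl (Or.inl (Or.inr (BSLI_crs_local hy2 h4 h1)))
  · rw [← LSym.coe_mp] at h1
    exact Or.inl (Or.inr (Or.inl (BSLI_dcrs_local hy1 h4 h1)))
  · rw [← LSym.coe_mp] at h1
    exact Or.inl (Or.inr (Or.inr (BSLI_dcrs_local hy2 h4 h1)))
  · rw [← LSym.coe_mp] at h1
    exact Or.inr ⟨k, hk, h1⟩

theorem BSLI_Bd_local {a ρ r0 R : ℕ} (h1 : 2 * R + 40 * ρ ≤ r0) (h2 : 8 * r0 ≤ a)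
    (G : Finset Edg) :
    BSLI_Bd a ρ r0 R G ↔ BSLI_Bd a ρ r0 R (G ∩ boxE (2 * a)) := by
  unfold BSLI_Bd
  have e1 : (↑G : Set Edg) ∩ ↑(An a (2 * a)) = ↑(G ∩ boxE (2 * a)) ∩ ↑(An a (2 * a)) := by
    ext e
    unfold An
    simp only [Finset.coe_inter, Finset.coe_sdiff, Set.mem_inter_iff, Set.mem_sdiff,
      Finset.mem_coe]
    tauto
  have e2 : (↑(An a (2 * a)) : Set Edg) \ ↑G = ↑(An a (2 * a)) \ ↑(G ∩ boxE (2 * a)) := by
    ext e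
    unfold An
    simp only [Finset.coe_inter, Finset.coe_sdiff, Set.mem_inter_iff, Set.mem_sdiff,
      Finset.mem_coe]
    tauto
  have e3 : ∀ k : ℤ, (|(ρ:ℤ) * k| + r0 ≤ a + ρ ∧ H3di a (ρ * k) (8 * ρ + 1) R ↑G) ↔
      (|(ρ:ℤ) * k| + r0 ≤ a + ρ ∧ H3di a (ρ * k) (8 * ρ + 1) R ↑(G ∩ boxE (2 * a))) := by
    intro k
    refine and_congr_right fun hk => BSLI_H3di_congr ?_
    have h3 : hbI a ((ρ:ℤ) * k) R ⊆ An a (2 * a) := by
      refine BSLI_hbI_sub (by omega) ?_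
      have : (2 * (R:ℤ)) + 40 * ρ ≤ r0 := by exact_mod_cast h1
      have h0 : (0:ℤ) ≤ ρ := by positivity
      have h00 : (0:ℤ) ≤ R := by positivity
      linarith
    ext e
    simp only [Finset.coe_inter, Set.mem_inter_iff, Set.mem_sdiff, Finset.mem_coe]
    constructor
    · rintro ⟨h4, h5⟩
      exact ⟨h4, fun h6 => h5 h6.1⟩
    · rintro ⟨h4, h5⟩
      have h6 := h3 h4
      unfold An at h6
      exact ⟨h4, fun h7 => h5 ⟨h7, (Finset.mem_sdiff.1 h6).1⟩⟩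
  rw [← e1, ← e2]
  simp only [e3]

theorem BSLI_mp_An (s : Fin 4) (a N : ℕ) : (sy s).toLSym.mp (An a N) = An a N := by
  unfold An
  rw [LSym.mp_sdiff, sy_box, sy_box]

theorem BSLI_crs_mono {c1 c2 : ℤ} {a R : ℕ} {H H' : Set Edg} (hH : H ⊆ H')
    (h : H12S.Crs c1 c2 a R H) : H12S.Crs c1 c2 a R H' := by
  obtain ⟨x, y, h1, h2, h3⟩ := h
  exact ⟨x, y, h1, h2, h3.mono hH⟩

theorem bad_seli_of
    (H3di_prob : ∃ C c : ℝ, 0 < C ∧ 0 < c ∧ ∀ (a r R : ℕ) (y0 : ℤ) (U : Finset Edg),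
      1 ≤ r → r ≤ R → |y0| + R ≤ a → hbI a y0 R ⊆ U →
      H12S.PQ (1 / 2) U (fun F => H3di a y0 r R ↑F) ≤ C * ((r:ℝ) / R) ^ (1 + c))
    (AA_mono : ∀ {a b N : ℕ} (_ : a ≤ b) (_ : b ≤ N) {F : Set Edg} (_ : AA a N F), AA b N F)
    (outer_indep : ∀ {b N : ℕ} (_ : b ≤ N) {U : Finset Edg} (_ : An b N ⊆ U)
      {Bd : Finset Edg → Prop} (_ : ∀ F, F ⊆ U → (Bd F ↔ Bd (F ∩ boxE b))),
      H12S.PQ (1 / 2) U (fun F => AA b N ↑F ∧ Bd F) = pAA b N * H12S.PQ (1 / 2) U Bd) :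
    ∀ η : ℝ, 0 < η → ∃ D₀ : ℕ, 1 ≤ D₀ ∧ ∀ D, D₀ ≤ D → ∀ a N ρ : ℕ, 1 ≤ ρ →
    D * ρ ≤ a → a ≤ 2 * D * ρ → 2 * a ≤ N → ∃ r0 R : ℕ, 10 * ρ ≤ R ∧ 2 * R + 40 * ρ ≤ r0 ∧
      8 * r0 ≤ a ∧
      H12S.PQ (1 / 2) (An a N) (fun F => AA a N ↑F ∧ ¬ SelGoodi a N ρ r0 R ↑F) ≤
        η * pAA (2 * a) N := by
  intro η hη
  obtain ⟨κ, hκ, hW⟩ := H12S.win_half
  obtain ⟨C', c', hC', hc', harm⟩ := H12S.win_arm_of
    (fun {q κ n} h {m} hm hmn c1 c2 S => H12S.win_blk h hm hmn c1 c2 S) κ hκ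
  obtain ⟨C, c, hC, hc, hH3⟩ := H3di_prob
  obtain ⟨N1, hN1⟩ := BGD_small hc' (16 * C') 8 (half_pos hη)
  obtain ⟨N0, hN0⟩ : ∃ N0, N0 = max N1 8 := ⟨_, rfl⟩
  have hN08 : 8 ≤ N0 := hN0 ▸ le_max_right _ _
  have hN0η := hN1 N0 (hN0 ▸ le_max_left _ _)
  obtain ⟨D1, hD1⟩ := BGD_small hc (28 * 144 * N0 * C) (144 * N0) (half_pos hη)
  refine ⟨max D1 (200 * N0), le_trans (by omega) (le_max_right _ _), ?_⟩
  intro D hD a N ρ hρ hDa haD haN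
  have hD200 : 200 * N0 ≤ D := le_trans (le_max_right _ _) hD
  have hDη := hD1 D (le_trans (le_max_left _ _) hD)
  have hDpos : 1 ≤ D := by omega
  have ok : Ok (fun _ : Edg => (1/2:ℝ)) := okq (by norm_num) (by norm_num)
  -- the radii
  obtain ⟨r0, hr0⟩ : ∃ r0, r0 = a / N0 := ⟨_, rfl⟩
  obtain ⟨R, hR⟩ : ∃ R, R = r0 / 4 := ⟨_, rfl⟩
  have hr0a : r0 * N0 ≤ a := by rw [hr0]; exact Nat.div_mul_le_self a N0
  have hr0ρ : 200 * ρ ≤ r0 := by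
    rw [hr0, Nat.le_div_iff_mul_le (by omega)]
    calc 200 * ρ * N0 = 200 * N0 * ρ := by ring
      _ ≤ D * ρ := Nat.mul_le_mul_right ρ hD200
      _ ≤ a := hDa
  have h8 : 8 * r0 ≤ a := by
    calc 8 * r0 = r0 * 8 := by ring
      _ ≤ r0 * N0 := Nat.mul_le_mul_left r0 hN08
      _ ≤ a := hr0a
  have ha8 : 8 ≤ a := by omega
  have hR1 : 10 * ρ ≤ R := by omega
  have hR2 : 2 * R + 40 * ρ ≤ r0 := by omega
  have haR : a ≤ 14 * N0 * R := by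
    have h1 : a < N0 * (r0 + 1) := by
      rw [hr0]
      exact Nat.lt_mul_div_succ a (by omega)
    have h2 : r0 + 1 ≤ 8 * R := by omega
    have h3 : r0 + 1 ≤ 14 * R := by omega
    calc a ≤ N0 * (r0 + 1) := h1.le
      _ ≤ N0 * (14 * R) := Nat.mul_le_mul_left N0 h3
      _ = 14 * N0 * R := by ring
  refine ⟨r0, R, hR1, hR2, h8, ?_⟩
  -- reduction to the localised event
  have hloc : ∀ F, F ⊆ An a N → ((∃ s : Fin 4, BSLI_Bd a ρ r0 R ((sy s).toLSym.mp F)) ↔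
      ∃ s : Fin 4, BSLI_Bd a ρ r0 R ((sy s).toLSym.mp (F ∩ boxE (2 * a)))) := by
    intro F _
    refine exists_congr fun s => ?_
    rw [LSym.mp_inter, sy_box]
    exact BSLI_Bd_local hR2 h8 _
  have hsub : An (2 * a) N ⊆ An a N := by
    unfold An
    exact Finset.sdiff_subset_sdiff le_rfl (boxE_mono (by omega))
  have h1 : H12S.PQ (1 / 2) (An a N) (fun F => AA a N ↑F ∧ ¬ SelGoodi a N ρ r0 R ↑F) ≤
      H12S.PQ (1 / 2) (An a N) (fun F => AA (2 * a) N ↑F ∧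
        ∃ s : Fin 4, BSLI_Bd a ρ r0 R ((sy s).toLSym.mp F)) :=
    Pr_mono ok fun F _ hF => ⟨AA_mono (by omega) haN hF.1, BSLI_not ha8 hF.2⟩
  have h2 := outer_indep (b := 2 * a) haN hsub
    (Bd := fun F => ∃ s : Fin 4, BSLI_Bd a ρ r0 R ((sy s).toLSym.mp F)) hloc
  -- real numbers
  have hN0r : (0:ℝ) < N0 := by exact_mod_cast (by omega : 0 < N0)
  have hDr : (0:ℝ) < D := by exact_mod_cast hDpos
  have hρr : (1:ℝ) ≤ ρ := by exact_mod_cast hρ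
  have hRr : (0:ℝ) < R := by exact_mod_cast (by omega : 0 < R)
  have har : (0:ℝ) < a := by exact_mod_cast (by omega : 0 < a)
  -- the corners
  have hcor : ∀ x : ℝ, x ≤ C' * ((r0:ℝ) / ((a / 4 : ℕ) : ℝ)) ^ c' → x ≤ C' * ((8:ℝ) / N0) ^ c' := by
    intro x hx
    refine hx.trans (mul_le_mul_of_nonneg_left ?_ hC'.le)
    refine Real.rpow_le_rpow (by positivity) ?_ hc'.le
    have h3 : a ≤ 8 * (a / 4) := by omega
    have h4 : (a:ℝ) ≤ 8 * ((a / 4 : ℕ) : ℝ) := by exact_mod_cast h3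
    have h5 : (0:ℝ) < ((a / 4 : ℕ) : ℝ) := by linarith
    rw [div_le_div_iff₀ h5 hN0r]
    have h6 : (r0:ℝ) * N0 ≤ a := by exact_mod_cast hr0a
    linarith
  have hc1 : ∀ y0 : ℤ, H12S.PQ (1 / 2) (An a N) (fun F => H12S.Crs a y0 r0 (a / 4)
      (↑F ∩ ↑(An a (2 * a)))) ≤ C' * ((8:ℝ) / N0) ^ c' := by
    intro y0
    have h6 := (harm (1/2) (a / 4) (hW (a / 4)) r0 (a / 4) (by omega) (by omega) le_rfl
      a y0 (An a N)).1
    exact le_trans (Pr_mono ok fun F _ hF => BSLI_crs_mono (fun e he => he.1) hF) (hcor _ h6)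
  have hc2 : ∀ y0 : ℤ, H12S.PQ (1 / 2) (An a N) (fun F => H12S.DCrs a y0 r0 (a / 4)
      (↑(An a (2 * a)) \ ↑F)) ≤ C' * ((8:ℝ) / N0) ^ c' := by
    intro y0
    have h6 := (harm (1/2) (a / 4) (hW (a / 4)) r0 (a / 4) (by omega) (by omega) le_rfl
      a y0 (An a N)).2
    refine le_trans (Pr_mono ok fun F _ hF => BGD_dcrs_mono ?_ hF) (hcor _ h6)
    intro e he
    rw [Finset.coe_sdiff]
    refine ⟨?_, he.2⟩
    have h7 := he.1
    unfold An at h7 ⊢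
    rw [Finset.mem_coe, Finset.mem_sdiff] at h7 ⊢
    exact ⟨boxE_mono haN h7.1, h7.2⟩
  -- the three arm events
  obtain ⟨T, hT⟩ : ∃ T, T = Finset.Icc (-(2 * (D:ℤ) + 1)) (2 * (D:ℤ) + 1) := ⟨_, rfl⟩
  have hTc : (T.card : ℝ) ≤ 7 * D := by
    have h3 : T.card = 4 * D + 3 := by
      rw [hT, Int.card_Icc]
      omega
    rw [h3]
    have h4 : (1:ℝ) ≤ D := by exact_mod_cast hDpos
    push_cast
    linarith
  have hx0 : (0:ℝ) ≤ C * ((144 * N0 : ℝ) / D) ^ (1 + c) := by positivity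
  have h3 : H12S.PQ (1 / 2) (An a N) (fun F => ∃ k : ℤ, |(ρ:ℤ) * k| + r0 ≤ a + ρ ∧
      H3di a (ρ * k) (8 * ρ + 1) R ↑F) ≤ T.card * (C * ((144 * N0 : ℝ) / D) ^ (1 + c)) := by
    refine le_trans (Pr_mono (B := fun F => ∃ k ∈ T, |(ρ:ℤ) * k| + r0 ≤ a + ρ ∧
      H3di a (ρ * k) (8 * ρ + 1) R ↑F) ok fun F _ => ?_) (BGD_union ok (An a N) T _ fun k _ => ?_)
    · rintro ⟨k, hk, hF⟩
      refine ⟨k, ?_, hk, hF⟩
      have h4 : (ρ:ℤ) * |k| ≤ ρ * (2 * D + 1) := by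
        have h5 : |(ρ:ℤ) * k| = ρ * |k| := by rw [abs_mul, abs_of_nonneg (by positivity)]
        rw [h5] at hk
        have h6 : (a:ℤ) ≤ 2 * D * ρ := by exact_mod_cast haD
        have h7 : (0:ℤ) ≤ r0 := by positivity
        nlinarith
      have h5 : |k| ≤ 2 * D + 1 := le_of_mul_le_mul_left h4 (by exact_mod_cast hρ)
      rw [hT, Finset.mem_Icc]
      exact abs_le.1 h5
    · by_cases hk : |(ρ:ℤ) * k| + r0 ≤ a + ρ
      · have h4 : |(ρ:ℤ) * k| + R ≤ a := by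
          have h5 : (2 * (R:ℤ)) + 40 * ρ ≤ r0 := by exact_mod_cast hR2
          have h6 : (0:ℤ) ≤ ρ := by positivity
          have h7 : (0:ℤ) ≤ R := by positivity
          linarith
        have h5 : hbI a ((ρ:ℤ) * k) R ⊆ An a N := BSLI_hbI_sub (by omega) h4
        have h6 := hH3 a (8 * ρ + 1) R ((ρ:ℤ) * k) (An a N) (by omega) (by omega) h4 h5
        refine le_trans (Pr_mono ok fun F _ hF => hF.2) (h6.trans ?_)
        refine mul_le_mul_of_nonneg_left ?_ hC.le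
        refine Real.rpow_le_rpow (by positivity) ?_ (by linarith)
        rw [div_le_div_iff₀ hRr hDr]
        have h7 : (a:ℝ) ≤ 14 * N0 * R := by exact_mod_cast haR
        have h8' : (D:ℝ) * ρ ≤ a := by exact_mod_cast hDa
        have h9 : ((8 * ρ + 1 : ℕ) : ℝ) ≤ 9 * ρ := by push_cast; linarith
        calc ((8 * ρ + 1 : ℕ) : ℝ) * D ≤ 9 * ρ * D := mul_le_mul_of_nonneg_right h9 hDr.le
          _ ≤ 9 * (14 * N0 * R) := by linarith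
          _ ≤ 144 * N0 * R := by nlinarith [mul_pos hN0r hRr]
      · refine le_trans (le_of_eq ?_) hx0
        have h4 : Pr (fun _ : Edg => (1/2:ℝ)) (An a N) (fun F => |(ρ:ℤ) * k| + r0 ≤ a + ρ ∧
            H3di a (ρ * k) (8 * ρ + 1) R ↑F) ≤ 0 := by
          unfold Pr
          refine Ex_le_of_le ok fun F _ => ?_
          rw [ind_not_of (fun h => hk h.1)]
        exact le_antisymm h4 (Pr_nonneg ok _ _)
  have h4 : 4 * ((T.card : ℝ) * (C * ((144 * N0 : ℝ) / D) ^ (1 + c))) ≤ η / 2 := by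
    have h5 : ((144 * N0 : ℝ) / D) ^ (1 + c) = (144 * N0 / D) * (144 * N0 / D) ^ c := by
      rw [Real.rpow_add (by positivity), Real.rpow_one]
    have h6 := mul_le_mul_of_nonneg_right hTc hx0
    refine le_trans (mul_le_mul_of_nonneg_left h6 (by norm_num)) (le_trans (le_of_eq ?_) hDη)
    rw [h5]
    field_simp
    ring
  -- one side
  have h5 : H12S.PQ (1 / 2) (An a N) (BSLI_Bd a ρ r0 R) ≤ 4 * (C' * ((8:ℝ) / N0) ^ c') +
      T.card * (C * ((144 * N0 : ℝ) / D) ^ (1 + c)) := by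
    have g1 := Pr_or_le ok (An a N)
      (fun F => (H12S.Crs a a r0 (a / 4) ((↑F : Set Edg) ∩ ↑(An a (2 * a))) ∨
          H12S.Crs a (-(a:ℤ)) r0 (a / 4) ((↑F : Set Edg) ∩ ↑(An a (2 * a)))) ∨
        (H12S.DCrs a a r0 (a / 4) ((↑(An a (2 * a)) : Set Edg) \ ↑F) ∨
          H12S.DCrs a (-(a:ℤ)) r0 (a / 4) ((↑(An a (2 * a)) : Set Edg) \ ↑F)))
      (fun F => ∃ k : ℤ, |(ρ:ℤ) * k| + r0 ≤ a + ρ ∧ H3di a (ρ * k) (8 * ρ + 1) R ↑F)
    have g2 := Pr_or_le ok (An a N)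
      (fun F => H12S.Crs a a r0 (a / 4) ((↑F : Set Edg) ∩ ↑(An a (2 * a))) ∨
          H12S.Crs a (-(a:ℤ)) r0 (a / 4) ((↑F : Set Edg) ∩ ↑(An a (2 * a))))
      (fun F => H12S.DCrs a a r0 (a / 4) ((↑(An a (2 * a)) : Set Edg) \ ↑F) ∨
          H12S.DCrs a (-(a:ℤ)) r0 (a / 4) ((↑(An a (2 * a)) : Set Edg) \ ↑F))
    have g3 := Pr_or_le ok (An a N)
      (fun F => H12S.Crs a a r0 (a / 4) ((↑F : Set Edg) ∩ ↑(An a (2 * a))))
      (fun F => H12S.Crs a (-(a:ℤ)) r0 (a / 4) ((↑F : Set Edg) ∩ ↑(An a (2 * a))))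
    have g4 := Pr_or_le ok (An a N)
      (fun F => H12S.DCrs a a r0 (a / 4) ((↑(An a (2 * a)) : Set Edg) \ ↑F))
      (fun F => H12S.DCrs a (-(a:ℤ)) r0 (a / 4) ((↑(An a (2 * a)) : Set Edg) \ ↑F))
    have g5 := hc1 a
    have g6 := hc1 (-(a:ℤ))
    have g7 := hc2 a
    have g8 := hc2 (-(a:ℤ))
    unfold H12S.PQ at g5 g6 g7 g8 h3 ⊢
    unfold BSLI_Bd
    linarith
  -- the union over the sides
  have h6 : H12S.PQ (1 / 2) (An a N)
      (fun F => ∃ s : Fin 4, BSLI_Bd a ρ r0 R ((sy s).toLSym.mp F)) ≤ η := by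
    have g1 := BGD_union ok (An a N) (Finset.univ : Finset (Fin 4))
      (fun s F => BSLI_Bd a ρ r0 R ((sy s).toLSym.mp F))
      (x := 4 * (C' * ((8:ℝ) / N0) ^ c') + T.card * (C * ((144 * N0 : ℝ) / D) ^ (1 + c)))
      (fun s _ => by
        rw [← (sy s).toLSym.pr (1 / 2) (An a N) (BSLI_Bd a ρ r0 R), BSLI_mp_An]
        exact h5)
    have g2 : H12S.PQ (1 / 2) (An a N)
        (fun F => ∃ s : Fin 4, BSLI_Bd a ρ r0 R ((sy s).toLSym.mp F)) ≤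
        Pr (fun _ => 1 / 2) (An a N)
          (fun F => ∃ s ∈ (Finset.univ : Finset (Fin 4)), BSLI_Bd a ρ r0 R ((sy s).toLSym.mp F)) :=
      Pr_mono ok fun F _ hF => by
        obtain ⟨s, hs⟩ := hF
        exact ⟨s, Finset.mem_univ s, hs⟩
    refine g2.trans (g1.trans ?_)
    rw [Finset.card_univ, Fintype.card_fin]
    push_cast
    linarith
  refine le_trans h1 (le_of_eq_of_le h2 ?_)
  rw [mul_comm]
  exact mul_le_mul_of_nonneg_right h6 (Pr_nonneg ok _ _)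

end H985T
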