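import Pool.Agent.H985R3.TA.BGPof

/-!
Two-arm project: bad events for the selection of the landing places (task BSL), from the
statements of the tasks IND, MON and HPD (taken as hypotheses).
-/

set_option autoImplicit false

namespace H985T

open H974 Finset Filter Topology

theorem BSL_or5 {S : Finset Edg} {A B C D E : Finset Edg → Prop} {a b c d e : ℝ}
    (hA : H12S.PQ (1 / 2) S A ≤ a) (hB : H12S.PQ (1 / 2) S B ≤ b) (hC : H12S.PQ (1 / 2) S C ≤ c)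
    (hD : H12S.PQ (1 / 2) S D ≤ d) (hE : H12S.PQ (1 / 2) S E ≤ e) :
    H12S.PQ (1 / 2) S (fun F => A F ∨ B F ∨ C F ∨ D F ∨ E F) ≤ a + b + c + d + e := by
  have hOk : Ok (fun _ : Edg => (1 / 2 : ℝ)) := okq (by norm_num) (by norm_num)
  have h1 := Pr_or_le hOk S A (fun F => B F ∨ C F ∨ D F ∨ E F)
  have h2 := Pr_or_le hOk S B (fun F => C F ∨ D F ∨ E F)
  have h3 := Pr_or_le hOk S C (fun F => D F ∨ E F)
  have h4 := Pr_or_le hOk S D E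
  unfold H12S.PQ at *
  linarith

/-- the centres -/
noncomputable def BSL_K (m ρ : ℕ) : Finset ℤ := Finset.Icc (-((m:ℤ) / ρ) - 1) ((m:ℤ) / ρ + 1)

theorem BSL_K_mem {m ρ r0 : ℕ} (hρ : 1 ≤ ρ) {k : ℤ} (h : |(ρ:ℤ) * k| + r0 ≤ m + ρ) :
    k ∈ BSL_K m ρ := by
  have hρ' : (0:ℤ) < ρ := by exact_mod_cast hρ
  have h0 : |(ρ:ℤ) * k| ≤ m + ρ := by
    have : (0:ℤ) ≤ r0 := by positivity
    linarith
  obtain ⟨h1, h2⟩ := abs_le.mp h0
  have e : ((m:ℤ) + ρ) / ρ = (m:ℤ) / ρ + 1 := by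
    rw [Int.add_ediv_of_dvd_right (dvd_refl _), Int.ediv_self hρ'.ne']
  unfold BSL_K
  rw [Finset.mem_Icc]
  constructor
  · have h3 : -k ≤ ((m:ℤ) + ρ) / ρ := Int.le_ediv_of_mul_le hρ' (by linarith)
    rw [e] at h3
    linarith
  · have h3 : k ≤ ((m:ℤ) + ρ) / ρ := Int.le_ediv_of_mul_le hρ' (by linarith)
    rw [e] at h3
    exact h3

theorem BSL_K_card {m ρ D : ℕ} (hρ : 1 ≤ ρ) (h : m ≤ 2 * D * ρ) :
    ((BSL_K m ρ).card : ℝ) ≤ 4 * D + 3 := by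
  have hρ' : (0:ℤ) < ρ := by exact_mod_cast hρ
  have h1 : (m:ℤ) / ρ ≤ 2 * D := by
    have h2 := Int.ediv_le_ediv hρ' (show (m:ℤ) ≤ 2 * D * ρ by exact_mod_cast h)
    rwa [Int.mul_ediv_cancel _ hρ'.ne'] at h2
  have h0 : 0 ≤ (m:ℤ) / ρ := Int.ediv_nonneg (by positivity) hρ'.le
  unfold BSL_K
  rw [Int.card_Icc]
  have h3 : ((m:ℤ) / ρ + 1 + 1 - (-((m:ℤ) / ρ) - 1)).toNat ≤ 4 * D + 3 := by omega
  calc ((((m:ℤ) / ρ + 1 + 1 - (-((m:ℤ) / ρ) - 1)).toNat : ℕ) : ℝ) ≤ ((4 * D + 3 : ℕ) : ℝ) := by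
        exact_mod_cast h3
    _ = 4 * D + 3 := by push_cast; ring

theorem BSL_dcrs_set (m' : ℕ) (s : Fin 4) (F : Finset Edg) (m : ℕ) :
    ((↑(boxE m) : Set Edg) \ ((sy s).φ '' ↑(F \ boxE m'))) \ ↑(boxE m') =
      ((↑(boxE m) : Set Edg) \ ((sy s).φ '' ↑F)) \ ↑(boxE m') := by
  rw [BL_img]
  ext e
  constructor
  · rintro ⟨⟨h1, h2⟩, h3⟩
    exact ⟨⟨h1, fun h4 => h2 ⟨h4, h3⟩⟩, h3⟩
  · rintro ⟨⟨h1, h2⟩, h3⟩
    exact ⟨⟨h1, fun h4 => h2 h4.1⟩, h3⟩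

theorem BSL_dcrs_mono {c1 c2 : ℤ} {ρ R : ℕ} {F G : Set Edg} (h : F ⊆ G)
    (hF : H12S.DCrs c1 c2 ρ R F) : H12S.DCrs c1 c2 ρ R G := H12S.DCrs.mono h hF

theorem bad_sel_of
    (inner_indep : ∀ {m : ℕ} {f0 : ℤ} (_ : f0 = 0 ∨ f0 = -1) {U : Finset Edg}
      (_ : boxE m ⊆ U) {Bd : Finset Edg → Prop}
      (_ : ∀ F, F ⊆ U → (Bd F ↔ Bd (F \ boxE m))),
      H12S.PQ (1 / 2) U (fun F => A2g m (f0, f0) ↑F ∧ Bd F) = pi2 m * H12S.PQ (1 / 2) U Bd)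
    (A2g_half : ∀ {m : ℕ} {f : Vtx} (_ : corner (0, 0) f) {F : Set Edg} (_ : A2g m f F),
      A2g (m / 2) f F)
    (H3d_prob : ∃ C c : ℝ, 0 < C ∧ 0 < c ∧ ∀ (m r R : ℕ) (y0 : ℤ) (U : Finset Edg),
      1 ≤ r → r ≤ R → hbR m y0 R ⊆ U →
      H12S.PQ (1 / 2) U (fun F => H3d m y0 r R ↑F) ≤ C * ((r:ℝ) / R) ^ (1 + c)) :
    ∀ η : ℝ, 0 < η → ∃ D₀ : ℕ, 1 ≤ D₀ ∧ ∀ D, D₀ ≤ D → ∀ m ρ : ℕ, 1 ≤ ρ →
    D * ρ ≤ m → m ≤ 2 * D * ρ → ∃ r0 R : ℕ, 10 * ρ ≤ R ∧ 2 * R + 40 * ρ ≤ r0 ∧ 8 * r0 ≤ m ∧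
      H12S.PQ (1 / 2) (boxE m) (fun F => A2g m (0, 0) ↑F ∧ ¬ SelGood m ρ r0 R ↑F) ≤
        η * pi2 (m / 2) := by
  intro η hη
  obtain ⟨C1, c1, hC1, hc1, h3d⟩ := H3d_prob
  obtain ⟨C2, c2, hC2, hc2, harm⟩ := BL_arm
  have hOk : Ok (fun _ : Edg => (1 / 2 : ℝ)) := okq (by norm_num) (by norm_num)
  obtain ⟨N1, hN1⟩ := BL_ex (C := C2) (a := 8) hc2 (show 0 < η / 32 by linarith)
  set N0 := max N1 8 with hN0
  have hN01 : N1 ≤ N0 := le_max_left _ _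
  have hN08 : 8 ≤ N0 := le_max_right _ _
  obtain ⟨N2, hN2⟩ := BL_ex (C := 7 * (80 * (N0:ℝ)) * C1) (a := 80 * N0) hc1
    (show 0 < η / 8 by linarith)
  refine ⟨max N2 (200 * N0), by omega, fun D hD m ρ hρ hDm hmD => ?_⟩
  have hD2 : N2 ≤ D := (le_max_left _ _).trans hD
  have hD1 : 200 * N0 ≤ D := (le_max_right _ _).trans hD
  have hDpos : 1 ≤ D := by omega
  have hN0pos : 0 < N0 := by omega
  set r0 := m / N0 with hr0
  have hr0a : 200 * ρ ≤ r0 := by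
    rw [hr0, Nat.le_div_iff_mul_le hN0pos]
    calc 200 * ρ * N0 = 200 * N0 * ρ := by ring
      _ ≤ D * ρ := Nat.mul_le_mul_right ρ hD1
      _ ≤ m := hDm
  have hr0b : 8 * r0 ≤ m := by
    have h1 : r0 * N0 ≤ m := Nat.div_mul_le_self m N0
    nlinarith
  have hr0c : r0 * N0 ≤ m := Nat.div_mul_le_self m N0
  have hr0d : m < (r0 + 1) * N0 := by
    have := Nat.lt_div_mul_add (a := m) hN0pos
    rw [← hr0] at this
    nlinarith
  refine ⟨r0, r0 / 4, by omega, by omega, hr0b, ?_⟩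
  set R := r0 / 4 with hR
  have hR1 : 50 * ρ ≤ R := by omega
  have hm200 : 1600 ≤ m := by omega
  -- the bad event
  set Bs : Fin 4 → Finset Edg → Prop := fun s F =>
    H12S.Crs m m r0 (m / 4) ((((sy s).φ '' ↑F) ∩ ↑(boxE m)) \ ↑(boxE (m / 2))) ∨
    H12S.Crs m (-(m:ℤ)) r0 (m / 4) ((((sy s).φ '' ↑F) ∩ ↑(boxE m)) \ ↑(boxE (m / 2))) ∨
    H12S.DCrs m m r0 (m / 4) (((↑(boxE m) : Set Edg) \ ((sy s).φ '' ↑F)) \ ↑(boxE (m / 2))) ∨
    H12S.DCrs m (-(m:ℤ)) r0 (m / 4) (((↑(boxE m) : Set Edg) \ ((sy s).φ '' ↑F)) \ ↑(boxE (m / 2))) ∨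
    (∃ k ∈ BSL_K m ρ, |(ρ:ℤ) * k| + r0 ≤ m + ρ ∧
      H3d m (ρ * k) (8 * ρ + 1) R ((sy s).φ '' ↑F)) with hBs
  set Bd : Finset Edg → Prop := fun F => ∃ s ∈ (Finset.univ : Finset (Fin 4)), Bs s F with hBd
  have hloc : ∀ F, F ⊆ boxE m → (Bd F ↔ Bd (F \ boxE (m / 2))) := by
    intro F _
    simp only [hBd, hBs]
    have e1 : ∀ (s : Fin 4) (k : ℤ), H3d m (ρ * k) (8 * ρ + 1) R ((sy s).φ '' ↑(F \ boxE (m / 2))) ↔
        H3d m (ρ * k) (8 * ρ + 1) R ((sy s).φ '' ↑F) := by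
      intro s k
      apply BL_H3d_congr
      rw [BL_img, BL_hb_inter (by omega)]
    have e2 : ∀ s : Fin 4, (((sy s).φ '' (↑(F \ boxE (m / 2)) : Set Edg)) ∩ ↑(boxE m)) \ ↑(boxE (m / 2)) =
        ((((sy s).φ '' ↑F) ∩ ↑(boxE m)) \ ↑(boxE (m / 2)) : Set Edg) := by
      intro s
      rw [BL_img]
      ext e
      constructor
      · rintro ⟨⟨⟨h1, h2⟩, h3⟩, h4⟩; exact ⟨⟨h1, h3⟩, h4⟩
      · rintro ⟨⟨h1, h3⟩, h4⟩; exact ⟨⟨⟨h1, h4⟩, h3⟩, h4⟩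
    simp only [e1, e2, BSL_dcrs_set]
  have hRE : ∀ (c' : ℤ) (e : Edg), e ∈ RE ((m:ℤ) - (m / 4 : ℕ)) (m + (m / 4 : ℕ))
      (c' - (m / 4 : ℕ)) (c' + (m / 4 : ℕ)) → e ∉ boxE (m / 2) := by
    intro c' e he
    exact BL_ball_out (m' := m / 2) (R := m / 4) (by omega) e he
  have hsub : ∀ (c' : ℤ) (G : Set Edg), H12S.Crs m c' r0 (m / 4) G →
      H12S.Crs m c' r0 (m / 4) (G \ ↑(boxE (m / 2))) := by
    intro c' G h
    refine H12S.Crs.mono ?_ (BL_crs_loc h)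
    rintro e ⟨h1, h3⟩
    exact ⟨h1, fun h4 => hRE c' e h3 h4⟩
  have hsubd : ∀ (c' : ℤ) (G : Set Edg), H12S.DCrs m c' r0 (m / 4) G →
      H12S.DCrs m c' r0 (m / 4) (G \ ↑(boxE (m / 2))) := by
    intro c' G h
    refine H12S.DCrs.mono ?_ (BL_dcrs_loc h)
    rintro e ⟨h1, h3⟩
    exact ⟨h1, fun h4 => hRE c' e h3 h4⟩
  have himp : ∀ F, F ⊆ boxE m → (A2g m (0, 0) ↑F ∧ ¬ SelGood m ρ r0 R ↑F) →
      (A2g (m / 2) (0, 0) ↑F ∧ Bd F) := by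
    rintro F _ ⟨h1, h2⟩
    refine ⟨A2g_half (by unfold corner; simp) h1, ?_⟩
    by_contra h4
    apply h2
    have h5 : ∀ s, ¬ Bs s F := fun s hs => h4 ⟨s, Finset.mem_univ _, hs⟩
    simp only [hBs] at h5
    push Not at h5
    refine ⟨fun s => ⟨fun h => ?_, fun h => ?_⟩, fun s => ⟨fun h => ?_, fun h => ?_⟩, ?_⟩
    · exact (h5 s).1 (hsub _ _ h)
    · exact (h5 s).2.1 (hsub _ _ h)
    · exact (h5 s).2.2.1 (hsubd _ _ h)
    · exact (h5 s).2.2.2.1 (hsubd _ _ h)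
    · intro s k hk h
      exact (h5 s).2.2.2.2 k (BSL_K_mem hρ hk) hk h
  have hm4 : r0 ≤ m / 4 := by omega
  have hratio : (r0:ℝ) / ((m / 4 : ℕ) : ℝ) ≤ 8 / N0 := by
    have h1 : m ≤ 8 * (m / 4) := by omega
    have h2 : (m:ℝ) ≤ 8 * ((m / 4 : ℕ) : ℝ) := by exact_mod_cast h1
    have h3 : (r0:ℝ) * N0 ≤ m := by exact_mod_cast hr0c
    have h4 : (0:ℝ) < ((m / 4 : ℕ) : ℝ) := by
      have : 0 < m / 4 := by omega
      exact_mod_cast this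
    have h5 : (0:ℝ) < N0 := by exact_mod_cast hN0pos
    rw [div_le_div_iff₀ h4 h5]
    linarith
  have hNN : C2 * ((r0:ℝ) / ((m / 4 : ℕ) : ℝ)) ^ c2 ≤ η / 32 := by
    refine le_trans ?_ (hN1 N0 hN01)
    apply mul_le_mul_of_nonneg_left _ hC2.le
    exact Real.rpow_le_rpow (by positivity) hratio hc2.le
  -- probability
  have hBsP : ∀ s : Fin 4, H12S.PQ (1 / 2) (boxE m) (Bs s) ≤ η / 4 := by
    intro s
    have hcor : ∀ c' : ℤ, H12S.PQ (1 / 2) (boxE m) (fun F => H12S.Crs m c' r0 (m / 4)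
        ((((sy s).φ '' ↑F) ∩ ↑(boxE m)) \ ↑(boxE (m / 2)))) ≤ η / 32 := by
      intro c'
      have h1 : H12S.PQ (1 / 2) (boxE m) (fun F => H12S.Crs m c' r0 (m / 4)
          ((((sy s).φ '' ↑F) ∩ ↑(boxE m)) \ ↑(boxE (m / 2)))) ≤
          H12S.PQ (1 / 2) (boxE m) (fun F => H12S.Crs m c' r0 (m / 4) ((sy s).φ '' ↑F)) := by
        apply Pr_mono hOk
        intro F _ h
        exact H12S.Crs.mono (Set.sdiff_subset.trans Set.inter_subset_left) h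
      have h2 := BL_pr s (1 / 2) (boxE m) (fun G => H12S.Crs m c' r0 (m / 4) G)
      rw [h2] at h1
      exact h1.trans (((harm r0 (m / 4) (by omega) hm4 m c' _).1).trans hNN)
    have hcord : ∀ c' : ℤ, H12S.PQ (1 / 2) (boxE m) (fun F => H12S.DCrs m c' r0 (m / 4)
        (((↑(boxE m) : Set Edg) \ ((sy s).φ '' ↑F)) \ ↑(boxE (m / 2)))) ≤ η / 32 := by
      intro c'
      have h1 : H12S.PQ (1 / 2) (boxE m) (fun F => H12S.DCrs m c' r0 (m / 4)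
          (((↑(boxE m) : Set Edg) \ ((sy s).φ '' ↑F)) \ ↑(boxE (m / 2)))) ≤
          H12S.PQ (1 / 2) (boxE m) (fun F => H12S.DCrs m c' r0 (m / 4)
            ((↑(boxE m) : Set Edg) \ ((sy s).φ '' ↑F))) := by
        apply Pr_mono hOk
        intro F _ h
        exact H12S.DCrs.mono Set.sdiff_subset h
      have h2 := BL_pr s (1 / 2) (boxE m) (fun G => H12S.DCrs m c' r0 (m / 4)
        ((↑(boxE m) : Set Edg) \ G))
      rw [h2, sy_box] at h1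
      have h3 := (harm r0 (m / 4) (by omega) hm4 m c' (boxE m)).2
      simp only [Finset.coe_sdiff] at h3
      exact h1.trans (h3.trans hNN)
    have hthree : H12S.PQ (1 / 2) (boxE m) (fun F => ∃ k ∈ BSL_K m ρ, |(ρ:ℤ) * k| + r0 ≤ m + ρ ∧
        H3d m (ρ * k) (8 * ρ + 1) R ((sy s).φ '' ↑F)) ≤ η / 8 := by
      refine (Pr_exists_le hOk (boxE m) (BSL_K m ρ) (fun k F => |(ρ:ℤ) * k| + r0 ≤ m + ρ ∧
        H3d m (ρ * k) (8 * ρ + 1) R ((sy s).φ '' ↑F))).trans ?_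
      have hD0 : (0:ℝ) < D := by exact_mod_cast hDpos
      have hN0r : (0:ℝ) < N0 := by exact_mod_cast hN0pos
      have hρ0 : (0:ℝ) < ρ := by exact_mod_cast hρ
      have hratio2 : ((8 * ρ + 1 : ℕ) : ℝ) / (R:ℝ) ≤ 80 * N0 / D := by
        have hRp : (0:ℝ) < R := by
          have : 0 < R := by omega
          exact_mod_cast this
        rw [div_le_div_iff₀ hRp hD0]
        have h1 : r0 + 1 ≤ 8 * R := by omega
        have h2 : (r0:ℝ) + 1 ≤ 8 * R := by exact_mod_cast h1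
        have h3 : (m:ℝ) < (r0 + 1) * N0 := by exact_mod_cast hr0d
        have h4 : (D:ℝ) * ρ ≤ m := by exact_mod_cast hDm
        have h5 : (D:ℝ) * ρ ≤ 8 * R * N0 := by nlinarith
        have h6 : (1:ℝ) ≤ ρ := by exact_mod_cast hρ
        push_cast
        nlinarith
      have hterm : ∀ k ∈ BSL_K m ρ, Pr (fun _ => (1 / 2 : ℝ)) (boxE m) (fun F =>
          |(ρ:ℤ) * k| + r0 ≤ m + ρ ∧ H3d m (ρ * k) (8 * ρ + 1) R ((sy s).φ '' ↑F)) ≤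
          C1 * (80 * N0 / (D:ℝ)) ^ (1 + c1) := by
        intro k _
        by_cases hk : |(ρ:ℤ) * k| + r0 ≤ m + ρ
        · have h1 : Pr (fun _ => (1 / 2 : ℝ)) (boxE m) (fun F =>
              |(ρ:ℤ) * k| + r0 ≤ m + ρ ∧ H3d m (ρ * k) (8 * ρ + 1) R ((sy s).φ '' ↑F)) ≤
              H12S.PQ (1 / 2) (boxE m) (fun F => H3d m (ρ * k) (8 * ρ + 1) R ((sy s).φ '' ↑F)) :=
            Pr_mono hOk (fun F _ h => h.2)
          have h2 := BL_pr s (1 / 2) (boxE m) (fun G => H3d m (ρ * k) (8 * ρ + 1) R G)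
          rw [h2, sy_box] at h1
          refine h1.trans ((h3d m (8 * ρ + 1) R (ρ * k) _ (by omega) (by omega)
            (BL_hb_sub ?_)).trans ?_)
          · have h6 : (ρ:ℤ) + R ≤ r0 := by omega
            linarith
          · apply mul_le_mul_of_nonneg_left _ hC1.le
            exact Real.rpow_le_rpow (by positivity) hratio2 (by linarith)
        · have h0 : Pr (fun _ => (1 / 2 : ℝ)) (boxE m) (fun F =>
              |(ρ:ℤ) * k| + r0 ≤ m + ρ ∧ H3d m (ρ * k) (8 * ρ + 1) R ((sy s).φ '' ↑F)) = 0 :=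
            H12S.MK_false _ (boxE m) (fun F _ h => hk h.1)
          rw [h0]
          positivity
      refine (Finset.sum_le_sum hterm).trans ?_
      rw [Finset.sum_const, nsmul_eq_mul]
      have hcard := BSL_K_card hρ hmD
      have h8 : (80 * N0 / (D:ℝ)) ^ (1 + c1) = 80 * N0 / D * (80 * N0 / (D:ℝ)) ^ c1 := by
        rw [Real.rpow_add (by positivity), Real.rpow_one]
      have hD7 : (4:ℝ) * D + 3 ≤ 7 * D := by
        have : (1:ℝ) ≤ D := by exact_mod_cast hDpos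
        linarith
      calc ((BSL_K m ρ).card : ℝ) * (C1 * (80 * N0 / (D:ℝ)) ^ (1 + c1))
          ≤ (7 * D) * (C1 * (80 * N0 / (D:ℝ)) ^ (1 + c1)) := by
            apply mul_le_mul_of_nonneg_right (hcard.trans hD7)
            positivity
        _ = 7 * (80 * (N0:ℝ)) * C1 * (80 * N0 / (D:ℝ)) ^ c1 := by
            rw [h8]
            field_simp
        _ ≤ η / 8 := hN2 D hD2
    have := BSL_or5 (hcor m) (hcor (-(m:ℤ))) (hcord m) (hcord (-(m:ℤ))) hthree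
    refine le_trans this ?_
    linarith
  have hprob : H12S.PQ (1 / 2) (boxE m) Bd ≤ η := by
    refine (Pr_exists_le hOk (boxE m) (Finset.univ : Finset (Fin 4)) Bs).trans ?_
    refine (Finset.sum_le_sum (fun s _ => hBsP s)).trans ?_
    rw [Finset.sum_const, Finset.card_univ, Fintype.card_fin, nsmul_eq_mul]
    push_cast
    linarith
  calc H12S.PQ (1 / 2) (boxE m) (fun F => A2g m (0, 0) ↑F ∧ ¬ SelGood m ρ r0 R ↑F)
      ≤ H12S.PQ (1 / 2) (boxE m) (fun F => A2g (m / 2) (0, 0) ↑F ∧ Bd F) := Pr_mono hOk himp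
    _ = pi2 (m / 2) * H12S.PQ (1 / 2) (boxE m) Bd := by
        apply inner_indep (Or.inl rfl) _ hloc
        rintro ⟨x, y, b⟩ h
        unfold boxE at h ⊢
        cases b
        · rw [mem_RE_false] at h ⊢; omega
        · rw [mem_RE_true] at h ⊢; omega
    _ ≤ pi2 (m / 2) * η := mul_le_mul_of_nonneg_left hprob (BL_pi2_nonneg _)
    _ = η * pi2 (m / 2) := mul_comm _ _

end H985T
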