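import Pool.Agent.H985R3.TA.Defs2

/-!
# Two-arm project: the converse (task CONV)
-/

set_option autoImplicit false

namespace H985T

open H974 Finset

/-- a finitely supported chain without face boundary is the coboundary of a finitely supported
function on the vertices -/
theorem CONV_pot {W : Edg → ZMod 2} {N : ℤ}
    (hN : ∀ e : Edg, W e ≠ 0 → -N < e.1 ∧ e.1 < N ∧ -N < e.2.1 ∧ e.2.1 < N)
    (hbd : ∀ x y, bd W x y = 0) :
    ∃ φ : Vtx → ZMod 2, (∀ e, W e = φ (src e) + φ (tgt e)) ∧
      ∀ v : Vtx, φ v ≠ 0 → -N ≤ v.1 ∧ v.1 ≤ N ∧ -N ≤ v.2 ∧ v.2 ≤ N := by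
  have hz : ∀ e : Edg, ¬ (-N < e.1 ∧ e.1 < N ∧ -N < e.2.1 ∧ e.2.1 < N) → W e = 0 := by
    intro e he
    by_contra h
    exact he (hN e h)
  have hedge : ∀ e : Edg, W e = (fun v : Vtx => ∑ l ∈ Finset.Ico (-N) v.2, W (v.1, l, false)) (src e) +
      (fun v : Vtx => ∑ l ∈ Finset.Ico (-N) v.2, W (v.1, l, false)) (tgt e) := by
    rintro ⟨x, y, b⟩
    cases b
    · simp only [src_mk, tgt_false]
      by_cases hy : -N ≤ y
      · rw [sum_Ico_int_succ hy]
        have := zmod2_add_self (∑ l ∈ Finset.Ico (-N) y, W (x, l, false))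
        linear_combination -this
      · have e1 : Finset.Ico (-N) y = ∅ := Finset.Ico_eq_empty (by omega)
        have e2 : Finset.Ico (-N) (y + 1) = ∅ := Finset.Ico_eq_empty (by omega)
        rw [e1, e2, Finset.sum_empty, hz _ (by simp only; omega)]
        simp
    · simp only [src_mk, tgt_true]
      by_cases hy : -N ≤ y
      · rw [← Finset.sum_add_distrib]
        have e1 : ∀ l ∈ Finset.Ico (-N) y, W (x, l, false) + W (x + 1, l, false) =
            W (x, l, true) + W (x, l + 1, true) := by
          intro l _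
          have h1 := hbd x l
          unfold bd at h1
          have h2 := zmod2_add_self (W (x, l, true) + W (x, l + 1, true))
          linear_combination h1 - h2
        rw [Finset.sum_congr rfl e1, telescope' hy (fun l => W (x, l, true)),
          hz (x, -N, true) (by simp only; omega), zero_add]
      · have e1 : Finset.Ico (-N) y = ∅ := Finset.Ico_eq_empty (by omega)
        rw [e1, Finset.sum_empty, Finset.sum_empty, hz _ (by simp only; omega)]
        simp
  refine ⟨fun v => ∑ l ∈ Finset.Ico (-N) v.2, W (v.1, l, false), hedge, ?_⟩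
  rintro ⟨x, y⟩ hv
  simp only at hv ⊢
  obtain ⟨l, hl, hWl⟩ := Finset.exists_ne_zero_of_sum_ne_zero hv
  have h1 := hN _ hWl
  simp only at h1
  rw [Finset.mem_Ico] at hl
  refine ⟨by omega, by omega, by omega, ?_⟩
  by_contra hy
  have hstep : ∀ n : ℕ, ∑ l ∈ Finset.Ico (-N) y, W (x, l, false) =
      ∑ l ∈ Finset.Ico (-N) y, W (x + n, l, false) := by
    intro n
    induction n with
    | zero => simp
    | succ n ih =>
      have h2 := hedge (x + n, y, true)
      simp only [src_mk, tgt_true] at h2
      rw [hz _ (by simp only; omega)] at h2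
      rw [ih]
      have e1 : x + ((n + 1 : ℕ) : ℤ) = x + n + 1 := by push_cast; ring
      rw [e1]
      have h3 := zmod2_add_self (∑ l ∈ Finset.Ico (-N) y, W (x + n + 1, l, false))
      linear_combination -h2 - h3
  have h4 := hstep (N - x).toNat
  rw [h4] at hv
  apply hv
  apply Finset.sum_eq_zero
  intro l _
  apply hz
  simp only
  omega

/-- converse: two vertices which touch the same closed cluster and are not separated by it are
connected -/
theorem conv_star {G : Finset Edg} {Z : Edg → ZMod 2} {x y f g : Vtx}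
    (hZ : ∀ v, vb Z v = b2 (x = v) + b2 (y = v)) (hx : corner x f) (hy : corner y g)
    (hfg : DReach {e : Edg | e ∉ G} f g)
    (h0 : ∀ k, DW Z {e : Edg | e ∉ G} f f k → k = 0) : Reach (↑G : Set Edg) x y := by
  classical
  by_contra hcon
  -- the cluster of `x`
  have hfin : {v | Reach (↑G : Set Edg) x v}.Finite := by
    have : {v | Reach (↑G : Set Edg) x v} ⊆
        insert x ((G.image src ∪ G.image tgt : Finset Vtx) : Set Vtx) := by
      intro v hv
      rcases Relation.ReflTransGen.cases_tail hv with h1 | ⟨w, _, e, he, hc⟩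
      · exact Or.inl h1
      · right
        rw [Finset.mem_coe, Finset.mem_union, Finset.mem_image, Finset.mem_image]
        rcases hc with ⟨_, h2⟩ | ⟨h2, _⟩
        · exact Or.inr ⟨e, he, h2⟩
        · exact Or.inl ⟨e, he, h2⟩
    exact (Set.Finite.insert x (Finset.finite_toSet _)).subset this
  obtain ⟨C, hC⟩ : ∃ C : Finset Vtx, ∀ v, v ∈ C ↔ Reach (↑G : Set Edg) x v :=
    ⟨hfin.toFinset, fun v => by rw [Set.Finite.mem_toFinset]; rfl⟩
  have hbd : ∀ e, ¬ (src e ∈ C ↔ tgt e ∈ C) → e ∉ G := by
    intro e he h1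
    apply he
    rw [hC, hC]
    constructor
    · intro h2; exact h2.tail ⟨e, h1, Or.inl ⟨rfl, rfl⟩⟩
    · intro h2; exact h2.tail ⟨e, h1, Or.inr ⟨rfl, rfl⟩⟩
  -- the boundary of the cluster
  set H : Set Edg := {e : Edg | e ∉ G} with hH
  set i : Vtx → ZMod 2 := fun v => b2 (v ∈ C) with hi
  set Y : Set Vtx := {b | DReach H f b} with hY
  set b : Edg → ZMod 2 := fun e => i (src e) + i (tgt e) with hb
  have hbH : ∀ e, b e ≠ 0 → e ∈ H := by
    intro e he
    apply hbd
    intro hiff
    apply he
    simp only [hb, hi]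
    rw [b2_congr hiff]
    exact zmod2_add_self _
  have hYH : ∀ e ∈ H, (dsrc e ∈ Y ↔ dtgt e ∈ Y) := by
    intro e he
    constructor
    · intro h1; exact h1.tail ⟨e, he, Or.inl ⟨rfl, rfl⟩⟩
    · intro h1; exact h1.tail ⟨e, he, Or.inr ⟨rfl, rfl⟩⟩
  set bY : Edg → ZMod 2 := fun e => b2 (dtgt e ∈ Y) * b e with hbY
  have hbYs : ∀ e, bY e = b2 (dsrc e ∈ Y) * b e := by
    intro e
    by_cases hbe : b e = 0
    · simp only [hbY]
      rw [hbe, mul_zero, mul_zero]
    · simp only [hbY]
      rw [b2_congr (hYH e (hbH e hbe))]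
  have hbd0 : ∀ p q, bd b p q = 0 := by
    intro p q
    unfold bd
    simp only [hb, src_mk, tgt_true, tgt_false]
    have h1 := zmod2_add_self (i (p, q))
    have h2 := zmod2_add_self (i (p + 1, q))
    have h3 := zmod2_add_self (i (p, q + 1))
    have h4 := zmod2_add_self (i (p + 1, q + 1))
    linear_combination h1 + h2 + h3 + h4
  have hbdY : ∀ p q, bd bY p q = 0 := by
    intro p q
    have h1 : bY (p, q, true) = b2 ((p, q) ∈ Y) * b (p, q, true) := rfl
    have h2 : bY (p, q + 1, true) = b2 ((p, q) ∈ Y) * b (p, q + 1, true) := by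
      rw [hbYs, dsrc_true, add_sub_cancel_right]
    have h3 : bY (p, q, false) = b2 ((p, q) ∈ Y) * b (p, q, false) := rfl
    have h4 : bY (p + 1, q, false) = b2 ((p, q) ∈ Y) * b (p + 1, q, false) := by
      rw [hbYs, dsrc_false, add_sub_cancel_right]
    have h5 := hbd0 p q
    unfold bd at h5 ⊢
    rw [h1, h2, h3, h4]
    linear_combination (b2 ((p, q) ∈ Y)) * h5
  -- bound for the support
  obtain ⟨N, hN⟩ : ∃ N : ℤ, ∀ v ∈ C, |v.1| + 2 ≤ N ∧ |v.2| + 2 ≤ N := by
    refine ⟨2 + ∑ v ∈ C, (|v.1| + |v.2|), ?_⟩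
    intro v hv
    have h1 : |v.1| + |v.2| ≤ ∑ v ∈ C, (|v.1| + |v.2|) :=
      Finset.single_le_sum (f := fun v : Vtx => |v.1| + |v.2|)
        (fun v _ => by positivity) hv
    have h2 := abs_nonneg v.1
    have h3 := abs_nonneg v.2
    constructor <;> omega
  have hsupp : ∀ e : Edg, bY e ≠ 0 → -N < e.1 ∧ e.1 < N ∧ -N < e.2.1 ∧ e.2.1 < N := by
    intro e he
    have hbe : b e ≠ 0 := by
      intro h1
      apply he
      simp only [hbY]
      rw [h1, mul_zero]
    have h1 : src e ∈ C ∨ tgt e ∈ C := by
      by_contra h2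
      push Not at h2
      apply hbe
      simp only [hb, hi]
      rw [b2_not_of h2.1, b2_not_of h2.2, add_zero]
    obtain ⟨p, q, bb⟩ := e
    rcases h1 with h1 | h1
    · have h2 := hN _ h1
      simp only [src_mk] at h2
      have h3 := abs_le.1 (show |p| ≤ N - 2 by omega)
      have h4 := abs_le.1 (show |q| ≤ N - 2 by omega)
      simp only
      omega
    · have h2 := hN _ h1
      cases bb
      · simp only [tgt_false] at h2
        have h3 := abs_le.1 (show |p| ≤ N - 2 by omega)
        have h4 := abs_le.1 (show |q + 1| ≤ N - 2 by omega)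
        simp only
        omega
      · simp only [tgt_true] at h2
        have h3 := abs_le.1 (show |p + 1| ≤ N - 2 by omega)
        have h4 := abs_le.1 (show |q| ≤ N - 2 by omega)
        simp only
        omega
  obtain ⟨φ, hφ, hφN⟩ := CONV_pot hsupp hbdY
  -- the potential of the chain on the cluster of `f`
  obtain ⟨θ, hθ⟩ := exists_pot (Z := Z) (G := {e : Edg | e ∈ H ∧ dtgt e ∈ Y}) (by
    intro a k h
    by_cases ha : a ∈ Y
    · obtain ⟨k1, hk1⟩ := DW.of_reach (Z := Z) ha
      have h1 : DW Z H a a k := h.mono (fun e he => he.1)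
      have h2 := (hk1.trans h1).trans hk1.symm
      have h3 := h0 _ h2
      have h4 := zmod2_add_self k1
      linear_combination h3 - h4
    · have h1 : ∀ c k, DW Z {e : Edg | e ∈ H ∧ dtgt e ∈ Y} a c k → c = a ∧ k = 0 := by
        intro c k hc
        induction hc with
        | refl => exact ⟨rfl, rfl⟩
        | @step b' c' k' e _ he hcc ih =>
          exfalso
          apply ha
          have h5 := (hYH e he.1).2 he.2
          rcases hcc with ⟨h6, _⟩ | ⟨_, h6⟩
          · rw [← ih.1, ← h6]; exact h5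
          · rw [← ih.1, ← h6]; exact he.2
      exact (h1 a k h).2)
  -- the flow argument
  obtain ⟨C', hC'⟩ : ∃ C' : Finset Vtx, ∀ v, v ∈ C' ↔ φ v = 1 := by
    refine ⟨(Finset.Icc (-N) N ×ˢ Finset.Icc (-N) N).filter (fun v => φ v = 1), ?_⟩
    intro v
    rw [Finset.mem_filter, Finset.mem_product, Finset.mem_Icc, Finset.mem_Icc]
    constructor
    · intro h; exact h.2
    · intro h
      have h1 := hφN v (by rw [h]; exact one_ne_zero)
      exact ⟨⟨⟨h1.1, h1.2.1⟩, h1.2.2⟩, h⟩
  have hz2 : ∀ z : ZMod 2, z = 0 ∨ z = 1 := by decide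
  have hφC : ∀ v, φ v = b2 (v ∈ C') := by
    intro v
    rcases hz2 (φ v) with h | h
    · rw [h, b2_not_of]
      rw [hC', h]
      exact zero_ne_one
    · rw [h, b2_of]
      rw [hC', h]
  have hflow := flow (C := C') (d := fun e => Z e + (θ (dsrc e) + θ (dtgt e))) (by
    intro e he
    show Z e + (θ (dsrc e) + θ (dtgt e)) = 0
    have h1 : bY e ≠ 0 := by
      intro h2
      apply he
      rw [hφ e, hφC, hφC] at h2
      constructor
      · intro h3
        by_contra h4
        rw [b2_of h3, b2_not_of h4, add_zero] at h2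
        exact one_ne_zero h2
      · intro h3
        by_contra h4
        rw [b2_of h3, b2_not_of h4, zero_add] at h2
        exact one_ne_zero h2
    have h2 : dtgt e ∈ Y := by
      by_contra h3
      apply h1
      simp only [hbY]
      rw [b2_not_of h3, zero_mul]
    have h3 : e ∈ H := by
      apply hbH
      intro h4
      apply h1
      simp only [hbY]
      rw [h4, mul_zero]
    rw [hθ e ⟨h3, h2⟩]
    exact zmod2_add_self _)
  have h2 : ∀ v, vb (fun e => Z e + (θ (dsrc e) + θ (dtgt e))) v = b2 (x = v) + b2 (y = v) := by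
    intro v
    have h3 := vb_cob θ v
    have h4 := hZ v
    unfold vb at h3 h4 ⊢
    linear_combination h3 + h4
  rw [Finset.sum_congr rfl (fun v _ => h2 v), Finset.sum_add_distrib] at hflow
  have hsum : ∀ z : Vtx, ∑ v ∈ C', b2 (z = v) = φ z := by
    intro z
    rw [hφC]
    by_cases hz : z ∈ C'
    · rw [b2_of hz, Finset.sum_eq_single_of_mem z hz
        (fun v _ hv => b2_not_of (fun h => hv h.symm)), b2_of rfl]
    · rw [b2_not_of hz]
      apply Finset.sum_eq_zero
      intro v hv
      apply b2_not_of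
      rintro rfl
      exact hz hv
  rw [hsum, hsum] at hflow
  -- the function which is constant around the faces of `Y`
  have hψ : ∀ e, (dsrc e ∈ Y ∨ dtgt e ∈ Y) →
      i (src e) + φ (src e) = i (tgt e) + φ (tgt e) := by
    intro e he
    have h1 : bY e = b e := by
      rcases he with h3 | h3
      · rw [hbYs, b2_of h3, one_mul]
      · simp only [hbY]
        rw [b2_of h3, one_mul]
    have h4 := hφ e
    rw [h1] at h4
    simp only [hb] at h4
    have h5 := zmod2_add_self (i (tgt e))
    have h6 := zmod2_add_self (φ (src e))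
    linear_combination h4 - h5 + h6
  have hface : ∀ F : Vtx, F ∈ Y → i (F.1 + 1, F.2) + φ (F.1 + 1, F.2) = i F + φ F ∧
      i (F.1, F.2 + 1) + φ (F.1, F.2 + 1) = i F + φ F ∧
      i (F.1 + 1, F.2 + 1) + φ (F.1 + 1, F.2 + 1) = i F + φ F := by
    rintro ⟨p, q⟩ hF
    have h1 := hψ (p, q, true) (Or.inr (by simpa using hF))
    have h2 := hψ (p, q, false) (Or.inr (by simpa using hF))
    have h3 := hψ (p, q + 1, true) (Or.inl (by simpa using hF))
    simp only [src_mk, tgt_true, tgt_false] at h1 h2 h3
    exact ⟨h1.symm, h2.symm, h3.symm.trans h2.symm⟩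
  have hconst : ∀ F, DReach H f F → i F + φ F = i f + φ f := by
    intro F hF
    induction hF with
    | refl => rfl
    | @tail b' c' hb' hstep ih =>
      obtain ⟨e, he, hc⟩ := hstep
      have hbY' : b' ∈ Y := hb'
      have key : dsrc e ∈ Y → i (dtgt e) + φ (dtgt e) = i (dsrc e) + φ (dsrc e) := by
        intro hs
        have h1 := hface _ hs
        obtain ⟨p, q, bb⟩ := e
        cases bb
        · have h2 := h1.1
          simp only [dsrc_false, dtgt_mk, sub_add_cancel] at h2 ⊢
          exact h2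
        · have h2 := h1.2.1
          simp only [dsrc_true, dtgt_mk, sub_add_cancel] at h2 ⊢
          exact h2
      rcases hc with ⟨h1, h2⟩ | ⟨h1, h2⟩
      · rw [← h2, ← ih, ← h1]
        exact key (by rw [h1]; exact hbY')
      · have h3 : dsrc e ∈ Y := by
          rw [hYH e he, h2]
          exact hbY'
        rw [← h1, ← ih, ← h2]
        exact (key h3).symm
  have hcorner : ∀ z F : Vtx, corner z F → F ∈ Y → i z + φ z = i F + φ F := by
    intro z F hz hF
    have h1 := hface F hF
    obtain ⟨z1, z2⟩ := z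
    obtain ⟨F1, F2⟩ := F
    obtain ⟨h2, h3⟩ := hz
    simp only at h1 h2 h3
    rcases h2 with h2 | h2 <;> rcases h3 with h3 | h3
    · rw [h2, h3]
    · have e1 : z2 = F2 + 1 := by omega
      rw [← h2, e1]
      exact h1.2.1
    · have e1 : z1 = F1 + 1 := by omega
      rw [← h3, e1]
      exact h1.1
    · have e1 : z1 = F1 + 1 := by omega
      have e2 : z2 = F2 + 1 := by omega
      rw [e1, e2]
      exact h1.2.2
  have hfY : f ∈ Y := DReach.refl _ _
  have hgY : g ∈ Y := hfg
  have e1 := hcorner x f hx hfY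
  have e2 := hcorner y g hy hgY
  have e3 := hconst g hfg
  have e4 : i x = 1 := b2_of ((hC x).mpr (Reach.refl _ _))
  have e5 : i y = 0 := b2_not_of (fun h => hcon ((hC y).mp h))
  rw [e4] at e1
  rw [e5] at e2
  have e6 := zmod2_add_self (φ y)
  have : (1 : ZMod 2) = 0 := by linear_combination e1 - e2 - e3 - hflow + e6
  exact one_ne_zero this

end H985T
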