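import Pool.Agent.H985R3.TA.Defs
import Pool.Agent.H974R2.Sym

/-!
# Two-arm project: definitions for the separation of the two arms
-/

set_option autoImplicit false

namespace H985T

open H974 Finset

/-- the vertex `x` is a corner of the face `f` -/
def corner (x f : Vtx) : Prop := (f.1 = x.1 ∨ f.1 = x.1 - 1) ∧ (f.2 = x.2 ∨ f.2 = x.2 - 1)

/-- On the explored faces the chain `Z` has a potential, also for short excursions from `VD D`. -/
def PotHyp (O D F : Set Edg) (Z : Edg → ZMod 2) (l : ℤ) : Prop :=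
  ∃ θ : Vtx → ZMod 2,
    (∀ e ∈ H0s O D F, dsrc e ∈ YY O D F → Z e = θ (dsrc e) + θ (dtgt e)) ∧
    ∀ a ∈ YY O D F, a ∈ VD D → ∀ b ∈ YY O D F, b ∈ VD D → b ∈ ball a l →
      ∀ k, DW Z (eball a l) a b k → k = θ a + θ b

/-- the tube on the right side, without the edges of the box -/
noncomputable def tubeD (m ρ : ℕ) (c : ℤ) : Finset Edg := tube 0 m ρ c (10 * ρ) \ boxE m

/-- the end of the tube on the right side -/
noncomputable def endE (m ρ : ℕ) (c : ℤ) : Finset Edg :=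
  RE ((m:ℤ) + 10 * ρ) ((m:ℤ) + 14 * ρ) (c - ρ) (c + ρ) \ tube 0 m ρ c (10 * ρ)

/-- the open arm of the origin lands on the right side near `c` -/
def Lv (m ρ : ℕ) (c : ℤ) (F : Set Edg) : Prop :=
  ∃ u2 : ℤ, 2 * |u2 - c| ≤ ρ ∧ Reach (F ∩ ↑(boxE m)) (0, 0) ((m:ℤ), u2)

/-- the dual arm of the face `f` lands on the right side near `c` -/
def Lf (m ρ : ℕ) (c : ℤ) (f : Vtx) (F : Set Edg) : Prop :=
  ∃ w2 : ℤ, 2 * |w2 - c| ≤ ρ ∧ DReach (↑(boxE m) \ F) f ((m:ℤ), w2)

/-- the open arm of the origin reaches the end of the tube on the right side -/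
def Tv (m ρ : ℕ) (c : ℤ) (F : Set Edg) : Prop :=
  ∃ z2 : ℤ, Reach (F ∩ ↑(boxE m ∪ tube 0 m ρ c (10 * ρ))) (0, 0) ((m:ℤ) + 10 * ρ, z2)

/-- the dual arm of the face `f` reaches the end of the tube on the right side -/
def Tf (m ρ : ℕ) (c : ℤ) (f : Vtx) (F : Set Edg) : Prop :=
  ∃ w : Vtx, (m:ℤ) + 10 * ρ ≤ w.1 ∧ DReach (↑(boxE m ∪ tube 0 m ρ c (10 * ρ)) \ F) f w

/-- the half ball at the right side of the box -/
noncomputable def hbR (m : ℕ) (y0 : ℤ) (R : ℕ) : Finset Edg := RE ((m:ℤ) - R) m (y0 - R) (y0 + R)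

/-- three arms (dual, open, dual) at the right side of the box, radii `r`, `R` -/
def H3d (m : ℕ) (y0 : ℤ) (r R : ℕ) (F : Set Edg) : Prop :=
  ∃ ya yb : ℤ, |ya - y0| ≤ r ∧ |yb - y0| ≤ r ∧
    (∃ z : Vtx, (z.1 < (m:ℤ) - R ∨ z.2 < y0 - R ∨ y0 + R ≤ z.2) ∧
      DReach (↑(hbR m y0 R) \ F) ((m:ℤ), ya) z) ∧
    (∃ z : Vtx, (z.1 < (m:ℤ) - R ∨ z.2 < y0 - R ∨ y0 + R ≤ z.2) ∧
      DReach (↑(hbR m y0 R) \ F) ((m:ℤ), yb) z) ∧
    ¬ DReach (↑(hbR m y0 R) \ F) ((m:ℤ), ya) ((m:ℤ), yb)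

/-- three arms (open, dual, open) at the right side of the box, radii `r`, `R` -/
def H3p (m : ℕ) (y0 : ℤ) (r R : ℕ) (F : Set Edg) : Prop :=
  ∃ ya yb : ℤ, |ya - y0| ≤ r ∧ |yb - y0| ≤ r ∧
    (∃ z : Vtx, (z.1 = (m:ℤ) - R ∨ z.2 = y0 - R ∨ z.2 = y0 + R) ∧
      Reach (F ∩ ↑(hbR m y0 R)) ((m:ℤ), ya) z) ∧
    (∃ z : Vtx, (z.1 = (m:ℤ) - R ∨ z.2 = y0 - R ∨ z.2 = y0 + R) ∧
      Reach (F ∩ ↑(hbR m y0 R)) ((m:ℤ), yb) z) ∧
    ¬ Reach (F ∩ ↑(hbR m y0 R)) ((m:ℤ), ya) ((m:ℤ), yb)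

/-- good mouth of the tube for the extension of an open arm -/
def Gd (m ρ r l : ℕ) (c : ℤ) (F : Set Edg) : Prop :=
  (∀ k : ℤ, |(l:ℤ) * k - c| ≤ ρ → ¬ H3d m (l * k) (2 * l) r F) ∧
    ¬ H12S.DCrs m (c + ρ) (2 * r) (ρ / 4) (↑(boxE m) \ F) ∧
    ¬ H12S.DCrs m (c - ρ) (2 * r) (ρ / 4) (↑(boxE m) \ F)

/-- good mouth of the tube for the extension of a dual arm -/
def Gp (m ρ r l : ℕ) (c : ℤ) (F : Set Edg) : Prop :=
  (∀ k : ℤ, |(l:ℤ) * k - c| ≤ ρ → ¬ H3p m (l * k) (2 * l) r F) ∧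
    ¬ H12S.Crs m (c + ρ) (2 * r) (ρ / 4) (F ∩ ↑(boxE m)) ∧
    ¬ H12S.Crs m (c - ρ) (2 * r) (ρ / 4) (F ∩ ↑(boxE m))

/-! ### The four diagonal symmetries -/

/-- A lattice symmetry with its action on the faces. -/
structure DSym extends LSym where
  ψf : Vtx ≃ Vtx
  dcompat : ∀ e, (dsrc (φ e) = ψf (dsrc e) ∧ dtgt (φ e) = ψf (dtgt e)) ∨
    (dsrc (φ e) = ψf (dtgt e) ∧ dtgt (φ e) = ψf (dsrc e))

/-- identity -/
def sy0 : DSym where
  φ := Equiv.refl _
  ψ := Equiv.refl _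
  ψf := Equiv.refl _
  compat := fun _ => Or.inl ⟨rfl, rfl⟩
  dcompat := fun _ => Or.inl ⟨rfl, rfl⟩

/-- transposition `(x,y) ↦ (y,x)` -/
def sy1 : DSym where
  toLSym := tps
  ψf := { toFun := fun u => (u.2, u.1)
          invFun := fun u => (u.2, u.1)
          left_inv := by intro e; simp
          right_inv := by intro e; simp }
  dcompat := by
    rintro ⟨x, y, _ | _⟩
    · left; simp
    · left; simp

/-- rotation `(x,y) ↦ (-x,-y)` -/
def sy2 : DSym where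
  φ := { toFun := fun e => if e.2.2 then (-e.1 - 1, -e.2.1, true) else (-e.1, -e.2.1 - 1, false)
         invFun := fun e => if e.2.2 then (-e.1 - 1, -e.2.1, true) else (-e.1, -e.2.1 - 1, false)
         left_inv := by rintro ⟨x, y, _ | _⟩ <;> simp
         right_inv := by rintro ⟨x, y, _ | _⟩ <;> simp }
  ψ := { toFun := fun u => (-u.1, -u.2)
         invFun := fun u => (-u.1, -u.2)
         left_inv := by intro e; simp
         right_inv := by intro e; simp }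
  ψf := { toFun := fun u => (-u.1 - 1, -u.2 - 1)
          invFun := fun u => (-u.1 - 1, -u.2 - 1)
          left_inv := by intro e; simp
          right_inv := by intro e; simp }
  compat := by
    rintro ⟨x, y, _ | _⟩
    · right; simp
      ring
    · right; simp
      ring
  dcompat := by
    rintro ⟨x, y, _ | _⟩
    · right; simp
    · right; simp

/-- reflection `(x,y) ↦ (-y,-x)` -/
def sy3 : DSym where
  φ := { toFun := fun e => if e.2.2 then (-e.2.1, -e.1 - 1, false) else (-e.2.1 - 1, -e.1, true)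
         invFun := fun e => if e.2.2 then (-e.2.1, -e.1 - 1, false) else (-e.2.1 - 1, -e.1, true)
         left_inv := by rintro ⟨x, y, _ | _⟩ <;> simp
         right_inv := by rintro ⟨x, y, _ | _⟩ <;> simp }
  ψ := { toFun := fun u => (-u.2, -u.1)
         invFun := fun u => (-u.2, -u.1)
         left_inv := by intro e; simp
         right_inv := by intro e; simp }
  ψf := { toFun := fun u => (-u.2 - 1, -u.1 - 1)
          invFun := fun u => (-u.2 - 1, -u.1 - 1)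
          left_inv := by intro e; simp
          right_inv := by intro e; simp }
  compat := by
    rintro ⟨x, y, _ | _⟩
    · right; simp
      ring
    · right; simp
      ring
  dcompat := by
    rintro ⟨x, y, _ | _⟩
    · right; simp
    · right; simp

/-- the symmetry exchanging the side `s` and the right side -/
def sy (s : Fin 4) : DSym :=
  if s = 0 then sy0 else if s = 1 then sy1 else if s = 2 then sy2 else sy3

end H985T
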