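import Pool.Agent.H985R3.TA.Defs2
import Pool.Agent.H974R2.Plan4

/-!
# Two-arm project: definitions for the selection of the landing places and the recursion
-/

set_option autoImplicit false

namespace H985T

open H974 Finset

/-- two arms (open arm of the vertex `(0,0)`, dual arm of the face `f`) to the boundary of the
box `[-m,m]²` -/
def A2g (m : ℕ) (f : Vtx) (F : Set Edg) : Prop :=
  (∃ u, onB m u ∧ Reach (F ∩ ↑(boxE m)) (0, 0) u) ∧
    ∃ w ∈ outF (-(m:ℤ)) m (-(m:ℤ)) m, DReach (↑(boxE m) \ F) f w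

/-- the dual arm of `f` lands on side `s` near `c` -/
def LfS (m ρ : ℕ) (s : Fin 4) (c : ℤ) (f : Vtx) (F : Set Edg) : Prop :=
  Lf m ρ c ((sy s).ψf f) ((sy s).φ '' F)

/-- good mouth on side `s` for the extension of a dual arm -/
def GpS (m ρ r l : ℕ) (s : Fin 4) (c : ℤ) (F : Set Edg) : Prop :=
  Gp m ρ r l c ((sy s).φ '' F)

/-- coordinate of the centre of the tube on side `s` -/
def cc (s : Fin 4) (c : ℤ) : ℤ := if s = 0 ∨ s = 1 then c else -c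

/-- no arms at the corners, no three arms at scale `ρ`, `R` at the boundary -/
structure SelGood (m ρ r0 R : ℕ) (F : Set Edg) : Prop where
  h1 : ∀ s : Fin 4, ¬ H12S.Crs m m r0 (m / 4) ((sy s).φ '' F ∩ ↑(boxE m)) ∧
    ¬ H12S.Crs m (-(m:ℤ)) r0 (m / 4) ((sy s).φ '' F ∩ ↑(boxE m))
  h2 : ∀ s : Fin 4, ¬ H12S.DCrs m m r0 (m / 4) (↑(boxE m) \ (sy s).φ '' F) ∧
    ¬ H12S.DCrs m (-(m:ℤ)) r0 (m / 4) (↑(boxE m) \ (sy s).φ '' F)
  h3 : ∀ s : Fin 4, ∀ k : ℤ, |(ρ:ℤ) * k| + r0 ≤ m + ρ →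
    ¬ H3d m (ρ * k) (8 * ρ + 1) R ((sy s).φ '' F)

end H985T
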