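import Pool.Agent.H985R3.TA.Defs

/-!
# Faces outside a box are connected outside the box
-/

set_option autoImplicit false

namespace H985T

open H974 Finset

theorem far_up (B x : ℤ) (hx : x < -B ∨ B ≤ x) (y : ℤ) (k : ℕ) :
    DReach {e : Edg | e ∉ RE (-B) B (-B) B} (x, y) (x, y + k) := by
  induction k with
  | zero => simpa using DReach.refl _ (x, y)
  | succ k ih =>
    refine ih.trans (DAdj.reach ⟨(x, y + (k + 1 : ℕ), true), ?_, Or.inl ⟨?_, ?_⟩⟩)
    · simp only [Set.mem_setOf_eq, mem_RE_true]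
      omega
    · simp only [dsrc_true]
      ext
      · rfl
      · push_cast
        ring
    · simp only [dtgt_mk]

theorem far_col (B x : ℤ) (hx : x < -B ∨ B ≤ x) (y y' : ℤ) :
    DReach {e : Edg | e ∉ RE (-B) B (-B) B} (x, y) (x, y') := by
  rcases le_total y y' with h | h
  · obtain ⟨k, hk⟩ := Int.le.dest h
    rw [← hk]
    exact far_up B x hx y k
  · obtain ⟨k, hk⟩ := Int.le.dest h
    rw [← hk]
    exact (far_up B x hx y' k).symm

theorem far_right (B y : ℤ) (hy : y < -B ∨ B ≤ y) (x : ℤ) (k : ℕ) :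
    DReach {e : Edg | e ∉ RE (-B) B (-B) B} (x, y) (x + k, y) := by
  induction k with
  | zero => simpa using DReach.refl _ (x, y)
  | succ k ih =>
    refine ih.trans (DAdj.reach ⟨(x + (k + 1 : ℕ), y, false), ?_, Or.inl ⟨?_, ?_⟩⟩)
    · simp only [Set.mem_setOf_eq, mem_RE_false]
      omega
    · simp only [dsrc_false]
      ext
      · push_cast
        ring
      · rfl
    · simp only [dtgt_mk]

theorem far_row (B y : ℤ) (hy : y < -B ∨ B ≤ y) (x x' : ℤ) :
    DReach {e : Edg | e ∉ RE (-B) B (-B) B} (x, y) (x', y) := by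
  rcases le_total x x' with h | h
  · obtain ⟨k, hk⟩ := Int.le.dest h
    rw [← hk]
    exact far_right B y hy x k
  · obtain ⟨k, hk⟩ := Int.le.dest h
    rw [← hk]
    exact (far_right B y hy x' k).symm

theorem far_corner (B : ℤ) {a : Vtx} (ha : a.1 < -B ∨ B ≤ a.1 ∨ a.2 < -B ∨ B ≤ a.2) :
    DReach {e : Edg | e ∉ RE (-B) B (-B) B} a (B, B) := by
  obtain ⟨x, y⟩ := a
  simp only at ha
  by_cases h : x < -B ∨ B ≤ x
  · exact (far_col B x h y B).trans (far_row B B (Or.inr le_rfl) x B)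
  · have h' : y < -B ∨ B ≤ y := by omega
    exact (far_row B y h' x B).trans (far_col B B (Or.inr le_rfl) y B)

/-- faces outside a box are connected by dual paths crossing only edges outside the box -/
theorem far_conn (B : ℤ) (hB : 0 ≤ B) {a b : Vtx} (ha : a.1 < -B ∨ B ≤ a.1 ∨ a.2 < -B ∨ B ≤ a.2)
    (hb : b.1 < -B ∨ B ≤ b.1 ∨ b.2 < -B ∨ B ≤ b.2) :
    DReach {e : Edg | e ∉ RE (-B) B (-B) B} a b :=
  (far_corner B ha).trans (far_corner B hb).symm

end H985T
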