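import Pool.Agent.H985R3.TA.REC

/-!
# Two-arm project: general form of the recursion and the lower bound for the separated event
-/

set_option autoImplicit false

namespace H985T

open H974 Finset

theorem rec_gen_of (hSum : RecSelSum) (hGd : RecBadGd) (hGp : RecBadGp) (hM1 : RecMid1)
    (hM2 : RecMid2) (hL : RecOfL) (hT : RecOfT) {η : ℝ} (hη : 0 < η) :
    ∃ (B m₀ : ℕ) (K : ℝ), 0 < K ∧ ∀ m, m₀ ≤ m → ∀ Y : ℝ, 0 ≤ Y →
      (∀ (ρ : ℕ) (c : ℤ) (s : Fin 4) (c' f0 : ℤ), Geo B m ρ c s c' → (f0 = 0 ∨ f0 = -1) →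
        Pr (fun _ => 1 / 2) (EU m ρ c s c') (EV m ρ c s c' (f0, f0)) ≤ Y) →
      pi2 m ≤ K * Y + η * pi2 (m / 2) := by
  obtain ⟨κ, hκ, hW⟩ := H12S.win_half
  obtain ⟨D, hD50, hD⟩ := hSum (η / 4) (by positivity)
  set Q : ℝ := 16 * (4 * (D:ℝ) + 1) ^ 2 with hQ
  have hQ0 : 0 < Q := by positivity
  obtain ⟨B₁, hB₁⟩ := hGd (η / (4 * Q)) (by positivity)
  obtain ⟨A₁, hA₁⟩ := hB₁ (max B₁ 16) (le_max_left _ _)
  have hA₁' := hA₁ (max A₁ 32) (le_max_left _ _)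
  set b1 := max B₁ 16 with hb1
  set a1 := max A₁ 32 with ha1
  have hb16 : 16 ≤ b1 := le_max_right _ _
  have ha32 : 32 ≤ a1 := le_max_right _ _
  set N1 := 4 * (2 * (6 * (a1 * b1)) + 1) ^ 2 with hN1
  have hκN1 : 0 < κ ^ N1 := pow_pos hκ _
  obtain ⟨B₂, hB₂⟩ := hGp (κ ^ N1 * η / (4 * Q)) (by positivity)
  obtain ⟨A₂, hA₂⟩ := hB₂ (max B₂ 16) (le_max_left _ _)
  have hA₂' := hA₂ (max A₂ 32) (le_max_left _ _)
  set b2 := max B₂ 16 with hb2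
  set a2 := max A₂ 32 with ha2
  have hb16' : 16 ≤ b2 := le_max_right _ _
  have ha32' : 32 ≤ a2 := le_max_right _ _
  set N2 := 4 * (2 * (6 * (a2 * b2)) + 1) ^ 2 with hN2
  have hκN2 : 0 < κ ^ N2 := pow_pos hκ _
  clear_value a1 b1 a2 b2
  set W := a1 * b1 * a2 * b2 with hWd
  have hW0 : 1 ≤ W := by
    rw [hWd]
    have h1 : 0 < a1 := by omega
    have h2 : 0 < b1 := by omega
    have h3 : 0 < a2 := by omega
    have h4 : 0 < b2 := by omega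
    have := Nat.mul_pos (Nat.mul_pos (Nat.mul_pos h1 h2) h3) h4
    omega
  refine ⟨2 * D, D * W, Q * (1 / (κ ^ N1 * κ ^ N2)) , by positivity, fun m hm Y hY0 hK => ?_⟩
  -- choice of the scales
  set t := m / (D * W) with ht
  have hDW : 0 < D * W := Nat.mul_pos (by omega) (by omega)
  have ht1 : 1 ≤ t := (Nat.one_le_div_iff hDW).mpr hm
  have htm : (D * W) * t ≤ m := Nat.mul_div_le _ _
  have htm' : m < (D * W) * (t + 1) := by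
    rw [ht]; exact Nat.lt_mul_div_succ _ hDW
  set l1 := a2 * b2 * t with hl1
  set l2 := a1 * b1 * t with hl2
  set r1 := a1 * l1 with hr1
  set r2 := a2 * l2 with hr2
  set ρ := b1 * r1 with hρ
  have hρ2 : ρ = b2 * r2 := by
    rw [hρ, hr1, hr2, hl1, hl2]; ring
  have hρW : ρ = W * t := by
    rw [hρ, hr1, hl1, hWd]; ring
  have hl1p : 1 ≤ l1 := by
    rw [hl1]
    have := Nat.mul_pos (Nat.mul_pos (show 0 < a2 by omega) (show 0 < b2 by omega)) (show 0 < t by omega)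
    omega
  have hl2p : 1 ≤ l2 := by
    rw [hl2]
    have := Nat.mul_pos (Nat.mul_pos (show 0 < a1 by omega) (show 0 < b1 by omega)) (show 0 < t by omega)
    omega
  have hρ1 : 1 ≤ ρ := by
    rw [hρW]
    have := Nat.mul_pos (show 0 < W by omega) (show 0 < t by omega)
    omega
  have hDρ : D * ρ ≤ m := by
    rw [hρW, ← mul_assoc]; exact htm
  have hDρ' : m ≤ 2 * D * ρ := by
    have h1 : (D * W) * (t + 1) ≤ (D * W) * (2 * t) := Nat.mul_le_mul_left _ (by omega)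
    have h2 : 2 * D * ρ = (D * W) * (2 * t) := by rw [hρW]; ring
    omega
  have h50 : 50 * ρ ≤ m := le_trans (Nat.mul_le_mul_right _ hD50) hDρ
  have hm4 : 4 ≤ m := by omega
  have hp0 := rec_pi2_nonneg (m / 2)
  set M : ℝ := (Y / κ ^ N2 + κ ^ N1 * η / (4 * Q) * pi2 (m / 2)) / κ ^ N1 +
    η / (4 * Q) * pi2 (m / 2) with hM
  have hM0 : 0 ≤ M := by positivity
  have key : ∀ (s : Fin 4) (c c' f0 : ℤ), (f0 = 0 ∨ f0 = -1) → |c| + 20 * ρ ≤ m →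
      |c'| + 20 * ρ ≤ m → (s = 0 → 6 * (ρ:ℤ) ≤ |c - c'|) →
      H12S.PQ (1 / 2) (boxE m) (fun F => Lv m ρ c ↑F ∧ LfS m ρ s c' (f0, f0) ↑F) ≤ M := by
    intro s c c' f0 hf hc hc' hs
    have hcf := rec_corner hf
    -- first splitting
    have e1 := rec_split (S := boxE m) (fun F => Lv m ρ c ↑F ∧ LfS m ρ s c' (f0, f0) ↑F)
      (fun F => Gd m ρ r1 (4 * l1) c ↑F)
    have e2 : H12S.PQ (1 / 2) (boxE m) (fun F => (Lv m ρ c ↑F ∧ LfS m ρ s c' (f0, f0) ↑F) ∧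
        ¬ Gd m ρ r1 (4 * l1) c ↑F) ≤ η / (4 * Q) * pi2 (m / 2) := by
      refine le_trans (Pr_mono rec_ok ?_)
        (hA₁' l1 m ρ r1 c f0 (boxE m) hl1p hr1 hρ hc hf (Finset.Subset.refl _))
      intro F _ h
      exact ⟨hL hm4 hcf h.1.1 h.1.2, h.2⟩
    have e3 : H12S.PQ (1 / 2) (boxE m) (fun F => (Lv m ρ c ↑F ∧ LfS m ρ s c' (f0, f0) ↑F) ∧
        Gd m ρ r1 (4 * l1) c ↑F) ≤ H12S.PQ (1 / 2) (boxE m)
          (fun F => (Lv m ρ c ↑F ∧ Gd m ρ r1 (4 * l1) c ↑F) ∧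
        LfS m ρ s c' (f0, f0) ↑F) := by
      refine Pr_mono rec_ok ?_
      intro F _ h
      exact ⟨⟨h.1.1, h.2⟩, h.1.2⟩
    have e4 := hM1 (hW (2 * l1)) (m := m) (ρ := ρ) (r := r1) (l := l1) (k := a1 * b1) (c := c)
      (c' := c') (f0 := f0) (s := s) hl1p (by rw [hr1]; exact Nat.mul_le_mul_right _ ha32)
      (by rw [hρ]; exact Nat.mul_le_mul_right _ hb16)
      (by rw [hρ, hr1]; exact le_of_eq (by ring)) hc hc' hs le_rfl hf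
    -- second splitting
    have e5 := rec_split (S := boxE m ∪ tubeD m ρ c)
      (fun F => Tv m ρ c ↑F ∧ LfS m ρ s c' (f0, f0) ↑F) (fun F => GpS m ρ r2 (4 * l2) s c' ↑F)
    have e6 : H12S.PQ (1 / 2) (boxE m ∪ tubeD m ρ c) (fun F => (Tv m ρ c ↑F ∧
        LfS m ρ s c' (f0, f0) ↑F) ∧ ¬ GpS m ρ r2 (4 * l2) s c' ↑F) ≤
        κ ^ N1 * η / (4 * Q) * pi2 (m / 2) := by
      refine le_trans (Pr_mono rec_ok ?_)
        (hA₂' l2 m ρ r2 s c' f0 (boxE m ∪ tubeD m ρ c) hl2p hr2 hρ2 hc' hf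
          Finset.subset_union_left)
      intro F _ h
      exact ⟨hT hm4 hcf h.1.1 h.1.2, h.2⟩
    have e7 : H12S.PQ (1 / 2) (boxE m ∪ tubeD m ρ c) (fun F => (Tv m ρ c ↑F ∧
        LfS m ρ s c' (f0, f0) ↑F) ∧ GpS m ρ r2 (4 * l2) s c' ↑F) ≤
        H12S.PQ (1 / 2) (boxE m ∪ tubeD m ρ c) (fun F => Tv m ρ c ↑F ∧
        LfS m ρ s c' (f0, f0) ↑F ∧ GpS m ρ r2 (4 * l2) s c' ↑F) := by
      refine Pr_mono rec_ok ?_
      intro F _ h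
      exact ⟨h.1.1, h.1.2, h.2⟩
    have e8 := hM2 (hW (2 * l2)) (m := m) (ρ := ρ) (r := r2) (l := l2) (k := a2 * b2) (c := c)
      (c' := c') (f0 := f0) (s := s) hl2p (by rw [hr2]; exact Nat.mul_le_mul_right _ ha32')
      (by rw [hρ2]; exact Nat.mul_le_mul_right _ hb16')
      (by rw [hρ2, hr2]; exact le_of_eq (by ring)) hc hc' hs le_rfl hf
    have hgeo : Geo (2 * D) m ρ c s (cc s c') := by
      refine ⟨hρ1, hDρ', by omega, by omega, ?_, ?_⟩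
      · unfold cc
        split_ifs
        · omega
        · rw [abs_neg]; omega
      · intro h0
        unfold cc
        rw [if_pos (Or.inl h0)]
        exact hs h0
    have e9 := hK ρ c s (cc s c') f0 hgeo hf
    have e10 : H12S.PQ (1 / 2) (boxE m ∪ tubeD m ρ c) (fun F => Tv m ρ c ↑F ∧
        LfS m ρ s c' (f0, f0) ↑F ∧ GpS m ρ r2 (4 * l2) s c' ↑F) ≤ Y / κ ^ N2 := by
      rw [le_div_iff₀ hκN2]
      exact e8.trans e9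
    have e11 : H12S.PQ (1 / 2) (boxE m ∪ tubeD m ρ c)
        (fun F => Tv m ρ c ↑F ∧ LfS m ρ s c' (f0, f0) ↑F) ≤
        Y / κ ^ N2 + κ ^ N1 * η / (4 * Q) * pi2 (m / 2) := by
      linarith
    have e12 : H12S.PQ (1 / 2) (boxE m)
          (fun F => (Lv m ρ c ↑F ∧ Gd m ρ r1 (4 * l1) c ↑F) ∧
        LfS m ρ s c' (f0, f0) ↑F) ≤
        (Y / κ ^ N2 + κ ^ N1 * η / (4 * Q) * pi2 (m / 2)) / κ ^ N1 := by
      rw [le_div_iff₀ hκN1]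
      exact e4.trans e11
    rw [hM]
    linarith
  have hfin := hD D le_rfl m ρ hρ1 hDρ hDρ' M hM0 key
  rw [← hQ] at hfin
  have hQM : Q * M = Q * (1 / (κ ^ N1 * κ ^ N2)) * Y + η / 2 * pi2 (m / 2) := by
    rw [hM]
    field_simp
    ring
  rw [hQM] at hfin
  nlinarith [mul_nonneg hη.le hp0]

/-- lower bound for the separated event in at least one admissible cell, at every large scale -/
theorem EV_lower_of
    (hgen : ∀ {η : ℝ}, 0 < η → ∃ (B m₀ : ℕ) (K : ℝ), 0 < K ∧ ∀ m, m₀ ≤ m → ∀ Y : ℝ, 0 ≤ Y →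
      (∀ (ρ : ℕ) (c : ℤ) (s : Fin 4) (c' f0 : ℤ), Geo B m ρ c s c' → (f0 = 0 ∨ f0 = -1) →
        Pr (fun _ => 1 / 2) (EU m ρ c s c') (EV m ρ c s c' (f0, f0)) ≤ Y) →
      pi2 m ≤ K * Y + η * pi2 (m / 2))
    (hup : ∃ C : ℝ, 0 < C ∧ ∀ m : ℕ, 1 ≤ m → pi2 m ≤ C * (m:ℝ) ^ (-(1/4 : ℝ)))
    (hlow : ∃ c : ℝ, 0 < c ∧ ∀ m : ℕ, 1 ≤ m → c * (m:ℝ) ^ (-(1/4 : ℝ)) ≤ pi2 m) :
    ∃ (B m₀ : ℕ) (κ : ℝ), 0 < κ ∧ ∀ m, m₀ ≤ m →
      ∃ (ρ : ℕ) (c : ℤ) (s : Fin 4) (c' f0 : ℤ), Geo B m ρ c s c' ∧ (f0 = 0 ∨ f0 = -1) ∧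
        κ * (m:ℝ) ^ (-(1/4 : ℝ)) ≤
          Pr (fun _ => 1 / 2) (EU m ρ c s c') (EV m ρ c s c' (f0, f0)) := by
  obtain ⟨C, hC, hup⟩ := hup
  obtain ⟨c0, hc0, hlow⟩ := hlow
  obtain ⟨B, m₀, K, hK, h⟩ := hgen (η := c0 / (4 * C)) (by positivity)
  refine ⟨B, max m₀ 2, c0 / (4 * K), by positivity, ?_⟩
  intro m hm
  by_contra hcon
  push Not at hcon
  have hm2 : 2 ≤ m := (le_max_right _ _).trans hm
  have hmp : (0:ℝ) < m := by positivity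
  have hx : 0 ≤ (m:ℝ) ^ (-(1/4 : ℝ)) := by positivity
  have hxp : 0 < (m:ℝ) ^ (-(1/4 : ℝ)) := Real.rpow_pos_of_pos hmp _
  have h1 := h m ((le_max_left _ _).trans hm) (c0 / (4 * K) * (m:ℝ) ^ (-(1/4 : ℝ)))
    (by positivity) (fun ρ c s c' f0 hg hf => (hcon ρ c s c' f0 hg hf).le)
  have h2 := hlow m (by omega)
  have h3 := hup (m / 2) (by omega)
  have h4 : ((m / 2 : ℕ) : ℝ) ^ (-(1/4 : ℝ)) ≤ 2 * (m:ℝ) ^ (-(1/4 : ℝ)) := by
    have e1 : (m:ℝ) / 3 ≤ ((m / 2 : ℕ) : ℝ) := by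
      have : m ≤ 3 * (m / 2) := by omega
      have : (m:ℝ) ≤ 3 * ((m / 2 : ℕ) : ℝ) := by exact_mod_cast this
      linarith
    have e2 : ((m / 2 : ℕ) : ℝ) ^ (-(1/4 : ℝ)) ≤ ((m:ℝ) / 3) ^ (-(1/4 : ℝ)) :=
      Real.rpow_le_rpow_of_nonpos (by positivity) e1 (by norm_num)
    have e3 : ((m:ℝ) / 3) ^ (-(1/4 : ℝ)) = (m:ℝ) ^ (-(1/4 : ℝ)) * 3 ^ (1/4 : ℝ) := by
      rw [Real.div_rpow hmp.le (by norm_num), Real.rpow_neg (by norm_num : (0:ℝ) ≤ 3),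
        div_inv_eq_mul]
    have e4 : (3:ℝ) ^ (1/4 : ℝ) ≤ 2 := by
      have : (3:ℝ) ^ (1/4 : ℝ) ≤ (16:ℝ) ^ (1/4 : ℝ) :=
        Real.rpow_le_rpow (by norm_num) (by norm_num) (by norm_num)
      have e5 : (16:ℝ) ^ (1/4 : ℝ) = 2 := by
        rw [show (16:ℝ) = 2 ^ (4:ℝ) by norm_num, ← Real.rpow_mul (by norm_num)]
        norm_num
      linarith
    calc _ ≤ _ := e2
      _ = (m:ℝ) ^ (-(1/4 : ℝ)) * 3 ^ (1/4 : ℝ) := e3
      _ ≤ (m:ℝ) ^ (-(1/4 : ℝ)) * 2 := by gcongr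
      _ = _ := by ring
  have h5 : c0 / (4 * C) * pi2 (m / 2) ≤ c0 / 2 * (m:ℝ) ^ (-(1/4 : ℝ)) := by
    calc c0 / (4 * C) * pi2 (m / 2) ≤ c0 / (4 * C) * (C * (2 * (m:ℝ) ^ (-(1/4 : ℝ)))) := by
          gcongr
          exact h3.trans (by gcongr)
      _ = _ := by field_simp; ring
  have h6 : K * (c0 / (4 * K) * (m:ℝ) ^ (-(1/4 : ℝ))) = c0 / 4 * (m:ℝ) ^ (-(1/4 : ℝ)) := by
    field_simp
  rw [h6] at h1
  nlinarith

end H985T
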