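import Pool.Agent.H985R3.TA.Defs3
import Pool.Agent.H974R3.Box
import Pool.Agent.H988R3.Asym

/-!
# Two-arm project: the lower bound `pi2 m ≥ c m^(-1/4)`
-/

set_option autoImplicit false

namespace H985T

open H974 Finset

/-- first exit of a dual path from the box -/
theorem LOW_dexit {G : Set Edg} {m : ℕ} (hm : 1 ≤ m) {v : Vtx} (h : DReach G (0, 0) v)
    (hv : v.1 < -m ∨ (m:ℤ) ≤ v.1 ∨ v.2 < -m ∨ (m:ℤ) ≤ v.2) :
    ∃ w : Vtx, (w.1 < -m ∨ (m:ℤ) ≤ w.1 ∨ w.2 < -m ∨ (m:ℤ) ≤ w.2) ∧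
      DReach (G ∩ ↑(boxE m)) (0, 0) w := by
  have key : ∀ w, DReach G (0, 0) w →
      (∃ w : Vtx, (w.1 < -m ∨ (m:ℤ) ≤ w.1 ∨ w.2 < -m ∨ (m:ℤ) ≤ w.2) ∧
        DReach (G ∩ ↑(boxE m)) (0, 0) w) ∨
      ((-(m:ℤ) ≤ w.1 ∧ w.1 < m) ∧ (-(m:ℤ) ≤ w.2 ∧ w.2 < m) ∧
        DReach (G ∩ ↑(boxE m)) (0, 0) w) := by
    intro w hw
    induction hw with
    | refl =>
      right
      refine ⟨⟨?_, ?_⟩, ⟨?_, ?_⟩, Relation.ReflTransGen.refl⟩ <;> simp only <;> omega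
    | @tail w w' _ hs ih =>
      rcases ih with ih | ⟨ih1, ih2, ih3⟩
      · exact Or.inl ih
      · obtain ⟨⟨x0, y0, bo⟩, heG, hcase⟩ := hs
        have hmem : ((x0, y0, bo) : Edg) ∈ boxE m := by
          unfold boxE
          cases bo
          · simp only [dsrc_false, dtgt_mk] at hcase
            rw [mem_RE_false]
            rcases hcase with ⟨h3, h4⟩ | ⟨h3, h4⟩
            · rw [← h3] at ih1 ih2; simp only at ih1 ih2; omega
            · rw [← h4] at ih1 ih2; simp only at ih1 ih2; omega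
          · simp only [dsrc_true, dtgt_mk] at hcase
            rw [mem_RE_true]
            rcases hcase with ⟨h3, h4⟩ | ⟨h3, h4⟩
            · rw [← h3] at ih1 ih2; simp only at ih1 ih2; omega
            · rw [← h4] at ih1 ih2; simp only at ih1 ih2; omega
        have hstep : DReach (G ∩ ↑(boxE m)) (0, 0) w' :=
          Relation.ReflTransGen.tail ih3 ⟨_, ⟨heG, Finset.mem_coe.2 hmem⟩, hcase⟩
        by_cases hb : w'.1 < -m ∨ (m:ℤ) ≤ w'.1 ∨ w'.2 < -m ∨ (m:ℤ) ≤ w'.2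
        · exact Or.inl ⟨w', hb, hstep⟩
        · right
          refine ⟨by omega, by omega, hstep⟩
  rcases key v h with h1 | ⟨h1, h2, h3⟩
  · exact h1
  · exfalso
    omega

theorem LOW_sub (m : ℕ) : boxE m ⊆ Pool.Agent.H974R3.SS (2 * m + 2) (2 * m + 2) := by
  rintro ⟨x, y, bo⟩ he
  rw [Pool.Agent.H974R3.mem_SS]
  unfold boxE at he
  cases bo
  · rw [mem_RE_false] at he
    refine ⟨((2 * m + 2 : ℤ) + x + y).toNat, ((2 * m + 2 : ℤ) + x - y - 1).toNat, ?_, ?_, ?_⟩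
    · omega
    · omega
    · unfold Pool.Agent.H974R3.ed
      have e1 : ((((2 * m + 2 : ℤ) + x + y).toNat : ℕ) : ℤ) = (2 * m + 2 : ℤ) + x + y :=
        Int.toNat_of_nonneg (by omega)
      have e2 : ((((2 * m + 2 : ℤ) + x - y - 1).toNat : ℕ) : ℤ) = (2 * m + 2 : ℤ) + x - y - 1 :=
        Int.toNat_of_nonneg (by omega)
      rw [if_neg (by omega), e1, e2]
      simp only [Prod.mk.injEq, and_true]
      push_cast
      constructor <;> omega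
  · rw [mem_RE_true] at he
    refine ⟨((2 * m + 2 : ℤ) + x + y).toNat, ((2 * m + 2 : ℤ) + x - y).toNat, ?_, ?_, ?_⟩
    · omega
    · omega
    · unfold Pool.Agent.H974R3.ed
      have e1 : ((((2 * m + 2 : ℤ) + x + y).toNat : ℕ) : ℤ) = (2 * m + 2 : ℤ) + x + y :=
        Int.toNat_of_nonneg (by omega)
      have e2 : ((((2 * m + 2 : ℤ) + x - y).toNat : ℕ) : ℤ) = (2 * m + 2 : ℤ) + x - y :=
        Int.toNat_of_nonneg (by omega)
      rw [if_pos (by omega), e1, e2]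
      simp only [Prod.mk.injEq, and_true]
      push_cast
      constructor <;> omega

theorem LOW_A2 {m : ℕ} (hm : 1 ≤ m) {F : Finset Edg}
    (hP : Pool.Agent.H974R3.OutP (2 * m + 2) (↑F : Set Edg))
    (hD : Pool.Agent.H974R3.OutD (2 * m + 2)
      (↑(Pool.Agent.H974R3.SS (2 * m + 2) (2 * m + 2) \ F) : Set Edg)) :
    A2 m (F ∩ boxE m) := by
  obtain ⟨w, hw1, hw2⟩ := hP
  obtain ⟨v, hv1, hv2⟩ := hD
  push_cast at hw2 hv2
  constructor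
  · have h0 : inR (-(m:ℤ)) m (-(m:ℤ)) m ((0, 0) : Vtx) := by
      refine ⟨⟨?_, ?_⟩, ⟨?_, ?_⟩⟩ <;> simp only <;> omega
    have hex : w.1 ≤ -(m:ℤ) ∨ (m:ℤ) ≤ w.1 ∨ w.2 ≤ -(m:ℤ) ∨ (m:ℤ) ≤ w.2 := by
      rcases abs_cases w.1 with ⟨h1, h2⟩ | ⟨h1, h2⟩ <;>
        rcases abs_cases w.2 with ⟨h3, h4⟩ | ⟨h3, h4⟩ <;> omega
    obtain ⟨u, hu1, hu2, hu3⟩ := first_exit h0 hw1 hex
    refine ⟨u, ⟨hu1, hu2⟩, ?_⟩
    rw [Finset.coe_inter]
    exact hu3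
  · have hex : v.1 < -(m:ℤ) ∨ (m:ℤ) ≤ v.1 ∨ v.2 < -(m:ℤ) ∨ (m:ℤ) ≤ v.2 := by
      rcases abs_cases v.1 with ⟨h1, h2⟩ | ⟨h1, h2⟩ <;>
        rcases abs_cases v.2 with ⟨h3, h4⟩ | ⟨h3, h4⟩ <;> omega
    obtain ⟨u, hu1, hu2⟩ := LOW_dexit hm hv1 hex
    refine ⟨u, hu1, ?_⟩
    have hsub : ((↑(Pool.Agent.H974R3.SS (2 * m + 2) (2 * m + 2) \ F) : Set Edg) ∩ ↑(boxE m)) ⊆
        (↑(boxE m \ (F ∩ boxE m)) : Set Edg) := by
      rintro e ⟨h1, h2⟩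
      have h1' := Finset.mem_sdiff.1 (Finset.mem_coe.1 h1)
      refine Finset.mem_coe.2 (Finset.mem_sdiff.2 ⟨Finset.mem_coe.1 h2, ?_⟩)
      intro h3
      exact h1'.2 (Finset.mem_inter.1 h3).1
    exact DReach.mono hsub hu2

theorem LOW_pval {m : ℕ} (hm : 1 ≤ m) : Pool.Agent.H974R3.pval (2 * m + 2) ≤ pi2 m := by
  obtain ⟨μ, h0, h1, h2, _, _⟩ := Pool.Agent.H974R3.markov_exists (2 * m + 2)
  have e1 := Pool.Agent.H974R3.pval_le_box (2 * m + 2) (2 * m + 2) le_rfl μ h1 h0 h2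
  have hok : Ok (fun _ : Edg => (1 / 2 : ℝ)) := by
    intro e
    norm_num
  have e2 : Pr (fun _ => 1 / 2) (Pool.Agent.H974R3.SS (2 * m + 2) (2 * m + 2))
      (fun F => Pool.Agent.H974R3.OutP (2 * m + 2) (↑F : Set Edg) ∧
        Pool.Agent.H974R3.OutD (2 * m + 2)
          (↑(Pool.Agent.H974R3.SS (2 * m + 2) (2 * m + 2) \ F) : Set Edg)) ≤
      Pr (fun _ => 1 / 2) (Pool.Agent.H974R3.SS (2 * m + 2) (2 * m + 2))
        (fun F => A2 m (F ∩ boxE m)) :=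
    Pr_mono hok (fun F _ hF => LOW_A2 hm hF.1 hF.2)
  have e3 : Pr (fun _ => 1 / 2) (Pool.Agent.H974R3.SS (2 * m + 2) (2 * m + 2))
        (fun F => A2 m (F ∩ boxE m)) = Pr (fun _ => 1 / 2) (boxE m)
        (fun F => A2 m (F ∩ boxE m)) := by
    refine Pr_local (LOW_sub m) (fun F _ => ?_)
    rw [Finset.inter_assoc, Finset.inter_self]
  have e4 : Pr (fun _ => 1 / 2) (boxE m) (fun F => A2 m (F ∩ boxE m)) = pi2 m := by
    refine Pr_congr (fun F hF => ?_)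
    rw [Finset.inter_eq_left.2 hF]
  exact e1.trans (e2.trans (e3.trans e4).le)

theorem pi2_lower : ∃ c : ℝ, 0 < c ∧ ∀ m : ℕ, 1 ≤ m → c * (m:ℝ) ^ (-(1/4 : ℝ)) ≤ pi2 m := by
  obtain ⟨c, C, hc, hb⟩ := Pool.Agent.H988R3.pval_bounds
  refine ⟨c * (9:ℝ) ^ (-(1/4 : ℝ)), by positivity, fun m hm => ?_⟩
  refine le_trans ?_ (LOW_pval hm)
  refine le_trans ?_ (hb (2 * m + 2)).1
  rw [mul_assoc, ← Real.mul_rpow (by norm_num) (Nat.cast_nonneg m)]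
  refine mul_le_mul_of_nonneg_left ?_ hc.le
  have hm' : (1:ℝ) ≤ m := by exact_mod_cast hm
  have e1 : -(1/4 : ℝ) = (-(1/4) : ℝ) := rfl
  refine Real.rpow_le_rpow_of_nonpos ?_ ?_ (by norm_num)
  · positivity
  · push_cast
    linarith

end H985T
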