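import Pool.Agent.H985R3.TA.Defs2

/-!
Two-arm project, task PAS (helper233): first passages.
-/

set_option autoImplicit false

namespace H985T

open H974 Finset

theorem PAS_tube {m ρ : ℕ} {c : ℤ} : tube 0 m ρ c (10 * ρ) =
    RE (m:ℤ) ((m:ℤ) + 10 * ρ) (c - ρ) (c + ρ) := by
  simp [tube]

theorem PAS_mem {m ρ : ℕ} {c : ℤ} {e : Edg}
    (h : e ∈ (↑(boxE m ∪ tubeD m ρ c) : Set Edg)) :
    e ∈ (↑(boxE m ∪ tube 0 m ρ c (10 * ρ)) : Set Edg) := by
  rw [Finset.mem_coe, Finset.mem_union] at h ⊢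
  rcases h with h | h
  · exact Or.inl h
  · right
    unfold tubeD at h
    exact (Finset.mem_sdiff.1 h).1

/-- the edges of the end have both end points beyond the tube -/
theorem PAS_end_v {m ρ : ℕ} {c : ℤ} {e : Edg} (h : e ∈ endE m ρ c) :
    (m:ℤ) + 10 * ρ ≤ (src e).1 ∧ (m:ℤ) + 10 * ρ ≤ (tgt e).1 := by
  unfold endE at h
  rw [Finset.mem_sdiff] at h
  obtain ⟨h, -⟩ := h
  obtain ⟨x, y, _ | _⟩ := e
  · rw [mem_RE_false] at h
    simp only [src_mk, tgt_false]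
    exact ⟨h.1, h.1⟩
  · rw [mem_RE_true] at h
    simp only [src_mk, tgt_true]
    omega

/-- the edges of the end have both faces beyond the tube -/
theorem PAS_end_f {m ρ : ℕ} {c : ℤ} {e : Edg} (h : e ∈ endE m ρ c) :
    (m:ℤ) + 10 * ρ ≤ (dsrc e).1 ∧ (m:ℤ) + 10 * ρ ≤ (dtgt e).1 := by
  unfold endE at h
  rw [Finset.mem_sdiff, PAS_tube] at h
  obtain ⟨h, h'⟩ := h
  obtain ⟨x, y, _ | _⟩ := e
  · rw [mem_RE_false] at h h'
    simp only [dsrc_false, dtgt_mk]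
    by_contra hc
    apply h'
    omega
  · rw [mem_RE_true] at h
    simp only [dsrc_true, dtgt_mk]
    omega

theorem pass_v {m ρ : ℕ} {c : ℤ} (hρ : 1 ≤ ρ) {F : Set Edg}
    (h : Reach (((↑(boxE m ∪ tubeD m ρ c) : Set Edg) ∩ F) ∪ ↑(endE m ρ c)) (0, 0)
      ((m:ℤ) + 14 * ρ, c)) : Tv m ρ c F := by
  have key : ∀ u, Reach (((↑(boxE m ∪ tubeD m ρ c) : Set Edg) ∩ F) ∪ ↑(endE m ρ c)) (0, 0) u →
      Tv m ρ c F ∨ (Reach (F ∩ ↑(boxE m ∪ tube 0 m ρ c (10 * ρ))) (0, 0) u ∧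
        u.1 < (m:ℤ) + 10 * ρ) := by
    intro u hu
    induction hu with
    | refl =>
      right
      refine ⟨Reach.refl _ _, ?_⟩
      show (0:ℤ) < (m:ℤ) + 10 * ρ
      omega
    | @tail u v _ hs ih =>
      rcases ih with ih | ⟨ih, hu⟩
      · exact Or.inl ih
      obtain ⟨e, he, huv⟩ := hs
      rcases he with he | he
      · have hR : Reach (F ∩ ↑(boxE m ∪ tube 0 m ρ c (10 * ρ))) (0, 0) v :=
          ih.trans (Adj.reach ⟨e, ⟨he.2, PAS_mem he.1⟩, huv⟩)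
        by_cases hv : v.1 < (m:ℤ) + 10 * ρ
        · exact Or.inr ⟨hR, hv⟩
        · left
          have hv1 : v.1 = (m:ℤ) + 10 * ρ := by
            obtain ⟨x, y, _ | _⟩ := e
            · rcases huv with ⟨h1, h2⟩ | ⟨h1, h2⟩ <;> subst h1 <;> subst h2 <;>
                simp only [src_mk, tgt_false] at hu hv ⊢ <;> omega
            · rcases huv with ⟨h1, h2⟩ | ⟨h1, h2⟩ <;> subst h1 <;> subst h2 <;>
                simp only [src_mk, tgt_true] at hu hv ⊢ <;> omega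
          refine ⟨v.2, ?_⟩
          rw [← hv1]
          exact hR
      · exfalso
        have h1 := PAS_end_v (Finset.mem_coe.1 he)
        rcases huv with ⟨h2, -⟩ | ⟨-, h2⟩
        · rw [h2] at h1; omega
        · rw [h2] at h1; omega
  rcases key _ h with h | ⟨-, h⟩
  · exact h
  · exfalso
    have h : (m:ℤ) + 14 * ρ < (m:ℤ) + 10 * ρ := h
    omega

theorem pass_f {m ρ : ℕ} {c : ℤ} (hρ : 1 ≤ ρ) {f : Vtx} (hf : corner (0, 0) f) {F : Set Edg}
    (h : DReach ((↑(boxE m ∪ tubeD m ρ c) : Set Edg) \ F ∪ ↑(endE m ρ c)) f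
      ((m:ℤ) + 14 * ρ, c)) : Tf m ρ c f F := by
  have key : ∀ u, DReach ((↑(boxE m ∪ tubeD m ρ c) : Set Edg) \ F ∪ ↑(endE m ρ c)) f u →
      Tf m ρ c f F ∨ (DReach (↑(boxE m ∪ tube 0 m ρ c (10 * ρ)) \ F) f u ∧
        u.1 < (m:ℤ) + 10 * ρ) := by
    intro u hu
    induction hu with
    | refl =>
      right
      refine ⟨DReach.refl _ _, ?_⟩
      have h1 := hf.1
      simp only at h1
      omega
    | @tail u v _ hs ih =>
      rcases ih with ih | ⟨ih, hu⟩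
      · exact Or.inl ih
      obtain ⟨e, he, huv⟩ := hs
      rcases he with he | he
      · have hR : DReach (↑(boxE m ∪ tube 0 m ρ c (10 * ρ)) \ F) f v :=
          ih.trans (DAdj.reach ⟨e, ⟨PAS_mem he.1, he.2⟩, huv⟩)
        by_cases hv : v.1 < (m:ℤ) + 10 * ρ
        · exact Or.inr ⟨hR, hv⟩
        · left
          exact ⟨v, by omega, hR⟩
      · exfalso
        have h1 := PAS_end_f (Finset.mem_coe.1 he)
        rcases huv with ⟨h2, -⟩ | ⟨-, h2⟩
        · rw [h2] at h1; omega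
        · rw [h2] at h1; omega
  rcases key _ h with h | ⟨-, h⟩
  · exact h
  · exfalso
    have h : (m:ℤ) + 14 * ρ < (m:ℤ) + 10 * ρ := h
    omega

end H985T
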