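import Pool.Agent.H985R3.TA.Defs
import Pool.Agent.H12R2.Sep.Markov

/-! Stopping sets and increasing events (task MK2). -/

set_option autoImplicit false

namespace H985T

open H974 Finset

theorem MK2_cell {E : Type*} [DecidableEq E] {p : E → ℝ} (hp : Ok p) {S : Finset E}
    {K : Finset E → Finset E} (hK : H12S.Stop S K) {A B : Finset E → Prop}
    (hA : ∀ F F', F ⊆ S → F' ⊆ S → F ∩ K F = F' ∩ K F → A F → A F')
    (hB : ∀ F G : Finset E, F ⊆ G → B F → B G) (K0 T : Finset E) :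
    Pr p S (fun F => (K F ∩ S = K0 ∧ F ∩ K0 = T) ∧ A F) * Pr p S B ≤
      Pr p S (fun F => (K F ∩ S = K0 ∧ F ∩ K0 = T) ∧ (A F ∧ B (F ∪ K F))) := by
  by_cases h : ∃ F1, F1 ⊆ S ∧ K F1 ∩ S = K0 ∧ F1 ∩ K0 = T ∧ A F1
  · obtain ⟨F1, hF1, hK1, hT1, hA1⟩ := h
    have hK0 : K0 ⊆ S := by rw [← hK1]; exact Finset.inter_subset_right
    have key : ∀ F, F ⊆ S → F ∩ K0 = T → (K F ∩ S = K0 ∧ A F) := by
      intro F hF hFT
      have e : F1 ∩ K F1 = F ∩ K F1 := by
        rw [← H12S.MK_inter hF1 (K F1), ← H12S.MK_inter hF (K F1), hK1, hT1, hFT]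
      have h2 : K F = K F1 := hK F1 F hF1 hF e
      exact ⟨by rw [h2, hK1], hA F1 F hF1 hF e hA1⟩
    have e1 : Pr p S (fun F => F ∩ K0 = T ∧ B (F ∪ K0)) ≤
        Pr p S (fun F => (K F ∩ S = K0 ∧ F ∩ K0 = T) ∧ (A F ∧ B (F ∪ K F))) := by
      refine Pr_mono hp fun F hF h1 => ?_
      obtain ⟨h1, h2⟩ := h1
      obtain ⟨h3, h4⟩ := key F hF h1
      refine ⟨⟨h3, h1⟩, h4, hB _ _ ?_ h2⟩
      rw [← h3]
      exact Finset.union_subset_union le_rfl Finset.inter_subset_left
    have e2 : Pr p S (fun F => (K F ∩ S = K0 ∧ F ∩ K0 = T) ∧ A F) =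
        Pr p S (fun F => F ∩ K0 = T) := by
      apply Pr_congr
      intro F hF
      constructor
      · rintro ⟨⟨-, h2⟩, -⟩; exact h2
      · intro h1
        obtain ⟨h3, h4⟩ := key F hF h1
        exact ⟨⟨h3, h1⟩, h4⟩
    have e3 : Pr p S (fun F => F ∩ K0 = T ∧ B (F ∪ K0)) =
        Pr p S (fun F => F ∩ K0 = T) * Pr p S (fun F => B (F ∪ K0)) := by
      refine Pr_indep (S := K0) (T := S \ K0) hK0 Finset.sdiff_subset Finset.disjoint_sdiff ?_ ?_
      · intro F _
        rw [Finset.inter_assoc, Finset.inter_self]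
      · intro F hF
        have : F ∪ K0 = (F ∩ (S \ K0)) ∪ K0 := by
          ext x
          simp only [Finset.mem_union, Finset.mem_sdiff, Finset.mem_inter]
          constructor
          · rintro (h1 | h1)
            · by_cases h2 : x ∈ K0
              · exact Or.inr h2
              · exact Or.inl ⟨h1, hF h1, h2⟩
            · exact Or.inr h1
          · rintro (⟨h1, -, -⟩ | h1)
            · exact Or.inl h1
            · exact Or.inr h1
        rw [← this]
    refine le_trans ?_ e1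
    rw [e2, e3]
    exact mul_le_mul_of_nonneg_left
      (Pr_mono hp fun F _ h => hB _ _ Finset.subset_union_left h) (Pr_nonneg hp _ _)
  · rw [H12S.MK_false p S (X := fun F => (K F ∩ S = K0 ∧ F ∩ K0 = T) ∧ A F), zero_mul]
    · exact Pr_nonneg hp _ _
    · rintro F hF ⟨⟨h1, h2⟩, h3⟩
      exact h ⟨F, hF, h1, h2, h3⟩

/-- stopping sets and increasing events -/
theorem markov_inc {E : Type*} [DecidableEq E] {p : E → ℝ} (hp : Ok p) {S : Finset E}
    {K : Finset E → Finset E} (hK : H12S.Stop S K) {A B : Finset E → Prop}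
    (hA : ∀ F F', F ⊆ S → F' ⊆ S → F ∩ K F = F' ∩ K F → A F → A F')
    (hB : ∀ F G : Finset E, F ⊆ G → B F → B G) :
    Pr p S A * Pr p S B ≤ Pr p S (fun F => A F ∧ B (F ∪ K F)) := by
  rw [H12S.MK_part p S K (fun F => A F ∧ B (F ∪ K F)), H12S.MK_part p S K A, Finset.sum_mul]
  refine Finset.sum_le_sum fun K0 _ => ?_
  rw [Finset.sum_mul]
  exact Finset.sum_le_sum fun T _ => MK2_cell hp hK hA hB K0 T

end H985T
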