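import Pool.Agent.H985R3.TA.Defs2

/-!
# Two-arm project, task YO: closed dual paths from explored faces have weight 0
-/

set_option autoImplicit false

namespace H985T

open H974 Finset

/-- excursions between explored faces have the weight of the potential -/
theorem YO_exc {O D F : Set Edg} {Z : Edg → ZMod 2} {l : ℤ} {θ : Vtx → ZMod 2}
    (hθ : ∀ a ∈ YY O D F, a ∈ VD D → ∀ b ∈ YY O D F, b ∈ VD D → b ∈ ball a l →
      ∀ k, DW Z (eball a l) a b k → k = θ a + θ b)
    (trap : ∀ a ∈ VD D, ∀ b, DReach (Fresh O D F) a b → b ∈ ball a l)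
    {a b : Vtx} {k : ZMod 2} (ha : a ∈ YY O D F) (haD : a ∈ VD D)
    (hb : b ∈ YY O D F) (hbD : b ∈ VD D) (h : DW Z (Fresh O D F) a b k) : k = θ a + θ b := by
  have h0 : b ∈ ball a l := trap a haD b h.reach
  have h1 := h.local (B := ball a l) (fun c hc => trap a haD c hc)
  exact hθ a ha haD b hb hbD h0 k (h1.mono (fun e he => he.2))

/-- paths from an explored face -/
theorem YO_from {O D F : Set Edg} {Z : Edg → ZMod 2} {l : ℤ} {θ : Vtx → ZMod 2}
    (hθ0 : ∀ e ∈ H0s O D F, dsrc e ∈ YY O D F → Z e = θ (dsrc e) + θ (dtgt e))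
    (hθ : ∀ a ∈ YY O D F, a ∈ VD D → ∀ b ∈ YY O D F, b ∈ VD D → b ∈ ball a l →
      ∀ k, DW Z (eball a l) a b k → k = θ a + θ b)
    (trap : ∀ a ∈ VD D, ∀ b, DReach (Fresh O D F) a b → b ∈ ball a l)
    {a c : Vtx} {k : ZMod 2} (ha : a ∈ YY O D F) (h : DW Z (Hs O F) a c k) :
    (c ∈ YY O D F ∧ k = θ a + θ c) ∨
      (c ∉ YY O D F ∧ ∃ b ∈ YY O D F, b ∈ VD D ∧
        ∃ k1, DW Z (Fresh O D F) b c k1 ∧ k = θ a + θ b + k1) := by
  induction h with
  | refl => exact Or.inl ⟨ha, (zmod2_add_self _).symm⟩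
  | @step b c k e h he hc ih =>
    by_cases he0 : e ∈ H0s O D F
    · rcases ih with ⟨hb, hk⟩ | ⟨hb, b', hb', hb'D, k1, hk1, hk⟩
      · have hcY : c ∈ YY O D F := YY_step he0 hb hc
        refine Or.inl ⟨hcY, ?_⟩
        have hs : dsrc e ∈ YY O D F := by
          rcases hc with ⟨h1, _⟩ | ⟨h1, _⟩
          · rw [h1]; exact hb
          · rw [h1]; exact hcY
        rw [hk, hθ0 e he0 hs]
        rcases hc with ⟨h1, h2⟩ | ⟨h1, h2⟩
        · rw [h1, h2]
          have := zmod2_add_self (θ b)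
          linear_combination this
        · rw [h1, h2]
          have := zmod2_add_self (θ b)
          linear_combination this
      · right
        have hcY : c ∉ YY O D F := fun hcY => hb (YY_step he0 hcY hc.symm)
        refine ⟨hcY, b', hb', hb'D, k1 + Z e, ?_, by rw [hk]; ring⟩
        have heO : e ∈ O := by
          by_contra heO
          have := YY_out (D := D) (F := F) heO
          rcases hc with ⟨h1, h2⟩ | ⟨h1, h2⟩
          · exact hb (h1 ▸ this.1)
          · exact hb (h2 ▸ this.2)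
        refine hk1.step ⟨heO, fun hF => he0 ⟨heO, Or.inr hF⟩, Or.inr ?_⟩ hc
        rcases hc with ⟨h1, h2⟩ | ⟨h1, h2⟩
        · rw [h1, h2]; exact ⟨hb, hcY⟩
        · rw [h1, h2]; exact ⟨hcY, hb⟩
    · have he1 : e ∈ O ∧ (e ∈ D ∨ e ∈ F) := not_not.mp he0
      have heF : e ∉ F := fun hF => he ⟨he1.1, hF⟩
      have heD : e ∈ D := he1.2.resolve_right heF
      have hfr : e ∈ Fresh O D F := ⟨he1.1, heF, Or.inl heD⟩
      have hbD : b ∈ VD D := by
        rcases hc with ⟨h1, h2⟩ | ⟨h1, h2⟩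
        · exact ⟨e, heD, Or.inl h1⟩
        · exact ⟨e, heD, Or.inr h2⟩
      have hcD : c ∈ VD D := by
        rcases hc with ⟨h1, h2⟩ | ⟨h1, h2⟩
        · exact ⟨e, heD, Or.inr h2⟩
        · exact ⟨e, heD, Or.inl h1⟩
      rcases ih with ⟨hb, hk⟩ | ⟨hb, b', hb', hb'D, k1, hk1, hk⟩
      · have h1 := DW.single (Z := Z) hfr hc
        by_cases hcY : c ∈ YY O D F
        · refine Or.inl ⟨hcY, ?_⟩
          have h2 := YO_exc hθ trap hb hbD hcY hcD h1
          rw [hk, h2]
          have := zmod2_add_self (θ b)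
          linear_combination this
        · exact Or.inr ⟨hcY, b, hb, hbD, Z e, h1, by rw [hk]⟩
      · have h1 := hk1.step hfr hc
        by_cases hcY : c ∈ YY O D F
        · refine Or.inl ⟨hcY, ?_⟩
          have h2 := YO_exc hθ trap hb' hb'D hcY hcD h1
          rw [hk, add_assoc, h2]
          have := zmod2_add_self (θ b')
          linear_combination this
        · exact Or.inr ⟨hcY, b', hb', hb'D, k1 + Z e, h1, by rw [hk]; ring⟩

/-- closed dual paths from explored faces have weight 0 -/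
theorem yonly {O D F : Set Edg} {Z : Edg → ZMod 2} {l : ℤ} (hA : PotHyp O D F Z l)
    (trap : ∀ a ∈ VD D, ∀ b, DReach (Fresh O D F) a b → b ∈ ball a l)
    {a : Vtx} (ha : a ∈ YY O D F) {k : ZMod 2} (h : DW Z (Hs O F) a a k) : k = 0 := by
  obtain ⟨θ, hθ0, hθ⟩ := hA
  rcases YO_from hθ0 hθ trap ha h with ⟨-, h1⟩ | ⟨h1, -⟩
  · rw [h1]; exact zmod2_add_self _
  · exact absurd ha h1

end H985T
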