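import Pool.Agent.H985R3.TA.Defs2
import Pool.Agent.H985R3.TA.MK2
import Pool.Agent.H985R3.TA.YO
import Pool.Agent.H985R3.TA.CONV

/-! The abstract separation step (task PST). -/

set_option autoImplicit false

namespace H985T

open H974 Finset

/-- explored faces of the configuration `F` -/
def PST_Y (S D Oo F : Finset Edg) : Set Vtx := YY (↑(S ∪ D ∪ Oo) : Set Edg) ↑D (↑F ∪ ↑Oo)

open Classical in
/-- the stopping set -/
noncomputable def PST_K (S D Oo X F : Finset Edg) : Finset Edg :=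
  S.filter (fun e => dsrc e ∈ PST_Y S D Oo F ∨ dtgt e ∈ PST_Y S D Oo F) ∪ X

theorem PST_mem_K {S D Oo X F : Finset Edg} {e : Edg} : e ∈ PST_K S D Oo X F ↔
    (e ∈ S ∧ (dsrc e ∈ PST_Y S D Oo F ∨ dtgt e ∈ PST_Y S D Oo F)) ∨ e ∈ X := by
  classical
  unfold PST_K
  rw [Finset.mem_union, Finset.mem_filter]

theorem PST_H0s {S D Oo F : Finset Edg} (hSD : Disjoint S D) (hOo : Disjoint Oo (S ∪ D))
    {e : Edg} : e ∈ H0s (↑(S ∪ D ∪ Oo) : Set Edg) ↑D (↑F ∪ ↑Oo) ↔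
      e ∉ S ∪ D ∪ Oo ∨ (e ∈ S ∧ e ∉ F) := by
  have h1 : e ∈ S → e ∉ D := fun h h' => Finset.disjoint_left.mp hSD h h'
  have h2 : e ∈ Oo → e ∉ S ∪ D := fun h h' => Finset.disjoint_left.mp hOo h h'
  rw [Finset.mem_union] at h2
  simp only [H0s, Set.mem_ofPred_eq, Finset.mem_coe, Set.mem_union, Finset.mem_union]
  tauto

theorem PST_Y_step {S D Oo F : Finset Edg} (hSD : Disjoint S D) (hOo : Disjoint Oo (S ∪ D))
    {e : Edg} {b c : Vtx} (he : e ∉ S ∪ D ∪ Oo ∨ (e ∈ S ∧ e ∉ F)) (hb : b ∈ PST_Y S D Oo F)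
    (hc : (dsrc e = b ∧ dtgt e = c) ∨ (dsrc e = c ∧ dtgt e = b)) : c ∈ PST_Y S D Oo F :=
  YY_step ((PST_H0s hSD hOo).mpr he) hb hc

theorem PST_Y_out {S D Oo F : Finset Edg} {e : Edg} (he : e ∉ S ∪ D ∪ Oo) :
    dsrc e ∈ PST_Y S D Oo F ∧ dtgt e ∈ PST_Y S D Oo F :=
  YY_out (fun h => he (Finset.mem_coe.mp h))

theorem PST_Y_out' {S D Oo F : Finset Edg} {w : Vtx}
    (h : ∃ e, e ∉ S ∪ D ∪ Oo ∧ (dsrc e = w ∨ dtgt e = w)) : w ∈ PST_Y S D Oo F := by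
  obtain ⟨e, he, h1 | h1⟩ := h
  · rw [← h1]; exact (PST_Y_out he).1
  · rw [← h1]; exact (PST_Y_out he).2

/-- the explored faces only depend on the explored edges -/
theorem PST_Y_eq {S D Oo F F' : Finset Edg} (hSD : Disjoint S D) (hOo : Disjoint Oo (S ∪ D))
    (h : ∀ e ∈ S, (dsrc e ∈ PST_Y S D Oo F ∨ dtgt e ∈ PST_Y S D Oo F) → (e ∈ F ↔ e ∈ F')) :
    PST_Y S D Oo F = PST_Y S D Oo F' := by
  have touch : ∀ {e : Edg} {b c : Vtx},
      (dsrc e = b ∧ dtgt e = c) ∨ (dsrc e = c ∧ dtgt e = b) → b ∈ PST_Y S D Oo F →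
      (dsrc e ∈ PST_Y S D Oo F ∨ dtgt e ∈ PST_Y S D Oo F) := by
    intro e b c hc hb
    rcases hc with ⟨h1, _⟩ | ⟨_, h1⟩
    · left; rw [h1]; exact hb
    · right; rw [h1]; exact hb
  apply Set.Subset.antisymm
  · rintro b ⟨e0, he0, hr⟩
    induction hr with
    | refl => exact (PST_Y_out (fun h => he0 (Finset.mem_coe.mpr h))).2
    | @tail b c hbc hs ih =>
      obtain ⟨e, he, hc⟩ := hs
      have hb : b ∈ PST_Y S D Oo F := ⟨e0, he0, hbc⟩
      have ht := touch hc hb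
      rw [PST_H0s hSD hOo] at he
      refine PST_Y_step hSD hOo ?_ ih hc
      rcases he with he | ⟨he, he'⟩
      · exact Or.inl he
      · exact Or.inr ⟨he, fun h' => he' ((h e he ht).mpr h')⟩
  · rintro b ⟨e0, he0, hr⟩
    induction hr with
    | refl => exact (PST_Y_out (fun h => he0 (Finset.mem_coe.mpr h))).2
    | @tail b c hbc hs ih =>
      obtain ⟨e, he, hc⟩ := hs
      have ht := touch hc ih
      rw [PST_H0s hSD hOo] at he
      refine PST_Y_step hSD hOo ?_ ih hc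
      rcases he with he | ⟨he, he'⟩
      · exact Or.inl he
      · exact Or.inr ⟨he, fun h' => he' ((h e he ht).mp h')⟩

theorem PST_agree {S D Oo X F F' : Finset Edg}
    (h : F ∩ PST_K S D Oo X F = F' ∩ PST_K S D Oo X F) {e : Edg}
    (he : e ∈ PST_K S D Oo X F) : e ∈ F ↔ e ∈ F' := by
  constructor
  · intro h1
    have h2 : e ∈ F ∩ PST_K S D Oo X F := Finset.mem_inter.mpr ⟨h1, he⟩
    rw [h] at h2
    exact (Finset.mem_inter.mp h2).1
  · intro h1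
    have h2 : e ∈ F' ∩ PST_K S D Oo X F := Finset.mem_inter.mpr ⟨h1, he⟩
    rw [← h] at h2
    exact (Finset.mem_inter.mp h2).1

theorem PST_agree_Y {S D Oo X F F' : Finset Edg} (hSD : Disjoint S D)
    (hOo : Disjoint Oo (S ∪ D)) (h : F ∩ PST_K S D Oo X F = F' ∩ PST_K S D Oo X F) :
    PST_Y S D Oo F = PST_Y S D Oo F' :=
  PST_Y_eq hSD hOo (fun _ he ht => PST_agree h (PST_mem_K.mpr (Or.inl ⟨he, ht⟩)))

theorem PST_stop {S D Oo X U : Finset Edg} (hSD : Disjoint S D) (hOo : Disjoint Oo (S ∪ D)) :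
    H12S.Stop U (PST_K S D Oo X) := by
  intro F F' _ _ h
  have h1 := PST_agree_Y hSD hOo h
  ext e
  rw [PST_mem_K, PST_mem_K, h1]

theorem PST_pot {S D Oo X F F' : Finset Edg} {Z : Edg → ZMod 2} {l : ℤ} (hSD : Disjoint S D)
    (hOo : Disjoint Oo (S ∪ D)) (h : F ∩ PST_K S D Oo X F = F' ∩ PST_K S D Oo X F)
    (hP : PotHyp (↑(S ∪ D ∪ Oo) : Set Edg) ↑D (↑F ∪ ↑Oo) Z l) :
    PotHyp (↑(S ∪ D ∪ Oo) : Set Edg) ↑D (↑F' ∪ ↑Oo) Z l := by
  have h1 : YY (↑(S ∪ D ∪ Oo) : Set Edg) ↑D (↑F ∪ ↑Oo) =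
      YY (↑(S ∪ D ∪ Oo) : Set Edg) ↑D (↑F' ∪ ↑Oo) := PST_agree_Y hSD hOo h
  obtain ⟨θ, h2, h3⟩ := hP
  refine ⟨θ, ?_, ?_⟩
  · intro e he hY
    rw [← h1] at hY
    refine h2 e ?_ hY
    rw [PST_H0s hSD hOo] at he ⊢
    rcases he with he | ⟨he, he'⟩
    · exact Or.inl he
    · refine Or.inr ⟨he, fun h' => he' ((PST_agree h ?_).mp h')⟩
      exact PST_mem_K.mpr (Or.inl ⟨he, Or.inl hY⟩)
  · rw [← h1]
    exact h3

/-- a dual path starting from an explored face only crosses explored edges -/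
theorem PST_path {S D Oo X F : Finset Edg} (hSD : Disjoint S D)
    (hX : Disjoint X (S ∪ D ∪ Oo)) (hOo : Disjoint Oo (S ∪ D)) {w f : Vtx}
    (hw : w ∈ PST_Y S D Oo F) (hr : DReach (↑(S ∪ X) \ ↑F : Set Edg) w f) :
    f ∈ PST_Y S D Oo F ∧ DReach (↑(PST_K S D Oo X F) ∩ (↑(S ∪ X) \ ↑F) : Set Edg) w f := by
  induction hr with
  | refl => exact ⟨hw, DReach.refl _ _⟩
  | @tail b c hbc hs ih =>
    obtain ⟨e, he, hc⟩ := hs
    have h1 : e ∉ S ∪ D ∪ Oo ∨ (e ∈ S ∧ e ∉ F) := by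
      have h2 := he.1
      rw [Finset.mem_coe, Finset.mem_union] at h2
      rcases h2 with h2 | h2
      · exact Or.inr ⟨h2, he.2⟩
      · exact Or.inl (fun h3 => Finset.disjoint_left.mp hX h2 h3)
    have hcY := PST_Y_step hSD hOo h1 ih.1 hc
    refine ⟨hcY, ih.2.trans (DAdj.reach ⟨e, ⟨?_, he⟩, hc⟩)⟩
    rw [Finset.mem_coe, PST_mem_K]
    have h2 := he.1
    rw [Finset.mem_coe, Finset.mem_union] at h2
    rcases h2 with h2 | h2
    · refine Or.inl ⟨h2, ?_⟩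
      rcases hc with ⟨h3, _⟩ | ⟨_, h3⟩
      · left; rw [h3]; exact ih.1
      · right; rw [h3]; exact ih.1
    · exact Or.inr h2

/-- the abstract separation step -/
theorem step_prob {p : Edg → ℝ} (hp : Ok p) {S D X Oo : Finset Edg}
    (hSD : Disjoint S D) (hX : Disjoint X (S ∪ D ∪ Oo)) (hOo : Disjoint Oo (S ∪ D))
    {Z : Edg → ZMod 2} {x y f g : Vtx} {l : ℤ}
    (hZ : ∀ v, vb Z v = b2 (x = v) + b2 (y = v)) (hx : corner x f) (hy : corner y g)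
    (hout : ∀ e, e ∉ S ∪ D ∪ Oo → ∀ e', e' ∉ S ∪ D ∪ Oo →
      DReach {e : Edg | e ∉ S ∪ D ∪ Oo} (dtgt e) (dtgt e'))
    (hg : ∃ e, e ∉ S ∪ D ∪ Oo ∧ (dsrc e = g ∨ dtgt e = g))
    {Ws : Set Vtx} (hWs : ∀ w ∈ Ws, ∃ e, e ∉ S ∪ D ∪ Oo ∧ (dsrc e = w ∨ dtgt e = w)) :
    Pr p (S ∪ D ∪ X) (fun F =>
        PotHyp (↑(S ∪ D ∪ Oo) : Set Edg) ↑D (↑F ∪ ↑Oo) Z l ∧
          ∃ w ∈ Ws, DReach (↑(S ∪ X) \ ↑F : Set Edg) f w) *
      Pr p (S ∪ D ∪ X) (fun F => ∀ a ∈ VD (↑D : Set Edg), ∀ b,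
        DReach (↑((S ∪ D ∪ X) \ F) : Set Edg) a b → b ∈ ball a l) ≤
    Pr p (S ∪ D ∪ X) (fun F => Reach (((↑(S ∪ D) : Set Edg) ∩ ↑F) ∪ ↑Oo) x y ∧
      ∃ w ∈ Ws, DReach (↑(S ∪ X) \ ↑F : Set Edg) f w) := by
  classical
  refine (markov_inc hp (PST_stop (X := X) hSD hOo) ?_ ?_).trans (Pr_mono hp ?_)
  · -- the event is explored
    rintro F F' _ _ h ⟨hP, w, hw, hr⟩
    refine ⟨PST_pot hSD hOo h hP, w, hw, ?_⟩
    have hwY : w ∈ PST_Y S D Oo F := PST_Y_out' (hWs w hw)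
    have h1 := (PST_path hSD hX hOo hwY hr.symm).2
    refine (h1.mono ?_).symm
    rintro e ⟨he1, he2, he3⟩
    exact ⟨he2, fun h' => he3 ((PST_agree h (Finset.mem_coe.mp he1)).mpr h')⟩
  · -- monotonicity
    intro F G hFG h a ha b hr
    refine h a ha b (hr.mono ?_)
    exact Finset.coe_subset.mpr (Finset.sdiff_subset_sdiff le_rfl hFG)
  · rintro F hF ⟨⟨hP, w, hw, hr⟩, hB⟩
    refine ⟨?_, w, hw, hr⟩
    have hwY : w ∈ PST_Y S D Oo F := PST_Y_out' (hWs w hw)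
    have hfY : f ∈ PST_Y S D Oo F := (PST_path hSD hX hOo hwY hr.symm).1
    have hgY : g ∈ PST_Y S D Oo F := PST_Y_out' hg
    have hGset : (((↑(S ∪ D) : Set Edg) ∩ ↑F) ∪ ↑Oo) = (↑(((S ∪ D) ∩ F) ∪ Oo) : Set Edg) := by
      push_cast; rfl
    rw [hGset]
    have hsub : H0s (↑(S ∪ D ∪ Oo) : Set Edg) ↑D (↑F ∪ ↑Oo) ⊆
        {e : Edg | e ∉ ((S ∪ D) ∩ F) ∪ Oo} := by
      intro e he h1
      apply he
      rw [Finset.mem_union, Finset.mem_inter] at h1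
      rcases h1 with ⟨h1, h2⟩ | h1
      · exact ⟨Finset.mem_coe.mpr (Finset.mem_union_left _ h1), Or.inr (Or.inl h2)⟩
      · exact ⟨Finset.mem_coe.mpr (Finset.mem_union_right _ h1), Or.inr (Or.inr h1)⟩
    refine conv_star hZ hx hy ?_ ?_
    · obtain ⟨e, he, hr1⟩ := hfY
      obtain ⟨e', he', hr2⟩ := hgY
      have h3 : DReach {e : Edg | e ∉ ((S ∪ D) ∩ F) ∪ Oo} (dtgt e) (dtgt e') := by
        refine (hout e (fun h => he (Finset.mem_coe.mpr h)) e'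
          (fun h => he' (Finset.mem_coe.mpr h))).mono ?_
        intro e1 he1 h4
        apply he1
        rw [Finset.mem_union, Finset.mem_inter] at h4
        rw [Finset.mem_union]
        exact h4.imp (fun h => h.1) id
      have h5 : DReach (H0s (↑(S ∪ D ∪ Oo) : Set Edg) ↑D (↑F ∪ ↑Oo)) (dtgt e) f := hr1
      have h6 : DReach (H0s (↑(S ∪ D ∪ Oo) : Set Edg) ↑D (↑F ∪ ↑Oo)) (dtgt e') g := hr2
      exact ((h5.mono hsub).symm.trans h3).trans (h6.mono hsub)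
    · intro k hk
      refine yonly hP ?_ hfY (hk.mono ?_)
      · intro a ha b hr1
        refine hB a ha b (hr1.mono ?_)
        rintro e ⟨he1, he2, he3⟩
        have he1' : e ∈ S ∪ D ∪ Oo := Finset.mem_coe.mp he1
        have hnF : e ∉ F := fun h => he2 (Or.inl h)
        have hnO : e ∉ Oo := fun h => he2 (Or.inr h)
        have hSD' : e ∈ S ∪ D := by
          rw [Finset.mem_union] at he1'
          exact he1'.resolve_right hnO
        rw [Finset.mem_coe, Finset.mem_sdiff]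
        refine ⟨Finset.mem_union_left _ hSD', ?_⟩
        intro h
        rw [Finset.mem_union] at h
        rcases h with h | h
        · exact hnF h
        · rw [PST_mem_K] at h
          rcases h with ⟨h4, h5⟩ | h
          · rcases he3 with h6 | ⟨h6, h7⟩
            · exact Finset.disjoint_left.mp hSD h4 h6
            · exact h5.elim h6 h7
          · exact Finset.disjoint_left.mp hX h he1'
      · intro e he h1
        apply he
        obtain ⟨h2, h3⟩ := h1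
        have h2' : e ∈ S ∪ D ∪ Oo := Finset.mem_coe.mp h2
        rw [Finset.mem_union] at h2'
        rw [Finset.mem_union, Finset.mem_inter]
        rcases h3 with h3 | h3
        · exact h2'.imp (fun h => ⟨h, h3⟩) id
        · exact Or.inr h3

end H985T
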