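import Pool.Agent.H985R3.TA.Defs2
import Pool.Agent.H985R3.TA.NR1
import Pool.Agent.H985R3.TA.OUT
import Pool.Agent.H985R3.TA.PAS
import Pool.Agent.H985R3.TA.PST
import Pool.Agent.H12R2.Sep.TrapP

/-!
SI (helper666): the first separation step.
-/

set_option autoImplicit false

namespace H985T

open H974 Finset

theorem si_h (x y : ℤ) : Reach (Set.univ : Set Edg) (x, y) (x + 1, y) :=
  Relation.ReflTransGen.single ⟨(x, y, true), trivial, Or.inl ⟨rfl, rfl⟩⟩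

theorem si_v (x y : ℤ) : Reach (Set.univ : Set Edg) (x, y) (x, y + 1) :=
  Relation.ReflTransGen.single ⟨(x, y, false), trivial, Or.inl ⟨rfl, rfl⟩⟩

theorem si_col (x y : ℤ) : Reach (Set.univ : Set Edg) (x, 0) (x, y) := by
  induction y using Int.induction_on with
  | zero => exact Relation.ReflTransGen.refl
  | succ i ih => exact ih.trans (si_v x i)
  | pred i ih =>
    have h := si_v x (-(i:ℤ) - 1)
    rw [sub_add_cancel] at h
    exact ih.trans h.symm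

theorem si_row (x : ℤ) : Reach (Set.univ : Set Edg) (0, 0) (x, 0) := by
  induction x using Int.induction_on with
  | zero => exact Relation.ReflTransGen.refl
  | succ i ih => exact ih.trans (si_h i 0)
  | pred i ih =>
    have h := si_h (-(i:ℤ) - 1) 0
    rw [sub_add_cancel] at h
    exact ih.trans h.symm

/-- faces next to the tube are near its centre -/
theorem si_VD {m ρ N : ℕ} {c : ℤ} (hρ : 1 ≤ ρ) (hN : 6 * ρ ≤ N) {a : Vtx}
    (ha : a ∈ VD (↑(tubeD m ρ c) : Set Edg)) :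
    inR (((m:ℤ) + 5 * ρ) - N) (((m:ℤ) + 5 * ρ) + N) (c - N) (c + N) a := by
  obtain ⟨e, he, hea⟩ := ha
  have he' : e ∈ RE (m:ℤ) ((m:ℤ) + (10 * ρ : ℕ)) (c - ρ) (c + ρ) := by
    have h1 : e ∈ tubeD m ρ c := by exact_mod_cast he
    unfold tubeD at h1
    have h2 := (Finset.mem_sdiff.mp h1).1
    unfold tube at h2
    rw [if_pos rfl] at h2
    exact h2
  unfold inR
  obtain ⟨x, y, _ | _⟩ := e
  · rw [mem_RE_false] at he'
    rcases hea with h | h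
    · rw [← h]; simp only [dsrc_false]; push_cast at he'; omega
    · rw [← h]; simp only [dtgt_mk]; push_cast at he'; omega
  · rw [mem_RE_true] at he'
    rcases hea with h | h
    · rw [← h]; simp only [dsrc_true]; push_cast at he'; omega
    · rw [← h]; simp only [dtgt_mk]; push_cast at he'; omega

theorem step1 {κ : ℝ} {n : ℕ} (hW : H12S.Win (1 / 2) κ n) {m ρ r l k : ℕ} {c : ℤ} (hl : 1 ≤ l)
    (hr : 32 * l ≤ r) (hρ : 16 * r ≤ ρ) (hk : ρ ≤ k * l) (hc : |c| + 4 * ρ ≤ m) (hn : 2 * l ≤ n)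
    {f : Vtx} (hf : corner (0, 0) f) {X : Finset Edg} (hX : Disjoint X (RO m ρ c))
    {Ws : Set Vtx} (hWs : ∀ w ∈ Ws, ∃ e, e ∉ RO m ρ c ∧ (dsrc e = w ∨ dtgt e = w)) :
    H12S.PQ (1 / 2) (boxE m ∪ tubeD m ρ c ∪ X) (fun F => (Lv m ρ c ↑F ∧ Gd m ρ r (4 * l) c ↑F) ∧
        ∃ w ∈ Ws, DReach (↑(boxE m ∪ X) \ ↑F : Set Edg) f w) * κ ^ (4 * (2 * (6 * k) + 1) ^ 2) ≤
    H12S.PQ (1 / 2) (boxE m ∪ tubeD m ρ c ∪ X) (fun F => Tv m ρ c ↑F ∧
        ∃ w ∈ Ws, DReach (↑(boxE m ∪ X) \ ↑F : Set Edg) f w) := by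
  have hp : Ok (fun _ : Edg => (1 / 2 : ℝ)) := okq (by norm_num) (by norm_num)
  have hρ1 : 1 ≤ ρ := by omega
  have hcabs := abs_nonneg c
  have hm : 4 * (ρ:ℤ) ≤ m := by omega
  -- the chain
  obtain ⟨Z, _, hZ⟩ := chain_of_reach ((si_row ((m:ℤ) + 14 * ρ)).trans (si_col ((m:ℤ) + 14 * ρ) c))
  -- disjointness
  have hSD : Disjoint (boxE m) (tubeD m ρ c) := by
    unfold tubeD; exact Finset.disjoint_sdiff
  have hOo : Disjoint (endE m ρ c) (boxE m ∪ tubeD m ρ c) := by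
    rw [Finset.disjoint_left]
    intro e h1 h2
    unfold endE at h1
    rw [Finset.mem_sdiff] at h1
    rw [Finset.mem_union] at h2
    rcases h2 with h2 | h2
    · obtain ⟨h3, -⟩ := h1
      unfold boxE at h2
      obtain ⟨x, y, _ | _⟩ := e
      · rw [mem_RE_false] at h3 h2; omega
      · rw [mem_RE_true] at h3 h2; omega
    · unfold tubeD at h2
      exact h1.2 (Finset.mem_sdiff.mp h2).1
  have hg : ∃ e, e ∉ boxE m ∪ tubeD m ρ c ∪ endE m ρ c ∧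
      (dsrc e = (((m:ℤ) + 14 * ρ, c) : Vtx) ∨ dtgt e = (((m:ℤ) + 14 * ρ, c) : Vtx)) := by
    refine ⟨((m:ℤ) + 14 * ρ, c, true), ?_, Or.inr rfl⟩
    intro h
    have h' : (((m:ℤ) + 14 * ρ, c, true) : Edg) ∈ RO m ρ c := h
    rw [mem_RO] at h'
    unfold boxE at h'
    rw [mem_RE_true, mem_RE_true] at h'
    omega
  have hgy : corner (((m:ℤ) + 14 * ρ, c) : Vtx) (((m:ℤ) + 14 * ρ, c) : Vtx) :=
    ⟨Or.inl rfl, Or.inl rfl⟩
  have hmain := step_prob hp hSD hX hOo (Z := Z) (x := ((0, 0) : Vtx))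
    (y := (((m:ℤ) + 14 * ρ, c) : Vtx)) (f := f) (g := (((m:ℤ) + 14 * ρ, c) : Vtx))
    (l := ((4 * l : ℕ) : ℤ)) hZ hf hgy (fun e he e' he' => out_face hρ1 hc e e' he he') hg hWs
  -- first factor
  have h1 : H12S.PQ (1 / 2) (boxE m ∪ tubeD m ρ c ∪ X) (fun F => (Lv m ρ c ↑F ∧
        Gd m ρ r (4 * l) c ↑F) ∧ ∃ w ∈ Ws, DReach (↑(boxE m ∪ X) \ ↑F : Set Edg) f w) ≤
      Pr (fun _ => (1 / 2 : ℝ)) (boxE m ∪ tubeD m ρ c ∪ X) (fun F =>
        PotHyp (↑(boxE m ∪ tubeD m ρ c ∪ endE m ρ c) : Set Edg) ↑(tubeD m ρ c)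
          (↑F ∪ ↑(endE m ρ c)) Z ((4 * l : ℕ) : ℤ) ∧
          ∃ w ∈ Ws, DReach (↑(boxE m ∪ X) \ ↑F : Set Edg) f w) := by
    apply Pr_mono hp
    rintro F _ ⟨⟨hv, hG⟩, hw⟩
    exact ⟨near_right (l := 4 * l) (by omega) (by omega) hρ hc hv hG hZ, hw⟩
  -- second factor
  have h2 : κ ^ (4 * (2 * (6 * k) + 1) ^ 2) ≤
      Pr (fun _ => (1 / 2 : ℝ)) (boxE m ∪ tubeD m ρ c ∪ X) (fun F =>
        ∀ a ∈ VD (↑(tubeD m ρ c) : Set Edg), ∀ b,
          DReach (↑((boxE m ∪ tubeD m ρ c ∪ X) \ F) : Set Edg) a b → b ∈ ball a ((4 * l : ℕ) : ℤ)) := by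
    refine (H12S.trap_prob hW (N := 6 * k) hl hn ((m:ℤ) + 5 * ρ) c
      (boxE m ∪ tubeD m ρ c ∪ X)).2.trans (Pr_mono hp ?_)
    intro F _ hF a ha b hab
    have hN : 6 * ρ ≤ 6 * k * l := by
      calc 6 * ρ ≤ 6 * (k * l) := Nat.mul_le_mul_left _ hk
        _ = 6 * k * l := by ring
    have hin := si_VD (N := 6 * k * l) hρ1 hN ha
    push_cast at hin
    have := hF a b (by push_cast; exact hin) hab
    unfold ball
    refine ⟨?_, ?_⟩
    · rw [abs_sub_comm]; push_cast; exact this.1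
    · rw [abs_sub_comm]; push_cast; exact this.2
  -- conclusion
  have hnn := Pr_nonneg hp (boxE m ∪ tubeD m ρ c ∪ X) (fun F => (Lv m ρ c ↑F ∧
        Gd m ρ r (4 * l) c ↑F) ∧ ∃ w ∈ Ws, DReach (↑(boxE m ∪ X) \ ↑F : Set Edg) f w)
  have hκ : 0 ≤ κ ^ (4 * (2 * (6 * k) + 1) ^ 2) := pow_nonneg hW.kpos.le _
  refine (mul_le_mul h1 h2 hκ (hnn.trans h1)).trans (hmain.trans (Pr_mono hp ?_))
  rintro F _ ⟨hR, hw⟩
  exact ⟨pass_v hρ1 hR, hw⟩

end H985T
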