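import Pool.Agent.H985R3.TA.Defs3
import Pool.Agent.H985R3.TA.SI
import Pool.Agent.H985R3.TA.SYM
import Pool.Agent.H985R3.TA.OUT

/-! The first extension step for the landing on a general side (task M1). -/

set_option autoImplicit false

namespace H985T

open H974 Finset

/-- landing faces on side `s` near `c'` -/
def M1_Ws (m ρ : ℕ) (s : Fin 4) (c' : ℤ) : Set Vtx :=
  {w | ∃ w2 : ℤ, 2 * |w2 - c'| ≤ ρ ∧ w = (sy s).ψf ((m:ℤ), w2)}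

theorem M1_image (s : Fin 4) (m : ℕ) (F : Set Edg) :
    (↑(boxE m) : Set Edg) \ (sy s).φ '' F = (sy s).φ '' ((↑(boxE m) : Set Edg) \ F) := by
  ext e
  constructor
  · rintro ⟨h1, h2⟩
    refine ⟨(sy s).φ e, ⟨?_, ?_⟩, sy_invol s e⟩
    · exact Finset.mem_coe.mpr ((sy_mem_box s m e).mpr (Finset.mem_coe.mp h1))
    · intro h3
      exact h2 ⟨(sy s).φ e, h3, sy_invol s e⟩
  · rintro ⟨e', ⟨h1, h2⟩, rfl⟩
    refine ⟨Finset.mem_coe.mpr ((sy_mem_box s m e').mpr (Finset.mem_coe.mp h1)), ?_⟩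
    rintro ⟨e'', h3, h4⟩
    exact h2 ((sy s).φ.injective h4 ▸ h3)

theorem M1_dreach_iff (s : Fin 4) {H : Set Edg} {a b : Vtx} :
    DReach ((sy s).φ '' H) ((sy s).ψf a) b ↔ DReach H a ((sy s).ψf b) := by
  constructor
  · intro h
    have h1 := (sy s).dreach h
    rw [sy_invol_f, Set.image_image] at h1
    have h2 : (fun x => (sy s).φ ((sy s).φ x)) '' H = H := by
      have : (fun x => (sy s).φ ((sy s).φ x)) = id := funext (fun x => sy_invol s x)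
      rw [this, Set.image_id]
    rwa [h2] at h1
  · intro h
    have h1 := (sy s).dreach h
    rwa [sy_invol_f] at h1

theorem M1_LfS_iff {m ρ : ℕ} {s : Fin 4} {c' : ℤ} {f : Vtx} {F : Set Edg} :
    LfS m ρ s c' f F ↔ ∃ w ∈ M1_Ws m ρ s c', DReach (↑(boxE m) \ F : Set Edg) f w := by
  unfold LfS Lf
  constructor
  · rintro ⟨w2, h1, h2⟩
    rw [M1_image, M1_dreach_iff] at h2
    exact ⟨_, ⟨w2, h1, rfl⟩, h2⟩
  · rintro ⟨w, ⟨w2, h1, rfl⟩, h2⟩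
    refine ⟨w2, h1, ?_⟩
    rw [M1_image, M1_dreach_iff]
    exact h2

/-- the landing faces have an edge outside the region of the first extension -/
theorem M1_out {m ρ : ℕ} {c c' : ℤ} {s : Fin 4} (hρ : 1 ≤ ρ) (hc : |c| + 20 * ρ ≤ m)
    (hs : s = 0 → 6 * (ρ:ℤ) ≤ |c - c'|) :
    ∀ w ∈ M1_Ws m ρ s c', ∃ e, e ∉ RO m ρ c ∧ (dsrc e = w ∨ dtgt e = w) := by
  rintro w ⟨w2, h1, rfl⟩
  have hρ' : (1:ℤ) ≤ ρ := by exact_mod_cast hρ
  have hc1 := abs_le.mp (le_sub_iff_add_le.mpr hc)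
  have h1' : |w2 - c'| ≤ (ρ:ℤ) := by omega
  have hs4 : s = 0 ∨ s = 1 ∨ s = 2 ∨ s = 3 := by
    fin_cases s <;> simp
  rcases hs4 with h | h | h | h
  · have h2 := hs h
    subst h
    refine ⟨((m:ℤ), w2, true), ?_, Or.inr ?_⟩
    · rw [mem_RO, boxE, mem_RE_true, mem_RE_true]
      rintro (h3 | h3)
      · omega
      · have h4 : |c - w2| ≤ (ρ:ℤ) := abs_le.mpr ⟨by omega, by omega⟩
        have h5 : |c - c'| ≤ |c - w2| + |w2 - c'| := by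
          have := abs_add_le (c - w2) (w2 - c')
          rwa [sub_add_sub_cancel] at this
        have h6 : 2 * |w2 - c'| ≤ (ρ:ℤ) := h1
        omega
    · rfl
  · subst h
    refine ⟨(w2, (m:ℤ), false), ?_, Or.inr ?_⟩
    · rw [mem_RO, boxE, mem_RE_false, mem_RE_false]
      omega
    · rfl
  · subst h
    refine ⟨(-(m:ℤ) - 1, -w2 - 1, true), ?_, Or.inr ?_⟩
    · rw [mem_RO, boxE, mem_RE_true, mem_RE_true]
      omega
    · rfl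
  · subst h
    refine ⟨(-w2 - 1, -(m:ℤ) - 1, false), ?_, Or.inr ?_⟩
    · rw [mem_RO, boxE, mem_RE_false, mem_RE_false]
      omega
    · rfl

theorem M1_hb_sub {m ρ r : ℕ} {c y0 : ℤ} (hr : r ≤ ρ) (hc : |c| + 20 * ρ ≤ m)
    (hy : |y0 - c| ≤ ρ) : hbR m y0 r ⊆ boxE m := by
  have hr' : (r:ℤ) ≤ ρ := by exact_mod_cast hr
  have hr0 : (0:ℤ) ≤ r := Int.natCast_nonneg r
  have hc1 := abs_le.mp (le_sub_iff_add_le.mpr hc)
  have hy1 := abs_le.mp hy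
  rintro ⟨x, y, b⟩ h
  cases b
  · rw [hbR, mem_RE_false] at h
    rw [boxE, mem_RE_false]
    omega
  · rw [hbR, mem_RE_true] at h
    rw [boxE, mem_RE_true]
    omega

theorem M1_H3d_local {m r R : ℕ} {y0 : ℤ} (h : hbR m y0 R ⊆ boxE m) (F : Finset Edg) :
    H3d m y0 r R ↑F ↔ H3d m y0 r R ↑(F ∩ boxE m) := by
  have h1 : (↑(hbR m y0 R) : Set Edg) \ ↑(F ∩ boxE m) = ↑(hbR m y0 R) \ ↑F := by
    ext e
    simp only [Set.mem_sdiff, Finset.mem_coe, Finset.mem_inter, not_and]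
    constructor
    · rintro ⟨h2, h3⟩; exact ⟨h2, fun h4 => h3 h4 (h h2)⟩
    · rintro ⟨h2, h3⟩; exact ⟨h2, fun h4 => absurd h4 h3⟩
  unfold H3d
  rw [h1]

theorem M1_sdiff (m : ℕ) (F : Finset Edg) :
    (↑(boxE m) : Set Edg) \ ↑(F ∩ boxE m) = ↑(boxE m) \ ↑F := by
  ext e
  simp only [Set.mem_sdiff, Finset.mem_coe, Finset.mem_inter, not_and]
  constructor
  · rintro ⟨h2, h3⟩; exact ⟨h2, fun h4 => h3 h4 h2⟩
  · rintro ⟨h2, h3⟩; exact ⟨h2, fun h4 => absurd h4 h3⟩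

theorem M1_Gd_local {m ρ r l : ℕ} {c : ℤ} (hr : r ≤ ρ) (hc : |c| + 20 * ρ ≤ m)
    (F : Finset Edg) : Gd m ρ r l c ↑F ↔ Gd m ρ r l c ↑(F ∩ boxE m) := by
  unfold Gd
  rw [M1_sdiff]
  refine and_congr ?_ Iff.rfl
  refine forall_congr' fun k => ?_
  refine forall_congr' fun hk => ?_
  rw [M1_H3d_local (M1_hb_sub hr hc hk) F]

theorem M1_Lv_local {m ρ : ℕ} {c : ℤ} (F : Finset Edg) :
    Lv m ρ c ↑F ↔ Lv m ρ c ↑(F ∩ boxE m) := by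
  unfold Lv
  have h1 : (↑(F ∩ boxE m) : Set Edg) ∩ ↑(boxE m) = ↑F ∩ ↑(boxE m) := by
    rw [Finset.coe_inter, Set.inter_assoc, Set.inter_self]
  rw [h1]

theorem mid1 {κ : ℝ} {n : ℕ} (hW : H12S.Win (1 / 2) κ n) {m ρ r l k : ℕ} {c c' f0 : ℤ}
    {s : Fin 4} (hl : 1 ≤ l) (hr : 32 * l ≤ r) (hρ : 16 * r ≤ ρ) (hk : ρ ≤ k * l)
    (hc : |c| + 20 * ρ ≤ m) (hc' : |c'| + 20 * ρ ≤ m) (hs : s = 0 → 6 * (ρ:ℤ) ≤ |c - c'|)
    (hn : 2 * l ≤ n) (hf : f0 = 0 ∨ f0 = -1) :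
    H12S.PQ (1 / 2) (boxE m) (fun F => (Lv m ρ c ↑F ∧ Gd m ρ r (4 * l) c ↑F) ∧
        LfS m ρ s c' (f0, f0) ↑F) * κ ^ (4 * (2 * (6 * k) + 1) ^ 2) ≤
    H12S.PQ (1 / 2) (boxE m ∪ tubeD m ρ c) (fun F => Tv m ρ c ↑F ∧
        LfS m ρ s c' (f0, f0) ↑F) := by
  have hρ1 : 1 ≤ ρ := by omega
  have hrρ : r ≤ ρ := by omega
  have hcorner : corner (0, 0) (f0, f0) := by
    unfold corner
    simp only [zero_sub]
    exact ⟨hf, hf⟩
  have hcc : |c| + 4 * ρ ≤ m := by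
    have : (0:ℤ) ≤ ρ := Int.natCast_nonneg ρ
    omega
  have h1 := step1 hW hl hr hρ hk hcc hn hcorner (X := ∅) (Finset.disjoint_empty_left _)
    (Ws := M1_Ws m ρ s c') (M1_out hρ1 hc hs)
  simp only [Finset.union_empty] at h1
  have h2 : H12S.PQ (1 / 2) (boxE m ∪ tubeD m ρ c) (fun F =>
      (Lv m ρ c ↑F ∧ Gd m ρ r (4 * l) c ↑F) ∧
        ∃ w ∈ M1_Ws m ρ s c', DReach (↑(boxE m) \ ↑F : Set Edg) (f0, f0) w) =
      H12S.PQ (1 / 2) (boxE m) (fun F => (Lv m ρ c ↑F ∧ Gd m ρ r (4 * l) c ↑F) ∧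
        LfS m ρ s c' (f0, f0) ↑F) := by
    have h3 : H12S.PQ (1 / 2) (boxE m) (fun F => (Lv m ρ c ↑F ∧ Gd m ρ r (4 * l) c ↑F) ∧
        LfS m ρ s c' (f0, f0) ↑F) = H12S.PQ (1 / 2) (boxE m) (fun F =>
      (Lv m ρ c ↑F ∧ Gd m ρ r (4 * l) c ↑F) ∧
        ∃ w ∈ M1_Ws m ρ s c', DReach (↑(boxE m) \ ↑F : Set Edg) (f0, f0) w) := by
      refine Pr_congr fun F _ => ?_
      rw [M1_LfS_iff]
    rw [h3]
    refine Pr_local Finset.subset_union_left fun F _ => ?_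
    rw [← M1_Lv_local, ← M1_Gd_local hrρ hc, M1_sdiff]
  have h4 : H12S.PQ (1 / 2) (boxE m ∪ tubeD m ρ c) (fun F => Tv m ρ c ↑F ∧
        ∃ w ∈ M1_Ws m ρ s c', DReach (↑(boxE m) \ ↑F : Set Edg) (f0, f0) w) =
      H12S.PQ (1 / 2) (boxE m ∪ tubeD m ρ c) (fun F => Tv m ρ c ↑F ∧
        LfS m ρ s c' (f0, f0) ↑F) := by
    refine Pr_congr fun F _ => ?_
    rw [M1_LfS_iff]
  rw [← h2, ← h4]
  exact h1

end H985T
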