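import Pool.Agent.H985R3.TA.Defs4
import Pool.Agent.H985R3.TA.SYM

/-! M1I (helper325): the first inward extension step for the landing on a general side, from the
statement of `step1i` (taken as hypothesis). -/

set_option autoImplicit false

namespace H985T

open H974 Finset

/-- starting faces on side `s` near `c'` -/
def m1i_Ws (a ρ : ℕ) (s : Fin 4) (c' : ℤ) : Set Vtx :=
  {w | ∃ w2 : ℤ, 2 * |w2 - c'| ≤ ρ ∧ w = (sy s).ψf ((a:ℤ), w2)}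

theorem m1i_mem_An (s : Fin 4) (a N : ℕ) (e : Edg) : (sy s).φ e ∈ An a N ↔ e ∈ An a N := by
  unfold An
  rw [Finset.mem_sdiff, Finset.mem_sdiff, sy_mem_box, sy_mem_box]

theorem m1i_image (s : Fin 4) (a N : ℕ) (F : Set Edg) :
    (↑(An a N) : Set Edg) \ (sy s).φ '' F = (sy s).φ '' ((↑(An a N) : Set Edg) \ F) := by
  ext e
  constructor
  · rintro ⟨h1, h2⟩
    refine ⟨(sy s).φ e, ⟨?_, ?_⟩, sy_invol s e⟩
    · exact Finset.mem_coe.mpr ((m1i_mem_An s a N e).mpr (Finset.mem_coe.mp h1))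
    · intro h3
      exact h2 ⟨(sy s).φ e, h3, sy_invol s e⟩
  · rintro ⟨e', ⟨h1, h2⟩, rfl⟩
    refine ⟨Finset.mem_coe.mpr ((m1i_mem_An s a N e').mpr (Finset.mem_coe.mp h1)), ?_⟩
    rintro ⟨e'', h3, h4⟩
    exact h2 ((sy s).φ.injective h4 ▸ h3)

theorem m1i_dreach_iff (s : Fin 4) {H : Set Edg} {a b : Vtx} :
    DReach ((sy s).φ '' H) a b ↔ DReach H ((sy s).ψf a) ((sy s).ψf b) := by
  constructor
  · intro h
    have h1 := (sy s).dreach h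
    rw [Set.image_image] at h1
    have h2 : (fun x => (sy s).φ ((sy s).φ x)) '' H = H := by
      have : (fun x => (sy s).φ ((sy s).φ x)) = id := funext (fun x => sy_invol s x)
      rw [this, Set.image_id]
    rwa [h2] at h1
  · intro h
    have h1 := (sy s).dreach h
    rwa [sy_invol_f, sy_invol_f] at h1

theorem m1i_nb (s : Fin 4) (N : ℕ) (w : Vtx) : nb N ((sy s).ψf w) ↔ nb N w := by
  obtain ⟨x, y⟩ := w
  unfold nb
  rcases SYM_cases s with rfl | rfl | rfl | rfl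
  · rfl
  · rw [SYM_1f]; simp only; omega
  · rw [SYM_2f]; simp only; omega
  · rw [SYM_3f]; simp only; omega

theorem m1i_LfiS_iff {a N ρ : ℕ} {s : Fin 4} {c' : ℤ} {F : Set Edg} :
    LfiS a N ρ s c' F ↔ ∃ w ∈ m1i_Ws a ρ s c', ∃ w', nb N w' ∧
      DReach (↑(An a N) \ F : Set Edg) w w' := by
  unfold LfiS Lfi
  constructor
  · rintro ⟨w2, h1, w', h2, h3⟩
    rw [m1i_image, m1i_dreach_iff] at h3
    exact ⟨_, ⟨w2, h1, rfl⟩, _, (m1i_nb s N w').mpr h2, h3⟩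
  · rintro ⟨w, ⟨w2, h1, rfl⟩, w', h2, h3⟩
    refine ⟨w2, h1, (sy s).ψf w', (m1i_nb s N w').mpr h2, ?_⟩
    rw [m1i_image, m1i_dreach_iff, sy_invol_f]
    exact h3

/-- the starting faces have an edge of the inner box outside the region of the extension -/
theorem m1i_out {a N ρ : ℕ} {c c' : ℤ} {s : Fin 4} (hρ : 1 ≤ ρ) (hc : |c| + 20 * ρ ≤ a)
    (hc' : |c'| + 20 * ρ ≤ a) (hs : s = 0 → 6 * (ρ:ℤ) ≤ |c - c'|) (hN : a ≤ N) :
    ∀ w ∈ m1i_Ws a ρ s c', ∃ e ∈ boxE a, e ∉ RI a N ρ c ∧ (dsrc e = w ∨ dtgt e = w) := by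
  rintro w ⟨w2, h1, rfl⟩
  have hc1 := abs_le.mp (le_sub_iff_add_le.mpr hc)
  have hc2 := abs_le.mp (le_sub_iff_add_le.mpr hc')
  have hw := abs_le.mp (show |w2 - c'| ≤ (ρ:ℤ) by omega)
  have hRI : ∀ e : Edg, e ∈ boxE a → e ∉ RE ((a:ℤ) - 14 * ρ) a (c - ρ) (c + ρ) →
      e ∉ RI a N ρ c := by
    intro e he1 he2 he3
    unfold RI An endI Rg tubeI at he3
    simp only [Finset.mem_union, Finset.mem_sdiff] at he3
    obtain ⟨x, y, _ | _⟩ := e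
    · rw [boxE, mem_RE_false] at he1
      rw [mem_RE_false] at he2
      rcases he3 with (⟨_, h⟩ | h) | (⟨h, _⟩ | ⟨_, h⟩)
      · apply h; rw [boxE, mem_RE_false]; exact he1
      · rw [mem_RE_false] at h; omega
      · rw [mem_RE_false] at h; omega
      · apply h; rw [boxE, mem_RE_false]; omega
    · rw [boxE, mem_RE_true] at he1
      rw [mem_RE_true] at he2
      rcases he3 with (⟨_, h⟩ | h) | (⟨h, _⟩ | ⟨_, h⟩)
      · apply h; rw [boxE, mem_RE_true]; exact he1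
      · rw [mem_RE_true] at h; omega
      · rw [mem_RE_true] at h; omega
      · apply h; rw [boxE, mem_RE_true]; omega
  rcases SYM_cases s with h | h | h | h
  · have h2 := hs h
    subst h
    rw [SYM_0f]
    refine ⟨((a:ℤ), w2, false), ?_, hRI _ ?_ ?_, Or.inr rfl⟩
    · rw [boxE, mem_RE_false]; omega
    · rw [boxE, mem_RE_false]; omega
    · rw [mem_RE_false]
      intro h3
      rcases abs_cases (c - c') with h4 | h4 <;> rcases abs_cases (w2 - c') with h5 | h5 <;> omega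
  · subst h
    rw [SYM_1f]
    refine ⟨(w2, (a:ℤ), true), ?_, hRI _ ?_ ?_, Or.inr rfl⟩
    · rw [boxE, mem_RE_true]; omega
    · rw [boxE, mem_RE_true]; omega
    · rw [mem_RE_true]; omega
  · subst h
    rw [SYM_2f]
    refine ⟨(-(a:ℤ), -w2 - 1, false), ?_, hRI _ ?_ ?_, Or.inl ?_⟩
    · rw [boxE, mem_RE_false]; omega
    · rw [boxE, mem_RE_false]; omega
    · rw [mem_RE_false]; omega
    · rw [dsrc_false]
  · subst h
    rw [SYM_3f]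
    refine ⟨(-w2 - 1, -(a:ℤ), true), ?_, hRI _ ?_ ?_, Or.inl ?_⟩
    · rw [boxE, mem_RE_true]; omega
    · rw [boxE, mem_RE_true]; omega
    · rw [mem_RE_true]; omega
    · rw [dsrc_true]

theorem m1i_hb_sub {a N ρ r : ℕ} {c y0 : ℤ} (hr : r ≤ ρ) (hc : |c| + 20 * ρ ≤ a)
    (hN : 2 * a ≤ N) (hy : |y0 - c| ≤ ρ) : hbI a y0 r ⊆ An a N := by
  have hr' : (r:ℤ) ≤ ρ := by exact_mod_cast hr
  have hc1 := abs_le.mp (le_sub_iff_add_le.mpr hc)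
  have hy1 := abs_le.mp hy
  intro e he
  unfold hbI at he
  unfold An
  rw [Finset.mem_sdiff] at he ⊢
  refine ⟨?_, he.2⟩
  obtain ⟨x, y, _ | _⟩ := e
  · have h := he.1
    rw [mem_RE_false] at h
    rw [boxE, mem_RE_false]
    omega
  · have h := he.1
    rw [mem_RE_true] at h
    rw [boxE, mem_RE_true]
    omega

theorem m1i_sdiff {T S : Finset Edg} (h : T ⊆ S) (F : Finset Edg) :
    (↑T : Set Edg) \ ↑(F ∩ S) = ↑T \ ↑F := by
  ext e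
  simp only [Set.mem_sdiff, Finset.mem_coe, Finset.mem_inter, not_and]
  constructor
  · rintro ⟨h2, h3⟩; exact ⟨h2, fun h4 => h3 h4 (h h2)⟩
  · rintro ⟨h2, h3⟩; exact ⟨h2, fun h4 => absurd h4 h3⟩

theorem m1i_Gdi_local {a N ρ r l : ℕ} {c : ℤ} (hr : r ≤ ρ) (hc : |c| + 20 * ρ ≤ a)
    (hN : 2 * a ≤ N) (F : Finset Edg) :
    Gdi a N ρ r l c ↑F ↔ Gdi a N ρ r l c ↑(F ∩ An a N) := by
  unfold Gdi
  rw [m1i_sdiff (Finset.Subset.refl _)]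
  refine and_congr ?_ Iff.rfl
  refine forall_congr' fun k => ?_
  refine forall_congr' fun hk => ?_
  unfold H3di
  rw [m1i_sdiff (m1i_hb_sub hr hc hN hk)]

theorem m1i_Lvi_local {a N ρ : ℕ} {c : ℤ} (F : Finset Edg) :
    Lvi a N ρ c ↑F ↔ Lvi a N ρ c ↑(F ∩ An a N) := by
  unfold Lvi
  have h1 : (↑(F ∩ An a N) : Set Edg) ∩ ↑(An a N) = ↑F ∩ ↑(An a N) := by
    rw [Finset.coe_inter, Set.inter_assoc, Set.inter_self]
  rw [h1]

theorem mid1i_of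
    (step1i : ∀ {κ : ℝ} {n : ℕ}, H12S.Win (1 / 2) κ n → ∀ {a N ρ r l k : ℕ} {c : ℤ},
      1 ≤ l → 32 * l ≤ r → 16 * r ≤ ρ → ρ ≤ k * l → |c| + 20 * ρ ≤ a →
      2 * a ≤ N → 2 * l ≤ n → ∀ {X : Finset Edg}, Disjoint X (RI a N ρ c) →
      ∀ {Wa : Set Vtx}, (∀ w ∈ Wa, ∃ e ∈ boxE a, e ∉ RI a N ρ c ∧ (dsrc e = w ∨ dtgt e = w)) →
      H12S.PQ (1 / 2) (An a N ∪ tubeI a ρ c ∪ X) (fun F =>
          (Lvi a N ρ c ↑F ∧ Gdi a N ρ r (4 * l) c ↑F) ∧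
          ∃ w ∈ Wa, ∃ w', nb N w' ∧ DReach (↑(An a N ∪ X) \ ↑F : Set Edg) w w') *
            κ ^ (4 * (2 * (6 * k) + 1) ^ 2) ≤
      H12S.PQ (1 / 2) (An a N ∪ tubeI a ρ c ∪ X) (fun F => Tvi a N ρ c ↑F ∧
          ∃ w ∈ Wa, ∃ w', nb N w' ∧ DReach (↑(An a N ∪ X) \ ↑F : Set Edg) w w'))
    {κ : ℝ} {n : ℕ} (hW : H12S.Win (1 / 2) κ n) {a N ρ r l k : ℕ} {c c' : ℤ}
    {s : Fin 4} (hl : 1 ≤ l) (hr : 32 * l ≤ r) (hρ : 16 * r ≤ ρ) (hk : ρ ≤ k * l)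
    (hc : |c| + 20 * ρ ≤ a) (hc' : |c'| + 20 * ρ ≤ a) (hs : s = 0 → 6 * (ρ:ℤ) ≤ |c - c'|)
    (hN : 2 * a ≤ N) (hn : 2 * l ≤ n) :
    H12S.PQ (1 / 2) (An a N) (fun F => (Lvi a N ρ c ↑F ∧ Gdi a N ρ r (4 * l) c ↑F) ∧
        LfiS a N ρ s c' ↑F) * κ ^ (4 * (2 * (6 * k) + 1) ^ 2) ≤
    H12S.PQ (1 / 2) (An a N ∪ tubeI a ρ c) (fun F => Tvi a N ρ c ↑F ∧
        LfiS a N ρ s c' ↑F) := by
  have hρ1 : 1 ≤ ρ := by omega
  have hrρ : r ≤ ρ := by omega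
  have h1 := step1i hW hl hr hρ hk hc hN hn (X := ∅) (Finset.disjoint_empty_left _)
    (Wa := m1i_Ws a ρ s c') (m1i_out hρ1 hc hc' hs (by omega))
  simp only [Finset.union_empty] at h1
  have h2 : H12S.PQ (1 / 2) (An a N ∪ tubeI a ρ c) (fun F =>
      (Lvi a N ρ c ↑F ∧ Gdi a N ρ r (4 * l) c ↑F) ∧
        ∃ w ∈ m1i_Ws a ρ s c', ∃ w', nb N w' ∧ DReach (↑(An a N) \ ↑F : Set Edg) w w') =
      H12S.PQ (1 / 2) (An a N) (fun F => (Lvi a N ρ c ↑F ∧ Gdi a N ρ r (4 * l) c ↑F) ∧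
        LfiS a N ρ s c' ↑F) := by
    have h3 : H12S.PQ (1 / 2) (An a N) (fun F => (Lvi a N ρ c ↑F ∧ Gdi a N ρ r (4 * l) c ↑F) ∧
        LfiS a N ρ s c' ↑F) = H12S.PQ (1 / 2) (An a N) (fun F =>
      (Lvi a N ρ c ↑F ∧ Gdi a N ρ r (4 * l) c ↑F) ∧
        ∃ w ∈ m1i_Ws a ρ s c', ∃ w', nb N w' ∧ DReach (↑(An a N) \ ↑F : Set Edg) w w') := by
      refine Pr_congr fun F _ => ?_
      rw [m1i_LfiS_iff]
    rw [h3]
    refine Pr_local Finset.subset_union_left fun F _ => ?_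
    rw [← m1i_Lvi_local, ← m1i_Gdi_local hrρ hc hN, m1i_sdiff (Finset.Subset.refl _)]
  have h4 : H12S.PQ (1 / 2) (An a N ∪ tubeI a ρ c) (fun F => Tvi a N ρ c ↑F ∧
        ∃ w ∈ m1i_Ws a ρ s c', ∃ w', nb N w' ∧ DReach (↑(An a N) \ ↑F : Set Edg) w w') =
      H12S.PQ (1 / 2) (An a N ∪ tubeI a ρ c) (fun F => Tvi a N ρ c ↑F ∧
        LfiS a N ρ s c' ↑F) := by
    refine Pr_congr fun F _ => ?_
    rw [m1i_LfiS_iff]
  rw [← h2, ← h4]
  exact h1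

end H985T
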