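import Pool.Agent.H985R3.TA.SYM
import Pool.Agent.H985R3.TA.OUT

/-!
Task M2 of the two-arm project: the second separation step (statement `mid2`, from `step2`).
-/

set_option autoImplicit false

namespace H985T

open H974 Finset

theorem M2_box_true {m : ℕ} {x y : ℤ} : ((x, y, true) : Edg) ∈ boxE m ↔
    -(m:ℤ) ≤ x ∧ x < m ∧ -(m:ℤ) ≤ y ∧ y ≤ m := by
  unfold boxE; exact mem_RE_true

theorem M2_box_false {m : ℕ} {x y : ℤ} : ((x, y, false) : Edg) ∈ boxE m ↔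
    -(m:ℤ) ≤ x ∧ x ≤ m ∧ -(m:ℤ) ≤ y ∧ y < m := by
  unfold boxE; exact mem_RE_false

theorem M2_tube_true {m ρ : ℕ} {c x y : ℤ} : ((x, y, true) : Edg) ∈ tube 0 m ρ c (10 * ρ) ↔
    (m:ℤ) ≤ x ∧ x < (m:ℤ) + 10 * ρ ∧ c - ρ ≤ y ∧ y ≤ c + ρ := by
  unfold tube; rw [if_pos rfl, mem_RE_true]; push_cast; rfl

theorem M2_tube_false {m ρ : ℕ} {c x y : ℤ} : ((x, y, false) : Edg) ∈ tube 0 m ρ c (10 * ρ) ↔
    (m:ℤ) ≤ x ∧ x ≤ (m:ℤ) + 10 * ρ ∧ c - ρ ≤ y ∧ y < c + ρ := by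
  unfold tube; rw [if_pos rfl, mem_RE_false]; push_cast; rfl

/-- the endpoint of the open arm is in the tube -/
theorem M2_end {m ρ : ℕ} {c z2 : ℤ} (hρ : 1 ≤ ρ) {G : Set Edg}
    (h : Reach (G ∩ ↑(boxE m ∪ tube 0 m ρ c (10 * ρ))) (0, 0) ((m:ℤ) + 10 * ρ, z2)) :
    |z2 - c| ≤ ρ := by
  rcases Relation.ReflTransGen.cases_tail h with h | ⟨w, _, e, he, hcase⟩
  · exfalso
    have := congrArg Prod.fst h
    simp only at this
    omega
  · have he2 := he.2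
    rw [Finset.mem_coe, Finset.mem_union] at he2
    obtain ⟨x, y, b⟩ := e
    rw [abs_le]
    cases b
    · rw [M2_box_false, M2_tube_false] at he2
      simp only [src_mk, tgt_false, Prod.ext_iff] at hcase
      omega
    · rw [M2_box_true, M2_tube_true] at he2
      simp only [src_mk, tgt_true, Prod.ext_iff] at hcase
      omega

theorem M2_mp_mp (s : Fin 4) (F : Finset Edg) :
    (sy s).toLSym.mp ((sy s).toLSym.mp F) = F := by
  ext e
  rw [LSym.mem_mp, LSym.mem_mp, SYM_symm, SYM_symm, sy_invol]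

theorem M2_mp_union (s : Fin 4) (F G : Finset Edg) :
    (sy s).toLSym.mp (F ∪ G) = (sy s).toLSym.mp F ∪ (sy s).toLSym.mp G := by
  ext e
  simp only [LSym.mem_mp, Finset.mem_union]

theorem M2_img (s : Fin 4) (F : Set Edg) : (sy s).φ '' ((sy s).φ '' F) = F := by
  rw [Set.image_image]
  simp only [sy_invol, Set.image_id']

theorem M2_disj {m ρ : ℕ} {c c' : ℤ} {s : Fin 4} (hc : |c| + 20 * ρ ≤ m)
    (hs : s = 0 → 6 * (ρ:ℤ) ≤ |c - c'|) :
    Disjoint ((sy s).toLSym.mp (tubeD m ρ c)) (RO m ρ c') := by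
  rw [Finset.disjoint_left]
  intro e he he2
  rw [LSym.mem_mp, SYM_symm] at he
  unfold tubeD at he
  rw [Finset.mem_sdiff, sy_mem_box] at he
  obtain ⟨he1, he0⟩ := he
  rw [mem_RO] at he2
  rcases he2 with he2 | he2
  · exact he0 he2
  have hc1 := abs_le.mp (show |c| ≤ (m:ℤ) - 20 * ρ by linarith)
  obtain ⟨x, y, b⟩ := e
  rcases SYM_cases s with rfl | rfl | rfl | rfl
  · have h6 := hs rfl
    rw [SYM_0φ] at he1
    cases b
    · rw [M2_tube_false] at he1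
      rw [mem_RE_false] at he2
      rcases abs_cases (c - c') with h | h <;> omega
    · rw [M2_tube_true] at he1
      rw [mem_RE_true] at he2
      rcases abs_cases (c - c') with h | h <;> omega
  · rw [SYM_1φ] at he1
    cases b
    · rw [Bool.not_false, M2_tube_true] at he1
      rw [mem_RE_false] at he2
      omega
    · rw [Bool.not_true, M2_tube_false] at he1
      rw [mem_RE_true] at he2
      omega
  · cases b
    · rw [SYM_2φf, M2_tube_false] at he1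
      rw [mem_RE_false] at he2
      omega
    · rw [SYM_2φt, M2_tube_true] at he1
      rw [mem_RE_true] at he2
      omega
  · cases b
    · rw [SYM_3φf, M2_tube_true] at he1
      rw [mem_RE_false] at he2
      omega
    · rw [SYM_3φt, M2_tube_false] at he1
      rw [mem_RE_true] at he2
      omega

/-- the possible ends of the open arm -/
def M2_Zs (m ρ : ℕ) (c : ℤ) (s : Fin 4) : Set Vtx :=
  {z | ∃ z2 : ℤ, |z2 - c| ≤ ρ ∧ z = (sy s).ψ ((m:ℤ) + 10 * ρ, z2)}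

theorem M2_hZs {m ρ : ℕ} {c c' : ℤ} {s : Fin 4} (hρ : 1 ≤ ρ) (hc : |c| + 20 * ρ ≤ m)
    (hs : s = 0 → 6 * (ρ:ℤ) ≤ |c - c'|) :
    ∀ z ∈ M2_Zs m ρ c s, ∃ e, e ∉ RO m ρ c' ∧ (src e = z ∨ tgt e = z) := by
  rintro z ⟨z2, hz2, rfl⟩
  have hc1 := abs_le.mp (show |c| ≤ (m:ℤ) - 20 * ρ by linarith)
  have hz := abs_le.mp hz2
  refine ⟨(((sy s).ψ ((m:ℤ) + 10 * ρ, z2)).1, ((sy s).ψ ((m:ℤ) + 10 * ρ, z2)).2, true), ?_,
    Or.inl rfl⟩
  rw [mem_RO, M2_box_true, mem_RE_true]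
  rcases SYM_cases s with rfl | rfl | rfl | rfl
  · have h6 := hs rfl
    rw [SYM_0ψ]
    simp only
    rcases abs_cases (c - c') with h | h <;> omega
  · rw [SYM_1ψ]
    simp only
    omega
  · rw [SYM_2ψ]
    simp only
    omega
  · rw [SYM_3ψ]
    simp only
    omega

theorem M2_hb {m : ℕ} {y0 : ℤ} {R : ℕ} (h : |y0| + R ≤ m) : hbR m y0 R ⊆ boxE m := by
  have h1 := abs_le.mp (show |y0| ≤ (m:ℤ) - R by linarith)
  rintro ⟨x, y, b⟩ he
  unfold hbR at he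
  cases b
  · rw [mem_RE_false] at he
    rw [M2_box_false]
    omega
  · rw [mem_RE_true] at he
    rw [M2_box_true]
    omega

/-- `H3p` only depends on the box -/
theorem M2_H3p_congr {m : ℕ} {y0 : ℤ} {r R : ℕ} (h : |y0| + R ≤ m) {F G : Set Edg}
    (hFG : F ∩ ↑(boxE m) = G ∩ ↑(boxE m)) (hF : H3p m y0 r R F) : H3p m y0 r R G := by
  have e : F ∩ ↑(hbR m y0 R) = G ∩ ↑(hbR m y0 R) := by
    have hsub : (↑(hbR m y0 R) : Set Edg) ⊆ ↑(boxE m) := Finset.coe_subset.mpr (M2_hb h)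
    ext e
    constructor
    · rintro ⟨h1, h2⟩
      have h3 : e ∈ F ∩ ↑(boxE m) := ⟨h1, hsub h2⟩
      rw [hFG] at h3
      exact ⟨h3.1, h2⟩
    · rintro ⟨h1, h2⟩
      have h3 : e ∈ G ∩ ↑(boxE m) := ⟨h1, hsub h2⟩
      rw [← hFG] at h3
      exact ⟨h3.1, h2⟩
  unfold H3p at hF ⊢
  rw [← e]
  exact hF

theorem M2_Gp_congr {m ρ r l : ℕ} {c : ℤ} (hr : r ≤ ρ) (hc : |c| + 20 * ρ ≤ m) {F G : Set Edg}
    (hFG : F ∩ ↑(boxE m) = G ∩ ↑(boxE m)) (hF : Gp m ρ r l c F) : Gp m ρ r l c G := by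
  obtain ⟨h1, h2, h3⟩ := hF
  rw [hFG] at h2 h3
  refine ⟨fun k hk h => h1 k hk (M2_H3p_congr ?_ hFG.symm h), h2, h3⟩
  have hc1 := abs_le.mp (show |c| ≤ (m:ℤ) - 20 * ρ by linarith)
  have hk1 := abs_le.mp hk
  rcases abs_cases ((l:ℤ) * k) with h | h <;> omega

theorem M2_Lf_congr {m ρ : ℕ} {c : ℤ} {f : Vtx} {F G : Set Edg}
    (hFG : F ∩ ↑(boxE m) = G ∩ ↑(boxE m)) (hF : Lf m ρ c f F) : Lf m ρ c f G := by
  have e : (↑(boxE m) : Set Edg) \ F = ↑(boxE m) \ G := by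
    ext e
    constructor
    · rintro ⟨h1, h2⟩
      refine ⟨h1, fun h3 => ?_⟩
      have h4 : e ∈ G ∩ ↑(boxE m) := ⟨h3, h1⟩
      rw [← hFG] at h4
      exact h2 h4.1
    · rintro ⟨h1, h2⟩
      refine ⟨h1, fun h3 => ?_⟩
      have h4 : e ∈ F ∩ ↑(boxE m) := ⟨h3, h1⟩
      rw [hFG] at h4
      exact h2 h4.1
  unfold Lf at hF ⊢
  rw [← e]
  exact hF

/-- the union of the box and the tube -/
theorem M2_union (m ρ : ℕ) (c : ℤ) :
    boxE m ∪ tube 0 m ρ c (10 * ρ) = boxE m ∪ tubeD m ρ c := by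
  unfold tubeD
  rw [Finset.union_sdiff_self_eq_union]

theorem M2_EU (m ρ : ℕ) (c d : ℤ) (s : Fin 4) :
    boxE m ∪ (tube s m ρ d (10 * ρ) \ boxE m) ∪ tubeD m ρ c = EU m ρ c s d := by
  unfold EU tubeD
  ext e
  simp only [Finset.mem_union, Finset.mem_sdiff]
  tauto

theorem M2_e1 (F B X : Finset Edg) :
    (↑F : Set Edg) ∩ ↑B = ↑(F ∩ (B ∪ X)) ∩ ↑B := by
  ext e
  simp only [Finset.coe_inter, Finset.coe_union, Set.mem_inter_iff, Set.mem_union]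
  tauto

theorem M2_e2 (F Y : Finset Edg) : (↑(F ∩ Y) : Set Edg) ∩ ↑Y = ↑F ∩ ↑Y := by
  ext e
  simp only [Finset.coe_inter, Set.mem_inter_iff]
  tauto

theorem M2_sub (A B X : Finset Edg) : A ∪ X ⊆ A ∪ B ∪ X := by
  intro e he
  simp only [Finset.mem_union] at he ⊢
  tauto

theorem mid2_of {κ : ℝ} {n : ℕ} (hW : H12S.Win (1 / 2) κ n) {m ρ r l k : ℕ} {c c' f0 : ℤ}
    {s : Fin 4}
    (step2 : ∀ {f : Vtx} (_ : corner (0, 0) f) {X : Finset Edg} (_ : Disjoint X (RO m ρ c'))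
      {Zs : Set Vtx} (_ : ∀ z ∈ Zs, ∃ e, e ∉ RO m ρ c' ∧ (src e = z ∨ tgt e = z)),
      H12S.PQ (1 / 2) (boxE m ∪ tubeD m ρ c' ∪ X)
          (fun F => (Lf m ρ c' f ↑F ∧ Gp m ρ r (4 * l) c' ↑F) ∧
          ∃ z ∈ Zs, Reach (↑F ∩ ↑(boxE m ∪ X) : Set Edg) (0, 0) z) *
            κ ^ (4 * (2 * (6 * k) + 1) ^ 2) ≤
      H12S.PQ (1 / 2) (boxE m ∪ tubeD m ρ c' ∪ X) (fun F => Tf m ρ c' f ↑F ∧
          ∃ z ∈ Zs, Reach (↑F ∩ ↑(boxE m ∪ X) : Set Edg) (0, 0) z))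
    (hl : 1 ≤ l) (hr : 32 * l ≤ r) (hρ : 16 * r ≤ ρ)
    (hc : |c| + 20 * ρ ≤ m) (hc' : |c'| + 20 * ρ ≤ m) (hs : s = 0 → 6 * (ρ:ℤ) ≤ |c - c'|)
    (hf : f0 = 0 ∨ f0 = -1) :
    H12S.PQ (1 / 2) (boxE m ∪ tubeD m ρ c) (fun F => Tv m ρ c ↑F ∧
        LfS m ρ s c' (f0, f0) ↑F ∧ GpS m ρ r (4 * l) s c' ↑F) *
          κ ^ (4 * (2 * (6 * k) + 1) ^ 2) ≤
    H12S.PQ (1 / 2) (EU m ρ c s (cc s c')) (EV m ρ c s (cc s c') (f0, f0)) := by
  have hρ1 : 1 ≤ ρ := by omega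
  have hok : Ok (fun _ : Edg => (1 / 2 : ℝ)) := fun _ => by norm_num
  obtain ⟨f1, hf1, hff⟩ := sy_face s hf
  have hff' : (sy s).ψf (f1, f1) = (f0, f0) := by rw [← hff, sy_invol_f]
  have hcor : corner (0, 0) (f1, f1) := by unfold corner; simp only; omega
  set X : Finset Edg := (sy s).toLSym.mp (tubeD m ρ c) with hXdef
  have hX := M2_disj (s := s) (c' := c') hc hs
  rw [← hXdef] at hX
  have hst := step2 hcor hX (M2_hZs (c' := c') hρ1 hc hs)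
  -- the images of the sets of edges
  have hmp1 : (sy s).toLSym.mp (boxE m ∪ X) = boxE m ∪ tubeD m ρ c := by
    rw [M2_mp_union, sy_box, hXdef, M2_mp_mp]
  have hmp2 : (sy s).toLSym.mp (boxE m ∪ tubeD m ρ c' ∪ X) = EU m ρ c s (cc s c') := by
    rw [M2_mp_union, M2_mp_union, sy_box, hXdef, M2_mp_mp]
    rw [← M2_EU]
    conv_lhs => rw [tubeD, LSym.mp_sdiff, sy_box, sy_tube]
  -- first inequality
  have h1 : H12S.PQ (1 / 2) (boxE m ∪ tubeD m ρ c) (fun F => Tv m ρ c ↑F ∧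
      LfS m ρ s c' (f0, f0) ↑F ∧ GpS m ρ r (4 * l) s c' ↑F) ≤
      H12S.PQ (1 / 2) (boxE m ∪ tubeD m ρ c' ∪ X)
        (fun F => (Lf m ρ c' (f1, f1) ↑F ∧ Gp m ρ r (4 * l) c' ↑F) ∧
          ∃ z ∈ M2_Zs m ρ c s, Reach (↑F ∩ ↑(boxE m ∪ X) : Set Edg) (0, 0) z) := by
    rw [← hmp1]
    unfold H12S.PQ
    rw [LSym.pr]
    rw [Pr_local (M2_sub (boxE m) (tubeD m ρ c') X)]
    · apply Pr_mono hok
      rintro F - ⟨hTv, hLf, hGp⟩
      rw [LSym.coe_mp] at hTv hLf hGp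
      refine ⟨⟨?_, ?_⟩, ?_⟩
      · unfold LfS at hLf
        rw [M2_img, hff] at hLf
        exact hLf
      · unfold GpS at hGp
        rw [M2_img] at hGp
        exact hGp
      · obtain ⟨z2, hz2⟩ := hTv
        refine ⟨(sy s).ψ ((m:ℤ) + 10 * ρ, z2), ⟨z2, M2_end hρ1 hz2, rfl⟩, ?_⟩
        have h3 := (sy s).toLSym.reach hz2
        rw [sy_origin] at h3
        refine h3.mono ?_
        rw [M2_union]
        rintro e ⟨e', ⟨he1, he2⟩, rfl⟩
        rw [← hmp1, LSym.coe_mp] at he2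
        refine ⟨?_, ?_⟩
        · obtain ⟨e'', he3, rfl⟩ := he1
          rw [sy_invol]
          exact he3
        · obtain ⟨e'', he3, rfl⟩ := he2
          rw [sy_invol]
          exact he3
    · intro F _
      have e1 := M2_e1 F (boxE m) X
      have e2 := M2_e2 F (boxE m ∪ X)
      rw [e2]
      constructor
      · rintro ⟨⟨ha, hb⟩, hc⟩
        exact ⟨⟨M2_Lf_congr e1 ha, M2_Gp_congr (by omega) hc' e1 hb⟩, hc⟩
      · rintro ⟨⟨ha, hb⟩, hc⟩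
        exact ⟨⟨M2_Lf_congr e1.symm ha, M2_Gp_congr (by omega) hc' e1.symm hb⟩, hc⟩
  -- last inequality
  have h2 : H12S.PQ (1 / 2) (boxE m ∪ tubeD m ρ c' ∪ X) (fun F => Tf m ρ c' (f1, f1) ↑F ∧
      ∃ z ∈ M2_Zs m ρ c s, Reach (↑F ∩ ↑(boxE m ∪ X) : Set Edg) (0, 0) z) ≤
      H12S.PQ (1 / 2) (EU m ρ c s (cc s c')) (EV m ρ c s (cc s c') (f0, f0)) := by
    rw [← hmp2]
    unfold H12S.PQ
    rw [LSym.pr]
    apply Pr_mono hok
    rintro F - ⟨⟨w, hw1, hw2⟩, z, ⟨z2, hz2, rfl⟩, hz⟩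
    refine ⟨⟨((m:ℤ) + 10 * ρ, z2), rfl, ?_⟩, ⟨(sy s).ψf w, ?_, ?_⟩⟩
    · have h3 := (sy s).toLSym.reach hz
      rw [sy_origin, sy_invol_v] at h3
      refine h3.mono ?_
      rw [M2_union, ← hmp1, LSym.coe_mp, LSym.coe_mp]
      rintro e ⟨e', ⟨he1, he2⟩, rfl⟩
      exact ⟨Set.mem_image_of_mem _ he1, Set.mem_image_of_mem _ he2⟩
    · obtain ⟨w1, w2⟩ := w
      simp only at hw1
      unfold beyond
      rcases SYM_cases s with rfl | rfl | rfl | rfl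
      · rw [if_pos rfl, SYM_0f]
        push_cast
        exact hw1
      · rw [if_neg (by decide), if_pos rfl, SYM_1f]
        push_cast
        exact hw1
      · rw [if_neg (by decide), if_neg (by decide), if_pos rfl, SYM_2f]
        push_cast
        omega
      · rw [if_neg (by decide), if_neg (by decide), if_neg (by decide), SYM_3f]
        push_cast
        omega
    · have h3 := (sy s).dreach hw2
      rw [hff'] at h3
      refine h3.mono ?_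
      rintro e ⟨e', ⟨he1, he2⟩, rfl⟩
      rw [Finset.mem_coe, Finset.mem_union] at he1
      rw [Finset.mem_coe, Finset.mem_sdiff, Finset.mem_union, Finset.mem_union]
      refine ⟨?_, ?_⟩
      · rcases he1 with he1 | he1
        · left; left
          rw [sy_mem_box]
          exact he1
        · right
          rw [← sy_tube, LSym.mem_mp, SYM_symm, sy_invol]
          exact he1
      · rw [LSym.mem_mp, SYM_symm, sy_invol]
        exact he2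
  have hκ : (0:ℝ) ≤ κ ^ (4 * (2 * (6 * k) + 1) ^ 2) := pow_nonneg hW.kpos.le _
  exact (mul_le_mul_of_nonneg_right h1 hκ).trans (hst.trans h2)

end H985T
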