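import Pool.Agent.H985R3.TA.Defs3
import Pool.Agent.H985R3.TA.EXI

/-!
# Two-arm project: selection of the landing places (task SEL)
-/

set_option autoImplicit false

namespace H985T

open H974 Finset

theorem SEL_cases (s : Fin 4) : sy s = sy0 ∨ sy s = sy1 ∨ sy s = sy2 ∨ sy s = sy3 := by
  unfold sy
  split_ifs <;> simp

theorem SEL_inv (s : Fin 4) (a : Vtx) : (sy s).ψ ((sy s).ψ a) = a := by
  obtain ⟨x, y⟩ := a
  rcases SEL_cases s with h | h | h | h <;> rw [h]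
  · rfl
  · rfl
  · simp [sy2]
  · simp [sy3]

theorem SEL_origin (s : Fin 4) : (sy s).ψ (0, 0) = (0, 0) := by
  rcases SEL_cases s with h | h | h | h <;> rw [h]
  · rfl
  · rfl
  · simp [sy2]
  · simp [sy3]

theorem SEL_onB {s : Fin 4} {m : ℕ} {u : Vtx} (hu : onB m u) : onB m ((sy s).ψ u) := by
  obtain ⟨x, y⟩ := u
  obtain ⟨⟨⟨h1, h2⟩, h3, h4⟩, h5⟩ := hu
  simp only at h1 h2 h3 h4 h5
  rcases SEL_cases s with h | h | h | h <;> rw [h]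
  · exact ⟨⟨⟨h1, h2⟩, h3, h4⟩, h5⟩
  · refine ⟨⟨⟨h3, h4⟩, h1, h2⟩, ?_⟩
    show y = _ ∨ y = _ ∨ x = _ ∨ x = _
    tauto
  · show ((-(m:ℤ) ≤ -x ∧ -x ≤ m) ∧ (-(m:ℤ) ≤ -y ∧ -y ≤ m)) ∧ (-x = _ ∨ -x = _ ∨ -y = _ ∨ -y = _)
    omega
  · show ((-(m:ℤ) ≤ -y ∧ -y ≤ m) ∧ (-(m:ℤ) ≤ -x ∧ -x ≤ m)) ∧ (-y = _ ∨ -y = _ ∨ -x = _ ∨ -x = _)
    omega

theorem SEL_box {s : Fin 4} {m : ℕ} {e : Edg} (he : e ∈ boxE m) : (sy s).φ e ∈ boxE m := by
  obtain ⟨x, y, β⟩ := e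
  unfold boxE at he ⊢
  rcases SEL_cases s with h | h | h | h <;> rw [h]
  · exact he
  · cases β
    · rw [mem_RE_false] at he
      have : sy1.φ (x, y, false) = (y, x, true) := rfl
      rw [this, mem_RE_true]; omega
    · rw [mem_RE_true] at he
      have : sy1.φ (x, y, true) = (y, x, false) := rfl
      rw [this, mem_RE_false]; omega
  · cases β
    · rw [mem_RE_false] at he
      have : sy2.φ (x, y, false) = (-x, -y - 1, false) := by simp [sy2]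
      rw [this, mem_RE_false]; omega
    · rw [mem_RE_true] at he
      have : sy2.φ (x, y, true) = (-x - 1, -y, true) := by simp [sy2]
      rw [this, mem_RE_true]; omega
  · cases β
    · rw [mem_RE_false] at he
      have : sy3.φ (x, y, false) = (-y - 1, -x, true) := by simp [sy3]
      rw [this, mem_RE_true]; omega
    · rw [mem_RE_true] at he
      have : sy3.φ (x, y, true) = (-y, -x - 1, false) := by simp [sy3]
      rw [this, mem_RE_false]; omega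

theorem SEL_reach {s : Fin 4} {m : ℕ} {F : Set Edg} {u v : Vtx}
    (h : Reach (F ∩ ↑(boxE m)) u v) :
    Reach ((sy s).φ '' F ∩ ↑(boxE m)) ((sy s).ψ u) ((sy s).ψ v) := by
  refine ((sy s).toLSym.reach h).mono ?_
  rintro _ ⟨e, ⟨he1, he2⟩, rfl⟩
  exact ⟨⟨e, he1, rfl⟩, Finset.mem_coe.mpr (SEL_box (Finset.mem_coe.mp he2))⟩

theorem SEL_dreach0 (g : DSym) {H : Set Edg} {a b : Vtx} (h : DReach H a b) :
    DReach (g.φ '' H) (g.ψf a) (g.ψf b) := by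
  induction h with
  | refl => exact DReach.refl _ _
  | tail _ hs ih =>
    obtain ⟨e, he, hc⟩ := hs
    refine ih.tail ⟨g.φ e, ⟨e, he, rfl⟩, ?_⟩
    rcases g.dcompat e with ⟨h1, h2⟩ | ⟨h1, h2⟩ <;> rcases hc with ⟨h3, h4⟩ | ⟨h3, h4⟩ <;>
      rw [h1, h2, h3, h4] <;> simp

theorem SEL_dreach {s : Fin 4} {m : ℕ} {F : Set Edg} {a b : Vtx}
    (h : DReach (↑(boxE m) \ F) a b) :
    DReach (↑(boxE m) \ (sy s).φ '' F) ((sy s).ψf a) ((sy s).ψf b) := by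
  refine (SEL_dreach0 (sy s) h).mono ?_
  rintro _ ⟨e, ⟨he1, he2⟩, rfl⟩
  refine ⟨Finset.mem_coe.mpr (SEL_box (Finset.mem_coe.mp he1)), ?_⟩
  rintro ⟨e', he', h⟩
  exact he2 ((sy s).φ.injective h ▸ he')

theorem SEL_round {ρ : ℕ} (hρ : 1 ≤ ρ) (w : ℤ) :
    ∃ k : ℤ, -(ρ:ℤ) ≤ 2 * (w - ρ * k) ∧ 2 * (w - ρ * k) ≤ ρ := by
  refine ⟨(2 * w + ρ) / (2 * ρ), ?_, ?_⟩
  · have h := Int.mul_ediv_self_le (x := 2 * w + ρ) (k := 2 * (ρ:ℤ)) (by omega)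
    linarith [h, mul_assoc (2:ℤ) (ρ:ℤ) ((2 * w + ρ) / (2 * ρ))]
  · have h := Int.lt_mul_ediv_self_add (x := 2 * w + ρ) (k := 2 * (ρ:ℤ)) (by omega)
    have := mul_assoc (2:ℤ) (ρ:ℤ) ((2 * w + ρ) / (2 * ρ))
    linarith

/-- first exit of the dual path, on a side -/
theorem SEL_exit {m : ℕ} (hm : 1 ≤ m) {F : Set Edg} {w : Vtx}
    (hw : w ∈ outF (-(m:ℤ)) m (-(m:ℤ)) m) (h : DReach (↑(boxE m) \ F) (0, 0) w) :
    ∃ (s : Fin 4) (w2 : ℤ), DReach (↑(boxE m) \ (sy s).φ '' F) ((sy s).ψf (0, 0)) ((m:ℤ), w2) ∧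
      -(m:ℤ) ≤ w2 ∧ w2 < m := by
  have key : ∀ c, DReach (↑(boxE m) \ F) (0, 0) c →
      (-(m:ℤ) ≤ c.1 ∧ c.1 < m ∧ -(m:ℤ) ≤ c.2 ∧ c.2 < m) ∨
      ∃ w0 : Vtx, DReach (↑(boxE m) \ F) (0, 0) w0 ∧
        ((w0.1 = m ∧ -(m:ℤ) ≤ w0.2 ∧ w0.2 < m) ∨ (w0.2 = m ∧ -(m:ℤ) ≤ w0.1 ∧ w0.1 < m) ∨
        (w0.1 = -(m:ℤ) - 1 ∧ -(m:ℤ) ≤ w0.2 ∧ w0.2 < m) ∨
        (w0.2 = -(m:ℤ) - 1 ∧ -(m:ℤ) ≤ w0.1 ∧ w0.1 < m)) := by
    intro c hc
    induction hc with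
    | refl => left; simp only; omega
    | @tail b c hb hs ih =>
      rcases ih with ih | ih
      · by_cases hcI : -(m:ℤ) ≤ c.1 ∧ c.1 < m ∧ -(m:ℤ) ≤ c.2 ∧ c.2 < m
        · exact Or.inl hcI
        · right
          refine ⟨c, hb.tail hs, ?_⟩
          obtain ⟨⟨x, y, β⟩, ⟨he1, _⟩, hcc⟩ := hs
          obtain ⟨b1, b2⟩ := b
          obtain ⟨c1, c2⟩ := c
          rw [Finset.mem_coe, boxE] at he1
          simp only at ih hcI ⊢
          cases β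
          · simp only [dsrc_false, dtgt_mk, Prod.mk.injEq] at hcc
            rw [mem_RE_false] at he1
            omega
          · simp only [dsrc_true, dtgt_mk, Prod.mk.injEq] at hcc
            rw [mem_RE_true] at he1
            omega
      · exact Or.inr ih
  rcases key w h with h1 | ⟨⟨w1, w2⟩, h1, h2⟩
  · exfalso
    rcases hw with h2 | h2 | h2 | h2 <;> omega
  · simp only at h2
    rcases h2 with ⟨h2, h3, h4⟩ | ⟨h2, h3, h4⟩ | ⟨h2, h3, h4⟩ | ⟨h2, h3, h4⟩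
    · refine ⟨0, w2, ?_, h3, h4⟩
      have := SEL_dreach (s := 0) h1
      rw [h2] at this
      exact this
    · refine ⟨1, w1, ?_, h3, h4⟩
      have := SEL_dreach (s := 1) h1
      rw [h2] at this
      exact this
    · refine ⟨2, -w2 - 1, ?_, by omega, by omega⟩
      have := SEL_dreach (s := 2) h1
      rw [h2] at this
      have e : (sy 2).ψf (-(m:ℤ) - 1, w2) = ((m:ℤ), -w2 - 1) := by
        show (-(-(m:ℤ) - 1) - 1, -w2 - 1) = ((m:ℤ), -w2 - 1)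
        rw [Prod.mk.injEq]; constructor <;> ring
      rw [e] at this
      exact this
    · refine ⟨3, -w1 - 1, ?_, by omega, by omega⟩
      have := SEL_dreach (s := 3) h1
      rw [h2] at this
      have e : (sy 3).ψf (w1, -(m:ℤ) - 1) = ((m:ℤ), -w1 - 1) := by
        show (-(-(m:ℤ) - 1) - 1, -w1 - 1) = ((m:ℤ), -w1 - 1)
        rw [Prod.mk.injEq]; constructor <;> ring
      rw [e] at this
      exact this

theorem SEL_f0 (s : Fin 4) : ((sy s).ψf (0, 0)).1 ≤ 0 := by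
  rcases SEL_cases s with h | h | h | h <;> rw [h]
  · exact le_refl _
  · exact le_refl _
  · show -(0:ℤ) - 1 ≤ 0
    norm_num
  · show -(0:ℤ) - 1 ≤ 0
    norm_num

theorem SEL_side {m : ℕ} {u : Vtx} (hu : onB m u) :
    ∃ (s : Fin 4) (u2 : ℤ), (sy s).ψ u = ((m:ℤ), u2) ∧ -(m:ℤ) ≤ u2 ∧ u2 ≤ m := by
  obtain ⟨x, y⟩ := u
  obtain ⟨⟨⟨h1, h2⟩, h3, h4⟩, h5⟩ := hu
  simp only at h1 h2 h3 h4 h5
  rcases h5 with h5 | h5 | h5 | h5
  · refine ⟨2, -y, ?_, by omega, by omega⟩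
    show (-x, -y) = ((m:ℤ), -y)
    rw [h5, neg_neg]
  · refine ⟨0, y, ?_, by omega, by omega⟩
    show (x, y) = ((m:ℤ), y)
    rw [h5]
  · refine ⟨3, -x, ?_, by omega, by omega⟩
    show (-y, -x) = ((m:ℤ), -x)
    rw [h5, neg_neg]
  · refine ⟨1, x, ?_, by omega, by omega⟩
    show (y, x) = ((m:ℤ), x)
    rw [h5]

theorem sel_det {m ρ r0 R : ℕ} (hρ : 1 ≤ ρ) (hR : 10 * ρ ≤ R) (hr0 : 2 * R + 40 * ρ ≤ r0)
    (hm : 8 * r0 ≤ m) {F : Set Edg} (hA : A2g m (0, 0) F) (hG : SelGood m ρ r0 R F) :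
    ∃ s s' : Fin 4, ∃ k k' : ℤ, |(ρ:ℤ) * k| + 20 * ρ ≤ m ∧ |(ρ:ℤ) * k'| + 20 * ρ ≤ m ∧
      (s = s' → 6 * (ρ:ℤ) ≤ |(ρ:ℤ) * k - ρ * k'|) ∧ Lv m ρ (ρ * k) ((sy s).φ '' F) ∧
        LfS m ρ s' (ρ * k') (0, 0) F := by
  obtain ⟨⟨u0, hu0, hu0r⟩, w, hw, hwr⟩ := hA
  obtain ⟨s', w2, hd, hw1, hw2⟩ := SEL_exit (by omega) hw hwr
  have hf0 := SEL_f0 s'
  -- not near a corner
  have hc1 : w2 < (m:ℤ) - r0 := by
    by_contra hcon
    push Not at hcon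
    refine (hG.h2 s').1 ⟨((m:ℤ), w2), (sy s').ψf (0, 0), ⟨⟨?_, ?_⟩, ?_, ?_⟩, ?_, hd.symm⟩
    · simp only; omega
    · simp only; omega
    · simp only; omega
    · simp only; omega
    · left; omega
  have hc2 : -(m:ℤ) + r0 < w2 := by
    by_contra hcon
    push Not at hcon
    refine (hG.h2 s').2 ⟨((m:ℤ), w2), (sy s').ψf (0, 0), ⟨⟨?_, ?_⟩, ?_, ?_⟩, ?_, hd.symm⟩
    · simp only; omega
    · simp only; omega
    · simp only; omega
    · simp only; omega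
    · left; omega
  obtain ⟨k', hk1, hk2⟩ := SEL_round hρ w2
  have hk'abs : |(ρ:ℤ) * k'| + r0 ≤ m + ρ := by
    have : |(ρ:ℤ) * k'| ≤ (m:ℤ) + ρ - r0 := by
      rw [abs_le]
      constructor <;> omega
    omega
  -- the open arm
  have hv : ∃ u, onB m u ∧ Reach ((sy s').φ '' F ∩ ↑(boxE m)) (0, 0) u := by
    refine ⟨(sy s').ψ u0, SEL_onB hu0, ?_⟩
    have := SEL_reach (s := s') hu0r
    rwa [SEL_origin] at this
  obtain ⟨u', hu', hu'r, hu'n⟩ := exit_right (r := 8 * ρ) (R := R) (by omega) (by omega)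
    (by omega) (hG.h3 s' k' hk'abs) hv
  obtain ⟨s, u2, hs, hu1, hu2⟩ := SEL_side (SEL_onB (s := s') hu')
  have hr : Reach ((sy s).φ '' F ∩ ↑(boxE m)) (0, 0) ((m:ℤ), u2) := by
    have h1 := SEL_reach (s := s') hu'r
    have h2 : Reach (F ∩ ↑(boxE m)) (0, 0) ((sy s').ψ u') := by
      rw [SEL_origin] at h1
      refine h1.mono ?_
      rintro e ⟨⟨e1, ⟨e2, he2, rfl⟩, rfl⟩, h⟩
      refine ⟨?_, h⟩
      have h3 : (sy s').φ ((sy s').φ e2) = e2 := by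
        obtain ⟨x, y, β⟩ := e2
        rcases SEL_cases s' with h | h | h | h <;> rw [h]
        · rfl
        · cases β <;> rfl
        · cases β <;> simp [sy2]
        · cases β <;> simp [sy3]
      rw [h3]
      exact he2
    have h3 := SEL_reach (s := s) h2
    rwa [SEL_origin, hs] at h3
  have hd1 : u2 < (m:ℤ) - r0 := by
    by_contra hcon
    push Not at hcon
    refine (hG.h1 s).1 ⟨((m:ℤ), u2), (0, 0), ⟨⟨?_, ?_⟩, ?_, ?_⟩, ?_, hr.symm⟩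
    · simp only; omega
    · simp only; omega
    · simp only; omega
    · simp only; omega
    · left; simp only; omega
  have hd2 : -(m:ℤ) + r0 < u2 := by
    by_contra hcon
    push Not at hcon
    refine (hG.h1 s).2 ⟨((m:ℤ), u2), (0, 0), ⟨⟨?_, ?_⟩, ?_, ?_⟩, ?_, hr.symm⟩
    · simp only; omega
    · simp only; omega
    · simp only; omega
    · simp only; omega
    · left; simp only; omega
  obtain ⟨k, hk3, hk4⟩ := SEL_round hρ u2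
  refine ⟨s, s', k, k', ?_, ?_, ?_, ⟨u2, ?_, hr⟩, ⟨w2, ?_, hd⟩⟩
  · have : |(ρ:ℤ) * k| ≤ (m:ℤ) - 20 * ρ := by
      rw [abs_le]
      constructor <;> omega
    omega
  · have : |(ρ:ℤ) * k'| ≤ (m:ℤ) - 20 * ρ := by
      rw [abs_le]
      constructor <;> omega
    omega
  · rintro rfl
    rw [SEL_inv] at hs
    rw [hs] at hu'n
    simp only [true_and, not_le] at hu'n
    rcases abs_cases ((ρ:ℤ) * k - ρ * k') with ⟨h1, _⟩ | ⟨h1, _⟩ <;>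
    rcases abs_cases (u2 - (ρ:ℤ) * k') with ⟨h2, _⟩ | ⟨h2, _⟩ <;> push_cast at hu'n <;> omega
  · rcases abs_cases (u2 - (ρ:ℤ) * k) with ⟨h2, _⟩ | ⟨h2, _⟩ <;> omega
  · rcases abs_cases (w2 - (ρ:ℤ) * k') with ⟨h2, _⟩ | ⟨h2, _⟩ <;> omega

end H985T
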