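import Pool.Agent.H985R3.TA.SIIof
import Pool.Agent.H985R3.TA.NR2
import Pool.Agent.H985R3.TA.OUT
import Pool.Agent.H985R3.TA.PAS
import Pool.Agent.H985R3.TA.PST

/-!
Two-arm project: the separation step in dual coordinates.
-/

set_option autoImplicit false

namespace H985T

open H974 Finset

theorem step2 {κ : ℝ} {n : ℕ} (hW : H12S.Win (1 / 2) κ n) {m ρ r l k : ℕ} {c : ℤ} (hl : 1 ≤ l)
    (hr : 32 * l ≤ r) (hρ : 16 * r ≤ ρ) (hk : ρ ≤ k * l) (hc : |c| + 4 * ρ ≤ m) (hn : 2 * l ≤ n)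
    {f : Vtx} (hf : corner (0, 0) f) {X : Finset Edg} (hX : Disjoint X (RO m ρ c))
    {Zs : Set Vtx} (hZs : ∀ z ∈ Zs, ∃ e, e ∉ RO m ρ c ∧ (src e = z ∨ tgt e = z)) :
    H12S.PQ (1 / 2) (boxE m ∪ tubeD m ρ c ∪ X) (fun F => (Lf m ρ c f ↑F ∧ Gp m ρ r (4 * l) c ↑F) ∧
        ∃ z ∈ Zs, Reach (↑F ∩ ↑(boxE m ∪ X) : Set Edg) (0, 0) z) *
          κ ^ (4 * (2 * (6 * k) + 1) ^ 2) ≤
    H12S.PQ (1 / 2) (boxE m ∪ tubeD m ρ c ∪ X) (fun F => Tf m ρ c f ↑F ∧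
        ∃ z ∈ Zs, Reach (↑F ∩ ↑(boxE m ∪ X) : Set Edg) (0, 0) z) :=
  step2_of @step_prob @out_vtx @near_dual @pass_f hW hl hr hρ hk hc hn hf hX hZs

end H985T
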