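import Pool.Agent.H985R3.TA.Defs3
import Pool.Agent.H974R2.Split

/-!
Two-arm project, task SUM: union bound over the landing places.
`sel_sum_of` takes the statements of MON (`A2_iff`), BSL (`bad_sel`), SEL (`sel_det`) and SYM as
hypotheses.
-/

set_option autoImplicit false

namespace H985T

open H974 Finset

/-- symmetry of one event -/
theorem SUM_sym (hmul : ∀ s s' : Fin 4, ∃ s'' : Fin 4, (s'' = 0 ↔ s = s') ∧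
      (∀ e, (sy s'').φ ((sy s).φ e) = (sy s').φ e) ∧
      (∀ a, (sy s'').ψf ((sy s).ψf a) = (sy s').ψf a) ∧
      (∀ a, (sy s'').ψ ((sy s).ψ a) = (sy s').ψ a))
    (hbox : ∀ (s : Fin 4) (m : ℕ), (sy s).toLSym.mp (boxE m) = boxE m)
    (hface : ∀ (s : Fin 4) {f0 : ℤ}, (f0 = 0 ∨ f0 = -1) →
      ∃ f1 : ℤ, (f1 = 0 ∨ f1 = -1) ∧ (sy s).ψf (f0, f0) = (f1, f1))
    {m ρ : ℕ} {M : ℝ}
    (hM : ∀ (s : Fin 4) (c c' f0 : ℤ), (f0 = 0 ∨ f0 = -1) → |c| + 20 * ρ ≤ m →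
      |c'| + 20 * ρ ≤ m → (s = 0 → 6 * (ρ:ℤ) ≤ |c - c'|) →
      H12S.PQ (1 / 2) (boxE m) (fun F => Lv m ρ c ↑F ∧ LfS m ρ s c' (f0, f0) ↑F) ≤ M)
    (s s' : Fin 4) (c c' : ℤ) (hc : |c| + 20 * ρ ≤ m) (hc' : |c'| + 20 * ρ ≤ m)
    (hs : s = s' → 6 * (ρ:ℤ) ≤ |c - c'|) :
    H12S.PQ (1 / 2) (boxE m) (fun F => Lv m ρ c ((sy s).φ '' ↑F) ∧
      LfS m ρ s' c' (0, 0) ↑F) ≤ M := by
  obtain ⟨s'', h0, h1, h2, -⟩ := hmul s s'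
  obtain ⟨f1, hf1, hf2⟩ := hface s (f0 := 0) (Or.inl rfl)
  have key := (sy s).toLSym.pr (1 / 2) (boxE m)
    (fun F => Lv m ρ c ↑F ∧ LfS m ρ s'' c' (f1, f1) ↑F)
  rw [hbox] at key
  have e1 : (fun F : Finset Edg => Lv m ρ c ((sy s).φ '' ↑F) ∧ LfS m ρ s' c' (0, 0) ↑F) =
      (fun F : Finset Edg => Lv m ρ c ↑((sy s).toLSym.mp F) ∧
        LfS m ρ s'' c' (f1, f1) ↑((sy s).toLSym.mp F)) := by
    funext F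
    have e2 : (↑((sy s).toLSym.mp F) : Set Edg) = (sy s).φ '' ↑F := LSym.coe_mp _ F
    rw [e2]
    unfold LfS
    have e3 : (sy s'').φ '' ((sy s).φ '' ↑F) = (sy s').φ '' (↑F : Set Edg) := by
      rw [Set.image_image]
      apply Set.image_congr
      intro e _
      exact h1 e
    have e4 : (sy s'').ψf (f1, f1) = (sy s').ψf (0, 0) := by
      rw [← hf2, h2]
    rw [e3, e4]
  show Pr (fun _ => 1 / 2) (boxE m) _ ≤ M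
  rw [e1, ← key]
  exact hM s'' c c' f1 hf1 hc hc' (fun h => hs (h0.1 h))

theorem sel_sum_of
    (hA2 : ∀ (m : ℕ) (F : Finset Edg), F ⊆ boxE m → (A2 m F ↔ A2g m (0, 0) ↑F))
    (hbad : ∀ η : ℝ, 0 < η → ∃ D₀ : ℕ, 1 ≤ D₀ ∧ ∀ D, D₀ ≤ D → ∀ m ρ : ℕ, 1 ≤ ρ →
      D * ρ ≤ m → m ≤ 2 * D * ρ → ∃ r0 R : ℕ, 10 * ρ ≤ R ∧ 2 * R + 40 * ρ ≤ r0 ∧ 8 * r0 ≤ m ∧
        H12S.PQ (1 / 2) (boxE m) (fun F => A2g m (0, 0) ↑F ∧ ¬ SelGood m ρ r0 R ↑F) ≤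
          η * pi2 (m / 2))
    (hsel : ∀ {m ρ r0 R : ℕ}, 1 ≤ ρ → 10 * ρ ≤ R → 2 * R + 40 * ρ ≤ r0 →
      8 * r0 ≤ m → ∀ {F : Set Edg}, A2g m (0, 0) F → SelGood m ρ r0 R F →
      ∃ s s' : Fin 4, ∃ k k' : ℤ, |(ρ:ℤ) * k| + 20 * ρ ≤ m ∧ |(ρ:ℤ) * k'| + 20 * ρ ≤ m ∧
        (s = s' → 6 * (ρ:ℤ) ≤ |(ρ:ℤ) * k - ρ * k'|) ∧ Lv m ρ (ρ * k) ((sy s).φ '' F) ∧
          LfS m ρ s' (ρ * k') (0, 0) F)
    (hmul : ∀ s s' : Fin 4, ∃ s'' : Fin 4, (s'' = 0 ↔ s = s') ∧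
      (∀ e, (sy s'').φ ((sy s).φ e) = (sy s').φ e) ∧
      (∀ a, (sy s'').ψf ((sy s).ψf a) = (sy s').ψf a) ∧
      (∀ a, (sy s'').ψ ((sy s).ψ a) = (sy s').ψ a))
    (hbox : ∀ (s : Fin 4) (m : ℕ), (sy s).toLSym.mp (boxE m) = boxE m)
    (hface : ∀ (s : Fin 4) {f0 : ℤ}, (f0 = 0 ∨ f0 = -1) →
      ∃ f1 : ℤ, (f1 = 0 ∨ f1 = -1) ∧ (sy s).ψf (f0, f0) = (f1, f1)) :
    ∀ η : ℝ, 0 < η → ∃ D₀ : ℕ, 50 ≤ D₀ ∧ ∀ D, D₀ ≤ D → ∀ m ρ : ℕ, 1 ≤ ρ →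
    D * ρ ≤ m → m ≤ 2 * D * ρ → ∀ M : ℝ, 0 ≤ M →
    (∀ (s : Fin 4) (c c' f0 : ℤ), (f0 = 0 ∨ f0 = -1) → |c| + 20 * ρ ≤ m → |c'| + 20 * ρ ≤ m →
      (s = 0 → 6 * (ρ:ℤ) ≤ |c - c'|) →
      H12S.PQ (1 / 2) (boxE m) (fun F => Lv m ρ c ↑F ∧ LfS m ρ s c' (f0, f0) ↑F) ≤ M) →
    pi2 m ≤ 16 * (4 * (D:ℝ) + 1) ^ 2 * M + η * pi2 (m / 2) := by
  classical
  intro η hη
  obtain ⟨D₀, hD₀, hD⟩ := hbad η hη
  refine ⟨max 50 D₀, le_max_left _ _, ?_⟩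
  intro D hDD m ρ hρ h1 h2 M hM0 hM
  obtain ⟨r0, R, hR, hr0, hm, hb⟩ := hD D (le_trans (le_max_right _ _) hDD) m ρ hρ h1 h2
  have hok : Ok (fun _ : Edg => (1 / 2 : ℝ)) := okq (by norm_num) (by norm_num)
  -- the events
  set J : Finset ((Fin 4 × Fin 4) × (ℤ × ℤ)) :=
    (univ ×ˢ univ) ×ˢ (Icc (-(2 * D : ℤ)) (2 * D) ×ˢ Icc (-(2 * D : ℤ)) (2 * D)) with hJ
  let Ev : (Fin 4 × Fin 4) × (ℤ × ℤ) → Finset Edg → Prop := fun j F =>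
    (|(ρ:ℤ) * j.2.1| + 20 * ρ ≤ m ∧ |(ρ:ℤ) * j.2.2| + 20 * ρ ≤ m ∧
      (j.1.1 = j.1.2 → 6 * (ρ:ℤ) ≤ |(ρ:ℤ) * j.2.1 - ρ * j.2.2|)) ∧
      (Lv m ρ (ρ * j.2.1) ((sy j.1.1).φ '' ↑F) ∧ LfS m ρ j.1.2 (ρ * j.2.2) (0, 0) ↑F)
  have hEv : ∀ j ∈ J, Pr (fun _ => 1 / 2) (boxE m) (Ev j) ≤ M := by
    intro j _
    by_cases hcond : |(ρ:ℤ) * j.2.1| + 20 * ρ ≤ m ∧ |(ρ:ℤ) * j.2.2| + 20 * ρ ≤ m ∧
      (j.1.1 = j.1.2 → 6 * (ρ:ℤ) ≤ |(ρ:ℤ) * j.2.1 - ρ * j.2.2|)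
    · have hle : Pr (fun _ => 1 / 2) (boxE m) (Ev j) ≤
          Pr (fun _ => 1 / 2) (boxE m) (fun F => Lv m ρ (ρ * j.2.1) ((sy j.1.1).φ '' ↑F) ∧
            LfS m ρ j.1.2 (ρ * j.2.2) (0, 0) ↑F) := Pr_mono hok (fun F _ h => h.2)
      exact hle.trans (SUM_sym hmul hbox hface hM j.1.1 j.1.2 _ _ hcond.1 hcond.2.1 hcond.2.2)
    · have h0 : Pr (fun _ => 1 / 2) (boxE m) (Ev j) = 0 := by
        unfold Pr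
        rw [Ex_congr (g := fun _ => 0) (fun F _ => ind_not_of (fun h => hcond h.1)), Ex_const]
      rw [h0]
      exact hM0
  have hk : ∀ k : ℤ, |(ρ:ℤ) * k| + 20 * ρ ≤ m → k ∈ Icc (-(2 * D : ℤ)) (2 * D) := by
    intro k hk
    rw [Finset.mem_Icc, ← abs_le]
    by_contra hlt
    push Not at hlt
    have h3 : (ρ:ℤ) * (2 * D + 1) ≤ |(ρ:ℤ) * k| := by
      rw [abs_mul, abs_of_nonneg (by positivity : (0:ℤ) ≤ ρ)]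
      apply mul_le_mul_of_nonneg_left _ (by positivity)
      omega
    have h4 : (m:ℤ) ≤ 2 * D * ρ := by exact_mod_cast h2
    have h5 : (1:ℤ) ≤ ρ := by exact_mod_cast hρ
    nlinarith
  have hmain : pi2 m ≤ Pr (fun _ => 1 / 2) (boxE m)
      (fun F => A2g m (0, 0) ↑F ∧ ¬ SelGood m ρ r0 R ↑F) +
      Pr (fun _ => 1 / 2) (boxE m) (fun F => ∃ j ∈ J, Ev j F) := by
    unfold pi2
    refine le_trans (Pr_mono hok ?_) (Pr_or_le hok (boxE m) _ _)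
    intro F hF hA
    have hA' : A2g m (0, 0) ↑F := (hA2 m F hF).1 hA
    by_cases hG : SelGood m ρ r0 R ↑F
    · right
      obtain ⟨s, s', k, k', g1, g2, g3, g4, g5⟩ := hsel hρ hR hr0 hm hA' hG
      refine ⟨((s, s'), (k, k')), ?_, ⟨g1, g2, g3⟩, g4, g5⟩
      rw [hJ, Finset.mem_product, Finset.mem_product, Finset.mem_product]
      exact ⟨⟨Finset.mem_univ _, Finset.mem_univ _⟩, hk k g1, hk k' g2⟩
    · left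
      exact ⟨hA', hG⟩
  have hsum : Pr (fun _ => 1 / 2) (boxE m) (fun F => ∃ j ∈ J, Ev j F) ≤
      16 * (4 * (D:ℝ) + 1) ^ 2 * M := by
    refine (Pr_exists_le hok (boxE m) J Ev).trans ?_
    refine (Finset.sum_le_card_nsmul J _ M hEv).trans (le_of_eq ?_)
    have hcard : (J.card : ℝ) = 16 * (4 * (D:ℝ) + 1) ^ 2 := by
      rw [hJ, Finset.card_product, Finset.card_product, Finset.card_product, Finset.card_univ,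
        Fintype.card_fin, Int.card_Icc]
      have : (2 * (D:ℤ) + 1 - -(2 * D)).toNat = 4 * D + 1 := by omega
      rw [this]
      push_cast
      ring
    rw [nsmul_eq_mul, hcard]
  have hb' : Pr (fun _ => 1 / 2) (boxE m)
      (fun F => A2g m (0, 0) ↑F ∧ ¬ SelGood m ρ r0 R ↑F) ≤ η * pi2 (m / 2) := hb
  linarith

end H985T
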