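import Pool.Agent.H985R3.TA.LEV
import Pool.Agent.H985R3.TA.M1
import Pool.Agent.H985R3.TA.M2
import Pool.Agent.H985R3.TA.SII
import Pool.Agent.H985R3.TA.SUM
import Pool.Agent.H985R3.TA.SEL
import Pool.Agent.H985R3.TA.BGD
import Pool.Agent.H985R3.TA.BGP
import Pool.Agent.H985R3.TA.MON
import Pool.Agent.H985R3.TA.IND
import Pool.Agent.H985R3.TA.GLU
import Pool.Agent.H985R3.TA.LOW

/-!
# Two-arm project: assembly (outward part)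
-/

set_option autoImplicit false

namespace H985T

open H974 Finset

/-- the statement of task BSL -/
def BadSel : Prop :=
  ∀ η : ℝ, 0 < η → ∃ D₀ : ℕ, 1 ≤ D₀ ∧ ∀ D, D₀ ≤ D → ∀ m ρ : ℕ, 1 ≤ ρ →
    D * ρ ≤ m → m ≤ 2 * D * ρ → ∃ r0 R : ℕ, 10 * ρ ≤ R ∧ 2 * R + 40 * ρ ≤ r0 ∧ 8 * r0 ≤ m ∧
      H12S.PQ (1 / 2) (boxE m) (fun F => A2g m (0, 0) ↑F ∧ ¬ SelGood m ρ r0 R ↑F) ≤
        η * pi2 (m / 2)

theorem main_sel_sum (h : BadSel) : RecSelSum :=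
  sel_sum_of A2_iff h (fun h1 h2 h3 h4 _ hA hG => sel_det h1 h2 h3 h4 hA hG) sy_mul sy_box sy_face

theorem main_mid2 : RecMid2 := by
  intro κ n hW m ρ r l k c c' f0 s hl hr hρ hk hc hc' hs hn hf
  refine mid2_of hW ?_ hl hr hρ hc hc' hs hf
  intro f hf' X hX Zs hZs
  exact step2 hW hl hr hρ hk (by omega) hn hf' hX hZs

theorem rec_gen (h : BadSel) {η : ℝ} (hη : 0 < η) :
    ∃ (B m₀ : ℕ) (K : ℝ), 0 < K ∧ ∀ m, m₀ ≤ m → ∀ Y : ℝ, 0 ≤ Y →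
      (∀ (ρ : ℕ) (c : ℤ) (s : Fin 4) (c' f0 : ℤ), Geo B m ρ c s c' → (f0 = 0 ∨ f0 = -1) →
        Pr (fun _ => 1 / 2) (EU m ρ c s c') (EV m ρ c s c' (f0, f0)) ≤ Y) →
      pi2 m ≤ K * Y + η * pi2 (m / 2) :=
  rec_gen_of (main_sel_sum h) bad_Gd bad_Gp mid1 main_mid2 A2g_of_L A2g_of_T hη

theorem pi2_upper_main (h : BadSel) :
    ∃ C : ℝ, 0 < C ∧ ∀ m : ℕ, 1 ≤ m → pi2 m ≤ C * (m:ℝ) ^ (-(1/4 : ℝ)) :=
  pi2_upper_of (rec_ineq_of (main_sel_sum h) bad_Gd bad_Gp mid1 main_mid2 glue_cyl A2g_of_L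
    A2g_of_T)

end H985T
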