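import Pool.Agent.H985R3.TA.Defs3
import Pool.Agent.H12R2.Sep.WinHalf

/-!
# Two-arm project: the recursion for the two-arm probability
-/

set_option autoImplicit false

namespace H985T

open H974 Finset

/-! ### Statements used -/

def RecSelSum : Prop :=
  ∀ η : ℝ, 0 < η → ∃ D₀ : ℕ, 50 ≤ D₀ ∧ ∀ D, D₀ ≤ D → ∀ m ρ : ℕ, 1 ≤ ρ →
    D * ρ ≤ m → m ≤ 2 * D * ρ → ∀ M : ℝ, 0 ≤ M →
    (∀ (s : Fin 4) (c c' f0 : ℤ), (f0 = 0 ∨ f0 = -1) → |c| + 20 * ρ ≤ m → |c'| + 20 * ρ ≤ m →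
      (s = 0 → 6 * (ρ:ℤ) ≤ |c - c'|) →
      H12S.PQ (1 / 2) (boxE m) (fun F => Lv m ρ c ↑F ∧ LfS m ρ s c' (f0, f0) ↑F) ≤ M) →
    pi2 m ≤ 16 * (4 * (D:ℝ) + 1) ^ 2 * M + η * pi2 (m / 2)

def RecBadGd : Prop :=
  ∀ η : ℝ, 0 < η → ∃ B₀ : ℕ, ∀ B, B₀ ≤ B → ∃ A₀ : ℕ, ∀ A, A₀ ≤ A →
    ∀ (l m ρ r : ℕ) (c f0 : ℤ) (U : Finset Edg), 1 ≤ l → r = A * l → ρ = B * r →
      |c| + 20 * ρ ≤ m → (f0 = 0 ∨ f0 = -1) → boxE m ⊆ U →
      H12S.PQ (1 / 2) U (fun F => A2g (m / 2) (f0, f0) ↑F ∧ ¬ Gd m ρ r (4 * l) c ↑F) ≤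
        η * pi2 (m / 2)

def RecBadGp : Prop :=
  ∀ η : ℝ, 0 < η → ∃ B₀ : ℕ, ∀ B, B₀ ≤ B → ∃ A₀ : ℕ, ∀ A, A₀ ≤ A →
    ∀ (l m ρ r : ℕ) (s : Fin 4) (c f0 : ℤ) (U : Finset Edg), 1 ≤ l → r = A * l → ρ = B * r →
      |c| + 20 * ρ ≤ m → (f0 = 0 ∨ f0 = -1) → boxE m ⊆ U →
      H12S.PQ (1 / 2) U (fun F => A2g (m / 2) (f0, f0) ↑F ∧ ¬ GpS m ρ r (4 * l) s c ↑F) ≤
        η * pi2 (m / 2)

def RecMid1 : Prop :=
  ∀ {κ : ℝ} {n : ℕ} (_ : H12S.Win (1 / 2) κ n) {m ρ r l k : ℕ} {c c' f0 : ℤ}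
    {s : Fin 4} (_ : 1 ≤ l) (_ : 32 * l ≤ r) (_ : 16 * r ≤ ρ) (_ : ρ ≤ k * l)
    (_ : |c| + 20 * ρ ≤ m) (_ : |c'| + 20 * ρ ≤ m) (_ : s = 0 → 6 * (ρ:ℤ) ≤ |c - c'|)
    (_ : 2 * l ≤ n) (_ : f0 = 0 ∨ f0 = -1),
    H12S.PQ (1 / 2) (boxE m) (fun F => (Lv m ρ c ↑F ∧ Gd m ρ r (4 * l) c ↑F) ∧
        LfS m ρ s c' (f0, f0) ↑F) * κ ^ (4 * (2 * (6 * k) + 1) ^ 2) ≤
    H12S.PQ (1 / 2) (boxE m ∪ tubeD m ρ c) (fun F => Tv m ρ c ↑F ∧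
        LfS m ρ s c' (f0, f0) ↑F)

def RecMid2 : Prop :=
  ∀ {κ : ℝ} {n : ℕ} (_ : H12S.Win (1 / 2) κ n) {m ρ r l k : ℕ} {c c' f0 : ℤ}
    {s : Fin 4} (_ : 1 ≤ l) (_ : 32 * l ≤ r) (_ : 16 * r ≤ ρ) (_ : ρ ≤ k * l)
    (_ : |c| + 20 * ρ ≤ m) (_ : |c'| + 20 * ρ ≤ m) (_ : s = 0 → 6 * (ρ:ℤ) ≤ |c - c'|)
    (_ : 2 * l ≤ n) (_ : f0 = 0 ∨ f0 = -1),
    H12S.PQ (1 / 2) (boxE m ∪ tubeD m ρ c) (fun F => Tv m ρ c ↑F ∧
        LfS m ρ s c' (f0, f0) ↑F ∧ GpS m ρ r (4 * l) s c' ↑F) *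
          κ ^ (4 * (2 * (6 * k) + 1) ^ 2) ≤
    H12S.PQ (1 / 2) (EU m ρ c s (cc s c')) (EV m ρ c s (cc s c') (f0, f0))

def RecGlue : Prop :=
  ∀ (B : ℕ), ∃ K : ℝ, 0 < K ∧ ∀ (m ρ : ℕ) (c : ℤ) (s : Fin 4) (c' f0 : ℤ),
    Geo B m ρ c s c' → (f0 = 0 ∨ f0 = -1) →
    Pr (fun _ => 1 / 2) (EU m ρ c s c') (EV m ρ c s c' (f0, f0)) ≤ K * (m:ℝ) ^ (-(1/4 : ℝ))

def RecOfL : Prop :=
  ∀ {m ρ : ℕ} {s : Fin 4} {c c' : ℤ} {f : Vtx} (_ : 4 ≤ m) (_ : corner (0, 0) f)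
    {F : Set Edg} (_ : Lv m ρ c F) (_ : LfS m ρ s c' f F), A2g (m / 2) f F

def RecOfT : Prop :=
  ∀ {m ρ : ℕ} {s : Fin 4} {c c' : ℤ} {f : Vtx} (_ : 4 ≤ m) (_ : corner (0, 0) f)
    {F : Set Edg} (_ : Tv m ρ c F) (_ : LfS m ρ s c' f F), A2g (m / 2) f F

theorem rec_ok : Ok (fun _ : Edg => (1 / 2 : ℝ)) := fun _ => by constructor <;> norm_num

theorem rec_pi2_nonneg (m : ℕ) : 0 ≤ pi2 m := Pr_nonneg rec_ok _ _

theorem rec_pi2_le_one (m : ℕ) : pi2 m ≤ 1 := Pr_le_one rec_ok _ _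

theorem rec_split {S : Finset Edg} (A B : Finset Edg → Prop) :
    H12S.PQ (1 / 2) S A ≤ H12S.PQ (1 / 2) S (fun F => A F ∧ B F) +
      H12S.PQ (1 / 2) S (fun F => A F ∧ ¬ B F) := by
  refine le_trans (Pr_mono rec_ok (B := fun F => (A F ∧ B F) ∨ (A F ∧ ¬ B F)) ?_)
    (Pr_or_le rec_ok _ _ _)
  intro F _ hA
  by_cases hB : B F
  · exact Or.inl ⟨hA, hB⟩
  · exact Or.inr ⟨hA, hB⟩

theorem rec_corner {f0 : ℤ} (hf : f0 = 0 ∨ f0 = -1) : corner (0, 0) (f0, f0) := by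
  unfold corner
  rcases hf with h | h <;> subst h <;> simp

theorem rec_ineq_of (hSum : RecSelSum) (hGd : RecBadGd) (hGp : RecBadGp) (hM1 : RecMid1)
    (hM2 : RecMid2) (hGlue : RecGlue) (hL : RecOfL) (hT : RecOfT) :
    ∃ (K : ℝ) (m₀ : ℕ), 0 < K ∧ ∀ m, m₀ ≤ m →
      pi2 m ≤ K * (m:ℝ) ^ (-(1/4 : ℝ)) + 1 / 4 * pi2 (m / 2) := by
  obtain ⟨κ, hκ, hW⟩ := H12S.win_half
  obtain ⟨D, hD50, hD⟩ := hSum (1 / 16) (by norm_num)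
  obtain ⟨K, hK0, hK⟩ := hGlue (2 * D)
  set Q : ℝ := 16 * (4 * (D:ℝ) + 1) ^ 2 with hQ
  have hQ0 : 0 < Q := by positivity
  obtain ⟨B₁, hB₁⟩ := hGd (1 / (16 * Q)) (by positivity)
  obtain ⟨A₁, hA₁⟩ := hB₁ (max B₁ 16) (le_max_left _ _)
  have hA₁' := hA₁ (max A₁ 32) (le_max_left _ _)
  set b1 := max B₁ 16 with hb1
  set a1 := max A₁ 32 with ha1
  have hb16 : 16 ≤ b1 := le_max_right _ _
  have ha32 : 32 ≤ a1 := le_max_right _ _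
  set N1 := 4 * (2 * (6 * (a1 * b1)) + 1) ^ 2 with hN1
  have hκN1 : 0 < κ ^ N1 := pow_pos hκ _
  obtain ⟨B₂, hB₂⟩ := hGp (κ ^ N1 / (16 * Q)) (by positivity)
  obtain ⟨A₂, hA₂⟩ := hB₂ (max B₂ 16) (le_max_left _ _)
  have hA₂' := hA₂ (max A₂ 32) (le_max_left _ _)
  set b2 := max B₂ 16 with hb2
  set a2 := max A₂ 32 with ha2
  have hb16' : 16 ≤ b2 := le_max_right _ _
  have ha32' : 32 ≤ a2 := le_max_right _ _
  set N2 := 4 * (2 * (6 * (a2 * b2)) + 1) ^ 2 with hN2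
  have hκN2 : 0 < κ ^ N2 := pow_pos hκ _
  clear_value a1 b1 a2 b2
  set W := a1 * b1 * a2 * b2 with hWd
  have hW0 : 1 ≤ W := by
    rw [hWd]
    have h1 : 0 < a1 := by omega
    have h2 : 0 < b1 := by omega
    have h3 : 0 < a2 := by omega
    have h4 : 0 < b2 := by omega
    have := Nat.mul_pos (Nat.mul_pos (Nat.mul_pos h1 h2) h3) h4
    omega
  refine ⟨Q * (K / (κ ^ N1 * κ ^ N2)) , D * W, by positivity, fun m hm => ?_⟩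
  -- choice of the scales
  set t := m / (D * W) with ht
  have hDW : 0 < D * W := Nat.mul_pos (by omega) (by omega)
  have ht1 : 1 ≤ t := (Nat.one_le_div_iff hDW).mpr hm
  have htm : (D * W) * t ≤ m := Nat.mul_div_le _ _
  have htm' : m < (D * W) * (t + 1) := by
    rw [ht]; exact Nat.lt_mul_div_succ _ hDW
  set l1 := a2 * b2 * t with hl1
  set l2 := a1 * b1 * t with hl2
  set r1 := a1 * l1 with hr1
  set r2 := a2 * l2 with hr2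
  set ρ := b1 * r1 with hρ
  have hρ2 : ρ = b2 * r2 := by
    rw [hρ, hr1, hr2, hl1, hl2]; ring
  have hρW : ρ = W * t := by
    rw [hρ, hr1, hl1, hWd]; ring
  have hl1p : 1 ≤ l1 := by
    rw [hl1]
    have := Nat.mul_pos (Nat.mul_pos (show 0 < a2 by omega) (show 0 < b2 by omega)) (show 0 < t by omega)
    omega
  have hl2p : 1 ≤ l2 := by
    rw [hl2]
    have := Nat.mul_pos (Nat.mul_pos (show 0 < a1 by omega) (show 0 < b1 by omega)) (show 0 < t by omega)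
    omega
  have hρ1 : 1 ≤ ρ := by
    rw [hρW]
    have := Nat.mul_pos (show 0 < W by omega) (show 0 < t by omega)
    omega
  have hDρ : D * ρ ≤ m := by
    rw [hρW, ← mul_assoc]; exact htm
  have hDρ' : m ≤ 2 * D * ρ := by
    have h1 : (D * W) * (t + 1) ≤ (D * W) * (2 * t) := Nat.mul_le_mul_left _ (by omega)
    have h2 : 2 * D * ρ = (D * W) * (2 * t) := by rw [hρW]; ring
    omega
  have h50 : 50 * ρ ≤ m := le_trans (Nat.mul_le_mul_right _ hD50) hDρ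
  have hm4 : 4 ≤ m := by omega
  set x : ℝ := (m:ℝ) ^ (-(1/4 : ℝ)) with hx
  have hx0 : 0 ≤ x := by positivity
  have hp0 := rec_pi2_nonneg (m / 2)
  set M : ℝ := (K * x / κ ^ N2 + κ ^ N1 / (16 * Q) * pi2 (m / 2)) / κ ^ N1 +
    1 / (16 * Q) * pi2 (m / 2) with hM
  have hM0 : 0 ≤ M := by positivity
  have key : ∀ (s : Fin 4) (c c' f0 : ℤ), (f0 = 0 ∨ f0 = -1) → |c| + 20 * ρ ≤ m →
      |c'| + 20 * ρ ≤ m → (s = 0 → 6 * (ρ:ℤ) ≤ |c - c'|) →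
      H12S.PQ (1 / 2) (boxE m) (fun F => Lv m ρ c ↑F ∧ LfS m ρ s c' (f0, f0) ↑F) ≤ M := by
    intro s c c' f0 hf hc hc' hs
    have hcf := rec_corner hf
    -- first splitting
    have e1 := rec_split (S := boxE m) (fun F => Lv m ρ c ↑F ∧ LfS m ρ s c' (f0, f0) ↑F)
      (fun F => Gd m ρ r1 (4 * l1) c ↑F)
    have e2 : H12S.PQ (1 / 2) (boxE m) (fun F => (Lv m ρ c ↑F ∧ LfS m ρ s c' (f0, f0) ↑F) ∧
        ¬ Gd m ρ r1 (4 * l1) c ↑F) ≤ 1 / (16 * Q) * pi2 (m / 2) := by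
      refine le_trans (Pr_mono rec_ok ?_)
        (hA₁' l1 m ρ r1 c f0 (boxE m) hl1p hr1 hρ hc hf (Finset.Subset.refl _))
      intro F _ h
      exact ⟨hL hm4 hcf h.1.1 h.1.2, h.2⟩
    have e3 : H12S.PQ (1 / 2) (boxE m) (fun F => (Lv m ρ c ↑F ∧ LfS m ρ s c' (f0, f0) ↑F) ∧
        Gd m ρ r1 (4 * l1) c ↑F) ≤ H12S.PQ (1 / 2) (boxE m)
          (fun F => (Lv m ρ c ↑F ∧ Gd m ρ r1 (4 * l1) c ↑F) ∧
        LfS m ρ s c' (f0, f0) ↑F) := by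
      refine Pr_mono rec_ok ?_
      intro F _ h
      exact ⟨⟨h.1.1, h.2⟩, h.1.2⟩
    have e4 := hM1 (hW (2 * l1)) (m := m) (ρ := ρ) (r := r1) (l := l1) (k := a1 * b1) (c := c)
      (c' := c') (f0 := f0) (s := s) hl1p (by rw [hr1]; exact Nat.mul_le_mul_right _ ha32)
      (by rw [hρ]; exact Nat.mul_le_mul_right _ hb16)
      (by rw [hρ, hr1]; exact le_of_eq (by ring)) hc hc' hs le_rfl hf
    -- second splitting
    have e5 := rec_split (S := boxE m ∪ tubeD m ρ c)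
      (fun F => Tv m ρ c ↑F ∧ LfS m ρ s c' (f0, f0) ↑F) (fun F => GpS m ρ r2 (4 * l2) s c' ↑F)
    have e6 : H12S.PQ (1 / 2) (boxE m ∪ tubeD m ρ c) (fun F => (Tv m ρ c ↑F ∧
        LfS m ρ s c' (f0, f0) ↑F) ∧ ¬ GpS m ρ r2 (4 * l2) s c' ↑F) ≤
        κ ^ N1 / (16 * Q) * pi2 (m / 2) := by
      refine le_trans (Pr_mono rec_ok ?_)
        (hA₂' l2 m ρ r2 s c' f0 (boxE m ∪ tubeD m ρ c) hl2p hr2 hρ2 hc' hf
          Finset.subset_union_left)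
      intro F _ h
      exact ⟨hT hm4 hcf h.1.1 h.1.2, h.2⟩
    have e7 : H12S.PQ (1 / 2) (boxE m ∪ tubeD m ρ c) (fun F => (Tv m ρ c ↑F ∧
        LfS m ρ s c' (f0, f0) ↑F) ∧ GpS m ρ r2 (4 * l2) s c' ↑F) ≤
        H12S.PQ (1 / 2) (boxE m ∪ tubeD m ρ c) (fun F => Tv m ρ c ↑F ∧
        LfS m ρ s c' (f0, f0) ↑F ∧ GpS m ρ r2 (4 * l2) s c' ↑F) := by
      refine Pr_mono rec_ok ?_
      intro F _ h
      exact ⟨h.1.1, h.1.2, h.2⟩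
    have e8 := hM2 (hW (2 * l2)) (m := m) (ρ := ρ) (r := r2) (l := l2) (k := a2 * b2) (c := c)
      (c' := c') (f0 := f0) (s := s) hl2p (by rw [hr2]; exact Nat.mul_le_mul_right _ ha32')
      (by rw [hρ2]; exact Nat.mul_le_mul_right _ hb16')
      (by rw [hρ2, hr2]; exact le_of_eq (by ring)) hc hc' hs le_rfl hf
    have hgeo : Geo (2 * D) m ρ c s (cc s c') := by
      refine ⟨hρ1, hDρ', by omega, by omega, ?_, ?_⟩
      · unfold cc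
        split_ifs
        · omega
        · rw [abs_neg]; omega
      · intro h0
        unfold cc
        rw [if_pos (Or.inl h0)]
        exact hs h0
    have e9 := hK m ρ c s (cc s c') f0 hgeo hf
    have e10 : H12S.PQ (1 / 2) (boxE m ∪ tubeD m ρ c) (fun F => Tv m ρ c ↑F ∧
        LfS m ρ s c' (f0, f0) ↑F ∧ GpS m ρ r2 (4 * l2) s c' ↑F) ≤ K * x / κ ^ N2 := by
      rw [le_div_iff₀ hκN2]
      exact e8.trans e9
    have e11 : H12S.PQ (1 / 2) (boxE m ∪ tubeD m ρ c)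
        (fun F => Tv m ρ c ↑F ∧ LfS m ρ s c' (f0, f0) ↑F) ≤
        K * x / κ ^ N2 + κ ^ N1 / (16 * Q) * pi2 (m / 2) := by
      linarith
    have e12 : H12S.PQ (1 / 2) (boxE m)
          (fun F => (Lv m ρ c ↑F ∧ Gd m ρ r1 (4 * l1) c ↑F) ∧
        LfS m ρ s c' (f0, f0) ↑F) ≤
        (K * x / κ ^ N2 + κ ^ N1 / (16 * Q) * pi2 (m / 2)) / κ ^ N1 := by
      rw [le_div_iff₀ hκN1]
      exact e4.trans e11
    rw [hM]
    linarith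
  have hfin := hD D le_rfl m ρ hρ1 hDρ hDρ' M hM0 key
  rw [← hQ] at hfin
  have hQM : Q * M = Q * (K / (κ ^ N1 * κ ^ N2)) * x + 1 / 8 * pi2 (m / 2) := by
    rw [hM]
    field_simp
    ring
  rw [hQM] at hfin
  linarith

theorem pi2_upper_of (h : ∃ (K : ℝ) (m₀ : ℕ), 0 < K ∧ ∀ m, m₀ ≤ m →
      pi2 m ≤ K * (m:ℝ) ^ (-(1/4 : ℝ)) + 1 / 4 * pi2 (m / 2)) :
    ∃ C : ℝ, 0 < C ∧ ∀ m : ℕ, 1 ≤ m → pi2 m ≤ C * (m:ℝ) ^ (-(1/4 : ℝ)) := by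
  obtain ⟨K, m₀, hK, hrec⟩ := h
  refine ⟨2 * K + (m₀ + 2), by positivity, ?_⟩
  intro m
  induction m using Nat.strong_induction_on with
  | _ m ih =>
    intro hm
    have hm0 : (0:ℝ) < m := by exact_mod_cast hm
    have hm1 : (1:ℝ) ≤ m := by exact_mod_cast hm
    set x : ℝ := (m:ℝ) ^ (-(1/4 : ℝ)) with hx
    have hx0 : 0 < x := Real.rpow_pos_of_pos hm0 _
    by_cases hbig : m₀ ≤ m ∧ 2 ≤ m
    · have h1 := hrec m hbig.1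
      have h2 := ih (m / 2) (by omega) (by omega)
      have h3 : (m:ℝ) / 3 ≤ ((m / 2 : ℕ) : ℝ) := by
        have : m ≤ 3 * (m / 2) := by omega
        have : (m:ℝ) ≤ 3 * ((m / 2 : ℕ) : ℝ) := by exact_mod_cast this
        linarith
      have h4 : ((m / 2 : ℕ) : ℝ) ^ (-(1/4 : ℝ)) ≤ 2 * x := by
        have a1 : ((m / 2 : ℕ) : ℝ) ^ (-(1/4 : ℝ)) ≤ ((m:ℝ) / 3) ^ (-(1/4 : ℝ)) :=
          Real.rpow_le_rpow_of_nonpos (by positivity) h3 (by norm_num)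
        have a2 : ((m:ℝ) / 3) ^ (-(1/4 : ℝ)) = x * (3:ℝ) ^ (1/4 : ℝ) := by
          rw [Real.div_rpow hm0.le (by norm_num), Real.rpow_neg (by norm_num : (0:ℝ) ≤ 3),
            div_inv_eq_mul]
        have a3 : (3:ℝ) ^ (1/4 : ℝ) ≤ 2 := by
          have : (3:ℝ) ^ (1/4 : ℝ) ≤ (16:ℝ) ^ (1/4 : ℝ) :=
            Real.rpow_le_rpow (by norm_num) (by norm_num) (by norm_num)
          refine this.trans ?_
          rw [show (16:ℝ) = 2 ^ (4:ℝ) by norm_num, ← Real.rpow_mul (by norm_num)]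
          norm_num
        rw [a2] at a1
        nlinarith
      have hC : (0:ℝ) < 2 * K + (m₀ + 2) := by positivity
      have h5 : pi2 (m / 2) ≤ (2 * K + (m₀ + 2)) * (2 * x) :=
        h2.trans (mul_le_mul_of_nonneg_left h4 hC.le)
      have : K * x ≤ 1 / 2 * ((2 * K + (m₀ + 2)) * x) := by nlinarith
      linarith
    · have hmle : (m:ℝ) ≤ m₀ + 2 := by
        have : m ≤ m₀ + 2 := by omega
        exact_mod_cast this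
      have h1 : 1 ≤ (m:ℝ) * x := by
        rw [hx]
        nth_rewrite 1 [← Real.rpow_one (m:ℝ)]
        rw [← Real.rpow_add hm0]
        exact Real.one_le_rpow hm1 (by norm_num)
      have h2 := rec_pi2_le_one m
      have h3 : (m:ℝ) * x ≤ (2 * K + (m₀ + 2)) * x := by
        apply mul_le_mul_of_nonneg_right _ hx0.le
        linarith
      linarith

end H985T
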