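import Pool.Agent.H985R3.TA.Defs4
import Pool.Agent.H12R2.Sep.TrapP
import Pool.Agent.H974R2.Plan4

/-!
S1I (helper325): the first inward separation step, from the statements of the other tasks
(taken as hypotheses).
-/

set_option autoImplicit false

namespace H985T

open H974 Finset

theorem s1i_h (x y : ℤ) : Reach (Set.univ : Set Edg) (x, y) (x + 1, y) :=
  Relation.ReflTransGen.single ⟨(x, y, true), trivial, Or.inl ⟨rfl, rfl⟩⟩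

theorem s1i_v (x y : ℤ) : Reach (Set.univ : Set Edg) (x, y) (x, y + 1) :=
  Relation.ReflTransGen.single ⟨(x, y, false), trivial, Or.inl ⟨rfl, rfl⟩⟩

theorem s1i_col (x y : ℤ) : Reach (Set.univ : Set Edg) (x, 0) (x, y) := by
  induction y using Int.induction_on with
  | zero => exact Relation.ReflTransGen.refl
  | succ i ih => exact ih.trans (s1i_v x i)
  | pred i ih =>
    have h := s1i_v x (-(i:ℤ) - 1)
    rw [sub_add_cancel] at h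
    exact ih.trans h.symm

theorem s1i_row (x : ℤ) : Reach (Set.univ : Set Edg) (0, 0) (x, 0) := by
  induction x using Int.induction_on with
  | zero => exact Relation.ReflTransGen.refl
  | succ i ih => exact ih.trans (s1i_h i 0)
  | pred i ih =>
    have h := s1i_h (-(i:ℤ) - 1) 0
    rw [sub_add_cancel] at h
    exact ih.trans h.symm

/-- faces next to the tube are near its centre -/
theorem s1i_VD {a ρ N : ℕ} {c : ℤ} (hρ : 1 ≤ ρ) (hN : 6 * ρ ≤ N) {v : Vtx}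
    (ha : v ∈ VD (↑(tubeI a ρ c) : Set Edg)) :
    inR (((a:ℤ) - 5 * ρ) - N) (((a:ℤ) - 5 * ρ) + N) (c - N) (c + N) v := by
  obtain ⟨e, he, hea⟩ := ha
  have he' : e ∈ tubeI a ρ c := by exact_mod_cast he
  unfold tubeI at he'
  unfold inR
  obtain ⟨x, y, _ | _⟩ := e
  · rw [mem_RE_false] at he'
    rcases hea with h | h
    · rw [← h]; simp only [dsrc_false]; omega
    · rw [← h]; simp only [dtgt_mk]; omega
  · rw [mem_RE_true] at he'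
    rcases hea with h | h
    · rw [← h]; simp only [dsrc_true]; omega
    · rw [← h]; simp only [dtgt_mk]; omega

theorem s1i_tube_box {a ρ : ℕ} {c : ℤ} (hc : |c| + 20 * ρ ≤ a) :
    tubeI a ρ c ⊆ boxE a := by
  have hc1 := abs_le.mp (le_sub_iff_add_le.mpr hc)
  rintro ⟨x, y, _ | _⟩ h
  · rw [tubeI, mem_RE_false] at h
    rw [boxE, mem_RE_false]
    omega
  · rw [tubeI, mem_RE_true] at h
    rw [boxE, mem_RE_true]
    omega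

theorem s1i_end_box {a ρ : ℕ} {c : ℤ} (hc : |c| + 20 * ρ ≤ a) :
    endI a ρ c ⊆ boxE a := by
  have hc1 := abs_le.mp (le_sub_iff_add_le.mpr hc)
  rintro ⟨x, y, _ | _⟩ h
  · rw [endI, Finset.mem_sdiff, mem_RE_false] at h
    rw [boxE, mem_RE_false]
    omega
  · rw [endI, Finset.mem_sdiff, mem_RE_true] at h
    rw [boxE, mem_RE_true]
    omega

theorem s1i_box_mono {a N : ℕ} (h : a ≤ N) : boxE a ⊆ boxE N := by
  rintro ⟨x, y, _ | _⟩ h1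
  · rw [boxE, mem_RE_false] at h1 ⊢
    omega
  · rw [boxE, mem_RE_true] at h1 ⊢
    omega

theorem s1i_SD {a N ρ : ℕ} {c : ℤ} (hc : |c| + 20 * ρ ≤ a) :
    Disjoint (An a N) (tubeI a ρ c) := by
  rw [Finset.disjoint_left]
  intro e h1 h2
  unfold An at h1
  exact (Finset.mem_sdiff.mp h1).2 (s1i_tube_box hc h2)

theorem s1i_Oo {a N ρ : ℕ} {c : ℤ} (hc : |c| + 20 * ρ ≤ a) (hN : a ≤ N) :
    Disjoint (endI a ρ c ∪ Rg N) (An a N ∪ tubeI a ρ c) := by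
  rw [Finset.disjoint_left]
  intro e h1 h2
  rw [Finset.mem_union] at h1 h2
  rcases h1 with h1 | h1
  · rcases h2 with h2 | h2
    · unfold An at h2
      exact (Finset.mem_sdiff.mp h2).2 (s1i_end_box hc h1)
    · unfold endI at h1
      exact (Finset.mem_sdiff.mp h1).2 h2
  · unfold Rg at h1
    have h3 := (Finset.mem_sdiff.mp h1).2
    rcases h2 with h2 | h2
    · unfold An at h2
      exact h3 (Finset.mem_sdiff.mp h2).1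
    · exact h3 (s1i_box_mono hN (s1i_tube_box hc h2))

theorem step1i_of
    (step_prob2 : ∀ {p : Edg → ℝ}, Ok p → ∀ {S D X Oo : Finset Edg},
      Disjoint S D → Disjoint X (S ∪ D ∪ Oo) → Disjoint Oo (S ∪ D) →
      ∀ {Z : Edg → ZMod 2} {x y : Vtx} {l : ℤ}, (∀ v, vb Z v = b2 (x = v) + b2 (y = v)) →
      ∀ {Wa Wb : Set Vtx}, (∀ w ∈ Wa, ∃ e, e ∉ S ∪ D ∪ Oo ∧ (dsrc e = w ∨ dtgt e = w)) →
      (∀ w ∈ Wa, ∃ f, corner x f ∧ DReach {e : Edg | e ∉ S ∪ D ∪ Oo} w f) →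
      (∀ w ∈ Wb, ∃ y', corner y' w ∧ Reach (↑Oo : Set Edg) y y') →
      Pr p (S ∪ D ∪ X) (fun F =>
          PotHyp (↑(S ∪ D ∪ Oo) : Set Edg) ↑D (↑F ∪ ↑Oo) Z l ∧
            ∃ w ∈ Wa, ∃ w' ∈ Wb, DReach (↑(S ∪ X) \ ↑F : Set Edg) w w') *
        Pr p (S ∪ D ∪ X) (fun F => ∀ a ∈ VD (↑D : Set Edg), ∀ b,
          DReach (↑((S ∪ D ∪ X) \ F) : Set Edg) a b → b ∈ ball a l) ≤
      Pr p (S ∪ D ∪ X) (fun F => Reach (((↑(S ∪ D) : Set Edg) ∩ ↑F) ∪ ↑Oo) x y ∧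
        ∃ w ∈ Wa, ∃ w' ∈ Wb, DReach (↑(S ∪ X) \ ↑F : Set Edg) w w'))
    (near_inR : ∀ {a N ρ r l : ℕ} {c : ℤ}, 1 ≤ l → 8 * l ≤ r → 16 * r ≤ ρ →
      |c| + 20 * ρ ≤ a → 2 * a ≤ N → ∀ {F : Set Edg}, Lvi a N ρ c F → Gdi a N ρ r l c F →
      ∀ {Z : Edg → ZMod 2},
      (∀ v, vb Z v = b2 ((((a:ℤ) - 14 * ρ, c) : Vtx) = v) + b2 ((((N:ℤ) + 1, 0) : Vtx) = v)) →
      PotHyp (↑(RI a N ρ c) : Set Edg) ↑(tubeI a ρ c) (F ∪ ↑(endI a ρ c ∪ Rg N)) Z l)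
    (in_face : ∀ {a N ρ : ℕ} {c : ℤ}, 1 ≤ ρ → |c| + 20 * ρ ≤ a → 2 * a ≤ N →
      ∀ {e : Edg}, e ∈ boxE a → e ∉ RI a N ρ c → ∀ {w : Vtx}, (dsrc e = w ∨ dtgt e = w) →
      DReach {e : Edg | e ∉ RI a N ρ c} w ((a:ℤ) - 14 * ρ - 1, c))
    (ring_vtx : ∀ {N : ℕ} {w : Vtx}, nb N w →
      ∃ y', corner y' w ∧ Reach (↑(Rg N) : Set Edg) ((N:ℤ) + 1, 0) y')
    (pass_vi : ∀ {a N ρ : ℕ} {c : ℤ}, 1 ≤ ρ → |c| + 20 * ρ ≤ a → 2 * a ≤ N →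
      ∀ {F : Set Edg}, Reach (((↑(An a N ∪ tubeI a ρ c) : Set Edg) ∩ F) ∪ ↑(endI a ρ c ∪ Rg N))
        ((a:ℤ) - 14 * ρ, c) ((N:ℤ) + 1, 0) → Tvi a N ρ c F)
    {κ : ℝ} {n : ℕ} (hW : H12S.Win (1 / 2) κ n) {a N ρ r l k : ℕ} {c : ℤ}
    (hl : 1 ≤ l) (hr : 32 * l ≤ r) (hρ : 16 * r ≤ ρ) (hk : ρ ≤ k * l) (hc : |c| + 20 * ρ ≤ a)
    (hN : 2 * a ≤ N) (hn : 2 * l ≤ n) {X : Finset Edg} (hX : Disjoint X (RI a N ρ c))
    {Wa : Set Vtx}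
    (hWa : ∀ w ∈ Wa, ∃ e ∈ boxE a, e ∉ RI a N ρ c ∧ (dsrc e = w ∨ dtgt e = w)) :
    H12S.PQ (1 / 2) (An a N ∪ tubeI a ρ c ∪ X) (fun F =>
        (Lvi a N ρ c ↑F ∧ Gdi a N ρ r (4 * l) c ↑F) ∧
        ∃ w ∈ Wa, ∃ w', nb N w' ∧ DReach (↑(An a N ∪ X) \ ↑F : Set Edg) w w') *
          κ ^ (4 * (2 * (6 * k) + 1) ^ 2) ≤
    H12S.PQ (1 / 2) (An a N ∪ tubeI a ρ c ∪ X) (fun F => Tvi a N ρ c ↑F ∧
        ∃ w ∈ Wa, ∃ w', nb N w' ∧ DReach (↑(An a N ∪ X) \ ↑F : Set Edg) w w') := by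
  have hp : Ok (fun _ : Edg => (1 / 2 : ℝ)) := okq (by norm_num) (by norm_num)
  have hρ1 : 1 ≤ ρ := by omega
  -- the chain
  obtain ⟨Z, _, hZ⟩ := chain_of_reach
    (((s1i_row ((a:ℤ) - 14 * ρ)).trans (s1i_col ((a:ℤ) - 14 * ρ) c)).symm.trans
      (s1i_row ((N:ℤ) + 1)))
  have hSD : Disjoint (An a N) (tubeI a ρ c) := s1i_SD hc
  have hOo : Disjoint (endI a ρ c ∪ Rg N) (An a N ∪ tubeI a ρ c) := s1i_Oo hc (by omega)
  have hmain := step_prob2 hp hSD hX hOo (Z := Z) (x := (((a:ℤ) - 14 * ρ, c) : Vtx))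
    (y := (((N:ℤ) + 1, 0) : Vtx)) (l := ((4 * l : ℕ) : ℤ)) hZ (Wa := Wa) (Wb := {w | nb N w})
    (fun w hw => by
      obtain ⟨e, _, h2, h3⟩ := hWa w hw
      exact ⟨e, h2, h3⟩)
    (fun w hw => by
      obtain ⟨e, h1, h2, h3⟩ := hWa w hw
      exact ⟨((a:ℤ) - 14 * ρ - 1, c), ⟨Or.inr rfl, Or.inl rfl⟩, in_face hρ1 hc hN h1 h2 h3⟩)
    (fun w hw => by
      obtain ⟨y', h1, h2⟩ := ring_vtx hw
      exact ⟨y', h1, h2.mono (by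
        intro e he
        rw [Finset.mem_coe, Finset.mem_union]
        exact Or.inr he)⟩)
  -- first factor
  have h1 : H12S.PQ (1 / 2) (An a N ∪ tubeI a ρ c ∪ X) (fun F =>
        (Lvi a N ρ c ↑F ∧ Gdi a N ρ r (4 * l) c ↑F) ∧
        ∃ w ∈ Wa, ∃ w', nb N w' ∧ DReach (↑(An a N ∪ X) \ ↑F : Set Edg) w w') ≤
      Pr (fun _ => (1 / 2 : ℝ)) (An a N ∪ tubeI a ρ c ∪ X) (fun F =>
        PotHyp (↑(An a N ∪ tubeI a ρ c ∪ (endI a ρ c ∪ Rg N)) : Set Edg) ↑(tubeI a ρ c)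
          (↑F ∪ ↑(endI a ρ c ∪ Rg N)) Z ((4 * l : ℕ) : ℤ) ∧
          ∃ w ∈ Wa, ∃ w' ∈ {w | nb N w}, DReach (↑(An a N ∪ X) \ ↑F : Set Edg) w w') := by
    apply Pr_mono hp
    rintro F _ ⟨⟨hv, hG⟩, hw⟩
    exact ⟨near_inR (l := 4 * l) (by omega) (by omega) hρ hc hN hv hG hZ, hw⟩
  -- second factor
  have h2 : κ ^ (4 * (2 * (6 * k) + 1) ^ 2) ≤
      Pr (fun _ => (1 / 2 : ℝ)) (An a N ∪ tubeI a ρ c ∪ X) (fun F =>
        ∀ v ∈ VD (↑(tubeI a ρ c) : Set Edg), ∀ b,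
          DReach (↑((An a N ∪ tubeI a ρ c ∪ X) \ F) : Set Edg) v b →
            b ∈ ball v ((4 * l : ℕ) : ℤ)) := by
    refine (H12S.trap_prob hW (N := 6 * k) hl hn ((a:ℤ) - 5 * ρ) c
      (An a N ∪ tubeI a ρ c ∪ X)).2.trans (Pr_mono hp ?_)
    intro F _ hF v hv b hab
    have hN : 6 * ρ ≤ 6 * k * l := by
      calc 6 * ρ ≤ 6 * (k * l) := Nat.mul_le_mul_left _ hk
        _ = 6 * k * l := by ring
    have hin := s1i_VD (N := 6 * k * l) hρ1 hN hv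
    push_cast at hin
    have := hF v b (by push_cast; exact hin) hab
    unfold ball
    refine ⟨?_, ?_⟩
    · rw [abs_sub_comm]; push_cast; exact this.1
    · rw [abs_sub_comm]; push_cast; exact this.2
  -- conclusion
  have hnn := Pr_nonneg hp (An a N ∪ tubeI a ρ c ∪ X) (fun F =>
        (Lvi a N ρ c ↑F ∧ Gdi a N ρ r (4 * l) c ↑F) ∧
        ∃ w ∈ Wa, ∃ w', nb N w' ∧ DReach (↑(An a N ∪ X) \ ↑F : Set Edg) w w')
  have hκ : 0 ≤ κ ^ (4 * (2 * (6 * k) + 1) ^ 2) := pow_nonneg hW.kpos.le _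
  refine (mul_le_mul h1 h2 hκ (hnn.trans h1)).trans (hmain.trans (Pr_mono hp ?_))
  rintro F _ ⟨hR, hw⟩
  exact ⟨pass_vi hρ1 hc hN hR, hw⟩

end H985T
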