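import Pool.Agent.H985R3.TA.Defs2
import Pool.Agent.H12R2.Sep.TrapP
import Pool.Agent.H974R2.Plan4

/-!
Two-arm project: assembly of the separation step in dual coordinates, from the statements of the
other tasks (taken as hypotheses).
-/

set_option autoImplicit false

namespace H985T

open H974 Finset

/-! ### duality bookkeeping -/

theorem SII_dmp_union (A B : Finset Edg) : dmp (A ∪ B) = dmp A ∪ dmp B := by
  unfold dmp; rw [Finset.map_union]

theorem SII_dl_mem {A : Finset Edg} {e : Edg} : dl e ∈ dmp A ↔ e ∈ A := by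
  rw [mem_dmp, Equiv.symm_apply_apply]

theorem SII_dmp_disj {A B : Finset Edg} (h : Disjoint A B) : Disjoint (dmp A) (dmp B) := by
  unfold dmp
  rw [Finset.disjoint_map]
  exact h

theorem SII_dsrc_dl (e : Edg) : dsrc (dl e) = ((src e).1 - 1, (src e).2 - 1) := by
  obtain ⟨x, y, _ | _⟩ := e
  · simp
  · simp

theorem SII_dtgt_dl (e : Edg) : dtgt (dl e) = ((tgt e).1 - 1, (tgt e).2 - 1) := by
  obtain ⟨x, y, _ | _⟩ := e
  · simp
  · simp

/-- the shift from primal vertices to the faces of the dual lattice -/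
def SII_sh (v : Vtx) : Vtx := (v.1 - 1, v.2 - 1)

theorem SII_sh_inj {u v : Vtx} (h : SII_sh u = SII_sh v) : u = v := by
  obtain ⟨a, b⟩ := u
  obtain ⟨c, d⟩ := v
  simp only [SII_sh, Prod.mk.injEq] at h ⊢
  omega

theorem SII_dadj {G : Set Edg} {u v : Vtx} : DAdj (dl '' G) (SII_sh u) (SII_sh v) ↔ Adj G u v := by
  constructor
  · rintro ⟨e, ⟨e', he', rfl⟩, h⟩
    rw [SII_dsrc_dl, SII_dtgt_dl] at h
    refine ⟨e', he', ?_⟩
    rcases h with ⟨h1, h2⟩ | ⟨h1, h2⟩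
    · exact Or.inl ⟨SII_sh_inj h1, SII_sh_inj h2⟩
    · exact Or.inr ⟨SII_sh_inj h1, SII_sh_inj h2⟩
  · rintro ⟨e, he, h⟩
    refine ⟨dl e, Set.mem_image_of_mem _ he, ?_⟩
    rw [SII_dsrc_dl, SII_dtgt_dl]
    rcases h with ⟨h1, h2⟩ | ⟨h1, h2⟩
    · exact Or.inl ⟨by rw [h1]; rfl, by rw [h2]; rfl⟩
    · exact Or.inr ⟨by rw [h1]; rfl, by rw [h2]; rfl⟩

theorem SII_sh_surj (w : Vtx) : SII_sh (w.1 + 1, w.2 + 1) = w := by
  simp [SII_sh]

theorem SII_dreach {G : Set Edg} {u v : Vtx} :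
    DReach (dl '' G) (SII_sh u) (SII_sh v) ↔ Reach G u v := by
  constructor
  · intro h
    have key : ∀ w, DReach (dl '' G) (SII_sh u) w → Reach G u (w.1 + 1, w.2 + 1) := by
      intro w hw
      induction hw with
      | refl =>
        have : ((SII_sh u).1 + 1, (SII_sh u).2 + 1) = u := SII_sh_inj (SII_sh_surj _)
        rw [this]
        exact Reach.refl _ _
      | @tail b c _ hs ih =>
        refine ih.trans ?_
        apply Adj.reach
        rw [← SII_dadj, SII_sh_surj, SII_sh_surj]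
        exact hs
    have h1 := key _ h
    have : ((SII_sh v).1 + 1, (SII_sh v).2 + 1) = v := SII_sh_inj (SII_sh_surj _)
    rwa [this] at h1
  · intro h
    induction h with
    | refl => exact DReach.refl _ _
    | tail _ hs ih => exact ih.trans (SII_dadj.mpr hs).reach

/-! ### the full lattice is connected -/

theorem SII_univ_h (a b : ℤ) (n : ℕ) : Reach (Set.univ : Set Edg) (a, b) (a + n, b) := by
  induction n with
  | zero => simpa using Reach.refl (Set.univ : Set Edg) (a, b)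
  | succ n ih =>
    refine ih.trans (Adj.reach ⟨(a + n, b, true), Set.mem_univ _, Or.inl ⟨rfl, ?_⟩⟩)
    rw [tgt_true]
    push_cast
    rw [add_assoc]

theorem SII_univ_v (a b : ℤ) (n : ℕ) : Reach (Set.univ : Set Edg) (a, b) (a, b + n) := by
  induction n with
  | zero => simpa using Reach.refl (Set.univ : Set Edg) (a, b)
  | succ n ih =>
    refine ih.trans (Adj.reach ⟨(a, b + n, false), Set.mem_univ _, Or.inl ⟨rfl, ?_⟩⟩)
    rw [tgt_false]
    push_cast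
    rw [add_assoc]

theorem SII_univ (u v : Vtx) : Reach (Set.univ : Set Edg) u v := by
  obtain ⟨a, b⟩ := u
  obtain ⟨c, d⟩ := v
  have h1 : Reach (Set.univ : Set Edg) (a, b) (c, b) := by
    rcases le_total a c with h | h
    · obtain ⟨n, hn⟩ := Int.eq_ofNat_of_zero_le (sub_nonneg.mpr h)
      have : c = a + n := by omega
      rw [this]
      exact SII_univ_h a b n
    · obtain ⟨n, hn⟩ := Int.eq_ofNat_of_zero_le (sub_nonneg.mpr h)
      have : a = c + n := by omega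
      rw [this]
      exact (SII_univ_h c b n).symm
  have h2 : Reach (Set.univ : Set Edg) (c, b) (c, d) := by
    rcases le_total b d with h | h
    · obtain ⟨n, hn⟩ := Int.eq_ofNat_of_zero_le (sub_nonneg.mpr h)
      have : d = b + n := by omega
      rw [this]
      exact SII_univ_v c b n
    · obtain ⟨n, hn⟩ := Int.eq_ofNat_of_zero_le (sub_nonneg.mpr h)
      have : b = d + n := by omega
      rw [this]
      exact (SII_univ_v c d n).symm
  exact h1.trans h2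

theorem SII_compl (S : Finset Edg) (A : Finset Edg → Prop) :
    Pr (fun _ => (1 / 2 : ℝ)) S (fun F => A (S \ F)) = Pr (fun _ => (1 / 2 : ℝ)) S A := by
  have h := Pr_compl (fun _ : Edg => (1 / 2 : ℝ)) S A
  rw [← h]
  congr 1
  funext e
  norm_num

/-- the law of the dual configuration -/
theorem SII_dual (S : Finset Edg) (A : Finset Edg → Prop) :
    Pr (fun _ => (1 / 2 : ℝ)) S (fun F => A (dmp (S \ F))) = Pr (fun _ => (1 / 2 : ℝ)) (dmp S) A := by
  rw [pr_dmp]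
  exact SII_compl S (fun F => A (dmp F))

/-- the set of the edges of the region of the extension step -/
noncomputable def SII_RO (m ρ : ℕ) (c : ℤ) : Finset Edg := boxE m ∪ tubeD m ρ c ∪ endE m ρ c

theorem SII_disj1 (m ρ : ℕ) (c : ℤ) : Disjoint (boxE m) (tubeD m ρ c) := by
  unfold tubeD
  exact Finset.disjoint_sdiff

theorem SII_disj2 {m ρ : ℕ} {c : ℤ} (_hρ : 1 ≤ ρ) :
    Disjoint (endE m ρ c) (boxE m ∪ tubeD m ρ c) := by
  rw [Finset.disjoint_left]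
  rintro ⟨x, y, b⟩ h1 h2
  unfold endE at h1
  rw [Finset.mem_sdiff] at h1
  rw [Finset.mem_union] at h2
  rcases h2 with h2 | h2
  · unfold boxE at h2
    cases b
    · rw [mem_RE_false] at h1 h2
      omega
    · rw [mem_RE_true] at h1 h2
      omega
  · unfold tubeD at h2
    rw [Finset.mem_sdiff] at h2
    exact h1.2 h2.1

theorem step2_of
    -- PST
    (step_prob : ∀ {p : Edg → ℝ} (_ : Ok p) {S D X Oo : Finset Edg}
      (_ : Disjoint S D) (_ : Disjoint X (S ∪ D ∪ Oo)) (_ : Disjoint Oo (S ∪ D))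
      {Z : Edg → ZMod 2} {x y f g : Vtx} {l : ℤ}
      (_ : ∀ v, vb Z v = b2 (x = v) + b2 (y = v)) (_ : corner x f) (_ : corner y g)
      (_ : ∀ e, e ∉ S ∪ D ∪ Oo → ∀ e', e' ∉ S ∪ D ∪ Oo →
        DReach {e : Edg | e ∉ S ∪ D ∪ Oo} (dtgt e) (dtgt e'))
      (_ : ∃ e, e ∉ S ∪ D ∪ Oo ∧ (dsrc e = g ∨ dtgt e = g))
      {Ws : Set Vtx} (_ : ∀ w ∈ Ws, ∃ e, e ∉ S ∪ D ∪ Oo ∧ (dsrc e = w ∨ dtgt e = w)),
      Pr p (S ∪ D ∪ X) (fun F =>
          PotHyp (↑(S ∪ D ∪ Oo) : Set Edg) ↑D (↑F ∪ ↑Oo) Z l ∧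
            ∃ w ∈ Ws, DReach (↑(S ∪ X) \ ↑F : Set Edg) f w) *
        Pr p (S ∪ D ∪ X) (fun F => ∀ a ∈ VD (↑D : Set Edg), ∀ b,
          DReach (↑((S ∪ D ∪ X) \ F) : Set Edg) a b → b ∈ ball a l) ≤
      Pr p (S ∪ D ∪ X) (fun F => Reach (((↑(S ∪ D) : Set Edg) ∩ ↑F) ∪ ↑Oo) x y ∧
        ∃ w ∈ Ws, DReach (↑(S ∪ X) \ ↑F : Set Edg) f w))
    -- OUT
    (out_vtx : ∀ {m ρ : ℕ} {c : ℤ} (_ : 1 ≤ ρ) (_ : |c| + 4 * ρ ≤ m) (e e' : Edg)
      (_ : e ∉ SII_RO m ρ c) (_ : e' ∉ SII_RO m ρ c),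
      Reach {e : Edg | e ∉ SII_RO m ρ c} (tgt e) (tgt e'))
    -- NR2
    (near_dual : ∀ {m ρ r l : ℕ} {c : ℤ} (_ : 1 ≤ l) (_ : 8 * l ≤ r) (_ : 16 * r ≤ ρ)
      (_ : |c| + 4 * ρ ≤ m) {F : Set Edg} {f : Vtx} (_ : corner (0, 0) f) (_ : Lf m ρ c f F)
      (_ : Gp m ρ r l c F) {Fs : Set Edg} (_ : ∀ e ∈ boxE m, (dl e ∈ Fs ↔ e ∉ F))
      {Z : Edg → ZMod 2}
      (_ : ∀ v, vb Z v = b2 (f = v) + b2 ((((m:ℤ) + 14 * ρ, c) : Vtx) = v)),
      PotHyp (↑(dmp (SII_RO m ρ c)) : Set Edg) ↑(dmp (tubeD m ρ c)) (Fs ∪ ↑(dmp (endE m ρ c))) Z l)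
    -- PAS
    (pass_f : ∀ {m ρ : ℕ} {c : ℤ} (_ : 1 ≤ ρ) {f : Vtx} (_ : corner (0, 0) f) {F : Set Edg}
      (_ : DReach ((↑(boxE m ∪ tubeD m ρ c) : Set Edg) \ F ∪ ↑(endE m ρ c)) f
        ((m:ℤ) + 14 * ρ, c)), Tf m ρ c f F)
    {κ : ℝ} {n : ℕ} (hW : H12S.Win (1 / 2) κ n) {m ρ r l k : ℕ} {c : ℤ} (hl : 1 ≤ l)
    (hr : 32 * l ≤ r) (hρ : 16 * r ≤ ρ) (hk : ρ ≤ k * l) (hc : |c| + 4 * ρ ≤ m) (hn : 2 * l ≤ n)
    {f : Vtx} (hf : corner (0, 0) f) {X : Finset Edg} (hX : Disjoint X (SII_RO m ρ c))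
    {Zs : Set Vtx} (hZs : ∀ z ∈ Zs, ∃ e, e ∉ SII_RO m ρ c ∧ (src e = z ∨ tgt e = z)) :
    H12S.PQ (1 / 2) (boxE m ∪ tubeD m ρ c ∪ X) (fun F => (Lf m ρ c f ↑F ∧ Gp m ρ r (4 * l) c ↑F) ∧
        ∃ z ∈ Zs, Reach (↑F ∩ ↑(boxE m ∪ X) : Set Edg) (0, 0) z) *
          κ ^ (4 * (2 * (6 * k) + 1) ^ 2) ≤
    H12S.PQ (1 / 2) (boxE m ∪ tubeD m ρ c ∪ X) (fun F => Tf m ρ c f ↑F ∧
        ∃ z ∈ Zs, Reach (↑F ∩ ↑(boxE m ∪ X) : Set Edg) (0, 0) z) := by
  have hρ1 : 1 ≤ ρ := by omega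
  have hOk : Ok (fun _ : Edg => (1 / 2 : ℝ)) := okq (by norm_num) (by norm_num)
  set U := boxE m ∪ tubeD m ρ c ∪ X with hU
  have hUd : dmp (boxE m) ∪ dmp (tubeD m ρ c) ∪ dmp X = dmp U := by
    rw [hU, SII_dmp_union, SII_dmp_union]
  have hOd : dmp (boxE m) ∪ dmp (tubeD m ρ c) ∪ dmp (endE m ρ c) = dmp (SII_RO m ρ c) := by
    unfold SII_RO
    rw [SII_dmp_union, SII_dmp_union]
  -- a chain
  obtain ⟨Z, -, hZ⟩ := chain_of_reach (SII_univ f ((m:ℤ) + 14 * ρ, c))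
  -- the target sets
  set Ws : Set Vtx := SII_sh '' Zs with hWs
  have hstep := step_prob hOk (S := dmp (boxE m)) (D := dmp (tubeD m ρ c)) (X := dmp X)
    (Oo := dmp (endE m ρ c)) (SII_dmp_disj (SII_disj1 m ρ c))
    (by rw [hOd]; exact SII_dmp_disj hX)
    (by rw [← SII_dmp_union]; exact SII_dmp_disj (SII_disj2 hρ1))
    (Z := Z) (x := f) (y := ((m:ℤ) + 14 * ρ, c)) (f := (-1, -1)) (g := ((m:ℤ) + 14 * ρ, c - 1))
    (l := ((4 * l : ℕ) : ℤ)) hZ
    (by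
      unfold corner at hf ⊢
      simp only at hf ⊢
      omega)
    ⟨Or.inl rfl, Or.inr rfl⟩
    (by
      rw [hOd]
      intro e he e' he'
      have h1 : dl.symm e ∉ SII_RO m ρ c := by rwa [mem_dmp] at he
      have h2 : dl.symm e' ∉ SII_RO m ρ c := by rwa [mem_dmp] at he'
      have h3 := out_vtx hρ1 hc _ _ h1 h2
      have h4 := SII_dreach.mpr h3
      have h5 : SII_sh (tgt (dl.symm e)) = dtgt e := by
        have := SII_dtgt_dl (dl.symm e)
        rw [Equiv.apply_symm_apply] at this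
        exact this.symm
      have h6 : SII_sh (tgt (dl.symm e')) = dtgt e' := by
        have := SII_dtgt_dl (dl.symm e')
        rw [Equiv.apply_symm_apply] at this
        exact this.symm
      rw [h5, h6] at h4
      refine h4.mono ?_
      rintro _ ⟨e'', he'', rfl⟩
      show dl e'' ∉ dmp (SII_RO m ρ c)
      rw [SII_dl_mem]
      exact he'')
    (by
      rw [hOd]
      refine ⟨dl ((m:ℤ) + 14 * ρ + 1, c, true), ?_, Or.inl ?_⟩
      · rw [SII_dl_mem]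
        unfold SII_RO tubeD endE tube boxE
        simp only [Finset.mem_union, Finset.mem_sdiff, if_true, mem_RE_true]
        omega
      · rw [SII_dsrc_dl]
        simp)
    (Ws := Ws)
    (by
      rw [hOd]
      rintro _ ⟨z, hz, rfl⟩
      obtain ⟨e, he, hez⟩ := hZs z hz
      refine ⟨dl e, by rwa [SII_dl_mem], ?_⟩
      rw [SII_dsrc_dl, SII_dtgt_dl]
      rcases hez with h | h
      · left; rw [h]; rfl
      · right; rw [h]; rfl)
  rw [hUd, hOd] at hstep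
  -- translation of the event of the second arm
  have harm : ∀ F, F ⊆ U → ((∃ w ∈ Ws, DReach (↑(dmp (boxE m) ∪ dmp X) \ ↑(dmp (U \ F)) : Set Edg) (-1, -1) w) ↔
      ∃ z ∈ Zs, Reach (↑F ∩ ↑(boxE m ∪ X) : Set Edg) (0, 0) z) := by
    intro F hF
    have hset : (↑(dmp (boxE m) ∪ dmp X) \ ↑(dmp (U \ F)) : Set Edg) = 
        dl '' (↑F ∩ ↑(boxE m ∪ X) : Set Edg) := by
      ext e
      simp only [Set.mem_sdiff, Finset.mem_coe, Set.mem_image, Set.mem_inter_iff]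
      constructor
      · rintro ⟨h1, h2⟩
        rw [← SII_dmp_union, mem_dmp] at h1
        rw [mem_dmp, Finset.mem_sdiff] at h2
        push Not at h2
        refine ⟨dl.symm e, ⟨h2 ?_, h1⟩, Equiv.apply_symm_apply _ _⟩
        rw [hU]
        rw [Finset.mem_union] at h1
        rw [Finset.mem_union, Finset.mem_union]
        rcases h1 with h | h
        · exact Or.inl (Or.inl h)
        · exact Or.inr h
      · rintro ⟨e', ⟨h1, h2⟩, rfl⟩
        rw [← SII_dmp_union, SII_dl_mem, SII_dl_mem]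
        refine ⟨h2, ?_⟩
        rw [Finset.mem_sdiff]
        exact fun h => h.2 h1
    have h11 : ((-1, -1) : Vtx) = SII_sh (0, 0) := by simp [SII_sh]
    rw [hset, h11]
    constructor
    · rintro ⟨_, ⟨z, hz, rfl⟩, h⟩
      exact ⟨z, hz, SII_dreach.mp h⟩
    · rintro ⟨z, hz, h⟩
      exact ⟨_, ⟨z, hz, rfl⟩, SII_dreach.mpr h⟩
  -- the trap event
  have htrap : κ ^ (4 * (2 * (6 * k) + 1) ^ 2) ≤ Pr (fun _ => (1/2 : ℝ)) (dmp U)
      (fun F => ∀ a ∈ VD (↑(dmp (tubeD m ρ c)) : Set Edg), ∀ b,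
        DReach (↑(dmp U \ F) : Set Edg) a b → b ∈ ball a ((4 * l : ℕ) : ℤ)) := by
    refine ((H12S.trap_prob hW hl hn ((m:ℤ) + 5 * ρ) c (N := 6 * k) (dmp U)).2).trans ?_
    apply Pr_mono hOk
    intro F hF h a ha b hab
    have hin : H974.inR ((m:ℤ) + 5 * ρ - (6 * k : ℕ) * l) ((m:ℤ) + 5 * ρ + (6 * k : ℕ) * l)
        (c - (6 * k : ℕ) * l) (c + (6 * k : ℕ) * l) a := by
      have hkl : ((ρ : ℕ) : ℤ) ≤ (k : ℤ) * l := by exact_mod_cast hk
      have h6 : ((6 * k : ℕ) : ℤ) * l = 6 * ((k : ℤ) * l) := by push_cast; ring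
      rw [h6]
      obtain ⟨e, he, hea⟩ := ha
      rw [Finset.mem_coe, mem_dmp] at he
      have hed : e = dl (dl.symm e) := (Equiv.apply_symm_apply _ _).symm
      set e' := dl.symm e
      unfold tubeD tube at he
      rw [Finset.mem_sdiff] at he
      have he1 := he.1
      simp only [if_true] at he1
      obtain ⟨x, y, bo⟩ := e'
      rw [hed] at hea
      rw [SII_dsrc_dl, SII_dtgt_dl] at hea
      set t := (k : ℤ) * l with ht
      cases bo
      · rw [mem_RE_false] at he1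
        simp only [src_mk, tgt_false] at hea
        rcases hea with h | h
        · rw [← h]; refine ⟨⟨?_, ?_⟩, ?_, ?_⟩ <;> simp only <;> push_cast at he1 <;> omega
        · rw [← h]; refine ⟨⟨?_, ?_⟩, ?_, ?_⟩ <;> simp only <;> push_cast at he1 <;> omega
      · rw [mem_RE_true] at he1
        simp only [src_mk, tgt_true] at hea
        rcases hea with h | h
        · rw [← h]; refine ⟨⟨?_, ?_⟩, ?_, ?_⟩ <;> simp only <;> push_cast at he1 <;> omega
        · rw [← h]; refine ⟨⟨?_, ?_⟩, ?_, ?_⟩ <;> simp only <;> push_cast at he1 <;> omega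
    obtain ⟨h1, h2⟩ := h a b hin hab
    refine ⟨?_, ?_⟩
    · rw [abs_sub_comm]; push_cast; exact h1
    · rw [abs_sub_comm]; push_cast; exact h2
  -- lower bound of the first factor
  have hA : H12S.PQ (1 / 2) U (fun F => (Lf m ρ c f ↑F ∧ Gp m ρ r (4 * l) c ↑F) ∧
        ∃ z ∈ Zs, Reach (↑F ∩ ↑(boxE m ∪ X) : Set Edg) (0, 0) z) ≤
      Pr (fun _ => (1/2 : ℝ)) (dmp U) (fun F =>
          PotHyp (↑(dmp (SII_RO m ρ c)) : Set Edg) ↑(dmp (tubeD m ρ c)) (↑F ∪ ↑(dmp (endE m ρ c))) Z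
            ((4 * l : ℕ) : ℤ) ∧
            ∃ w ∈ Ws, DReach (↑(dmp (boxE m) ∪ dmp X) \ ↑F : Set Edg) (-1, -1) w) := by
    rw [← SII_dual]
    apply Pr_mono hOk
    rintro F hF ⟨⟨h1, h2⟩, h3⟩
    refine ⟨?_, (harm F hF).mpr h3⟩
    refine near_dual (by omega) (by omega) hρ hc hf h1 h2 ?_ hZ
    intro e he
    rw [Finset.mem_coe, SII_dl_mem, Finset.mem_sdiff]
    constructor
    · intro h; exact h.2
    · intro h
      refine ⟨?_, h⟩
      rw [hU, Finset.mem_union, Finset.mem_union]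
      exact Or.inl (Or.inl he)
  -- upper bound of the right side
  have hB : Pr (fun _ => (1/2 : ℝ)) (dmp U) (fun F =>
      Reach (((↑(dmp (boxE m) ∪ dmp (tubeD m ρ c)) : Set Edg) ∩ ↑F) ∪ ↑(dmp (endE m ρ c))) f
        ((m:ℤ) + 14 * ρ, c) ∧
        ∃ w ∈ Ws, DReach (↑(dmp (boxE m) ∪ dmp X) \ ↑F : Set Edg) (-1, -1) w) ≤
      H12S.PQ (1 / 2) U (fun F => Tf m ρ c f ↑F ∧
        ∃ z ∈ Zs, Reach (↑F ∩ ↑(boxE m ∪ X) : Set Edg) (0, 0) z) := by
    rw [← SII_dual]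
    apply Pr_mono hOk
    rintro F hF ⟨h1, h2⟩
    refine ⟨?_, (harm F hF).mp h2⟩
    apply pass_f hρ1 hf
    rw [← reach_dl]
    refine h1.mono ?_
    rintro e (⟨he1, he2⟩ | he)
    · rw [Finset.mem_coe, ← SII_dmp_union, mem_dmp] at he1
      rw [Finset.mem_coe, mem_dmp, Finset.mem_sdiff] at he2
      refine ⟨dl.symm e, Or.inl ⟨he1, he2.2⟩, Equiv.apply_symm_apply _ _⟩
    · rw [Finset.mem_coe, mem_dmp] at he
      exact ⟨dl.symm e, Or.inr he, Equiv.apply_symm_apply _ _⟩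
  exact (mul_le_mul hA htrap (pow_nonneg hW.kpos.le _) (Pr_nonneg hOk _ _)).trans (hstep.trans hB)

end H985T
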