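import Pool.Agent.H985R3.TA.Defs4
import Pool.Agent.H985R3.TA.SIIof

/-!
S2I (helper666): the inward separation step in dual coordinates, from the statements of the other
tasks (taken as hypotheses).
-/

set_option autoImplicit false

namespace H985T

open H974 Finset

theorem s2i_box_le {a N : ℕ} (h : a ≤ N) : boxE a ⊆ boxE N := by
  rintro ⟨x, y, b⟩ he
  unfold boxE at he ⊢
  cases b
  · rw [mem_RE_false] at he ⊢; omega
  · rw [mem_RE_true] at he ⊢; omega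

theorem s2i_tube_sub {a ρ : ℕ} {c : ℤ} (hρ : 1 ≤ ρ) (hc : |c| + 20 * ρ ≤ a) :
    tubeI a ρ c ⊆ boxE a := by
  have h1 := neg_abs_le c
  have h2 := le_abs_self c
  rintro ⟨x, y, b⟩ he
  unfold tubeI at he
  unfold boxE
  cases b
  · rw [mem_RE_false] at he ⊢; omega
  · rw [mem_RE_true] at he ⊢; omega

theorem s2i_end_sub {a ρ : ℕ} {c : ℤ} (hρ : 1 ≤ ρ) (hc : |c| + 20 * ρ ≤ a) :
    endI a ρ c ⊆ boxE a := by
  have h1 := neg_abs_le c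
  have h2 := le_abs_self c
  rintro ⟨x, y, b⟩ he
  unfold endI at he
  replace he := (Finset.mem_sdiff.mp he).1
  unfold boxE
  cases b
  · rw [mem_RE_false] at he ⊢; omega
  · rw [mem_RE_true] at he ⊢; omega

theorem s2i_disj1 {a N ρ : ℕ} {c : ℤ} (hρ : 1 ≤ ρ) (hc : |c| + 20 * ρ ≤ a) :
    Disjoint (An a N) (tubeI a ρ c) := by
  rw [Finset.disjoint_left]
  intro e h1 h2
  unfold An at h1
  exact (Finset.mem_sdiff.mp h1).2 (s2i_tube_sub hρ hc h2)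

theorem s2i_disj2 {a N ρ : ℕ} {c : ℤ} (hρ : 1 ≤ ρ) (hc : |c| + 20 * ρ ≤ a) (hN : 2 * a ≤ N) :
    Disjoint (endI a ρ c ∪ Rg N) (An a N ∪ tubeI a ρ c) := by
  rw [Finset.disjoint_left]
  intro e h1 h2
  rw [Finset.mem_union] at h1 h2
  rcases h1 with h1 | h1
  · rcases h2 with h2 | h2
    · unfold An at h2
      exact (Finset.mem_sdiff.mp h2).2 (s2i_end_sub hρ hc h1)
    · unfold endI at h1
      exact (Finset.mem_sdiff.mp h1).2 h2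
  · unfold Rg at h1
    apply (Finset.mem_sdiff.mp h1).2
    rcases h2 with h2 | h2
    · unfold An at h2
      exact (Finset.mem_sdiff.mp h2).1
    · exact s2i_box_le (by omega) (s2i_tube_sub hρ hc h2)

theorem step2i_of
    -- PS2
    (step_prob2 : ∀ {p : Edg → ℝ} (_ : Ok p) {S D X Oo : Finset Edg}
      (_ : Disjoint S D) (_ : Disjoint X (S ∪ D ∪ Oo)) (_ : Disjoint Oo (S ∪ D))
      {Z : Edg → ZMod 2} {x y : Vtx} {l : ℤ} (_ : ∀ v, vb Z v = b2 (x = v) + b2 (y = v))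
      {Wa Wb : Set Vtx} (_ : ∀ w ∈ Wa, ∃ e, e ∉ S ∪ D ∪ Oo ∧ (dsrc e = w ∨ dtgt e = w))
      (_ : ∀ w ∈ Wa, ∃ f, corner x f ∧ DReach {e : Edg | e ∉ S ∪ D ∪ Oo} w f)
      (_ : ∀ w ∈ Wb, ∃ y', corner y' w ∧ Reach (↑Oo : Set Edg) y y'),
      Pr p (S ∪ D ∪ X) (fun F =>
          PotHyp (↑(S ∪ D ∪ Oo) : Set Edg) ↑D (↑F ∪ ↑Oo) Z l ∧
            ∃ w ∈ Wa, ∃ w' ∈ Wb, DReach (↑(S ∪ X) \ ↑F : Set Edg) w w') *
        Pr p (S ∪ D ∪ X) (fun F => ∀ a ∈ VD (↑D : Set Edg), ∀ b,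
          DReach (↑((S ∪ D ∪ X) \ F) : Set Edg) a b → b ∈ ball a l) ≤
      Pr p (S ∪ D ∪ X) (fun F => Reach (((↑(S ∪ D) : Set Edg) ∩ ↑F) ∪ ↑Oo) x y ∧
        ∃ w ∈ Wa, ∃ w' ∈ Wb, DReach (↑(S ∪ X) \ ↑F : Set Edg) w w'))
    -- NI2
    (near_inD : ∀ {a N ρ r l : ℕ} {c : ℤ} (_ : 1 ≤ l) (_ : 8 * l ≤ r) (_ : 16 * r ≤ ρ)
      (_ : |c| + 20 * ρ ≤ a) (_ : 2 * a ≤ N) {F : Set Edg} (_ : Lfi a N ρ c F)
      (_ : Gpi a N ρ r l c F) {Fs : Set Edg} (_ : ∀ e ∈ An a N, (dl e ∈ Fs ↔ e ∉ F))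
      {Z : Edg → ZMod 2}
      (_ : ∀ v, vb Z v = b2 ((((a:ℤ) - 14 * ρ - 1, c) : Vtx) = v) +
        b2 ((((N:ℤ) + 1, 0) : Vtx) = v)),
      PotHyp (↑(dmp (RI a N ρ c)) : Set Edg) ↑(dmp (tubeI a ρ c))
        (Fs ∪ ↑(dmp (endI a ρ c ∪ Rg N))) Z l)
    -- OUI
    (in_vtx : ∀ {a N ρ : ℕ} {c : ℤ} (_ : 1 ≤ ρ) (_ : |c| + 20 * ρ ≤ a) (_ : 2 * a ≤ N)
      {e : Edg} (_ : e ∈ boxE a) (_ : e ∉ RI a N ρ c) {w : Vtx} (_ : src e = w ∨ tgt e = w),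
      Reach {e : Edg | e ∉ RI a N ρ c} w ((a:ℤ) - 14 * ρ - 1, c))
    (ring_face : ∀ {N : ℕ} (_ : 1 ≤ N) {u : Vtx} (_ : onB N u),
      ∃ w, corner u w ∧ DReach (↑(Rg N) : Set Edg) ((N:ℤ) + 1, 0) w)
    -- PAI
    (pass_fi : ∀ {a N ρ : ℕ} {c : ℤ} (_ : 1 ≤ ρ) (_ : |c| + 20 * ρ ≤ a) (_ : 2 * a ≤ N)
      {F : Set Edg}
      (_ : DReach ((↑(An a N ∪ tubeI a ρ c) : Set Edg) \ F ∪ ↑(endI a ρ c ∪ Rg N))
        ((a:ℤ) - 14 * ρ - 1, c) ((N:ℤ) + 1, 0)), Tfi a N ρ c F)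
    {κ : ℝ} {n : ℕ} (hW : H12S.Win (1 / 2) κ n) {a N ρ r l k : ℕ} {c : ℤ}
    (hl : 1 ≤ l) (hr : 32 * l ≤ r) (hρ : 16 * r ≤ ρ) (hk : ρ ≤ k * l) (hc : |c| + 20 * ρ ≤ a)
    (hN : 2 * a ≤ N) (hn : 2 * l ≤ n) {X : Finset Edg} (hX : Disjoint X (RI a N ρ c))
    {Za : Set Vtx}
    (hZa : ∀ z ∈ Za, ∃ e ∈ boxE a, e ∉ RI a N ρ c ∧ (src e = z ∨ tgt e = z)) :
    H12S.PQ (1 / 2) (An a N ∪ tubeI a ρ c ∪ X) (fun F =>
        (Lfi a N ρ c ↑F ∧ Gpi a N ρ r (4 * l) c ↑F) ∧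
        ∃ z ∈ Za, ∃ u', onB N u' ∧ Reach (↑F ∩ ↑(An a N ∪ X) : Set Edg) z u') *
          κ ^ (4 * (2 * (6 * k) + 1) ^ 2) ≤
    H12S.PQ (1 / 2) (An a N ∪ tubeI a ρ c ∪ X) (fun F => Tfi a N ρ c ↑F ∧
        ∃ z ∈ Za, ∃ u', onB N u' ∧ Reach (↑F ∩ ↑(An a N ∪ X) : Set Edg) z u') := by
  have hρ1 : 1 ≤ ρ := by omega
  have hcabs := abs_nonneg c
  have hN1 : 1 ≤ N := by omega
  have hOk : Ok (fun _ : Edg => (1 / 2 : ℝ)) := okq (by norm_num) (by norm_num)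
  set U := An a N ∪ tubeI a ρ c ∪ X with hU
  have hUd : dmp (An a N) ∪ dmp (tubeI a ρ c) ∪ dmp X = dmp U := by
    rw [hU, SII_dmp_union, SII_dmp_union]
  have hOd : dmp (An a N) ∪ dmp (tubeI a ρ c) ∪ dmp (endI a ρ c ∪ Rg N) = dmp (RI a N ρ c) := by
    unfold RI
    rw [SII_dmp_union (An a N ∪ tubeI a ρ c), SII_dmp_union (An a N)]
  -- a chain
  obtain ⟨Z, -, hZ⟩ := chain_of_reach
    (SII_univ (((a:ℤ) - 14 * ρ - 1, c) : Vtx) (((N:ℤ) + 1, 0) : Vtx))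
  -- the target sets
  set Wa : Set Vtx := SII_sh '' Za with hWa
  set Wb : Set Vtx := SII_sh '' {u' | onB N u'} with hWb
  have hstep := step_prob2 hOk (S := dmp (An a N)) (D := dmp (tubeI a ρ c)) (X := dmp X)
    (Oo := dmp (endI a ρ c ∪ Rg N)) (SII_dmp_disj (s2i_disj1 hρ1 hc))
    (by rw [hOd]; exact SII_dmp_disj hX)
    (by rw [← SII_dmp_union]; exact SII_dmp_disj (s2i_disj2 hρ1 hc hN))
    (Z := Z) (x := (((a:ℤ) - 14 * ρ - 1, c) : Vtx)) (y := (((N:ℤ) + 1, 0) : Vtx))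
    (l := ((4 * l : ℕ) : ℤ)) hZ (Wa := Wa) (Wb := Wb)
    (by
      rw [hOd]
      rintro _ ⟨z, hz, rfl⟩
      obtain ⟨e, -, he, hez⟩ := hZa z hz
      refine ⟨dl e, by rwa [SII_dl_mem], ?_⟩
      rw [SII_dsrc_dl, SII_dtgt_dl]
      rcases hez with h | h
      · left; rw [h]; rfl
      · right; rw [h]; rfl)
    (by
      rw [hOd]
      rintro _ ⟨z, hz, rfl⟩
      obtain ⟨e, hea, he, hez⟩ := hZa z hz
      have h3 := in_vtx hρ1 hc hN hea he hez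
      have h4 := SII_dreach.mpr h3
      refine ⟨SII_sh ((a:ℤ) - 14 * ρ - 1, c), ⟨Or.inr rfl, Or.inr rfl⟩, h4.mono ?_⟩
      rintro _ ⟨e'', he'', rfl⟩
      show dl e'' ∉ dmp (RI a N ρ c)
      rw [SII_dl_mem]
      exact he'')
    (by
      rintro _ ⟨u, hu, rfl⟩
      obtain ⟨w', hw1, hw2⟩ := ring_face hN1 hu
      refine ⟨w', ?_, ?_⟩
      · obtain ⟨h1, h2⟩ := hw1
        unfold corner SII_sh
        simp only
        omega
      · have h5 := reach_dl.mpr hw2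
        refine h5.mono ?_
        rintro _ ⟨e'', he'', rfl⟩
        rw [Finset.mem_coe, SII_dl_mem]
        exact Finset.mem_union_right _ he'')
  rw [hUd, hOd] at hstep
  -- translation of the event of the second arm
  have harm : ∀ F, F ⊆ U → ((∃ w ∈ Wa, ∃ w' ∈ Wb,
      DReach (↑(dmp (An a N) ∪ dmp X) \ ↑(dmp (U \ F)) : Set Edg) w w') ↔
      ∃ z ∈ Za, ∃ u', onB N u' ∧ Reach (↑F ∩ ↑(An a N ∪ X) : Set Edg) z u') := by
    intro F hF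
    have hset : (↑(dmp (An a N) ∪ dmp X) \ ↑(dmp (U \ F)) : Set Edg) =
        dl '' (↑F ∩ ↑(An a N ∪ X) : Set Edg) := by
      ext e
      simp only [Set.mem_sdiff, Finset.mem_coe, Set.mem_image, Set.mem_inter_iff]
      constructor
      · rintro ⟨h1, h2⟩
        rw [← SII_dmp_union, mem_dmp] at h1
        rw [mem_dmp, Finset.mem_sdiff] at h2
        push Not at h2
        refine ⟨dl.symm e, ⟨h2 ?_, h1⟩, Equiv.apply_symm_apply _ _⟩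
        rw [hU]
        rw [Finset.mem_union] at h1
        rw [Finset.mem_union, Finset.mem_union]
        rcases h1 with h | h
        · exact Or.inl (Or.inl h)
        · exact Or.inr h
      · rintro ⟨e', ⟨h1, h2⟩, rfl⟩
        rw [← SII_dmp_union, SII_dl_mem, SII_dl_mem]
        refine ⟨h2, ?_⟩
        rw [Finset.mem_sdiff]
        exact fun h => h.2 h1
    rw [hset]
    constructor
    · rintro ⟨_, ⟨z, hz, rfl⟩, _, ⟨u', hu', rfl⟩, h⟩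
      exact ⟨z, hz, u', hu', SII_dreach.mp h⟩
    · rintro ⟨z, hz, u', hu', h⟩
      exact ⟨_, ⟨z, hz, rfl⟩, _, ⟨u', hu', rfl⟩, SII_dreach.mpr h⟩
  -- the trap event
  have htrap : κ ^ (4 * (2 * (6 * k) + 1) ^ 2) ≤ Pr (fun _ => (1/2 : ℝ)) (dmp U)
      (fun F => ∀ a' ∈ VD (↑(dmp (tubeI a ρ c)) : Set Edg), ∀ b,
        DReach (↑(dmp U \ F) : Set Edg) a' b → b ∈ ball a' ((4 * l : ℕ) : ℤ)) := by
    refine ((H12S.trap_prob hW hl hn ((a:ℤ) - 5 * ρ) c (N := 6 * k) (dmp U)).2).trans ?_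
    apply Pr_mono hOk
    intro F hF h a' ha b hab
    have hin : H974.inR ((a:ℤ) - 5 * ρ - (6 * k : ℕ) * l) ((a:ℤ) - 5 * ρ + (6 * k : ℕ) * l)
        (c - (6 * k : ℕ) * l) (c + (6 * k : ℕ) * l) a' := by
      have hkl : ((ρ : ℕ) : ℤ) ≤ (k : ℤ) * l := by exact_mod_cast hk
      have h6 : ((6 * k : ℕ) : ℤ) * l = 6 * ((k : ℤ) * l) := by push_cast; ring
      rw [h6]
      obtain ⟨e, he, hea⟩ := ha
      rw [Finset.mem_coe, mem_dmp] at he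
      have hed : e = dl (dl.symm e) := (Equiv.apply_symm_apply _ _).symm
      set e' := dl.symm e
      unfold tubeI at he
      have he1 := he
      obtain ⟨x, y, bo⟩ := e'
      rw [hed] at hea
      rw [SII_dsrc_dl, SII_dtgt_dl] at hea
      set t := (k : ℤ) * l with ht
      cases bo
      · rw [mem_RE_false] at he1
        simp only [src_mk, tgt_false] at hea
        rcases hea with h | h
        · rw [← h]; refine ⟨⟨?_, ?_⟩, ?_, ?_⟩ <;> simp only <;> push_cast at he1 <;> omega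
        · rw [← h]; refine ⟨⟨?_, ?_⟩, ?_, ?_⟩ <;> simp only <;> push_cast at he1 <;> omega
      · rw [mem_RE_true] at he1
        simp only [src_mk, tgt_true] at hea
        rcases hea with h | h
        · rw [← h]; refine ⟨⟨?_, ?_⟩, ?_, ?_⟩ <;> simp only <;> push_cast at he1 <;> omega
        · rw [← h]; refine ⟨⟨?_, ?_⟩, ?_, ?_⟩ <;> simp only <;> push_cast at he1 <;> omega
    obtain ⟨h1, h2⟩ := h a' b hin hab
    refine ⟨?_, ?_⟩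
    · rw [abs_sub_comm]; push_cast; exact h1
    · rw [abs_sub_comm]; push_cast; exact h2
  -- lower bound of the first factor
  have hA : H12S.PQ (1 / 2) U (fun F => (Lfi a N ρ c ↑F ∧ Gpi a N ρ r (4 * l) c ↑F) ∧
        ∃ z ∈ Za, ∃ u', onB N u' ∧ Reach (↑F ∩ ↑(An a N ∪ X) : Set Edg) z u') ≤
      Pr (fun _ => (1/2 : ℝ)) (dmp U) (fun F =>
          PotHyp (↑(dmp (RI a N ρ c)) : Set Edg) ↑(dmp (tubeI a ρ c))
            (↑F ∪ ↑(dmp (endI a ρ c ∪ Rg N))) Z ((4 * l : ℕ) : ℤ) ∧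
            ∃ w ∈ Wa, ∃ w' ∈ Wb, DReach (↑(dmp (An a N) ∪ dmp X) \ ↑F : Set Edg) w w') := by
    rw [← SII_dual]
    apply Pr_mono hOk
    rintro F hF ⟨⟨h1, h2⟩, h3⟩
    refine ⟨?_, (harm F hF).mpr h3⟩
    refine near_inD (l := 4 * l) (by omega) (by omega) hρ hc hN h1 h2 ?_ hZ
    intro e he
    rw [Finset.mem_coe, SII_dl_mem, Finset.mem_sdiff]
    constructor
    · intro h; exact h.2
    · intro h
      refine ⟨?_, h⟩
      rw [hU, Finset.mem_union, Finset.mem_union]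
      exact Or.inl (Or.inl he)
  -- upper bound of the right side
  have hB : Pr (fun _ => (1/2 : ℝ)) (dmp U) (fun F =>
      Reach (((↑(dmp (An a N) ∪ dmp (tubeI a ρ c)) : Set Edg) ∩ ↑F) ∪ ↑(dmp (endI a ρ c ∪ Rg N)))
        (((a:ℤ) - 14 * ρ - 1, c) : Vtx) (((N:ℤ) + 1, 0) : Vtx) ∧
        ∃ w ∈ Wa, ∃ w' ∈ Wb, DReach (↑(dmp (An a N) ∪ dmp X) \ ↑F : Set Edg) w w') ≤
      H12S.PQ (1 / 2) U (fun F => Tfi a N ρ c ↑F ∧
        ∃ z ∈ Za, ∃ u', onB N u' ∧ Reach (↑F ∩ ↑(An a N ∪ X) : Set Edg) z u') := by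
    rw [← SII_dual]
    apply Pr_mono hOk
    rintro F hF ⟨h1, h2⟩
    refine ⟨?_, (harm F hF).mp h2⟩
    apply pass_fi hρ1 hc hN
    rw [← reach_dl]
    refine h1.mono ?_
    rintro e (⟨he1, he2⟩ | he)
    · rw [Finset.mem_coe, ← SII_dmp_union, mem_dmp] at he1
      rw [Finset.mem_coe, mem_dmp, Finset.mem_sdiff] at he2
      refine ⟨dl.symm e, Or.inl ⟨he1, he2.2⟩, Equiv.apply_symm_apply _ _⟩
    · rw [Finset.mem_coe, mem_dmp] at he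
      exact ⟨dl.symm e, Or.inr he, Equiv.apply_symm_apply _ _⟩
  exact (mul_le_mul hA htrap (pow_nonneg hW.kpos.le _) (Pr_nonneg hOk _ _)).trans (hstep.trans hB)

end H985T
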