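import Pool.Agent.H985R3.TA.Defs4
import Pool.Agent.H985R3.TA.SEL

/-!
# Two-arm project: selection of the starting places in the annulus (task SELI)
-/

set_option autoImplicit false

namespace H985T

open H974 Finset

theorem SELI_An {s : Fin 4} {a N : ℕ} {e : Edg} (he : e ∈ An a N) : (sy s).φ e ∈ An a N := by
  unfold An at he ⊢
  rw [Finset.mem_sdiff] at he ⊢
  refine ⟨SEL_box he.1, fun h => he.2 ?_⟩
  have h1 := SEL_box (s := s) h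
  have h3 : (sy s).φ ((sy s).φ e) = e := by
    obtain ⟨x, y, β⟩ := e
    rcases SEL_cases s with h | h | h | h <;> rw [h]
    · rfl
    · cases β <;> rfl
    · cases β <;> simp [sy2]
    · cases β <;> simp [sy3]
  rwa [h3] at h1

theorem SELI_reach {s : Fin 4} {a N : ℕ} {F : Set Edg} {u v : Vtx}
    (h : Reach (F ∩ ↑(An a N)) u v) :
    Reach ((sy s).φ '' F ∩ ↑(An a N)) ((sy s).ψ u) ((sy s).ψ v) := by
  refine ((sy s).toLSym.reach h).mono ?_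
  rintro _ ⟨e, ⟨he1, he2⟩, rfl⟩
  exact ⟨⟨e, he1, rfl⟩, Finset.mem_coe.mpr (SELI_An (Finset.mem_coe.mp he2))⟩

theorem SELI_dreach {s : Fin 4} {a N : ℕ} {F : Set Edg} {u v : Vtx}
    (h : DReach (↑(An a N) \ F) u v) :
    DReach (↑(An a N) \ (sy s).φ '' F) ((sy s).ψf u) ((sy s).ψf v) := by
  refine (SEL_dreach0 (sy s) h).mono ?_
  rintro _ ⟨e, ⟨he1, he2⟩, rfl⟩
  refine ⟨Finset.mem_coe.mpr (SELI_An (Finset.mem_coe.mp he1)), ?_⟩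
  rintro ⟨e', he', h⟩
  exact he2 ((sy s).φ.injective h ▸ he')

theorem SELI_nb {s : Fin 4} {N : ℕ} {w : Vtx} (hw : nb N w) : nb N ((sy s).ψf w) := by
  obtain ⟨x, y⟩ := w
  unfold nb at hw ⊢
  simp only at hw
  rcases SEL_cases s with h | h | h | h <;> rw [h]
  · exact hw
  · show ((y = (N:ℤ) ∨ y = -(N:ℤ) - 1) ∧ -(N:ℤ) ≤ x ∧ x < N) ∨
      ((x = (N:ℤ) ∨ x = -(N:ℤ) - 1) ∧ -(N:ℤ) ≤ y ∧ y < N)
    tauto
  · show ((-x - 1 = (N:ℤ) ∨ -x - 1 = -(N:ℤ) - 1) ∧ -(N:ℤ) ≤ -y - 1 ∧ -y - 1 < N) ∨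
      ((-y - 1 = (N:ℤ) ∨ -y - 1 = -(N:ℤ) - 1) ∧ -(N:ℤ) ≤ -x - 1 ∧ -x - 1 < N)
    omega
  · show ((-y - 1 = (N:ℤ) ∨ -y - 1 = -(N:ℤ) - 1) ∧ -(N:ℤ) ≤ -x - 1 ∧ -x - 1 < N) ∨
      ((-x - 1 = (N:ℤ) ∨ -x - 1 = -(N:ℤ) - 1) ∧ -(N:ℤ) ≤ -y - 1 ∧ -y - 1 < N)
    omega

/-- side of a face next to the box -/
theorem SELI_nbside {a : ℕ} {w : Vtx} (hw : nb a w) :
    ∃ (s : Fin 4) (w2 : ℤ), (sy s).ψf w = ((a:ℤ), w2) ∧ -(a:ℤ) ≤ w2 ∧ w2 < a := by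
  obtain ⟨x, y⟩ := w
  unfold nb at hw
  simp only at hw
  rcases hw with ⟨h | h, h1, h2⟩ | ⟨h | h, h1, h2⟩
  · refine ⟨0, y, ?_, h1, h2⟩
    show (x, y) = ((a:ℤ), y)
    rw [h]
  · refine ⟨2, -y - 1, ?_, by omega, by omega⟩
    show (-x - 1, -y - 1) = ((a:ℤ), -y - 1)
    rw [h, Prod.mk.injEq]; constructor <;> ring
  · refine ⟨1, x, ?_, h1, h2⟩
    show (y, x) = ((a:ℤ), x)
    rw [h]
  · refine ⟨3, -x - 1, ?_, by omega, by omega⟩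
    show (-y - 1, -x - 1) = ((a:ℤ), -x - 1)
    rw [h, Prod.mk.injEq]; constructor <;> ring

theorem SELI_far {a N : ℕ} (ha : 1 ≤ a) (hN : 2 * a ≤ N) {c2 : ℤ} (hc : c2 = a ∨ c2 = -(a:ℤ))
    {y : Vtx} (hy : nb N y ∨ onB N y) :
    y.1 ≤ (a:ℤ) - (a / 4 : ℕ) ∨ (a:ℤ) + (a / 4 : ℕ) ≤ y.1 ∨ y.2 ≤ c2 - (a / 4 : ℕ) ∨
      c2 + (a / 4 : ℕ) ≤ y.2 := by
  obtain ⟨x, y⟩ := y
  simp only
  rcases hy with hy | hy
  · unfold nb at hy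
    simp only at hy
    omega
  · obtain ⟨⟨⟨h1, h2⟩, h3, h4⟩, h5⟩ := hy
    simp only at h1 h2 h3 h4 h5
    omega

theorem sel_det_i_of
    (exit_in : ∀ {a N r R : ℕ} {y0 : ℤ} (_ : 1 ≤ r) (_ : r + 1 ≤ R) (_ : |y0| + R + 4 ≤ a)
      (_ : 2 * a ≤ N) {F : Set Edg} (_ : ¬ H3di a y0 (r + 1) R F)
      (_ : ∃ u u', onB a u ∧ onB N u' ∧ Reach (F ∩ ↑(An a N)) u u'),
      ∃ u u', onB a u ∧ onB N u' ∧ Reach (F ∩ ↑(An a N)) u u' ∧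
        ¬ (u.1 = a ∧ |u.2 - y0| ≤ r))
    {a N ρ r0 R : ℕ} (hρ : 1 ≤ ρ) (hR : 10 * ρ ≤ R) (hr0 : 2 * R + 40 * ρ ≤ r0)
    (ha : 8 * r0 ≤ a) (hN : 2 * a ≤ N) {F : Set Edg} (hA : AA a N F)
    (hG : SelGoodi a N ρ r0 R F) :
    ∃ s s' : Fin 4, ∃ k k' : ℤ, |(ρ:ℤ) * k| + 20 * ρ ≤ a ∧ |(ρ:ℤ) * k'| + 20 * ρ ≤ a ∧
      (s = s' → 6 * (ρ:ℤ) ≤ |(ρ:ℤ) * k - ρ * k'|) ∧ Lvi a N ρ (ρ * k) ((sy s).φ '' F) ∧
        LfiS a N ρ s' (ρ * k') F := by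
  obtain ⟨⟨u0, u0', hu0, hu0', hu0r⟩, w, w', hw, hw', hwr⟩ := hA
  obtain ⟨s', w2, hws, hw1, hw2⟩ := SELI_nbside hw
  have hd := SELI_dreach (s := s') hwr
  rw [hws] at hd
  have hnb' := SELI_nb (s := s') hw'
  -- not near a corner
  have hc1 : w2 < (a:ℤ) - r0 := by
    by_contra hcon
    push Not at hcon
    refine (hG.h2 s').1 ⟨((a:ℤ), w2), (sy s').ψf w', ⟨⟨?_, ?_⟩, ?_, ?_⟩,
      SELI_far (by omega) hN (Or.inl rfl) (Or.inl hnb'), hd⟩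
    · simp only; omega
    · simp only; omega
    · simp only; omega
    · simp only; omega
  have hc2 : -(a:ℤ) + r0 < w2 := by
    by_contra hcon
    push Not at hcon
    refine (hG.h2 s').2 ⟨((a:ℤ), w2), (sy s').ψf w', ⟨⟨?_, ?_⟩, ?_, ?_⟩,
      SELI_far (by omega) hN (Or.inr rfl) (Or.inl hnb'), hd⟩
    · simp only; omega
    · simp only; omega
    · simp only; omega
    · simp only; omega
  obtain ⟨k', hk1, hk2⟩ := SEL_round hρ w2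
  have hk'abs : |(ρ:ℤ) * k'| + r0 ≤ a + ρ := by
    have : |(ρ:ℤ) * k'| ≤ (a:ℤ) + ρ - r0 := by
      rw [abs_le]
      constructor <;> omega
    omega
  -- the open arm
  have hv : ∃ u u', onB a u ∧ onB N u' ∧ Reach ((sy s').φ '' F ∩ ↑(An a N)) u u' :=
    ⟨(sy s').ψ u0, (sy s').ψ u0', SEL_onB hu0, SEL_onB hu0', SELI_reach (s := s') hu0r⟩
  obtain ⟨u', v', hu', hv', hu'r, hu'n⟩ := exit_in (r := 8 * ρ) (R := R) (by omega) (by omega)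
    (by omega) hN (hG.h3 s' k' hk'abs) hv
  obtain ⟨s, u2, hs, hu1, hu2⟩ := SEL_side (SEL_onB (s := s') hu')
  have hr0' : Reach ((sy s).φ '' F ∩ ↑(An a N)) ((a:ℤ), u2) ((sy s).ψ ((sy s').ψ v')) := by
    have h1 := SELI_reach (s := s') hu'r
    have h2 : Reach (F ∩ ↑(An a N)) ((sy s').ψ u') ((sy s').ψ v') := by
      refine h1.mono ?_
      rintro e ⟨⟨e1, ⟨e2, he2, rfl⟩, rfl⟩, h⟩
      refine ⟨?_, h⟩
      have h3 : (sy s').φ ((sy s').φ e2) = e2 := by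
        obtain ⟨x, y, β⟩ := e2
        rcases SEL_cases s' with h | h | h | h <;> rw [h]
        · rfl
        · cases β <;> rfl
        · cases β <;> simp [sy2]
        · cases β <;> simp [sy3]
      rw [h3]
      exact he2
    have h3 := SELI_reach (s := s) h2
    rwa [hs] at h3
  have hvB : onB N ((sy s).ψ ((sy s').ψ v')) := SEL_onB (SEL_onB hv')
  have hd1 : u2 < (a:ℤ) - r0 := by
    by_contra hcon
    push Not at hcon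
    refine (hG.h1 s).1 ⟨((a:ℤ), u2), (sy s).ψ ((sy s').ψ v'), ⟨⟨?_, ?_⟩, ?_, ?_⟩,
      SELI_far (by omega) hN (Or.inl rfl) (Or.inr hvB), hr0'⟩
    · simp only; omega
    · simp only; omega
    · simp only; omega
    · simp only; omega
  have hd2 : -(a:ℤ) + r0 < u2 := by
    by_contra hcon
    push Not at hcon
    refine (hG.h1 s).2 ⟨((a:ℤ), u2), (sy s).ψ ((sy s').ψ v'), ⟨⟨?_, ?_⟩, ?_, ?_⟩,
      SELI_far (by omega) hN (Or.inr rfl) (Or.inr hvB), hr0'⟩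
    · simp only; omega
    · simp only; omega
    · simp only; omega
    · simp only; omega
  obtain ⟨k, hk3, hk4⟩ := SEL_round hρ u2
  refine ⟨s, s', k, k', ?_, ?_, ?_, ⟨u2, ?_, _, hvB, hr0'⟩, ⟨w2, ?_, _, hnb', hd⟩⟩
  · have : |(ρ:ℤ) * k| ≤ (a:ℤ) - 20 * ρ := by
      rw [abs_le]
      constructor <;> omega
    omega
  · have : |(ρ:ℤ) * k'| ≤ (a:ℤ) - 20 * ρ := by
      rw [abs_le]
      constructor <;> omega
    omega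
  · rintro rfl
    rw [SEL_inv] at hs
    rw [hs] at hu'n
    simp only [true_and, not_le] at hu'n
    rcases abs_cases ((ρ:ℤ) * k - ρ * k') with ⟨h1, _⟩ | ⟨h1, _⟩ <;>
    rcases abs_cases (u2 - (ρ:ℤ) * k') with ⟨h2, _⟩ | ⟨h2, _⟩ <;> push_cast at hu'n <;> omega
  · rcases abs_cases (u2 - (ρ:ℤ) * k) with ⟨h2, _⟩ | ⟨h2, _⟩ <;> omega
  · rcases abs_cases (w2 - (ρ:ℤ) * k') with ⟨h2, _⟩ | ⟨h2, _⟩ <;> omega

end H985T
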