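import Pool.Agent.H985R3.TA.Defs2
import Pool.Agent.H12R2.Sep.Markov
import Pool.Agent.H974R2.Plan4

/-!
Two-arm project (helper985): statements with `sorry`, deterministic part and the separation step.
DO NOT import in final proofs.
-/

set_option autoImplicit false

namespace H985T

open H974 Finset

/-! ### YO -/

/-- closed dual paths from explored faces have weight 0 -/
theorem yonly {O D F : Set Edg} {Z : Edg → ZMod 2} {l : ℤ} (hA : PotHyp O D F Z l)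
    (trap : ∀ a ∈ VD D, ∀ b, DReach (Fresh O D F) a b → b ∈ ball a l)
    {a : Vtx} (ha : a ∈ YY O D F) {k : ZMod 2} (h : DW Z (Hs O F) a a k) : k = 0 := sorry

/-! ### CONV -/

/-- converse: two vertices which touch the same closed cluster and are not separated by it are
connected -/
theorem conv_star {G : Finset Edg} {Z : Edg → ZMod 2} {x y f g : Vtx}
    (hZ : ∀ v, vb Z v = b2 (x = v) + b2 (y = v)) (hx : corner x f) (hy : corner y g)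
    (hfg : DReach {e : Edg | e ∉ G} f g)
    (h0 : ∀ k, DW Z {e : Edg | e ∉ G} f f k → k = 0) : Reach (↑G : Set Edg) x y := sorry

/-! ### START -/

theorem pot_of_near {O D F A : Set Edg} {x y : Vtx} {l ρ : ℤ} (sub : A ⊆ O ∩ (D ∪ F))
    (le : l ≤ ρ)
    (far : ∀ a ∈ VD D, ∀ v : Vtx, v = x ∨ v = y →
      ¬ (a.1 - ρ < v.1 ∧ v.1 ≤ a.1 + ρ ∧ a.2 - ρ < v.2 ∧ v.2 ≤ a.2 + ρ))
    (near : ∀ a ∈ YY O D F, a ∈ VD D → ∀ b ∈ YY O D F, b ∈ VD D → b ∈ ball a l →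
      (∀ e ∈ A, e ∉ eball a l) ∨ DReach (H0s O D F ∩ eball a ρ) a b)
    (hxy : Reach A x y) {Z : Edg → ZMod 2} (hZ : ∀ v, vb Z v = b2 (x = v) + b2 (y = v)) :
    PotHyp O D F Z l := sorry

/-! ### CLD -/

/-- closing the edges of `D` does not disconnect `x` and `y` if faces next to `D` which are
connected (before closing) are connected locally -/
theorem closing {G : Finset Edg} {D : Set Edg} {x y c : Vtx} {ρ : ℤ} (hD : D ⊆ eball c ρ)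
    (far : ∀ v : Vtx, v = x ∨ v = y →
      ¬ (c.1 - ρ < v.1 ∧ v.1 ≤ c.1 + ρ ∧ c.2 - ρ < v.2 ∧ v.2 ≤ c.2 + ρ))
    (hcon : ∀ a ∈ VD D, ∀ b ∈ VD D, DReach {e : Edg | e ∉ G} a b →
      DReach ({e : Edg | e ∉ G} ∩ eball c ρ) a b)
    (hxy : Reach (↑G : Set Edg) x y) : Reach (↑G \ D : Set Edg) x y := sorry

/-! ### PST -/

/-- the abstract separation step -/
theorem step_prob {p : Edg → ℝ} (hp : Ok p) {S D X Oo : Finset Edg}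
    (hSD : Disjoint S D) (hX : Disjoint X (S ∪ D ∪ Oo)) (hOo : Disjoint Oo (S ∪ D))
    {Z : Edg → ZMod 2} {x y f g : Vtx} {l : ℤ}
    (hZ : ∀ v, vb Z v = b2 (x = v) + b2 (y = v)) (hx : corner x f) (hy : corner y g)
    (hout : ∀ e, e ∉ S ∪ D ∪ Oo → ∀ e', e' ∉ S ∪ D ∪ Oo →
      DReach {e : Edg | e ∉ S ∪ D ∪ Oo} (dtgt e) (dtgt e'))
    (hg : ∃ e, e ∉ S ∪ D ∪ Oo ∧ (dsrc e = g ∨ dtgt e = g))
    {Ws : Set Vtx} (hWs : ∀ w ∈ Ws, ∃ e, e ∉ S ∪ D ∪ Oo ∧ (dsrc e = w ∨ dtgt e = w)) :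
    Pr p (S ∪ D ∪ X) (fun F =>
        PotHyp (↑(S ∪ D ∪ Oo) : Set Edg) ↑D (↑F ∪ ↑Oo) Z l ∧
          ∃ w ∈ Ws, DReach (↑(S ∪ X) \ ↑F : Set Edg) f w) *
      Pr p (S ∪ D ∪ X) (fun F => ∀ a ∈ VD (↑D : Set Edg), ∀ b,
        DReach (↑((S ∪ D ∪ X) \ F) : Set Edg) a b → b ∈ ball a l) ≤
    Pr p (S ∪ D ∪ X) (fun F => Reach (((↑(S ∪ D) : Set Edg) ∩ ↑F) ∪ ↑Oo) x y ∧
      ∃ w ∈ Ws, DReach (↑(S ∪ X) \ ↑F : Set Edg) f w) := sorry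

/-! ### OUT -/

/-- the region of the extension step -/
noncomputable def RO (m ρ : ℕ) (c : ℤ) : Finset Edg := boxE m ∪ tubeD m ρ c ∪ endE m ρ c

theorem mem_RO {m ρ : ℕ} {c : ℤ} {e : Edg} :
    e ∈ RO m ρ c ↔ e ∈ boxE m ∨ e ∈ RE (m:ℤ) ((m:ℤ) + 14 * ρ) (c - ρ) (c + ρ) := sorry

/-- the outside of the region is connected (faces) -/
theorem out_face {m ρ : ℕ} {c : ℤ} (hρ : 1 ≤ ρ) (hc : |c| + 4 * ρ ≤ m) (e e' : Edg)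
    (he : e ∉ RO m ρ c) (he' : e' ∉ RO m ρ c) :
    DReach {e : Edg | e ∉ RO m ρ c} (dtgt e) (dtgt e') := sorry

/-- the outside of the region is connected (vertices) -/
theorem out_vtx {m ρ : ℕ} {c : ℤ} (hρ : 1 ≤ ρ) (hc : |c| + 4 * ρ ≤ m) (e e' : Edg)
    (he : e ∉ RO m ρ c) (he' : e' ∉ RO m ρ c) :
    Reach {e : Edg | e ∉ RO m ρ c} (tgt e) (tgt e') := sorry

/-! ### NR1, NR2 : geometry of the mouth -/

theorem near_right {m ρ r l : ℕ} {c : ℤ} (hl : 1 ≤ l) (hr : 8 * l ≤ r) (hρ : 16 * r ≤ ρ)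
    (hc : |c| + 4 * ρ ≤ m) {F : Set Edg} (hv : Lv m ρ c F) (hG : Gd m ρ r l c F)
    {Z : Edg → ZMod 2}
    (hZ : ∀ v, vb Z v = b2 (((0, 0) : Vtx) = v) + b2 ((((m:ℤ) + 14 * ρ, c) : Vtx) = v)) :
    PotHyp (↑(RO m ρ c) : Set Edg) ↑(tubeD m ρ c) (F ∪ ↑(endE m ρ c)) Z l := sorry

theorem near_dual {m ρ r l : ℕ} {c : ℤ} (hl : 1 ≤ l) (hr : 8 * l ≤ r) (hρ : 16 * r ≤ ρ)
    (hc : |c| + 4 * ρ ≤ m) {F : Set Edg} {f : Vtx} (hf : corner (0, 0) f) (hv : Lf m ρ c f F)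
    (hG : Gp m ρ r l c F) {Fs : Set Edg} (hFs : ∀ e ∈ boxE m, (dl e ∈ Fs ↔ e ∉ F))
    {Z : Edg → ZMod 2}
    (hZ : ∀ v, vb Z v = b2 (f = v) + b2 ((((m:ℤ) + 14 * ρ, c) : Vtx) = v)) :
    PotHyp (↑(dmp (RO m ρ c)) : Set Edg) ↑(dmp (tubeD m ρ c)) (Fs ∪ ↑(dmp (endE m ρ c))) Z l :=
  sorry

/-! ### SI, SII : the two separation steps -/

theorem step1 {κ : ℝ} {n : ℕ} (hW : H12S.Win (1 / 2) κ n) {m ρ r l k : ℕ} {c : ℤ} (hl : 1 ≤ l)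
    (hr : 32 * l ≤ r) (hρ : 16 * r ≤ ρ) (hk : ρ ≤ k * l) (hc : |c| + 4 * ρ ≤ m) (hn : 2 * l ≤ n)
    {f : Vtx} (hf : corner (0, 0) f) {X : Finset Edg} (hX : Disjoint X (RO m ρ c))
    {Ws : Set Vtx} (hWs : ∀ w ∈ Ws, ∃ e, e ∉ RO m ρ c ∧ (dsrc e = w ∨ dtgt e = w)) :
    H12S.PQ (1 / 2) (boxE m ∪ tubeD m ρ c ∪ X) (fun F => (Lv m ρ c ↑F ∧ Gd m ρ r (4 * l) c ↑F) ∧
        ∃ w ∈ Ws, DReach (↑(boxE m ∪ X) \ ↑F : Set Edg) f w) * κ ^ (4 * (2 * (6 * k) + 1) ^ 2) ≤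
    H12S.PQ (1 / 2) (boxE m ∪ tubeD m ρ c ∪ X) (fun F => Tv m ρ c ↑F ∧
        ∃ w ∈ Ws, DReach (↑(boxE m ∪ X) \ ↑F : Set Edg) f w) := sorry

theorem step2 {κ : ℝ} {n : ℕ} (hW : H12S.Win (1 / 2) κ n) {m ρ r l k : ℕ} {c : ℤ} (hl : 1 ≤ l)
    (hr : 32 * l ≤ r) (hρ : 16 * r ≤ ρ) (hk : ρ ≤ k * l) (hc : |c| + 4 * ρ ≤ m) (hn : 2 * l ≤ n)
    {f : Vtx} (hf : corner (0, 0) f) {X : Finset Edg} (hX : Disjoint X (RO m ρ c))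
    {Zs : Set Vtx} (hZs : ∀ z ∈ Zs, ∃ e, e ∉ RO m ρ c ∧ (src e = z ∨ tgt e = z)) :
    H12S.PQ (1 / 2) (boxE m ∪ tubeD m ρ c ∪ X) (fun F => (Lf m ρ c f ↑F ∧ Gp m ρ r (4 * l) c ↑F) ∧
        ∃ z ∈ Zs, Reach (↑F ∩ ↑(boxE m ∪ X) : Set Edg) (0, 0) z) *
          κ ^ (4 * (2 * (6 * k) + 1) ^ 2) ≤
    H12S.PQ (1 / 2) (boxE m ∪ tubeD m ρ c ∪ X) (fun F => Tf m ρ c f ↑F ∧
        ∃ z ∈ Zs, Reach (↑F ∩ ↑(boxE m ∪ X) : Set Edg) (0, 0) z) := sorry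

/-! ### PAS : first passages -/

theorem pass_v {m ρ : ℕ} {c : ℤ} (hρ : 1 ≤ ρ) {F : Set Edg}
    (h : Reach (((↑(boxE m ∪ tubeD m ρ c) : Set Edg) ∩ F) ∪ ↑(endE m ρ c)) (0, 0)
      ((m:ℤ) + 14 * ρ, c)) : Tv m ρ c F := sorry

theorem pass_f {m ρ : ℕ} {c : ℤ} (hρ : 1 ≤ ρ) {f : Vtx} (hf : corner (0, 0) f) {F : Set Edg}
    (h : DReach ((↑(boxE m ∪ tubeD m ρ c) : Set Edg) \ F ∪ ↑(endE m ρ c)) f
      ((m:ℤ) + 14 * ρ, c)) : Tf m ρ c f F := sorry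

/-! ### EXI : another landing of the open arm -/

theorem exit_right {m r R : ℕ} {y0 : ℤ} (hr : 1 ≤ r) (hR : r + 1 ≤ R) (hm : |y0| + R + 4 ≤ m)
    {F : Set Edg} (h3 : ¬ H3d m y0 (r + 1) R F)
    (hv : ∃ u, onB m u ∧ Reach (F ∩ ↑(boxE m)) (0, 0) u) :
    ∃ u, onB m u ∧ Reach (F ∩ ↑(boxE m)) (0, 0) u ∧ ¬ (u.1 = m ∧ |u.2 - y0| ≤ r) := sorry

end H985T
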