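import Pool.Agent.H985R3.TA.Defs
import Pool.Agent.H974R3.Box
import Pool.Agent.H988R4.Defs
import Pool.Agent.H12R2.Sep.Markov

/-!
Two-arm project (helper985): statements with `sorry`. DO NOT import in final proofs.
-/

set_option autoImplicit false

namespace H985T

open H974 Finset

/-! ### CYL -/

/-- upper bound for events on the odd cylinder which force the two-arm event at the origin -/
theorem cyl_bound (n M : ℕ) (hn : 1 ≤ n) (hM : n ≤ M) (f0 : ℤ) (hf : f0 = 0 ∨ f0 = -1)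
    (A : Finset Edg → Prop)
    (hA : ∀ F, F ⊆ Pool.Agent.H974R3.SS n M → A F →
      Reach (cov n (Pool.Agent.H974R3.SS n M) F) (0, 0) (n + 1 + f0, n + 1 + f0)) :
    Pr (fun _ => 1 / 2) (Pool.Agent.H974R3.SS n M) A ≤ Pool.Agent.H974R3.pval n := sorry

/-! ### GLU -/

/-- gluing in the cylinder: `P(EV) ≤ K m^(-1/4)` -/
theorem glue_cyl (B : ℕ) : ∃ K : ℝ, 0 < K ∧ ∀ (m ρ : ℕ) (c : ℤ) (s : Fin 4) (c' f0 : ℤ),
    Geo B m ρ c s c' → (f0 = 0 ∨ f0 = -1) →
    Pr (fun _ => 1 / 2) (EU m ρ c s c') (EV m ρ c s c' (f0, f0)) ≤ K * (m:ℝ) ^ (-(1/4 : ℝ)) :=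
  sorry

/-! ### MK2 -/

/-- stopping sets and increasing events -/
theorem markov_inc {E : Type*} [DecidableEq E] {p : E → ℝ} (hp : Ok p) {S : Finset E}
    {K : Finset E → Finset E} (hK : H12S.Stop S K) {A B : Finset E → Prop}
    (hA : ∀ F F', F ⊆ S → F' ⊆ S → F ∩ K F = F' ∩ K F → A F → A F')
    (hB : ∀ F G : Finset E, F ⊆ G → B F → B G) :
    Pr p S A * Pr p S B ≤ Pr p S (fun F => A F ∧ B (F ∪ K F)) := sorry

/-! ### FAR -/

/-- faces outside a box are connected by dual paths crossing only edges outside the box -/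
theorem far_conn (B : ℤ) (hB : 0 ≤ B) {a b : Vtx} (ha : a.1 < -B ∨ B ≤ a.1 ∨ a.2 < -B ∨ B ≤ a.2)
    (hb : b.1 < -B ∨ B ≤ b.1 ∨ b.2 < -B ∨ B ≤ b.2) :
    DReach {e : Edg | e ∉ RE (-B) B (-B) B} a b := sorry

end H985T
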