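import Pool.Agent.H985R3.TA.Defs3
import Pool.Agent.H985R3.TA.StubsG
import Pool.Agent.H985R3.TA.StubsD

/-!
Two-arm project (helper985): statements with `sorry`, selection and recursion.
DO NOT import in final proofs.
-/

set_option autoImplicit false

namespace H985T

open H974 Finset

/-! ### SYM -/

theorem sy_invol (s : Fin 4) (e : Edg) : (sy s).φ ((sy s).φ e) = e := sorry

theorem sy_invol_f (s : Fin 4) (a : Vtx) : (sy s).ψf ((sy s).ψf a) = a := sorry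

theorem sy_invol_v (s : Fin 4) (a : Vtx) : (sy s).ψ ((sy s).ψ a) = a := sorry

/-- group law (`s` and `s'` exchange sides) -/
theorem sy_mul (s s' : Fin 4) : ∃ s'' : Fin 4, (s'' = 0 ↔ s = s') ∧
    (∀ e, (sy s'').φ ((sy s).φ e) = (sy s').φ e) ∧
    (∀ a, (sy s'').ψf ((sy s).ψf a) = (sy s').ψf a) ∧
    (∀ a, (sy s'').ψ ((sy s).ψ a) = (sy s').ψ a) := sorry

theorem sy_box (s : Fin 4) (m : ℕ) : (sy s).toLSym.mp (boxE m) = boxE m := sorry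

theorem sy_mem_box (s : Fin 4) (m : ℕ) (e : Edg) : (sy s).φ e ∈ boxE m ↔ e ∈ boxE m := sorry

theorem sy_origin (s : Fin 4) : (sy s).ψ (0, 0) = (0, 0) := sorry

theorem sy_corner {s : Fin 4} {x f : Vtx} : corner ((sy s).ψ x) ((sy s).ψf f) ↔ corner x f := sorry

theorem sy_face (s : Fin 4) {f0 : ℤ} (hf : f0 = 0 ∨ f0 = -1) :
    ∃ f1 : ℤ, (f1 = 0 ∨ f1 = -1) ∧ (sy s).ψf (f0, f0) = (f1, f1) := sorry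

theorem DSym.dreach (g : DSym) {H : Set Edg} {a b : Vtx} (h : DReach H a b) :
    DReach (g.φ '' H) (g.ψf a) (g.ψf b) := sorry

theorem sy_onB (s : Fin 4) (m : ℕ) (u : Vtx) : onB m ((sy s).ψ u) ↔ onB m u := sorry

/-- tubes: the symmetry `sy s` moves the tube on the right side to the tube on side `s` -/
theorem sy_tube (s : Fin 4) (m ρ : ℕ) (c : ℤ) (L : ℕ) :
    (sy s).toLSym.mp (tube 0 m ρ c L) = tube s m ρ (cc s c) L := sorry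

/-! ### MON : monotonicity of the two arm event -/

theorem A2g_half {m : ℕ} {f : Vtx} (hf : corner (0, 0) f) {F : Set Edg} (h : A2g m f F) :
    A2g (m / 2) f F := sorry

theorem A2g_of_L {m ρ : ℕ} {s : Fin 4} {c c' : ℤ} {f : Vtx} (hm : 4 ≤ m) (hf : corner (0, 0) f)
    {F : Set Edg} (h1 : Lv m ρ c F) (h2 : LfS m ρ s c' f F) : A2g (m / 2) f F := sorry

theorem A2g_of_T {m ρ : ℕ} {s : Fin 4} {c c' : ℤ} {f : Vtx} (hm : 4 ≤ m) (hf : corner (0, 0) f)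
    {F : Set Edg} (h1 : Tv m ρ c F) (h2 : LfS m ρ s c' f F) : A2g (m / 2) f F := sorry

theorem A2_iff (m : ℕ) (F : Finset Edg) (hF : F ⊆ boxE m) : A2 m F ↔ A2g m (0, 0) ↑F := sorry

/-! ### IND : independence -/

theorem inner_indep {m : ℕ} {f0 : ℤ} (hf : f0 = 0 ∨ f0 = -1) {U : Finset Edg}
    (hU : boxE m ⊆ U) {Bd : Finset Edg → Prop}
    (hB : ∀ F, F ⊆ U → (Bd F ↔ Bd (F \ boxE m))) :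
    H12S.PQ (1 / 2) U (fun F => A2g m (f0, f0) ↑F ∧ Bd F) = pi2 m * H12S.PQ (1 / 2) U Bd := sorry

/-! ### HPP, HPD : three arms in the half plane -/

theorem H3p_prob : ∃ C c : ℝ, 0 < C ∧ 0 < c ∧ ∀ (m r R : ℕ) (y0 : ℤ) (U : Finset Edg),
    1 ≤ r → r ≤ R → hbR m y0 R ⊆ U →
    H12S.PQ (1 / 2) U (fun F => H3p m y0 r R ↑F) ≤ C * ((r:ℝ) / R) ^ (1 + c) := sorry

theorem H3d_prob : ∃ C c : ℝ, 0 < C ∧ 0 < c ∧ ∀ (m r R : ℕ) (y0 : ℤ) (U : Finset Edg),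
    1 ≤ r → r ≤ R → hbR m y0 R ⊆ U →
    H12S.PQ (1 / 2) U (fun F => H3d m y0 r R ↑F) ≤ C * ((r:ℝ) / R) ^ (1 + c) := sorry

/-! ### BGD, BGP, BSL : bad events are unlikely -/

theorem bad_Gd : ∀ η : ℝ, 0 < η → ∃ B₀ : ℕ, ∀ B, B₀ ≤ B → ∃ A₀ : ℕ, ∀ A, A₀ ≤ A →
    ∀ (l m ρ r : ℕ) (c f0 : ℤ) (U : Finset Edg), 1 ≤ l → r = A * l → ρ = B * r →
      |c| + 20 * ρ ≤ m → (f0 = 0 ∨ f0 = -1) → boxE m ⊆ U →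
      H12S.PQ (1 / 2) U (fun F => A2g (m / 2) (f0, f0) ↑F ∧ ¬ Gd m ρ r (4 * l) c ↑F) ≤
        η * pi2 (m / 2) := sorry

theorem bad_Gp : ∀ η : ℝ, 0 < η → ∃ B₀ : ℕ, ∀ B, B₀ ≤ B → ∃ A₀ : ℕ, ∀ A, A₀ ≤ A →
    ∀ (l m ρ r : ℕ) (s : Fin 4) (c f0 : ℤ) (U : Finset Edg), 1 ≤ l → r = A * l → ρ = B * r →
      |c| + 20 * ρ ≤ m → (f0 = 0 ∨ f0 = -1) → boxE m ⊆ U →
      H12S.PQ (1 / 2) U (fun F => A2g (m / 2) (f0, f0) ↑F ∧ ¬ GpS m ρ r (4 * l) s c ↑F) ≤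
        η * pi2 (m / 2) := sorry

theorem bad_sel : ∀ η : ℝ, 0 < η → ∃ D₀ : ℕ, 1 ≤ D₀ ∧ ∀ D, D₀ ≤ D → ∀ m ρ : ℕ, 1 ≤ ρ →
    D * ρ ≤ m → m ≤ 2 * D * ρ → ∃ r0 R : ℕ, 10 * ρ ≤ R ∧ 2 * R + 40 * ρ ≤ r0 ∧ 8 * r0 ≤ m ∧
      H12S.PQ (1 / 2) (boxE m) (fun F => A2g m (0, 0) ↑F ∧ ¬ SelGood m ρ r0 R ↑F) ≤
        η * pi2 (m / 2) := sorry

/-! ### SEL : selection of the landing places -/

theorem sel_det {m ρ r0 R : ℕ} (hρ : 1 ≤ ρ) (hR : 10 * ρ ≤ R) (hr0 : 2 * R + 40 * ρ ≤ r0)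
    (hm : 8 * r0 ≤ m) {F : Set Edg} (hA : A2g m (0, 0) F) (hG : SelGood m ρ r0 R F) :
    ∃ s s' : Fin 4, ∃ k k' : ℤ, |(ρ:ℤ) * k| + 20 * ρ ≤ m ∧ |(ρ:ℤ) * k'| + 20 * ρ ≤ m ∧
      (s = s' → 6 * (ρ:ℤ) ≤ |(ρ:ℤ) * k - ρ * k'|) ∧ Lv m ρ (ρ * k) ((sy s).φ '' F) ∧
        LfS m ρ s' (ρ * k') (0, 0) F := sorry

/-! ### SUM -/

theorem sel_sum : ∀ η : ℝ, 0 < η → ∃ D₀ : ℕ, 50 ≤ D₀ ∧ ∀ D, D₀ ≤ D → ∀ m ρ : ℕ, 1 ≤ ρ →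
    D * ρ ≤ m → m ≤ 2 * D * ρ → ∀ M : ℝ, 0 ≤ M →
    (∀ (s : Fin 4) (c c' f0 : ℤ), (f0 = 0 ∨ f0 = -1) → |c| + 20 * ρ ≤ m → |c'| + 20 * ρ ≤ m →
      (s = 0 → 6 * (ρ:ℤ) ≤ |c - c'|) →
      H12S.PQ (1 / 2) (boxE m) (fun F => Lv m ρ c ↑F ∧ LfS m ρ s c' (f0, f0) ↑F) ≤ M) →
    pi2 m ≤ 16 * (4 * (D:ℝ) + 1) ^ 2 * M + η * pi2 (m / 2) := sorry

/-! ### M1, M2 -/

theorem mid1 {κ : ℝ} {n : ℕ} (hW : H12S.Win (1 / 2) κ n) {m ρ r l k : ℕ} {c c' f0 : ℤ}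
    {s : Fin 4} (hl : 1 ≤ l) (hr : 32 * l ≤ r) (hρ : 16 * r ≤ ρ) (hk : ρ ≤ k * l)
    (hc : |c| + 20 * ρ ≤ m) (hc' : |c'| + 20 * ρ ≤ m) (hs : s = 0 → 6 * (ρ:ℤ) ≤ |c - c'|)
    (hn : 2 * l ≤ n) (hf : f0 = 0 ∨ f0 = -1) :
    H12S.PQ (1 / 2) (boxE m) (fun F => (Lv m ρ c ↑F ∧ Gd m ρ r (4 * l) c ↑F) ∧
        LfS m ρ s c' (f0, f0) ↑F) * κ ^ (4 * (2 * (6 * k) + 1) ^ 2) ≤
    H12S.PQ (1 / 2) (boxE m ∪ tubeD m ρ c) (fun F => Tv m ρ c ↑F ∧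
        LfS m ρ s c' (f0, f0) ↑F) := sorry

theorem mid2 {κ : ℝ} {n : ℕ} (hW : H12S.Win (1 / 2) κ n) {m ρ r l k : ℕ} {c c' f0 : ℤ}
    {s : Fin 4} (hl : 1 ≤ l) (hr : 32 * l ≤ r) (hρ : 16 * r ≤ ρ) (hk : ρ ≤ k * l)
    (hc : |c| + 20 * ρ ≤ m) (hc' : |c'| + 20 * ρ ≤ m) (hs : s = 0 → 6 * (ρ:ℤ) ≤ |c - c'|)
    (hn : 2 * l ≤ n) (hf : f0 = 0 ∨ f0 = -1) :
    H12S.PQ (1 / 2) (boxE m ∪ tubeD m ρ c) (fun F => Tv m ρ c ↑F ∧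
        LfS m ρ s c' (f0, f0) ↑F ∧ GpS m ρ r (4 * l) s c' ↑F) *
          κ ^ (4 * (2 * (6 * k) + 1) ^ 2) ≤
    H12S.PQ (1 / 2) (EU m ρ c s (cc s c')) (EV m ρ c s (cc s c') (f0, f0)) := sorry

/-! ### REC -/

theorem rec_ineq : ∃ (K : ℝ) (m₀ : ℕ), 0 < K ∧ ∀ m, m₀ ≤ m →
    pi2 m ≤ K * (m:ℝ) ^ (-(1/4 : ℝ)) + 1 / 4 * pi2 (m / 2) := sorry

theorem pi2_upper : ∃ C : ℝ, 0 < C ∧ ∀ m : ℕ, 1 ≤ m → pi2 m ≤ C * (m:ℝ) ^ (-(1/4 : ℝ)) := sorry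

/-! ### LOW -/

theorem pi2_lower : ∃ c : ℝ, 0 < c ∧ ∀ m : ℕ, 1 ≤ m → c * (m:ℝ) ^ (-(1/4 : ℝ)) ≤ pi2 m := sorry

end H985T
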