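import Pool.Agent.H985R3.TA.Defs4
import Pool.Agent.H985R3.TA.StubsE
import Pool.Agent.H934R3.D74.Defs

/-!
Two-arm project (helper985): statements with `sorry`, annulus (inward separation).
DO NOT import in final proofs.
-/

set_option autoImplicit false

namespace H985T

open H974 Finset

/-! ### PS2 : the abstract separation step, second form -/

theorem step_prob2 {p : Edg → ℝ} (hp : Ok p) {S D X Oo : Finset Edg}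
    (hSD : Disjoint S D) (hX : Disjoint X (S ∪ D ∪ Oo)) (hOo : Disjoint Oo (S ∪ D))
    {Z : Edg → ZMod 2} {x y : Vtx} {l : ℤ} (hZ : ∀ v, vb Z v = b2 (x = v) + b2 (y = v))
    {Wa Wb : Set Vtx} (hWa : ∀ w ∈ Wa, ∃ e, e ∉ S ∪ D ∪ Oo ∧ (dsrc e = w ∨ dtgt e = w))
    (hxa : ∀ w ∈ Wa, ∃ f, corner x f ∧ DReach {e : Edg | e ∉ S ∪ D ∪ Oo} w f)
    (hyb : ∀ w ∈ Wb, ∃ y', corner y' w ∧ Reach (↑Oo : Set Edg) y y') :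
    Pr p (S ∪ D ∪ X) (fun F =>
        PotHyp (↑(S ∪ D ∪ Oo) : Set Edg) ↑D (↑F ∪ ↑Oo) Z l ∧
          ∃ w ∈ Wa, ∃ w' ∈ Wb, DReach (↑(S ∪ X) \ ↑F : Set Edg) w w') *
      Pr p (S ∪ D ∪ X) (fun F => ∀ a ∈ VD (↑D : Set Edg), ∀ b,
        DReach (↑((S ∪ D ∪ X) \ F) : Set Edg) a b → b ∈ ball a l) ≤
    Pr p (S ∪ D ∪ X) (fun F => Reach (((↑(S ∪ D) : Set Edg) ∩ ↑F) ∪ ↑Oo) x y ∧
      ∃ w ∈ Wa, ∃ w' ∈ Wb, DReach (↑(S ∪ X) \ ↑F : Set Edg) w w') := sorry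

/-! ### NI1, NI2 : geometry of the mouth, inward -/

theorem near_inR {a N ρ r l : ℕ} {c : ℤ} (hl : 1 ≤ l) (hr : 8 * l ≤ r) (hρ : 16 * r ≤ ρ)
    (hc : |c| + 20 * ρ ≤ a) (hN : 2 * a ≤ N) {F : Set Edg} (hv : Lvi a N ρ c F)
    (hG : Gdi a N ρ r l c F) {Z : Edg → ZMod 2}
    (hZ : ∀ v, vb Z v = b2 ((((a:ℤ) - 14 * ρ, c) : Vtx) = v) + b2 ((((N:ℤ) + 1, 0) : Vtx) = v)) :
    PotHyp (↑(RI a N ρ c) : Set Edg) ↑(tubeI a ρ c) (F ∪ ↑(endI a ρ c ∪ Rg N)) Z l := sorry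

theorem near_inD {a N ρ r l : ℕ} {c : ℤ} (hl : 1 ≤ l) (hr : 8 * l ≤ r) (hρ : 16 * r ≤ ρ)
    (hc : |c| + 20 * ρ ≤ a) (hN : 2 * a ≤ N) {F : Set Edg} (hv : Lfi a N ρ c F)
    (hG : Gpi a N ρ r l c F) {Fs : Set Edg} (hFs : ∀ e ∈ An a N, (dl e ∈ Fs ↔ e ∉ F))
    {Z : Edg → ZMod 2}
    (hZ : ∀ v, vb Z v = b2 ((((a:ℤ) - 14 * ρ - 1, c) : Vtx) = v) +
      b2 ((((N:ℤ) + 1, 0) : Vtx) = v)) :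
    PotHyp (↑(dmp (RI a N ρ c)) : Set Edg) ↑(dmp (tubeI a ρ c))
      (Fs ∪ ↑(dmp (endI a ρ c ∪ Rg N))) Z l := sorry

/-! ### OUI : connectivity of the inner part of the complement and of the ring -/

theorem in_face {a N ρ : ℕ} {c : ℤ} (hρ : 1 ≤ ρ) (hc : |c| + 20 * ρ ≤ a) (hN : 2 * a ≤ N)
    {e : Edg} (he : e ∈ boxE a) (he' : e ∉ RI a N ρ c) {w : Vtx} (hw : dsrc e = w ∨ dtgt e = w) :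
    DReach {e : Edg | e ∉ RI a N ρ c} w ((a:ℤ) - 14 * ρ - 1, c) := sorry

theorem in_vtx {a N ρ : ℕ} {c : ℤ} (hρ : 1 ≤ ρ) (hc : |c| + 20 * ρ ≤ a) (hN : 2 * a ≤ N)
    {e : Edg} (he : e ∈ boxE a) (he' : e ∉ RI a N ρ c) {w : Vtx} (hw : src e = w ∨ tgt e = w) :
    Reach {e : Edg | e ∉ RI a N ρ c} w ((a:ℤ) - 14 * ρ - 1, c) := sorry

theorem ring_vtx {N : ℕ} {w : Vtx} (hw : nb N w) :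
    ∃ y', corner y' w ∧ Reach (↑(Rg N) : Set Edg) ((N:ℤ) + 1, 0) y' := sorry

theorem ring_face {N : ℕ} (hN : 1 ≤ N) {u : Vtx} (hu : onB N u) :
    ∃ w, corner u w ∧ DReach (↑(Rg N) : Set Edg) ((N:ℤ) + 1, 0) w := sorry

/-! ### S1I, S2I : the two inward separation steps -/

theorem step1i {κ : ℝ} {n : ℕ} (hW : H12S.Win (1 / 2) κ n) {a N ρ r l k : ℕ} {c : ℤ}
    (hl : 1 ≤ l) (hr : 32 * l ≤ r) (hρ : 16 * r ≤ ρ) (hk : ρ ≤ k * l) (hc : |c| + 20 * ρ ≤ a)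
    (hN : 2 * a ≤ N) (hn : 2 * l ≤ n) {X : Finset Edg} (hX : Disjoint X (RI a N ρ c))
    {Wa : Set Vtx}
    (hWa : ∀ w ∈ Wa, ∃ e ∈ boxE a, e ∉ RI a N ρ c ∧ (dsrc e = w ∨ dtgt e = w)) :
    H12S.PQ (1 / 2) (An a N ∪ tubeI a ρ c ∪ X) (fun F =>
        (Lvi a N ρ c ↑F ∧ Gdi a N ρ r (4 * l) c ↑F) ∧
        ∃ w ∈ Wa, ∃ w', nb N w' ∧ DReach (↑(An a N ∪ X) \ ↑F : Set Edg) w w') *
          κ ^ (4 * (2 * (6 * k) + 1) ^ 2) ≤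
    H12S.PQ (1 / 2) (An a N ∪ tubeI a ρ c ∪ X) (fun F => Tvi a N ρ c ↑F ∧
        ∃ w ∈ Wa, ∃ w', nb N w' ∧ DReach (↑(An a N ∪ X) \ ↑F : Set Edg) w w') := sorry

theorem step2i {κ : ℝ} {n : ℕ} (hW : H12S.Win (1 / 2) κ n) {a N ρ r l k : ℕ} {c : ℤ}
    (hl : 1 ≤ l) (hr : 32 * l ≤ r) (hρ : 16 * r ≤ ρ) (hk : ρ ≤ k * l) (hc : |c| + 20 * ρ ≤ a)
    (hN : 2 * a ≤ N) (hn : 2 * l ≤ n) {X : Finset Edg} (hX : Disjoint X (RI a N ρ c))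
    {Za : Set Vtx}
    (hZa : ∀ z ∈ Za, ∃ e ∈ boxE a, e ∉ RI a N ρ c ∧ (src e = z ∨ tgt e = z)) :
    H12S.PQ (1 / 2) (An a N ∪ tubeI a ρ c ∪ X) (fun F =>
        (Lfi a N ρ c ↑F ∧ Gpi a N ρ r (4 * l) c ↑F) ∧
        ∃ z ∈ Za, ∃ u', onB N u' ∧ Reach (↑F ∩ ↑(An a N ∪ X) : Set Edg) z u') *
          κ ^ (4 * (2 * (6 * k) + 1) ^ 2) ≤
    H12S.PQ (1 / 2) (An a N ∪ tubeI a ρ c ∪ X) (fun F => Tfi a N ρ c ↑F ∧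
        ∃ z ∈ Za, ∃ u', onB N u' ∧ Reach (↑F ∩ ↑(An a N ∪ X) : Set Edg) z u') := sorry

/-! ### PAI : passages -/

theorem pass_vi {a N ρ : ℕ} {c : ℤ} (hρ : 1 ≤ ρ) (hc : |c| + 20 * ρ ≤ a) (hN : 2 * a ≤ N)
    {F : Set Edg}
    (h : Reach (((↑(An a N ∪ tubeI a ρ c) : Set Edg) ∩ F) ∪ ↑(endI a ρ c ∪ Rg N))
      ((a:ℤ) - 14 * ρ, c) ((N:ℤ) + 1, 0)) : Tvi a N ρ c F := sorry

theorem pass_fi {a N ρ : ℕ} {c : ℤ} (hρ : 1 ≤ ρ) (hc : |c| + 20 * ρ ≤ a) (hN : 2 * a ≤ N)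
    {F : Set Edg}
    (h : DReach ((↑(An a N ∪ tubeI a ρ c) : Set Edg) \ F ∪ ↑(endI a ρ c ∪ Rg N))
      ((a:ℤ) - 14 * ρ - 1, c) ((N:ℤ) + 1, 0)) : Tfi a N ρ c F := sorry

/-! ### EXII : another landing -/

theorem exit_in {a N r R : ℕ} {y0 : ℤ} (hr : 1 ≤ r) (hR : r + 1 ≤ R) (hm : |y0| + R + 4 ≤ a)
    (hN : 2 * a ≤ N) {F : Set Edg} (h3 : ¬ H3di a y0 (r + 1) R F)
    (hv : ∃ u u', onB a u ∧ onB N u' ∧ Reach (F ∩ ↑(An a N)) u u') :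
    ∃ u u', onB a u ∧ onB N u' ∧ Reach (F ∩ ↑(An a N)) u u' ∧
      ¬ (u.1 = a ∧ |u.2 - y0| ≤ r) := sorry

/-! ### SELI : selection -/

theorem sel_det_i {a N ρ r0 R : ℕ} (hρ : 1 ≤ ρ) (hR : 10 * ρ ≤ R) (hr0 : 2 * R + 40 * ρ ≤ r0)
    (ha : 8 * r0 ≤ a) (hN : 2 * a ≤ N) {F : Set Edg} (hA : AA a N F)
    (hG : SelGoodi a N ρ r0 R F) :
    ∃ s s' : Fin 4, ∃ k k' : ℤ, |(ρ:ℤ) * k| + 20 * ρ ≤ a ∧ |(ρ:ℤ) * k'| + 20 * ρ ≤ a ∧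
      (s = s' → 6 * (ρ:ℤ) ≤ |(ρ:ℤ) * k - ρ * k'|) ∧ Lvi a N ρ (ρ * k) ((sy s).φ '' F) ∧
        LfiS a N ρ s' (ρ * k') F := sorry

/-! ### HPI : three arms -/

theorem H3pi_prob : ∃ C c : ℝ, 0 < C ∧ 0 < c ∧ ∀ (a r R : ℕ) (y0 : ℤ) (U : Finset Edg),
    1 ≤ r → r ≤ R → |y0| + R ≤ a → hbI a y0 R ⊆ U →
    H12S.PQ (1 / 2) U (fun F => H3pi a y0 r R ↑F) ≤ C * ((r:ℝ) / R) ^ (1 + c) := sorry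

theorem H3di_prob : ∃ C c : ℝ, 0 < C ∧ 0 < c ∧ ∀ (a r R : ℕ) (y0 : ℤ) (U : Finset Edg),
    1 ≤ r → r ≤ R → |y0| + R ≤ a → hbI a y0 R ⊆ U →
    H12S.PQ (1 / 2) U (fun F => H3di a y0 r R ↑F) ≤ C * ((r:ℝ) / R) ^ (1 + c) := sorry

/-! ### INDI : monotonicity and independence -/

theorem AA_mono {a b N : ℕ} (hab : a ≤ b) (hN : b ≤ N) {F : Set Edg} (h : AA a N F) :
    AA b N F := sorry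

theorem AA_of_L {a N ρ : ℕ} {s : Fin 4} {c c' : ℤ} (ha : 1 ≤ a) (hc : |c| + ρ < a)
    (hc' : |c'| + ρ < a) (hN : 2 * a ≤ N) {F : Set Edg} (h1 : Lvi a N ρ c F)
    (h2 : LfiS a N ρ s c' F) : AA (2 * a) N F := sorry

theorem AA_of_T {a N ρ : ℕ} {s : Fin 4} {c c' : ℤ} (ha : 1 ≤ a) (hc : |c| + 20 * ρ ≤ a)
    (hρ : 1 ≤ ρ) (hc' : |c'| + ρ < a) (hN : 2 * a ≤ N) {F : Set Edg} (h1 : Tvi a N ρ c F)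
    (h2 : LfiS a N ρ s c' F) : AA (2 * a) N F := sorry

theorem outer_indep {b N : ℕ} (hb : b ≤ N) {U : Finset Edg} (hU : An b N ⊆ U)
    {Bd : Finset Edg → Prop} (hB : ∀ F, F ⊆ U → (Bd F ↔ Bd (F ∩ boxE b))) :
    H12S.PQ (1 / 2) U (fun F => AA b N ↑F ∧ Bd F) = pAA b N * H12S.PQ (1 / 2) U Bd := sorry

/-! ### BGDI, BGPI, BSLI -/

theorem bad_Gdi : ∀ η : ℝ, 0 < η → ∃ B₀ : ℕ, ∀ B, B₀ ≤ B → ∃ A₀ : ℕ, ∀ A, A₀ ≤ A →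
    ∀ (l a N ρ r : ℕ) (c : ℤ) (U : Finset Edg), 1 ≤ l → r = A * l → ρ = B * r →
      |c| + 20 * ρ ≤ a → 2 * a ≤ N → An a N ⊆ U →
      H12S.PQ (1 / 2) U (fun F => AA (2 * a) N ↑F ∧ ¬ Gdi a N ρ r (4 * l) c ↑F) ≤
        η * pAA (2 * a) N := sorry

theorem bad_Gpi : ∀ η : ℝ, 0 < η → ∃ B₀ : ℕ, ∀ B, B₀ ≤ B → ∃ A₀ : ℕ, ∀ A, A₀ ≤ A →
    ∀ (l a N ρ r : ℕ) (s : Fin 4) (c : ℤ) (U : Finset Edg), 1 ≤ l → r = A * l → ρ = B * r →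
      |c| + 20 * ρ ≤ a → 2 * a ≤ N → An a N ⊆ U →
      H12S.PQ (1 / 2) U (fun F => AA (2 * a) N ↑F ∧ ¬ GpiS a N ρ r (4 * l) s c ↑F) ≤
        η * pAA (2 * a) N := sorry

theorem bad_seli : ∀ η : ℝ, 0 < η → ∃ D₀ : ℕ, 1 ≤ D₀ ∧ ∀ D, D₀ ≤ D → ∀ a N ρ : ℕ, 1 ≤ ρ →
    D * ρ ≤ a → a ≤ 2 * D * ρ → 2 * a ≤ N → ∃ r0 R : ℕ, 10 * ρ ≤ R ∧ 2 * R + 40 * ρ ≤ r0 ∧
      8 * r0 ≤ a ∧
      H12S.PQ (1 / 2) (An a N) (fun F => AA a N ↑F ∧ ¬ SelGoodi a N ρ r0 R ↑F) ≤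
        η * pAA (2 * a) N := sorry

/-! ### SUMI -/

theorem sel_sum_i : ∀ η : ℝ, 0 < η → ∃ D₀ : ℕ, 100 ≤ D₀ ∧ ∀ D, D₀ ≤ D → ∀ a N ρ : ℕ, 1 ≤ ρ →
    D * ρ ≤ a → a ≤ 2 * D * ρ → 2 * a ≤ N → ∀ M : ℝ, 0 ≤ M →
    (∀ (s : Fin 4) (c c' : ℤ), |c| + 20 * ρ ≤ a → |c'| + 20 * ρ ≤ a →
      (s = 0 → 6 * (ρ:ℤ) ≤ |c - c'|) →
      H12S.PQ (1 / 2) (An a N) (fun F => Lvi a N ρ c ↑F ∧ LfiS a N ρ s c' ↑F) ≤ M) →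
    pAA a N ≤ 16 * (4 * (D:ℝ) + 1) ^ 2 * M + η * pAA (2 * a) N := sorry

/-! ### M1I, M2I -/

theorem mid1i {κ : ℝ} {n : ℕ} (hW : H12S.Win (1 / 2) κ n) {a N ρ r l k : ℕ} {c c' : ℤ}
    {s : Fin 4} (hl : 1 ≤ l) (hr : 32 * l ≤ r) (hρ : 16 * r ≤ ρ) (hk : ρ ≤ k * l)
    (hc : |c| + 20 * ρ ≤ a) (hc' : |c'| + 20 * ρ ≤ a) (hs : s = 0 → 6 * (ρ:ℤ) ≤ |c - c'|)
    (hN : 2 * a ≤ N) (hn : 2 * l ≤ n) :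
    H12S.PQ (1 / 2) (An a N) (fun F => (Lvi a N ρ c ↑F ∧ Gdi a N ρ r (4 * l) c ↑F) ∧
        LfiS a N ρ s c' ↑F) * κ ^ (4 * (2 * (6 * k) + 1) ^ 2) ≤
    H12S.PQ (1 / 2) (An a N ∪ tubeI a ρ c) (fun F => Tvi a N ρ c ↑F ∧
        LfiS a N ρ s c' ↑F) := sorry

theorem mid2i {κ : ℝ} {n : ℕ} (hW : H12S.Win (1 / 2) κ n) {a N ρ r l k : ℕ} {c c' : ℤ}
    {s : Fin 4} (hl : 1 ≤ l) (hr : 32 * l ≤ r) (hρ : 16 * r ≤ ρ) (hk : ρ ≤ k * l)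
    (hc : |c| + 20 * ρ ≤ a) (hc' : |c'| + 20 * ρ ≤ a) (hs : s = 0 → 6 * (ρ:ℤ) ≤ |c - c'|)
    (ha : 100 * ρ ≤ a) (hN : 2 * a ≤ N) (hn : 2 * l ≤ n) :
    H12S.PQ (1 / 2) (An a N ∪ tubeI a ρ c) (fun F => Tvi a N ρ c ↑F ∧
        LfiS a N ρ s c' ↑F ∧ GpiS a N ρ r (4 * l) s c' ↑F) *
          κ ^ (4 * (2 * (6 * k) + 1) ^ 2) ≤
    H12S.PQ (1 / 2) (EUi a N ρ c s c') (fun F => EVi a N ρ c s c' ↑F) := sorry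

/-! ### GLI : gluing with the separated arms of the origin in the box of radius `a/16` -/

theorem glue_in (hL : H934F.St_L) (B : ℕ) : ∃ K : ℝ, 0 < K ∧ ∀ (a N ρ : ℕ) (c : ℤ) (s : Fin 4)
    (c' : ℤ), Geoi B a N ρ c s c' →
    H12S.PQ (1 / 2) (EUi a N ρ c s c') (fun F => EVi a N ρ c s c' ↑F) ≤
      K * ((a:ℝ) / N) ^ (1/4 : ℝ) := sorry

/-! ### RECI -/

theorem AA_upper (hL : H934F.St_L) : ∃ C : ℝ, 0 < C ∧ ∀ a N : ℕ, 1 ≤ a → a ≤ N →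
    pAA a N ≤ C * ((a:ℝ) / N) ^ (1/4 : ℝ) := sorry

/-! ### STA -/

theorem st_A (hL : H934F.St_L) : H934F.St_A := sorry

end H985T
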